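import Mathlib
import Pool.Agent.TWM.C04
import Pool.Agent.TWM.C17

/-! Parts: TWQ.CHW, TWQ.DefD, TWQ.DPR, TWQ.DefsQ, TWQ.DefU, TWQ.StQ1, TWQ.StU, TWQ.THQ -/

section

/-!
# TWQ: characters of `(O/P)^*` are powers of the Teichmüller character (helper51)
-/

set_option autoImplicit false

namespace Pool.Agent.TWQ

/-- A multiplicative function on `O/P`, `P` maximal with `N + 1` classes, is outside `P` a power of a faithful character
with values in the `N`-th roots of unity. -/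
theorem pow_w {O : Type} [CommRing O] (P : Ideal O) (hP : P.IsMaximal) (N : ℕ)
    (hcard : Nat.card (O ⧸ P) = N + 1) (hN : N ≠ 0) (w : O → ℂ) (w1 : w 1 = 1)
    (wmul : ∀ x y, w (x * y) = w x * w y) (wper : ∀ x y, x - y ∈ P → w x = w y)
    (winj : ∀ x, x ∉ P → w x = 1 → x - 1 ∈ P) (wroot : ∀ x, x ∉ P → w x ^ N = 1)
    (ρ : O → ℂ) (r1 : ρ 1 = 1) (rmul : ∀ x y, ρ (x * y) = ρ x * ρ y)
    (rper : ∀ x y, x - y ∈ P → ρ x = ρ y) : ∃ e, e < N ∧ ∀ x, x ∉ P → ρ x = w x ^ e := by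
  classical
  let _ : Field (O ⧸ P) := Ideal.Quotient.field P
  have hfin : Finite (O ⧸ P) := Nat.finite_of_card_ne_zero (by rw [hcard]; omega)
  have : Fintype (O ⧸ P) := Fintype.ofFinite _
  have : Fintype (O ⧸ P)ˣ := Fintype.ofFinite _
  obtain ⟨g, hg⟩ := IsCyclic.exists_generator (α := (O ⧸ P)ˣ)
  have hcu : Nat.card (O ⧸ P)ˣ = N := by
    rw [Nat.card_units, hcard]
    rfl
  have hog : orderOf g = N := by
    rw [← hcu]
    exact orderOf_eq_card_of_forall_mem_zpowers hg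
  obtain ⟨γ, hγ⟩ := Ideal.Quotient.mk_surjective (g : O ⧸ P)
  have wpow : ∀ (x : O) (m : ℕ), w (x ^ m) = w x ^ m := by
    intro x m
    induction m with
    | zero => rw [pow_zero, pow_zero, w1]
    | succ m ih => rw [pow_succ, wmul, ih, pow_succ]
  have rpow : ∀ (x : O) (m : ℕ), ρ (x ^ m) = ρ x ^ m := by
    intro x m
    induction m with
    | zero => rw [pow_zero, pow_zero, r1]
    | succ m ih => rw [pow_succ, rmul, ih, pow_succ]
  have hγP : γ ∉ P := by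
    intro h
    have h1 : (Ideal.Quotient.mk P γ) = 0 := Ideal.Quotient.eq_zero_iff_mem.2 h
    rw [hγ] at h1
    exact g.ne_zero h1
  have hpowP : ∀ m : ℕ, γ ^ m ∉ P := by
    intro m h
    exact hγP (hP.isPrime.mem_of_pow_mem m h)
  have hpow1 : ∀ m : ℕ, γ ^ m - 1 ∈ P ↔ N ∣ m := by
    intro m
    rw [← Ideal.Quotient.eq_zero_iff_mem, map_sub, map_pow, map_one, sub_eq_zero, hγ, ← hog,
      orderOf_dvd_iff_pow_eq_one]
    constructor
    · intro h
      apply Units.ext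
      rw [Units.val_pow_eq_pow_val, h, Units.val_one]
    · intro h
      rw [← Units.val_pow_eq_pow_val, h, Units.val_one]
  have hprim : IsPrimitiveRoot (w γ) N := by
    refine ⟨wroot γ hγP, fun m hm => ?_⟩
    rw [← wpow] at hm
    exact (hpow1 m).1 (winj _ (hpowP m) hm)
  have hρN : ρ γ ^ N = 1 := by
    rw [← rpow, ← r1]
    exact rper _ _ ((hpow1 N).2 dvd_rfl)
  have : NeZero N := ⟨hN⟩
  obtain ⟨e, he, hee⟩ := hprim.eq_pow_of_pow_eq_one hρN
  refine ⟨e, he, fun x hx => ?_⟩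
  have hx0 : Ideal.Quotient.mk P x ≠ 0 := fun h => hx (Ideal.Quotient.eq_zero_iff_mem.1 h)
  obtain ⟨m, hm⟩ : ∃ m : ℕ, g ^ m = Units.mk0 _ hx0 := by
    have h1 := hg (Units.mk0 _ hx0)
    rw [← mem_powers_iff_mem_zpowers] at h1
    exact h1
  have hxm : x - γ ^ m ∈ P := by
    rw [← Ideal.Quotient.eq_zero_iff_mem, map_sub, map_pow, hγ, sub_eq_zero]
    have h2 := congrArg Units.val hm
    rw [Units.val_pow_eq_pow_val, Units.val_mk0] at h2
    exact h2.symm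
  rw [rper _ _ hxm, wper _ _ hxm, rpow, wpow, ← hee, ← pow_mul, ← pow_mul, mul_comm]

end Pool.Agent.TWQ


end

section

/-!
# TWQ: D-pairs (definition of helper3)
-/

set_option autoImplicit false

namespace Pool.Agent.TWQ

/-- `(u, g)` is a D-pair on `T`: `u = A(w)`, `g = (X A')(w)` modulo `t0 ^ N` for a polynomial `A` with
`v(A_k) ≤ v(t0) ^ k` -/
def DPr (V : ValuationSubring ℂ) (t0 : ℂ) (N : ℕ) (J : Type) (T : Finset J) (w u g : J → ℂ) :
    Prop :=
  ∃ A : Polynomial ℂ, (∀ k, V.valuation (A.coeff k) ≤ V.valuation t0 ^ k) ∧ ∀ c ∈ T,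
    V.valuation (u c - A.eval (w c)) ≤ V.valuation t0 ^ N ∧
    V.valuation (g c - (Polynomial.X * Polynomial.derivative A).eval (w c)) ≤
      V.valuation t0 ^ N

end Pool.Agent.TWQ


end

section

/-!
# TWQ, module DPR (helper3): tame expansions (`D`-pairs)

`w c`, `c ∈ T`, are the `N`-th roots of unity, `v(t0) < 1`. A pair `(u, g)` of functions on `T` is a
`D`-pair if there is a polynomial `A` with `v(A_k) ≤ v(t0)^k`, `u c ≡ A(w c)` and
`g c ≡ (X A')(w c)` modulo `t0^N`.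
-/

set_option autoImplicit false

namespace Pool.Agent.TWQ

open Polynomial

noncomputable section

/-- `w c`, `c ∈ T`, are the `N`-th roots of unity (their power sums), `v(t0) < 1` -/
structure DDat (V : ValuationSubring ℂ) (t0 : ℂ) (N : ℕ) {J : Type} (T : Finset J) (w : J → ℂ) :
    Prop where
  t1 : V.valuation t0 < 1
  N0 : 0 < N
  card : T.card = N
  vN : V.valuation (N : ℂ) = 1
  w1 : ∀ c ∈ T, V.valuation (w c) ≤ 1
  wN : ∀ c ∈ T, w c ^ N = 1
  sum : ∀ j, 0 < j → j < N → ∑ c ∈ T, w c ^ j = 0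

variable {V : ValuationSubring ℂ} {t0 : ℂ} {N : ℕ} {J : Type} {T : Finset J} {w : J → ℂ}

namespace DPR

theorem ev_le {A : Polynomial ℂ} {γ : V.ValueGroup} (h : ∀ k, V.valuation (A.coeff k) ≤ γ) {x : ℂ}
    (hx : V.valuation x ≤ 1) : V.valuation (A.eval x) ≤ γ := by
  rw [Polynomial.eval_eq_sum_range]
  refine V.valuation.map_sum_le fun k _ => ?_
  rw [map_mul, map_pow]
  calc V.valuation (A.coeff k) * V.valuation x ^ k ≤ γ * 1 :=
        mul_le_mul' (h k) (pow_le_one' hx k)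
    _ = γ := mul_one _

theorem co (A : Polynomial ℂ) (k : ℕ) : (X * derivative A).coeff k = k * A.coeff k := by
  rcases k with _ | k
  · simp
  · rw [Polynomial.coeff_X_mul, Polynomial.coeff_derivative]
    push_cast
    ring

theorem co_le {A : Polynomial ℂ} {k : ℕ} {γ : V.ValueGroup} (h : V.valuation (A.coeff k) ≤ γ) :
    V.valuation ((X * derivative A).coeff k) ≤ γ := by
  rw [co, map_mul]
  have h1 : V.valuation ((k : ℕ) : ℂ) ≤ 1 := by
    rw [ValuationSubring.valuation_le_one_iff]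
    exact natCast_mem V k
  calc V.valuation ((k : ℕ) : ℂ) * V.valuation (A.coeff k) ≤ 1 * γ := mul_le_mul' h1 h
    _ = γ := one_mul _

theorem le1 {A : Polynomial ℂ} (ht : V.valuation t0 ≤ 1)
    (h : ∀ k, V.valuation (A.coeff k) ≤ V.valuation t0 ^ k) (k : ℕ) :
    V.valuation (A.coeff k) ≤ 1 := (h k).trans (pow_le_one' ht k)

end DPR

open _root_.Pool.Agent.TWQ.DPR

namespace DPr

variable {u g u' g' : J → ℂ}

theorem u_le (D : DDat V t0 N T w) (h : DPr V t0 N J T w u g) {c : J} (hc : c ∈ T) :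
    V.valuation (u c) ≤ 1 := by
  obtain ⟨A, hA, h1⟩ := h
  have h2 := ev_le (le1 D.t1.le hA) (D.w1 c hc)
  have h3 := (h1 c hc).1.trans (pow_le_one' D.t1.le N)
  have h4 : u c = (u c - A.eval (w c)) + A.eval (w c) := by ring
  rw [h4]
  exact V.valuation.map_add_le h3 h2

theorem g_le (D : DDat V t0 N T w) (h : DPr V t0 N J T w u g) {c : J} (hc : c ∈ T) :
    V.valuation (g c) ≤ 1 := by
  obtain ⟨A, hA, h1⟩ := h
  have h2 := ev_le (fun k => co_le (le1 D.t1.le hA k)) (D.w1 c hc)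
  have h3 := (h1 c hc).2.trans (pow_le_one' D.t1.le N)
  have h4 : g c = (g c - (X * derivative A).eval (w c)) + (X * derivative A).eval (w c) := by ring
  rw [h4]
  exact V.valuation.map_add_le h3 h2

/-- only the values modulo `t0^N` matter -/
theorem congr (h : DPr V t0 N J T w u g) (hu : ∀ c ∈ T, V.valuation (u' c - u c) ≤
    V.valuation t0 ^ N) (hg : ∀ c ∈ T, V.valuation (g' c - g c) ≤ V.valuation t0 ^ N) :
    DPr V t0 N J T w u' g' := by
  obtain ⟨A, hA, h1⟩ := h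
  refine ⟨A, hA, fun c hc => ⟨?_, ?_⟩⟩
  · have h2 : u' c - A.eval (w c) = (u' c - u c) + (u c - A.eval (w c)) := by ring
    rw [h2]
    exact V.valuation.map_add_le (hu c hc) (h1 c hc).1
  · have h2 : g' c - (X * derivative A).eval (w c) =
        (g' c - g c) + (g c - (X * derivative A).eval (w c)) := by ring
    rw [h2]
    exact V.valuation.map_add_le (hg c hc) (h1 c hc).2

theorem congr_eq (h : DPr V t0 N J T w u g) (hu : ∀ c ∈ T, u' c = u c) (hg : ∀ c ∈ T, g' c = g c) :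
    DPr V t0 N J T w u' g' := by
  refine h.congr (fun c hc => ?_) (fun c hc => ?_)
  · rw [hu c hc, sub_self, map_zero]
    exact zero_le
  · rw [hg c hc, sub_self, map_zero]
    exact zero_le

theorem const {b : ℂ} (hb : V.valuation b ≤ 1) : DPr V t0 N J T w (fun _ => b) (fun _ => 0) := by
  refine ⟨C b, fun k => ?_, fun c _ => ⟨?_, ?_⟩⟩
  · rw [Polynomial.coeff_C]
    split_ifs with h
    · rw [h, pow_zero]
      exact hb
    · rw [map_zero]
      exact zero_le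
  · simp
  · simp

theorem add (h : DPr V t0 N J T w u g) (h' : DPr V t0 N J T w u' g') :
    DPr V t0 N J T w (fun c => u c + u' c) (fun c => g c + g' c) := by
  obtain ⟨A, hA, h1⟩ := h
  obtain ⟨A', hA', h1'⟩ := h'
  refine ⟨A + A', fun k => ?_, fun c hc => ⟨?_, ?_⟩⟩
  · rw [Polynomial.coeff_add]
    exact V.valuation.map_add_le (hA k) (hA' k)
  · have h2 : u c + u' c - (A + A').eval (w c) =
        (u c - A.eval (w c)) + (u' c - A'.eval (w c)) := by
      rw [Polynomial.eval_add]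
      ring
    rw [h2]
    exact V.valuation.map_add_le (h1 c hc).1 (h1' c hc).1
  · have h2 : g c + g' c - (X * derivative (A + A')).eval (w c) =
        (g c - (X * derivative A).eval (w c)) + (g' c - (X * derivative A').eval (w c)) := by
      simp only [derivative_add, mul_add, Polynomial.eval_add]
      ring
    rw [h2]
    exact V.valuation.map_add_le (h1 c hc).2 (h1' c hc).2

theorem sum {I : Type*} (s : Finset I) {u g : I → J → ℂ}
    (h : ∀ i ∈ s, DPr V t0 N J T w (u i) (g i)) :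
    DPr V t0 N J T w (fun c => ∑ i ∈ s, u i c) (fun c => ∑ i ∈ s, g i c) := by
  classical
  induction s using Finset.induction_on with
  | empty =>
    simp only [Finset.sum_empty]
    exact const (b := 0) (by rw [map_zero]; exact zero_le)
  | insert a s ha ih =>
    simp only [Finset.sum_insert ha]
    exact (h a (Finset.mem_insert_self a s)).add
      (ih fun i hi => h i (Finset.mem_insert_of_mem hi))

/-- Leibniz -/
theorem mul (D : DDat V t0 N T w) (h : DPr V t0 N J T w u g) (h' : DPr V t0 N J T w u' g') :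
    DPr V t0 N J T w (fun c => u c * u' c) (fun c => g c * u' c + u c * g' c) := by
  have ku := fun c hc => h.u_le D (c := c) hc
  have kg := fun c hc => h.g_le D (c := c) hc
  obtain ⟨A, hA, h1⟩ := h
  obtain ⟨A', hA', h1'⟩ := h'
  have e1 : ∀ c ∈ T, V.valuation (A.eval (w c)) ≤ 1 := fun c hc =>
    ev_le (le1 D.t1.le hA) (D.w1 c hc)
  have e1' : ∀ c ∈ T, V.valuation (A'.eval (w c)) ≤ 1 := fun c hc =>
    ev_le (le1 D.t1.le hA') (D.w1 c hc)
  have e2' : ∀ c ∈ T, V.valuation ((X * derivative A').eval (w c)) ≤ 1 := fun c hc =>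
    ev_le (fun k => co_le (le1 D.t1.le hA' k)) (D.w1 c hc)
  have m1 : ∀ {a b : ℂ}, V.valuation a ≤ 1 → V.valuation b ≤ V.valuation t0 ^ N →
      V.valuation (a * b) ≤ V.valuation t0 ^ N := by
    intro a b ha hb
    rw [map_mul]
    calc V.valuation a * V.valuation b ≤ 1 * V.valuation t0 ^ N := mul_le_mul' ha hb
      _ = _ := one_mul _
  refine ⟨A * A', fun k => ?_, fun c hc => ⟨?_, ?_⟩⟩
  · rw [Polynomial.coeff_mul]
    refine V.valuation.map_sum_le fun x hx => ?_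
    rw [map_mul, ← Finset.HasAntidiagonal.mem_antidiagonal.1 hx, pow_add]
    exact mul_le_mul' (hA _) (hA' _)
  · have h2 : u c * u' c - (A * A').eval (w c) =
        u c * (u' c - A'.eval (w c)) + A'.eval (w c) * (u c - A.eval (w c)) := by
      rw [Polynomial.eval_mul]
      ring
    rw [h2]
    exact V.valuation.map_add_le (m1 (ku c hc) (h1' c hc).1) (m1 (e1' c hc) (h1 c hc).1)
  · have h2 : g c * u' c + u c * g' c - (X * derivative (A * A')).eval (w c) =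
        (g c * (u' c - A'.eval (w c)) + A'.eval (w c) * (g c - (X * derivative A).eval (w c))) +
        (u c * (g' c - (X * derivative A').eval (w c)) +
          (X * derivative A').eval (w c) * (u c - A.eval (w c))) := by
      simp only [derivative_mul, mul_add, Polynomial.eval_add, Polynomial.eval_mul,
        Polynomial.eval_X]
      ring
    rw [h2]
    refine V.valuation.map_add_le (V.valuation.map_add_le (m1 (kg c hc) (h1' c hc).1)
      (m1 (e1' c hc) (h1 c hc).2)) (V.valuation.map_add_le (m1 (ku c hc) (h1' c hc).2)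
      (m1 (e2' c hc) (h1 c hc).1))

theorem pow (D : DDat V t0 N T w) (h : DPr V t0 N J T w u g) (n : ℕ) :
    DPr V t0 N J T w (fun c => u c ^ n) (fun c => n * u c ^ (n - 1) * g c) := by
  induction n with
  | zero =>
    refine (const (b := 1) (by rw [map_one])).congr_eq (fun c _ => pow_zero _) fun c _ => ?_
    simp
  | succ n ih =>
    refine (ih.mul D h).congr_eq (fun c _ => pow_succ _ _) fun c _ => ?_
    rcases n with _ | n
    · simp
    · simp only [Nat.add_sub_cancel]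
      push_cast
      ring

theorem smul (D : DDat V t0 N T w) {b : ℂ} (hb : V.valuation b ≤ 1) (h : DPr V t0 N J T w u g) :
    DPr V t0 N J T w (fun c => b * u c) (fun c => b * g c) := by
  refine ((const (w := w) (T := T) (t0 := t0) (N := N) (J := J) hb).mul D h).congr_eq (fun c _ => rfl)
    fun c _ => ?_
  ring

/-- a polynomial in `u` with integral coefficients -/
theorem poly (D : DDat V t0 N T w) (h : DPr V t0 N J T w u g) (n : ℕ) {b : ℕ → ℂ}
    (hb : ∀ j < n, V.valuation (b j) ≤ 1) :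
    DPr V t0 N J T w (fun c => ∑ j ∈ Finset.range n, b j * u c ^ j)
      (fun c => (∑ j ∈ Finset.range n, b j * (j * u c ^ (j - 1))) * g c) := by
  refine (sum (Finset.range n) (u := fun j c => b j * u c ^ j)
    (g := fun j c => b j * (j * u c ^ (j - 1) * g c)) fun j hj =>
    (h.pow D j).smul D (hb j (Finset.mem_range.1 hj))).congr_eq (fun c _ => rfl) fun c _ => ?_
  rw [Finset.sum_mul]
  refine Finset.sum_congr rfl fun j _ => ?_
  ring

/-- uniqueness of the logarithmic derivative -/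
theorem uniq (D : DDat V t0 N T w) (h : DPr V t0 N J T w u g) (h' : DPr V t0 N J T w u g') {c : J}
    (hc : c ∈ T) : V.valuation (g c - g' c) ≤ V.valuation t0 ^ N := by
  obtain ⟨A, hA, h1⟩ := h
  obtain ⟨A', hA', h1'⟩ := h'
  set B : Polynomial ℂ := A - A' with hB
  have hBk : ∀ k, V.valuation (B.coeff k) ≤ V.valuation t0 ^ k := by
    intro k
    rw [hB, Polynomial.coeff_sub]
    exact V.valuation.map_sub_le (hA k) (hA' k)
  have hBN : ∀ k, N ≤ k → V.valuation (B.coeff k) ≤ V.valuation t0 ^ N := fun k hk =>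
    (hBk k).trans (pow_le_pow_right_of_le_one' D.t1.le hk)
  have hev : ∀ c ∈ T, V.valuation (B.eval (w c)) ≤ V.valuation t0 ^ N := by
    intro c hc
    have h2 : B.eval (w c) = (u c - A'.eval (w c)) - (u c - A.eval (w c)) := by
      rw [hB, Polynomial.eval_sub]
      ring
    rw [h2]
    exact V.valuation.map_sub_le (h1' c hc).1 (h1 c hc).1
  -- the truncated sum
  have htr : ∀ c ∈ T, V.valuation (∑ k ∈ Finset.range N, B.coeff k * w c ^ k) ≤
      V.valuation t0 ^ N := by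
    intro c hc
    have h2 := hev c hc
    have hn : B.natDegree < N + (B.natDegree + 1) := by omega
    rw [Polynomial.eval_eq_sum_range' hn, Finset.sum_range_add] at h2
    have h3 : V.valuation (∑ k ∈ Finset.range (B.natDegree + 1),
        B.coeff (N + k) * w c ^ (N + k)) ≤ V.valuation t0 ^ N := by
      refine V.valuation.map_sum_le fun k _ => ?_
      rw [map_mul, map_pow]
      calc V.valuation (B.coeff (N + k)) * V.valuation (w c) ^ (N + k)
          ≤ V.valuation t0 ^ N * 1 :=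
            mul_le_mul' (hBN _ (Nat.le_add_right _ _)) (pow_le_one' (D.w1 c hc) _)
        _ = _ := mul_one _
    have h4 := V.valuation.map_sub_le h2 h3
    rwa [add_sub_cancel_right] at h4
  have hr : ∀ r < N, V.valuation (B.coeff r) ≤ V.valuation t0 ^ N := by
    intro r hr
    have hpw : ∀ k < N, ∑ c ∈ T, w c ^ (N - r + k) = if k = r then (N : ℂ) else 0 := by
      intro k hk
      split_ifs with hkr
      · have h5 : N - r + k = N := by omega
        rw [h5, Finset.sum_congr rfl D.wN, Finset.sum_const, D.card]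
        simp
      · rcases lt_or_ge (N - r + k) N with h6 | h6
        · exact D.sum _ (by omega) h6
        · have h7 : N - r + k = N + (k - r) := by omega
          rw [h7]
          have h8 : ∀ c ∈ T, w c ^ (N + (k - r)) = w c ^ (k - r) := by
            intro c hc
            rw [pow_add, D.wN c hc, one_mul]
          rw [Finset.sum_congr rfl h8]
          exact D.sum _ (by omega) (by omega)
    have h9 : (N : ℂ) * B.coeff r =
        ∑ c ∈ T, w c ^ (N - r) * ∑ k ∈ Finset.range N, B.coeff k * w c ^ k := by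
      symm
      calc ∑ c ∈ T, w c ^ (N - r) * ∑ k ∈ Finset.range N, B.coeff k * w c ^ k
          = ∑ k ∈ Finset.range N, B.coeff k * ∑ c ∈ T, w c ^ (N - r + k) := by
            simp only [Finset.mul_sum]
            rw [Finset.sum_comm]
            refine Finset.sum_congr rfl fun k _ => Finset.sum_congr rfl fun c _ => ?_
            rw [pow_add]
            ring
        _ = ∑ k ∈ Finset.range N, B.coeff k * (if k = r then (N : ℂ) else 0) :=
            Finset.sum_congr rfl fun k hk => by rw [hpw k (Finset.mem_range.1 hk)]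
        _ = (N : ℂ) * B.coeff r := by
            simp only [mul_ite, mul_zero]
            rw [Finset.sum_ite_eq' (Finset.range N) r, if_pos (Finset.mem_range.2 hr)]
            ring
    have h10 : V.valuation ((N : ℂ) * B.coeff r) ≤ V.valuation t0 ^ N := by
      rw [h9]
      refine V.valuation.map_sum_le fun c hc => ?_
      rw [map_mul, map_pow]
      calc V.valuation (w c) ^ (N - r) *
            V.valuation (∑ k ∈ Finset.range N, B.coeff k * w c ^ k)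
          ≤ 1 * V.valuation t0 ^ N := mul_le_mul' (pow_le_one' (D.w1 c hc) _) (htr c hc)
        _ = _ := one_mul _
    rwa [map_mul, D.vN, one_mul] at h10
  have hall : ∀ k, V.valuation (B.coeff k) ≤ V.valuation t0 ^ N := fun k =>
    (lt_or_ge k N).elim (hr k) (hBN k)
  have h11 := ev_le (fun k => co_le (hall k)) (D.w1 c hc)
  have h12 : g c - g' c = (g c - (X * derivative A).eval (w c)) -
      (g' c - (X * derivative A').eval (w c)) + (X * derivative B).eval (w c) := by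
    rw [hB, derivative_sub, mul_sub, Polynomial.eval_sub]
    ring
  rw [h12]
  exact V.valuation.map_add_le (V.valuation.map_sub_le (h1 c hc).2 (h1' c hc).2) h11

/-! ### the logarithmic form -/

theorem lmul (D : DDat V t0 N T w) {b b' : J → ℂ} (h : DPr V t0 N J T w u fun c => u c * b c)
    (h' : DPr V t0 N J T w u' fun c => u' c * b' c) :
    DPr V t0 N J T w (fun c => u c * u' c) fun c => u c * u' c * (b c + b' c) := by
  refine (h.mul D h').congr_eq (fun c _ => rfl) fun c _ => ?_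
  ring

theorem lpow (D : DDat V t0 N T w) {b : J → ℂ} (h : DPr V t0 N J T w u fun c => u c * b c) (n : ℕ) :
    DPr V t0 N J T w (fun c => u c ^ n) fun c => u c ^ n * (n * b c) := by
  refine (h.pow D n).congr_eq (fun c _ => rfl) fun c _ => ?_
  rcases n with _ | n
  · simp
  · simp only [Nat.add_sub_cancel]
    push_cast
    ring

theorem lprod (D : DDat V t0 N T w) {I : Type*} (s : Finset I) {u b : I → J → ℂ} (n : I → ℕ)
    (h : ∀ i ∈ s, DPr V t0 N J T w (u i) fun c => u i c * b i c) :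
    DPr V t0 N J T w (fun c => ∏ i ∈ s, u i c ^ n i)
      fun c => (∏ i ∈ s, u i c ^ n i) * ∑ i ∈ s, n i * b i c := by
  classical
  induction s using Finset.induction_on with
  | empty =>
    simp only [Finset.prod_empty, Finset.sum_empty, mul_zero]
    exact const (b := 1) (by rw [map_one])
  | insert a s ha ih =>
    simp only [Finset.prod_insert ha, Finset.sum_insert ha]
    exact ((h a (Finset.mem_insert_self a s)).lpow D (n a)).lmul D
      (ih fun i hi => h i (Finset.mem_insert_of_mem hi))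

/-- from `(u, g)` to the logarithmic form, `b = g / u` -/
theorem log (h : DPr V t0 N J T w u g) (hu : ∀ c ∈ T, V.valuation (u c) = 1) :
    DPr V t0 N J T w u fun c => u c * (g c / u c) := by
  refine h.congr_eq (fun c _ => rfl) fun c hc => ?_
  have h1 : u c ≠ 0 := by
    intro h2
    have h3 := hu c hc
    rw [h2, map_zero] at h3
    exact zero_ne_one h3
  field_simp

end DPr

/-- the logarithmic derivative of a `p`-th power is `0` modulo `p` -/
theorem logd (D : DDat V t0 N T w) {I : Type*} (s : Finset I) {u b : I → J → ℂ} (n : I → ℕ)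
    (h : ∀ i ∈ s, DPr V t0 N J T w (u i) fun c => u i c * b i c)
    (hu : ∀ i ∈ s, ∀ c ∈ T, V.valuation (u i c) = 1) (p : ℕ)
    (hp : V.valuation (p : ℂ) ≤ V.valuation t0 ^ N) {κ : ℂ} (hκ : V.valuation κ ≤ 1)
    {y gy : J → ℂ} (hy : DPr V t0 N J T w y gy)
    (he : ∀ c ∈ T, ∏ i ∈ s, u i c ^ n i = κ * y c ^ p) {c : J} (hc : c ∈ T) :
    V.valuation (∑ i ∈ s, n i * b i c) ≤ V.valuation t0 ^ N := by
  have h1 := DPr.lprod D s n h
  have h2 := ((hy.pow D p).smul D hκ).congr_eq he fun c _ => rfl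
  have h3 := h1.uniq D h2 hc
  have h4 : V.valuation (κ * ((p : ℂ) * y c ^ (p - 1) * gy c)) ≤ V.valuation t0 ^ N := by
    rw [map_mul, map_mul, map_mul, map_pow]
    calc V.valuation κ * (V.valuation (p : ℂ) * V.valuation (y c) ^ (p - 1) *
          V.valuation (gy c))
        ≤ 1 * (V.valuation t0 ^ N * 1 * 1) :=
          mul_le_mul' hκ (mul_le_mul' (mul_le_mul' hp (pow_le_one' (hy.u_le D hc) _))
            (hy.g_le D hc))
      _ = _ := by rw [one_mul, mul_one, mul_one]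
  have h5 : V.valuation ((∏ i ∈ s, u i c ^ n i) * ∑ i ∈ s, n i * b i c) ≤
      V.valuation t0 ^ N := by
    have h6 := V.valuation.map_add_le h3 h4
    rwa [sub_add_cancel] at h6
  have h7 : V.valuation (∏ i ∈ s, u i c ^ n i) = 1 := by
    rw [map_prod]
    refine Finset.prod_eq_one fun i hi => ?_
    rw [map_pow, hu i hi c hc, one_pow]
  rwa [map_mul, h7, one_mul] at h5

/-! ### expansions in a uniformizer of a totally tamely ramified extension -/

/-- terms with distinct valuations -/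
theorem dist_le {I : Type*} (s : Finset I) (f : I → ℂ)
    (hd : ∀ i ∈ s, ∀ j ∈ s, i ≠ j → V.valuation (f i) = V.valuation (f j) → f i = 0) {j : I}
    (hj : j ∈ s) : V.valuation (f j) ≤ V.valuation (∑ i ∈ s, f i) := by
  classical
  obtain ⟨m, hm, hmax⟩ := s.exists_max_image (fun i => V.valuation (f i)) ⟨j, hj⟩
  refine (hmax j hj).trans ?_
  by_cases h0 : f m = 0
  · rw [h0, map_zero]
    exact zero_le
  have h1 : V.valuation (∑ i ∈ s.erase m, f i) < V.valuation (f m) := by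
    refine V.valuation.map_sum_lt ((Valuation.ne_zero_iff _).2 h0) fun i hi => ?_
    have hi' := Finset.mem_of_mem_erase hi
    refine lt_of_le_of_ne (hmax i hi') fun h2 => h0 ?_
    exact hd m hm i hi' (Finset.ne_of_mem_erase hi).symm h2.symm
  rw [← Finset.add_sum_erase s f hm, V.valuation.map_add_eq_of_lt_left h1]

section bas

variable {E : Type} [Field E] [Algebra E ℂ] {pp Pi : ℂ}

theorem bas_val (hN : 0 < N) (hv : V.valuation Pi ^ N = V.valuation pp)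
    (hp : V.valuation pp < 1) (hp0 : pp ≠ 0)
    (hE : ∀ x : E, x ≠ 0 → ∃ k : ℤ, V.valuation (algebraMap E ℂ x) = V.valuation pp ^ k)
    (b : ℕ → E) :
    (∀ i ∈ Finset.range N, ∀ j ∈ Finset.range N, i ≠ j →
      V.valuation (algebraMap E ℂ (b i) * Pi ^ i) = V.valuation (algebraMap E ℂ (b j) * Pi ^ j) →
      algebraMap E ℂ (b i) * Pi ^ i = 0) ∧
    ∀ j < N, V.valuation (algebraMap E ℂ (b j) * Pi ^ j) ≤ 1 →
      V.valuation (algebraMap E ℂ (b j)) ≤ 1 := by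
  have hvp0 : V.valuation pp ≠ 0 := (Valuation.ne_zero_iff _).2 hp0
  have hvP0 : V.valuation Pi ≠ 0 := by
    intro h
    rw [h, zero_pow hN.ne'] at hv
    exact hvp0 hv.symm
  have hvP1 : V.valuation Pi < 1 := by
    by_contra h
    push Not at h
    have h2 := one_le_pow_of_one_le' h N
    rw [hv] at h2
    exact absurd hp (not_lt.2 h2)
  have hval : ∀ j, b j ≠ 0 → ∃ k : ℤ, V.valuation (algebraMap E ℂ (b j)) =
      V.valuation Pi ^ ((N : ℤ) * k) ∧ V.valuation (algebraMap E ℂ (b j) * Pi ^ j) =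
        V.valuation Pi ^ ((N : ℤ) * k + j) := by
    intro j hj
    obtain ⟨k, hk⟩ := hE (b j) hj
    have h1 : V.valuation (algebraMap E ℂ (b j)) = V.valuation Pi ^ ((N : ℤ) * k) := by
      rw [hk, ← hv, zpow_mul, zpow_natCast]
    refine ⟨k, h1, ?_⟩
    rw [map_mul, map_pow, h1, zpow_add₀ hvP0, zpow_natCast]
  have hinj := zpow_right_injective₀ (zero_lt_iff.2 hvP0) hvP1.ne
  refine ⟨fun i hi j hj hij he => ?_, fun j hj h => ?_⟩
  · by_contra h0
    have hi0 : b i ≠ 0 := by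
      intro h1
      apply h0
      rw [h1, map_zero, zero_mul]
    have hj0 : b j ≠ 0 := by
      intro h1
      rw [h1, map_zero, zero_mul, map_zero, Valuation.zero_iff] at he
      exact h0 he
    obtain ⟨k, -, hk⟩ := hval i hi0
    obtain ⟨k', -, hk'⟩ := hval j hj0
    rw [hk, hk'] at he
    have h2 := hinj he
    rw [Finset.mem_range] at hi hj
    apply hij
    have h3 : (N : ℤ) ∣ (i : ℤ) - j := ⟨k' - k, by linear_combination h2⟩
    have h4 : (i : ℤ) - j = 0 := Int.eq_zero_of_abs_lt_dvd h3 (by rw [abs_lt]; omega)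
    omega
  · by_cases h0 : b j = 0
    · rw [h0, map_zero, map_zero]
      exact zero_le
    obtain ⟨k, hk1, hk2⟩ := hval j h0
    rw [hk2] at h
    rw [hk1]
    have h5 : 0 ≤ (N : ℤ) * k + j := by
      by_contra h6
      push Not at h6
      have h7 := one_lt_zpow_of_neg₀ (zero_lt_iff.2 hvP0) hvP1 h6
      exact absurd h (not_le.2 h7)
    have h8 : 0 ≤ k := by
      by_contra h9
      push Not at h9
      have h10 : (N : ℤ) * k ≤ (N : ℤ) * (-1) :=
        mul_le_mul_of_nonneg_left (by omega) (by positivity)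
      omega
    have h11 : 0 ≤ (N : ℤ) * k := by positivity
    exact zpow_le_one₀ (zero_lt_iff.2 hvP0) hvP1.le h11

/-- (BAS) the elements of the integral closure are polynomials in `Pi` with integral coefficients -/
theorem bas (hN : 0 < N) (hv : V.valuation Pi ^ N = V.valuation pp)
    (hp : V.valuation pp < 1) (hp0 : pp ≠ 0)
    (hE : ∀ x : E, x ≠ 0 → ∃ k : ℤ, V.valuation (algebraMap E ℂ x) = V.valuation pp ^ k)
    (W : Submodule E ℂ) [Module.Finite E W] (hW : Module.finrank E W ≤ N)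
    (hPi : ∀ j < N, Pi ^ j ∈ W) {y : ℂ} (hy : y ∈ W) (hy1 : V.valuation y ≤ 1) :
    ∃ b : ℕ → E, y = ∑ j ∈ Finset.range N, algebraMap E ℂ (b j) * Pi ^ j ∧
      ∀ j < N, V.valuation (algebraMap E ℂ (b j)) ≤ 1 := by
  classical
  have hvp0 : V.valuation pp ≠ 0 := (Valuation.ne_zero_iff _).2 hp0
  have hPi0 : Pi ≠ 0 := by
    intro h
    rw [h, map_zero, zero_pow hN.ne'] at hv
    exact hvp0 hv.symm
  let e : Fin N → W := fun j => ⟨Pi ^ (j : ℕ), hPi j j.2⟩
  -- sums over `Fin N`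
  have hs : ∀ c : Fin N → E, (((∑ j, c j • e j : W)) : ℂ) = ∑ j ∈ Finset.range N,
      algebraMap E ℂ (if h : j < N then c ⟨j, h⟩ else 0) * Pi ^ j := by
    intro c
    rw [← Fin.sum_univ_eq_sum_range fun j : ℕ =>
      algebraMap E ℂ (if h : j < N then c ⟨j, h⟩ else 0) * Pi ^ j]
    rw [AddSubmonoidClass.coe_finsetSum]
    refine Finset.sum_congr rfl fun j _ => ?_
    rw [dif_pos j.2, Submodule.coe_smul, Algebra.smul_def]
  have hli : LinearIndependent E e := by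
    rw [Fintype.linearIndependent_iff]
    intro c hc j
    have h1 := hs c
    rw [hc] at h1
    have h2 := (bas_val hN hv hp hp0 hE fun j => if h : j < N then c ⟨j, h⟩ else 0).1
    have h3 := dist_le (V := V) (Finset.range N) (fun j =>
      algebraMap E ℂ (if h : j < N then c ⟨j, h⟩ else 0) * Pi ^ j) h2
      (Finset.mem_range.2 j.2)
    rw [← h1, ZeroMemClass.coe_zero, map_zero] at h3
    have h4 : V.valuation (algebraMap E ℂ (if h : (j : ℕ) < N then c ⟨j, h⟩ else 0) *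
        Pi ^ (j : ℕ)) = 0 := le_antisymm h3 zero_le
    rw [Valuation.zero_iff, mul_eq_zero] at h4
    rcases h4 with h4 | h4
    · rw [dif_pos j.2] at h4
      exact (map_eq_zero _).1 h4
    · exact absurd h4 (pow_ne_zero _ hPi0)
  have hcard : Fintype.card (Fin N) = Module.finrank E W := by
    refine le_antisymm ?_ ?_
    · exact hli.fintype_card_le_finrank
    · rw [Fintype.card_fin]
      exact hW
  have hspan := hli.span_eq_top_of_card_eq_finrank' hcard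
  have hyS : (⟨y, hy⟩ : W) ∈ Submodule.span E (Set.range e) := by
    rw [hspan]
    trivial
  obtain ⟨c, hc⟩ := (Submodule.mem_span_range_iff_exists_fun E).1 hyS
  have h5 := hs c
  rw [hc] at h5
  refine ⟨fun j => if h : j < N then c ⟨j, h⟩ else 0, h5, ?_⟩
  obtain ⟨h6, h7⟩ := bas_val hN hv hp hp0 hE fun j => if h : j < N then c ⟨j, h⟩ else 0
  intro j hj
  refine h7 j hj ?_
  have h8 := dist_le (V := V) (Finset.range N) (fun j =>
      algebraMap E ℂ (if h : j < N then c ⟨j, h⟩ else 0) * Pi ^ j) h6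
      (Finset.mem_range.2 hj)
  refine h8.trans ?_
  rw [← h5]
  exact hy1

end bas

end

end Pool.Agent.TWQ


end

section

/-!
# TWQ: Theorem C without condition at `p` (MP_b78433_nt): common definitions and final statements (helper60)

`K / k` finite abelian of degree prime to `p`, RAMIFIED above `p` allowed: `K ≤ RF (idl (f * p))`. Both types of `p ≥ 5` at the same
time (`SetQ`): inert (`P = (p)`, `P' = ⊤`, `q = p²`) and split (`P' = cjI P`, `q = p`); `P P' = (p)`, `O/P` has `q` elements, `N = q - 1`.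
`w` is the Teichmüller character of `(O/P)^*` (`TeQ`). A character of `Gal(K B_n / k)` (its inverse, lifted to roots of unity) has the values
`thQ R kp eta ψ w e b i x = thT R kp eta ψ i x * w x ^ (e - 1) * w (star x) ^ b` (`ChQ`), `1 ≤ e ≤ N`, and `b = 0` (inert), `1 ≤ b ≤ N` (split). It is unramified
at `P` if and only if `e = 1`. The sum is `SSTI R M (thQ ..) w = Σ_i mu_i Σ_(x mod M) thQ i x w(x) ee(pt R M i x)`, `M = f l^n p`.

FINAL STATEMENTS. `S_SYMQ` (block C'): `v(p)^(N - e) ≤ v(SSTI)^N` for all large `n`. `S_CRTQ` (block B'): for `e ≥ 2` a large sum gives a non-power (the Kummer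
argument of the blocks B is replaced by a logarithmic derivative modulo `p`; no condition at Frobenius).
-/

set_option autoImplicit false

open WeierstrassCurve Polynomial NumberField IsDedekindDomain

namespace Pool.Agent.TWQ

open _root_.MU3 Pool.Agent.MU3A Pool.Agent.MU3B Pool.Agent.MU3C Pool.Agent.RI Pool.Agent.RID
open Pool.Agent.MUX Pool.Agent.MUXU Pool.Agent.MUXW Pool.Agent.TWT Pool.Agent.TWI
open Pool.Agent.MU3V (cls Sub GD algDF)
open Pool.Agent.MUXV (GR InK tX)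
open Pool.Agent.MUXI (IA RE AR)
open OnePoint

noncomputable section

/-! ## Definitions -/

/-- the standing hypotheses: `p ≥ 5` inert (`P' = ⊤`, `q = p²`) or split (`P' = cjI P`, `q = p`) in `k`; `3 ∣ f` -/
def SetQ (p q : ℕ) (A B : ℤ) (P P' : Ideal (OO A B)) (V : ValuationSubring ℂ) (f : ℕ) : Prop :=
  3 ∣ f ∧ ((SetI p A B P V f ∧ P' = ⊤ ∧ q = p ^ 2) ∨ (SetG p A B P V f ∧ P' = cjI P ∧ q = p))

variable {A B : ℤ} {n : ℕ} {ι : Type}

/-- `w` is the Teichmüller character of `(O/P)^*` -/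
def TeQ (p q : ℕ) (P : Ideal (OO A B)) (V : ValuationSubring ℂ) (w : OO A B → ℂ) : Prop :=
  (q = p ^ 2 ∧ TeiI p P V w) ∨ (q = p ∧ TeiP p P V w)

/-- `kp, eta, e, b`: the values `kp i * eta x * w x ^ (e - 1) * w (star x) ^ b` of a character, of order prime to `p`, on the
ideals `x * cjI (b i)` prime to `f p` -/
structure ChQ (p q f : ℕ) (P P' : Ideal (OO A B)) (R : Reps A B n ι) (kp : ι → ℂ)
    (eta : OO A B → ℂ) (e b : ℕ) : Prop where
  one : eta 1 = 1
  mul : ∀ x y, eta (x * y) = eta x * eta y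
  per : ∀ x y, x - y ∈ (idl f : Ideal (OO A B)) → eta x = eta y
  supp : ∀ x, eta x ≠ 0 ↔ IsCoprime (sp x) (idl f : Ideal (OO A B))
  neg : eta (-1) = (-1) ^ (e - 1 + b)
  kp0 : kp R.i0 = 1
  fin : ∃ r : ℕ, ¬ p ∣ r ∧ (∀ i, kp i ^ r = 1) ∧ ∀ x, eta x ≠ 0 → eta x ^ r = 1
  e1 : 1 ≤ e
  eN : e < q
  bb : (P' = ⊤ ∧ b = 0) ∨ (P' = cjI P ∧ 1 ≤ b ∧ b < q)

/-- the values are multiplicative on the ideals: `kp i kp j th₀(x) = kp k th₀(y)` if `x cjI(b i) cjI(b j) = y cjI(b k)` -/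
def IdC (p f : ℕ) (R : Reps A B n ι) (kp : ι → ℂ) (eta w : OO A B → ℂ) (e b : ℕ) : Prop :=
  ∀ (i j k : ι) (x y : OO A B), IsCoprime x ((f * p : ℕ) : OO A B) →
    IsCoprime y ((f * p : ℕ) : OO A B) →
    sp x * (cjI (R.b i) * cjI (R.b j)) = sp y * cjI (R.b k) →
    kp i * kp j * (eta x * w x ^ (e - 1) * w (star x) ^ b) =
      kp k * (eta y * w y ^ (e - 1) * w (star y) ^ b)

/-- the values of the character -/
def thQ (R : Reps A B n ι) (kp : ι → ℂ) (eta : OO A B → ℂ) {r : ℕ} (ψ : DirichletCharacter ℂ r)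
    (w : OO A B → ℂ) (e b : ℕ) (i : ι) (x : OO A B) : ℂ :=
  thT R kp eta ψ i x * w x ^ (e - 1) * w (star x) ^ b

/-! ## The final statements -/

open Pool.Agent.TWR in
/-- (SYMQ) for ALL large `n` the sums of all characters of level `n` are large. -/
def S_SYMQ : Prop :=
  ∀ (l g h : ℕ), Gen l g h → ∀ (p q : ℕ) (A B : ℤ) (P P' : Ideal (OO A B))
    (V : ValuationSubring ℂ) (f : ℕ), SetQ p q A B P P' V f → l ∣ f → TorX A B →
    ∀ (ι : Type) [Fintype ι] (R : Reps A B (p * f) ι), GRd V R → ∀ (w : OO A B → ℂ),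
    TeQ p q P V w → ∀ (J : Type) [Finite J] (kp : J → ι → ℂ) (eta : J → OO A B → ℂ)
    (e b : J → ℕ), (∀ j, ChQ p q f P P' R (kp j) (eta j) (e j) (b j)) →
    (∀ j, IdC p f R (kp j) (eta j) w (e j) (b j)) → ∃ n0 : ℕ, ∀ n : ℕ, n0 ≤ n → ∀ j,
      ∀ ψ : DirichletCharacter ℂ (l ^ n), ψ (-1) = 1 →
      ψ (1 + (l : ZMod (l ^ n)) ^ (n - 1)) ≠ 1 →
      V.valuation (p : ℂ) ^ (q - 1 - e j) ≤
        V.valuation (SSTI R (f * l ^ n * p) (thQ R (kp j) (eta j) ψ w (e j) (b j)) w) ^ (q - 1)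

/-- (CRTQ) from a large sum to a non-power, for a character which is ramified at `P` (`e ≥ 2`). -/
def S_CRTQ : Prop :=
  ∀ (p q : ℕ) [Fact p.Prime] (A B : ℤ) (P P' : Ideal (OO A B)) (V : ValuationSubring ℂ) (f : ℕ),
    SetQ p q A B P P' V f → TorX A B → ∀ (ι : Type) [Fintype ι] (R : Reps A B (p * f) ι),
    GRd V R → ∀ (w : OO A B → ℂ), TeQ p q P V w → ∀ (kp : ι → ℂ) (eta : OO A B → ℂ) (e b : ℕ),
    ChQ p q f P P' R kp eta e b → 2 ≤ e →
    ∀ (l N : ℕ), l.Prime → ¬ p ∣ l - 1 → l ∣ f → ∀ ψ : DirichletCharacter ℂ (l ^ N),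
    ψ (-1) = 1 → ∀ (a : ℕ), 1 < a → a.Coprime (6 * f * p) →
    V.valuation (1 - (a : ℂ) ^ 2 * thQ R kp eta ψ w e b R.i0 a) = 1 →
    ∀ (H : Finset ℂ), IsHalf (R.L R.i0) a H →
    ∀ (θ : (RF (idl (f * l ^ N * p)) : IntermediateField (kk A B) ℂ)),
    (θ : ℂ) = ThetaH (R.L R.i0) H (pt R (f * l ^ N * p) R.i0 1) →
    ∀ (D : IntermediateField ℚ ℂ) [FiniteDimensional ℚ D] [FiniteDimensional ℚ (kk A B)]
      (h : kk A B ≤ D),
    Sub D (RF (idl (f * l ^ N * p)) : IntermediateField (kk A B) ℂ) → letI := algC h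
    ∀ (χ : (D ≃ₐ[kk A B] D) →* (IsLocalRing.ResidueField V)ˣ),
    (∀ (τ : D ≃ₐ[kk A B] D), ∀ r ∈ XX R (f * l ^ N * p) h τ,
      rsd V (thQ R kp eta ψ w e b r.1 (Quotient.out r.2)) =
        (((χ τ)⁻¹ : (IsLocalRing.ResidueField V)ˣ) : IsLocalRing.ResidueField V)) →
    ∀ c₀ : D, (c₀ : ℂ) = cW h θ →
    V.valuation (p : ℂ) ^ (q - 1 - e) ≤
      V.valuation (SSTI R (f * l ^ N * p) (thQ R kp eta ψ w e b) w) ^ (q - 1) →
    ∃ t : (IsLocalRing.ResidueField V) →+ ZMod p, ∀ y : D, y ^ p ≠ Pool.Agent.TWK.sE p χ t c₀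

end

end Pool.Agent.TWQ


end

section

/-!
# TWQ: the unit theorem and the class number theorem (statements, helper60)
-/

set_option autoImplicit false

open NumberField IsDedekindDomain

namespace Pool.Agent.TWQ

open _root_.MU3 Pool.Agent.MU3 Pool.Agent.MU3A Pool.Agent.MU3B Pool.Agent.RI Pool.Agent.RID
  Pool.Agent.MUX Pool.Agent.MUXK Pool.Agent.MUXW Pool.Agent.MUXJ Pool.Agent.TWT Pool.Agent.TWI
  Pool.Agent.TWK Pool.Agent.TWR
open Pool.Agent.MU3V (Sub GD)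

/-- (UNQ) the unit theorem for all large `n`, `K ≤ RF (idl (f p))` of degree prime to `p`, ramified above `p` allowed; `UnitAt` is the conclusion
of `S_UNITA`, `S_UNITI`. -/
def S_UNQ : Prop :=
  ∀ (l g h : ℕ), Gen l g h → ∀ (p q : ℕ) [Fact p.Prime] (A B : ℤ) (P P' : Ideal (OO A B))
    (V : ValuationSubring ℂ) (f : ℕ), SetQ p q A B P P' V f → l ^ h ∣ f → TorX A B →
    ∀ (ι : Type) [Fintype ι] (R : Reps A B (p * f) ι), GRd V R →
    (P' ≠ ⊤ → ∃ V' : ValuationSubring ℂ, OverI V' P' ∧ GRd V' R) →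
    ∀ (K : IntermediateField ℚ ℂ) [FiniteDimensional ℚ K] [FiniteDimensional ℚ (kk A B)]
    (hk : kk A B ≤ K), ¬ p ∣ Module.finrank (kk A B) (IntermediateField.extendScalars hk) →
    Sub K (RF (idl (f * p)) : IntermediateField (kk A B) ℂ) →
    ∀ (Bn : ℕ → IntermediateField ℚ ℂ) [∀ n, FiniteDimensional ℚ ↥(K ⊔ Bn n)],
    (∀ n, IsLayer l n (Bn n)) → Monotone Bn →
    (∀ n, Sub (K ⊔ Bn n) (RF (idl (f * l ^ (n + h) * p)) : IntermediateField (kk A B) ℂ)) →
    ∀ (a : ℕ), 1 < a → a.Coprime (6 * f * p) → ∀ (H : Finset ℂ), IsHalf (R.L R.i0) a H →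
    ∃ n0 : ℕ, ∀ n : ℕ, n0 ≤ n → UnitAt p l h f V R H K Bn n

/-- (FINQ) there is `n₀` such that `v_p h(L) = v_p h(L ∩ K B_n)` for all `n ≥ n₀`, `b` and all fields
`k ≤ L ≤ K B_(n+b)`; `p` does not divide the class number of `k`. -/
def S_FINQ : Prop :=
  ∀ (l g h : ℕ), Gen l g h → ∀ (p q : ℕ) (A B : ℤ) (P P' : Ideal (OO A B))
    (V : ValuationSubring ℂ) (f : ℕ), SetQ p q A B P P' V f → l ^ h ∣ f → TorX A B →
    ¬ p ∣ Module.finrank (kk A B) (RF (⊤ : Ideal (OO A B)) : IntermediateField (kk A B) ℂ) →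
    ∀ (ι : Type) [Fintype ι] (R : Reps A B (p * f) ι), GRd V R →
    (P' ≠ ⊤ → ∃ V' : ValuationSubring ℂ, OverI V' P' ∧ GRd V' R) →
    ∀ (K : IntermediateField ℚ ℂ) [FiniteDimensional ℚ K] [FiniteDimensional ℚ (kk A B)]
    (hk : kk A B ≤ K), ¬ p ∣ Module.finrank (kk A B) (IntermediateField.extendScalars hk) →
    Sub K (RF (idl (f * p)) : IntermediateField (kk A B) ℂ) →
    ∀ (Bn : ℕ → IntermediateField ℚ ℂ) [∀ n, FiniteDimensional ℚ ↥(K ⊔ Bn n)],
    (∀ n, IsLayer l n (Bn n)) → Monotone Bn →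
    (∀ n, Sub (K ⊔ Bn n) (RF (idl (f * l ^ (n + h) * p)) : IntermediateField (kk A B) ℂ)) →
    ∃ n₀ : ℕ, ∀ n : ℕ, n₀ ≤ n → ∀ b : ℕ,
      ∀ L : IntermediateField ℚ ℂ, kk A B ≤ L → L ≤ K ⊔ Bn (n + b) →
        padicValNat p (classNo L) = padicValNat p (classNo (L ⊓ (K ⊔ Bn n)))

end Pool.Agent.TWQ


end

section

/-!
# TWQ, block B': a large sum gives a non-power, for a character ramified at `P` (helper60)

`SetQ p q A B P P' V f` (`p` inert: `P' = ⊤`, `q = p²`; `p` split: `P' = cjI P`, `q = p`), `N = q - 1`, `R : Reps A B (p * f) ι`, `m` a level prime to `p`, `M = m p`,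
`F = RF (idl M)`, `F0 = RF (idl m * P')`, `τ = v(t0)`, `τ^N = v(p)`. `x0 ∈ P`, `x0 ≡ 1` modulo `idl m * P'`; `y0 ∈ P'`, `y0 ∉ P` (`LvQ`); `T` = representatives of the nonzero
classes modulo `P`; `a_c = x0 + c m y0`, `c ∈ T`: prime to `M`, `≡ 1` modulo `idl m * P'`. `pt R M i (x a_c) = z + pt R p i (x c y0)`, `z = pt R M i (x x0)`. `γ_c ∈ Gal(F/k)` maps the base point
to `± pt R M i0 a_c`; `{γ_c} = Gal(F/F0)`, totally ramified.

THE ARGUMENT. A pair `(u, g)` of functions on `T` is a `D`-pair (`DPr`, helper3: `Pool/Agent/TWQ/DefD.lean`, `DPR.lean`) if `u = A(w(c))`, `g = (X A')(w(c))` modulo `t0^N` for a polynomial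
with `v(A_k) ≤ τ^k`: `g` is the logarithmic derivative of `u` in the direction of `P` (`w(c) t0 d/dz`). It is unique modulo `t0^N`. (1) For every `y ∈ F`, `v(y) ≤ 1`, the function `c ↦ γ_c y` is part of a `D`-pair
(FIQ): `y = Σ_(j<N) b_j Π^j`, `b_j ∈ F0`, `v(b_j) ≤ 1`, `Π = xn(pt R M i0 1) - xn(pt R M i0 x0)`. (2) For `θ = Θ(pt R M i0 1)`: `γ_c(σθ)` has the derivative `γ_c(σθ) mu_i w(x c) t0 dlX(L_i; pt R M i (x a_c))`, if `σ` hits `(i, x)` (DLQ). (3) If
`∏_σ (σθ)^(n_t(σ)) = y^p` with `y ∈ D ≤ F` then (`logd` of DPR; `v(p) = τ^N`) `v(t0 Σ_σ n_t(σ) mu w(x_σ c) dlX(..)) ≤ τ^N`, `n_t(σ) = t(χ(σ)⁻¹)`. For all `t`: (RSQ) `v(Σ_σ th(σ) mu w(x_σ a_c) dlX(..)) ≤ τ^(N-1)`; the sum is a unit times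
`SDTI` (SIGQ), so (SDQ) `v(SSTI) ≤ τ^(N-1)`, and `e ≥ 2`, `v(SSTI)^N ≥ v(p)^(N-e)` is a contradiction. No condition at Frobenius.

Every `def S_X : Prop` is the statement of a module, which proves `theorem t_X : S_X` (or `theorem t_X (h : S_Y) .. : S_X` with the statements named under USES, fewer is fine) in `Pool/Agent/TWQ/X.lean`, namespace `Pool.Agent.TWQ`.
THEOREMS which may be cited (import the file): `Pool.Agent.TWT.t_HTF`, `t_IDP`, `t_VPG`, `t_PIS`, `t_KEP`, `t_PTA`, `t_TAY`, `t_ADV`, `t_THT`, `t_FOI` (`Pool/Agent/TWT/X.lean`; some have hypotheses which are theorems too), `Pool.Agent.TWI.t_TEP`, `t_IDPI`, `t_VPGI`, `t_UNRGI`, `t_MUGI`, `t_CNTI` (`Pool/Agent/TWI/X.lean`), `a_LGI`, `a_TYI`,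
`a_VPA`, `a_KRI`, `a_ROT`, `a_MLI`, `i_EXP`, `i_GRI`, `i_PTI` (`Pool/Agent/TWI/AAll.lean`), helper3's `exq`, `exq_theta`, `exq_x` (`Pool/Agent/TWQ/EXQ.lean`) and `DPR.lean`; all facts named in the headers of `StT2.lean`, `StI1.lean`.
-/

set_option autoImplicit false

open WeierstrassCurve Polynomial NumberField IsDedekindDomain

namespace Pool.Agent.TWQ

open _root_.MU3 Pool.Agent.MU3A Pool.Agent.MU3B Pool.Agent.MU3C Pool.Agent.RI Pool.Agent.RID
open Pool.Agent.MUX Pool.Agent.MUXU Pool.Agent.MUXW Pool.Agent.TWT Pool.Agent.TWI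
open Pool.Agent.MU3V (cls Sub GD algDF)
open Pool.Agent.MUXV (GR InK tX)
open Pool.Agent.MUXI (IA RE AR)
open OnePoint

noncomputable section

/-! ## Definitions -/

/-- the numbers `x0`, `y0` for a level `m` prime to `p` -/
structure LvQ (p : ℕ) {A B : ℤ} (P P' : Ideal (OO A B)) (m : ℕ) (x0 y0 : OO A B) : Prop where
  m3 : 3 ≤ m
  pm : ¬ p ∣ m
  xP : x0 ∈ P
  xm : x0 - 1 ∈ (idl m : Ideal (OO A B)) * P'
  yP' : y0 ∈ P'
  yP : y0 ∉ P

/-- Taylor expansions at all points of the `L_i` outside the kernel of reduction in the direction of the points `pt R p i (x y0)`, which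
have the logarithms `mu_i w(x) t0` modulo `t0^q` -/
structure LocQ (p q : ℕ) {A B : ℤ} {n : ℕ} {ι : Type} (P : Ideal (OO A B))
    (V : ValuationSubring ℂ) (R : Reps A B n ι) (y0 : OO A B) (w : OO A B → ℂ) (t0 : ℂ) :
    Prop where
  ne : t0 ≠ 0
  vt : V.valuation t0 ^ (q - 1) = V.valuation (p : ℂ)
  loc : ∀ i, ∃ (a2 a4 : V) (lam : ℕ → ℂ), GRa V (R.L i) a2 a4 ∧ HasTyI V (R.L i) q a2 a4 lam ∧
    ∀ x : OO A B, x ∉ P → InK V (R.L i) (xn (R.L i)) (pt R p i (x * y0)) ∧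
      pt R p i (x * y0) ∉ (R.L i).lattice ∧
      V.valuation (tX (xn (R.L i)) (yy (R.L i)) (pt R p i (x * y0))) = V.valuation t0 ∧
      V.valuation (vpi lam q (tX (xn (R.L i)) (yy (R.L i)) (pt R p i (x * y0))) -
        muX R i * w x * t0) ≤ V.valuation t0 ^ q

/-! ## 1. Ideals, valuations, characters -/

/-- (IDQ) ideals. PROOF. Inert: `t_IDPI`, `t_TEP` (`P * ⊤ = P = idl p`, `y0 = 1`, `IsCoprime P ⊤`). Split: `t_IDP`; `nI P = p` is the card of `O/P` (`IsPN`), `T` = `{1, .., p-1}`; `T.card`: bijection of a `T` with the nonzero classes. `p ≤ q`. `fD`, `OverI`: fields of `SetI`, `SetG`. Last part of the `LvQ` clause: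
(a) `a_c = x0 + c m y0`: modulo `P`: `≡ c m y0 ∉ P` (`P` prime; `m ∉ P`); modulo `idl m * P'`: `≡ x0 ≡ 1` (`m y0 ∈ idl m * P'`); `idl (m p) = idl m * P' * P`. (b) `x` prime to `m p`, `x ≡ 1` modulo `I = idl m * P'`: `x ∉ P`; `O/P` is a field, `m y0 ∉ P`: `x ≡ c m y0` modulo `P` for some `c ∈ T` (`RepI.surj`, `x ∉ P` gives `c ∉ P`). `x - a_c ∈ P` and `∈ I`, `P` and `I` coprime: in the product `= idl (m p)`.
(c) `x x0 ∈ idl (m p) ≤ I`, `x0 ≡ 1` modulo `I`: `x ∈ I`. (d) `x ∈ I`, `x0 ∈ P`. -/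
def S_IDQ : Prop :=
  ∀ (p q : ℕ) (A B : ℤ) (P P' : Ideal (OO A B)) (V : ValuationSubring ℂ) (f : ℕ),
    SetQ p q A B P P' V f →
    (CQ A B ∧ p.Prime ∧ 5 ≤ p ∧ p ≤ q ∧ P.IsPrime ∧ OverI V P ∧ f ≠ 0 ∧ ¬ p ∣ f ∧
      2 * absD A B ∣ (f : ℤ) ∧ P * P' = idl p ∧ IsCoprime P P') ∧
    (∀ c : ℤ, (c : OO A B) ∈ P ↔ (p : ℤ) ∣ c) ∧
    (∃ T, RepI P T) ∧ (∀ T, RepI P T → T.card = q - 1) ∧
    (∀ m : ℕ, 3 ≤ m → ¬ p ∣ m → ∃ x0 y0 : OO A B, LvQ p P P' m x0 y0) ∧
    (∀ (m : ℕ) (x0 y0 : OO A B), LvQ p P P' m x0 y0 →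
      (∀ c : OO A B, c ∉ P → IsCoprime (x0 + c * m * y0) ((m * p : ℕ) : OO A B) ∧
        x0 + c * m * y0 - 1 ∈ (idl m : Ideal (OO A B)) * P') ∧
      (∀ T, RepI P T → ∀ x : OO A B, IsCoprime x ((m * p : ℕ) : OO A B) →
        x - 1 ∈ (idl m : Ideal (OO A B)) * P' →
        ∃ c ∈ T, x - (x0 + c * m * y0) ∈ idl (A := A) (B := B) (m * p)) ∧
      (∀ x : OO A B, x * x0 ∈ idl (A := A) (B := B) (m * p) →
        x ∈ (idl m : Ideal (OO A B)) * P') ∧
      ∀ x ∈ (idl m : Ideal (OO A B)) * P', x * x0 ∈ idl (A := A) (B := B) (m * p)) ∧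
    ∀ (l N : ℕ), l ∣ f → ∀ x : OO A B, IsCoprime (sp x) (idl f : Ideal (OO A B)) → x ∉ P →
      (P' ≠ ⊤ → x ∉ P') → IsCoprime x ((f * l ^ N * p : ℕ) : OO A B)

/-- (VPQ) the valuation. PROOF. `t_VPG`, `t_MUG`, `t_VPGI`, `t_MUGI`. `v(q - 1) = 1`: `p ∤ q - 1`. Last clause: `p z = pt R m i (x x0)`-argument of `S_XPCI`, `S_XPC`: if `n z` is in the kernel of reduction, `n = 1, 2, a`, then so is `p (n z)`, which is killed by `m` modulo `L_i` (`m p z = om_i N(b_i) emb (x x0)`, in `L_i`), so it is in `L_i`: `n x x0 ∈ idl m` (`nI (b_i)` is prime to `m`, `LvM.cop`),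
`x` is prime to `m`, `x0 ≡ 1` modulo `m`: `m ∣ n`, but `m ≥ 3` and `a > 1` is prime to `m`. -/
def S_VPQ : Prop :=
  ∀ (p q : ℕ) (A B : ℤ) (P P' : Ideal (OO A B)) (V : ValuationSubring ℂ) (f : ℕ),
    SetQ p q A B P P' V f →
    V.valuation (p : ℂ) < 1 ∧ V.valuation (p : ℂ) ≠ 0 ∧
    (∀ x : OO A B, V.valuation (emb x) ≤ 1 ∧ (V.valuation (emb x) < 1 ↔ x ∈ P)) ∧
    (∀ n : ℤ, ¬ (p : ℤ) ∣ n → V.valuation (n : ℂ) = 1) ∧
    V.valuation (2 : ℂ) = 1 ∧ V.valuation (3 : ℂ) = 1 ∧ V.valuation ((q - 1 : ℕ) : ℂ) = 1 ∧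
    ∀ (ι : Type) (R : Reps A B (p * f) ι), GRd V R → ∀ i, GRn V (R.L i) ∧
      V.valuation (muX R i) = 1 ∧
      (∀ (m : ℕ) (z : ℂ), ¬ p ∣ m → (m : ℂ) * z ∈ (R.L i).lattice → InEn V (R.L i) z →
        z ∈ (R.L i).lattice) ∧
      ∀ m : ℕ, LvM p f m R → ∀ x0 y0 : OO A B, LvQ p P P' m x0 y0 → ∀ x : OO A B,
        IsCoprime x ((m * p : ℕ) : OO A B) →
        (∀ c : OO A B, pt R (m * p) i (x * (x0 + c * m * y0)) =
          pt R (m * p) i (x * x0) + pt R p i (x * c * y0)) ∧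
        ¬ InEn V (R.L i) (pt R (m * p) i (x * x0)) ∧
        ¬ InEn V (R.L i) (2 * pt R (m * p) i (x * x0)) ∧
        ∀ a : ℕ, 1 < a → a.Coprime (2 * m * p) →
          ¬ InEn V (R.L i) (a * pt R (m * p) i (x * x0))

/-- (TEQ) the Teichmüller character. PROOF. Inert: `TeiI`, `t_TEP`. Split: `TeiP`; `w(-1)² = 1`, `v(w(-1) + 1) < 1`, `v 2 = 1`; `v(w x) = 1` (root of unity); power sums: `w` is injective on `T` (`w x = w y` gives `v(emb (x - y)) < 1`, `x - y ∈ P`), with values in the `(q-1)`-th roots of unity, `T.card = q - 1`: `w` maps `T` onto all of them; their power sums are `0` for `0 < j < q - 1` (multiply by a primitive root). -/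
def S_TEQ : Prop :=
  ∀ (p q : ℕ) (A B : ℤ) (P P' : Ideal (OO A B)) (V : ValuationSubring ℂ) (f : ℕ),
    SetQ p q A B P P' V f → ∀ w : OO A B → ℂ, TeQ p q P V w →
    w 1 = 1 ∧ (∀ x y, w (x * y) = w x * w y) ∧ (∀ x y, x - y ∈ P → w x = w y) ∧
    (∀ x, w x = 0 ↔ x ∈ P) ∧ (∀ x, x ∉ P → w x ^ (q - 1) = 1 ∧ V.valuation (w x) = 1) ∧
    w (-1) = -1 ∧ (∀ x, V.valuation (w x) ≤ 1 ∧ V.valuation (w x - emb x) < 1) ∧
    ∀ T, RepI P T → (∀ j, 0 < j → j < q - 1 → ∑ c ∈ T, w c ^ j = 0) ∧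
      ∑ c ∈ T, w c ^ (q - 1) = ((q - 1 : ℕ) : ℂ)

/-- (THQ) the values `th = thQ R kp eta ψ w e b`, `M = f l^N p`.

USES IDQ, TEQ. PROOF. (1) `eta` modulo `f`, `nm x` modulo `l^N` (`nm x - nm y` is an integer in `(l^N)`: `x star x`), `w` modulo `P`, `w ∘ star` modulo `star P = P'` (split; inert: `b = 0`). (2) `eta (-x) = eta (-1) eta x`, `w(-1) = -1`, `ChQ.neg`, `nm (-x) = nm x`, `star (-x) = - star x`. (3) IDQ (last clause): `x` not prime to `f`: `eta x = 0`; `x ∈ P`: `w x = 0`; split, `x ∈ P' = cjI P`: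
`w (star x) = 0`, `b ≥ 1` (`0^b = 0`). (4) `kp i ^ r = eta x ^ r = 1`, `p ∤ r`; `ψ(..)^((l-1) l^N) = 1` (the argument is a unit: `nm x` is prime to `l` as `x` is prime to `l`; `nI (b i)` is prime to `f` (`R.cop`)), `p ∤ l` (`l ∣ f`), `p ∤ l - 1`; `w^(q-1) = 1` (`x`, and `star x` in the split case, not in `P`), `q - 1 ≡ -1` modulo `p`. (`r ≠ 0` as `p ∤ r`.)
(5) `eta (x a) = eta x`, `nm a ≡ 1` modulo `f l^N` (`a star a`), `w (star a) = 1` in the split case: `star a - 1 ∈ star (cjI P) = P`; `w (x a)^(e-1)`. (6) `nI (b i0) = nI ⊤ = 1`, `kp0`; everything is multiplicative. -/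
def S_THQ : Prop :=
  ∀ (p q : ℕ) (A B : ℤ) (P P' : Ideal (OO A B)) (V : ValuationSubring ℂ) (f : ℕ),
    SetQ p q A B P P' V f → ∀ (ι : Type) (R : Reps A B (p * f) ι) (w : OO A B → ℂ),
    TeQ p q P V w → ∀ (kp : ι → ℂ) (eta : OO A B → ℂ) (e b : ℕ),
    ChQ p q f P P' R kp eta e b →
    ∀ (l N : ℕ), l.Prime → l ∣ f → ∀ ψ : DirichletCharacter ℂ (l ^ N),
    (∀ i x y, x - y ∈ idl (A := A) (B := B) (f * l ^ N * p) →
      thQ R kp eta ψ w e b i x = thQ R kp eta ψ w e b i y) ∧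
    (∀ i x, thQ R kp eta ψ w e b i (-x) = thQ R kp eta ψ w e b i x) ∧
    (∀ i x, ¬ IsCoprime x ((f * l ^ N * p : ℕ) : OO A B) →
      thQ R kp eta ψ w e b i x * w x = 0) ∧
    (¬ p ∣ l - 1 → ∃ s : ℕ, ¬ p ∣ s ∧ ∀ i x, IsCoprime x ((f * l ^ N * p : ℕ) : OO A B) →
      thQ R kp eta ψ w e b i x ^ s = 1) ∧
    (∀ i x a, a - 1 ∈ (idl (f * l ^ N) : Ideal (OO A B)) * P' →
      thQ R kp eta ψ w e b i (x * a) = thQ R kp eta ψ w e b i x * w a ^ (e - 1)) ∧
    ∀ i x a, thQ R kp eta ψ w e b i (a * x) =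
      thQ R kp eta ψ w e b R.i0 a * thQ R kp eta ψ w e b i x

/-! ## 2. The field `F` over `F0 = RF (idl m * P')` -/

/-- (KINS) split `p`: an endomorphism which is a unit at `V` is injective on the kernel of reduction.

USES (theorems) `t_PIS`, `t_KEP` (its proof contains `v(mu') = 1`, see there), `t_IDP`, `q_ISQ`, `q_CYQ`, `q_AEL`, `x_MLT`, `x_INJ` (`Pool/Agent/MUX/RQ0.lean`). PROOF. `L = L_i`, `x ∉ P`, `emb x z ∈ L`, `z` in the kernel of reduction `K₁`, `z ∉ L`. `n = nm x ≠ 0`, `n z ∈ L`. `n = p^k n'`, `p ∤ n'`: `z' = n' z ∉ L` (`mem_of_nat_mul`), so some `u = p^j z'` has `u ∉ L`, `p u ∈ L`,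
`u ∈ K₁`, `emb x u ∈ L`. For `y ∈ cjI P`: `emb y u ∈ L`: `x` is invertible modulo `P`: `x b - 1 ∈ P`, `y = y x b - y (x b - 1)`, `y (x b - 1) ∈ cjI P * P = (p)`. So `u` is in the kernel of the isogeny `L → L_j` belonging to `cjI P` (`R.surj` as in `t_PIS`: `IsQr (cjI P) L (R.L j) mu`), of degree `p` (`q_ISQ`: `IsoV`), with `v(mu) = 1`: (AEL) for `Q = cjI P` gives `a ∈ Q`, `c`,
`v(emb a) = 1` (as in the proof of `t_KEP`), (MLT). `x_INJ`: `u ∈ L`. -/
def S_KINS : Prop :=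
  ∀ (p : ℕ) (A B : ℤ) (P : Ideal (OO A B)) (V : ValuationSubring ℂ) (f : ℕ), SetG p A B P V f →
    ∀ (ι : Type) (R : Reps A B (p * f) ι), GRd V R → ∀ (i : ι) (x : OO A B), x ∉ P →
    ∀ z : ℂ, emb x * z ∈ (R.L i).lattice → InEn V (R.L i) z → z ∈ (R.L i).lattice

/-- (UNRQ) `F0 / k` is unramified at `V`.

USES KINS, IDQ. PROOF. Inert: `idl m * ⊤ = idl m`, `t_UNRGI` (its hypotheses are theorems). Split: choose `y1 ∈ cjI P`, `y1 ∉ P`, `α = m y1 ∉ P`, `α ≠ 0`: `sp α ≤ idl m * cjI P`, so `RF (idl m * cjI P) ≤ RF (sp α)` (`Tor` is antitone). `t_UNRG` (`Pool/Agent/TWT/UNRG.lean`) for `sp α` in place of `idl m` word for word; the only input is `hK`: `E[α]` meets the kernel of reduction trivially: KINS. -/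
def S_UNRQ : Prop :=
  ∀ (p q : ℕ) (A B : ℤ) (P P' : Ideal (OO A B)) (V : ValuationSubring ℂ) (f : ℕ),
    SetQ p q A B P P' V f → TorX A B → ∀ (ι : Type) [Finite ι] (R : Reps A B (p * f) ι),
    GRd V R → ∀ m : ℕ, m ≠ 0 → ¬ p ∣ m →
    ∀ y ∈ (RF ((idl m : Ideal (OO A B)) * P') : IntermediateField (kk A B) ℂ), y ≠ 0 →
      ∃ k : ℤ, V.valuation y = V.valuation (p : ℂ) ^ k

/-- (GFQ) `Gal(F/F0) = {γ_c}`.

USES IDQ. PROOF. `I = idl m * P'`. (1) `I ≥ idl (m p)`: `RF` is monotone. (2) `γ_c` extends to `s ∈ Aut(ℂ/k)` (`HitF`), which acts as the ideal `sp a_c` on level `M` (`Si_HIT`: `IA s (idl M) (sp a_c * cjI (b i0))`, `b0`): for every normalised `L`: `ActI s (idl M) (sp a_c) L L' mu`, and (as in `Sy_KER`, W_KER.lean; or in `t_NRR`, `t_NRRI`, where the clause on `RF (idl m)` is the same) `L' = L`, `mu = ± emb a_c`: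
`s (xn L z) = xn L (a_c z) = xn L z` for `z ∈ E[I]` (`(a_c - 1) z ∈ L`), `s (kap L) = kap L`. These generate `F0`. (3) `xn L_0 (pt R M i0 x0) ∈ F0`: `pt R M i0 x0 ∈ E[I]` (`I x0 ⊆ (M)`, IDQ), not in `L_0` (IDQ: `x0 ∈ (M)` would give `1 ∈ I`, `m ≥ 3`; `VPQ` is not needed). (4) `σ` trivial on `F0`; `HitF σ i x` (HTF (1)). `kap L_i = kap L_0` (`∈ RF ⊤ ≤ F0`): `i = i0` (`Sy_HIT`: `kap (R.L i)` determines `i`).
`σ (xn L_0 (pt R M i0 x0)) = xn L_0 (pt R M i0 (x x0))` (as in HTF (5) for `xn`: `s` acts as `sp x`, `mu = ± emb x`), `= xn L_0 (pt R M i0 x0)`: `(x ± 1) x0 ∈ idl M` (`b_NEQ`/`xn` is injective up to sign), `x ± 1 ∈ I` (IDQ). Replace `x` by `- x` (`HTF` (3)): `x - 1 ∈ I`, so `x ≡ a_c` modulo `M` (IDQ), `HitF σ i0 a_c` (HTF (3)), `σ = γ_c` (HTF (4)). -/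
def S_GFQ : Prop :=
  ∀ (p q : ℕ) (A B : ℤ) (P P' : Ideal (OO A B)) (V : ValuationSubring ℂ) (f : ℕ),
    SetQ p q A B P P' V f → TorX A B → ∀ (ι : Type) [Finite ι] (R : Reps A B (p * f) ι)
    (m : ℕ), LvM p f m R → ∀ (x0 y0 : OO A B), LvQ p P P' m x0 y0 →
    ∀ T : Finset (OO A B), RepI P T → ∀ γ : OO A B → GalF A B (m * p),
    (∀ c ∈ T, HitF R (m * p) _ (γ c) R.i0 (x0 + c * m * y0)) →
    (RF ((idl m : Ideal (OO A B)) * P') : IntermediateField (kk A B) ℂ) ≤ RF (idl (m * p)) ∧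
    (∀ c ∈ T, ∀ y : (RF (idl (m * p)) : IntermediateField (kk A B) ℂ),
      (y : ℂ) ∈ (RF ((idl m : Ideal (OO A B)) * P') : IntermediateField (kk A B) ℂ) →
      γ c y = y) ∧
    xn (R.L R.i0) (pt R (m * p) R.i0 x0) ∈
      (RF ((idl m : Ideal (OO A B)) * P') : IntermediateField (kk A B) ℂ) ∧
    ∀ σ : GalF A B (m * p), (∀ y : (RF (idl (m * p)) : IntermediateField (kk A B) ℂ),
      (y : ℂ) ∈ (RF ((idl m : Ideal (OO A B)) * P') : IntermediateField (kk A B) ℂ) →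
      σ y = y) → ∃ c ∈ T, σ = γ c

/-! ## 3. Local expansions -/

/-- (LOQI) inert `p`.

USES (theorems, `TWI/AAll.lean`) `i_GRI`, `i_EXP`, `a_LGI`, `a_TYI`, `a_KRI`, `a_ROT`, `a_VPA`, `i_PTI`, `t_TEP`. PROOF. For every `i`: GRI: `a2, a4`; EXP: `Λ`; LGI, TYI (`n = p²`): `HasTyI V L_i (p²) a2 a4 lam_i`. `t0 := vpi lam_0 (p²) (tX_0 (pt R p i0 y0))`. (KRI): all points `pt R p i x`, `x ∉ P`, are in the kernel of reduction, `v(tX)^(p²-1) = v p`; so all `v(tX)` are equal (powers in an ordered group with zero: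
`pow_left_injective`-type), `v(t0) = v(tX_0 (pt y0))` (`lam 0 = 0`, `lam 1 = 1`). (ROT) for `x y0` and `y0`: `ϖ_i(pt (x y0)) ≡ w(x) w(y0) ϖ_i(pt 1) ≡ w(x) ϖ_i(pt y0)` modulo `τ^q`. (VPA) for `L_0 → L_i`, `mu_i`: `IsgN` with `n = nI (b_i)`: GRI, `3 ∤ nI (b_i)` since `3 ∣ f` and `R.cop`; `mu_i pt R p i0 y0 = pt R p i y0` (PTI): `ϖ_i(pt R p i y0) ≡ mu_i t0`. -/
def S_LOQI : Prop :=
  ∀ (p : ℕ) (A B : ℤ) (P : Ideal (OO A B)) (V : ValuationSubring ℂ) (f : ℕ), SetI p A B P V f →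
    3 ∣ f → ∀ (ι : Type) (R : Reps A B (p * f) ι), GRd V R → ∀ y0 : OO A B, y0 ∉ P →
    ∃ t0 : ℂ, ∀ w, TeiI p P V w → LocQ p (p ^ 2) P V R y0 w t0

/-- (LOQS) split `p`.

USES (theorems) `t_PIS`, `t_PTA`, `t_KEP`, `t_TAY`, `t_ADV`, `t_IDP`, `a_VPA`. MODEL: `t_KEYA`, `t_KEY` (`Pool/Agent/TWT/KEYA.lean`, `KEY.lean`). PROOF. PIS: `GR`; `a2, a4` = the coefficients (`GRa`). TAY: `HasTay V L_i .. p a2 a4 lam`; `dint`: `aeval ![x, y] ((dW a2 a4)^[k] f) ∈ V`, `v(k!) = 1` for `k < p`: `HasTyI V L_i p a2 a4 lam_i`. `t0 := vpi lam_0 p (tX_0 (pt R p i0 y0))`. PTA, KEP: `pt R p i (x y0)`,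
`x ∉ P` (`x y0 ∈ cjI P`, `∉ P`), is in the kernel of reduction, `v(tX)^(p-1) = v p`; all `v(tX)` are equal. Let `c` be an integer, `1 ≤ c < p`, `x - c ∈ P` (IDP): `(x - c) y0 ∈ P * cjI P = (p)`: `pt R p i (x y0) ≡ c pt R p i y0` modulo `L_i` (`tX` is periodic); (ADV): `ϖ_i(c S) ≡ c ϖ_i(S)` modulo `τ^p`; `v(w(x) - c) = v(w(c) - c) ≤ v p = τ^(p-1)` (`TeiP.int`): `ϖ_i(pt (x y0)) ≡ w(x) ϖ_i(pt y0)`.
(VPA) (it is a general statement, `q := p`) for `L_0 → L_i`, `mu_i`, `IsgN` from PIS and `3 ∣ f`: `ϖ_i(pt R p i y0) ≡ mu_i t0` modulo `τ^p`. -/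
def S_LOQS : Prop :=
  ∀ (p : ℕ) (A B : ℤ) (P : Ideal (OO A B)) (V : ValuationSubring ℂ) (f : ℕ), SetG p A B P V f →
    3 ∣ f → ∀ (ι : Type) (R : Reps A B (p * f) ι), GRd V R → ∀ y0 : OO A B, y0 ∈ cjI P →
    y0 ∉ P → ∃ t0 : ℂ, ∀ w, TeiP p P V w → LocQ p p P V R y0 w t0

/-- (KEYQ) `x` and `Θ` at the points `pt R M i (x a_c)`.

USES IDQ, VPQ, TEQ; helper3's `exq_x`, `exq_theta` (`EXQ.lean`, `n = q - 1`), `q_YUN`. PROOF. `z = pt R M i (x x0)`, `S_c = pt R p i (x c y0)`, `ζ = w`, `w0 = mu_i w(x) t0`, `v w0 = v t0` (VPQ, TEQ; `DPr V w0` and `DPr V t0` are the same, the definition only uses `v t0`): LocQ for `x c ∉ P`: `v(vpi - w(c) w0) ≤ τ^q ≤ τ^(q-1)`. `InEn V L z` is `InK V L (xn L) z` (definitions). `exq_x` and `DPr.add` with a constant (`v(xn z) ≤ 1`);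
`v(xn (z + S_c) - xn z) = v(tX S_c) = τ` (`q_YUN`: `2 z` is not in the kernel of reduction). `exq_theta`: `v a = 1` (`a` prime to `p`), `IsHalf`. -/
def S_KEYQ : Prop :=
  ∀ (p q : ℕ) (A B : ℤ) (P P' : Ideal (OO A B)) (V : ValuationSubring ℂ) (f : ℕ),
    SetQ p q A B P P' V f → ∀ (ι : Type) (R : Reps A B (p * f) ι), GRd V R → ∀ (m : ℕ),
    LvM p f m R → ∀ (x0 y0 : OO A B), LvQ p P P' m x0 y0 → ∀ w : OO A B → ℂ, TeQ p q P V w →
    ∀ t0 : ℂ, LocQ p q P V R y0 w t0 → ∀ T : Finset (OO A B), RepI P T →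
    ∀ (i : ι) (x : OO A B), IsCoprime x ((m * p : ℕ) : OO A B) →
    (∃ g, DPr V t0 (q - 1) (OO A B) T w (fun c => xn (R.L i) (pt R (m * p) i
      (x * (x0 + c * m * y0))) - xn (R.L i) (pt R (m * p) i (x * x0))) g) ∧
    (∀ c ∈ T, V.valuation (xn (R.L i) (pt R (m * p) i (x * (x0 + c * m * y0))) -
      xn (R.L i) (pt R (m * p) i (x * x0))) = V.valuation t0) ∧
    ∀ (a : ℕ) (H : Finset ℂ), 1 < a → a.Coprime (2 * m * p) → IsHalf (R.L i) a H →
      (∀ c ∈ T, V.valuation (ThetaH (R.L i) H (pt R (m * p) i (x * (x0 + c * m * y0)))) = 1 ∧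
        V.valuation (dlX (R.L i) a (pt R (m * p) i (x * (x0 + c * m * y0)))) ≤ 1) ∧
      DPr V t0 (q - 1) (OO A B) T w
        (fun c => ThetaH (R.L i) H (pt R (m * p) i (x * (x0 + c * m * y0))))
        (fun c => ThetaH (R.L i) H (pt R (m * p) i (x * (x0 + c * m * y0))) *
          (w c * (muX R i * w x * t0) *
            dlX (R.L i) a (pt R (m * p) i (x * (x0 + c * m * y0)))))

/-- (FIQ) every `y ∈ F`, integral at `V`, gives a `D`-pair.

USES IDQ, VPQ, TEQ, UNRQ, GFQ, KEYQ; `bas`, `DPr.poly` (`DPR.lean`). PROOF. `X₁ = xn L_0 (pt R M i0 1) ∈ F`, `X₀ = xn L_0 (pt R M i0 x0) ∈ F0` (GFQ), `Π = X₁ - X₀`. `γ_c X₁ = xn L_0 (pt R M i0 a_c)` (`HitF`, `Hits`). KEYQ for `i0`, `x = 1`: `c ↦ γ_c Π` is part of a `D`-pair and `v(γ_c Π) = τ`. `v(Π) = τ`: `1 ≡ a_c` modulo `M` for some `c ∈ T` (IDQ for `x = 1`), so `pt R M i0 1 ≡ pt R M i0 a_c` modulo `L_0` (`xn` is periodic).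
`bas` with `E = F0`, `W = F` as a subspace over `F0` (GFQ (1)), `Π^j ∈ F`, `v(Π)^(q-1) = v p < 1`, UNRQ; `finrank_(F0) F ≤ q - 1`: `F/k` is finite Galois (`TorX.fin`, `gal`), so `F/F0` is, and its group has at most `T.card = q - 1` elements (GFQ (4)) (`IsGalois.card_aut_eq_finrank`; or `IntermediateField.fixingSubgroup`). So `y = Σ_(j<N) b_j Π^j`, `v(b_j) ≤ 1`, `γ_c y = Σ b_j (γ_c Π)^j` (GFQ (2)): `DPr.poly`,
`DDat` from TEQ, IDQ (`T.card`), VPQ (`v(q-1) = 1`). -/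
def S_FIQ : Prop :=
  ∀ (p q : ℕ) (A B : ℤ) (P P' : Ideal (OO A B)) (V : ValuationSubring ℂ) (f : ℕ),
    SetQ p q A B P P' V f → TorX A B → ∀ (ι : Type) [Finite ι] (R : Reps A B (p * f) ι),
    GRd V R → ∀ (m : ℕ), LvM p f m R → ∀ (x0 y0 : OO A B), LvQ p P P' m x0 y0 →
    ∀ w : OO A B → ℂ, TeQ p q P V w → ∀ t0 : ℂ, LocQ p q P V R y0 w t0 →
    ∀ T : Finset (OO A B), RepI P T → ∀ γ : OO A B → GalF A B (m * p),
    (∀ c ∈ T, HitF R (m * p) _ (γ c) R.i0 (x0 + c * m * y0)) →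
    ∀ y : (RF (idl (m * p)) : IntermediateField (kk A B) ℂ), V.valuation (y : ℂ) ≤ 1 →
    ∃ g, DPr V t0 (q - 1) (OO A B) T w (fun c =>
      ((γ c y : (RF (idl (m * p)) : IntermediateField (kk A B) ℂ)) : ℂ)) g

/-- (DLQ) the logarithmic derivative of the conjugates of `θ`.

USES IDQ, KEYQ (and `t_HTF`). PROOF. `γ_c θ = Θ(L_0; pt R M i0 a_c)` (HTF (5) for `γ_c` and `x' = 1`), `σ(γ_c θ) = Θ(L_i; pt R M i (x a_c))` (HTF (5) for `σ`, `x' = a_c ∉ idl M`; `H'` a half system for `a` on `L_i`: `b_HAL`, `a` is odd (prime to `2 m p`)), and `γ_c (σ θ) = σ (γ_c θ)` (`TorX.comm`). KEYQ. -/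
def S_DLQ : Prop :=
  ∀ (p q : ℕ) (A B : ℤ) (P P' : Ideal (OO A B)) (V : ValuationSubring ℂ) (f : ℕ),
    SetQ p q A B P P' V f → TorX A B → ∀ (ι : Type) [Finite ι] (R : Reps A B (p * f) ι),
    GRd V R → ∀ (m : ℕ), LvM p f m R → ∀ (x0 y0 : OO A B), LvQ p P P' m x0 y0 →
    ∀ w : OO A B → ℂ, TeQ p q P V w → ∀ t0 : ℂ, LocQ p q P V R y0 w t0 →
    ∀ T : Finset (OO A B), RepI P T → ∀ γ : OO A B → GalF A B (m * p),
    (∀ c ∈ T, HitF R (m * p) _ (γ c) R.i0 (x0 + c * m * y0)) →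
    ∀ (a : ℕ) (H : Finset ℂ), 1 < a → a.Coprime (2 * m * p) → IsHalf (R.L R.i0) a H →
    ∀ θ : (RF (idl (m * p)) : IntermediateField (kk A B) ℂ),
    (θ : ℂ) = ThetaH (R.L R.i0) H (pt R (m * p) R.i0 1) →
    ∀ (σ : GalF A B (m * p)) (i : ι) (x : OO A B), HitF R (m * p) _ σ i x →
    (∀ c ∈ T, V.valuation ((γ c (σ θ) : (RF (idl (m * p)) : IntermediateField (kk A B) ℂ)) :
        ℂ) = 1 ∧
      V.valuation (dlX (R.L i) a (pt R (m * p) i (x * (x0 + c * m * y0)))) ≤ 1) ∧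
    DPr V t0 (q - 1) (OO A B) T w
      (fun c => ((γ c (σ θ) : (RF (idl (m * p)) : IntermediateField (kk A B) ℂ)) : ℂ))
      (fun c => ((γ c (σ θ) : (RF (idl (m * p)) : IntermediateField (kk A B) ℂ)) : ℂ) *
        (w c * (muX R i * w x * t0) * dlX (R.L i) a (pt R (m * p) i (x * (x0 + c * m * y0)))))

/-! ## 4. Functionals and sums -/

/-- (RSQ) from the functionals on the residue field to the Teichmüller lifts, modulo `ρ ≥ v(p)`.

PROOF. `A₀ = Algebra.adjoin ℤ {c σ} ⊆ V`. (KEY) `x ∈ A₀`, `v x < 1` gives `v x ≤ v p`: let `h = φ(s) ≥ 1`, `s ∣ p^h - 1` (`Nat.ModEq.pow_totient`); `x^(p^h) ≡ x` modulo `p A₀`: on `A₀/p A₀` (characteristic `p` or zero) `y ↦ y^(p^h)` is a ring homomorphism (`iterateFrobenius`) and fixes the generators (`c^(p^h) = c`), so it is the identity (`Algebra.adjoin` induction). So `x^(p^h) = x + p r`,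
`v(r) ≤ 1`; if `v x > v p` then `v x = v(x)^(p^h) < v x` (`0 < v x < 1`, `p^h ≥ 2`), a contradiction. (2) `Fr` = the residue field, of characteristic `p`; `U` = the `𝔽_p`-span of the residues of the `c σ`, finite dimensional; a basis of `U` among the residues of the `c σ` (`exists_linearIndependent`-type) `e_j = c(σ_j)`, and additive maps `t_j : Fr → ZMod p` extending the coordinates (as in
`t_RSF`, `Pool/Agent/TWT/RSF.lean`). `d_σ = c σ - Σ_j (t_j (c σ)).val e_j ∈ A₀` has residue `0`: `v(d_σ) ≤ v p ≤ ρ`. `Σ_σ c_σ b_σ = Σ_σ d_σ b_σ + Σ_j e_j Σ_σ (t_j (c σ)).val b_σ`. -/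
def S_RSQ : Prop :=
  ∀ (V : ValuationSubring ℂ) (p : ℕ) [Fact p.Prime], V.valuation (p : ℂ) < 1 →
    V.valuation (p : ℂ) ≠ 0 → ∀ (S : Type) [Fintype S] (c b : S → ℂ) (s : ℕ), ¬ p ∣ s →
    (∀ σ, c σ ^ s = 1) → (∀ σ, V.valuation (b σ) ≤ 1) → ∀ r : ℂ,
    V.valuation (p : ℂ) ≤ V.valuation r →
    (∀ t : (IsLocalRing.ResidueField V) →+ ZMod p,
      V.valuation (∑ σ, ((t (rsd V (c σ))).val : ℂ) * b σ) ≤ V.valuation r) →
    V.valuation (∑ σ, c σ * b σ) ≤ V.valuation r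

/-- (SDQ) from `dlX` to `ee` (model: `TWI/SDEI.lean`, `TWT/SDE.lean`).

USES IDQ, VPQ, TEQ, THQ. PROOF. `M = f l^N p`, `F i x = th i x w x`, periodic modulo `M` (THQ (1)), `F i (a x) = th₀(a) w(a) F i x` (THQ (6)), `a pt R M i x = pt R M i (a x)`; `x ↦ a x` permutes `O/M`. So `SDTI = (a (th₀(a) w(a))⁻¹ - a²) SSTI`, and the factor is a unit: `v(th₀(a)) = 1` (THQ (4)),
`v(a/w(a) - 1) < 1`, `v(1 - a² th₀(a)) = 1`. -/
def S_SDQ : Prop :=
  ∀ (p q : ℕ) (A B : ℤ) (P P' : Ideal (OO A B)) (V : ValuationSubring ℂ) (f : ℕ),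
    SetQ p q A B P P' V f → ∀ (ι : Type) [Fintype ι] (R : Reps A B (p * f) ι)
    (w : OO A B → ℂ), TeQ p q P V w → ∀ (kp : ι → ℂ) (eta : OO A B → ℂ) (e b : ℕ),
    ChQ p q f P P' R kp eta e b → ∀ (l N : ℕ), l.Prime → ¬ p ∣ l - 1 → l ∣ f →
    ∀ ψ : DirichletCharacter ℂ (l ^ N), ∀ (a : ℕ), 1 < a → a.Coprime (6 * f * p) →
    V.valuation (1 - (a : ℂ) ^ 2 * thQ R kp eta ψ w e b R.i0 a) = 1 →
    V.valuation (SDTI R (f * l ^ N * p) a (thQ R kp eta ψ w e b) w) =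
      V.valuation (SSTI R (f * l ^ N * p) (thQ R kp eta ψ w e b) w)

/-- (SIGQ) the sum over `Gal(F/k)` in terms of `SDTI` (model: `TWI/SIGI.lean`).

USES IDQ, TEQ, THQ (and `t_CNTI`). PROOF. `M = f l^N p`, `G i x = th i x w x mu_i dlX (L_i) a (pt R M i x)`: periodic modulo `M` (`Si_PTP`: `pt R M i x` modulo `L_i`), even (THQ (2); `w(-1) = -1`, `dlX` odd), `0` if `x` is not prime to `M` (THQ (3)). `a_c` is prime to `M` (IDQ): `2 Σ_σ G (I σ) (X σ a_c) = Σ_i sumMod M (G i) = SDTI` (CNTI; `R.cop`, `l ∣ f`: `nI (b i)` is prime to `M`; `M ≥ 3`), and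
`th i (x a_c) = th i x w(a_c)^(e-1)` (THQ (5), IDQ). -/
def S_SIGQ : Prop :=
  ∀ (p q : ℕ) (A B : ℤ) (P P' : Ideal (OO A B)) (V : ValuationSubring ℂ) (f : ℕ),
    SetQ p q A B P P' V f → TorX A B → ∀ (ι : Type) [Fintype ι] (R : Reps A B (p * f) ι)
    (w : OO A B → ℂ), TeQ p q P V w → ∀ (kp : ι → ℂ) (eta : OO A B → ℂ) (e b : ℕ),
    ChQ p q f P P' R kp eta e b → ∀ (l N : ℕ), l.Prime → l ∣ f →
    ∀ ψ : DirichletCharacter ℂ (l ^ N), ∀ (x0 y0 : OO A B), LvQ p P P' (f * l ^ N) x0 y0 →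
    ∀ c : OO A B, c ∉ P → ∀ (a : ℕ), 1 < a → a.Coprime (6 * f * p) →
    ∀ [Fintype (GalF A B (f * l ^ N * p))] (I : GalF A B (f * l ^ N * p) → ι)
      (X : GalF A B (f * l ^ N * p) → OO A B),
    (∀ σ, HitF R (f * l ^ N * p) _ σ (I σ) (X σ)) →
    2 * (w (x0 + c * (f * l ^ N : ℕ) * y0) ^ (e - 1) * ∑ σ : GalF A B (f * l ^ N * p),
      thQ R kp eta ψ w e b (I σ) (X σ) * (muX R (I σ) *
        w (X σ * (x0 + c * (f * l ^ N : ℕ) * y0)) * dlX (R.L (I σ)) a
          (pt R (f * l ^ N * p) (I σ) (X σ * (x0 + c * (f * l ^ N : ℕ) * y0))))) =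
      SDTI R (f * l ^ N * p) a (thQ R kp eta ψ w e b) w

end

end Pool.Agent.TWQ


end

section

/-!
# TWQ, the unit theorem for `K` ramified above `p` (helper59)

`S_UNQV` (and from it `S_UNQ` of `DefU.lean`): for all large `n` all characters of `Gal(K B_(n+1) / k)` which are not trivial on `Gal(K B_(n+1) / K B_n)` have a part of `c₀ = cW θ` which is not a `p`-th power (`UnitAt`, `Pool/Agent/TWK/StK6.lean`), `K ≤ RF (idl (f p))`.
Inputs: `S_SYMQ` (block C'), `S_CRTQ` (block B'), `S_FACQ` (helper51), and the theorems of the unramified case `S_SYMA`, `S_CRIT` (split), `S_SYMI`, `S_CRITI` (inert).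

THE ARGUMENT. `D = K B_(n+1) ≤ F = RF (idl M)`, `M = m p`, `m = f l^N`, `N = n + 1 + h`. FACQ at `V`: the values of `χ` are `thQ kp eta ψ w e b`. (1) `e ≥ 2`: CRTQ (the factor at `a` is a unit: FAQ; the sum is large: SYMQ). (2) `e = 1`, and `b = 0` (inert) or `b = q - 1` (split): `χ` is unramified above `p`.
The fixed field `D₁` of the kernel of `χ` is in `RF (idl m)` (RGMQ); the values of `χ₁` on `Gal(D₁/k)` are `thT kp eta ψ` (REDQ), so CRIT or CRITI gives a non-power in `D₁`, and `p ∤ [D : D₁]`: a non-power in `D` (DSQ). (3) `e = 1`, split, `b < q - 1`: `χ` is ramified at `P'`. Let `V'` be above `P'`; transfer `χ` to the residue field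
of `V'` (TRVQ): `χ'` with the same kernel and the same functionals. FACQ at `V'` gives `e'`, `b'`; `e' ≥ 2` (ERQ), so CRTQ at `V'`.

Modules: `theorem t_X : S_X` (or `theorem t_X (h : S_Y) .. : S_X` with the statements named under USES, fewer is fine) in `Pool/Agent/TWQ/X.lean`, namespace `Pool.Agent.TWQ`, auxiliary lemmas in `Pool.Agent.TWQ.X`. THEOREMS which may be cited: `Pool.Agent.MUXW.ty_MEM` (`Sy_MEM`, `StWX.lean`; also the lemmas `Pool.Agent.MUXW.Mem.ext1_one, ext1_iff, ext1_mul, ext1_inv,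
mem_D` of `Pool/Agent/MUX/W_MEM.lean`), `ty_TOW` (`Sy_TOW`), `Pool.Agent.MUXW.y_X` (`Sy_X`, `Pool/Agent/MUX/WAll.lean`), `Pool.Agent.MUXI.i_X` (`Si_X` of `StIX.lean`; `Pool/Agent/MUX/IAll.lean`), `Pool.Agent.TWT.t_HTF` (`S_HTF`, `Pool/Agent/TWT/StT2.lean`, `HTF.lean`), `CRB.cWt_fib`, `CRB.charP_res` (`Pool/Agent/TWT/CRB.lean`), `Pool.Agent.TWK.t_NRM2`, `Pool.Agent.TWX.t_FAC`.
In theorems over `letI := algC h` start with `let _ := algC h` and then `intro`.
-/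

set_option autoImplicit false

open WeierstrassCurve Polynomial NumberField IsDedekindDomain

namespace Pool.Agent.TWQ

open _root_.MU3 Pool.Agent.MU3 Pool.Agent.MU3A Pool.Agent.MU3B Pool.Agent.MU3C Pool.Agent.RI
  Pool.Agent.RID
open Pool.Agent.MUX Pool.Agent.MUXU Pool.Agent.MUXW Pool.Agent.TWT Pool.Agent.TWI
open Pool.Agent.MU3V (cls Sub GD algDF)
open Pool.Agent.MUXV (GR InK tX)
open Pool.Agent.MUXI (IA RE AR)
open OnePoint

noncomputable section

/-! ## 1. The characters (helper51) and the result -/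

open Pool.Agent.TWR in
/-- (FACQ) the characters of `Gal(K B_(n+1) / k)` with values in the residue field, in terms of the values `thQ`; `J` does not depend on `n` (helper51). -/
def S_FACQ : Prop :=
  ∀ (l g h : ℕ), Gen l g h → ∀ (p q : ℕ) [Fact p.Prime] (A B : ℤ) (P P' : Ideal (OO A B))
    (V : ValuationSubring ℂ) (f : ℕ), SetQ p q A B P P' V f → l ^ h ∣ f → TorX A B →
    ∀ (ι : Type) [Finite ι] (R : Reps A B (p * f) ι), GRd V R →
    ∀ (w : OO A B → ℂ), TeQ p q P V w →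
    ∀ (K : IntermediateField ℚ ℂ) [FiniteDimensional ℚ K], kk A B ≤ K →
    Sub K (RF (idl (f * p)) : IntermediateField (kk A B) ℂ) →
    ∀ (Bn : ℕ → IntermediateField ℚ ℂ), (∀ n, IsLayer l n (Bn n)) → Monotone Bn →
    ∃ (J : Type) (_ : Finite J) (kp : J → ι → ℂ) (eta : J → OO A B → ℂ) (e b : J → ℕ),
      (∀ j, ChQ p q f P P' R (kp j) (eta j) (e j) (b j)) ∧
      (∀ j, IdC p f R (kp j) (eta j) w (e j) (b j)) ∧
      ∀ (n : ℕ) (hn : kk A B ≤ K ⊔ Bn (n + 1)), letI := algC hn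
      ∀ χ : (↥(K ⊔ Bn (n + 1)) ≃ₐ[kk A B] ↥(K ⊔ Bn (n + 1))) →* (IsLocalRing.ResidueField V)ˣ,
      (∃ g : ↥(K ⊔ Bn (n + 1)) ≃ₐ[kk A B] ↥(K ⊔ Bn (n + 1)),
        (∀ x : ↥(K ⊔ Bn (n + 1)), (x : ℂ) ∈ K ⊔ Bn n → g x = x) ∧ χ g ≠ 1) →
      ∃ (j : J) (ψ : DirichletCharacter ℂ (l ^ (n + 1 + h))), ψ (-1) = 1 ∧
        ψ (1 + (l : ZMod (l ^ (n + 1 + h))) ^ (n + 1 + h - 1)) ≠ 1 ∧
        ∀ (τ : ↥(K ⊔ Bn (n + 1)) ≃ₐ[kk A B] ↥(K ⊔ Bn (n + 1))),
        ∀ r ∈ XX R (f * l ^ (n + 1 + h) * p) hn τ,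
          rsd V (thQ R (kp j) (eta j) ψ w (e j) (b j) r.1 (Quotient.out r.2)) =
            (((χ τ)⁻¹ : (IsLocalRing.ResidueField V)ˣ) : IsLocalRing.ResidueField V)

open Pool.Agent.TWR in
/-- (UNQV) the unit theorem (assembly: helper59). In the split case `V'` is a valuation ring above `P' = cjI P` (`cjI P' = P`) with good reduction; in the inert case `V'` is arbitrary. -/
def S_UNQV : Prop :=
  ∀ (l g h : ℕ), Gen l g h → ∀ (p q : ℕ) [Fact p.Prime] (A B : ℤ) (P P' : Ideal (OO A B))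
    (V V' : ValuationSubring ℂ) (f : ℕ), SetQ p q A B P P' V f → l ^ h ∣ f → TorX A B →
    ∀ (ι : Type) [Fintype ι] (R : Reps A B (p * f) ι), GRd V R →
    (P' = ⊤ ∨ (SetQ p q A B P' P V' f ∧ GRd V' R)) →
    ∀ (K : IntermediateField ℚ ℂ) [FiniteDimensional ℚ K] [FiniteDimensional ℚ (kk A B)]
    (hk : kk A B ≤ K), ¬ p ∣ Module.finrank (kk A B) (IntermediateField.extendScalars hk) →
    Sub K (RF (idl (f * p)) : IntermediateField (kk A B) ℂ) →
    ∀ (Bn : ℕ → IntermediateField ℚ ℂ) [∀ n, FiniteDimensional ℚ ↥(K ⊔ Bn n)],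
    (∀ n, IsLayer l n (Bn n)) → Monotone Bn →
    (∀ n, Sub (K ⊔ Bn n) (RF (idl (f * l ^ (n + h) * p)) : IntermediateField (kk A B) ℂ)) →
    ∀ (a : ℕ), 1 < a → a.Coprime (6 * f * p) → ∀ (H : Finset ℂ), IsHalf (R.L R.i0) a H →
    ∃ n0 : ℕ, ∀ n : ℕ, n0 ≤ n → Pool.Agent.TWK.UnitAt p l h f V R H K Bn n

/-! ## 2. Small modules -/

/-- (FAQ) the factor at `a` is a unit.

USES IDQ, TEQ. PROOF. MODEL: `UNITI.fac_a` (`Pool/Agent/TWI/UNITI.lean`; `UNITA.th0`, `UNITA.nI_top` of `Pool/Agent/TWT/UNITA.lean`). `star a = a` for a natural number `a` (`starRing`: `map_natCast`), so `thQ .. R.i0 a = ξ ψ(a)²`, `ξ = eta a * w a ^ (e - 1 + b)`. `ξ ^ (r (q - 1)) = 1` (`ChQ.fin`; `a` is prime to `f`, so `eta a ≠ 0` by `ChQ.supp`; `a ∉ P`: `w a ^ (q - 1) = 1`) and `p ∤ r (q - 1)`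
(`q = p` or `p²`). `t_FAC` with `r (q - 1)` and the integer `b` with `a² b ≡ 1` modulo `p`: `v(ξ ψ(a)² - b) = 1`, and `1 - a² ξ ψ(a)² = - a² (ξ ψ(a)² - b) + (1 - a² b)`, `v(1 - a² b) < 1`, `v(a) = 1`. -/
def S_FAQ : Prop :=
  ∀ (p q : ℕ) (A B : ℤ) (P P' : Ideal (OO A B)) (V : ValuationSubring ℂ) (f : ℕ),
    SetQ p q A B P P' V f → ∀ (n : ℕ) (ι : Type) (R : Reps A B n ι) (w : OO A B → ℂ),
    TeQ p q P V w → ∀ (kp : ι → ℂ) (eta : OO A B → ℂ) (e b : ℕ),
    ChQ p q f P P' R kp eta e b → ∀ l : ℕ, l.Prime → ¬ p ∣ l - 1 → l ∣ f → ∀ a : ℕ, 1 < a →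
    a.Coprime (6 * f * p) →
    ∃ M₀ : ℕ, ∀ M, M₀ ≤ M → ∀ ψ : DirichletCharacter ℂ (l ^ M),
      ψ (1 + (l : ZMod (l ^ M)) ^ (M - 1)) ≠ 1 →
      V.valuation (1 - (a : ℂ) ^ 2 * thQ R kp eta ψ w e b R.i0 (a : OO A B)) = 1

/-- (TRVQ) transfer of a character of a finite group from one field of characteristic `p` to another one.

PROOF. Only Mathlib. Let `E` be the subfield of `F` generated over `𝔽_p` by the values of `χ` (`IntermediateField.adjoin (ZMod p) (Set.range ..)`, `Algebra (ZMod p) F`: `ZMod.algebra`); it is algebraic over `𝔽_p` (roots of unity), so there is an embedding `i : E →ₐ[ZMod p] F'` (`IsAlgClosed.lift`, `F'` algebraically closed). `χ' = i ∘ χ` (`Units.map` of the corestriction of `χ` to `E`; `E → F` is injective). For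
`t' : F' →+ ZMod p` the map `t' ∘ i : E → ZMod p` is additive, so `ZMod p`-linear (`AddMonoidHom.toZModLinearMap`), and extends to `F` (`LinearMap.exists_extend`). -/
def S_TRVQ : Prop :=
  ∀ (p : ℕ) [Fact p.Prime] (F F' : Type) [Field F] [Field F'] [CharP F p] [CharP F' p]
    [IsAlgClosed F'] (G : Type) [Group G] [Finite G] (χ : G →* Fˣ),
    ∃ χ' : G →* F'ˣ, (∀ g, χ' g = 1 ↔ χ g = 1) ∧
      ∀ t' : F' →+ ZMod p, ∃ t : F →+ ZMod p, ∀ g, t ((χ g)⁻¹ : Fˣ) = t' ((χ' g)⁻¹ : F'ˣ)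

/-- (RGMQ) the automorphisms of `RF (idl M)` which are trivial on `RF (idl m)`.

PROOF. `D = RF (idl m)` as a subfield of `ℂ` over `ℚ` (`IntermediateField.restrictScalars`), `hD : kk A B ≤ D`, `Ext1 hD 1 σ`. `t_HTF` (6) (for `M`, `m ∣ M`; `3 ≤ M`): `(i, mk x) ∈ XX R m hD 1`, so there is `s : ℂ ≃+* ℂ`, `FixK`, trivial on `D` (`ExtC hD 1 s`), `Hits R m s i x'`, `x' = Quotient.out (mk x)`, `x' - x ∈ idl m`, `x'` prime to `m`. `s` is trivial on `kap (R.L i0)` and on `xn (R.L i0) (pt R m i0 1)`, which are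
in `RF (idl m)` (the generators of `RF`; `3 ≤ m`: `pt R m i0 1` is a point of level `m` and not in the lattice), so `Hits R m s i0 1` by definition. `Sy_HIT` (`y_HIT`; `m ∤ 2` in `O` as `m ≥ 3`): the pair is unique: `i = i0` and `m ∣ x' - 1` or `m ∣ x' + 1`. -/
def S_RGMQ : Prop :=
  ∀ (A B : ℤ), CQ A B → TorX A B → ∀ (n : ℕ) (ι : Type) (R : Reps A B n ι) (m M : ℕ), m ∣ M →
    M ≠ 0 → 3 ≤ m → (∀ i, (nI (R.b i)).Coprime M) → ∀ σ : GalF A B M,
    (∀ y : (RF (idl M) : IntermediateField (kk A B) ℂ),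
      (y : ℂ) ∈ (RF (idl m) : IntermediateField (kk A B) ℂ) → σ y = y) →
    ∀ (i : ι) (x : OO A B), HitF R M _ σ i x →
    i = R.i0 ∧ (x - 1 ∈ (idl m : Ideal (OO A B)) ∨ x + 1 ∈ (idl m : Ideal (OO A B)))

/-- (DSQ) descent to the fixed field `D₁` of the kernel of `χ`.

PROOF. `D / k` is Galois and abelian (`Sy_MEM` and `mem_D` of `W_MEM.lean`, or: `D` corresponds to an intermediate field of `F/k`, `F/k` abelian). `D₁` = the `y ∈ D` fixed by all `τ` with `χ τ = 1` (as a subfield of `ℂ`; e.g. `IntermediateField.fixedField χ.ker` mapped to `ℂ`, or a structure with the carrier `{y | ∃ hy : y ∈ D, ∀ τ, χ τ = 1 → τ ⟨y, hy⟩ = ⟨y, hy⟩}`). `τ` is trivial on `D₁` iff `χ τ = 1`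
(`IntermediateField.fixingSubgroup_fixedField`). Every `τ₁ ∈ Gal(D₁/k)` is the restriction of some `τ` (`Sy_MEM`: extend to `σ`, restrict to `D`), and `χ₁ τ₁ := χ τ` is well defined and multiplicative (`Mem.ext1_mul`). `D₁ / k` is Galois (a subfield of an abelian extension). The characterisation of `D₁`: (`→`) `y ∈ F` fixed by all `σ` with `χ(σ|D) = 1` is fixed by the `σ` trivial on `D`, so in `D` (`mem_D`), and then in `D₁`
(every `τ` extends to `F`). THE LAST CLAIM. `c₁ = ∏_(τ ∈ Gal(D/k), χ τ = 1) τ c₀` (`ty_TOW` for `D₁ ≤ D`; `NC h D₁` = the kernel of `χ`). `z := sE p χ₁ t c₁ = ∏_(τ₁) (τ₁ c₁)^(t(χ₁(τ₁)⁻¹)) = ∏_(τ ∈ Gal(D/k)) (τ c₀)^(t(χ(τ)⁻¹)) = sE p χ t c₀` as complex numbers (group the `τ` by their restriction `ρ τ` to `D₁`: `Finset.prod_fiberwise`; `τ₁ c₁ = ∏_(ρ τ = τ₁) τ c₀`; or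
both are `∏_(σ ∈ Gal(F/k)) (σ θ)^(n σ)`, `n σ = t(χ(σ|D)⁻¹)`, by `CRB.cWt_fib` and `Sy_MEM` (3), as in `Pool/Agent/TWQ/CRTQ.lean`). If `z = y^p`, `y ∈ D`: the product over the kernel `H` of `χ` (its order `d` divides `[D : k]`, so it is prime to `p`): `z^d = ∏_(τ ∈ H) τ z = Y^p`, `Y = ∏_(τ ∈ H) τ y ∈ D₁`. `u d = 1 + v p` (naturals), `z ≠ 0` (`θ ≠ 0`), so
`z = (Y^u / z^v)^p` in `D₁`, a contradiction. -/
def S_DSQ : Prop :=
  ∀ (p : ℕ) [Fact p.Prime] (A B : ℤ) (F : IntermediateField (kk A B) ℂ),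
    FiniteDimensional (kk A B) F → IsGalois (kk A B) F →
    (∀ σ τ : F ≃ₐ[kk A B] F, σ * τ = τ * σ) → ∀ (D : IntermediateField ℚ ℂ)
    [FiniteDimensional ℚ D] [FiniteDimensional ℚ (kk A B)] (h : kk A B ≤ D), Sub D F →
    ∀ (Fr : Type) [Field Fr] [CharP Fr p], letI := algC h
    ¬ p ∣ Module.finrank (kk A B) D → ∀ χ : (D ≃ₐ[kk A B] D) →* Frˣ,
    ∃ (D₁ : IntermediateField ℚ ℂ) (_ : FiniteDimensional ℚ D₁) (h₁ : kk A B ≤ D₁),
      letI := algC h₁
      IsGalois (kk A B) D₁ ∧ D₁ ≤ D ∧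
      (∀ y : F, (y : ℂ) ∈ D₁ ↔
        ∀ (σ : F ≃ₐ[kk A B] F) (τ : D ≃ₐ[kk A B] D), Ext1 h τ σ → χ τ = 1 → σ y = y) ∧
      ∃ χ₁ : (D₁ ≃ₐ[kk A B] D₁) →* Frˣ,
      (∀ (σ : F ≃ₐ[kk A B] F) (τ : D ≃ₐ[kk A B] D) (τ₁ : D₁ ≃ₐ[kk A B] D₁), Ext1 h τ σ →
        Ext1 h₁ τ₁ σ → χ τ = χ₁ τ₁) ∧
      ∀ θ : F, θ ≠ 0 → ∀ (c₀ : D) (c₁ : D₁), (c₀ : ℂ) = cW h θ → (c₁ : ℂ) = cW h₁ θ →
        ∀ t : Fr →+ ZMod p, (∀ y : D₁, y ^ p ≠ Pool.Agent.TWK.sE p χ₁ t c₁) →
        ∀ y : D, y ^ p ≠ Pool.Agent.TWK.sE p χ t c₀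

/-! ## 3. The unramified case and the case of `P'` -/

/-- (ERQ) split: a character which is unramified at `P` and ramified at `P'` has `e' ≥ 2` at `V'`.

USES IDQ, TEQ, THQ. PROOF. Let `e' = 1` (`ChQ.e1`). `m = f l^N`, `M = m p`. IDQ for `SetQ .. P' P V'`: `LvQ p P' P m x0 y0`; for `c ∉ P'`: `a_c = x0 + c m y0` is prime to `M` and `≡ 1` modulo `idl m * P`. `t_HTF` (2): `σ` hits `(i0, a_c)`; `τ` = its restriction to `D` (`Sy_MEM`), `(i0, mk a_c) ∈ XX R M h τ` (HTF (6)). THQ (1), (5), (6) at `V'`: `thQ' i0 a_c = thQ' i0 1 * w'(a_c)^0 = 1`, so `χ' τ = 1`, so `χ τ = 1`: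
`rsd V (thQ i0 a_c) = 1`, and `thQ i0 a_c = eta a_c * ψ(nm a_c) * w(a_c)^0 * w(star a_c)^b = w(star a_c)^b` (`a_c ≡ 1` modulo `m`: `eta a_c = 1`, `nm a_c ≡ 1` modulo `l^N`; `kp0`, `nI ⊤ = 1`). It is a root of unity of order `q - 1` prime to `p`, so it is `1` (`Pool.Agent.TWX.eq_one_of_congr`). `star a_c ≡ star c * m * star y0` modulo `P` (`star x0 ∈ P` as `x0 ∈ P' = cjI P`), so
`w(star c)^b * w(m * star y0)^b = 1` for all `c ∉ P'`; `c = 1`: `w(star c)^b = 1`. So `w(d)^b = 1` for all `d ∉ P` (`d = star c`), `Σ_(d ∈ T) w d ^ b = q - 1 ≠ 0` (`RepI P T` from IDQ), against TEQ (`0 < b < q - 1`). -/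
def S_ERQ : Prop :=
  ∀ (p q : ℕ) (A B : ℤ) (P P' : Ideal (OO A B)) (V V' : ValuationSubring ℂ) (f : ℕ),
    SetQ p q A B P P' V f → SetQ p q A B P' P V' f → TorX A B →
    ∀ (ι : Type) [Finite ι] (R : Reps A B (p * f) ι) (w w' : OO A B → ℂ), TeQ p q P V w →
    TeQ p q P' V' w' → ∀ (kp kp' : ι → ℂ) (eta eta' : OO A B → ℂ) (b e' b' : ℕ),
    ChQ p q f P P' R kp eta 1 b → 1 ≤ b → b < q - 1 → ChQ p q f P' P R kp' eta' e' b' →
    ∀ (l N : ℕ), l.Prime → ¬ p ∣ l - 1 → l ∣ f → ∀ ψ ψ' : DirichletCharacter ℂ (l ^ N),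
    ∀ (D : IntermediateField ℚ ℂ) (h : kk A B ≤ D),
    Sub D (RF (idl (f * l ^ N * p)) : IntermediateField (kk A B) ℂ) → letI := algC h
    ∀ (χ : (D ≃ₐ[kk A B] D) →* (IsLocalRing.ResidueField V)ˣ)
      (χ' : (D ≃ₐ[kk A B] D) →* (IsLocalRing.ResidueField V')ˣ), (∀ τ, χ' τ = 1 → χ τ = 1) →
    (∀ (τ : D ≃ₐ[kk A B] D), ∀ r ∈ XX R (f * l ^ N * p) h τ,
      rsd V (thQ R kp eta ψ w 1 b r.1 (Quotient.out r.2)) =
        (((χ τ)⁻¹ : (IsLocalRing.ResidueField V)ˣ) : IsLocalRing.ResidueField V)) →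
    (∀ (τ : D ≃ₐ[kk A B] D), ∀ r ∈ XX R (f * l ^ N * p) h τ,
      rsd V' (thQ R kp' eta' ψ' w' e' b' r.1 (Quotient.out r.2)) =
        (((χ' τ)⁻¹ : (IsLocalRing.ResidueField V')ˣ) : IsLocalRing.ResidueField V')) →
    2 ≤ e'

/-- (REDQ) the unramified case (`e = 1`, `b = 0` or `b = q - 1`): reduction to a field `D₁ ≤ RF (idl (f l^N))` (helper59).

USES IDQ, TEQ, THQ, RGMQ, DSQ. PROOF. `m = f l^N`, `M = m p`, `D₁`, `χ₁` from DSQ. (a) For `x` prime to `M`: `thQ i x = thT i x` (`w(star x)^(q-1) = 1`, `star x ∉ P`). (b) `σ ∈ Gal(F/k)` trivial on `RF (idl m)`: it hits `(i0, x)`, `x ≡ ± 1` modulo `m` (RGMQ), so the value is `1`: `χ(σ|D) = 1`. So `D₁ ≤ RF (idl m)` (`mem_D` for the field `RF (idl m)`). (c) Values of `χ₁`: `r = (i, x) ∈ XX R m h₁ τ₁`; `x' ≡ x` modulo `m`,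
prime to `M`; `σ` hits `(i, x')` (HTF (2)), `(i, mk x') ∈ XX R m h₁ (σ|D₁)` (HTF (6)), so `σ|D₁ = τ₁` (`Si_XXF`), and `(i, mk x') ∈ XX R M h (σ|D)`. (d) `g`: extend to `F` and restrict to `D₁`. -/
def S_REDQ : Prop :=
  ∀ (p q : ℕ) [Fact p.Prime] (A B : ℤ) (P P' : Ideal (OO A B)) (V : ValuationSubring ℂ) (f : ℕ),
    SetQ p q A B P P' V f → TorX A B → ∀ (ι : Type) [Finite ι] (R : Reps A B (p * f) ι)
    (w : OO A B → ℂ), TeQ p q P V w → ∀ (kp : ι → ℂ) (eta : OO A B → ℂ) (b : ℕ),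
    ChQ p q f P P' R kp eta 1 b → (b = 0 ∨ b = q - 1) →
    ∀ (l N : ℕ), l.Prime → ¬ p ∣ l - 1 → l ∣ f → ∀ ψ : DirichletCharacter ℂ (l ^ N),
    ∀ (D : IntermediateField ℚ ℂ) [FiniteDimensional ℚ D] [FiniteDimensional ℚ (kk A B)]
      (h : kk A B ≤ D),
    Sub D (RF (idl (f * l ^ N * p)) : IntermediateField (kk A B) ℂ) → letI := algC h
    ¬ p ∣ Module.finrank (kk A B) D →
    ∀ (χ : (D ≃ₐ[kk A B] D) →* (IsLocalRing.ResidueField V)ˣ),
    (∀ (τ : D ≃ₐ[kk A B] D), ∀ r ∈ XX R (f * l ^ N * p) h τ,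
      rsd V (thQ R kp eta ψ w 1 b r.1 (Quotient.out r.2)) =
        (((χ τ)⁻¹ : (IsLocalRing.ResidueField V)ˣ) : IsLocalRing.ResidueField V)) →
    (∃ g : D ≃ₐ[kk A B] D, (∀ x : D,
      (x : ℂ) ∈ (RF (⊤ : Ideal (OO A B)) : IntermediateField (kk A B) ℂ) → g x = x) ∧ χ g ≠ 1) →
    ∃ (D₁ : IntermediateField ℚ ℂ) (_ : FiniteDimensional ℚ D₁) (h₁ : kk A B ≤ D₁),
      letI := algC h₁
      Sub D₁ (RF (idl (f * l ^ N)) : IntermediateField (kk A B) ℂ) ∧
      ∃ χ₁ : (D₁ ≃ₐ[kk A B] D₁) →* (IsLocalRing.ResidueField V)ˣ,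
      (∀ (τ : D₁ ≃ₐ[kk A B] D₁), ∀ r ∈ XX R (f * l ^ N) h₁ τ,
        rsd V (thT R kp eta ψ r.1 (Quotient.out r.2)) =
          (((χ₁ τ)⁻¹ : (IsLocalRing.ResidueField V)ˣ) : IsLocalRing.ResidueField V)) ∧
      (∃ g : D₁ ≃ₐ[kk A B] D₁, (∀ x : D₁,
        (x : ℂ) ∈ (RF (⊤ : Ideal (OO A B)) : IntermediateField (kk A B) ℂ) → g x = x) ∧
          χ₁ g ≠ 1) ∧
      ∀ θ : (RF (idl (f * l ^ N * p)) : IntermediateField (kk A B) ℂ), θ ≠ 0 →
        ∀ (c₀ : D) (c₁ : D₁), (c₀ : ℂ) = cW h θ → (c₁ : ℂ) = cW h₁ θ →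
        ∀ t : (IsLocalRing.ResidueField V) →+ ZMod p,
        (∀ y : D₁, y ^ p ≠ Pool.Agent.TWK.sE p χ₁ t c₁) →
        ∀ y : D, y ^ p ≠ Pool.Agent.TWK.sE p χ t c₀

end

end Pool.Agent.TWQ


end

section

/-!
# TWQ, module THQ (helper72): the values `thQ` of a character
-/

set_option autoImplicit false

open NumberField IsDedekindDomain

namespace Pool.Agent.TWQ

open _root_.MU3 Pool.Agent.MU3A Pool.Agent.MU3B Pool.Agent.MU3C Pool.Agent.RI Pool.Agent.RID
open Pool.Agent.MUX Pool.Agent.MUXU Pool.Agent.MUXW Pool.Agent.TWT Pool.Agent.TWI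

noncomputable section

namespace THQ

variable {A B : ℤ}

lemma nm_mul (x y : OO A B) : nm (x * y) = nm x * nm y := by
  unfold nm
  simp only [QuadraticAlgebra.re_mul, QuadraticAlgebra.im_mul]
  ring

lemma nm_one : nm (1 : OO A B) = 1 := by
  unfold nm
  have o1 : (1 : OO A B).re = 1 := rfl
  have o2 : (1 : OO A B).im = 0 := rfl
  rw [o1, o2]
  ring

lemma nm_neg (x : OO A B) : nm (-x) = nm x := by
  unfold nm
  have o1 : (-x).re = -x.re := rfl
  have o2 : (-x).im = -x.im := rfl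
  rw [o1, o2]
  ring

lemma nm_cong (m : ℕ) (x y : OO A B) (h : x - y ∈ idl (A := A) (B := B) m) :
    ((nm x : ℤ) : ZMod m) = ((nm y : ℤ) : ZMod m) := by
  obtain ⟨z, hz⟩ := Ideal.mem_span_singleton.1 h
  have e1 : x = y + (m : OO A B) * z := by rw [← hz]; ring
  have r1 : x.re = y.re + m * z.re := by
    rw [e1]
    simp
  have r2 : x.im = y.im + m * z.im := by
    rw [e1]
    simp
  have e2 : nm x = nm y + (m : ℤ) * (2 * y.re * z.re + m * z.re ^ 2 + B * (y.re * z.im +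
      z.re * y.im + m * z.re * z.im) - A * (2 * y.im * z.im + m * z.im ^ 2)) := by
    unfold nm
    rw [r1, r2]
    ring
  rw [e2]
  push_cast
  rw [ZMod.natCast_self]
  ring

lemma idl_le {m n : ℕ} (h : m ∣ n) : (idl n : Ideal (OO A B)) ≤ idl m := by
  rw [Ideal.span_singleton_le_span_singleton]
  exact_mod_cast Nat.cast_dvd_cast (α := OO A B) h

lemma nm_coprime (x : OO A B) (D : ℤ) (h : IsCoprime x ((D : ℤ) : OO A B)) :
    IsCoprime (nm x) D := by
  obtain ⟨u, v, huv⟩ := h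
  have e : u * x = 1 - v * ((D : ℤ) : OO A B) := by linear_combination huv
  have e2 := congrArg nm e
  rw [nm_mul] at e2
  have e3 : nm (1 - v * ((D : ℤ) : OO A B)) =
      1 + D * (-2 * v.re + D * v.re ^ 2 - B * v.im + B * D * v.re * v.im - A * D * v.im ^ 2) := by
    have o1 : (1 : OO A B).re = 1 := rfl
    have o2 : (1 : OO A B).im = 0 := rfl
    unfold nm
    simp [o1, o2]
    ring
  rw [e3] at e2
  exact ⟨nm u, -(-2 * v.re + D * v.re ^ 2 - B * v.im + B * D * v.re * v.im -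
    A * D * v.im ^ 2), by linear_combination e2⟩

end THQ

open _root_.Pool.Agent.TWQ.THQ in
theorem t_THQ (h1 : S_IDQ) (h2 : S_TEQ) : S_THQ := by
  intro p q A B P P' V f hS ι R w hw kp eta e b hC l N hl hlf ψ
  obtain ⟨⟨hcq, hp, hp5, hpq, hP, hV, hf0, hpf, hfD, hPP, hcop⟩, -, -, -, -, -, hlast⟩ :=
    h1 p q A B P P' V f hS
  obtain ⟨w1, wm, wper, w0, wroot, wneg, -, -⟩ := h2 p q A B P P' V f hS w hw
  have hpP : (idl p : Ideal (OO A B)) ≤ P := by rw [← hPP]; exact Ideal.mul_le_left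
  have hpP' : (idl p : Ideal (OO A B)) ≤ P' := by rw [← hPP]; exact Ideal.mul_le_right
  have hstar : ∀ x : OO A B, P' = cjI P → (x ∈ P' ↔ star x ∈ P) := by
    intro x h
    rw [h]
    exact Iff.rfl
  have hPtop : (1 : OO A B) ∉ P := fun h => hP.ne_top ((Ideal.eq_top_iff_one _).2 h)
  have hwb : ∀ x y : OO A B, x - y ∈ P' → w (star x) ^ b = w (star y) ^ b := by
    intro x y hxy
    rcases hC.bb with ⟨-, h⟩ | ⟨h, -, -⟩
    · rw [h, pow_zero, pow_zero]
    · rw [wper (star x) (star y)]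
      have := (hstar _ h).1 hxy
      rwa [star_sub] at this
  have hwz : w 0 = 0 := (w0 0).2 P.zero_mem
  have hnegw : ∀ x : OO A B, w (-x) = -w x := by
    intro x
    have : -x = (-1) * x := by ring
    rw [this, wm, wneg]
    ring
  have hn0 : nI (R.b R.i0) = 1 := by
    rw [R.b0]
    unfold nI
    exact Nat.card_unique
  have hxP : ∀ x : OO A B, IsCoprime x ((f * l ^ N * p : ℕ) : OO A B) → x ∉ P := by
    rintro x ⟨u, v, huv⟩ hx
    apply hPtop
    rw [← huv]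
    refine P.add_mem (P.mul_mem_left _ hx) (P.mul_mem_left _ (hpP ?_))
    exact idl_le (A := A) (B := B) (Dvd.intro_left _ rfl) (Ideal.mem_span_singleton_self _)
  have hxP' : P' = cjI P → ∀ x : OO A B, IsCoprime x ((f * l ^ N * p : ℕ) : OO A B) →
      star x ∉ P := by
    rintro h x ⟨u, v, huv⟩ hx
    apply hPtop
    have h1P' : (1 : OO A B) ∈ P' := by
      rw [← huv]
      refine P'.add_mem (P'.mul_mem_left _ ((hstar _ h).2 hx)) (P'.mul_mem_left _ (hpP' ?_))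
      exact idl_le (A := A) (B := B) (Dvd.intro_left _ rfl) (Ideal.mem_span_singleton_self _)
    have := (hstar _ h).1 h1P'
    rwa [star_one] at this
  have hd1 : f ∣ f * l ^ N * p := ⟨l ^ N * p, by ring⟩
  have hd2 : l ^ N ∣ f * l ^ N * p := ⟨f * p, by ring⟩
  have hd3 : p ∣ f * l ^ N * p := Dvd.intro_left _ rfl
  refine ⟨?_, ?_, ?_, ?_, ?_, ?_⟩
  · intro i x y hxy
    unfold thQ thT
    rw [hC.per x y (idl_le hd1 hxy), wper x y (hpP (idl_le hd3 hxy)),
      hwb x y (hpP' (idl_le hd3 hxy)), Int.cast_mul, Int.cast_mul,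
      nm_cong (l ^ N) x y (idl_le hd2 hxy)]
  · intro i x
    unfold thQ thT
    have e1 : eta (-x) = (-1) ^ (e - 1 + b) * eta x := by
      have : -x = (-1) * x := by ring
      rw [this, hC.mul, hC.neg]
    rw [nm_neg, e1, hnegw, star_neg, hnegw, neg_pow (w x), neg_pow (w (star x))]
    have e2 : ((-1 : ℂ) ^ (e - 1 + b)) * ((-1) ^ (e - 1) * (-1) ^ b) = 1 := by
      rw [← pow_add, ← pow_add, ← two_mul, pow_mul]
      norm_num
    linear_combination (kp i * eta x * ψ ((nm x * nI (R.b i) : ℤ) : ZMod (l ^ N)) *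
      w x ^ (e - 1) * w (star x) ^ b) * e2
  · intro i x hx
    by_contra hne
    apply hx
    have hw1 : w x ≠ 0 := right_ne_zero_of_mul hne
    have ht : thQ R kp eta ψ w e b i x ≠ 0 := left_ne_zero_of_mul hne
    unfold thQ thT at ht
    have he : eta x ≠ 0 :=
      right_ne_zero_of_mul (left_ne_zero_of_mul (left_ne_zero_of_mul (left_ne_zero_of_mul ht)))
    have hb : w (star x) ^ b ≠ 0 := right_ne_zero_of_mul ht
    refine hlast l N hlf x ((hC.supp x).1 he) (fun h => hw1 ((w0 x).2 h)) ?_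
    intro hne' hxP2
    rcases hC.bb with ⟨h, -⟩ | ⟨h, hb1, -⟩
    · exact hne' h
    · apply hb
      rw [(w0 (star x)).2 ((hstar _ h).1 hxP2)]
      exact zero_pow (by omega)
  · intro hpl
    obtain ⟨r, hr, hr1, hr2⟩ := hC.fin
    have hpl' : ¬ p ∣ l := fun h => hpf (h.trans hlf)
    have hpq1 : ¬ p ∣ q - 1 := by
      intro h
      have h3 : p ∣ q := by
        rcases hS with ⟨-, ⟨-, -, h⟩ | ⟨-, -, h⟩⟩
        · rw [h]; exact dvd_pow_self p two_ne_zero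
        · rw [h]
      have h4 : p ∣ q - (q - 1) := Nat.dvd_sub h3 h
      have h5 : q - (q - 1) = 1 := by omega
      rw [h5] at h4
      exact hp.one_lt.ne' (Nat.dvd_one.1 h4)
    refine ⟨r * ((l - 1) * l ^ N * (q - 1)), ?_, ?_⟩
    · intro h
      rcases hp.dvd_mul.1 h with h | h
      · exact hr h
      · rcases hp.dvd_mul.1 h with h | h
        · rcases hp.dvd_mul.1 h with h | h
          · exact hpl h
          · exact hpl' (hp.dvd_of_dvd_pow h)
        · exact hpq1 h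
    · intro i x hx
      have hxf : eta x ≠ 0 := by
        rw [hC.supp]
        have h3 : IsCoprime x ((f : ℕ) : OO A B) := by
          obtain ⟨u, v, huv⟩ := hx
          refine ⟨u, v * ((l ^ N * p : ℕ) : OO A B), ?_⟩
          rw [← huv]
          push_cast
          ring
        exact (Ideal.isCoprime_span_singleton_iff x ((f : ℕ) : OO A B)).2 h3
      have e1 : kp i ^ (r * ((l - 1) * l ^ N * (q - 1))) = 1 := by rw [pow_mul, hr1, one_pow]
      have e2 : eta x ^ (r * ((l - 1) * l ^ N * (q - 1))) = 1 := by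
        rw [pow_mul, hr2 x hxf, one_pow]
      have e3 : (w x ^ (e - 1)) ^ (r * ((l - 1) * l ^ N * (q - 1))) = 1 := by
        have : w x ^ (q - 1) = 1 := (wroot x (hxP x hx)).1
        calc (w x ^ (e - 1)) ^ (r * ((l - 1) * l ^ N * (q - 1)))
            = (w x ^ (q - 1)) ^ ((e - 1) * (r * ((l - 1) * l ^ N))) := by
              rw [← pow_mul, ← pow_mul]; congr 1; ring
          _ = 1 := by rw [this, one_pow]
      have e4 : (w (star x) ^ b) ^ (r * ((l - 1) * l ^ N * (q - 1))) = 1 := by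
        rcases hC.bb with ⟨-, h⟩ | ⟨h, -, -⟩
        · rw [h, pow_zero, one_pow]
        · have : w (star x) ^ (q - 1) = 1 := (wroot _ (hxP' h x hx)).1
          calc (w (star x) ^ b) ^ (r * ((l - 1) * l ^ N * (q - 1)))
              = (w (star x) ^ (q - 1)) ^ (b * (r * ((l - 1) * l ^ N))) := by
                rw [← pow_mul, ← pow_mul]; congr 1; ring
            _ = 1 := by rw [this, one_pow]
      have e5 : (ψ ((nm x * nI (R.b i) : ℤ) : ZMod (l ^ N))) ^
          (r * ((l - 1) * l ^ N * (q - 1))) = 1 := by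
        have hu1 : IsCoprime (nm x * nI (R.b i) : ℤ) ((l ^ N : ℕ) : ℤ) := by
          have h3 : IsCoprime (nm x) ((l ^ N : ℕ) : ℤ) := by
            apply nm_coprime
            obtain ⟨u, v, huv⟩ := hx
            refine ⟨u, v * ((f * p : ℕ) : OO A B), ?_⟩
            rw [← huv]
            push_cast
            ring
          have h4 : IsCoprime ((nI (R.b i) : ℕ) : ℤ) ((l ^ N : ℕ) : ℤ) := by
            rw [Nat.isCoprime_iff_coprime]
            have h5 : (nI (R.b i)).Coprime l :=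
              Nat.Coprime.coprime_dvd_right (hlf.trans (Dvd.intro_left p rfl)) (R.cop i)
            exact h5.pow_right N
          exact IsCoprime.mul_left h3 h4
        have hu : IsUnit (((nm x * nI (R.b i) : ℤ)) : ZMod (l ^ N)) := by
          obtain ⟨u, v, huv⟩ := hu1
          have h6 := congrArg (fun z : ℤ => (z : ZMod (l ^ N))) huv
          simp only [Int.cast_add, Int.cast_mul, Int.cast_natCast, Int.cast_one] at h6
          rw [ZMod.natCast_self, mul_zero, add_zero] at h6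
          refine IsUnit.of_mul_eq_one (u : ZMod (l ^ N)) ?_
          push_cast
          rw [← h6]
          ring
        obtain ⟨y, hy⟩ := hu
        have hphi : (l ^ N).totient ∣ (l - 1) * l ^ N := by
          rcases Nat.eq_zero_or_pos N with h | h
          · rw [h]; simp
          · rw [Nat.totient_prime_pow hl h]
            refine ⟨l, ?_⟩
            have : l ^ N = l ^ (N - 1) * l := by
              rw [← pow_succ]; congr 1; omega
            rw [this]; ring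
        obtain ⟨t, ht⟩ := hphi
        have h7 : y ^ (r * ((l - 1) * l ^ N * (q - 1))) = 1 := by
          have : r * ((l - 1) * l ^ N * (q - 1)) = (l ^ N).totient * (t * (q - 1) * r) := by
            rw [ht]; ring
          rw [this, pow_mul, ZMod.pow_totient, one_pow]
        rw [← hy, ← map_pow, ← Units.val_pow_eq_pow_val, h7, Units.val_one, map_one]
      unfold thQ thT
      rw [mul_pow, mul_pow, mul_pow, mul_pow, e1, e2, e3, e4, e5]
      norm_num
  · intro i x a ha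
    have ha1 : a - 1 ∈ (idl (f * l ^ N) : Ideal (OO A B)) := Ideal.mul_le_left ha
    have ha2 : a - 1 ∈ P' := Ideal.mul_le_right ha
    have e1 : eta a = 1 := by
      rw [hC.per a 1 (idl_le (Dvd.intro _ rfl) ha1), hC.one]
    have e2 : ((nm a : ℤ) : ZMod (l ^ N)) = 1 := by
      rw [nm_cong (l ^ N) a 1 (idl_le (Dvd.intro_left _ rfl) ha1), nm_one, Int.cast_one]
    have e3 : w (star a) ^ b = 1 := by
      rw [hwb a 1 ha2, star_one, w1, one_pow]
    unfold thQ thT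
    rw [hC.mul, e1, THQ.nm_mul, wm, star_mul', wm, mul_pow, mul_pow, e3]
    push_cast
    rw [e2]
    rw [mul_one, mul_one, mul_one]
    ring
  · intro i x a
    unfold thQ thT
    rw [hC.mul, THQ.nm_mul, wm, star_mul', wm, mul_pow, mul_pow, hn0, hC.kp0]
    have e1 : ((nm a * nm x * nI (R.b i) : ℤ) : ZMod (l ^ N)) =
        ((nm a * ((1 : ℕ) : ℤ) : ℤ) : ZMod (l ^ N)) * ((nm x * nI (R.b i) : ℤ) : ZMod (l ^ N)) := by
      push_cast
      ring
    rw [e1, map_mul]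
    ring

end

end Pool.Agent.TWQ


end
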