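import Pool.Agent.MVF.C030
import Pool.Agent.MVF.C071
import Pool.Agent.TWM.C04
import Pool.Agent.TWM.C06
import Pool.Agent.TWM.C10
import Pool.Agent.TWM.C15
import Pool.Agent.TWM.C26
import Pool.Agent.TWZ.C01

/-! Parts: TWQ.StQ3, TWQ.FN1Q, TWQ.CRTQ, TWQ.StQC, TWQ.STKQ, TWQ.TBQ -/

section

/-!
# TWQ, K side: block K for fields `K` which are ramified above `p` (helper60)

`SetE`: as `SetD` of `Pool/Agent/TWK/StK3.lean`, but the condition `om` (no `p`-th roots of unity in the `K B_n`) is replaced by: `[K' : k]` is prime to `p`.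
`k ≤ K ≤ K'' ≤ K'`; `K'' = K H`, `K' = K H k(ζ_(2p))`, `H = RF ⊤`, `p ∤ [H : k]`.
-/

set_option autoImplicit false

open NumberField IsDedekindDomain Finset
open scoped nonZeroDivisors Pointwise

namespace Pool.Agent.TWQ

open _root_.MU3 Pool.Agent.MU3 Pool.Agent.MU3A Pool.Agent.MU3B Pool.Agent.RI Pool.Agent.RID
  Pool.Agent.MUX Pool.Agent.MUXK Pool.Agent.MUXW Pool.Agent.MUXJ Pool.Agent.TWK
open Pool.Agent.MU3V (Sub GD)

/-- the fields of block K, `[K' : k]` prime to `p` -/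
structure SetE (p l : ℕ) (k K K'' K' : IntermediateField ℚ ℂ) (B : ℕ → IntermediateField ℚ ℂ) :
    Prop where
  bas : BasC l k K' B
  hk : k ≤ K
  le1 : K ≤ K''
  le2 : K'' ≤ K'
  cop : ¬ p ∣ Module.finrank k (IntermediateField.extendScalars bas.hk)
  ze : ∃ ζ ∈ K', IsPrimitiveRoot ζ (2 * p)

/-- (K4Q) `S_K4` for `SetE`. USES S_K3, S_SUBC, S_GALC, S_RAMC, S_LFT2, S_DEG2, S_NRM2, S_DSC2 (all proved). PROOF. `t_K4` with the norm in place of `S_PWL1`: `[K' B : K B]` is prime to `p`. -/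
def S_K4Q : Prop := ∀ (p l : ℕ) [Fact p.Prime] [Fact l.Prime], p ≠ l →
    ∀ (F : Type) [Field F] [CharP F p] [IsAlgClosed F]
    (k K K'' K' : IntermediateField ℚ ℂ) (B : ℕ → IntermediateField ℚ ℂ)
    [FiniteDimensional ℚ k] [FiniteDimensional ℚ K] [FiniteDimensional ℚ K'']
    [FiniteDimensional ℚ K'] [∀ n, FiniteDimensional ℚ ↥(K ⊔ B n)]
    [∀ n, FiniteDimensional ℚ ↥(K'' ⊔ B n)] [∀ n, FiniteDimensional ℚ ↥(K' ⊔ B n)],
    SetE p l k K K'' K' B →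
    ∃ S' : Finset ℕ, 2 ∈ S' ∧ p ∈ S' ∧ (∀ ℓ ∈ S', ℓ.Prime) ∧
    ∀ S : Finset ℕ, S' ⊆ S → (∀ ℓ ∈ S, ℓ.Prime) → ∃ n₀ : ℕ, ∀ n, n₀ ≤ n →
    ∀ (h : k ≤ K ⊔ B (n + 1)) (h' : k ≤ K'' ⊔ B (n + 1)),
    letI := algC h
    letI := algC h'
    ∀ (c : ↥(K'' ⊔ B (n + 1))) (c₀ : ↥(K ⊔ B (n + 1))), c ≠ 0 → SU S ↥(K'' ⊔ B (n + 1)) c →
    KolInP p k ↥(K'' ⊔ B (n + 1)) {g | ∀ x : ↥(K'' ⊔ B (n + 1)), (x : ℂ) ∈ K'' → g x = x} S c →
    (c₀ : ℂ) = ∏ᶠ g : NC h' (K ⊔ B (n + 1)),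
      (((g : ↥(K'' ⊔ B (n + 1)) ≃ₐ[k] ↥(K'' ⊔ B (n + 1))) c : ↥(K'' ⊔ B (n + 1))) : ℂ) →
    (∀ χ : (↥(K ⊔ B (n + 1)) ≃ₐ[k] ↥(K ⊔ B (n + 1))) →* Fˣ,
      (∃ g : ↥(K ⊔ B (n + 1)) ≃ₐ[k] ↥(K ⊔ B (n + 1)),
        (∀ x : ↥(K ⊔ B (n + 1)), (x : ℂ) ∈ K ⊔ B n → g x = x) ∧ χ g ≠ 1) →
      ∃ θ : F →+ ZMod p, ∀ y : ↥(K ⊔ B (n + 1)), y ^ p ≠ sE p χ θ c₀) →
    ∀ L : IntermediateField ℚ ℂ, k ≤ L → L ≤ K ⊔ B (n + 1) →
      padicValNat p (classNo L) = padicValNat p (classNo (L ⊓ (K ⊔ B n)))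

/-- (K5Q) `S_K5` for `SetE`. USES K4Q, Sy_MEM, Sy_TOW, Sy_SUC, Sy_KOL. -/
def S_K5Q : Prop := ∀ (p l : ℕ) [Fact p.Prime] [Fact l.Prime], p ≠ l →
    ∀ (F : Type) [Field F] [CharP F p] [IsAlgClosed F]
    (A B : ℤ), CQ A B → TorX A B → ∀ (N₀ : ℕ) (ι : Type) [Finite ι] (R : Reps A B N₀ ι)
    (K K'' K' : IntermediateField ℚ ℂ) (Bn : ℕ → IntermediateField ℚ ℂ)
    [FiniteDimensional ℚ (kk A B)] [FiniteDimensional ℚ K] [FiniteDimensional ℚ K'']
    [FiniteDimensional ℚ K'] [∀ n, FiniteDimensional ℚ ↥(K ⊔ Bn n)]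
    [∀ n, FiniteDimensional ℚ ↥(K'' ⊔ Bn n)] [∀ n, FiniteDimensional ℚ ↥(K' ⊔ Bn n)],
    SetE p l (kk A B) K K'' K' Bn → HasH A B K'' →
    ∀ (a : ℕ) (H : Finset ℂ), a ≠ 0 → IsHalf (R.L R.i0) a H → ∀ S₀ : Finset ℕ, ∃ n₀ : ℕ,
    ∀ n, n₀ ≤ n → ∀ m : ℕ, m ≠ 0 → ¬ ((m : ℕ) : OO A B) ∣ 2 → a.Coprime m →
    (∀ q : ℕ, q.Prime → q ∣ m → q ∈ S₀) →
    Sub (K'' ⊔ Bn (n + 1)) (RF (idl (A := A) (B := B) m)) →
    ∀ θ : (RF (idl (A := A) (B := B) m) : IntermediateField (kk A B) ℂ), θ ≠ 0 →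
    (θ : ℂ) = ThetaH (R.L R.i0) H (R.om R.i0 / emb ((m : ℕ) : OO A B)) →
    ∀ (h : kk A B ≤ K ⊔ Bn (n + 1)), letI := algC h
    ∀ c₀ : ↥(K ⊔ Bn (n + 1)), (c₀ : ℂ) = cW h θ →
    (∀ χ : (↥(K ⊔ Bn (n + 1)) ≃ₐ[kk A B] ↥(K ⊔ Bn (n + 1))) →* Fˣ,
      (∃ g : ↥(K ⊔ Bn (n + 1)) ≃ₐ[kk A B] ↥(K ⊔ Bn (n + 1)),
        (∀ x : ↥(K ⊔ Bn (n + 1)), (x : ℂ) ∈ K ⊔ Bn n → g x = x) ∧ χ g ≠ 1) →
      ∃ t : F →+ ZMod p, ∀ y : ↥(K ⊔ Bn (n + 1)), y ^ p ≠ sE p χ t c₀) →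
    ∀ L : IntermediateField ℚ ℂ, kk A B ≤ L → L ≤ K ⊔ Bn (n + 1) →
      padicValNat p (classNo L) = padicValNat p (classNo (L ⊓ (K ⊔ Bn n)))

/-- (SETQ) the fields `K'' = K H`, `K' = K H k(ζ_(2p))`, both `≤ RF (idl (f p))`; `p ∤ [H : k]`. -/
def S_SETQ : Prop := ∀ (p l : ℕ) [Fact p.Prime] [Fact l.Prime] (h f : ℕ), 5 ≤ p → ¬ p ∣ f →
    f ≠ 0 → 2 ∣ f → l ∣ f →
    ∀ (A B : ℤ), CQ A B → TorX A B → NLex A B →
    ¬ p ∣ Module.finrank (kk A B) (RF (⊤ : Ideal (OO A B)) : IntermediateField (kk A B) ℂ) →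
    ∀ (K : IntermediateField ℚ ℂ) [FiniteDimensional ℚ K] [FiniteDimensional ℚ (kk A B)]
    (hk : kk A B ≤ K), ¬ p ∣ Module.finrank (kk A B) (IntermediateField.extendScalars hk) →
    Sub K (RF (idl (f * p)) : IntermediateField (kk A B) ℂ) →
    ∀ (Bn : ℕ → IntermediateField ℚ ℂ), (∀ n, IsLayer l n (Bn n)) → Monotone Bn →
    (∀ n, Sub (K ⊔ Bn n) (RF (idl (f * l ^ (n + h) * p)) : IntermediateField (kk A B) ℂ)) →
    ∃ (K'' K' : IntermediateField ℚ ℂ), FiniteDimensional ℚ K'' ∧ FiniteDimensional ℚ K' ∧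
      SetE p l (kk A B) K K'' K' Bn ∧ HasH A B K'' ∧
      ∀ n, Sub (K'' ⊔ Bn n) (RF (idl (f * l ^ (n + h) * p)) : IntermediateField (kk A B) ℂ)

/-- (FN1Q) block K combined with the unit theorem, as `S_FIN1`, `K` ramified above `p`. -/
def S_FN1Q : Prop := ∀ (p l : ℕ) [Fact p.Prime] [Fact l.Prime] (h f : ℕ), 5 ≤ p → ¬ p ∣ f →
    f ≠ 0 → 2 ∣ f → l ∣ f →
    ∀ (A B : ℤ), CQ A B → TorX A B →
    ¬ p ∣ Module.finrank (kk A B) (RF (⊤ : Ideal (OO A B)) : IntermediateField (kk A B) ℂ) →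
    ∀ V : ValuationSubring ℂ, V.valuation (p : ℂ) < 1 →
    ∀ (N₀ : ℕ) (ι : Type) [Finite ι] (R : Reps A B N₀ ι)
    (K : IntermediateField ℚ ℂ) [FiniteDimensional ℚ K] [FiniteDimensional ℚ (kk A B)]
    (hk : kk A B ≤ K), ¬ p ∣ Module.finrank (kk A B) (IntermediateField.extendScalars hk) →
    Sub K (RF (idl (f * p)) : IntermediateField (kk A B) ℂ) →
    ∀ (Bn : ℕ → IntermediateField ℚ ℂ) [∀ n, FiniteDimensional ℚ ↥(K ⊔ Bn n)],
    (∀ n, IsLayer l n (Bn n)) → Monotone Bn →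
    (∀ n, Sub (K ⊔ Bn n) (RF (idl (f * l ^ (n + h) * p)) : IntermediateField (kk A B) ℂ)) →
    ∃ (a : ℕ) (H : Finset ℂ), 1 < a ∧ a.Coprime (6 * f * p) ∧ IsHalf (R.L R.i0) a H ∧
      ∃ n₁ : ℕ, ∀ n, n₁ ≤ n → ∀ b : ℕ, (∀ s < b, UnitAt p l h f V R H K Bn (n + s)) →
      ∀ L : IntermediateField ℚ ℂ, kk A B ≤ L → L ≤ K ⊔ Bn (n + b) →
        padicValNat p (classNo L) = padicValNat p (classNo (L ⊓ (K ⊔ Bn n)))

end Pool.Agent.TWQ


end

section

/-!
# TWQ, module FN1Q (helper60): block K combined with the unit theorem, `K` ramified above `p`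
-/

set_option autoImplicit false

open NumberField IsDedekindDomain

namespace Pool.Agent.TWQ

open _root_.MU3 Pool.Agent.MU3 Pool.Agent.MU3A Pool.Agent.MU3B Pool.Agent.RI Pool.Agent.RID
  Pool.Agent.MUX Pool.Agent.MUXK Pool.Agent.MUXW Pool.Agent.MUXJ Pool.Agent.MUXZ Pool.Agent.TWK
open Pool.Agent.MU3V (Sub GD)

open FIN1x in
theorem t_FN1Q (hSETD : S_SETQ) (hK5 : S_K5Q) (hMEM : Sy_MEM) (hTHN : Sz_THN) : S_FN1Q := by
  intro p l hp hl h f h5 hpf hf0 h2f hlf A B hc T hpH V hV N₀ ι _ R K _ _ hk hcop hKf Bn _ hlay hmono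
    hsub
  have hpp : p.Prime := hp.out
  have hlp : l.Prime := hl.out
  have hpl : p ≠ l := by
    rintro rfl
    exact hpf hlf
  have hNL : NLex A B := ⟨_, _, _, R.nl R.i0⟩
  obtain ⟨K'', K', hfd1, hfd2, hD, hHas, hsub''⟩ := hSETD p l h f h5 hpf hf0 h2f hlf A B hc T hNL hpH K
    hk hcop hKf Bn hlay hmono
    hsub
  have hfB : ∀ n, FiniteDimensional ℚ (Bn n) := fun n => (LAY_thm l n (Bn n) (hlay n)).1
  have hfd1' : ∀ n, FiniteDimensional ℚ ↥(K'' ⊔ Bn n) := fun n => by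
    have := hfB n
    exact IntermediateField.finiteDimensional_sup K'' (Bn n)
  have hfd2' : ∀ n, FiniteDimensional ℚ ↥(K' ⊔ Bn n) := fun n => by
    have := hfB n
    exact IntermediateField.finiteDimensional_sup K' (Bn n)
  have hAC : IsAlgClosed (IsLocalRing.ResidueField V) := isAlgClosed_residueField V
  have hCP : CharP (IsLocalRing.ResidueField V) p := charP_residueField V hpp hV
  set a : ℕ := 6 * f * p + 1 with hadef
  have ha1 : 1 < a := by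
    have : 0 < 6 * f * p := Nat.mul_pos (Nat.mul_pos (by norm_num) (Nat.pos_of_ne_zero hf0)) hpp.pos
    omega
  have hacop : a.Coprime (6 * f * p) := by
    rw [hadef, Nat.coprime_comm]
    exact Nat.coprime_self_add_right.2 (Nat.coprime_one_right _)
  have haodd : Odd a := by
    rw [hadef]
    refine Even.add_one ?_
    exact ((by decide : Even 6).mul_right f).mul_right p
  obtain ⟨H, hH, hθ⟩ := hTHN A B hc T N₀ ι R a haodd
  refine ⟨a, H R.i0, ha1, hacop, hH R.i0, ?_⟩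
  obtain ⟨n₀, hn₀⟩ := hK5 p l hpl (IsLocalRing.ResidueField V) A B hc T N₀ ι R K K'' K' Bn hD hHas
    a (H R.i0) (by omega) (hH R.i0) (f * p * l).primeFactors
  refine ⟨n₀, ?_⟩
  have step : ∀ n, n₀ ≤ n → UnitAt p l h f V R (H R.i0) K Bn n →
      ∀ L : IntermediateField ℚ ℂ, kk A B ≤ L → L ≤ K ⊔ Bn (n + 1) →
        padicValNat p (classNo L) = padicValNat p (classNo (L ⊓ (K ⊔ Bn n))) := by
    intro n hn hU L hkL hL
    set m : ℕ := f * l ^ (n + 1 + h) * p with hm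
    have hm0 : m ≠ 0 := mul_ne_zero (mul_ne_zero hf0 (pow_ne_zero _ hlp.ne_zero)) hpp.ne_zero
    have hm5 : 5 ≤ m := by
      refine h5.trans (Nat.le_of_dvd (Nat.pos_of_ne_zero hm0) ?_)
      exact dvd_mul_left p _
    have hm2 : ¬ ((m : ℕ) : OO A B) ∣ 2 := not_dvd_two hm5
    have hmu : ¬ IsUnit ((m : ℕ) : OO A B) := fun hu => hm2 hu.dvd
    have h6f : f ∣ 6 * f * p := ⟨6 * p, by ring⟩
    have h6p : p ∣ 6 * f * p := dvd_mul_left p _
    have haf : a.Coprime f := hacop.coprime_dvd_right h6f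
    have hal : a.Coprime l := haf.coprime_dvd_right hlf
    have hap : a.Coprime p := hacop.coprime_dvd_right h6p
    have ham : a.Coprime m := (haf.mul_right (hal.pow_right _)).mul_right hap
    obtain ⟨θ, hpt, hom, hne⟩ := hθ m hm0 hmu ham
    have h0 : kk A B ≤ K ⊔ Bn (n + 1) := hk.trans le_sup_left
    let i1 : Algebra (kk A B) ↥(K ⊔ Bn (n + 1)) := algC h0
    have hsubm : Sub (K ⊔ Bn (n + 1)) (RF (idl (A := A) (B := B) m)) := hsub (n + 1)
    have hsubm'' : Sub (K'' ⊔ Bn (n + 1)) (RF (idl (A := A) (B := B) m)) := hsub'' (n + 1)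
    have hM := hMEM A B (RF (idl (A := A) (B := B) m)) (T.fin _ (idl_ne hm0))
      (T.gal _ (idl_ne hm0)) (T.comm _ (idl_ne hm0)) (K ⊔ Bn (n + 1)) h0 hsubm θ hne
    have hmem : cW h0 θ ∈ K ⊔ Bn (n + 1) := by
      rw [hM.1]
      exact (hM.2.1 _).1
    refine hn₀ n hn m hm0 hm2 ham ?_ hsubm'' θ hne hom h0 ⟨cW h0 θ, hmem⟩ rfl
      (hU θ hpt h0 ⟨cW h0 θ, hmem⟩ rfl) L hkL hL
    intro q hq hqm
    refine Nat.mem_primeFactors.2 ⟨hq, ?_, mul_ne_zero (mul_ne_zero hf0 hpp.ne_zero) hlp.ne_zero⟩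
    rcases (Nat.Prime.dvd_mul hq).1 hqm with h1 | h1
    · rcases (Nat.Prime.dvd_mul hq).1 h1 with h2 | h2
      · exact (h2.mul_right p).mul_right l
      · exact (hq.dvd_of_dvd_pow h2).mul_left _
    · exact (h1.mul_left f).mul_right l
  intro n hn b
  induction b with
  | zero =>
    intro _ L hkL hL
    have : L ⊓ (K ⊔ Bn n) = L := inf_eq_left.2 (by simpa using hL)
    rw [this]
  | succ b ih =>
    intro hU L hkL hL
    have h1 := step (n + b) (by omega) (hU b (Nat.lt_succ_self b)) L hkL hL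
    have hkKb : kk A B ≤ L ⊓ (K ⊔ Bn (n + b)) := le_inf hkL (hk.trans le_sup_left)
    have h2 := ih (fun s hs => hU s (Nat.lt_succ_of_lt hs)) (L ⊓ (K ⊔ Bn (n + b))) hkKb inf_le_right
    rw [h1, h2, inf_assoc]
    have h3 : (K ⊔ Bn (n + b)) ⊓ (K ⊔ Bn n) = K ⊔ Bn n :=
      inf_eq_right.2 (sup_le_sup_left (hmono (Nat.le_add_right n b)) K)
    rw [h3]

end Pool.Agent.TWQ


end

section

/-!
# TWQ, block B', assembly (helper34): S_CRTQ
-/

set_option autoImplicit false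

open WeierstrassCurve Polynomial NumberField IsDedekindDomain

namespace Pool.Agent.TWQ

open _root_.MU3 Pool.Agent.MU3A Pool.Agent.MU3B Pool.Agent.MU3C Pool.Agent.RI Pool.Agent.RID
open Pool.Agent.MUX Pool.Agent.MUXU Pool.Agent.MUXW Pool.Agent.TWT Pool.Agent.TWI
open Pool.Agent.TWT.CRB
open Pool.Agent.MU3V (cls Sub GD algDF)
open Pool.Agent.MUXV (GR InK tX)
open Pool.Agent.MUXI (IA RE AR)
open OnePoint

noncomputable section

namespace CRTQ

/-- the local data -/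
theorem loc (hLOQI : S_LOQI) (hLOQS : S_LOQS) {p q : ℕ} {A B : ℤ} {P P' : Ideal (OO A B)}
    {V : ValuationSubring ℂ} {f : ℕ} (hS : SetQ p q A B P P' V f) {ι : Type}
    (R : Reps A B (p * f) ι) (hG : GRd V R) {w : OO A B → ℂ} (hw : TeQ p q P V w) {m : ℕ}
    {x0 y0 : OO A B} (hLQ : LvQ p P P' m x0 y0) : ∃ t0 : ℂ, LocQ p q P V R y0 w t0 := by
  obtain ⟨h3, ⟨hI, hP', hq⟩ | ⟨hI, hP', hq⟩⟩ := hS
  · obtain ⟨t0, ht0⟩ := hLOQI p A B P V f hI h3 ι R hG y0 hLQ.yP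
    have hp5 := hI.p5
    rcases hw with ⟨_, hw⟩ | ⟨hq', _⟩
    · subst hq
      exact ⟨t0, ht0 w hw⟩
    · exfalso
      rw [hq] at hq'
      nlinarith
  · have hy : y0 ∈ cjI P := hP' ▸ hLQ.yP'
    obtain ⟨t0, ht0⟩ := hLOQS p A B P V f hI h3 ι R hG y0 hy hLQ.yP
    have hp5 := hI.p5
    rcases hw with ⟨hq', _⟩ | ⟨_, hw⟩
    · exfalso
      rw [hq] at hq'
      nlinarith
    · subst hq
      exact ⟨t0, ht0 w hw⟩

theorem f_big {p q : ℕ} {A B : ℤ} {P P' : Ideal (OO A B)} {V : ValuationSubring ℂ} {f : ℕ}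
    (hcq : CQ A B) (hf0 : f ≠ 0) (h1 : 2 * absD A B ∣ (f : ℤ)) : 3 ≤ f := by
  have h2 : 3 ≤ absD A B := by
    have h3 := hcq.neg
    unfold absD
    rcases hcq.hB with h4 | h4 <;> rw [h4] at h3 ⊢ <;> omega
  have h5 : (0 : ℤ) < f := by omega
  have h6 := Int.le_of_dvd h5 h1
  omega

theorem main (hIDQ : S_IDQ) (hVPQ : S_VPQ) (hTEQ : S_TEQ) (hTHQ : S_THQ) (hLOQI : S_LOQI)
    (hLOQS : S_LOQS) (hFIQ : S_FIQ) (hDLQ : S_DLQ) (hRSQ : S_RSQ) (hSDQ : S_SDQ)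
    (hSIGQ : S_SIGQ) (hHTF : S_HTF) : S_CRTQ := by
  intro p q _ A B P P' V f hS hT ι _ R hG w hw kp eta e b hC he2 l N hl hpl1 hlf ψ hψ a ha1 hac
    hfac H hH θ hθ D _ _ h hs
  let _ := algC h
  intro χ hχ c₀ hc₀ hbig
  by_contra hcon
  push Not at hcon
  classical
  have hp : p.Prime := Fact.out
  obtain ⟨⟨hcq, -, hp5, hpq, hPp, hOv, hf0, hpf, hfD, -, -⟩, i2, ⟨T, hTr⟩, i4, i5, i6, -⟩ :=
    hIDQ p q A B P P' V f hS
  have hpl : ¬ p ∣ l := fun h1 => hpf (h1.trans hlf)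
  have hm0 : f * l ^ N ≠ 0 := mul_ne_zero hf0 (pow_ne_zero _ hl.ne_zero)
  have hpm : ¬ p ∣ f * l ^ N := by
    intro h1
    rcases (hp.dvd_mul).1 h1 with h2 | h2
    · exact hpf h2
    · exact hpl (hp.dvd_of_dvd_pow h2)
  have hmp0 : f * l ^ N * p ≠ 0 := mul_ne_zero hm0 hp.ne_zero
  have hLv : LvM p f (f * l ^ N) R := by
    refine ⟨hm0, Dvd.intro _ rfl, hpm, fun i => ?_⟩
    have h1 := R.cop i
    have h2 : (nI (R.b i)).Coprime p := Nat.Coprime.coprime_dvd_right (Dvd.intro _ rfl) h1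
    have h3 : (nI (R.b i)).Coprime f := Nat.Coprime.coprime_dvd_right (Dvd.intro_left _ rfl) h1
    have h4 : (nI (R.b i)).Coprime l := Nat.Coprime.coprime_dvd_right hlf h3
    exact Nat.Coprime.mul_right (Nat.Coprime.mul_right h3 (h4.pow_right N)) h2
  have hac2 : a.Coprime (2 * (f * l ^ N) * p) := by
    have h2 : a.Coprime 2 := Nat.Coprime.coprime_dvd_right ⟨3 * f * p, by ring⟩ hac
    have h3 : a.Coprime f := Nat.Coprime.coprime_dvd_right ⟨6 * p, by ring⟩ hac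
    have h4 : a.Coprime p := Nat.Coprime.coprime_dvd_right ⟨6 * f, by ring⟩ hac
    have h5 : a.Coprime l := Nat.Coprime.coprime_dvd_right hlf h3
    exact Nat.Coprime.mul_right (Nat.Coprime.mul_right h2
      (Nat.Coprime.mul_right h3 (h5.pow_right N))) h4
  have hf3 : 3 ≤ f := f_big (p := p) (q := q) (P := P) (P' := P') (V := V) hcq hf0 hfD
  have hm3 : 3 ≤ f * l ^ N := hf3.trans (Nat.le_mul_of_pos_right f (pow_pos hl.pos N))
  have hM3 : 3 ≤ f * l ^ N * p := hm3.trans (Nat.le_mul_of_pos_right _ hp.pos)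
  have hTc := i4 T hTr
  obtain ⟨x0, y0, hLQ⟩ := i5 (f * l ^ N) hm3 hpm
  obtain ⟨j1, -, -, -⟩ := i6 (f * l ^ N) x0 y0 hLQ
  obtain ⟨hv1, hv0, -, -, hv2, -, hvq, -⟩ := hVPQ p q A B P P' V f hS
  obtain ⟨-, w2, w3, w4, w5, -, w7, w8⟩ := hTEQ p q A B P P' V f hS w hw
  obtain ⟨t0, hLoc⟩ := loc hLOQI hLOQS hS R hG hw hLQ
  obtain ⟨q1, q2, q3, q4, q5, q6⟩ := hHTF A B hcq hT (p * f) ι R (f * l ^ N * p) hM3 hLv.cop
  -- the automorphisms `γ c`
  have hγe : ∀ c : OO A B, ∃ σ : GalF A B (f * l ^ N * p), c ∉ P →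
      HitF R (f * l ^ N * p) _ σ R.i0 (x0 + c * (f * l ^ N : ℕ) * y0) := by
    intro c
    by_cases hc : c ∈ P
    · exact ⟨1, fun h1 => absurd hc h1⟩
    · obtain ⟨σ, hσ⟩ := q2 R.i0 (x0 + c * (f * l ^ N : ℕ) * y0) (j1 c hc).1
      exact ⟨σ, fun _ => hσ⟩
  choose γ hγ0 using hγe
  have hγ : ∀ c ∈ T, HitF R (f * l ^ N * p) _ (γ c) R.i0 (x0 + c * (f * l ^ N : ℕ) * y0) :=
    fun c hc => hγ0 c (hTr.nz c hc)
  choose I X hIX using q1
  have hfin := hT.fin _ (CRA.idl_ne (A := A) (B := B) hmp0)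
  have MEM := ty_MEM A B _ hfin (hT.gal _ (CRA.idl_ne hmp0))
    (hT.comm _ (CRA.idl_ne hmp0)) D h hs
  letI : Fintype (GalF A B (f * l ^ N * p)) := by
    haveI := hfin
    exact Fintype.ofFinite _
  -- T is not empty
  have hq5 : 5 ≤ q := hp5.trans hpq
  have hTne : T.Nonempty := by
    rw [← Finset.card_pos, hTc]
    omega
  obtain ⟨c, hcT⟩ := hTne
  have hcP := hTr.nz c hcT
  -- the data for DPr
  have DD : DDat V t0 (q - 1) T w := by
    refine ⟨?_, by omega, hTc, hvq, fun c _ => (w7 c).1, fun c hc => (w5 c (hTr.nz c hc)).1,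
      (w8 T hTr).1⟩
    by_contra h1
    rw [not_lt] at h1
    have h2 := one_le_pow₀ h1 (n := q - 1)
    rw [hLoc.vt] at h2
    exact absurd hv1 (not_lt.2 h2)
  have hDL := fun σ => hDLQ p q A B P P' V f hS hT ι R hG (f * l ^ N) hLv x0 y0 hLQ w hw t0 hLoc
    T hTr γ hγ a H ha1 hac2 hH θ hθ σ (I σ) (X σ) (hIX σ)
  -- θ is not zero, all conjugates are units
  have hun : ∀ σ : GalF A B (f * l ^ N * p), V.valuation
      ((σ θ : (RF (idl (f * l ^ N * p)) : IntermediateField (kk A B) ℂ)) : ℂ) = 1 := by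
    intro σ
    have h1 := ((hDL ((γ c)⁻¹ * σ)).1 c hcT).1
    have h2 : γ c (((γ c)⁻¹ * σ) θ) = σ θ := by
      rw [← AlgEquiv.mul_apply, mul_inv_cancel_left]
    rwa [h2] at h1
  have hθ0 : θ ≠ 0 := by
    intro h1
    have h2 := hun 1
    rw [h1, map_zero, ZeroMemClass.coe_zero, map_zero] at h2
    exact zero_ne_one h2
  choose ρ hρ using (MEM θ hθ0).2.2.2.2
  -- the functionals
  have key : ∀ t : (IsLocalRing.ResidueField V) →+ ZMod p,
      V.valuation (∑ σ : GalF A B (f * l ^ N * p),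
        ((t (rsd V (thQ R kp eta ψ w e b (I σ) (X σ)))).val : ℂ) *
          (w c * (muX R (I σ) * w (X σ)) * dlX (R.L (I σ)) a (pt R (f * l ^ N * p) (I σ)
            (X σ * (x0 + c * (f * l ^ N : ℕ) * y0))))) ≤ V.valuation (t0 ^ (q - 2)) := by
    intro t
    have hn : ∀ σ : GalF A B (f * l ^ N * p),
        rsd V (thQ R kp eta ψ w e b (I σ) (X σ)) =
          (((χ (ρ σ))⁻¹ : (IsLocalRing.ResidueField V)ˣ) : IsLocalRing.ResidueField V) := by
      intro σ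
      rw [← hχ (ρ σ) _ (q6 (f * l ^ N * p) dvd_rfl hM3 D h hs (ρ σ) σ (I σ) (X σ) (hρ σ)
        (hIX σ))]
      congr 1
      refine (hTHQ p q A B P P' V f hS ι R w hw kp eta e b hC l N hl hlf ψ).1 (I σ) _ _ ?_
      rw [← Ideal.Quotient.eq]
      exact (Quotient.out_eq _).symm
    obtain ⟨y, hy⟩ := hcon t
    -- `y` as an element of `F`
    have hyF : (y : ℂ) ∈ (RF (idl (f * l ^ N * p)) : IntermediateField (kk A B) ℂ) := hs y y.2
    set n : GalF A B (f * l ^ N * p) → ℕ := fun σ =>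
      (t (rsd V (thQ R kp eta ψ w e b (I σ) (X σ)))).val with hndef
    have hyp : ((⟨(y : ℂ), hyF⟩ : (RF (idl (f * l ^ N * p)) : IntermediateField (kk A B) ℂ)) ^ p) =
        ∏ σ : GalF A B (f * l ^ N * p), (σ θ) ^ n σ := by
      apply Subtype.ext
      have h1 : (y : ℂ) ^ p = ∏ τ : D ≃ₐ[kk A B] D,
          cWt h θ τ ^ (t ((χ τ)⁻¹ : (IsLocalRing.ResidueField V)ˣ)).val := by
        have h2 := congrArg (Subtype.val : D → ℂ) hy
        push_cast at h2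
        rw [h2]
        unfold Pool.Agent.TWK.sE
        push_cast
        refine Finset.prod_congr (by congr) fun τ _ => ?_
        congr 1
        have h3 : cW h θ ∈ D := hc₀ ▸ c₀.2
        have h4 : c₀ = ⟨cW h θ, h3⟩ := Subtype.ext hc₀
        rw [h4]
        exact (MEM θ hθ0).2.2.1 τ h3
      have h5 : (∏ τ : D ≃ₐ[kk A B] D,
          cWt h θ τ ^ (t ((χ τ)⁻¹ : (IsLocalRing.ResidueField V)ˣ)).val) =
          ∏ σ : GalF A B (f * l ^ N * p),
          ((σ θ : (RF (idl (f * l ^ N * p)) : IntermediateField (kk A B) ℂ)) : ℂ) ^ n σ := by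
        rw [← Finset.prod_fiberwise Finset.univ ρ]
        refine Finset.prod_congr (by congr) fun τ _ => ?_
        rw [cWt_fib h hs ρ hρ θ τ, ← Finset.prod_pow]
        refine Finset.prod_congr rfl fun σ hσ => ?_
        rw [hndef]
        simp only
        rw [hn σ, (Finset.mem_filter.1 hσ).2]
      push_cast
      rw [h1, h5]
    have hyv : V.valuation (y : ℂ) ≤ 1 := by
      have h1 := congrArg (fun z : (RF (idl (f * l ^ N * p)) : IntermediateField (kk A B) ℂ) =>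
        V.valuation (z : ℂ)) hyp
      push_cast at h1
      rw [map_pow, map_prod] at h1
      have h2 : ∏ σ : GalF A B (f * l ^ N * p), V.valuation
          (((σ θ : (RF (idl (f * l ^ N * p)) : IntermediateField (kk A B) ℂ)) : ℂ) ^ n σ) = 1 :=
        Finset.prod_eq_one fun σ _ => by rw [map_pow, hun σ, one_pow]
      rw [h2] at h1
      exact (pow_le_one_iff hp.ne_zero).1 h1.le
    obtain ⟨g, hg⟩ := hFIQ p q A B P P' V f hS hT ι R hG (f * l ^ N) hLv x0 y0 hLQ w hw t0 hLoc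
      T hTr γ hγ ⟨(y : ℂ), hyF⟩ hyv
    have hlog := logd DD (Finset.univ : Finset (GalF A B (f * l ^ N * p)))
      (u := fun σ c => ((γ c (σ θ) :
        (RF (idl (f * l ^ N * p)) : IntermediateField (kk A B) ℂ)) : ℂ))
      (b := fun σ c => w c * (muX R (I σ) * w (X σ) * t0) * dlX (R.L (I σ)) a
        (pt R (f * l ^ N * p) (I σ) (X σ * (x0 + c * (f * l ^ N : ℕ) * y0))))
      n (fun σ _ => (hDL σ).2) (fun σ _ c hc => ((hDL σ).1 c hc).1) p (le_of_eq hLoc.vt.symm)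
      (κ := 1) (by rw [map_one]) hg
      (fun c _ => by
        rw [one_mul]
        have h1 := congrArg (fun z : (RF (idl (f * l ^ N * p)) : IntermediateField (kk A B) ℂ) =>
          ((γ c z : (RF (idl (f * l ^ N * p)) : IntermediateField (kk A B) ℂ)) : ℂ)) hyp
        simp only [map_pow, map_prod] at h1
        push_cast at h1
        exact h1.symm) hcT
    have e1 : (∑ σ : GalF A B (f * l ^ N * p), (n σ : ℂ) *
        (w c * (muX R (I σ) * w (X σ) * t0) * dlX (R.L (I σ)) a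
          (pt R (f * l ^ N * p) (I σ) (X σ * (x0 + c * (f * l ^ N : ℕ) * y0))))) =
        t0 * ∑ σ : GalF A B (f * l ^ N * p), (n σ : ℂ) *
        (w c * (muX R (I σ) * w (X σ)) * dlX (R.L (I σ)) a (pt R (f * l ^ N * p) (I σ)
            (X σ * (x0 + c * (f * l ^ N : ℕ) * y0)))) := by
      rw [Finset.mul_sum]
      exact Finset.sum_congr rfl fun σ _ => by ring
    rw [e1, map_mul] at hlog
    have e2 : V.valuation t0 ^ (q - 1) = V.valuation t0 * V.valuation t0 ^ (q - 2) := by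
      rw [← pow_succ']
      congr 1
      omega
    rw [e2] at hlog
    rw [map_pow]
    exact le_of_mul_le_mul_left hlog (zero_lt_iff.2 ((Valuation.ne_zero_iff _).2 hLoc.ne))
  -- Teichmüller lifts
  obtain ⟨s, hs1, hs2⟩ :=
    (hTHQ p q A B P P' V f hS ι R w hw kp eta e b hC l N hl hlf ψ).2.2.2.1 hpl1
  have hvt : V.valuation (p : ℂ) ≤ V.valuation (t0 ^ (q - 2)) := by
    rw [← hLoc.vt, map_pow]
    exact pow_le_pow_right_of_le_one' DD.t1.le (by omega)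
  have hmu := fun i => ((hVPQ p q A B P P' V f hS).2.2.2.2.2.2.2 ι R hG i).2.1
  have hwc : V.valuation (w c) = 1 := (w5 c hcP).2
  have hRS := hRSQ V p hv1 hv0 (GalF A B (f * l ^ N * p))
    (fun σ => thQ R kp eta ψ w e b (I σ) (X σ))
    (fun σ => w c * (muX R (I σ) * w (X σ)) * dlX (R.L (I σ)) a (pt R (f * l ^ N * p) (I σ)
            (X σ * (x0 + c * (f * l ^ N : ℕ) * y0)))) s hs1 (fun σ => hs2 _ _ (hIX σ).1)
    (fun σ => by
      rw [map_mul, map_mul, map_mul, hmu, hwc, one_mul, one_mul]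
      exact mul_le_one' (w7 _).1 ((hDL σ).1 c hcT).2) (t0 ^ (q - 2)) hvt key
  -- the sum
  have hSig := hSIGQ p q A B P P' V f hS hT ι R w hw kp eta e b hC l N hl hlf ψ x0 y0 hLQ c hcP a
    ha1 hac I X hIX
  have hSd := hSDQ p q A B P P' V f hS ι R w hw kp eta e b hC l N hl hpl1 hlf ψ a ha1 hac hfac
  rw [← hSd, ← hSig] at hbig
  have hwx : x0 + c * (f * l ^ N : ℕ) * y0 ∉ P := by
    intro h1
    have h2 := (j1 c hcP).1
    obtain ⟨u, v, huv⟩ := h2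
    have h3 : ((f * l ^ N * p : ℕ) : OO A B) ∈ P := by
      have h4 := (i2 ((f * l ^ N * p : ℕ) : ℤ)).2 (by
        push_cast
        exact Dvd.intro_left _ rfl)
      simpa using h4
    apply hPp.ne_top
    rw [Ideal.eq_top_iff_one, ← huv]
    exact P.add_mem (P.mul_mem_left _ h1) (P.mul_mem_left _ h3)
  have hwa : V.valuation (w (x0 + c * (f * l ^ N : ℕ) * y0)) = 1 := (w5 _ hwx).2
  have e3 : w c * ∑ σ : GalF A B (f * l ^ N * p),
      thQ R kp eta ψ w e b (I σ) (X σ) * (muX R (I σ) *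
        w (X σ * (x0 + c * (f * l ^ N : ℕ) * y0)) * dlX (R.L (I σ)) a
          (pt R (f * l ^ N * p) (I σ) (X σ * (x0 + c * (f * l ^ N : ℕ) * y0)))) =
      w (x0 + c * (f * l ^ N : ℕ) * y0) * ∑ σ : GalF A B (f * l ^ N * p),
      thQ R kp eta ψ w e b (I σ) (X σ) *
        (w c * (muX R (I σ) * w (X σ)) * dlX (R.L (I σ)) a (pt R (f * l ^ N * p) (I σ)
            (X σ * (x0 + c * (f * l ^ N : ℕ) * y0)))) := by
    rw [Finset.mul_sum, Finset.mul_sum]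
    refine Finset.sum_congr rfl fun σ _ => ?_
    rw [w2 (X σ)]
    ring
  have e4 := congrArg V.valuation e3
  rw [map_mul, map_mul, hwc, hwa, one_mul, one_mul] at e4
  rw [map_mul, map_mul, hv2, one_mul, map_pow, hwa, one_pow, one_mul, e4] at hbig
  have e5 := (hbig.trans (pow_le_pow_left₀ zero_le hRS (q - 1)))
  rw [map_pow, ← pow_mul, mul_comm (q - 2), pow_mul, hLoc.vt] at e5
  have e6 := (pow_le_pow_iff_right_of_lt_one₀ (zero_lt_iff.2 hv0) hv1).1 e5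
  omega

end CRTQ

/-- (CRTQ) from a large sum to a non-power -/
theorem t_CRTQ (hIDQ : S_IDQ) (hVPQ : S_VPQ) (hTEQ : S_TEQ) (hTHQ : S_THQ) (hLOQI : S_LOQI)
    (hLOQS : S_LOQS) (hFIQ : S_FIQ) (hDLQ : S_DLQ) (hRSQ : S_RSQ) (hSDQ : S_SDQ)
    (hSIGQ : S_SIGQ) : S_CRTQ :=
  CRTQ.main hIDQ hVPQ hTEQ hTHQ hLOQI hLOQS hFIQ hDLQ hRSQ hSDQ hSIGQ Pool.Agent.TWT.t_HTF

end

end Pool.Agent.TWQ


end

section

/-!
# TWQ, block C': the sums `SSTI` of ALL characters of large level are large (helper19)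

RESULT: `theorem t_SYMQ : S_SYMQ` (`DefsQ.lean`). The order of the ramification is `e`, `1 ≤ e ≤ q - 1`; `N = q - 1`, `m = f l^n`, `M = m p`. `J` is finite: one character at a time. Four cases.

(A) inert, `e < q - 1`: symbol `PhI R kp eta W`, `W = w^e`; rigidity for `tau^e Φ` (`tau^(q-1) = p`), TYPQ. `S_SYIA`.
(B) split, `e < p - 1`: symbol of `E(x) = eta(x) w(star x)^(b+p-1-e)`, twist by the character `wD^e` modulo `p`, of parity `(-1)^e` (TBQ), `v(g(wD^e))^(p-1) ≤ v(p)^e` (STKQ). `S_SYSA`.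
(C) `e = q - 1`: `th i x w(x) = thP i x` for `x ∉ P`, `0` for `x ∈ P`: the sum is `SAll - SPt`, `SAll` = the sum of `thP` over all `x`, `SPt` = the part `x ∈ P`. `v(SAll) < 1`: the logarithmic derivatives are integral, and `dlX(z + r) ≡ dlX(z)` for the `q` points `r` of `E[P]`, which are in the kernel of
reduction (NEAQ, DLCQ, SALQ). `v(SPt) ≥ 1`: inert: it is `th(p)` times the sum of level `f l^n`, symbol `QI` of the odd character `eta` modulo `f` (`S_SPI`); split: it is a unit times `Σ ψ⁻¹(b) (U_p Φ)(∞, b/l^n)`, and `U_p^(h-1) (U_p Φ) = a Φ` (`S_SPS`).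

Modules: `theorem t_X : S_X` (or `theorem t_X (h : S_Y) .. : S_X` with the statements named under USES, fewer is fine) in `Pool/Agent/TWQ/X.lean`, namespace `Pool.Agent.TWQ`, auxiliary lemmas in `Pool.Agent.TWQ.X`.
OPEN: TYPQ, STKQ, NEAQ, DLCQ, SALQ. All others: helper19.
-/

set_option autoImplicit false

open WeierstrassCurve Polynomial NumberField IsDedekindDomain

namespace Pool.Agent.TWQ

open _root_.MU3 Pool.Agent.MU3A Pool.Agent.MU3B Pool.Agent.MU3C Pool.Agent.RI Pool.Agent.RID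
open Pool.Agent.MUX Pool.Agent.MUXU Pool.Agent.MUXW Pool.Agent.TWT Pool.Agent.TWI
open Pool.Agent.MU3V (cls Sub GD algDF)
open Pool.Agent.MUXV (GR InK tX)
open Pool.Agent.MUXI (IA RE AR)
open OnePoint

noncomputable section

/-! ## Definitions -/

variable {A B : ℤ} {n : ℕ} {ι : Type}

/-- `Σ_i mu_i Σ_(x mod m) E i x ee(pt R m i x)` -/
def SAll [Fintype ι] (R : Reps A B n ι) (m : ℕ) (E : ι → OO A B → ℂ) : ℂ :=
  ∑ i, muX R i * sumMod ((m : ℕ) : OO A B) fun x => E i x * ee (R.L i) (pt R m i x)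

/-- the same with the logarithmic derivative of `Θ_a` -/
def DAll [Fintype ι] (R : Reps A B n ι) (m a : ℕ) (E : ι → OO A B → ℂ) : ℂ :=
  ∑ i, muX R i * sumMod ((m : ℕ) : OO A B) fun x => E i x * dlX (R.L i) a (pt R m i x)

/-- the character without its part at `P` -/
def thP (R : Reps A B n ι) (kp : ι → ℂ) (eta : OO A B → ℂ) {r : ℕ} (ψ : DirichletCharacter ℂ r)
    (w : OO A B → ℂ) (b : ℕ) (i : ι) (x : OO A B) : ℂ :=
  thT R kp eta ψ i x * w (star x) ^ b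

/-- the part `x ∈ P` of `SAll` (`w x ^ N` is `0` on `P` and `1` outside) -/
def SPt [Fintype ι] (R : Reps A B n ι) (m N : ℕ) (E : ι → OO A B → ℂ) (w : OO A B → ℂ) : ℂ :=
  ∑ i, muX R i * sumMod ((m : ℕ) : OO A B) fun x =>
    E i x * (1 - w x ^ N) * ee (R.L i) (pt R m i x)

/-! ## 1. Case (A) -/

/-- (TYPQ) the type of the symbol of `eta w^e`, `p` inert.

USES `Pool.Agent.TWI.YAll`-facts: the hypotheses of `t_TYPI` (`Pool/Agent/TWI/TYPI.lean`) `S_YUNF, S_YINE, S_YALT, S_YALV, S_YACI, S_YSGN, S_YVAK, S_YTAU`; they are all theorems (`Pool/Agent/TWI/TYAll.lean`), so prove `theorem t_TYPQ : S_TYPQ`. MODEL: `t_TYPI`, copy it. CHANGES. `W x = w x ^ e`; `epI eta W` is an odd character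
modulo `(p f)`: copy `Syi.ei` (`Pool/Agent/TWI/SYI.lean`) (`W x ≠ 0` iff `w x ≠ 0` as `e ≥ 1`; `W` has period `P`; `eta(-1) W(-1) = (-1)^(e-1) (-1)^e = -1`, `Syi.w_neg`). `σ` fixes the values of `w`, so those of `W`. `e(c) = eta(c) W(c) = w(c)^e`, `σ tau = w(c) tau`, so `σ(y0 tau^e) = y0 tau^e`: `g = y0 tau^e` is in the inertia field.
If `1 ≤ v(y0)` and `v(g) < 1`: `v(tau)^e ≤ v(g) ≤ v(p) = v(tau)^(q-1) < v(tau)^e` (`e < q - 1`, `0 < v(tau) < 1`), a contradiction. So `1 ≤ v(g)`, `1 ≤ v(g)^(q-1) = v(p)^e v(y0)^(q-1)`. -/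
def S_TYPQ : Prop :=
  ∀ (p : ℕ) (A B : ℤ) (P : Ideal (OO A B)) (V : ValuationSubring ℂ) (f : ℕ),
    SetI p A B P V f → TorX A B → ∀ (ι : Type) [Fintype ι] (R : Reps A B (p * f) ι), GRd V R →
    ∀ (w : OO A B → ℂ), TeiI p P V w → ∀ (kp : ι → ℂ) (eta : OO A B → ℂ) (e : ℕ),
    ChQ p (p ^ 2) f P ⊤ R kp eta e 0 → e < p ^ 2 - 1 →
    ∀ x y : OnePoint ℚ, 1 ≤ V.valuation (sgnPart 1 (PhI R kp eta (fun z => w z ^ e)) x y) →
      1 ≤ V.valuation (p : ℂ) ^ e *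
        V.valuation (sgnPart 1 (PhI R kp eta (fun z => w z ^ e)) x y) ^ (p ^ 2 - 1)

open Pool.Agent.TWR in
/-- (SYIA) case (A). USES TYPQ (helper19). -/
def S_SYIA : Prop :=
  ∀ (l g h : ℕ), Gen l g h → ∀ (p : ℕ) (A B : ℤ) (P : Ideal (OO A B)) (V : ValuationSubring ℂ)
    (f : ℕ), SetI p A B P V f → l ∣ f → TorX A B → ∀ (ι : Type) [Fintype ι]
    (R : Reps A B (p * f) ι), GRd V R → ∀ (w : OO A B → ℂ), TeiI p P V w →
    ∀ (kp : ι → ℂ) (eta : OO A B → ℂ) (e : ℕ), ChQ p (p ^ 2) f P ⊤ R kp eta e 0 →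
    e < p ^ 2 - 1 → ∃ n0 : ℕ, ∀ n : ℕ, n0 ≤ n →
      ∀ ψ : DirichletCharacter ℂ (l ^ n), ψ (-1) = 1 →
      ψ (1 + (l : ZMod (l ^ n)) ^ (n - 1)) ≠ 1 →
      V.valuation (p : ℂ) ^ (p ^ 2 - 1 - e) ≤
        V.valuation (SSTI R (f * l ^ n * p) (thQ R kp eta ψ w e 0) w) ^ (p ^ 2 - 1)

/-! ## 2. Case (B) -/

/-- (STKQ) Stickelberger's bound for the Gauss sum of `w⁻ᵉ`, `1 ≤ e ≤ p - 2`.

MODEL: `Gau.gpi` (`Pool/Agent/TWG/GAU.lean`), which is the case `e = 1` (the facts `ζ = stdAddChar 1`, `v(ζ - 1)^(p-1) ≤ v p` are proved inside it: copy). PROOF. `v = V.valuation`; `v p < 1`, `v n = 1` for `p ∤ n` (`Pool.Agent.TWG.g_VAL` with `Syma.toH`, `Syma.vint` in `TWG/SYMA.lean`). (1) `wD ^ e ≠ 1`: otherwise `w(c)^e = 1` for all integers `c` prime to `p`; `v(w c - c) ≤ v p < 1` (`TeiP.int`), so `v(c^e - 1) < 1`,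
`p ∣ c^e - 1` for all `c` prime to `p`: impossible for `1 ≤ e < p - 1` (a primitive root modulo `p`: `IsCyclic (ZMod p)ˣ`; or the polynomial `X^e - 1` has at most `e` roots in `ZMod p`). (2) `ζ` = the value of `stdAddChar` at `1`, `π = ζ - 1`, `ζ^p = 1`. `p = ∏_(k=1)^(p-1) (1 - ζ^k)`, each factor has valuation `v π` (both `≤`: powers of each other), so `v p = v(π)^(p-1)`, `v π ≤ 1`.
(3) `g = Σ_(a=1)^(p-1) w(a)^(-e) (1 + π)^a = Σ_(k<p) π^k T_k`, `T_k = Σ_(a=1)^(p-1) w(a)^(-e) C(a, k)` (`add_pow`). `v(T_k) ≤ 1`. For `k < e`: `k! T_k = Σ_a w(a)^(-e) F(a)`, `F = descPochhammer ℤ k` of degree `k < e` (`Nat.descFactorial`, `Nat.factorial_mul_choose`-type facts; `v(k!) = 1`), and for `j < e`: `v(Σ_a w(a)^(-e) a^j) ≤ v p`, since `v(a^j - w(a)^j) ≤ v p` and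
`Σ_a w(a)^(j-e) = 0` (the character `wD^(e-j)`, `1 ≤ e - j < p - 1`, is not trivial by (1): `MulChar.sum_eq_zero_of_ne_one`). So `v(T_k) ≤ v p = v(π)^(p-1) ≤ v(π)^e` for `k < e`, and `v(π^k) ≤ v(π)^e` for `k ≥ e`: `v g ≤ v(π)^e`, `v(g)^(p-1) ≤ v(p)^e`. -/
def S_STKQ : Prop :=
  ∀ (p : ℕ) [NeZero p] (A B : ℤ) (P : Ideal (OO A B)) (V : ValuationSubring ℂ) (f : ℕ),
    SetG p A B P V f → ∀ w : OO A B → ℂ, TeiP p P V w → ∀ wD : DirichletCharacter ℂ p,
    (∀ c : ℤ, wD (c : ZMod p) = (w (c : OO A B))⁻¹) → ∀ e : ℕ, 1 ≤ e → e < p - 1 →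
    wD ^ e ≠ 1 ∧
      V.valuation (gaussSum (wD ^ e) ZMod.stdAddChar) ^ (p - 1) ≤ V.valuation (p : ℂ) ^ e

open Pool.Agent.TWR Pool.Agent.MUXH in
/-- (TBQ) `S_TWB4` (`Pool/Agent/TWB/All4.lean`) for both parities (helper19). -/
def S_TBQ : Prop := ∀ (l g h' : ℕ) (_ : Gen l g h') (V : ValuationSubring ℂ) (p : ℕ)
  (_ : 5 ≤ p) (N₀ s₀ h : ℕ) (a : ℂ) (nu : ℤ → ℂ) (P : ℕ → OnePoint ℚ → OnePoint ℚ → ℂ) (s : ℤ)
  (_ : HypA p V N₀ s₀ h a nu P s)
  (_ : ∀ x : ℚ, ∑ k ∈ Finset.range l, P 0 ∞ ((x + (k : ℚ) / l : ℚ) : OnePoint ℚ) = 0)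
  (w : DirichletCharacter ℂ p) (_ : w ≠ 1) (_ : w (-1) = s),
  ∃ n0 : ℕ, ∀ n, n0 ≤ n →
    ∀ ψ : DirichletCharacter ℂ (l ^ n), ψ (-1) = 1 →
    ψ (1 + (l : ZMod (l ^ n)) ^ (n - 1)) ≠ 1 →
    1 ≤ V.valuation (∑ b ∈ Finset.range (l ^ n), ∑ c ∈ Finset.range p, ψ b * w (c : ZMod p) *
      P 0 ∞ (((b : ℚ) / (l : ℚ) ^ n + (c : ℚ) / p : ℚ) : OnePoint ℚ))

open Pool.Agent.TWR in
/-- (SYSA) case (B). USES TBQ, STKQ (helper19). -/
def S_SYSA : Prop :=
  ∀ (l g h : ℕ), Gen l g h → ∀ (p : ℕ) (A B : ℤ) (P : Ideal (OO A B)) (V : ValuationSubring ℂ)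
    (f : ℕ), SetG p A B P V f → l ∣ f → TorX A B → ∀ (ι : Type) [Fintype ι]
    (R : Reps A B (p * f) ι), GRd V R → ∀ (w : OO A B → ℂ), TeiP p P V w →
    ∀ (kp : ι → ℂ) (eta : OO A B → ℂ) (e b : ℕ), ChQ p p f P (cjI P) R kp eta e b →
    e < p - 1 → ∃ n0 : ℕ, ∀ n : ℕ, n0 ≤ n →
      ∀ ψ : DirichletCharacter ℂ (l ^ n), ψ (-1) = 1 →
      ψ (1 + (l : ZMod (l ^ n)) ^ (n - 1)) ≠ 1 →
      V.valuation (p : ℂ) ^ (p - 1 - e) ≤
        V.valuation (SSTI R (f * l ^ n * p) (thQ R kp eta ψ w e b) w) ^ (p - 1)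

/-! ## 3. Case (C): `SAll` is small -/

/-- (NEAQ) the logarithmic derivative of `Θ_a` modulo the maximal ideal depends only on the reduction of the point.

USES (theorems) `t_THT` (`Pool/Agent/TWT/THT.lean`: `S_THT` of `StT1.lean`), `near_lt` (`Pool/Agent/MUX/VX.lean`, namespace `Pool.Agent.MUXV`), `Pool.Agent.MUXV.inK_nat`, half systems: `Pool.Agent.TWT.XPC.exists_half` (`Pool/Agent/TWT/XPC.lean`). PROOF. `H` a half system for `a` on `L`. `GRn V L` gives `W`, `ξ`, `GR V W L (xn L) (yy L) ξ`; `InEn V L z` is `InK V L (xn L) z` (definition). `z + r`, `a (z + r)` are not in the kernel of reduction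
(`K₁` is a subgroup: `r ∈ K₁`, `a r ∈ K₁`). (THT) with `a2 = a4 = 0`: `θ`, `θ' = dW 0 0 θ`: `Θ(z) = aeval θ`, `Θ(z) dlX(z) = aeval θ'` at `(x, y)(z)`, the same at `z + r`; `v Θ = 1`, `v dlX ≤ 1`. `(x, y)(z + r) ≡ (x, y)(z)` modulo the maximal ideal `𝔪` (`near_lt`) and both are in `V` (`not in K₁`), so polynomials over `V` have congruent values (`MvPolynomial.induction_on`, or map to the residue field):
`Θ(z + r) ≡ Θ(z)`, `Θ(z + r) dlX(z + r) ≡ Θ(z) dlX(z)`, so `Θ(z) (dlX(z + r) - dlX(z)) ≡ 0`. -/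
def S_NEAQ : Prop :=
  ∀ (V : ValuationSubring ℂ) (L : PeriodPair), GRn V L → ∀ a : ℕ, 1 < a → a.Coprime 2 →
    V.valuation (a : ℂ) = 1 → ∀ z r : ℂ, ¬ InEn V L z → ¬ InEn V L (a * z) → InEn V L r →
    V.valuation (dlX L a z) ≤ 1 ∧ V.valuation (dlX L a (z + r) - dlX L a z) < 1

/-- (DLCQ) the sum of the logarithmic derivatives over all `x` modulo `m p`, against a function of period `idl m * P'`, is small.

USES NEAQ, IDQ, VPQ (`StQ1.lean`). PROOF. `M = m p`. (1) `F i x = E i x dlX (L_i) a (pt R M i x)` has period `M` (`Pool.Agent.MUXI.ti_PTP` (`Pool/Agent/MUX/I_PTP.lean`: `Si_PTP`), `idl M = idl m * P * P' ≤ idl m * P'`). (2) `x` prime to `m`: `z = pt R M i x`, `a z` are not in the kernel of reduction `K₁`: copy `XPC.not_inEn` (`Pool/Agent/TWT/XPC.lean`; it uses the clause `(m : ℂ) * z ∈ L → InEn V L z → z ∈ L` of VPQ, `p (k z) ∈ K₁` is killed by `m`),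
`k = 1, a` (`m ∤ 1`, `m ∤ a`: `m ≥ 3`: `f ∣ m`, `2 |D| ∣ f`, `XPC.three_le`). (3) `T0 = insert 0 T`, `T` from IDQ (`RepI P T`, card `q - 1`): `q` elements, exactly one in each class modulo `P`. `pt R M i (x + m c y0) = z + pt R p i (c y0)` (`XPC.pt_add'`, `emb_mul`), and `E i (x + m c y0) = E i x` (`m c y0 ∈ idl m * P'`). `pt R p i (c y0) ∈ K₁` for `c ∈ T0` (hypothesis; `pt R p i 0 = 0`). By (NEAQ):
`v(Σ_(c ∈ T0) F i (x + m c y0)) = v(E i x Σ_c dlX(z + pt R p i (c y0))) < 1`: the sum is `q dlX(z)` plus small terms, `v q < 1` (`q = p` or `p²`); if `E i x = 0` it is `0`. `v(a) = 1` (VPQ). (4) For every `u` exactly one `c ∈ T0` has `u - m c y0 ∈ P` (`O/P` is a field, `m y0 ∉ P`). Let `χ x = 1` if `x ∈ P`, otherwise `0` (classical). `sumMod M (F i) = sumMod M (u ↦ Σ_(c ∈ T0) χ(u - m c y0) F i u)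
= Σ_c sumMod M (x ↦ χ(x) F i (x + m c y0)) = sumMod M (x ↦ χ(x) Σ_c F i (x + m c y0))` (`sumMod` is invariant under the translation `x = u - m c y0` for functions of period `M` — `finsum_comp_equiv` with `Equiv.addRight` as in `SDE.sumMod_mul` of `TWT/SDE.lean`; `χ` has period `M` because `M ∈ P`; finiteness `SDE.finR`). (5) `sumMod M G` with `v(G x) < 1` for all `x` has `v < 1` (finite sum: `finsum_eq_sum_of_fintype`,
`V.valuation.map_sum_lt`), `v(mu_i) = 1` (VPQ). -/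
def S_DLCQ : Prop :=
  ∀ (p q : ℕ) (A B : ℤ) (P P' : Ideal (OO A B)) (V : ValuationSubring ℂ) (f : ℕ),
    SetQ p q A B P P' V f → ∀ (ι : Type) [Fintype ι] (R : Reps A B (p * f) ι), GRd V R →
    ∀ m : ℕ, LvM p f m R → ∀ y0 : OO A B, y0 ∈ P' → y0 ∉ P →
    (∀ (i : ι) (x : OO A B), x ∉ P → InEn V (R.L i) (pt R p i (x * y0))) →
    ∀ (E : ι → OO A B → ℂ),
    (∀ i x y, x - y ∈ (idl m : Ideal (OO A B)) * P' → E i x = E i y) →
    (∀ i x, E i x ≠ 0 → IsCoprime x ((m : ℕ) : OO A B)) →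
    (∀ i x, V.valuation (E i x) ≤ 1) →
    ∀ a : ℕ, 1 < a → a.Coprime (2 * m * p) → V.valuation (DAll R (m * p) a E) < 1

open Pool.Agent.TWR in
/-- (SALQ) the sum over all `x` is small.

USES DLCQ, IDQ, VPQ, TEQ, LOQI, LOQS (`StQ1.lean`). PROOF. `m = f l^n`, `M = m p`, `E = thP R kp eta ψ w b`. `y0 ∈ P'`, `y0 ∉ P`: IDQ (`LvQ`, for `m = 3`.. or any). `t0` from LOQI (inert) or LOQS (split; `3 ∣ f` is in `SetQ`): `LocQ p q P V R y0 w t0` gives `InK V (R.L i) (xn (R.L i)) (pt R p i (x * y0))` for `x ∉ P` (`InEn` by definition). `LvM p f m R`: `R.cop`, `l ∣ f`. Hypotheses of (DLCQ): period: `eta` modulo `f`,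
`ψ(nm x ..)` modulo `l^n` (`SDE.nm_per`), `w ∘ star` modulo `cjI P` in the split case (`w.per`, `star (x - y) ∈ P`), `b = 0` in the inert case (`ChQ.bb`; the other combination: if `P' = ⊤` then `b = 0` anyway; `cjI P ≠ ⊤` in the split case as `P ≠ ⊤`). `E i x ≠ 0`: `eta x ≠ 0`, `x` prime to `f`, so to `m` (`l ∣ f`). `v ≤ 1`: `0` or roots of unity (`ChQ.fin`; `ψ`: `Pool.Agent.TWB.TWBAux.chi_val`; TEQ).
`a = 6 f p + 1` is prime to `6 f p`, so to `2 m p` (`l ∣ f`). (2) `DAll = (a c⁻¹ - a²) SAll`, `c = E i0 a`, exactly as in `t_SDE` (`Pool/Agent/TWT/SDE.lean`: `sumMod_mul`, `sumMod_sub`, `sumMod_cmul`, `nm_nat_mul`; `E i (a x) = c E i x`). `c = ψ(a²)`: `eta a = 1` (`a ≡ 1` modulo `f`), `w (star a) = w 1 = 1` (`a ≡ 1` modulo `p`), `kp i0 = 1`, `nI ⊤ = 1`. (3) `l² ∣ a² - 1` (`l ∣ 6`, `l ∣ f`), `a² ≠ 1`: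
`Pool.Agent.TWX.psi_ne_one` (`Pool/Agent/TWX/FAC.lean`) for the integer `a²`: `ψ(a²) ≠ 1` for `n ≥ n0`. `c` is a root of unity of order prime to `p` (`ψ(u)^(φ(l^n)) = 1`, `p ∤ l`, `p ∤ l - 1` as `l = 2, 3`, `p ≥ 5`): `Pool.Agent.TWX.eq_one_of_congr`: `v(c - 1) = 1`. `v(a c⁻¹ - a²) = v(1 - a c) = v((1 - c) + (1 - a) c) = 1` (`v a = v c = 1`, `v(1 - a) ≤ v p < 1`). So `v(SAll) = v(DAll) < 1`. -/
def S_SALQ : Prop :=
  ∀ (l g h : ℕ), Gen l g h → ∀ (p q : ℕ) (A B : ℤ) (P P' : Ideal (OO A B))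
    (V : ValuationSubring ℂ) (f : ℕ), SetQ p q A B P P' V f → l ∣ f →
    ∀ (ι : Type) [Fintype ι] (R : Reps A B (p * f) ι), GRd V R → ∀ (w : OO A B → ℂ),
    TeQ p q P V w → ∀ (kp : ι → ℂ) (eta : OO A B → ℂ) (e b : ℕ),
    ChQ p q f P P' R kp eta e b → ∃ n0 : ℕ, ∀ n : ℕ, n0 ≤ n →
      ∀ ψ : DirichletCharacter ℂ (l ^ n), ψ (1 + (l : ZMod (l ^ n)) ^ (n - 1)) ≠ 1 →
      V.valuation (SAll R (f * l ^ n * p) (thP R kp eta ψ w b)) < 1

/-! ## 4. Case (C): `SPt` is large (helper19) -/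

open Pool.Agent.TWR in
/-- (SPI) inert: `SPt` is a unit times the sum of level `f l^n` (helper19). -/
def S_SPI : Prop :=
  ∀ (l g h : ℕ), Gen l g h → ∀ (p : ℕ) (A B : ℤ) (P : Ideal (OO A B)) (V : ValuationSubring ℂ)
    (f : ℕ), SetI p A B P V f → l ∣ f → ∀ (ι : Type) [Fintype ι]
    (R : Reps A B (p * f) ι), GRd V R → ∀ (w : OO A B → ℂ), TeiI p P V w →
    ∀ (kp : ι → ℂ) (eta : OO A B → ℂ), ChQ p (p ^ 2) f P ⊤ R kp eta (p ^ 2 - 1) 0 →
    ∃ n0 : ℕ, ∀ n : ℕ, n0 ≤ n → ∀ ψ : DirichletCharacter ℂ (l ^ n), ψ (-1) = 1 →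
      ψ (1 + (l : ZMod (l ^ n)) ^ (n - 1)) ≠ 1 →
      1 ≤ V.valuation (SPt R (f * l ^ n * p) (p ^ 2 - 1) (thP R kp eta ψ w 0) w)

open Pool.Agent.TWR in
/-- (SPS) split: `SPt` is a unit times a sum of values of `U_p Φ` (helper19). -/
def S_SPS : Prop :=
  ∀ (l g h : ℕ), Gen l g h → ∀ (p : ℕ) (A B : ℤ) (P : Ideal (OO A B)) (V : ValuationSubring ℂ)
    (f : ℕ), SetG p A B P V f → l ∣ f → ∀ (ι : Type) [Fintype ι]
    (R : Reps A B (p * f) ι), GRd V R → ∀ (w : OO A B → ℂ), TeiP p P V w →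
    ∀ (kp : ι → ℂ) (eta : OO A B → ℂ) (b : ℕ), ChQ p p f P (cjI P) R kp eta (p - 1) b →
    ∃ n0 : ℕ, ∀ n : ℕ, n0 ≤ n → ∀ ψ : DirichletCharacter ℂ (l ^ n), ψ (-1) = 1 →
      ψ (1 + (l : ZMod (l ^ n)) ^ (n - 1)) ≠ 1 →
      1 ≤ V.valuation (SPt R (f * l ^ n * p) (p - 1) (thP R kp eta ψ w b) w)

end

end Pool.Agent.TWQ


end

section

/-!
# TWQ, module STKQ (helper68): Stickelberger's bound for the Gauss sum of `wD ^ e`

`STKQ.core` is the statement for a character `χ` modulo `p` with `v(χ(c) c - 1) ≤ v(p)` for `p ∤ c`.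
-/

set_option autoImplicit false

open WeierstrassCurve Polynomial NumberField IsDedekindDomain

namespace Pool.Agent.TWQ

open _root_.MU3 Pool.Agent.MU3A Pool.Agent.MU3B Pool.Agent.MU3C Pool.Agent.RI Pool.Agent.RID
open Pool.Agent.MUX Pool.Agent.MUXU Pool.Agent.MUXW Pool.Agent.TWT Pool.Agent.TWI
open Pool.Agent.MU3V (cls Sub GD algDF)
open Pool.Agent.MUXV (GR InK tX)
open Pool.Agent.MUXI (IA RE AR)
open OnePoint

noncomputable section

namespace STKQ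

lemma sub_one_pow (V : ValuationSubring ℂ) {x : ℂ} {r : V.ValueGroup} (hx : V.valuation x ≤ 1)
    (h : V.valuation (x - 1) ≤ r) (j : ℕ) : V.valuation (x ^ j - 1) ≤ r := by
  induction j with
  | zero => simp
  | succ j ih =>
    have h1 : x ^ (j + 1) - 1 = x * (x ^ j - 1) + (x - 1) := by ring
    rw [h1]
    refine (V.valuation.map_add _ _).trans (max_le ?_ h)
    rw [map_mul]
    exact (mul_le_of_le_one_left' hx).trans ih

lemma root_one (V : ValuationSubring ℂ) {N : ℕ} (hN : N ≠ 0) {z : ℂ} (h : z ^ N = 1) :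
    V.valuation z = 1 := by
  have h1 : V.valuation z ^ N = 1 := by rw [← map_pow, h, map_one]
  exact (pow_eq_one_iff_of_nonneg zero_le hN).1 h1

lemma std_pow {N : ℕ} [NeZero N] (a : ZMod N) : (ZMod.stdAddChar a : ℂ) ^ N = 1 := by
  rw [← AddChar.map_nsmul_eq_pow, nsmul_eq_mul, ZMod.natCast_self, zero_mul,
    AddChar.map_zero_eq_one]

lemma chi_root {p : ℕ} (hp : p.Prime) (χ : DirichletCharacter ℂ p) (a : ZMod p) (ha : a ≠ 0) :
    χ a ^ (p - 1) = 1 := by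
  have _ : Fact p.Prime := ⟨hp⟩
  rw [← map_pow, ZMod.pow_card_sub_one_eq_one ha, map_one]

lemma chi_one (V : ValuationSubring ℂ) {p : ℕ} (hp : p.Prime) (χ : DirichletCharacter ℂ p)
    (a : ZMod p) (ha : a ≠ 0) : V.valuation (χ a) = 1 :=
  root_one V (by have := hp.two_le; omega) (chi_root hp χ a ha)

lemma chi_le (V : ValuationSubring ℂ) {p : ℕ} (hp : p.Prime) (χ : DirichletCharacter ℂ p)
    (a : ZMod p) : V.valuation (χ a) ≤ 1 := by
  have _ : Fact p.Prime := ⟨hp⟩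
  by_cases ha : a = 0
  · rw [ha, MulChar.map_zero, map_zero]
    exact zero_le
  · exact (chi_one V hp χ a ha).le

/-- the two facts on `ζ - 1` -/
lemma zeta (V : ValuationSubring ℂ) {p : ℕ} (hp : p.Prime) [NeZero p] :
    V.valuation ((ZMod.stdAddChar (1 : ZMod p) : ℂ) - 1) ≤ 1 ∧
    V.valuation ((ZMod.stdAddChar (1 : ZMod p) : ℂ) - 1) ^ (p - 1) = V.valuation (p : ℂ) := by
  set ζ : ℂ := ZMod.stdAddChar (1 : ZMod p) with hζ
  have hpr : IsPrimitiveRoot ζ p := by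
    rw [IsPrimitiveRoot.iff_def]
    refine ⟨std_pow 1, fun k hk => ?_⟩
    rw [hζ, ← AddChar.map_nsmul_eq_pow, nsmul_eq_mul, mul_one] at hk
    have h1 : ZMod.stdAddChar ((k : ℕ) : ZMod p) = ZMod.stdAddChar (0 : ZMod p) := by
      rw [hk, AddChar.map_zero_eq_one]
    exact (ZMod.natCast_eq_zero_iff _ _).1 (ZMod.injective_stdAddChar h1)
  have hv : V.valuation ζ = 1 := root_one V hp.ne_zero (std_pow 1)
  constructor
  · have h1 : ζ - 1 = ζ + (-1) := by ring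
    rw [h1]
    refine (V.valuation.map_add _ _).trans (max_le hv.le ?_)
    rw [Valuation.map_neg, map_one]
  · obtain ⟨n, hn⟩ : ∃ n, p = n + 1 := ⟨p - 1, by have := hp.pos; omega⟩
    have h7 : ∏ k ∈ Finset.range n, (1 - ζ ^ (k + 1)) = (p : ℂ) := by
      have h8 : IsPrimitiveRoot ζ (n + 1) := by rw [← hn]; exact hpr
      rw [h8.prod_one_sub_pow_eq_order, hn]
      push_cast
      ring
    rw [← h7, map_prod]
    have h9 : V.valuation (ζ - 1) ^ (p - 1) = ∏ _k ∈ Finset.range n, V.valuation (ζ - 1) := by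
      rw [Finset.prod_const, Finset.card_range]
      congr 1
      omega
    rw [h9]
    refine Finset.prod_congr rfl fun k hk => ?_
    have hk1 : k + 1 < p := by
      rw [Finset.mem_range] at hk
      omega
    have hcop : Nat.Coprime (k + 1) p := by
      rw [Nat.coprime_comm, hp.coprime_iff_not_dvd]
      intro hd
      exact absurd (Nat.le_of_dvd (Nat.succ_pos k) hd) (by omega)
    obtain ⟨j, hj⟩ : ∃ j : ℕ, (ζ ^ (k + 1)) ^ j = ζ := by
      obtain ⟨j, hj⟩ := Nat.exists_mul_mod_eq_one_of_coprime hcop hp.one_lt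
      refine ⟨j, ?_⟩
      rw [← pow_mul]
      have h11 := Nat.div_add_mod ((k + 1) * j) p
      rw [hj.2] at h11
      rw [← h11, pow_add, pow_mul, hpr.pow_eq_one, one_pow, one_mul, pow_one]
    have h12 : V.valuation (1 - ζ ^ (k + 1)) = V.valuation (ζ ^ (k + 1) - 1) := by
      rw [← Valuation.map_neg]
      congr 1
      ring
    rw [h12]
    refine le_antisymm ?_ ?_
    · have h10 := sub_one_pow V (x := ζ ^ (k + 1)) (by rw [map_pow, hv, one_pow]) le_rfl j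
      rw [hj] at h10
      exact h10
    · exact sub_one_pow V hv.le le_rfl (k + 1)

section

variable (V : ValuationSubring ℂ) {p : ℕ} (hp : p.Prime)
  (hle : ∀ n : ℤ, V.valuation (n : ℂ) ≤ 1)
  (hone : ∀ n : ℤ, ¬ (p : ℤ) ∣ n → V.valuation (n : ℂ) = 1)
  (hpv : V.valuation (p : ℂ) < 1) (χ : DirichletCharacter ℂ p)
  (hred : ∀ c : ℤ, ¬ (p : ℤ) ∣ c → V.valuation (χ (c : ZMod p) * c - 1) ≤ V.valuation (p : ℂ))

include hp hle hred in
lemma red_pow (c : ℤ) (hc : ¬ (p : ℤ) ∣ c) (j : ℕ) :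
    V.valuation (χ (c : ZMod p) ^ j * (c : ℂ) ^ j - 1) ≤ V.valuation (p : ℂ) := by
  rw [← mul_pow]
  refine sub_one_pow V ?_ (hred c hc) j
  rw [map_mul]
  exact (mul_le_of_le_one_left' (chi_le V hp χ _)).trans (hle c)

include hp hle hone hpv hred in
/-- the powers of `χ` are not trivial -/
lemma ne_one (j : ℕ) (hj1 : 1 ≤ j) (hj : j < p - 1) : χ ^ j ≠ 1 := by
  intro h
  have _ : Fact p.Prime := ⟨hp⟩
  have h1 : ∀ u : (ZMod p)ˣ, u ^ j = 1 := by
    intro u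
    obtain ⟨c, hc⟩ := ZMod.intCast_surjective (u : ZMod p)
    have hc' : ¬ (p : ℤ) ∣ c := by
      intro hd
      rw [← ZMod.intCast_zmod_eq_zero_iff_dvd, hc] at hd
      exact u.ne_zero hd
    have h2 : χ (c : ZMod p) ^ j = 1 := by
      have h3 : (χ ^ j) (u : ZMod p) = 1 := by
        rw [h, MulChar.one_apply_coe]
      rw [MulChar.pow_apply_coe] at h3
      rw [hc]
      exact h3
    have h4 := red_pow V hp hle χ hred c hc' j
    rw [h2, one_mul] at h4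
    have h5 : (p : ℤ) ∣ c ^ j - 1 := by
      by_contra hd
      have h6 := hone _ hd
      push_cast at h6
      rw [h6] at h4
      exact absurd hpv (not_lt.2 h4)
    rw [← ZMod.intCast_zmod_eq_zero_iff_dvd] at h5
    push_cast at h5
    rw [hc, sub_eq_zero] at h5
    ext
    push_cast
    exact h5
  have h2 : Monoid.exponent (ZMod p)ˣ ∣ j := Monoid.exponent_dvd_of_forall_pow_eq_one h1
  rw [IsCyclic.exponent_eq_card, Nat.card_eq_fintype_card, ZMod.card_units] at h2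
  exact absurd (Nat.le_of_dvd (by omega) h2) (by omega)

include hp hle hone hpv hred in
/-- the power sums -/
lemma psum [NeZero p] (e : ℕ) (he : e < p - 1) (j : ℕ) (hj : j < e) :
    V.valuation (∑ a : ZMod p, (χ ^ e) a * ((a.val : ℤ) : ℂ) ^ j) ≤ V.valuation (p : ℂ) := by
  have _ : Fact p.Prime := ⟨hp⟩
  have h1 : ∑ a : ZMod p, (χ ^ (e - j)) a = 0 :=
    MulChar.sum_eq_zero_of_ne_one (ne_one V hp hle hone hpv χ hred (e - j) (by omega) (by omega))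
  have h2 : ∑ a : ZMod p, (χ ^ e) a * ((a.val : ℤ) : ℂ) ^ j =
      ∑ a : ZMod p, ((χ ^ e) a * ((a.val : ℤ) : ℂ) ^ j - (χ ^ (e - j)) a) := by
    rw [Finset.sum_sub_distrib, h1, sub_zero]
  rw [h2]
  refine V.valuation.map_sum_le fun a _ => ?_
  by_cases ha : a = 0
  · rw [ha, MulChar.map_zero, MulChar.map_zero, zero_mul, sub_zero, map_zero]
    exact zero_le
  · rw [MulChar.pow_apply' _ (by omega), MulChar.pow_apply' _ (by omega)]
    have h3 : ¬ (p : ℤ) ∣ (a.val : ℤ) := by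
      intro hd
      rw [← ZMod.intCast_zmod_eq_zero_iff_dvd] at hd
      apply ha
      rw [← ZMod.natCast_zmod_val a]
      exact_mod_cast hd
    have h4 := red_pow V hp hle χ hred _ h3 j
    have h5 : ((a.val : ℤ) : ZMod p) = a := by
      push_cast
      exact ZMod.natCast_zmod_val a
    rw [h5] at h4
    have h6 : χ a ^ e * ((a.val : ℤ) : ℂ) ^ j - χ a ^ (e - j) =
        χ a ^ (e - j) * (χ a ^ j * ((a.val : ℤ) : ℂ) ^ j - 1) := by
      have h7 : χ a ^ e = χ a ^ (e - j) * χ a ^ j := by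
        rw [← pow_add]
        congr 1
        omega
      rw [h7]
      ring
    rw [h6, map_mul, map_pow, chi_one V hp χ a ha, one_pow, one_mul]
    exact h4

include hp hle hone hpv hred in
/-- the coefficients of small degree -/
lemma tk [NeZero p] (e : ℕ) (he : e < p - 1) (k : ℕ) (hk : k < e) :
    V.valuation (∑ a : ZMod p, (χ ^ e) a * (a.val.choose k : ℂ)) ≤ V.valuation (p : ℂ) := by
  have _ : Fact p.Prime := ⟨hp⟩
  have h1 : V.valuation ((k.factorial : ℕ) : ℂ) = 1 := by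
    have h2 : ¬ (p : ℤ) ∣ (k.factorial : ℤ) := by
      intro hd
      have h3 : p ∣ k.factorial := by exact_mod_cast hd
      rw [hp.dvd_factorial] at h3
      omega
    have h3 := hone _ h2
    exact_mod_cast h3
  have h2 : ∀ a : ZMod p, ((k.factorial : ℕ) : ℂ) * (a.val.choose k : ℂ) =
      ∑ j ∈ Finset.range (k + 1), ((descPochhammer ℤ k).coeff j : ℂ) * ((a.val : ℤ) : ℂ) ^ j := by
    intro a
    have h3 : (((descPochhammer ℤ k).eval (a.val : ℤ) : ℤ) : ℂ) =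
        ((k.factorial : ℕ) : ℂ) * (a.val.choose k : ℂ) := by
      rw [descPochhammer_eval_eq_descFactorial, Nat.descFactorial_eq_factorial_mul_choose]
      push_cast
      ring
    rw [← h3, Polynomial.eval_eq_sum_range, descPochhammer_natDegree]
    push_cast
    rfl
  have h3 : ((k.factorial : ℕ) : ℂ) * ∑ a : ZMod p, (χ ^ e) a * (a.val.choose k : ℂ) =
      ∑ j ∈ Finset.range (k + 1), ((descPochhammer ℤ k).coeff j : ℂ) *
        ∑ a : ZMod p, (χ ^ e) a * ((a.val : ℤ) : ℂ) ^ j := by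
    rw [Finset.mul_sum]
    simp only [Finset.mul_sum]
    rw [Finset.sum_comm]
    refine Finset.sum_congr rfl fun a _ => ?_
    have h4 : ((k.factorial : ℕ) : ℂ) * ((χ ^ e) a * (a.val.choose k : ℂ)) =
        (χ ^ e) a * (((k.factorial : ℕ) : ℂ) * (a.val.choose k : ℂ)) := by ring
    rw [h4, h2 a, Finset.mul_sum]
    refine Finset.sum_congr rfl fun j _ => ?_
    ring
  have h4 : V.valuation (∑ a : ZMod p, (χ ^ e) a * (a.val.choose k : ℂ)) =
      V.valuation (((k.factorial : ℕ) : ℂ) * ∑ a : ZMod p, (χ ^ e) a * (a.val.choose k : ℂ)) := by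
    rw [map_mul, h1, one_mul]
  rw [h4, h3]
  refine V.valuation.map_sum_le fun j hj => ?_
  rw [map_mul]
  refine (mul_le_of_le_one_left' (hle _)).trans ?_
  rw [Finset.mem_range] at hj
  exact psum V hp hle hone hpv χ hred e he j (by omega)

include hp hle hone hpv hred in
theorem core [NeZero p] (e : ℕ) (he : e < p - 1) :
    V.valuation (gaussSum (χ ^ e) ZMod.stdAddChar) ^ (p - 1) ≤ V.valuation (p : ℂ) ^ e := by
  have _ : Fact p.Prime := ⟨hp⟩
  obtain ⟨hz1, hz2⟩ := zeta V hp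
  set π : ℂ := (ZMod.stdAddChar (1 : ZMod p) : ℂ) - 1 with hπ
  have h1 : gaussSum (χ ^ e) ZMod.stdAddChar =
      ∑ k ∈ Finset.range p, π ^ k * ∑ a : ZMod p, (χ ^ e) a * (a.val.choose k : ℂ) := by
    have h2 : ∀ a : ZMod p, (ZMod.stdAddChar a : ℂ) =
        ∑ k ∈ Finset.range p, π ^ k * (a.val.choose k : ℂ) := by
      intro a
      have h3 : (ZMod.stdAddChar a : ℂ) = (π + 1) ^ a.val := by
        rw [hπ, sub_add_cancel, ← AddChar.map_nsmul_eq_pow, nsmul_eq_mul, mul_one,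
          ZMod.natCast_val, ZMod.cast_id]
      rw [h3, add_pow]
      have h4 : a.val + 1 ≤ p := ZMod.val_lt a
      rw [← Finset.sum_subset (Finset.range_mono h4)]
      · refine Finset.sum_congr rfl fun k _ => ?_
        rw [one_pow, mul_one]
      · intro k _ hk
        rw [Finset.mem_range, not_lt] at hk
        rw [Nat.choose_eq_zero_of_lt (by omega), Nat.cast_zero, mul_zero]
    rw [gaussSum]
    simp only [Finset.mul_sum]
    rw [Finset.sum_comm]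
    refine Finset.sum_congr rfl fun a _ => ?_
    rw [h2 a, Finset.mul_sum]
    refine Finset.sum_congr rfl fun k _ => ?_
    ring
  have h2 : V.valuation (gaussSum (χ ^ e) ZMod.stdAddChar) ≤ V.valuation π ^ e := by
    rw [h1]
    refine V.valuation.map_sum_le fun k hk => ?_
    rw [map_mul, map_pow]
    rcases Nat.lt_or_ge k e with hke | hke
    · refine (mul_le_of_le_one_left' (pow_le_one₀ zero_le hz1)).trans ?_
      refine (tk V hp hle hone hpv χ hred e he k hke).trans ?_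
      rw [← hz2]
      exact pow_le_pow_right_of_le_one' hz1 he.le
    · refine (mul_le_of_le_one_right' ?_).trans (pow_le_pow_right_of_le_one' hz1 hke)
      refine V.valuation.map_sum_le fun a _ => ?_
      rw [map_mul]
      refine (mul_le_of_le_one_left' (chi_le V hp _ a)).trans ?_
      have := hle (a.val.choose k : ℤ)
      exact_mod_cast this
  calc V.valuation (gaussSum (χ ^ e) ZMod.stdAddChar) ^ (p - 1) ≤ (V.valuation π ^ e) ^ (p - 1) :=
        pow_le_pow_left₀ zero_le h2 _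
    _ = V.valuation (p : ℂ) ^ e := by
        rw [← hz2, ← pow_mul, ← pow_mul, mul_comm]

end

end STKQ

/-- (STKQ) Stickelberger's bound for the Gauss sum of `w⁻ᵉ`, `1 ≤ e ≤ p - 2` -/
theorem t_STKQ : S_STKQ := by
  intro p _ A B P V f hS w hw wD hwD e he1 he
  have hp : p.Prime := hS.pp
  have hQ : MUXF.CQ A B := Pool.Agent.MUXHY.toCQ hS.cq
  have hemb : ∀ n : ℤ, emb (n : OO A B) = (n : ℂ) := fun n => MUXF.AlgX.emb_intCast hQ n
  have hpv : V.valuation (p : ℂ) < 1 := by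
    have h1 := (hS.hV _).2 hS.hP.mem
    have h2 : emb ((p : ℕ) : OO A B) = (p : ℂ) := by
      have h3 := hemb (p : ℤ)
      rw [Int.cast_natCast, Int.cast_natCast] at h3
      exact h3
    rw [h2] at h1
    exact (ValuationSubring.mem_nonunits_iff _).1 h1
  have hle := Pool.Agent.MUXHY.Val.int_le V
  have hone := Pool.Agent.MUXHY.Val.int_one hp hpv
  have hred : ∀ c : ℤ, ¬ (p : ℤ) ∣ c →
      V.valuation (wD (c : ZMod p) * c - 1) ≤ V.valuation (p : ℂ) := by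
    intro c hc
    have h1 : (c : OO A B) ∉ P := by
      intro h2
      have h3 := (ValuationSubring.mem_nonunits_iff _).1 ((hS.hV _).2 h2)
      rw [hemb, hone c hc] at h3
      exact lt_irrefl _ h3
    have h2 : V.valuation (w (c : OO A B)) = 1 :=
      STKQ.root_one V (by have := hp.two_le; omega) (hw.root _ h1)
    have h3 : w (c : OO A B) ≠ 0 := fun h => h1 ((hw.zero _).1 h)
    have h4 : wD (c : ZMod p) * c - 1 =
        (w (c : OO A B))⁻¹ * (-(w (c : OO A B) - (c : ℂ))) := by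
      rw [hwD c]
      field_simp
      ring
    rw [h4, map_mul, map_inv₀, h2, inv_one, one_mul, Valuation.map_neg]
    exact hw.int c
  exact ⟨STKQ.ne_one V hp hle hone hpv wD hred e he1 he,
    STKQ.core V hp hle hone hpv wD hred e he⟩

end

end Pool.Agent.TWQ


end

section

/-!
# TWQ, module TBQ (helper19): twists of a CM symbol modulo `p`, both parities, all large levels

Generalisation of `TWB/REL, UPR, NB, All4` (helper34, helper88 and others) to a nontrivial character `w` modulo `p` with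
`w (-1) = s`, `s = 1` or `s = -1`, and the part `s` of the symbol.
-/

set_option autoImplicit false

namespace Pool.Agent.TWQ

open _root_.MU3 Pool.Agent.MuSym Pool.Agent.MUXH OnePoint Finset Pool.Agent.TWB

noncomputable section

namespace TBQ

open Pool.Agent.TWB.RELAux in
theorem J0 (p : ℕ) [Fact p.Prime] (w : DirichletCharacter ℂ p) :
    ∑ s : ZMod p, w⁻¹ s * w (0 - s) = w (-1) * ((p : ℂ) - 1) := by
  have h1 : ∀ s : ZMod p, w⁻¹ s * w (0 - s) = w (-1) * (1 - (if s = 0 then 1 else 0)) := by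
    intro s
    by_cases hs : s = 0
    · subst hs
      have h0 : w⁻¹ (0 : ZMod p) = 0 := MulChar.map_zero _
      rw [h0, zero_mul]
      simp
    · have h2 : (0 - s) = (-1) * s := by ring
      rw [h2, map_mul, if_neg hs, MulChar.inv_apply' w s]
      have h3 : w s⁻¹ * w s = 1 := by
        rw [← map_mul, inv_mul_cancel₀ hs, map_one]
      linear_combination (w (-1)) * h3
  rw [Finset.sum_congr rfl (fun s _ => h1 s), ← Finset.mul_sum, Finset.sum_sub_distrib,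
    Finset.sum_ite_eq']
  simp [ZMod.card]

lemma sq_one (p : ℕ) (w : DirichletCharacter ℂ p) : w (-1) * w (-1) = 1 := by
  rw [← map_mul]
  simp

lemma inv_neg (p : ℕ) [Fact p.Prime] (w : DirichletCharacter ℂ p) : w⁻¹ (-1) = w (-1) := by
  rw [MulChar.inv_apply' w (-1), inv_neg_one]

theorem J1 (p : ℕ) [Fact p.Prime] (w : DirichletCharacter ℂ p) (hw : w ≠ 1) :
    ∑ s : ZMod p, w⁻¹ s * w (1 - s) = - w (-1) := by
  have hne : w⁻¹ ≠ 1 := fun h => hw (inv_eq_one.1 h)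
  have h := jacobiSum_nontrivial_inv hne
  rw [inv_inv, inv_neg] at h
  exact h

theorem Ju (p : ℕ) [Fact p.Prime] (w : DirichletCharacter ℂ p) (hw : w ≠ 1) (u : ZMod p)
    (hu : u ≠ 0) : ∑ s : ZMod p, w⁻¹ s * w (u - s) = - w (-1) := by
  rw [← J1 p w hw]
  symm
  refine Fintype.sum_equiv (Equiv.mulLeft₀ u hu) _ _ fun s => ?_
  have h2 : u - u * s = u * (1 - s) := by ring
  show w⁻¹ s * w (1 - s) = w⁻¹ (u * s) * w (u - u * s)
  rw [h2, map_mul, map_mul, MulChar.inv_apply' w u]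
  have h3 : w u⁻¹ * w u = 1 := by
    rw [← map_mul, inv_mul_cancel₀ hu, map_one]
  linear_combination (-(w⁻¹ s * w (1 - s))) * h3

open Pool.Agent.TWB.RELAux in
/-- the relation for the double twist -/
theorem rel (p : ℕ) (hp : p.Prime) (w : DirichletCharacter ℂ p) (hw : w ≠ 1)
    (W : ℚ → ℂ) (hW : ∀ x, W (x + 1) = W x) (x : ℚ) :
    ∑ s ∈ range p, w⁻¹ (s : ZMod p) * ∑ c ∈ range p, w (c : ZMod p) *
      W (x + (s : ℚ) / p + (c : ℚ) / p) =
      - w (-1) * (∑ u ∈ range p, W (x + (u : ℚ) / p) - p * W x) := by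
  have : Fact p.Prime := ⟨hp⟩
  have : NeZero p := ⟨hp.ne_zero⟩
  set F : ZMod p → ℂ := fun u => W (x + ((u.val : ℕ) : ℚ) / p) with hF
  have hterm : ∀ s c : ℕ, W (x + (s : ℚ) / p + (c : ℚ) / p) = F ((s : ZMod p) + (c : ZMod p)) := by
    intro s c
    have h1 : x + (s : ℚ) / p + (c : ℚ) / p = x + ((s + c : ℕ) : ℚ) / p := by
      rw [Nat.cast_add, add_div, add_assoc]
    rw [h1, per_cast p W hW x (s + c), hF]
    simp only [Nat.cast_add]
  have hL : ∑ s ∈ range p, w⁻¹ (s : ZMod p) *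
      ∑ c ∈ range p, w (c : ZMod p) * W (x + (s : ℚ) / p + (c : ℚ) / p) =
      ∑ s : ZMod p, ∑ c : ZMod p, w⁻¹ s * (w c * F (s + c)) := by
    have h1 : ∀ s : ℕ, w⁻¹ (s : ZMod p) *
        ∑ c ∈ range p, w (c : ZMod p) * W (x + (s : ℚ) / p + (c : ℚ) / p) =
        ∑ c : ZMod p, w⁻¹ (s : ZMod p) * (w c * F ((s : ZMod p) + c)) := by
      intro s
      rw [← Finset.mul_sum, ← sum_range_zmod p (fun c => w c * F ((s : ZMod p) + c))]
      congr 1
      exact Finset.sum_congr rfl fun c _ => by rw [hterm s c]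
    rw [Finset.sum_congr rfl fun s _ => h1 s,
      sum_range_zmod p (fun s => ∑ c : ZMod p, w⁻¹ s * (w c * F (s + c)))]
  have hR : ∑ u ∈ range p, W (x + (u : ℚ) / p) = ∑ u : ZMod p, F u := by
    rw [← sum_range_zmod p F]
    exact Finset.sum_congr rfl fun u _ => per_cast p W hW x u
  have hx : W x = F 0 := by
    rw [hF]
    simp
  have hre : ∀ s : ZMod p, ∑ c : ZMod p, w⁻¹ s * (w c * F (s + c)) =
      ∑ u : ZMod p, w⁻¹ s * w (u - s) * F u := by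
    intro s
    refine Fintype.sum_equiv (Equiv.addLeft s) _ _ fun c => ?_
    simp only [Equiv.coe_addLeft]
    rw [add_sub_cancel_left, mul_assoc]
  have hJ : ∀ u : ZMod p, ∑ s : ZMod p, w⁻¹ s * w (u - s) =
      - w (-1) * (1 - if u = 0 then (p : ℂ) else 0) := by
    intro u
    by_cases hu : u = 0
    · subst hu
      rw [J0 p w, if_pos rfl]
      ring
    · rw [Ju p w hw u hu, if_neg hu, sub_zero, mul_one]
  rw [hL, hR, hx, Finset.sum_congr rfl fun s _ => hre s, Finset.sum_comm]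
  have h5 : ∀ u : ZMod p, ∑ s : ZMod p, w⁻¹ s * w (u - s) * F u =
      - w (-1) * (F u - if u = 0 then (p : ℂ) * F u else 0) := by
    intro u
    rw [← Finset.sum_mul, hJ u]
    by_cases hu : u = 0
    · rw [if_pos hu, if_pos hu]
      ring
    · rw [if_neg hu, if_neg hu]
      ring
  rw [Finset.sum_congr rfl fun u _ => h5 u, ← Finset.mul_sum, Finset.sum_sub_distrib,
    Finset.sum_ite_eq']
  simp

section UPR

variable {p : ℕ} {V : ValuationSubring ℂ} {N₀ s₀ h : ℕ} {a : ℂ} {nu : ℤ → ℂ}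
  {P : ℕ → OnePoint ℚ → OnePoint ℚ → ℂ} {s : ℤ}

/-- One step. -/
theorem step (hyp : HypA p V N₀ s₀ h a nu P s) (i : ℕ) (r : ℚ) :
    ∑ j ∈ range p, sgnPart (s : ℂ) (P i) ∞ (((r + j) / p : ℚ) : OnePoint ℚ) =
      sgnPart (s : ℂ) (P (i + 1)) ∞ (r : OnePoint ℚ) :=
  (tx_HK p hyp.pp.one_lt.le _ nu (P i) (P (i + 1)) (hyp.sym i) hyp.nu1 s).2.2 hyp.nup
    (hyp.hec i) r

open Pool.Agent.TWB.UPRAux in
/-- Several steps. -/
theorem steps (hyp : HypA p V N₀ s₀ h a nu P s) : ∀ (k : ℕ) (r : ℚ),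
    sgnPart (s : ℂ) (P (k + 1)) ∞ (r : OnePoint ℚ) =
      ∑ j ∈ range (p ^ k), sgnPart (s : ℂ) (P 1) ∞ (((r + j) / (p : ℚ) ^ k : ℚ) : OnePoint ℚ) := by
  have hp : (p : ℚ) ≠ 0 := Nat.cast_ne_zero.2 hyp.pp.ne_zero
  intro k
  induction k with
  | zero =>
    intro r
    simp
  | succ k ih =>
    intro r
    rw [← step hyp (k + 1) r, pow_succ', Pool.Agent.TWB.UPRAux.sum_mul]
    refine Finset.sum_congr rfl fun j _ => ?_
    rw [ih]
    refine Finset.sum_congr rfl fun l _ => ?_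
    congr 2
    push_cast
    field_simp
    ring

/-- the relation for `U_p` -/
theorem upr (hyp : HypA p V N₀ s₀ h a nu P s) (x : ℚ) :
    ∑ j ∈ range (p ^ (h - 1)),
      sgnPart (s : ℂ) (P 1) ∞ (((x + j) / (p : ℚ) ^ (h - 1) : ℚ) : OnePoint ℚ) =
      a * sgnPart (s : ℂ) (P 0) ∞ (x : OnePoint ℚ) := by
  rw [← steps hyp (h - 1) x, Nat.sub_add_cancel hyp.h1]
  unfold sgnPart
  rw [hyp.per, hyp.per]
  ring

open Pool.Agent.TWB.NBAux in
/-- the twist is not zero on closed cycles -/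
theorem nb (H : HypA p V N₀ s₀ h a nu P s) (w : DirichletCharacter ℂ p) (hw : w ≠ 1)
    (N' : ℕ) (hN' : N' ≠ 0) (hdvd : p ^ (s₀ + 1) * N₀ ∣ N') :
    ∃ α β γ δ : ℤ, α * δ - β * γ = 1 ∧ (N' : ℤ) ∣ γ ∧ (N' : ℤ) ∣ δ - 1 ∧
      1 ≤ V.valuation (Bt p w (sgnPart (s : ℂ) (P 0)) ∞ (mob α β γ δ ∞)) := by
  by_contra hcon
  push Not at hcon
  have hp := H.pp
  have hp0 : p ≠ 0 := hp.ne_zero
  have hpQ : (p : ℚ) ≠ 0 := Nat.cast_ne_zero.2 hp0
  have : NeZero p := ⟨hp0⟩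
  obtain ⟨W, hW⟩ : ∃ W : ℚ → ℂ, ∀ x, W x = sgnPart (s : ℂ) (P 0) ∞ (x : OnePoint ℚ) :=
    ⟨_, fun _ => rfl⟩
  obtain ⟨W1, hW1⟩ : ∃ W1 : ℚ → ℂ, ∀ x, W1 x = sgnPart (s : ℂ) (P 1) ∞ (x : OnePoint ℚ) :=
    ⟨_, fun _ => rfl⟩
  have hper : ∀ x, W (x + 1) = W x := by
    intro x
    have h1 := (tx_HK p hp.one_lt.le _ nu (P 0) (P 1) (H.sym 0) H.nu1 s).1 x 1
    rw [hW, hW, ← h1]
    norm_num
  obtain ⟨hS1, hS2, -, hS4, -⟩ := t_SET N' hN'
  have hL2 : N' * p ^ 2 ≠ 0 := mul_ne_zero hN' (pow_ne_zero _ hp0)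
  obtain ⟨hT1, -, hT3, -, -⟩ := t_SET (N' * p ^ 2) hL2
  have hpL : p ∣ N' * p ^ 2 := (dvd_pow_self p two_ne_zero).mul_left _
  -- the hypothesis on the twist
  have F2 : ∀ y, SS N' y →
      V.valuation (∑ c ∈ range p, w (c : ZMod p) * W (y + (c : ℚ) / p)) < 1 := by
    intro y hy
    obtain ⟨α, β, γ, δ, h1, h2, h3, h4, rfl⟩ := hS2 y hy
    have h5 := hcon α β γ δ h1 h2 h3
    rw [mob_inf α β γ δ h4] at h5
    have e : Bt p w (sgnPart (s : ℂ) (P 0)) ∞ (((α : ℚ) / γ : ℚ) : OnePoint ℚ) =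
        ∑ c ∈ range p, w (c : ZMod p) * W ((α : ℚ) / γ + (c : ℚ) / p) := by
      unfold Bt
      refine Finset.sum_congr rfl fun c _ => ?_
      rw [mob_tr p c hp0, mob_inf0, hW]
    rw [e] at h5
    exact h5
  have hσ : V.valuation (w (-1)) = 1 := by
    have h1 := congrArg V.valuation (sq_one p w)
    rw [map_mul, map_one] at h1
    have h2 := val_char_le V w (-1)
    refine le_antisymm h2 ?_
    calc (1 : _) = V.valuation (w (-1)) * V.valuation (w (-1)) := h1.symm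
      _ ≤ V.valuation (w (-1)) * 1 := mul_le_mul_right h2 _
      _ = _ := mul_one _
  have F3 : ∀ y, SS (N' * p ^ 2) y →
      V.valuation (∑ u ∈ range p, W (y + (u : ℚ) / p) - p * W y) < 1 := by
    intro y hy
    have h0 : V.valuation (∑ u ∈ range p, W (y + (u : ℚ) / p) - p * W y) =
        V.valuation (- w (-1) * (∑ u ∈ range p, W (y + (u : ℚ) / p) - p * W y)) := by
      rw [map_mul, Valuation.map_neg, hσ, one_mul]
    rw [h0, ← rel p hp w hw W hper y]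
    refine Valuation.map_sum_lt _ one_ne_zero fun t _ => ?_
    rw [map_mul]
    have h1 := hS4 p hp y t hy
    have h2 := F2 _ h1
    have h3 := val_char_le V w⁻¹ (t : ZMod p)
    exact mul_lt_one_of_nonneg_of_lt_one_right h3 zero_le (by
      simpa using h2)
  have F4 : ∀ x, SS (N' * p ^ 2) x → V.valuation (W1 x - p * W (x / p)) < 1 := by
    intro x hx
    have h1 : SS (N' * p ^ 2) (x / p) := by
      have := hT3 p hp hpL x 0 1 hx
      simpa using this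
    have h2 := F3 _ h1
    have h3 : ∑ u ∈ range p, W (x / p + (u : ℚ) / p) = W1 x := by
      rw [hW1, ← step H 0 x]
      refine Finset.sum_congr rfl fun u _ => ?_
      rw [hW, ← add_div]
    rw [h3] at h2
    exact h2
  have F5 : ∀ x, SS (N' * p ^ 2) x →
      V.valuation (a * W x - p * ∑ j ∈ range (p ^ (h - 1)),
        W (((x + j) / (p : ℚ) ^ (h - 1)) / p)) < 1 := by
    intro x hx
    have h1 : a * W x - p * ∑ j ∈ range (p ^ (h - 1)), W (((x + j) / (p : ℚ) ^ (h - 1)) / p) =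
        ∑ j ∈ range (p ^ (h - 1)), (W1 ((x + j) / (p : ℚ) ^ (h - 1)) -
          p * W (((x + j) / (p : ℚ) ^ (h - 1)) / p)) := by
      rw [Finset.sum_sub_distrib, ← Finset.mul_sum, hW x, ← upr H x]
      congr 1
      exact Finset.sum_congr rfl fun j _ => (hW1 _).symm
    rw [h1]
    refine Valuation.map_sum_lt _ one_ne_zero fun j _ => ?_
    apply F4
    have := hT3 p hp hpL x j (h - 1) hx
    simpa using this
  obtain ⟨k, hk⟩ := tx_BD tx_MAX tx_ALB p V N₀ s₀ h a nu P s H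
  have hvs : V.valuation ((s : ℤ) : ℂ) ≤ 1 := by
    rw [ValuationSubring.valuation_le_one_iff]
    exact intCast_mem V s
  have F6 : ∀ x, V.valuation (p ^ k * W x) ≤ 1 := by
    intro x
    rw [hW]
    unfold sgnPart
    have e : (p : ℂ) ^ k * (P 0 ∞ (x : OnePoint ℚ) +
        (s : ℂ) * P 0 (mob (-1) 0 0 1 ∞) (mob (-1) 0 0 1 (x : OnePoint ℚ))) =
        (p : ℂ) ^ k * P 0 ∞ (x : OnePoint ℚ) +
        (s : ℂ) * ((p : ℂ) ^ k * P 0 (mob (-1) 0 0 1 ∞) (mob (-1) 0 0 1 (x : OnePoint ℚ))) := by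
      ring
    rw [e]
    refine (Valuation.map_add _ _ _).trans (max_le (hk _ _ _) ?_)
    rw [map_mul]
    exact mul_le_one' hvs (hk _ _ _)
  have hvp1 : ∀ e : ℕ, V.valuation ((p : ℂ) ^ e) ≤ 1 := by
    intro e
    rw [map_pow]
    exact pow_le_one' H.vp.le e
  have F7 : ∀ i : ℕ, i ≤ k + 1 → ∀ x, SS (N' * p ^ 2) x →
      V.valuation ((p : ℂ) ^ (k + 1 - i) * W x) < 1 := by
    intro i
    induction i with
    | zero =>
      intro _ x _
      rw [Nat.sub_zero, pow_succ', mul_assoc, map_mul]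
      exact mul_lt_one_of_nonneg_of_lt_one_left zero_le H.vp (F6 x)
    | succ i ih =>
      intro hi x hx
      obtain ⟨e, he⟩ : ∃ e, e = k + 1 - (i + 1) := ⟨_, rfl⟩
      have he1 : k + 1 - i = e + 1 := by omega
      rw [← he]
      have h1 := ih (by omega)
      rw [he1] at h1
      have h2 : (p : ℂ) ^ e * (a * W x) =
          (p : ℂ) ^ e * (a * W x - p * ∑ j ∈ range (p ^ (h - 1)),
            W (((x + j) / (p : ℚ) ^ (h - 1)) / p)) +
          ∑ j ∈ range (p ^ (h - 1)), (p : ℂ) ^ (e + 1) *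
            W (((x + j) / (p : ℚ) ^ (h - 1)) / p) := by
        rw [← Finset.mul_sum]
        ring
      have h3 : V.valuation ((p : ℂ) ^ e * (a * W x)) < 1 := by
        rw [h2]
        refine Valuation.map_add_lt _ ?_ ?_
        · rw [map_mul]
          exact mul_lt_one_of_nonneg_of_lt_one_right (hvp1 e) zero_le (F5 x hx)
        · refine Valuation.map_sum_lt _ one_ne_zero fun j _ => ?_
          apply h1
          have h4 := hT3 p hp hpL x j (h - 1) hx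
          have h5 := hT3 p hp hpL _ 0 1 h4
          simpa using h5
      rw [map_mul, map_mul, H.va, one_mul, ← map_mul] at h3
      exact h3
  have F8 : ∀ x, SS (N' * p ^ 2) x → V.valuation (W x) < 1 := by
    intro x hx
    have := F7 (k + 1) le_rfl x hx
    simpa using this
  obtain ⟨α, β, γ, δ, h1, h2, h3, h4⟩ := t_H1G p V N₀ s₀ h a nu P s H (N' * p ^ 2) hL2
    (hdvd.mul_right _)
  by_cases hγ : γ = 0
  · rw [hγ, mob_inf0] at h4
    have h5 : sgnPart (s : ℂ) (P 0) ∞ ∞ = 0 := by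
      unfold sgnPart
      rw [self_zero (H.sym 0), self_zero (H.sym 0), mul_zero, add_zero]
    rw [h5, map_zero] at h4
    exact absurd h4 (not_le.2 zero_lt_one)
  · rw [mob_inf α β γ δ hγ, ← hW] at h4
    exact absurd h4 (not_le.2 (F8 _ (hT1 α β γ δ h1 h2 h3 hγ)))

/-- the even (odd) part of `U_p Φ` is not zero on closed cycles -/
theorem nb1 (H : HypA p V N₀ s₀ h a nu P s)
    (N' : ℕ) (hN' : N' ≠ 0) (hdvd : p ^ (s₀ + 1) * N₀ ∣ N') :
    ∃ α β γ δ : ℤ, α * δ - β * γ = 1 ∧ (N' : ℤ) ∣ γ ∧ (N' : ℤ) ∣ δ - 1 ∧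
      1 ≤ V.valuation (sgnPart (s : ℂ) (P 1) ∞ (mob α β γ δ ∞)) := by
  by_contra hcon
  push Not at hcon
  have hp := H.pp
  obtain ⟨hS1, hS2, hS3, -, -⟩ := t_SET N' hN'
  have hpL : p ∣ N' := ((dvd_pow_self p (Nat.succ_ne_zero _)).mul_right _).trans hdvd
  have F2 : ∀ y, SS N' y → V.valuation (sgnPart (s : ℂ) (P 1) ∞ (y : OnePoint ℚ)) < 1 := by
    intro y hy
    obtain ⟨α, β, γ, δ, h1, h2, h3, h4, rfl⟩ := hS2 y hy
    have h5 := hcon α β γ δ h1 h2 h3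
    rw [Pool.Agent.TWB.NBAux.mob_inf α β γ δ h4] at h5
    exact h5
  have F8 : ∀ x, SS N' x → V.valuation (sgnPart (s : ℂ) (P 0) ∞ (x : OnePoint ℚ)) < 1 := by
    intro x hx
    have h1 : V.valuation (a * sgnPart (s : ℂ) (P 0) ∞ (x : OnePoint ℚ)) < 1 := by
      rw [← upr H x]
      refine Valuation.map_sum_lt _ one_ne_zero fun j _ => ?_
      apply F2
      have := hS3 p hp hpL x j (h - 1) hx
      simpa using this
    rwa [map_mul, H.va, one_mul] at h1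
  obtain ⟨α, β, γ, δ, h1, h2, h3, h4⟩ := t_H1G p V N₀ s₀ h a nu P s H N' hN' hdvd
  by_cases hγ : γ = 0
  · rw [hγ, Pool.Agent.TWB.NBAux.mob_inf0] at h4
    have h5 : sgnPart (s : ℂ) (P 0) ∞ ∞ = 0 := by
      unfold sgnPart
      rw [Pool.Agent.TWB.NBAux.self_zero (H.sym 0), Pool.Agent.TWB.NBAux.self_zero (H.sym 0),
        mul_zero, add_zero]
    rw [h5, map_zero] at h4
    exact absurd h4 (not_le.2 zero_lt_one)
  · rw [Pool.Agent.TWB.NBAux.mob_inf α β γ δ hγ] at h4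
    exact absurd h4 (not_le.2 (F8 _ (hS1 α β γ δ h1 h2 h3 hγ)))

end UPR

section MAIN

open Pool.Agent.TWB.TWBAux

/-- the part `s` on the paths from infinity -/
lemma sgn_s (s : ℂ) (P : OnePoint ℚ → OnePoint ℚ → ℂ) (y : ℚ) :
    sgnPart s P ∞ (y : OnePoint ℚ) = P ∞ (y : OnePoint ℚ) + s * P ∞ ((-y : ℚ) : OnePoint ℚ) := by
  unfold sgnPart
  rw [TWBAux.mob_inf, mob_ng]

/-- the symbol in the direction `-y`: the substitution `c ↦ -c` -/
lemma sum_ws (p : ℕ) (hp : p ≠ 0) (w : DirichletCharacter ℂ p) (U : ℚ → ℂ)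
    (hU : ∀ (r : ℚ) (k : ℤ), U (r + k) = U r) (x : ℚ) :
    ∑ c ∈ range p, w (c : ZMod p) * U (x - (c : ℚ) / p) =
      w (-1) * ∑ c ∈ range p, w (c : ZMod p) * U (x + (c : ℚ) / p) := by
  have hp' : (p : ℚ) ≠ 0 := Nat.cast_ne_zero.2 hp
  have h := sum_neg p (fun c => w ((c : ℤ) : ZMod p) * U (x + (c : ℚ) / p)) (by
    intro c
    have e1 : (((c + p : ℤ)) : ZMod p) = ((c : ℤ) : ZMod p) := by simp
    have e2 : x + ((c + p : ℤ) : ℚ) / p = (x + (c : ℚ) / p) + ((1 : ℤ) : ℚ) := by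
      push_cast
      field_simp
      ring
    simp only [e1, e2, hU])
  have h3 : ∑ c ∈ range p, w (((-(c : ℤ) : ℤ)) : ZMod p) * U (x + ((-(c : ℤ) : ℤ) : ℚ) / p) =
      w (-1) * ∑ c ∈ range p, w (c : ZMod p) * U (x - (c : ℚ) / p) := by
    rw [Finset.mul_sum]
    refine sum_congr rfl fun c _ => ?_
    have e1 : (((-(c : ℤ) : ℤ)) : ZMod p) = (-1) * (c : ZMod p) := by
      push_cast
      ring
    have e2 : x + ((-(c : ℤ) : ℤ) : ℚ) / p = x - (c : ℚ) / p := by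
      push_cast
      ring
    rw [e1, map_mul, e2]
    ring
  simp only [Int.cast_natCast] at h
  rw [← h, h3, ← mul_assoc, sq_one, one_mul]

end MAIN

end TBQ

open _root_.Pool.Agent.TWQ.TBQ Pool.Agent.TWB.TWBAux in
/-- (TBQ) -/
theorem t_TBQ : S_TBQ := by
  intro l g h' hG V p hp5 N₀ s₀ h a nu P s hyp hdep w hw hws
  have hpp : p.Prime := hyp.pp
  have hp0 : p ≠ 0 := hpp.ne_zero
  have _nz : NeZero p := ⟨hp0⟩
  have hss : (s : ℂ) * w (-1) = 1 := by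
    rw [← hws]
    exact sq_one p w
  have hsa : IsAlgebraic ℚ ((s : ℤ) : ℂ) := isAlgebraic_intCast (R := ℚ) (A := ℂ) s
  have hN1 : p ^ (s₀ + 1) * N₀ ≠ 0 := mul_ne_zero (pow_ne_zero _ hp0) hyp.N0
  have hN : p ^ (s₀ + 1) * N₀ * p ^ 2 ≠ 0 := mul_ne_zero hN1 (pow_ne_zero _ hp0)
  have hdvd1 : ((p * N₀ : ℕ) : ℤ) ∣ ((p ^ (s₀ + 1) * N₀ : ℕ) : ℤ) := by
    refine Int.natCast_dvd_natCast.2 (Nat.mul_dvd_mul_right (dvd_pow_self p (Nat.succ_ne_zero _)) N₀)
  have hper1 : ∀ (d d' : ℤ), ((p ^ (s₀ + 1) * N₀ : ℕ) : ℤ) ∣ d - d' → nu d = nu d' :=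
    fun d d' hd => hyp.nuper d d' (hdvd1.trans hd)
  have hS : IsSym (p ^ (s₀ + 1) * N₀) nu (sgnPart (s : ℂ) (P 0)) :=
    (tx_HK 1 le_rfl _ nu (P 0) (P 0) (hyp.sym 0) hyp.nu1 s).2.1
  have hW : ∀ (y : ℚ) (k : ℤ), sgnPart (s : ℂ) (P 0) ∞ ((y + k : ℚ) : OnePoint ℚ) =
      sgnPart (s : ℂ) (P 0) ∞ (y : OnePoint ℚ) :=
    (tx_HK 1 le_rfl _ nu (P 0) (P 0) (hyp.sym 0) hyp.nu1 s).1
  have hPt : ∀ (y : ℚ) (k : ℤ), P 0 ∞ ((y + k : ℚ) : OnePoint ℚ) =
      P 0 ∞ (y : OnePoint ℚ) := fun y k =>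
    tr_P tx_HK _ nu (P 0) (hyp.sym 0) hyp.nu1 y k
  have hodd : ∀ (y : ℚ), sgnPart (s : ℂ) (P 0) ∞ ((-y : ℚ) : OnePoint ℚ) =
      s * sgnPart (s : ℂ) (P 0) ∞ (y : OnePoint ℚ) := by
    intro y
    rw [sgn_s, sgn_s, neg_neg]
    have h1 : (s : ℂ) * s = 1 := by
      rcases hyp.s1 with h1 | h1 <;> rw [h1] <;> norm_num
    linear_combination (- P 0 ∞ ((-y : ℚ) : OnePoint ℚ)) * h1
  obtain ⟨C, hC⟩ := TWR.a_TW4 l g h' hG V p hpp hp5 hyp.vp Unit (p ^ (s₀ + 1) * N₀ * p ^ 2) hN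
    (fun _ d => nu d * (w⁻¹ (d : ZMod p)) ^ 2)
    (by
      intro _ d
      rw [map_mul, map_pow]
      exact mul_le_one' (hyp.nuv d) (pow_le_one' (chi_val V p w⁻¹ _) 2))
    (by
      intro _
      simp [hyp.nu1])
    (by
      intro _ d d' hd
      have e1 : nu d = nu d' := hper1 d d' (Dvd.dvd.trans (by
        push_cast
        exact Dvd.intro _ rfl) hd)
      have e2 : (d : ZMod p) = (d' : ZMod p) := by
        rw [ZMod.intCast_eq_intCast_iff_dvd_sub]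
        refine (dvd_sub_comm).1 (Dvd.dvd.trans ?_ hd)
        push_cast
        exact Dvd.dvd.mul_left (dvd_pow_self _ two_ne_zero) _
      simp only [e1, e2])
    (by
      intro _ d
      exact (t_NUA p V N₀ s₀ h a nu P s hyp d).mul
        ((chi_alg p w⁻¹ _).pow 2))
    (fun _ => Bt p w (sgnPart (s : ℂ) (P 0)))
    (fun _ => t_SYM p hpp _ hN1 nu hyp.nu1 hper1 _ hS w)
    (by
      intro _ x
      rw [Bt_inf p hp0]
      refine alg_sum _ _ fun c => ?_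
      rw [sgn_s]
      exact (chi_alg p w _).mul ((hyp.alg _ _).add (hsa.mul (hyp.alg _ _))))
    (by
      intro _ x
      rw [Bt_inf p hp0, Bt_inf p hp0]
      have h1 := sum_ws p hp0 w (fun y : ℚ => sgnPart (s : ℂ) (P 0) ∞ (y : OnePoint ℚ)) hW x
      have h2 : ∑ c ∈ range p, w (c : ZMod p) *
          sgnPart (s : ℂ) (P 0) ∞ ((-x + (c : ℚ) / p : ℚ) : OnePoint ℚ) =
          s * ∑ c ∈ range p, w (c : ZMod p) *
            sgnPart (s : ℂ) (P 0) ∞ ((x - (c : ℚ) / p : ℚ) : OnePoint ℚ) := by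
        rw [Finset.mul_sum]
        refine sum_congr rfl fun c _ => ?_
        have e : (-x + (c : ℚ) / p : ℚ) = -(x - (c : ℚ) / p) := by ring
        rw [e, hodd]
        ring
      rw [h2, h1, ← mul_assoc, hss, one_mul])
    (by
      intro _ x
      simp only [Bt_inf p hp0]
      rw [sum_comm]
      refine sum_eq_zero fun c _ => ?_
      rw [← mul_sum]
      have h0 : ∑ k ∈ range l, sgnPart (s : ℂ) (P 0) ∞
          ((x + (k : ℚ) / l + (c : ℚ) / p : ℚ) : OnePoint ℚ) = 0 := by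
        simp only [sgn_s]
        rw [sum_add_distrib]
        have h1 : ∑ k ∈ range l, P 0 ∞ ((x + (k : ℚ) / l + (c : ℚ) / p : ℚ) : OnePoint ℚ) = 0 := by
          have := hdep (x + (c : ℚ) / p)
          rw [← this]
          refine sum_congr rfl fun k _ => ?_
          rw [show x + (k : ℚ) / l + (c : ℚ) / p = x + (c : ℚ) / p + (k : ℚ) / l by ring]
        have h2 : ∑ k ∈ range l, P 0 ∞
            ((-(x + (k : ℚ) / l + (c : ℚ) / p) : ℚ) : OnePoint ℚ) = 0 := by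
          have := hdep (-(x + (c : ℚ) / p) - ((l : ℚ) - 1) / l)
          rw [← this, ← sum_range_reflect]
          refine sum_congr rfl fun k hk' => ?_
          have hkl : k < l := mem_range.1 hk'
          have hc : ((l - 1 - k : ℕ) : ℚ) = (l : ℚ) - 1 - k := by
            rw [Nat.cast_sub (by omega), Nat.cast_sub (by omega)]
            simp
          rw [hc]
          congr 2
          ring
        rw [h1, ← mul_sum, h2, mul_zero, add_zero]
      rw [h0, mul_zero])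
    (by
      intro _ N' hN' hd
      exact nb hyp w hw N' hN' ((Dvd.intro _ rfl).trans hd))
  refine ⟨C, fun n hn ψ hψ1 hψ2 => ?_⟩
  have hv := hC n hn () ψ hψ1 hψ2
  have hm0 : l ^ n ≠ 0 := by
    rcases hG with ⟨hl, -, -⟩ | ⟨hl, -, -⟩ <;> rw [hl] <;> positivity
  have hm0' : ((l ^ n : ℕ) : ℚ) ≠ 0 := Nat.cast_ne_zero.2 hm0
  set S : ℂ := ∑ b ∈ range (l ^ n), ∑ c ∈ range p, ψ b * w (c : ZMod p) *
      P 0 ∞ (((b : ℚ) / (l : ℚ) ^ n + (c : ℚ) / p : ℚ) : OnePoint ℚ) with hSdef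
  have hS' : ∑ b ∈ range (l ^ n), ∑ c ∈ range p, ψ b * w (c : ZMod p) *
      P 0 ∞ ((-((b : ℚ) / (l : ℚ) ^ n + (c : ℚ) / p) : ℚ) : OnePoint ℚ) = w (-1) * S := by
    have hin : ∀ b : ℕ, ∑ c ∈ range p, ψ b * w (c : ZMod p) *
        P 0 ∞ ((-((b : ℚ) / (l : ℚ) ^ n + (c : ℚ) / p) : ℚ) : OnePoint ℚ) =
        w (-1) * ∑ c ∈ range p, ψ b * w (c : ZMod p) *
          P 0 ∞ ((-((b : ℚ) / (l : ℚ) ^ n) + (c : ℚ) / p : ℚ) : OnePoint ℚ) := by
      intro b
      have h1 := sum_ws p hp0 w (fun y : ℚ => P 0 ∞ (y : OnePoint ℚ)) hPt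
        (-((b : ℚ) / (l : ℚ) ^ n))
      have h2 := congrArg (fun z => ψ b * z) h1
      simp only [mul_sum] at h2 ⊢
      have h3 : ∀ c : ℕ, ψ b * w (c : ZMod p) *
          P 0 ∞ ((-((b : ℚ) / (l : ℚ) ^ n + (c : ℚ) / p) : ℚ) : OnePoint ℚ) =
          ψ b * (w (c : ZMod p) *
          P 0 ∞ ((-((b : ℚ) / (l : ℚ) ^ n) - (c : ℚ) / p : ℚ) : OnePoint ℚ)) := by
        intro c
        rw [mul_assoc]
        congr 3
        congr 1
        ring
      rw [sum_congr rfl fun c _ => h3 c, h2]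
      refine sum_congr rfl fun c _ => ?_
      ring
    rw [sum_congr rfl fun b _ => hin b, ← mul_sum, hSdef]
    congr 1
    have h := sum_neg (l ^ n) (fun b : ℤ => ∑ c ∈ range p,
      ψ ((b : ℤ) : ZMod (l ^ n)) * w (c : ZMod p) *
      P 0 ∞ (((b : ℚ) / (l : ℚ) ^ n + (c : ℚ) / p : ℚ) : OnePoint ℚ)) (by
      intro b
      have e1 : (((b + (l ^ n : ℕ) : ℤ)) : ZMod (l ^ n)) =
          ((b : ℤ) : ZMod (l ^ n)) := by
        rw [Int.cast_add, Int.cast_natCast, ZMod.natCast_self, add_zero]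
      have e2 : ∀ c : ℕ, ((b + (l ^ n : ℕ) : ℤ) : ℚ) / (l : ℚ) ^ n + (c : ℚ) / p =
          ((b : ℚ) / (l : ℚ) ^ n + (c : ℚ) / p) + ((1 : ℤ) : ℚ) := by
        intro c
        have hl' : (l : ℚ) ^ n ≠ 0 := by
          have := hm0'
          push_cast at this
          exact this
        have : ((b + (l ^ n : ℕ) : ℤ) : ℚ) / (l : ℚ) ^ n =
            (b : ℚ) / (l : ℚ) ^ n + 1 := by
          push_cast
          rw [add_div, div_self hl']
        rw [this]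
        push_cast
        ring
      refine sum_congr rfl fun c _ => ?_
      rw [e1, e2, hPt])
    simp only [Int.cast_natCast] at h
    rw [← h]
    refine sum_congr rfl fun b _ => ?_
    refine sum_congr rfl fun c _ => ?_
    have e1 : ψ (((-(b : ℤ) : ℤ)) : ZMod (l ^ n)) = ψ (b : ZMod (l ^ n)) := by
      rw [show (((-(b : ℤ) : ℤ)) : ZMod (l ^ n)) = (-1) * (b : ZMod (l ^ n)) by
        push_cast; ring, map_mul, hψ1, one_mul]
    have e2 : ((-(b : ℤ) : ℤ) : ℚ) / (l : ℚ) ^ n + (c : ℚ) / p =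
        -((b : ℚ) / (l : ℚ) ^ n) + (c : ℚ) / p := by
      push_cast
      ring
    rw [e1, e2]
  have hsum : ∑ b ∈ range (l ^ n), ψ b *
      Bt p w (sgnPart (s : ℂ) (P 0)) ∞ (((b : ℚ) / (l : ℚ) ^ n : ℚ) : OnePoint ℚ) = 2 * S := by
    have h1 : ∀ b : ℕ, ψ b *
        Bt p w (sgnPart (s : ℂ) (P 0)) ∞ (((b : ℚ) / (l : ℚ) ^ n : ℚ) : OnePoint ℚ) =
        ∑ c ∈ range p, ψ b * w (c : ZMod p) *
          P 0 ∞ (((b : ℚ) / (l : ℚ) ^ n + (c : ℚ) / p : ℚ) : OnePoint ℚ) +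
        s * ∑ c ∈ range p, ψ b * w (c : ZMod p) *
          P 0 ∞ ((-((b : ℚ) / (l : ℚ) ^ n + (c : ℚ) / p) : ℚ) : OnePoint ℚ) := by
      intro b
      rw [Bt_inf p hp0, mul_sum, mul_sum, ← sum_add_distrib]
      refine sum_congr rfl fun c _ => ?_
      rw [sgn_s]
      ring
    rw [sum_congr rfl fun b _ => h1 b, sum_add_distrib, ← mul_sum, hS', hSdef, ← mul_assoc, hss]
    ring
  have hv' : 1 ≤ V.valuation (2 * S) := by
    rw [← hsum]
    exact hv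
  rw [map_mul] at hv'
  have hv2 : V.valuation (2 : ℂ) ≤ 1 := by
    rw [ValuationSubring.valuation_le_one_iff]
    exact ofNat_mem V 2
  calc (1 : _) ≤ V.valuation 2 * V.valuation S := hv'
    _ ≤ 1 * V.valuation S := mul_le_mul_left hv2 _
    _ = V.valuation S := one_mul _

end

end Pool.Agent.TWQ


end
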