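import Pool.Agent.MVF.C014
import Pool.Agent.MVF.C016
import Pool.Agent.MVF.C027
import Pool.Agent.MVF.C033
import Pool.Agent.MVF.C114
import Pool.Agent.MVF.C118
import Pool.Agent.TWM.C04
import Pool.Agent.TWM.C05
import Pool.Agent.TWM.C07
import Pool.Agent.TWM.C08
import Pool.Agent.TWM.C10
import Pool.Agent.TWM.C11
import Pool.Agent.TWM.C15
import Pool.Agent.TWM.C17
import Pool.Agent.TWM.C18
import Pool.Agent.TWM.C22
import Pool.Agent.TWM.C24
import Pool.Agent.TWM.C26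
import Pool.Agent.TWM.C28
import Pool.Agent.TWZ.C01
import Pool.Agent.TWZ.C02

/-! Parts: TWQ.SETQ, TWQ.DLQ, TWQ.KINS, TWQ.LOQ, TWQ.TEQ, TWQ.VPQ, TWQ.DLCQ, TWQ.FAQ, TWQ.REDQ, TWQ.UNQ -/

section

/-!
# TWQ, module SETQ (helper60): the fields `K'' = K H`, `K' = K H k(ζ_(2p))`
-/

set_option autoImplicit false

open NumberField IsDedekindDomain

namespace Pool.Agent.TWQ

open _root_.MU3 Pool.Agent.MU3 Pool.Agent.MU3A Pool.Agent.MU3B Pool.Agent.RI Pool.Agent.RID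
  Pool.Agent.MUX Pool.Agent.MUXK Pool.Agent.MUXW Pool.Agent.MUXJ Pool.Agent.TWK
open Pool.Agent.MU3V (Sub GD)

open OMPx in
theorem t_SETQ : S_SETQ := by
  intro p l hp hl h f h5 hpf hf0 h2f hlf A B hc T hNL hpH K _ hfk hk hcop hKf Bn hlay hmono hsub
  have hpp : p.Prime := hp.out
  have hlp : l.Prime := hl.out
  have hfp0 : f * p ≠ 0 := mul_ne_zero hf0 hpp.ne_zero
  set F1 : IntermediateField (kk A B) ℂ := RF (⊤ : Ideal (OO A B)) with hF1
  set F2 : IntermediateField (kk A B) ℂ := RF (idl (A := A) (B := B) (f * p)) with hF2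
  have hF12 : F1 ≤ F2 := T.mono _ _ le_top
  have htop : (⊤ : Ideal (OO A B)) ≠ ⊥ := by
    intro h0
    have h1 : ((1 : ℕ) : OO A B) ∈ (⊤ : Ideal (OO A B)) := Submodule.mem_top
    rw [h0, Ideal.mem_bot] at h1
    exact natO_ne one_ne_zero h1
  have hfin1 : FiniteDimensional (kk A B) F1 := T.fin _ htop
  have hfin2 : FiniteDimensional (kk A B) F2 := T.fin _ (idl_ne hfp0)
  have hfd1 : FiniteDimensional ℚ (F1.restrictScalars ℚ) := by
    have : FiniteDimensional ℚ F1 := FiniteDimensional.trans ℚ (kk A B) F1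
    exact this
  have hfd2 : FiniteDimensional ℚ (F2.restrictScalars ℚ) := by
    have : FiniteDimensional ℚ F2 := FiniteDimensional.trans ℚ (kk A B) F2
    exact this
  have hk1 : kk A B ≤ F1.restrictScalars ℚ := fun x hx => F1.algebraMap_mem ⟨x, hx⟩
  have hk2 : kk A B ≤ F2.restrictScalars ℚ := fun x hx => F2.algebraMap_mem ⟨x, hx⟩
  have he1 : IntermediateField.extendScalars hk1 = F1 := SetLike.ext fun x => Iff.rfl
  have he2 : IntermediateField.extendScalars hk2 = F2 := SetLike.ext fun x => Iff.rfl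
  have h12 : F1.restrictScalars ℚ ≤ F2.restrictScalars ℚ := fun x hx => hF12 hx
  have hK2 : K ≤ F2.restrictScalars ℚ := fun x hx => hKf x hx
  have h2p : 2 * p ∣ f * p := Nat.mul_dvd_mul_right h2f p
  have h2p0 : 2 * p ≠ 0 := mul_ne_zero two_ne_zero hpp.ne_zero
  obtain ⟨ζ, hζ⟩ : ∃ ζ : ℂ, IsPrimitiveRoot ζ (2 * p) := ⟨_, Complex.isPrimitiveRoot_exp _ h2p0⟩
  have hζm : ζ ∈ F2 := zeta_mem T hNL h2p0 hfp0 h2p hζ.pow_eq_one
  -- the cyclotomic field
  set Z : IntermediateField ℚ ℂ := IntermediateField.adjoin ℚ {ζ} with hZ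
  have hne : NeZero (2 * p) := ⟨h2p0⟩
  have hζi : IsIntegral ℚ ζ := (hζ.isIntegral (Nat.pos_of_ne_zero h2p0)).tower_top
  have hcyc : IsCyclotomicExtension {2 * p} ℚ Z := by
    change IsCyclotomicExtension {2 * p} ℚ (IntermediateField.adjoin ℚ {ζ}).toSubalgebra
    rw [IntermediateField.adjoin_simple_toSubalgebra_of_isAlgebraic hζi.isAlgebraic]
    exact hζ.adjoin_isCyclotomicExtension ℚ
  have hZfin : FiniteDimensional ℚ Z := IsCyclotomicExtension.finiteDimensional {2 * p} ℚ Z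
  have hZgal : IsGalois ℚ Z := IsCyclotomicExtension.isGalois {2 * p} ℚ Z
  have hZdeg : Module.finrank ℚ Z = p - 1 := by
    rw [IsCyclotomicExtension.finrank (n := 2 * p) Z
      (Polynomial.cyclotomic.irreducible_rat (Nat.pos_of_ne_zero h2p0))]
    have h2c : Nat.Coprime 2 p := by
      rw [Nat.coprime_primes Nat.prime_two hpp]
      omega
    rw [Nat.totient_mul h2c, Nat.totient_prime hpp, Nat.totient_two, one_mul]
  have hZ2 : Z ≤ F2.restrictScalars ℚ := by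
    rw [hZ, IntermediateField.adjoin_le_iff, Set.singleton_subset_iff]
    exact hζm
  set K1 : IntermediateField ℚ ℂ := K ⊔ F1.restrictScalars ℚ with hK1
  set K3 : IntermediateField ℚ ℂ := K1 ⊔ Z with hK3
  have hfdK1 : FiniteDimensional ℚ K1 := IntermediateField.finiteDimensional_sup K _
  have hfdK3 : FiniteDimensional ℚ K3 := IntermediateField.finiteDimensional_sup K1 Z
  have le1 : K ≤ K1 := le_sup_left
  have le2 : K1 ≤ K3 := le_sup_left
  have le3 : K3 ≤ F2.restrictScalars ℚ := sup_le (sup_le hK2 h12) hZ2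
  have hk3 : kk A B ≤ K3 := hk.trans (le1.trans le2)
  have hbas2 : BasC l (kk A B) (F2.restrictScalars ℚ) Bn := by
    refine ⟨hk2, ?_, ?_, hlay, hmono⟩
    · rw [he2]
      exact T.gal _ (idl_ne hfp0)
    · rw [he2]
      exact T.comm _ (idl_ne hfp0)
  have hbas : BasC l (kk A B) K3 Bn := t_SUBC l (kk A B) K3 (F2.restrictScalars ℚ) Bn hbas2 hk3 le3
  -- the degrees
  obtain ⟨-, a2⟩ := BCH_thm.1 (kk A B) (F1.restrictScalars ℚ) K K K1 hk1 le1
    (sup_eq_right.2 hk).symm (sup_comm _ _) (by rw [he1]; exact T.gal _ htop)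
  obtain ⟨g1, g2⟩ := Pool.Agent.TWF.bot_data hZgal
  obtain ⟨-, b2⟩ := BCH_thm.1 ⊥ Z K1 K1 K3 bot_le le2 (bot_sup_eq _).symm (sup_comm _ _) g1
  rw [g2, hZdeg] at b2
  rw [he1] at a2
  have hcop3 : ¬ p ∣ Module.finrank (kk A B) (IntermediateField.extendScalars hbas.hk) := by
    have e0 := Pool.Agent.TWF.deg_mul hk
    have e1 := Pool.Agent.TWF.deg_mul le1
    have e2 := Pool.Agent.TWF.deg_mul le2
    have e3 := Pool.Agent.TWF.deg_mul hk3
    have hpos : 0 < Module.finrank ℚ (kk A B) := Module.finrank_pos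
    have e4 : Module.finrank (kk A B) (IntermediateField.extendScalars hk3) =
        Module.finrank (kk A B) (IntermediateField.extendScalars hk) *
          Module.finrank K (IntermediateField.extendScalars le1) *
          Module.finrank K1 (IntermediateField.extendScalars le2) := by
      apply Nat.eq_of_mul_eq_mul_left hpos
      rw [e3, ← e2, ← e1, ← e0]
      ring
    change ¬ p ∣ Module.finrank (kk A B) (IntermediateField.extendScalars hk3)
    rw [e4]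
    intro hd
    rcases (Nat.Prime.dvd_mul hpp).1 hd with hd | hd
    · rcases (Nat.Prime.dvd_mul hpp).1 hd with hd | hd
      · exact hcop hd
      · exact hpH (hd.trans a2)
    · have h6 := Nat.le_of_dvd (by omega) (hd.trans b2)
      omega
  refine ⟨K1, K3, hfdK1, hfdK3, ⟨hbas, hk, le1, le2, hcop3, ζ, ?_, hζ⟩, ?_, ?_⟩
  · exact (le_sup_right : Z ≤ K3) (IntermediateField.mem_adjoin_simple_self ℚ ζ)
  · intro x hx
    exact (le_sup_right : F1.restrictScalars ℚ ≤ K1) hx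
  · intro n
    have hle : K1 ⊔ Bn n ≤
        (RF (idl (A := A) (B := B) (f * l ^ (n + h) * p))).restrictScalars ℚ := by
      refine sup_le (sup_le (fun x hx => ?_) (fun x hx => ?_)) (fun x hx => ?_)
      · exact hsub n x ((le_sup_left : K ≤ K ⊔ Bn n) hx)
      · exact T.mono _ _ le_top hx
      · exact hsub n x ((le_sup_right : Bn n ≤ K ⊔ Bn n) hx)
    exact fun x hx => hle hx

end Pool.Agent.TWQ


end

section

/-!
# TWQ, module DLQ: the logarithmic derivative of the conjugates of `θ`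
-/

set_option autoImplicit false

open WeierstrassCurve Polynomial NumberField IsDedekindDomain

namespace Pool.Agent.TWQ

open _root_.MU3 Pool.Agent.MU3A Pool.Agent.MU3B Pool.Agent.MU3C Pool.Agent.RI Pool.Agent.RID
open Pool.Agent.MUX Pool.Agent.MUXU Pool.Agent.MUXW Pool.Agent.TWT Pool.Agent.TWI
open Pool.Agent.MU3V (cls Sub GD algDF)
open Pool.Agent.MUXV (GR InK tX)
open Pool.Agent.MUXI (IA RE AR)
open OnePoint

noncomputable section

namespace DLQ

theorem nat_mem (L : PeriodPair) {z : ℂ} (hz : z ∈ L.lattice) (n : ℕ) :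
    (n : ℂ) * z ∈ L.lattice := by
  have h := L.lattice.nsmul_mem hz n
  rwa [nsmul_eq_mul] at h

/-- half systems exist -/
theorem exists_half (L : PeriodPair) {a : ℕ} (h1 : a ≠ 0) (h2 : a.Coprime 2) :
    ∃ H : Finset ℂ, IsHalf L a H := by
  refine b_HAL L a (by exact_mod_cast h1) (fun w hw => nat_mem L hw a) fun z hz hz2 => ?_
  have h3 : Odd a := Nat.coprime_two_right.1 h2
  obtain ⟨k, rfl⟩ := h3
  have h4 : z = ((2 * k + 1 : ℕ) : ℂ) * z - (k : ℂ) * (2 * z) := by push_cast; ring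
  rw [h4]
  exact sub_mem hz (nat_mem L hz2 k)

theorem nat_idl {A B : ℤ} {m n : ℕ} (h : ((n : ℕ) : OO A B) ∈ idl (A := A) (B := B) m) :
    m ∣ n := by
  obtain ⟨z, hz⟩ := Ideal.mem_span_singleton'.1 h
  have h1 := congrArg QuadraticAlgebra.re hz
  rw [QuadraticAlgebra.re_mul, QuadraticAlgebra.re_natCast, QuadraticAlgebra.im_natCast,
    QuadraticAlgebra.re_natCast] at h1
  have h2 : (m : ℤ) ∣ n := ⟨z.re, by linear_combination -h1⟩
  exact_mod_cast h2

theorem one_nmem {A B : ℤ} {m : ℕ} (hm : m ≠ 1) : (1 : OO A B) ∉ idl (A := A) (B := B) m := by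
  intro h
  have h1 : ((1 : ℕ) : OO A B) ∈ idl (A := A) (B := B) m := by rwa [Nat.cast_one]
  exact hm (Nat.dvd_one.1 (nat_idl h1))

theorem cop_nmem {A B : ℤ} {m : ℕ} (hm : m ≠ 1) {x : OO A B}
    (hx : IsCoprime x ((m : ℕ) : OO A B)) : x ∉ idl (A := A) (B := B) m := by
  intro h
  obtain ⟨u, v, huv⟩ := hx
  apply one_nmem (A := A) (B := B) hm
  rw [← huv]
  exact Ideal.add_mem _ (Ideal.mul_mem_left _ _ h)
    (Ideal.mul_mem_left _ _ (Ideal.mem_span_singleton_self _))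

theorem idl_ne_bot {A B : ℤ} {m : ℕ} (hm : m ≠ 0) : (idl (A := A) (B := B) m) ≠ ⊥ := by
  intro h
  have h4 : ((m : ℕ) : OO A B) = 0 := by
    have : ((m : ℕ) : OO A B) ∈ (idl (A := A) (B := B) m) := Ideal.mem_span_singleton_self _
    rw [h] at this
    exact this
  have h5 := congrArg QuadraticAlgebra.re h4
  simp at h5
  exact hm h5

theorem dpr_congr {V : ValuationSubring ℂ} {t0 : ℂ} {N : ℕ} {J : Type} {T : Finset J}
    {w u g u' g' : J → ℂ} (h : DPr V t0 N J T w u g) (hu : ∀ c ∈ T, u' c = u c)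
    (hg : ∀ c ∈ T, g' c = g c) : DPr V t0 N J T w u' g' := by
  obtain ⟨A, hA, hAT⟩ := h
  refine ⟨A, hA, fun c hc => ?_⟩
  rw [hu c hc, hg c hc]
  exact hAT c hc

end DLQ

open _root_.Pool.Agent.TWQ.DLQ in
theorem t_DLQ (hIDQ : S_IDQ) (hKEYQ : S_KEYQ) : S_DLQ := by
  intro p q A B P P' V f hS hT ι _ R hG m hm x0 y0 hL w hw t0 hLoc T hTr γ hγ a H ha1 hac hH θ hθ
    σ i x hσ
  obtain ⟨⟨hCQ, hp, hp5, -⟩, -, -, -, -, hlast, -⟩ := hIDQ p q A B P P' V f hS
  have hm3 : 3 ≤ m := hL.m3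
  have hM3 : 3 ≤ m * p := le_trans hm3 (Nat.le_mul_of_pos_right m hp.pos)
  have hM1 : m * p ≠ 1 := by omega
  have hM0 : m * p ≠ 0 := by omega
  obtain ⟨-, -, -, -, h5, -⟩ := t_HTF A B hCQ hT _ ι R (m * p) hM3 hm.cop
  have ha0 : a ≠ 0 := by omega
  have ha2 : a.Coprime 2 := by
    have : a.Coprime (2 * (m * p)) := by rwa [← mul_assoc]
    exact Nat.Coprime.coprime_mul_right_right this
  obtain ⟨H', hH'⟩ := exists_half (R.L i) ha0 ha2
  -- the values
  have hval : ∀ c ∈ T,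
      ((γ c (σ θ) : (RF (idl (m * p)) : IntermediateField (kk A B) ℂ)) : ℂ) =
        ThetaH (R.L i) H' (pt R (m * p) i (x * (x0 + c * m * y0))) := by
    intro c hc
    have hcP : c ∉ P := hTr.nz c hc
    have hcop := ((hlast m x0 y0 hL).1 c hcP).1
    -- the value of `γ_c θ`
    obtain ⟨hz1, e1⟩ := h5 (γ c) R.i0 (x0 + c * m * y0) (hγ c hc) 1 (one_nmem hM1) a H H ha0 hH hH
    have hθ1 : θ = ⟨_, hz1⟩ := Subtype.ext hθ
    rw [← hθ1, mul_one] at e1
    -- the value of `σ γ_c θ`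
    obtain ⟨hz2, e2⟩ := h5 σ i x hσ (x0 + c * m * y0) (cop_nmem hM1 hcop) a H H' ha0 hH hH'
    have hθ2 : γ c θ = ⟨_, hz2⟩ := Subtype.ext e1
    rw [← hθ2] at e2
    have hcomm := hT.comm (idl (m * p)) (DLQ.idl_ne_bot hM0) (γ c) σ
    have h6 : γ c (σ θ) = σ (γ c θ) := by
      have := congrArg (fun g => g θ) hcomm
      exact this
    rw [h6, e2]
  obtain ⟨-, -, h3⟩ := hKEYQ p q A B P P' V f hS ι R hG m hm x0 y0 hL w hw t0 hLoc T hTr i x hσ.1
  obtain ⟨h7, h8⟩ := h3 a H' ha1 hac hH'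
  refine ⟨fun c hc => ⟨?_, (h7 c hc).2⟩, dpr_congr h8 hval fun c hc => ?_⟩
  · rw [hval c hc]
    exact (h7 c hc).1
  · rw [hval c hc]

end

end Pool.Agent.TWQ


end

section

/-!
# TWQ, module KINS (helper95)

An endomorphism which is a unit at `V` is injective on the kernel of reduction (split `p`).
-/

set_option autoImplicit false

open WeierstrassCurve Polynomial NumberField IsDedekindDomain

namespace Pool.Agent.TWQ

open _root_.MU3 Pool.Agent.MU3A Pool.Agent.MU3B Pool.Agent.MU3C Pool.Agent.RI Pool.Agent.RID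
open Pool.Agent.MUX Pool.Agent.MUXU Pool.Agent.MUXW Pool.Agent.TWT Pool.Agent.TWI
open Pool.Agent.MU3V (cls Sub GD algDF)
open Pool.Agent.MUXV (GR InK tX)
open OnePoint

noncomputable section

/-- an endomorphism which is a unit at `V` is injective on the kernel of reduction -/
theorem t_KINS : S_KINS := by
  intro p A B P V f h ι R hR i x hx z hz hIn
  have hC := h.cq
  have hp := h.pp
  have : IsDomain (OO A B) := Pool.Agent.MUX.isDomain hC
  obtain ⟨i1, i2, i3, -, -, -, -⟩ := t_IDP p A B P V f h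
  have hL := R.nl i
  obtain ⟨W, ξ, G⟩ := Pool.Agent.TWF.UNF.good h R hR i
  have hcm := Pool.Agent.TWF.UNF.cmo hC hL
  -- the inverse of `x` modulo `P`
  obtain ⟨b, hb⟩ : ∃ b : OO A B, x * b - 1 ∈ P := by
    obtain ⟨c, -, hc⟩ := i1 x
    have hpc : ¬ (p : ℤ) ∣ (c : ℤ) := by
      intro h1
      have h2 : ((c : ℤ) : OO A B) ∈ P := (i2 c).2 h1
      apply hx
      have h3 : x = (x - (c : OO A B)) + ((c : ℤ) : OO A B) := by
        push_cast
        ring
      rw [h3]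
      exact P.add_mem hc h2
    have h4 : IsCoprime (p : ℤ) (c : ℤ) :=
      Nat.isCoprime_iff_coprime.2 ((Nat.Prime.coprime_iff_not_dvd hp).2
        (fun h5 => hpc (by exact_mod_cast h5)))
    obtain ⟨u, v, huv⟩ := h4
    refine ⟨((v : ℤ) : OO A B), ?_⟩
    have h5 : ((u : ℤ) : OO A B) * ((p : ℕ) : OO A B) + ((v : ℤ) : OO A B) * ((c : ℕ) : OO A B) = 1 := by
      have h6 := congrArg (fun t : ℤ => (t : OO A B)) huv
      push_cast at h6
      exact h6
    have h6 : x * ((v : ℤ) : OO A B) - 1 = ((v : ℤ) : OO A B) * (x - ((c : ℕ) : OO A B)) -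
        ((u : ℤ) : OO A B) * ((p : ℕ) : OO A B) := by
      linear_combination h5
    rw [h6]
    exact P.sub_mem (P.mul_mem_left _ hc) (P.mul_mem_left _ h.hP.mem)
  -- the points killed by `p` and `x`
  have key : ∀ u : ℂ, (p : ℂ) * u ∈ (R.L i).lattice → emb x * u ∈ (R.L i).lattice →
      InK V (R.L i) (fun z => (R.L i).weierstrassP z - 1 / 12) u → u ∈ (R.L i).lattice := by
    intro u hpu hxu hK
    refine Pool.Agent.TWF.UNF.injQ h R hR i u ?_ hK
    intro y hy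
    have h1 : (x * b - 1) * y ∈ P * cjI P := Ideal.mul_mem_mul hb hy
    rw [i3] at h1
    obtain ⟨t, ht⟩ := Ideal.mem_span_singleton.1 h1
    have h2 : emb y * u = emb (y * b) * (emb x * u) - emb t * ((p : ℂ) * u) := by
      have h3 : emb ((x * b - 1) * y) = (p : ℂ) * emb t := by
        rw [ht, Pool.Agent.MUX.emb_mul hC, Pool.Agent.MUX.emb_natCast hC]
      rw [Pool.Agent.MUX.emb_mul hC, Pool.Agent.MUX.emb_sub hC, Pool.Agent.MUX.emb_mul hC,
        Pool.Agent.MUX.emb_one hC] at h3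
      rw [Pool.Agent.MUX.emb_mul hC]
      linear_combination (-u) * h3
    rw [h2]
    exact (R.L i).lattice.sub_mem (hcm _ _ hxu) (hcm _ _ hpu)
  -- induction on the order
  have main : ∀ n : ℕ, n ≠ 0 → (n : ℂ) * z ∈ (R.L i).lattice → z ∈ (R.L i).lattice := by
    intro n
    induction n using Nat.strong_induction_on with
    | _ n ih =>
      intro hn hnz
      by_cases hpn : p ∣ n
      · obtain ⟨m, rfl⟩ := hpn
        have hm : m ≠ 0 := by
          rintro rfl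
          exact hn (mul_zero _)
        refine ih m ?_ hm ?_
        · have h1 := hp.two_le
          have h2 : 0 < m := Nat.pos_of_ne_zero hm
          nlinarith
        · refine key _ ?_ ?_ (Pool.Agent.MUXV.inK_nat G hIn m)
          · rw [Nat.cast_mul, mul_assoc] at hnz
            exact hnz
          · have h1 : emb x * ((m : ℂ) * z) = emb ((m : ℕ) : OO A B) * (emb x * z) := by
              rw [Pool.Agent.MUX.emb_natCast hC]
              ring
            rw [h1]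
            exact hcm _ _ hz
      · refine Pool.Agent.MUXV.mem_of_nat_mul G hIn ?_ hnz
        have h2 := PIS.val_int h (n : ℤ) (by exact_mod_cast hpn)
        rwa [Int.cast_natCast] at h2
  have hx0 : x ≠ 0 := by
    rintro rfl
    exact hx P.zero_mem
  have hnm : nm x ≠ 0 := fun h1 => hx0 ((Pool.Agent.MUXF.AlgX.nm_eq_zero (Pool.Agent.MUXY.cqF hC) x).1 h1)
  refine main (nm x).natAbs (Int.natAbs_ne_zero.2 hnm) ?_
  have h1 : emb ((nm x : ℤ) : OO A B) * z ∈ (R.L i).lattice := by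
    rw [← Pool.Agent.MUXF.AlgX.mul_star' x, mul_comm x, Pool.Agent.MUX.emb_mul hC, mul_assoc]
    exact hcm _ _ hz
  rw [Pool.Agent.MUXF.AlgX.emb_intCast (Pool.Agent.MUXY.cqF hC)] at h1
  rcases Int.natAbs_eq (nm x) with h2 | h2
  · rw [h2] at h1
    rwa [Int.cast_natCast] at h1
  · rw [h2] at h1
    rw [Int.cast_neg, Int.cast_natCast, neg_mul] at h1
    exact (Submodule.neg_mem_iff _).1 h1

end

end Pool.Agent.TWQ


end

section

/-!
# TWQ, LOQI and LOQS (helper3): the points of `E[P]` and their logarithms, both types of `p`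
-/

set_option autoImplicit false

open WeierstrassCurve Polynomial

namespace Pool.Agent.TWQ

open _root_.MU3 Pool.Agent.MU3A Pool.Agent.MU3B Pool.Agent.MUX Pool.Agent.MUXU Pool.Agent.TWT
open Pool.Agent.TWI
open Pool.Agent.MUXV (GR InK tX)

noncomputable section

namespace LOQ

variable {A B : ℤ} {n : ℕ} {ι : Type}

/-- the facts used: both types of `p` -/
structure Cm (p q : ℕ) (P : Ideal (OO A B)) (V : ValuationSubring ℂ)
    (R : Reps A B n ι) (y0 : OO A B) : Prop where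
  sit : TEP.Sit q P V
  q5 : 5 ≤ q
  vp : V.valuation (p : ℂ) < 1
  p0 : V.valuation (p : ℂ) ≠ 0
  int : ∀ j : ℤ, ¬ (p : ℤ) ∣ j → V.valuation (j : ℂ) = 1
  ty : ∀ i, ∃ (a2 a4 : V) (lam : ℕ → ℂ), GRa V (R.L i) a2 a4 ∧ HasTyI V (R.L i) q a2 a4 lam
  mu : ∀ i, IsgN V (R.L R.i0) (R.L i) (muX R i) (nI (R.b i))
  ml : ∀ x, x ∉ P → ∃ (α : OO A B) (n : ℕ), α - x ∈ P ∧
    ∀ i, IsgN V (R.L i) (R.L i) (emb α) n
  mem : ∀ i x, pt R p i (x * y0) ∈ (R.L i).lattice ↔ x ∈ P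
  kr : ∀ i, InK V (R.L i) (xn (R.L i)) (pt R p i y0) ∧
    V.valuation (tX (xn (R.L i)) (yy (R.L i)) (pt R p i y0)) ^ (q - 1) = V.valuation (p : ℂ)
  tei : ∀ w, TeQ p q P V w → (∀ x y, w (x * y) = w x * w y) ∧
    (∀ x y, x - y ∈ P → w x = w y) ∧ (∀ x, x ∉ P → w x ^ (q - 1) = 1) ∧
    ∀ x, V.valuation (w x - emb x) ≤ V.valuation (p : ℂ)

theorem pt_mul (hC : CQ A B) (R : Reps A B n ι) (p : ℕ) (i : ι) (x y : OO A B) :
    pt R p i (x * y) = emb x * pt R p i y := by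
  unfold pt
  rw [emb_mul hC]
  ring

theorem pt_sub (hC : CQ A B) (R : Reps A B n ι) (p : ℕ) (i : ι) (x y : OO A B) :
    pt R p i (x - y) = pt R p i x - pt R p i y := by
  unfold pt
  rw [emb_sub hC]
  ring

theorem pt_mu (R : Reps A B n ι) (p : ℕ) (i : ι) (x : OO A B) :
    pt R p i x = muX R i * pt R p R.i0 x := by
  have ho0 := (R.nl R.i0).om_ne
  have hb0 : nI (R.b R.i0) = 1 := by
    rw [R.b0]
    unfold nI
    have : Subsingleton (OO A B ⧸ (⊤ : Ideal (OO A B))) := Ideal.Quotient.subsingleton_iff.2 rfl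
    exact Nat.card_of_subsingleton 0
  unfold muX pt
  rw [hb0]
  push_cast
  field_simp

section

variable {p q : ℕ} {P : Ideal (OO A B)} {V : ValuationSubring ℂ} {R : Reps A B n ι}
  {y0 : OO A B}

theorem vpi_le {lam : ℕ → ℂ} (h0 : lam 0 = 0) (hi : ∀ j, V.valuation (lam j) ≤ 1) {t : ℂ}
    (ht : V.valuation t ≤ 1) (q : ℕ) : V.valuation (vpi lam q t) ≤ V.valuation t := by
  rw [vpi]
  refine Valuation.map_sum_le _ fun k _ => ?_
  rcases Nat.eq_zero_or_pos k with rfl | hk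
  · rw [h0, zero_mul, map_zero]
    exact zero_le
  · rw [map_mul, map_pow]
    calc V.valuation (lam k) * V.valuation t ^ k ≤ 1 * V.valuation t ^ 1 :=
          mul_le_mul' (hi _) (pow_le_pow_right_of_le_one' ht hk)
      _ = _ := by rw [one_mul, pow_one]

theorem vpi_eq {lam : ℕ → ℂ} (h0 : lam 0 = 0) (h1 : lam 1 = 1)
    (hi : ∀ j, V.valuation (lam j) ≤ 1) {t : ℂ} (ht : V.valuation t < 1)
    (ht0 : V.valuation t ≠ 0) {q : ℕ} (hq : 2 ≤ q) :
    V.valuation (vpi lam q t) = V.valuation t := by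
  have h2 := KEY.vpi_close (p := q) h0 h1 hi hq ht.le
  have h3 : V.valuation (vpi lam q t - t) < V.valuation t := by
    refine h2.trans_lt ?_
    rw [pow_two]
    exact mul_lt_of_lt_one_left (zero_lt_iff.2 ht0) ht
  have h4 := Valuation.map_add_eq_of_lt_left V.valuation h3
  rwa [add_sub_cancel] at h4

theorem gr (h : Cm p q P V R y0) (i : ι) : ∃ (W : WeierstrassCurve.Affine ℂ)
    (ξ : ℂ →+ W.Point), GR V W (R.L i) (xn (R.L i)) (yy (R.L i)) ξ := by
  obtain ⟨a2, a4, lam, ⟨W, ξ, hG, -⟩, -⟩ := h.ty i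
  exact ⟨W, ξ, hG⟩

theorem tau1 (h : Cm p q P V R y0) (i : ι) :
    V.valuation (tX (xn (R.L i)) (yy (R.L i)) (pt R p i y0)) < 1 := by
  by_contra hc
  have h2 : 1 ≤ V.valuation (tX (xn (R.L i)) (yy (R.L i)) (pt R p i y0)) ^ (q - 1) :=
    one_le_pow_of_one_le' (not_lt.1 hc) _
  rw [(h.kr i).2] at h2
  exact absurd h.vp (not_lt.2 h2)

theorem tau0 (h : Cm p q P V R y0) (i : ι) :
    V.valuation (tX (xn (R.L i)) (yy (R.L i)) (pt R p i y0)) ≠ 0 := by
  intro hc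
  have h2 := (h.kr i).2
  have := h.q5
  rw [hc, zero_pow (by omega)] at h2
  exact h.p0 h2.symm

theorem taui (h : Cm p q P V R y0) (i j : ι) :
    V.valuation (tX (xn (R.L i)) (yy (R.L i)) (pt R p i y0)) =
      V.valuation (tX (xn (R.L j)) (yy (R.L j)) (pt R p j y0)) := by
  have h2 := (h.kr i).2
  rw [← (h.kr j).2] at h2
  have := h.q5
  exact (pow_left_inj (by omega)).mp h2

theorem notin (h : Cm p q P V R y0) (i : ι) {x : OO A B} (hx : x ∉ P) :
    pt R p i (x * y0) ∉ (R.L i).lattice := fun hc => hx ((h.mem i x).1 hc)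

theorem notin1 (h : Cm p q P V R y0) (i : ι) : pt R p i y0 ∉ (R.L i).lattice := by
  have h1 := notin h i (x := 1) (fun hc => h.sit.prime.ne_top ((Ideal.eq_top_iff_one _).2 hc))
  rwa [one_mul] at h1

/-- the points `pt (x y0)` -/
theorem pts (h : Cm p q P V R y0) (i : ι) {x : OO A B} (hx : x ∉ P) :
    InK V (R.L i) (xn (R.L i)) (pt R p i (x * y0)) ∧
    V.valuation (tX (xn (R.L i)) (yy (R.L i)) (pt R p i (x * y0))) =
      V.valuation (tX (xn (R.L i)) (yy (R.L i)) (pt R p i y0)) ∧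
    ∀ w, TeQ p q P V w → ∀ (a2 a4 : V) (lam : ℕ → ℂ), GRa V (R.L i) a2 a4 →
      HasTyI V (R.L i) q a2 a4 lam →
      V.valuation (vpi lam q (tX (xn (R.L i)) (yy (R.L i)) (pt R p i (x * y0))) -
        w x * vpi lam q (tX (xn (R.L i)) (yy (R.L i)) (pt R p i y0))) ≤
        V.valuation (tX (xn (R.L i)) (yy (R.L i)) (pt R p i y0)) ^ q := by
  have hC := h.sit.cq
  have hq5 := h.q5
  obtain ⟨W, ξ, G⟩ := gr h i
  obtain ⟨α, n, hα, hI⟩ := h.ml x hx
  have hIi := hI i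
  have hαP : α ∉ P := by
    intro h1
    apply hx
    have h2 := P.sub_mem h1 hα
    rwa [sub_sub_cancel] at h2
  have hR1 := notin1 h i
  have hRx := notin h i hx
  have hRα := notin h i hαP
  have hK1 := (h.kr i).1
  have hfoi := t_FOI V (R.L i) (R.L i) (emb α) n ⟨W, ξ, G⟩ ⟨W, ξ, G⟩ hIi.ne hIi.sub hIi.odd
    hIi.unit hIi.ker hIi.vmu (pt R p i y0) hK1 hR1
  rw [← pt_mul hC] at hfoi
  have hdif : pt R p i (x * y0) - pt R p i (α * y0) ∈ (R.L i).lattice := by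
    rw [← pt_sub hC, ← sub_mul, h.mem]
    have := P.neg_mem hα
    rwa [neg_sub] at this
  have hcg : tX (xn (R.L i)) (yy (R.L i)) (pt R p i (x * y0)) =
      tX (xn (R.L i)) (yy (R.L i)) (pt R p i (α * y0)) :=
    Pool.Agent.MUXV.TRA.tX_congr G hRx hRα hdif
  have ht1 := tau1 h i
  have ht0 := tau0 h i
  set t1 := tX (xn (R.L i)) (yy (R.L i)) (pt R p i y0) with ht1d
  refine ⟨(Pool.Agent.MUXV.inK_congr G (Or.inl hdif)).2 hfoi.1, ?_, ?_⟩
  · rw [hcg]
    have h6 : V.valuation (emb α * t1) = V.valuation t1 := by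
      rw [map_mul, hIi.vmu, one_mul]
    rw [← h6]
    refine Valuation.map_eq_of_sub_lt _ ?_
    rw [h6]
    refine lt_of_le_of_lt hfoi.2.2 ?_
    rw [pow_two]
    exact mul_lt_of_lt_one_left (zero_lt_iff.2 ht0) ht1
  · intro w hw a2 a4 lam hGa hlam
    obtain ⟨wmul, wper, wroot, wemb⟩ := h.tei w hw
    have hvpa := a_VPA V (R.L i) (R.L i) a2 a4 a2 a4 hGa hGa (emb α) n hIi q (by omega) lam lam
      hlam hlam (pt R p i y0) hK1 hR1
    rw [← pt_mul hC, ← ht1d] at hvpa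
    have hwα : w x = w α := wper _ _ (by
      have := P.neg_mem hα
      rwa [neg_sub] at this)
    have hvpi := vpi_le hlam.lam0 hlam.int ht1.le q
    rw [hcg, hwα]
    have e : vpi lam q (tX (xn (R.L i)) (yy (R.L i)) (pt R p i (α * y0))) -
        w α * vpi lam q t1 =
        (vpi lam q (tX (xn (R.L i)) (yy (R.L i)) (pt R p i (α * y0))) -
          emb α * vpi lam q t1) - (w α - emb α) * vpi lam q t1 := by ring
    rw [e]
    refine (Valuation.map_sub _ _ _).trans (max_le hvpa ?_)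
    rw [map_mul]
    calc V.valuation (w α - emb α) * V.valuation (vpi lam q t1)
        ≤ V.valuation t1 ^ (q - 1) * V.valuation t1 := by
          rw [(h.kr i).2]
          exact mul_le_mul' (wemb α) hvpi
      _ = V.valuation t1 ^ q := by
          rw [← pow_succ]
          congr 1
          omega

/-- the multipliers -/
theorem mus (h : Cm p q P V R y0) (i : ι) (a2 a4 b2 b4 : V) (lam lam0 : ℕ → ℂ)
    (hGa : GRa V (R.L i) a2 a4) (hlam : HasTyI V (R.L i) q a2 a4 lam)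
    (hGb : GRa V (R.L R.i0) b2 b4) (hlam0 : HasTyI V (R.L R.i0) q b2 b4 lam0) :
    V.valuation (vpi lam q (tX (xn (R.L i)) (yy (R.L i)) (pt R p i y0)) -
      muX R i * vpi lam0 q (tX (xn (R.L R.i0)) (yy (R.L R.i0)) (pt R p R.i0 y0))) ≤
      V.valuation (tX (xn (R.L R.i0)) (yy (R.L R.i0)) (pt R p R.i0 y0)) ^ q := by
  have hq5 := h.q5
  have hvpa := a_VPA V (R.L R.i0) (R.L i) b2 b4 a2 a4 hGb hGa (muX R i) _ (h.mu i) q (by omega)
    lam0 lam hlam0 hlam (pt R p R.i0 y0) (h.kr R.i0).1 (notin1 h R.i0)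
  rwa [← pt_mu] at hvpa

/-- `LocQ` from the common facts -/
theorem main (h : Cm p q P V R y0) :
    ∃ t0 : ℂ, ∀ w : OO A B → ℂ, TeQ p q P V w → LocQ p q P V R y0 w t0 := by
  have hq5 := h.q5
  obtain ⟨b2, b4, lam0, hGb, hlam0⟩ := h.ty R.i0
  have hτ1 := tau1 h R.i0
  have hτ0 := tau0 h R.i0
  have hτp := (h.kr R.i0).2
  have hvt0 := vpi_eq (q := q) hlam0.lam0 hlam0.lam1 hlam0.int hτ1 hτ0 (by omega)
  obtain ⟨t0, ht0⟩ : ∃ t0, t0 = vpi lam0 q
    (tX (xn (R.L R.i0)) (yy (R.L R.i0)) (pt R p R.i0 y0)) := ⟨_, rfl⟩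
  rw [← ht0] at hvt0
  refine ⟨t0, fun w hw => ⟨?_, ?_, fun i => ?_⟩⟩
  · intro h1
    rw [h1, map_zero] at hvt0
    exact hτ0 hvt0.symm
  · rw [hvt0]
    exact hτp
  obtain ⟨wmul, wper, wroot, wemb⟩ := h.tei w hw
  obtain ⟨a2, a4, lam, hGa, hlam⟩ := h.ty i
  have hti := taui h i R.i0
  refine ⟨a2, a4, lam, hGa, hlam, fun x hx => ?_⟩
  obtain ⟨k1, k2, k3⟩ := pts h i hx
  refine ⟨k1, notin h i hx, ?_, ?_⟩
  · rw [k2, hti, hvt0]
  · have k4 := k3 w hw a2 a4 lam hGa hlam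
    have k5 := mus h i a2 a4 b2 b4 lam lam0 hGa hlam hGb hlam0
    rw [← ht0] at k5
    rw [hti] at k4
    rw [← hvt0] at k4 k5
    have e : vpi lam q (tX (xn (R.L i)) (yy (R.L i)) (pt R p i (x * y0))) -
        muX R i * w x * t0 =
        (vpi lam q (tX (xn (R.L i)) (yy (R.L i)) (pt R p i (x * y0))) -
          w x * vpi lam q (tX (xn (R.L i)) (yy (R.L i)) (pt R p i y0))) +
        w x * (vpi lam q (tX (xn (R.L i)) (yy (R.L i)) (pt R p i y0)) -
          muX R i * t0) := by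
      ring
    rw [e]
    refine V.valuation.map_add_le k4 ?_
    rw [map_mul, MUXHY.Val.root_one V (q - 1) (w x) (by omega) (wroot _ hx), one_mul]
    exact k5

end

/-! ### the common facts -/

/-- `3 ∤ nI (b_i)` -/
theorem n3 {f : ℕ} {p : ℕ} (R : Reps A B (p * f) ι) (h3 : 3 ∣ f) (i : ι) : ¬ 3 ∣ nI (R.b i) := by
  intro h
  have h1 : 3 ∣ Nat.gcd (nI (R.b i)) (p * f) := Nat.dvd_gcd h (h3.trans (Dvd.intro_left p rfl))
  rw [R.cop i] at h1
  omega

theorem p6 {p : ℕ} (hp : p.Prime) (h5 : 5 ≤ p) : ¬ p ∣ 6 := by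
  intro hd
  have h1 := Nat.le_of_dvd (by norm_num) hd
  interval_cases p
  · omega
  · exact absurd hp (by norm_num)

theorem pp_ne {p : ℕ} (h5 : 5 ≤ p) : p ^ 2 ≠ p := by
  intro h
  nlinarith

/-- inert -/
theorem cmI {p f : ℕ} {P : Ideal (OO A B)} {V : ValuationSubring ℂ} (hS : SetI p A B P V f)
    (h3 : 3 ∣ f) (R : Reps A B (p * f) ι) (hR : GRd V R) {y0 : OO A B}
    (hy : y0 ∉ P) : Cm p (p ^ 2) P V R y0 := by
  obtain ⟨g1, g2, g3, g4, g5⟩ := i_GRI p A B P V f hS ι R hR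
  have hp5 := hS.p5
  have hsit := sit hS.cq hS.pp (by omega) hS.eP hS.hP hS.hV
  have hq : 5 ≤ p ^ 2 := by nlinarith
  have hv3 : V.valuation (3 : ℂ) = 1 := by
    have := g3 3 (fun hd => by
      have h1 := Int.le_of_dvd (by norm_num) hd
      omega)
    exact_mod_cast this
  refine ⟨hsit, hq, g2, ?_, g3, fun i => ?_, fun i => ?_, ?_, fun i x => ?_, fun i => ?_, ?_⟩
  · rw [Valuation.ne_zero_iff]
    exact_mod_cast hS.pp.ne_zero
  · obtain ⟨a2, a4, hGa⟩ := g1 i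
    obtain ⟨Λ, hΛ⟩ := i_EXP V (R.L i) a2 a4 hGa
    exact ⟨a2, a4, _, hGa, a_TYI V (R.L i) a2 a4 hGa Λ hΛ (p ^ 2) (by omega)
      (a_LGI p A B P V f hS ι R hR i a2 a4 hGa Λ hΛ)⟩
  · obtain ⟨k1, k2, k3, k4, k5, k6⟩ := g5 i
    exact ⟨k1, k2, k4, k5, k6, k3, hv3, n3 R h3 i⟩
  · exact fun x hx => a_MLI p A B P V f hS ι R hR x hx
  · obtain ⟨k1, -⟩ := i_PTI p A B P V f hS ι R i
    rw [k1]
    refine ⟨fun h => (hS.hP.mem_or_mem h).resolve_right hy, fun h => P.mul_mem_right _ h⟩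
  · obtain ⟨k1, -, k3⟩ := a_KRI p A B P V f hS ι R hR i y0 hy
    exact ⟨k1, k3⟩
  · intro w hw
    rcases hw with ⟨-, hw⟩ | ⟨hq', -⟩
    · obtain ⟨-, -, -, -, -, -, -, -, hww⟩ := t_TEP p A B P V f hS
      exact ⟨hw.mul, hw.per, hw.root, (hww w hw).2.2.2⟩
    · exact absurd hq' (pp_ne hp5)

/-- `O/P` for a split prime -/
theorem sitG {p f : ℕ} {P : Ideal (OO A B)} {V : ValuationSubring ℂ} (hS : SetG p A B P V f) :
    TEP.Sit p P V := by
  have hp5 := hS.p5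
  refine ⟨hS.cq, hS.hP.prime, hS.hV, hS.hP.norm, by omega, ?_⟩
  have h1 := PIS.val_int hS ((p : ℤ) - 1) (by
    intro hd
    have h2 : (p : ℤ) ∣ 1 := by
      have h3 : (1 : ℤ) = (p : ℤ) - ((p : ℤ) - 1) := by ring
      rw [h3]
      exact dvd_sub dvd_rfl hd
    have := Int.le_of_dvd one_pos h2
    omega)
  have h2 : (((p - 1 : ℕ) : ℤ)) = (p : ℤ) - 1 := by
    rw [Nat.cast_sub hS.pp.one_lt.le]
    push_cast
    ring
  rw [← h2, Int.cast_natCast] at h1
  exact h1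

/-- points of the lattice, `p` prime to `nI (b_i)` -/
theorem memp {p : ℕ} (hC : CQ A B) (hp : p.Prime) (R : Reps A B n ι) (i : ι)
    (hcp : (nI (R.b i)).Coprime p) (x : OO A B) (hx : pt R p i x ∈ (R.L i).lattice) :
    ∃ y : OO A B, x = ((p : ℕ) : OO A B) * y := by
  have hpC : (p : ℂ) ≠ 0 := by exact_mod_cast hp.ne_zero
  have ho := (R.nl i).om_ne
  obtain ⟨u, v, huv⟩ := Nat.isCoprime_iff_coprime.2 hcp
  have huv' : (u : OO A B) * ((nI (R.b i) : ℕ) : OO A B) + (v : OO A B) * ((p : ℕ) : OO A B) =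
      1 := by
    have h3 := congrArg (fun t : ℤ => (t : OO A B)) huv
    push_cast at h3
    exact h3
  obtain ⟨y, hy, hxy⟩ := ((R.nl i).mem _).1 hx
  have hpt : pt R p i x = R.om i * nI (R.b i) * emb x / p := rfl
  rw [hpt] at hxy
  have h2 : emb (((nI (R.b i) : ℕ) : OO A B) * x) = emb (((p : ℕ) : OO A B) * y) := by
    rw [emb_mul hC, emb_mul hC, emb_natCast hC, emb_natCast hC]
    rw [div_eq_iff hpC] at hxy
    apply mul_left_cancel₀ ho
    linear_combination hxy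
  have h3 := emb_inj hC h2
  refine ⟨u * y + v * x, ?_⟩
  calc x = ((u : OO A B) * ((nI (R.b i) : ℕ) : OO A B) + (v : OO A B) * ((p : ℕ) : OO A B)) * x :=
        by rw [huv', one_mul]
    _ = (u : OO A B) * (((nI (R.b i) : ℕ) : OO A B) * x) + (v : OO A B) * ((p : ℕ) : OO A B) * x :=
        by ring
    _ = _ := by
        rw [h3]
        ring

/-- split -/
theorem cmS {p f : ℕ} {P : Ideal (OO A B)} {V : ValuationSubring ℂ} (hS : SetG p A B P V f)
    (h3 : 3 ∣ f) (R : Reps A B (p * f) ι) (hR : GRd V R) {y0 : OO A B}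
    (hy' : y0 ∈ cjI P) (hy : y0 ∉ P) : Cm p p P V R y0 := by
  obtain ⟨g1, g2, g3, -, g5⟩ := t_PIS p A B P V f hS ι R hR
  obtain ⟨d1, d2, d3, d4, d5, -, -⟩ := t_IDP p A B P V f hS
  obtain ⟨-, v0, v1, -⟩ := t_VPG p A B P V f hS
  have hp5 := hS.p5
  have hC := hS.cq
  have hprime := hS.hP.prime
  have hsit := sitG hS
  have hv3 : V.valuation (3 : ℂ) = 1 := by
    have := g3 3 (fun hd => by
      have h1 := Int.le_of_dvd (by norm_num) hd
      omega)
    exact_mod_cast this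
  have hu : ∀ j : ℕ, 0 < j → j < p → V.valuation (j : ℂ) = 1 := by
    intro j h0 h1
    have := g3 (j : ℤ) (fun hd => by
      have h2 := Int.le_of_dvd (by omega) hd
      omega)
    exact_mod_cast this
  refine ⟨hsit, hp5, g2, v0, g3, fun i => ?_, fun i => ?_, ?_, fun i x => ?_, fun i => ?_, ?_⟩
  · obtain ⟨W, ξ, G⟩ := g1 i
    obtain ⟨a2, ha2⟩ : ∃ a2 : V, (a2 : ℂ) = W.a₂ :=
      ⟨⟨W.a₂, (ValuationSubring.valuation_le_one_iff _ _).1 G.int.a2⟩, rfl⟩
    obtain ⟨a4, ha4⟩ : ∃ a4 : V, (a4 : ℂ) = W.a₄ :=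
      ⟨⟨W.a₄, (ValuationSubring.valuation_le_one_iff _ _).1 G.int.a4⟩, rfl⟩
    obtain ⟨lam, hlam⟩ := a_TAY V W (R.L i) (xn (R.L i)) (yy (R.L i)) ξ G p (by omega) hu a2 a4
      ha2 ha4
    refine ⟨a2, a4, lam, ⟨W, ξ, G, ha2, ha4⟩, hlam, fun z hz g k hk => ?_⟩
    unfold dd
    rw [map_div₀, KEY.fac_unit hu k hk, div_one]
    exact KEY.aeval_int (Pool.Agent.MUXV.int_X hz).2 (Pool.Agent.MUXV.int_Y G hz) _
  · obtain ⟨k1, k2, k3, k4, k5, k6⟩ := g5 i
    exact ⟨k1, k2, k4, k5, k6, k3, hv3, n3 R h3 i⟩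
  · intro x hx
    obtain ⟨-, -, x0, hx0, hx1⟩ := d5 6 (p6 hS.pp hp5)
    obtain ⟨e, he⟩ : ∃ e : OO A B, e = 1 - x0 := ⟨_, rfl⟩
    have he6 : e ∈ idl (A := A) (B := B) 6 * cjI P := by
      have := neg_mem hx1
      rwa [neg_sub, ← he] at this
    obtain ⟨e', he'⟩ : ∃ e', e = 6 * e' := by
      have h1 := Ideal.mul_le_left he6
      obtain ⟨t, ht⟩ := Ideal.mem_span_singleton.1 h1
      exact ⟨t, by rw [ht]; push_cast; ring⟩
    obtain ⟨al, hal⟩ : ∃ al : OO A B, al = 1 + 6 * (e' * (x - 1)) := ⟨_, rfl⟩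
    have hal' : al = 1 + e * (x - 1) := by
      rw [hal, he']
      ring
    have hax : al - x ∈ P := by
      have h1 : al - x = -(x0 * (x - 1)) := by
        rw [hal', he]
        ring
      rw [h1]
      exact neg_mem (P.mul_mem_right _ hx0)
    have haP : al ∉ P := by
      intro h1
      apply hx
      have h2 : x = al - (al - x) := by ring
      rw [h2]
      exact P.sub_mem h1 hax
    have hstar : star al ∉ P := by
      intro h1
      have h2 : al ∈ cjI P := h1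
      have h4 : e * (x - 1) ∈ cjI P := (cjI P).mul_mem_right _ (Ideal.mul_le_right he6)
      have h5 : (1 : OO A B) ∈ cjI P := by
        have h6 := (cjI P).sub_mem h2 h4
        rwa [hal', add_sub_cancel_right] at h6
      have h7 : (1 : OO A B) ∈ P := by
        have h8 : star (1 : OO A B) ∈ P := h5
        rwa [star_one] at h8
      exact hprime.ne_top ((Ideal.eq_top_iff_one _).2 h7)
    obtain ⟨k, hk⟩ := MLI.nm_six (e' * (x - 1))
    rw [← hal] at hk
    have hnn := nm_nonneg hC al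
    obtain ⟨n, hn⟩ : ∃ n : ℕ, (n : ℤ) = nm al := ⟨(nm al).toNat, Int.toNat_of_nonneg hnn⟩
    have hpn : ¬ (p : ℤ) ∣ (n : ℤ) := by
      intro hd
      rw [hn] at hd
      obtain ⟨t, ht⟩ := hd
      have h1 : al * star al ∈ P := by
        rw [mul_star, ht]
        push_cast
        exact P.mul_mem_right _ hS.hP.mem
      rcases hprime.mem_or_mem h1 with h2 | h2
      · exact haP h2
      · exact hstar h2
    have hvn : V.valuation (n : ℂ) = 1 := by
      have := g3 n hpn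
      exact_mod_cast this
    have ha0 : al ≠ 0 := by
      intro h0
      apply haP
      rw [h0]
      exact P.zero_mem
    refine ⟨al, n, hax, fun i => ?_⟩
    have hcm := IsLI.hasCM hC (R.nl i).toIsLI
    refine
      { ne := emb_ne_zero hC ha0
        sub := fun w hw => hcm al w hw
        odd := ?_
        unit := hvn
        ker := ?_
        vmu := (hsit.v1 al).2 haP
        v3 := hv3
        n3 := ?_ }
    · rw [← Int.odd_coe_nat, hn, hk]
      exact ⟨3 * k, by ring⟩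
    · intro z hz
      have h1 := hcm (star al) _ hz
      have h2 : ((n : ℕ) : ℂ) * z = emb (star al) * (emb al * z) := by
        rw [← mul_assoc, ← emb_mul hC, mul_comm (star al), mul_star, emb_intCast hC, ← hn]
        push_cast
        rfl
      rw [h2]
      exact h1
    · intro hd
      have h1 : (3 : ℤ) ∣ (n : ℤ) := by exact_mod_cast hd
      rw [hn, hk] at h1
      omega
  · obtain ⟨-, -, k3, k4⟩ := t_PTA p A B P V f hS ι R y0 hy' hy
    obtain ⟨k5, -⟩ := k4 i (g5 i).2.1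
    constructor
    · intro h
      obtain ⟨y, hy1⟩ := memp hC hS.pp R i ((R.cop i).coprime_dvd_right (dvd_mul_right p f)) _ h
      have h1 : x * y0 ∈ P := by
        rw [hy1]
        exact P.mul_mem_right _ hS.hP.mem
      exact (hprime.mem_or_mem h1).resolve_right hy
    · intro h
      rw [pt_mul hC]
      exact k5 x h
  · obtain ⟨-, -, k3, k4⟩ := t_PTA p A B P V f hS ι R y0 hy' hy
    obtain ⟨k5, -⟩ := k4 i (g5 i).2.1
    refine t_KEP p A B P V f hS ι R hR i _ k5 ?_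
    intro h
    obtain ⟨y, hy1⟩ := memp hC hS.pp R i ((R.cop i).coprime_dvd_right (dvd_mul_right p f)) _ h
    apply hy
    rw [hy1]
    exact P.mul_mem_right _ hS.hP.mem
  · intro w hw
    rcases hw with ⟨hq', -⟩ | ⟨-, hw⟩
    · exact absurd hq'.symm (pp_ne hp5)
    refine ⟨hw.mul, hw.per, hw.root, fun x => ?_⟩
    obtain ⟨c, -, hc⟩ := d1 x
    have h1 := hw.int c
    have h2 : w x = w ((c : ℤ) : OO A B) := hw.per _ _ (by rw [Int.cast_natCast]; exact hc)
    rw [← h2] at h1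
    have h4 : V.valuation (emb (x - (c : OO A B))) ≤ V.valuation (p : ℂ) := by
      have h5 : (x - (c : OO A B)) * y0 ∈ P * cjI P := Ideal.mul_mem_mul hc hy'
      rw [d3] at h5
      obtain ⟨t, ht⟩ := Ideal.mem_span_singleton.1 h5
      have h6 := congrArg emb ht
      rw [emb_mul hC, emb_mul hC, emb_natCast hC] at h6
      have h7 := congrArg V.valuation h6
      rw [map_mul, map_mul, (hsit.v1 y0).2 hy, mul_one] at h7
      rw [h7]
      exact mul_le_of_le_one_right' (hsit.vle t)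
    have e : w x - emb x = (w x - ((c : ℤ) : ℂ)) - emb (x - (c : OO A B)) := by
      rw [emb_sub hC, emb_natCast hC]
      push_cast
      ring
    rw [e]
    exact V.valuation.map_sub_le h1 h4

end LOQ

theorem t_LOQI : S_LOQI := by
  intro p A B P V f hS h3 ι R hR y0 hy
  obtain ⟨t0, h⟩ := LOQ.main (LOQ.cmI hS h3 R hR hy)
  exact ⟨t0, fun w hw => h w (Or.inl ⟨rfl, hw⟩)⟩

theorem t_LOQS : S_LOQS := by
  intro p A B P V f hS h3 ι R hR y0 hy' hy
  obtain ⟨t0, h⟩ := LOQ.main (LOQ.cmS hS h3 R hR hy' hy)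
  exact ⟨t0, fun w hw => h w (Or.inr ⟨rfl, hw⟩)⟩

end

end Pool.Agent.TWQ


end

section

/-!
# TWQ, module TEQ: the Teichmüller character, inert and split primes (helper37)
-/

set_option autoImplicit false

open WeierstrassCurve Polynomial NumberField IsDedekindDomain

namespace Pool.Agent.TWQ

open _root_.MU3 Pool.Agent.MU3A Pool.Agent.MU3B Pool.Agent.MU3C Pool.Agent.RI Pool.Agent.RID
open Pool.Agent.MUX Pool.Agent.MUXU Pool.Agent.MUXW Pool.Agent.TWT Pool.Agent.TWI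
open Pool.Agent.MU3V (cls Sub GD algDF)
open Pool.Agent.MUXV (GR InK tX)
open Pool.Agent.MUXI (IA RE AR)
open OnePoint

noncomputable section

namespace TEQ

variable {p q f : ℕ} {A B : ℤ} {P P' : Ideal (OO A B)} {V : ValuationSubring ℂ}

/-- the situation of `TEP` for a split prime -/
theorem sitG (hS : SetG p A B P V f) : TEP.Sit p P V := by
  have hp := hS.pp
  have hp5 := hS.p5
  have hvp : V.valuation (p : ℂ) < 1 := by
    have h1 := (hS.hV ((p : ℕ) : OO A B)).2 hS.hP.mem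
    rw [ValuationSubring.mem_nonunits_iff, emb_natCast hS.cq] at h1
    exact h1
  refine ⟨hS.cq, hS.hP.prime, hS.hV, hS.hP.norm, by omega, ?_⟩
  have h1 := MUXHY.Val.int_one hp hvp ((p : ℤ) - 1) (by
    intro hd
    have h2 : (p : ℤ) ∣ 1 := by
      have h3 : (1 : ℤ) = (p : ℤ) - ((p : ℤ) - 1) := by ring
      rw [h3]
      exact dvd_sub (dvd_refl _) hd
    have := Int.le_of_dvd one_pos h2
    omega)
  have h2 : (((p - 1 : ℕ) : ℤ)) = (p : ℤ) - 1 := by
    rw [Nat.cast_sub hp.one_le]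
    push_cast
    ring
  rw [← h2, Int.cast_natCast] at h1
  exact h1

/-- the situation of `TEP` -/
theorem sitQ (hS : SetQ p q A B P P' V f) : TEP.Sit q P V ∧ Even (q - 1) := by
  rcases hS.2 with ⟨h, -, rfl⟩ | ⟨h, -, rfl⟩
  · have hp5 := h.p5
    refine ⟨sit h.cq h.pp (by omega) h.eP h.hP h.hV, ?_⟩
    have hodd : Odd p := h.pp.odd_of_ne_two (by omega)
    obtain ⟨k, hk⟩ := hodd.pow (n := 2)
    exact ⟨k, by omega⟩
  · have hp5 := h.p5
    refine ⟨sitG h, ?_⟩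
    obtain ⟨k, hk⟩ := h.pp.odd_of_ne_two (by omega)
    exact ⟨k, by omega⟩

end TEQ

open _root_.Pool.Agent.TWQ.TEQ in
theorem t_TEQ : S_TEQ := by
  intro p q A B P P' V f hS w hw
  obtain ⟨hs, heven⟩ := sitQ hS
  have hcq := hs.cq
  have hprime := hs.prime
  have hq2 := hs.q2
  obtain ⟨h1, h2, h3, h4, h5, h6⟩ : w 1 = 1 ∧ (∀ x y, w (x * y) = w x * w y) ∧
      (∀ x y, x - y ∈ P → w x = w y) ∧ (∀ x, w x = 0 ↔ x ∈ P) ∧
      (∀ x, x ∉ P → w x ^ (q - 1) = 1) ∧ ∀ x, V.valuation (w x - emb x) < 1 := by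
    rcases hw with ⟨hq, h⟩ | ⟨hq, h⟩
    · exact ⟨h.one, h.mul, h.per, h.zero, by rw [hq]; exact h.root, h.red⟩
    · exact ⟨h.one, h.mul, h.per, h.zero, by rw [hq]; exact h.root, h.red⟩
  have hv1 : ∀ x ∉ P, V.valuation (w x) = 1 := fun x hx =>
    MUXHY.Val.root_one V (q - 1) (w x) (by omega) (h5 x hx)
  refine ⟨h1, h2, h3, h4, fun x hx => ⟨h5 x hx, hv1 x hx⟩, ?_, fun x => ⟨?_, h6 x⟩,
    fun T hT => hs.psum T hT w h2 h3 h5 h6⟩
  · have h1P : (-1 : OO A B) ∉ P := by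
      intro h
      have := P.neg_mem h
      rw [neg_neg] at this
      exact hprime.ne_top ((Ideal.eq_top_iff_one _).2 this)
    refine TEP.uniq V (q - 1) (by omega) hs.vq _ _ (h5 _ h1P) heven.neg_one_pow ?_
    have := h6 (-1)
    rwa [emb_neg hcq, emb_one hcq] at this
  · by_cases hx : x ∈ P
    · rw [(h4 x).2 hx, map_zero]
      exact zero_le_one
    · exact (hv1 x hx).le

end

end Pool.Agent.TWQ


end

section

/-!
# TWQ, block B', VPQ: the valuation, points outside the kernel of reduction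
-/

set_option autoImplicit false

open WeierstrassCurve Polynomial NumberField IsDedekindDomain

namespace Pool.Agent.TWQ

open _root_.MU3 Pool.Agent.MU3A Pool.Agent.MU3B Pool.Agent.MU3C Pool.Agent.RI Pool.Agent.RID
open Pool.Agent.MUX Pool.Agent.MUXU Pool.Agent.MUXW Pool.Agent.TWT Pool.Agent.TWI
open Pool.Agent.MUXV (GR InK tX inK_nat)

noncomputable section

namespace VPQ

variable {A B : ℤ}

theorem nat_idl {m n : ℕ} (h : ((n : ℕ) : OO A B) ∈ idl (A := A) (B := B) m) :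
    m ∣ n := by
  obtain ⟨z, hz⟩ := Ideal.mem_span_singleton'.1 h
  have h1 := congrArg QuadraticAlgebra.re hz
  rw [QuadraticAlgebra.re_mul, QuadraticAlgebra.re_natCast, QuadraticAlgebra.im_natCast,
    QuadraticAlgebra.re_natCast] at h1
  have h2 : (m : ℤ) ∣ n := ⟨z.re, by linear_combination -h1⟩
  exact_mod_cast h2

/-- the statement on torsion points in the kernel of reduction -/
def Kr (p : ℕ) {f : ℕ} (V : ValuationSubring ℂ) {ι : Type} (R : Reps A B (p * f) ι) (i : ι) :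
    Prop :=
  GRn V (R.L i) ∧ ∀ (m : ℕ) (z : ℂ), ¬ p ∣ m → (m : ℂ) * z ∈ (R.L i).lattice →
    InEn V (R.L i) z → z ∈ (R.L i).lattice

/-- the points are not in the kernel of reduction -/
theorem not_inEn {p : ℕ} (hcq : CQ A B) (hpp : p.Prime) {V : ValuationSubring ℂ}
    {f : ℕ} {ι : Type} {R : Reps A B (p * f) ι} {i : ι} (hK : Kr p V R i) {m : ℕ}
    (hm : LvM p f m R) {y : OO A B} (hy : IsCoprime y ((m : ℕ) : OO A B)) {k : ℕ}
    (hk : ¬ m ∣ k) : ¬ InEn V (R.L i) (k * pt R (m * p) i y) := by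
  intro h
  obtain ⟨⟨W, ξ, hW⟩, hV⟩ := hK
  have h1 : InEn V (R.L i) ((p : ℕ) * (k * pt R (m * p) i y)) := inK_nat hW h p
  have hp0 : (p : ℂ) ≠ 0 := by exact_mod_cast hpp.ne_zero
  have hm0 : (m : ℂ) ≠ 0 := by exact_mod_cast hm.m0
  have h2 : ((p : ℕ) : ℂ) * (k * pt R (m * p) i y) = R.om i * nI (R.b i) * (k * emb y) / m := by
    unfold pt
    push_cast
    field_simp
  rw [h2] at h1
  have hL := (R.nl i).toIsLI
  have h3 : (m : ℂ) * (R.om i * nI (R.b i) * (k * emb y) / m) ∈ (R.L i).lattice := by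
    refine (hL.mem _).2 ⟨((nI (R.b i) : ℕ) : OO A B) * (((k : ℕ) : OO A B) * y),
      Ideal.mul_mem_right _ _ (nI_mem hcq hL.b_ne), ?_⟩
    rw [emb_mul hcq, emb_mul hcq, emb_natCast hcq, emb_natCast hcq]
    field_simp
  have h4 := hV m _ hm.pm h3 h1
  obtain ⟨b, _, hb⟩ := (hL.mem _).1 h4
  rw [div_eq_iff hm0, mul_assoc, mul_assoc] at hb
  have h5 := mul_left_cancel₀ hL.om_ne hb
  have h6 : ((nI (R.b i) : ℕ) : OO A B) * (((k : ℕ) : OO A B) * y) = b * ((m : ℕ) : OO A B) := by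
    apply emb_inj hcq
    rw [emb_mul hcq, emb_mul hcq, emb_natCast hcq, emb_natCast hcq, emb_mul hcq, emb_natCast hcq]
    exact h5
  have h7 : ((m : ℕ) : OO A B) ∣ ((nI (R.b i) : ℕ) : OO A B) * (((k : ℕ) : OO A B) * y) :=
    ⟨b, by rw [h6, mul_comm]⟩
  have h8 : IsCoprime ((m : ℕ) : OO A B) ((nI (R.b i) : ℕ) : OO A B) := by
    have h9 : (nI (R.b i)).Coprime m := Nat.Coprime.coprime_mul_right_right (hm.cop i)
    have h10 := (Nat.isCoprime_iff_coprime.2 h9).symm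
    have h11 := h10.map (Int.castRingHom (OO A B))
    simpa using h11
  have h12 := h8.dvd_of_dvd_mul_left h7
  have h13 : ((m : ℕ) : OO A B) ∣ ((k : ℕ) : OO A B) := hy.symm.dvd_of_dvd_mul_right h12
  exact hk (nat_idl (A := A) (B := B) (Ideal.mem_span_singleton.2 h13))

theorem x0_cop {m : ℕ} {x0 : OO A B}
    (h2 : x0 - 1 ∈ (idl m : Ideal (OO A B))) : IsCoprime x0 ((m : ℕ) : OO A B) := by
  obtain ⟨u, hu⟩ := Ideal.mem_span_singleton.1 h2
  refine ⟨1, -u, ?_⟩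
  rw [one_mul, neg_mul, mul_comm u, ← hu, ← sub_eq_add_neg, sub_sub_cancel]

theorem add_pt {p f : ℕ} (hcq : CQ A B) (hp0 : (p : ℂ) ≠ 0) {ι : Type}
    (R : Reps A B (p * f) ι) (i : ι) (m : ℕ) (hm0 : (m : ℂ) ≠ 0) (x x0 y0 c : OO A B) :
    pt R (m * p) i (x * (x0 + c * m * y0)) =
      pt R (m * p) i (x * x0) + pt R p i (x * c * y0) := by
  have e : x * (x0 + c * m * y0) = x * x0 + ((m : ℕ) : OO A B) * (x * c * y0) := by ring
  have e1 : emb (x * (x0 + c * ((m : ℕ) : OO A B) * y0)) =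
      emb (x * x0) + (m : ℂ) * emb (x * c * y0) := by
    rw [e, emb_add hcq, emb_mul hcq ((m : ℕ) : OO A B), emb_natCast hcq]
  unfold pt
  rw [e1, Nat.cast_mul]
  generalize emb (x * x0) = u
  generalize emb (x * c * y0) = v
  field_simp

theorem cop_mul {p m : ℕ} {x x0 : OO A B} (hx : IsCoprime x ((m * p : ℕ) : OO A B))
    (h : IsCoprime x0 ((m : ℕ) : OO A B)) : IsCoprime (x * x0) ((m : ℕ) : OO A B) := by
  rw [Nat.cast_mul] at hx
  exact hx.of_mul_right_left.mul_left h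

theorem nd_one {m : ℕ} (h3 : 3 ≤ m) : ¬ m ∣ 1 := fun h => by
  have := Nat.le_of_dvd one_pos h
  omega

theorem nd_two {m : ℕ} (h3 : 3 ≤ m) : ¬ m ∣ 2 := fun h => by
  have := Nat.le_of_dvd two_pos h
  omega

theorem nd_a {m p a : ℕ} (h3 : 3 ≤ m) (hac : a.Coprime (2 * m * p)) : ¬ m ∣ a := fun h => by
  have h1 : a.Coprime (2 * m) := Nat.Coprime.coprime_mul_right_right hac
  have h2 : a.Coprime m := Nat.Coprime.coprime_mul_left_right h1
  have h4 : m = 1 := Nat.Coprime.eq_one_of_dvd h2.symm h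
  omega

/-- the last part -/
theorem last {p : ℕ} (hcq : CQ A B) (hpp : p.Prime) {V : ValuationSubring ℂ}
    {f : ℕ} {ι : Type} {R : Reps A B (p * f) ι} {i : ι} (hK : Kr p V R i)
    (P P' : Ideal (OO A B)) (m : ℕ) (hm : LvM p f m R) (x0 y0 : OO A B)
    (hQ : LvQ p P P' m x0 y0) (x : OO A B) (hx : IsCoprime x ((m * p : ℕ) : OO A B)) :
    (∀ c : OO A B, pt R (m * p) i (x * (x0 + c * m * y0)) =
          pt R (m * p) i (x * x0) + pt R p i (x * c * y0)) ∧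
      ¬ InEn V (R.L i) (pt R (m * p) i (x * x0)) ∧
      ¬ InEn V (R.L i) (2 * pt R (m * p) i (x * x0)) ∧
      ∀ a : ℕ, 1 < a → a.Coprime (2 * m * p) →
        ¬ InEn V (R.L i) (a * pt R (m * p) i (x * x0)) := by
  have hm3 := hQ.m3
  have hm0 : (m : ℂ) ≠ 0 := Nat.cast_ne_zero.2 hm.m0
  have hp0 : (p : ℂ) ≠ 0 := Nat.cast_ne_zero.2 hpp.ne_zero
  have hxx : IsCoprime (x * x0) ((m : ℕ) : OO A B) :=
    cop_mul hx (x0_cop ((Ideal.mul_le_left : (idl m : Ideal (OO A B)) * P' ≤ idl m) hQ.xm))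
  refine ⟨fun c => add_pt hcq hp0 R i m hm0 x x0 y0 c, ?_, ?_, fun a ha hac => ?_⟩
  · have h := not_inEn hcq hpp hK hm hxx (k := 1) (nd_one hm3)
    rw [Nat.cast_one, one_mul] at h
    exact h
  · have h := not_inEn hcq hpp hK hm hxx (k := 2) (nd_two hm3)
    rw [Nat.cast_ofNat] at h
    exact h
  · exact not_inEn hcq hpp hK hm hxx (nd_a hm3 hac)

theorem nd_pred {p q : ℕ} (hpp : p.Prime) (hq : q = p ^ 2 ∨ q = p) :
    ¬ (p : ℤ) ∣ ((q - 1 : ℕ) : ℤ) := by
  intro h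
  have h1 : p ∣ q - 1 := by exact_mod_cast h
  have h2 : p ∣ q := by
    rcases hq with h | h
    · rw [h]
      exact dvd_pow_self p two_ne_zero
    · rw [h]
  have h3 : 1 ≤ q := by
    rcases hq with h | h
    · rw [h]
      exact Nat.one_le_pow _ _ hpp.pos
    · rw [h]
      exact hpp.pos
  have h4 : p ∣ 1 := by
    have h5 := (Nat.dvd_sub h2 h1)
    rwa [Nat.sub_sub_self h3] at h5
  exact hpp.one_lt.ne' (Nat.dvd_one.1 h4)

end VPQ

open _root_.Pool.Agent.TWQ.VPQ in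
/-- VPQ -/
theorem t_VPQ : S_VPQ := by
  intro p q A B P P' V f hS
  obtain ⟨hI, -, hq⟩ | ⟨hG, -, hq⟩ := hS.2
  · obtain ⟨h1, h2, h3, h4, h5, h6, h7⟩ := t_VPGI p A B P V f hI
    refine ⟨h1, h2, h3, h4, h5, h6, ?_, fun ι R hGR i => ?_⟩
    · have h := h4 _ (nd_pred hI.pp (Or.inl hq))
      rwa [Int.cast_natCast] at h
    · have hK : Kr p V R i := h7 ι R hGR i
      exact ⟨hK.1, t_MUGI t_VPGI p A B P V f hI ι R hGR i, hK.2,
        fun m hm x0 y0 hQ x hx => last hI.cq hI.pp hK P P' m hm x0 y0 hQ x hx⟩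
  · obtain ⟨h1, h2, h3, h4, h5, h6, h7⟩ := t_VPG p A B P V f hG
    refine ⟨h1, h2, h3, h4, h5, h6, ?_, fun ι R hGR i => ?_⟩
    · have h := h4 _ (nd_pred hG.pp (Or.inr hq))
      rwa [Int.cast_natCast] at h
    · have hK : Kr p V R i := h7 ι R hGR i
      exact ⟨hK.1, t_MUG t_VPG p A B P V f hG ι R hGR i, hK.2,
        fun m hm x0 y0 hQ x hx => last hG.cq hG.pp hK P P' m hm x0 y0 hQ x hx⟩

end

end Pool.Agent.TWQ


end

section

/-!
# TWQ, block C', DLCQ: the sum of the logarithmic derivatives over all classes is small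
-/

set_option autoImplicit false

open WeierstrassCurve Polynomial NumberField IsDedekindDomain

namespace Pool.Agent.TWQ

open _root_.MU3 Pool.Agent.MU3A Pool.Agent.MU3B Pool.Agent.MU3C Pool.Agent.RI Pool.Agent.RID
open Pool.Agent.MUX Pool.Agent.MUXU Pool.Agent.MUXW Pool.Agent.TWT Pool.Agent.TWI
open Pool.Agent.MU3V (cls Sub GD algDF)
open Pool.Agent.MUXV (GR InK tX inK_nat)
open Pool.Agent.MUXI (IA RE AR)

noncomputable section

namespace DLCQ

variable {A B : ℤ}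

/-! ## The level -/

theorem three_le {f m : ℕ} (cq : CQ A B) (hD : 2 * absD A B ∣ (f : ℤ)) (hm : m ≠ 0)
    (hfm : f ∣ m) : 3 ≤ m := by
  have h0 : 0 < absD A B := absD_pos cq
  have h1 : (2 * absD A B) ∣ (m : ℤ) := hD.trans (by exact_mod_cast hfm)
  have h2 : absD A B ≠ 1 := by
    intro h
    unfold absD at h
    have h3 : B * B + 4 * A = -1 := by linarith
    have h4 : B * B % 4 = 0 ∨ B * B % 4 = 1 := by
      rcases Int.even_or_odd' B with ⟨k, hk | hk⟩ <;> subst hk <;> ring_nf <;> omega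
    omega
  have h5 : 2 * absD A B ≤ m := Int.le_of_dvd (by exact_mod_cast Nat.pos_of_ne_zero hm) h1
  omega

theorem not_inEn {p f m : ℕ} {V : ValuationSubring ℂ} {ι : Type} {R : Reps A B (p * f) ι}
    (cq : CQ A B) (pp : p ≠ 0) {i : ι} (hG : GRn V (R.L i))
    (hV : ∀ (m : ℕ) (z : ℂ), ¬ p ∣ m → (m : ℂ) * z ∈ (R.L i).lattice → InEn V (R.L i) z →
      z ∈ (R.L i).lattice) (hm : LvM p f m R) {y : OO A B}
    (hy : IsCoprime y ((m : ℕ) : OO A B)) {k : ℕ} (hk : ¬ m ∣ k) :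
    ¬ InEn V (R.L i) (k * pt R (m * p) i y) := by
  intro h
  obtain ⟨W, ξ, hW⟩ := hG
  have h1 : InEn V (R.L i) ((p : ℕ) * (k * pt R (m * p) i y)) := inK_nat hW h p
  have hp0 : (p : ℂ) ≠ 0 := by exact_mod_cast pp
  have hm0 : (m : ℂ) ≠ 0 := by exact_mod_cast hm.m0
  have h2 : ((p : ℕ) : ℂ) * (k * pt R (m * p) i y) = R.om i * nI (R.b i) * (k * emb y) / m := by
    unfold pt
    push_cast
    field_simp
  rw [h2] at h1
  have hL := (R.nl i).toIsLI
  have h3 : (m : ℂ) * (R.om i * nI (R.b i) * (k * emb y) / m) ∈ (R.L i).lattice := by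
    refine (hL.mem _).2 ⟨((nI (R.b i) : ℕ) : OO A B) * (((k : ℕ) : OO A B) * y),
      Ideal.mul_mem_right _ _ (nI_mem cq hL.b_ne), ?_⟩
    rw [emb_mul cq, emb_mul cq, emb_natCast cq, emb_natCast cq]
    field_simp
  have h4 := hV m _ hm.pm h3 h1
  obtain ⟨b, _, hb⟩ := (hL.mem _).1 h4
  rw [div_eq_iff hm0, mul_assoc, mul_assoc] at hb
  have h5 := mul_left_cancel₀ hL.om_ne hb
  have h6 : ((nI (R.b i) : ℕ) : OO A B) * (((k : ℕ) : OO A B) * y) = b * ((m : ℕ) : OO A B) := by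
    apply emb_inj cq
    rw [emb_mul cq, emb_mul cq, emb_natCast cq, emb_natCast cq, emb_mul cq, emb_natCast cq]
    exact h5
  have h7 : ((m : ℕ) : OO A B) ∣ ((nI (R.b i) : ℕ) : OO A B) * (((k : ℕ) : OO A B) * y) :=
    ⟨b, by rw [h6, mul_comm]⟩
  have h8 : IsCoprime ((m : ℕ) : OO A B) ((nI (R.b i) : ℕ) : OO A B) := by
    have h9 : (nI (R.b i)).Coprime m := Nat.Coprime.coprime_mul_right_right (hm.cop i)
    have h10 := (Nat.isCoprime_iff_coprime.2 h9).symm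
    have h11 := h10.map (Int.castRingHom (OO A B))
    simpa using h11
  have h12 := h8.dvd_of_dvd_mul_left h7
  have h13 : ((m : ℕ) : OO A B) ∣ ((k : ℕ) : OO A B) := hy.symm.dvd_of_dvd_mul_right h12
  exact hk (XPC.nat_idl (A := A) (B := B) (Ideal.mem_span_singleton.2 h13))

theorem pt_low {n : ℕ} {ι : Type} (cq : CQ A B) (R : Reps A B n ι) {m p : ℕ} (hm : m ≠ 0)
    (i : ι) (y : OO A B) : pt R (m * p) i (((m : ℕ) : OO A B) * y) = pt R p i y := by
  have hm' : (m : ℂ) ≠ 0 := by exact_mod_cast hm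
  unfold pt
  rw [emb_mul cq, emb_natCast cq]
  push_cast
  rcases eq_or_ne (p : ℂ) 0 with hp | hp
  · rw [hp]; simp
  · field_simp

theorem mem_idl {m p : ℕ} {P P' : Ideal (OO A B)} (hPP : P * P' = idl p) {x : OO A B}
    (hx : x ∈ idl (A := A) (B := B) (m * p)) : x ∈ (idl m : Ideal (OO A B)) * P' := by
  obtain ⟨t, rfl⟩ := Ideal.mem_span_singleton.1 hx
  have h1 : ((m * p : ℕ) : OO A B) * t = ((m : ℕ) : OO A B) * (((p : ℕ) : OO A B) * t) := by
    push_cast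
    ring
  rw [h1]
  have h2 : ((p : ℕ) : OO A B) * t ∈ idl (A := A) (B := B) p :=
    Ideal.mem_span_singleton.2 (dvd_mul_right _ _)
  rw [← hPP] at h2
  have h3 : ((p : ℕ) : OO A B) * t ∈ P' := (Ideal.mul_le_right : P * P' ≤ P') h2
  exact Ideal.mul_mem_mul (Ideal.mem_span_singleton_self _) h3

/-! ## Sums -/

theorem sumMod_eq {m : OO A B} [Fintype (OO A B ⧸ Ideal.span {m})] (F : OO A B → ℂ) :
    sumMod m F = ∑ q : OO A B ⧸ Ideal.span {m}, F (Quotient.out q) := by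
  unfold sumMod
  exact finsum_eq_sum_of_fintype _

theorem sumMod_add {m : OO A B} (t : OO A B) {F : OO A B → ℂ}
    (hF : ∀ x y, x - y ∈ Ideal.span {m} → F x = F y) :
    sumMod m (fun x => F (x + t)) = sumMod m F := by
  let e : (OO A B ⧸ Ideal.span {m}) ≃ (OO A B ⧸ Ideal.span {m}) :=
    Equiv.addRight (Ideal.Quotient.mk (Ideal.span {m}) t)
  unfold sumMod
  rw [← finsum_comp_equiv (f := fun q : OO A B ⧸ Ideal.span {m} => F (Quotient.out q)) e]
  refine finsum_congr fun q => ?_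
  refine hF _ _ ?_
  rw [← Ideal.Quotient.eq, map_add, Ideal.Quotient.mk_out]
  have h2 : Ideal.Quotient.mk (Ideal.span {m}) (Quotient.out (e q)) = e q :=
    Ideal.Quotient.mk_out _
  rw [h2]
  rfl

theorem sumMod_sum {m : OO A B} (hfin : Finite (OO A B ⧸ Ideal.span {m})) {κ : Type}
    (T : Finset κ) (F : κ → OO A B → ℂ) :
    sumMod m (fun x => ∑ c ∈ T, F c x) = ∑ c ∈ T, sumMod m (F c) := by
  have := Fintype.ofFinite (OO A B ⧸ Ideal.span {m})
  rw [sumMod_eq, Finset.sum_comm]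
  exact Finset.sum_congr rfl fun c _ => (sumMod_eq _).symm

theorem sumMod_lt {m : OO A B} (hfin : Finite (OO A B ⧸ Ideal.span {m}))
    (V : ValuationSubring ℂ) {F : OO A B → ℂ} (h : ∀ x, V.valuation (F x) < 1) :
    V.valuation (sumMod m F) < 1 := by
  have := Fintype.ofFinite (OO A B ⧸ Ideal.span {m})
  rw [sumMod_eq]
  exact V.valuation.map_sum_lt one_ne_zero fun q _ => h _

/-- the decomposition into cosets -/
theorem sumMod_cosets {m : OO A B} (hfin : Finite (OO A B ⧸ Ideal.span {m})) (P : Ideal (OO A B))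
    (hmP : m ∈ P) (T : Finset (OO A B)) (g : OO A B → OO A B)
    (hT : ∀ u, ∃! c, c ∈ T ∧ u - g c ∈ P) {F : OO A B → ℂ}
    (hF : ∀ x y, x - y ∈ Ideal.span {m} → F x = F y) :
    sumMod m F = sumMod m fun x => (open Classical in if x ∈ P then 1 else 0) *
      ∑ c ∈ T, F (x + g c) := by
  classical
  have hle : ∀ x, x ∈ Ideal.span {m} → x ∈ P := by
    intro x hx
    obtain ⟨t, rfl⟩ := Ideal.mem_span_singleton.1 hx
    exact P.mul_mem_right _ hmP
  have e1 : sumMod m F = sumMod m fun u => ∑ c ∈ T, (if u - g c ∈ P then 1 else 0) * F u := by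
    congr 1
    funext u
    obtain ⟨c, ⟨hc, hcu⟩, huniq⟩ := hT u
    rw [Finset.sum_eq_single_of_mem c hc]
    · rw [if_pos hcu, one_mul]
    · intro c' hc' hne
      rw [if_neg fun h => hne (huniq c' ⟨hc', h⟩), zero_mul]
  have e2 : ∀ c, sumMod m (fun u => (if u - g c ∈ P then (1 : ℂ) else 0) * F u) =
      sumMod m fun x => (if x ∈ P then (1 : ℂ) else 0) * F (x + g c) := by
    intro c
    have h1 : ∀ x y, x - y ∈ Ideal.span {m} →
        (if x - g c ∈ P then (1 : ℂ) else 0) * F x = (if y - g c ∈ P then 1 else 0) * F y := by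
      intro x y hxy
      rw [hF x y hxy]
      have h2 : x - g c ∈ P ↔ y - g c ∈ P := by
        have h3 : x - g c = (x - y) + (y - g c) := by ring
        rw [h3]
        exact P.add_mem_iff_right (hle _ hxy)
      by_cases h4 : x - g c ∈ P
      · rw [if_pos h4, if_pos (h2.1 h4)]
      · rw [if_neg h4, if_neg fun h5 => h4 (h2.2 h5)]
    rw [← sumMod_add (g c) h1]
    congr 1
    funext x
    rw [add_sub_cancel_right]
  rw [e1, sumMod_sum hfin]
  simp only [e2]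
  rw [← sumMod_sum hfin]
  congr 1
  funext x
  rw [Finset.mul_sum]

/-- one representative for every class -/
theorem reps {P : Ideal (OO A B)} [hP : P.IsPrime] {T : Finset (OO A B)} (hT : RepI P T)
    {s : OO A B} (hs : s ∉ P) :
    ∀ u : OO A B, ∃! c, c ∈ insert (0 : OO A B) T ∧ u - s * c ∈ P := by
  classical
  have hrep : ∀ x : OO A B, ∃ y ∈ insert (0 : OO A B) T, x - y ∈ P := by
    intro x
    by_cases hx : x ∈ P
    · exact ⟨0, Finset.mem_insert_self _ _, by rwa [sub_zero]⟩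
    · obtain ⟨y, hy, hxy⟩ := hT.surj x hx
      exact ⟨y, Finset.mem_insert_of_mem hy, hxy⟩
  have hinj : ∀ x ∈ insert (0 : OO A B) T, ∀ y ∈ insert (0 : OO A B) T, x - y ∈ P → x = y := by
    intro x hx y hy hxy
    rcases Finset.mem_insert.1 hx with rfl | hx'
    · rcases Finset.mem_insert.1 hy with rfl | hy'
      · rfl
      · rw [zero_sub, neg_mem_iff] at hxy
        exact absurd hxy (hT.nz y hy')
    · rcases Finset.mem_insert.1 hy with rfl | hy'
      · rw [sub_zero] at hxy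
        exact absurd hxy (hT.nz x hx')
      · exact hT.inj x hx' y hy' hxy
  choose ρ hρ hρP using hrep
  have hsur : Function.Surjective
      (fun c : {c // c ∈ insert (0 : OO A B) T} =>
        (⟨ρ (s * c.1), hρ _⟩ : {c // c ∈ insert (0 : OO A B) T})) := by
    refine Finite.surjective_of_injective ?_
    intro c c' h
    have h1 : ρ (s * c.1) = ρ (s * c'.1) := congrArg Subtype.val h
    have h2 : s * (c.1 - c'.1) ∈ P := by
      have h3 := P.sub_mem (hρP (s * c.1)) (hρP (s * c'.1))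
      rw [h1] at h3
      have h4 : s * (c.1 - c'.1) = s * c.1 - ρ (s * c'.1) - (s * c'.1 - ρ (s * c'.1)) := by ring
      rw [h4]
      exact h3
    exact Subtype.ext (hinj _ c.2 _ c'.2 ((hP.mem_or_mem h2).resolve_left hs))
  intro u
  obtain ⟨⟨c, hc⟩, hcu⟩ := hsur ⟨ρ u, hρ u⟩
  have h1 : ρ (s * c) = ρ u := congrArg Subtype.val hcu
  refine ⟨c, ⟨hc, ?_⟩, ?_⟩
  · have h3 := P.sub_mem (hρP u) (hρP (s * c))
    rw [h1] at h3
    have h4 : u - s * c = u - ρ u - (s * c - ρ u) := by ring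
    rw [h4]
    exact h3
  · rintro c' ⟨hc', hu'⟩
    have h3 := hρP (s * c)
    rw [h1] at h3
    have h5 : s * (c' - c) ∈ P := by
      have h6 : s * (c' - c) = (u - ρ u) - (u - s * c') - (s * c - ρ u) := by ring
      rw [h6]
      exact P.sub_mem (P.sub_mem (hρP u) hu') h3
    exact hinj _ hc' _ hc ((hP.mem_or_mem h5).resolve_left hs)

end DLCQ

open _root_.Pool.Agent.TWQ.DLCQ in
/-- (DLCQ) -/
theorem t_DLCQ (hNEAQ : S_NEAQ) (hIDQ : S_IDQ) (hVPQ : S_VPQ) : S_DLCQ := by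
  classical
  intro p q A B P P' V f hS ι _ R hG m hm y0 hy0' hy0 hK E hEper hEcop hEv a ha hac
  obtain ⟨⟨cq, pp, p5, pq, hP, -, f0, fp, fD, hPP, -⟩, hPZ, ⟨T, hT⟩, hTcard, -⟩ :=
    hIDQ p q A B P P' V f hS
  obtain ⟨vp, vp0, -, vn, -, -, -, hR⟩ := hVPQ p q A B P P' V f hS
  have hm3 : 3 ≤ m := three_le cq fD hm.m0 hm.fm
  have hM0 : m * p ≠ 0 := mul_ne_zero hm.m0 pp.ne_zero
  have hfin := SDE.finR (A := A) (B := B) (m * p) hM0
  have hpP : ((p : ℕ) : OO A B) ∈ P := by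
    have h := (hPZ (p : ℤ)).2 dvd_rfl
    simpa using h
  have hmP : ((m : ℕ) : OO A B) ∉ P := by
    intro h
    have h1 := (hPZ (m : ℤ)).1 (by simpa using h)
    exact hm.pm (by exact_mod_cast h1)
  have hs : ((m : ℕ) : OO A B) * y0 ∉ P := fun h =>
    (hP.mem_or_mem h).elim hmP hy0
  -- valuations
  have vq : V.valuation (q : ℂ) < 1 := by
    rcases hS.2 with ⟨-, -, rfl⟩ | ⟨-, -, rfl⟩
    · rw [Nat.cast_pow, map_pow]
      exact pow_lt_one₀ zero_le vp two_ne_zero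
    · exact vp
  have hpa : ¬ (p : ℤ) ∣ (a : ℤ) := by
    intro h
    have h1 : p ∣ a := by exact_mod_cast h
    have h2 : p ∣ 1 := by
      rw [← (Nat.Coprime.coprime_mul_left_right hac).gcd_eq_one]
      exact Nat.dvd_gcd h1 dvd_rfl
    exact pp.one_lt.ne' (Nat.dvd_one.1 h2)
  have va : V.valuation (a : ℂ) = 1 := by
    have h := vn (a : ℤ) hpa
    simpa using h
  have ha2 : a.Coprime 2 :=
    Nat.Coprime.coprime_mul_right_right (Nat.Coprime.coprime_mul_right_right hac)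
  have ham : a.Coprime m :=
    Nat.Coprime.coprime_mul_left_right (Nat.Coprime.coprime_mul_right_right hac)
  have hm1 : ¬ m ∣ 1 := fun h => by
    have := Nat.le_of_dvd one_pos h
    omega
  have hma : ¬ m ∣ a := fun h => hm1 (by
    rw [← ham.gcd_eq_one]
    exact Nat.dvd_gcd h dvd_rfl)
  -- one lattice
  have key : ∀ i, V.valuation (sumMod ((m * p : ℕ) : OO A B)
      fun x => E i x * dlX (R.L i) a (pt R (m * p) i x)) < 1 := by
    intro i
    obtain ⟨hGR, -, hV, -⟩ := hR ι R hG i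
    obtain ⟨ptp1, -⟩ := Pool.Agent.MUXI.ti_PTP A B cq (p * f) ι R (m * p) hM0 i
    have hle : ∀ x : OO A B, x ∈ idl (A := A) (B := B) (m * p) →
        x ∈ (idl m : Ideal (OO A B)) * P' := fun x hx => mem_idl hPP hx
    have hFper : ∀ x y : OO A B, x - y ∈ Ideal.span {((m * p : ℕ) : OO A B)} →
        E i x * dlX (R.L i) a (pt R (m * p) i x) = E i y * dlX (R.L i) a (pt R (m * p) i y) := by
      intro x y hxy
      rw [hEper i x y (hle _ hxy), (ptp1 x y hxy).2.2 a]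
    have hMP : ((m * p : ℕ) : OO A B) ∈ P := by
      rw [Nat.cast_mul]
      exact P.mul_mem_left _ hpP
    rw [sumMod_cosets hfin P hMP (insert 0 T) (fun c => ((m : ℕ) : OO A B) * y0 * c)
      (reps hT hs) hFper]
    refine sumMod_lt hfin V fun x => ?_
    have hper : ∀ c : OO A B, E i (x + ((m : ℕ) : OO A B) * y0 * c) = E i x := by
      intro c
      refine hEper i _ _ ?_
      have h1 : x + ((m : ℕ) : OO A B) * y0 * c - x = ((m : ℕ) : OO A B) * (y0 * c) := by ring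
      rw [h1]
      exact Ideal.mul_mem_mul (Ideal.mem_span_singleton_self _) (P'.mul_mem_right _ hy0')
    have hmain : V.valuation (∑ c ∈ insert (0 : OO A B) T,
        E i (x + ((m : ℕ) : OO A B) * y0 * c) * dlX (R.L i) a
          (pt R (m * p) i (x + ((m : ℕ) : OO A B) * y0 * c))) < 1 := by
      by_cases hE : E i x = 0
      · rw [Finset.sum_eq_zero fun c _ => by rw [hper, hE, zero_mul], map_zero]
        exact zero_lt_one
      · have hcop := hEcop i x hE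
        have hz1 : ¬ InEn V (R.L i) (pt R (m * p) i x) := by
          have h := not_inEn cq pp.ne_zero hGR hV hm (i := i) hcop hm1
          rwa [Nat.cast_one, one_mul] at h
        have hza : ¬ InEn V (R.L i) (a * pt R (m * p) i x) :=
          not_inEn cq pp.ne_zero hGR hV hm (i := i) hcop hma
        have hpt : ∀ c : OO A B, pt R (m * p) i (x + ((m : ℕ) : OO A B) * y0 * c) =
            pt R (m * p) i x + pt R p i (c * y0) := by
          intro c
          rw [XPC.pt_add' cq, mul_assoc, pt_low cq R hm.m0, mul_comm y0 c]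
        have hr : ∀ c ∈ insert (0 : OO A B) T, InEn V (R.L i) (pt R p i (c * y0)) := by
          intro c hc
          rcases Finset.mem_insert.1 hc with rfl | hc
          · left
            have h0 : pt R p i ((0 : OO A B) * y0) = 0 := by
              rw [zero_mul]
              unfold pt
              rw [emb_zero cq]
              simp
            rw [h0]
            exact (R.L i).lattice.zero_mem
          · exact hK i c (hT.nz c hc)
        have hnea := fun c (hc : c ∈ insert (0 : OO A B) T) =>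
          hNEAQ V (R.L i) hGR a ha ha2 va (pt R (m * p) i x) (pt R p i (c * y0)) hz1 hza (hr c hc)
        have hcard : (insert (0 : OO A B) T).card = q := by
          have h0 : (0 : OO A B) ∉ T := fun h => hT.nz 0 h P.zero_mem
          rw [Finset.card_insert_of_notMem h0, hTcard T hT]
          have := pp.one_lt
          omega
        have hsum : ∑ c ∈ insert (0 : OO A B) T,
            E i (x + ((m : ℕ) : OO A B) * y0 * c) * dlX (R.L i) a
              (pt R (m * p) i (x + ((m : ℕ) : OO A B) * y0 * c)) =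
            E i x * ((q : ℂ) * dlX (R.L i) a (pt R (m * p) i x) +
              ∑ c ∈ insert (0 : OO A B) T,
                (dlX (R.L i) a (pt R (m * p) i x + pt R p i (c * y0)) -
                  dlX (R.L i) a (pt R (m * p) i x))) := by
          rw [Finset.sum_sub_distrib, Finset.sum_const, hcard, nsmul_eq_mul, add_sub_cancel,
            Finset.mul_sum]
          exact Finset.sum_congr rfl fun c _ => by rw [hper, hpt]
        rw [hsum, map_mul]
        have h1 : V.valuation ((q : ℂ) * dlX (R.L i) a (pt R (m * p) i x) +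
            ∑ c ∈ insert (0 : OO A B) T,
              (dlX (R.L i) a (pt R (m * p) i x + pt R p i (c * y0)) -
                dlX (R.L i) a (pt R (m * p) i x))) < 1 := by
          refine V.valuation.map_add_lt ?_ ?_
          · rw [map_mul]
            exact lt_of_le_of_lt (mul_le_of_le_one_right' (hnea 0 (Finset.mem_insert_self _ _)).1) vq
          · exact V.valuation.map_sum_lt one_ne_zero fun c hc => (hnea c hc).2
        exact lt_of_le_of_lt (mul_le_of_le_one_left' (hEv i x)) h1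
    by_cases hx : x ∈ P
    · simp only [if_pos hx, one_mul]
      exact hmain
    · simp only [if_neg hx, zero_mul, map_zero]
      exact zero_lt_one
  unfold DAll
  refine V.valuation.map_sum_lt one_ne_zero fun i _ => ?_
  rw [map_mul, (hR ι R hG i).2.1, one_mul]
  exact key i

end

end Pool.Agent.TWQ


end

section

/-!
# TWQ, module FAQ (helper39): the factor at `a` is a unit
-/

set_option autoImplicit false

open WeierstrassCurve Polynomial NumberField IsDedekindDomain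

namespace Pool.Agent.TWQ

open _root_.MU3 Pool.Agent.MU3 Pool.Agent.MU3A Pool.Agent.MU3B Pool.Agent.MU3C Pool.Agent.RI
  Pool.Agent.RID
open Pool.Agent.MUX Pool.Agent.MUXU Pool.Agent.MUXW Pool.Agent.TWT Pool.Agent.TWI
open Pool.Agent.MU3V (cls Sub GD algDF)
open Pool.Agent.MUXV (GR InK tX)
open OnePoint

noncomputable section

namespace FAQ

variable {p q : ℕ} {A B : ℤ} {P P' : Ideal (OO A B)} {V : ValuationSubring ℂ} {f : ℕ}

theorem star_nat (a : ℕ) : star ((a : ℕ) : OO A B) = (a : OO A B) := by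
  ext <;> simp

theorem v_p_lt (hS : SetQ p q A B P P' V f) : V.valuation (p : ℂ) < 1 := by
  rcases hS.2 with ⟨h, -, -⟩ | ⟨h, -, -⟩
  · exact UNITI.v_p_lt h
  · exact UNITA.v_p_lt h

theorem not_dvd (hS : SetQ p q A B P P' V f) (hp : p.Prime) : ¬ p ∣ q - 1 := by
  have hq : p ∣ q ∧ 1 ≤ q := by
    rcases hS.2 with ⟨-, -, rfl⟩ | ⟨-, -, rfl⟩
    · exact ⟨dvd_pow_self p (by norm_num), Nat.one_le_iff_ne_zero.2 (pow_ne_zero 2 hp.ne_zero)⟩
    · exact ⟨dvd_rfl, hp.one_le⟩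
  intro h
  have h1 : p ∣ 1 := by
    have h2 : 1 = q - (q - 1) := by omega
    rw [h2]
    exact Nat.dvd_sub hq.1 h
  exact hp.one_lt.ne' (Nat.dvd_one.1 h1)

theorem th0 {n : ℕ} {ι : Type} {R : Reps A B n ι} {kp : ι → ℂ} {eta : OO A B → ℂ} {e b : ℕ}
    (hC : ChQ p q f P P' R kp eta e b) {r : ℕ} (ψ : DirichletCharacter ℂ r)
    (x : OO A B) (m : ℤ) (hm : nm x = m) :
    thT R kp eta ψ R.i0 x = eta x * ψ (m : ZMod r) := by
  unfold thT
  rw [hC.kp0, R.b0, UNITA.nI_top, hm]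
  push_cast
  rw [one_mul, mul_one]

end FAQ

open _root_.Pool.Agent.TWQ.FAQ in
theorem t_FAQ (hIDQ : S_IDQ) (hTEQ : S_TEQ) : S_FAQ := by
  intro p q A B P P' V f hS n ι R w hw kp eta e b hC l hl hpl1 hlf a ha1 hac
  obtain ⟨⟨hcq, hpp, hp5, -, hPp, -, hf0, hpf, -, -, -⟩, hcP, -, -, -, -, -⟩ :=
    hIDQ p q A B P P' V f hS
  obtain ⟨-, -, -, -, hroot, -, -, -⟩ := hTEQ p q A B P P' V f hS w hw
  obtain ⟨r, hr, -, hη⟩ := hC.fin
  have hv := v_p_lt hS
  have hpl : p ≠ l := fun h => hpf (h ▸ hlf)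
  have haf : a.Coprime f := Nat.Coprime.coprime_dvd_right ⟨6 * p, by ring⟩ hac
  have hap : a.Coprime p := Nat.Coprime.coprime_dvd_right ⟨6 * f, by ring⟩ hac
  have hal : a.Coprime l := Nat.Coprime.coprime_dvd_right hlf haf
  have hla : ¬ (l : ℤ) ∣ (a : ℤ) := by
    intro h
    have h1 : l ∣ a := by exact_mod_cast h
    have h2 := Nat.dvd_gcd h1 (dvd_refl l)
    rw [hal] at h2
    exact hl.one_lt.ne' (Nat.dvd_one.1 h2)
  have hpa : ¬ (p : ℤ) ∣ (a : ℤ) := by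
    intro h
    have h1 : p ∣ a := by exact_mod_cast h
    have h2 := Nat.dvd_gcd h1 (dvd_refl p)
    rw [hap] at h2
    exact hpp.one_lt.ne' (Nat.dvd_one.1 h2)
  have ha2 : (a : ℤ) ^ 2 ≠ 1 := by
    intro h
    have h1 : (1 : ℤ) < a := by exact_mod_cast ha1
    nlinarith
  have hr' : ¬ p ∣ r * (q - 1) := fun h =>
    (hpp.dvd_mul.1 h).elim hr (not_dvd hS hpp)
  obtain ⟨M₀, hM⟩ := Pool.Agent.TWX.t_FAC V p hpp hv l hl hpl hpl1 (r * (q - 1)) hr' a hla ha2
  refine ⟨M₀, fun M hM0 ψ hψ => ?_⟩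
  have hcop : IsCoprime (sp ((a : ℕ) : OO A B)) (idl f : Ideal (OO A B)) := by
    rw [Ideal.isCoprime_span_singleton_iff]
    exact (Nat.isCoprime_iff_coprime.2 haf).map (Int.castRingHom (OO A B)) |> fun h => by
      simpa using h
  have haP : ((a : ℕ) : OO A B) ∉ P := by
    intro h
    exact hpa ((hcP (a : ℤ)).1 (by simpa using h))
  have hwa := (hroot _ haP).1
  have hea := hη ((a : ℕ) : OO A B) ((hC.supp _).2 hcop)
  -- the root of unity
  set ξ : ℂ := eta ((a : ℕ) : OO A B) * w ((a : ℕ) : OO A B) ^ (e - 1 + b) with hξ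
  have hξ1 : ξ ^ (r * (q - 1)) = 1 := by
    rw [hξ, mul_pow, pow_mul, hea, one_pow, one_mul, ← pow_mul,
      show (e - 1 + b) * (r * (q - 1)) = (q - 1) * ((e - 1 + b) * r) by ring, pow_mul, hwa,
      one_pow]
  -- an inverse of `a²` modulo `p`
  obtain ⟨b', c, hbc⟩ : ∃ b c : ℤ, (a : ℤ) ^ 2 * b = 1 + p * c := by
    have h1 : IsCoprime ((a : ℤ) ^ 2) (p : ℤ) := (Nat.isCoprime_iff_coprime.2 hap).pow_left
    obtain ⟨u, v, huv⟩ := h1
    exact ⟨u, -v, by linear_combination huv⟩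
  have hpb : ¬ (p : ℤ) ∣ b' := by
    intro h
    have h1 : (p : ℤ) ∣ 1 := by
      have h2 : (1 : ℤ) = (a : ℤ) ^ 2 * b' - p * c := by rw [hbc]; ring
      rw [h2]
      exact dvd_sub (h.mul_left _) (Dvd.intro _ rfl)
    have h3 : p ∣ 1 := by exact_mod_cast h1
    exact hpp.one_lt.ne' (Nat.dvd_one.1 h3)
  have h1 := hM M hM0 ψ hψ ξ hξ1 b' hpb
  have hth : thQ R kp eta ψ w e b R.i0 ((a : ℕ) : OO A B) =
      ξ * ψ ((a : ℤ) : ZMod (l ^ M)) ^ 2 := by
    unfold thQ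
    rw [th0 hC ψ _ ((a : ℤ) ^ 2) (by
      have := nm_intCast (A := A) (B := B) (a : ℤ)
      simpa using this), star_nat, hξ, pow_add]
    push_cast
    rw [map_pow]
    ring
  rw [hth]
  set X : ℂ := ξ * ψ ((a : ℤ) : ZMod (l ^ M)) ^ 2 with hX
  have e1 : 1 - (a : ℂ) ^ 2 * X = -((a : ℂ) ^ 2 * (X - b')) + (1 - (a : ℂ) ^ 2 * b') := by ring
  have hint : ∀ z : ℤ, V.valuation (z : ℂ) ≤ 1 := fun z =>
    (V.valuation_le_one_iff _).2 (intCast_mem V z)
  have e2 : V.valuation (1 - (a : ℂ) ^ 2 * b') < 1 := by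
    have h2 : 1 - (a : ℂ) ^ 2 * b' = (p : ℂ) * ((-c : ℤ) : ℂ) := by
      have : ((a : ℂ) ^ 2 * b') = 1 + p * c := by exact_mod_cast hbc
      rw [this]
      push_cast
      ring
    rw [h2, map_mul]
    calc V.valuation (p : ℂ) * V.valuation ((-c : ℤ) : ℂ) ≤ V.valuation (p : ℂ) * 1 :=
          mul_le_mul' le_rfl (hint _)
      _ < 1 := by rw [mul_one]; exact hv
  have e3 : V.valuation ((a : ℂ) ^ 2) = 1 := by
    have h3 : V.valuation ((a : ℂ) ^ 2 * b') = 1 := by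
      have h4 : (a : ℂ) ^ 2 * b' = 1 - (1 - (a : ℂ) ^ 2 * b') := by ring
      rw [h4]
      exact Valuation.map_one_sub_of_lt V.valuation e2
    rw [map_mul] at h3
    have h5 : V.valuation ((a : ℂ) ^ 2) ≤ 1 := by
      have := hint ((a : ℤ) ^ 2)
      simpa using this
    refine le_antisymm h5 ?_
    by_contra h6
    rw [not_le] at h6
    have h7 : V.valuation ((a : ℂ) ^ 2) * V.valuation (b' : ℂ) < 1 :=
      calc V.valuation ((a : ℂ) ^ 2) * V.valuation (b' : ℂ) ≤ V.valuation ((a : ℂ) ^ 2) * 1 :=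
            mul_le_mul' le_rfl (hint b')
        _ < 1 := by rw [mul_one]; exact h6
    exact absurd h3 h7.ne
  have e4 : V.valuation (-((a : ℂ) ^ 2 * (X - b'))) = 1 := by
    rw [Valuation.map_neg, map_mul, e3, h1, one_mul]
  rw [e1, ← e4]
  exact Valuation.map_add_eq_of_lt_left V.valuation (e2.trans_eq e4.symm)

end

end Pool.Agent.TWQ


end

section

/-!
# TWQ, module REDQ (helper59): the unramified case, reduction to a field of level prime to `p`
-/

set_option autoImplicit false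

open WeierstrassCurve Polynomial NumberField IsDedekindDomain

namespace Pool.Agent.TWQ

open _root_.MU3 Pool.Agent.MU3 Pool.Agent.MU3A Pool.Agent.MU3B Pool.Agent.MU3C Pool.Agent.RI
  Pool.Agent.RID
open Pool.Agent.MUX Pool.Agent.MUXU Pool.Agent.MUXW Pool.Agent.TWT Pool.Agent.TWI
open Pool.Agent.TWT.CRB Pool.Agent.MUXW.Mem
open Pool.Agent.TWT.UNITA (nI_top)
open Pool.Agent.MU3V (cls Sub GD algDF)
open Pool.Agent.MUXV (GR InK tX)
open Pool.Agent.MUXI (IA RE AR)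
open OnePoint

noncomputable section

namespace REDQ

variable {p q : ℕ} {A B : ℤ} {P P' : Ideal (OO A B)} {V : ValuationSubring ℂ} {f : ℕ}

/-- the data of the level `M = f l^N p` -/
theorem lev (hIDQ : S_IDQ) (hS : SetQ p q A B P P' V f) {ι : Type} (R : Reps A B (p * f) ι)
    {l : ℕ} (N : ℕ) (hl : l.Prime) (hlf : l ∣ f) :
    f * l ^ N ≠ 0 ∧ ¬ p ∣ f * l ^ N ∧ f * l ^ N * p ≠ 0 ∧ 3 ≤ f * l ^ N ∧ 3 ≤ f * l ^ N * p ∧
      ∀ i, (nI (R.b i)).Coprime (f * l ^ N * p) := by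
  obtain ⟨⟨hcq, hp, hp5, hpq, hPp, hOv, hf0, hpf, hfD, -, -⟩, -⟩ := hIDQ p q A B P P' V f hS
  have hpl : ¬ p ∣ l := fun h1 => hpf (h1.trans hlf)
  have hm0 : f * l ^ N ≠ 0 := mul_ne_zero hf0 (pow_ne_zero _ hl.ne_zero)
  have hpm : ¬ p ∣ f * l ^ N := by
    intro h1
    rcases (hp.dvd_mul).1 h1 with h2 | h2
    · exact hpf h2
    · exact hpl (hp.dvd_of_dvd_pow h2)
  have hf3 : 3 ≤ f := by
    have h2 : 3 ≤ absD A B := by
      have h3 := hcq.neg
      unfold absD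
      rcases hcq.hB with h4 | h4 <;> rw [h4] at h3 ⊢ <;> omega
    have h5 : (0 : ℤ) < f := by omega
    have h6 := Int.le_of_dvd h5 hfD
    omega
  have hm3 : 3 ≤ f * l ^ N := hf3.trans (Nat.le_mul_of_pos_right f (pow_pos hl.pos N))
  refine ⟨hm0, hpm, mul_ne_zero hm0 hp.ne_zero, hm3,
    hm3.trans (Nat.le_mul_of_pos_right _ hp.pos), fun i => ?_⟩
  have h1 := R.cop i
  have h2 : (nI (R.b i)).Coprime p := Nat.Coprime.coprime_dvd_right (Dvd.intro _ rfl) h1
  have h3 : (nI (R.b i)).Coprime f := Nat.Coprime.coprime_dvd_right (Dvd.intro_left _ rfl) h1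
  have h4 : (nI (R.b i)).Coprime l := Nat.Coprime.coprime_dvd_right hlf h3
  exact Nat.Coprime.mul_right (Nat.Coprime.mul_right h3 (h4.pow_right N)) h2

theorem v_p_lt (hIDQ : S_IDQ) (hS : SetQ p q A B P P' V f) : V.valuation (p : ℂ) < 1 := by
  obtain ⟨⟨hcq, hp, hp5, hpq, hPp, hOv, hf0, hpf, hfD, -, -⟩, h2, -⟩ := hIDQ p q A B P P' V f hS
  have h0 : ((p : ℕ) : OO A B) ∈ P := by
    have := (h2 (p : ℤ)).2 dvd_rfl
    simpa using this
  have h1 := (hOv ((p : ℕ) : OO A B)).2 h0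
  rw [emb_natCast hcq] at h1
  exact (ValuationSubring.mem_nonunits_iff V).1 h1

/-- an element prime to `M p` is not in `P`, and its conjugate is not in `P` -/
theorem not_mem (hIDQ : S_IDQ) (hS : SetQ p q A B P P' V f) {m : ℕ} {x : OO A B}
    (hx : IsCoprime x ((m * p : ℕ) : OO A B)) : x ∉ P ∧ star x ∉ P := by
  obtain ⟨⟨hcq, hp, hp5, hpq, hPp, hOv, hf0, hpf, hfD, -, -⟩, h2, -⟩ := hIDQ p q A B P P' V f hS
  have h0 : ((m * p : ℕ) : OO A B) ∈ P := by
    have := (h2 ((m * p : ℕ) : ℤ)).2 (by push_cast; exact Dvd.intro_left _ rfl)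
    simpa using this
  obtain ⟨u, v, huv⟩ := hx
  constructor
  · intro h1
    apply hPp.ne_top
    rw [Ideal.eq_top_iff_one, ← huv]
    exact P.add_mem (P.mul_mem_left _ h1) (P.mul_mem_left _ h0)
  · intro h1
    apply hPp.ne_top
    have h3 := congrArg star huv
    rw [star_add, star_mul', star_mul', star_one, star_natCast] at h3
    rw [Ideal.eq_top_iff_one, ← h3]
    exact P.add_mem (P.mul_mem_left _ h1) (P.mul_mem_left _ h0)

/-- (a) the values are `thT` -/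
theorem val (hIDQ : S_IDQ) (hTEQ : S_TEQ) (hS : SetQ p q A B P P' V f) {ι : Type}
    (R : Reps A B (p * f) ι) {w : OO A B → ℂ} (hw : TeQ p q P V w) (kp : ι → ℂ)
    (eta : OO A B → ℂ) {b : ℕ} (hb : b = 0 ∨ b = q - 1) {r : ℕ} (ψ : DirichletCharacter ℂ r)
    {m : ℕ} {x : OO A B} (hx : IsCoprime x ((m * p : ℕ) : OO A B)) (i : ι) :
    thQ R kp eta ψ w 1 b i x = thT R kp eta ψ i x := by
  obtain ⟨-, -, -, -, w5, -⟩ := hTEQ p q A B P P' V f hS w hw
  have h1 := (w5 _ (not_mem hIDQ hS hx).2).1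
  unfold thQ
  rw [Nat.sub_self, pow_zero, mul_one]
  rcases hb with rfl | rfl
  · rw [pow_zero, mul_one]
  · rw [h1, mul_one]

/-- the value at `x ≡ 1` -/
theorem val_one {e b : ℕ} {ι : Type} (R : Reps A B (p * f) ι) {kp : ι → ℂ} {eta : OO A B → ℂ}
    (hC : ChQ p q f P P' R kp eta e b) {l N : ℕ}
    (ψ : DirichletCharacter ℂ (l ^ N)) {x : OO A B}
    (hx : x - 1 ∈ (idl (f * l ^ N) : Ideal (OO A B))) : thT R kp eta ψ R.i0 x = 1 := by
  have h1 : x - 1 ∈ (idl f : Ideal (OO A B)) := by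
    refine (Ideal.span_singleton_le_span_singleton.2 ?_ : (idl (f * l ^ N) : Ideal (OO A B)) ≤
      idl f) hx
    push_cast
    exact dvd_mul_right _ _
  have h2 : x - 1 ∈ (idl (l ^ N) : Ideal (OO A B)) := by
    refine (Ideal.span_singleton_le_span_singleton.2 ?_ : (idl (f * l ^ N) : Ideal (OO A B)) ≤
      idl (l ^ N)) hx
    push_cast
    exact dvd_mul_left _ _
  have h3 := THQ.nm_cong (l ^ N) x 1 h2
  unfold thT
  rw [hC.kp0, R.b0, nI_top, hC.per x 1 h1, hC.one, one_mul, one_mul]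
  push_cast
  rw [mul_one, h3, THQ.nm_one]
  push_cast
  exact map_one ψ

theorem thT_per {e b : ℕ} {ι : Type} (R : Reps A B (p * f) ι) {kp : ι → ℂ} {eta : OO A B → ℂ}
    (hC : ChQ p q f P P' R kp eta e b) {l N : ℕ}
    (ψ : DirichletCharacter ℂ (l ^ N)) {x y : OO A B}
    (hx : x - y ∈ (idl (f * l ^ N) : Ideal (OO A B))) (i : ι) :
    thT R kp eta ψ i x = thT R kp eta ψ i y := by
  have h1 : x - y ∈ (idl f : Ideal (OO A B)) := by
    refine (Ideal.span_singleton_le_span_singleton.2 ?_ : (idl (f * l ^ N) : Ideal (OO A B)) ≤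
      idl f) hx
    push_cast
    exact dvd_mul_right _ _
  have h2 : x - y ∈ (idl (l ^ N) : Ideal (OO A B)) := by
    refine (Ideal.span_singleton_le_span_singleton.2 ?_ : (idl (f * l ^ N) : Ideal (OO A B)) ≤
      idl (l ^ N)) hx
    push_cast
    exact dvd_mul_left _ _
  have h3 := THQ.nm_cong (l ^ N) x y h2
  unfold thT
  rw [hC.per x y h1]
  push_cast
  rw [h3]

/-- a lift of `x` which is prime to `m p` -/
theorem lift {m : ℕ} (hp : p.Prime) (hpm : ¬ p ∣ m) {x : OO A B}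
    (hx : IsCoprime x ((m : ℕ) : OO A B)) : ∃ x' : OO A B,
      x' - x ∈ (idl m : Ideal (OO A B)) ∧ IsCoprime x' ((m * p : ℕ) : OO A B) := by
  have h1 : IsCoprime ((m : ℕ) : ℤ) ((p : ℕ) : ℤ) :=
    Nat.isCoprime_iff_coprime.2 ((Nat.Prime.coprime_iff_not_dvd hp).2 hpm).symm
  obtain ⟨u, v, huv⟩ := h1
  have huv' : (u : OO A B) * ((m : ℕ) : OO A B) + (v : OO A B) * ((p : ℕ) : OO A B) = 1 := by
    have := congrArg (Int.cast : ℤ → OO A B) huv
    push_cast at this ⊢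
    exact this
  -- `x' = x v p + u m`
  refine ⟨x * ((v : OO A B) * ((p : ℕ) : OO A B)) + (u : OO A B) * ((m : ℕ) : OO A B), ?_, ?_⟩
  · rw [Ideal.mem_span_singleton]
    refine ⟨(u : OO A B) - x * u, ?_⟩
    linear_combination x * huv'
  · push_cast
    refine IsCoprime.mul_right ?_ ?_
    · obtain ⟨a, c, hac⟩ := hx
      refine ⟨a, c + a * (x * u - u), ?_⟩
      linear_combination hac + a * x * huv'
    · refine ⟨1, v - x * v, ?_⟩
      linear_combination huv'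

end REDQ

open _root_.Pool.Agent.TWQ.REDQ in
/-- (REDQ) -/
theorem t_REDQ (hIDQ : S_IDQ) (hTEQ : S_TEQ) (hTHQ : S_THQ) (hRGM : S_RGMQ) (hDS : S_DSQ) :
    S_REDQ := by
  intro p q _ A B P P' V f hS hT ι _ R w hw kp eta b hC hb l N hl hpl1 hlf ψ D _ _ h hs
  let _ := algC h
  intro hpD χ hχ hg
  have hp : p.Prime := Fact.out
  obtain ⟨hm0, hpm, hM0, hm3, hM3, hcop⟩ := lev hIDQ hS R N hl hlf
  have hcq := (hIDQ p q A B P P' V f hS).1.1
  haveI := charP_res V p (v_p_lt hIDQ hS)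
  set m : ℕ := f * l ^ N with hm
  have hfin := hT.fin _ (CRA.idl_ne (A := A) (B := B) hM0)
  have hgal := hT.gal _ (CRA.idl_ne (A := A) (B := B) hM0)
  have hcomm := hT.comm _ (CRA.idl_ne (A := A) (B := B) hM0)
  obtain ⟨q1, q2, -, -, -, q6⟩ := t_HTF A B hcq hT (p * f) ι R (m * p) hM3 hcop
  have MEM := ty_MEM A B _ hfin hgal hcomm D h hs 1 one_ne_zero
  obtain ⟨-, -, -, me1, me2⟩ := MEM
  obtain ⟨D₁, hfd, h₁, hD₁⟩ := hDS p A B _ hfin hgal hcomm D h hs (IsLocalRing.ResidueField V)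
    hpD χ
  let _ := algC h₁
  obtain ⟨hgal1, hle, hchar, χ₁, hχ₁, hdesc⟩ := hD₁
  have hs1 : Sub D₁ (RF (idl (m * p)) : IntermediateField (kk A B) ℂ) := fun x hx => hs x (hle hx)
  obtain ⟨-, -, -, mf1, mf2⟩ := ty_MEM A B _ hfin hgal hcomm D₁ h₁ hs1 1 one_ne_zero
  have THQ1 := hTHQ p q A B P P' V f hS ι R w hw kp eta 1 b hC l N hl hlf ψ
  -- values at automorphisms of `F`
  have hval : ∀ (σ : GalF A B (m * p)) (τ : D ≃ₐ[kk A B] D) (i : ι) (x : OO A B),
      Ext1 h τ σ → HitF R (m * p) _ σ i x → rsd V (thT R kp eta ψ i x) =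
        (((χ τ)⁻¹ : (IsLocalRing.ResidueField V)ˣ) : IsLocalRing.ResidueField V) := by
    intro σ τ i x hE hH
    rw [← hχ τ _ (q6 (m * p) dvd_rfl hM3 D h hs τ σ i x hE hH)]
    congr 1
    rw [← val hIDQ hTEQ hS R hw kp eta hb ψ hH.1 i]
    refine THQ1.1 i _ _ ?_
    rw [← Ideal.Quotient.eq]
    exact (Quotient.out_eq _).symm
  -- (b)
  have hb1 : ∀ (σ : GalF A B (m * p)) (τ : D ≃ₐ[kk A B] D), Ext1 h τ σ →
      (∀ y : (RF (idl (m * p)) : IntermediateField (kk A B) ℂ),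
        (y : ℂ) ∈ (RF (idl m) : IntermediateField (kk A B) ℂ) → σ y = y) → χ τ = 1 := by
    intro σ τ hE hσ
    obtain ⟨i, x, hH⟩ := q1 σ
    obtain ⟨hi, hx⟩ := hRGM A B hcq hT (p * f) ι R m (m * p) (Dvd.intro _ rfl) hM0 hm3 hcop σ hσ
      i x hH
    subst hi
    have h1 := hval σ τ R.i0 x hE hH
    have h2 : thT R kp eta ψ R.i0 x = 1 := by
      rcases hx with hx | hx
      · exact val_one R hC ψ hx
      · rw [← val hIDQ hTEQ hS R hw kp eta hb ψ hH.1 R.i0, ← THQ1.2.1,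
          val hIDQ hTEQ hS R hw kp eta hb ψ hH.1.neg_left R.i0]
        refine val_one R hC ψ ?_
        have h3 : -x - 1 = -(x + 1) := by ring
        rw [h3]
        exact Ideal.neg_mem_iff _ |>.2 hx
    rw [h2] at h1
    have h3 : rsd V (1 : ℂ) = 1 := by
      unfold rsd
      rw [dif_pos (one_mem V)]
      exact map_one (IsLocalRing.residue V)
    rw [h3] at h1
    have h4 : (χ τ)⁻¹ = 1 := Units.ext h1.symm
    exact inv_eq_one.1 h4
  -- `D₁ ≤ RF (idl m)`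
  have hsub1 : Sub D₁ (RF (idl m) : IntermediateField (kk A B) ℂ) := by
    intro y hy
    have hyF := hs1 y hy
    have hR : kk A B ≤ IntermediateField.restrictScalars ℚ
        (RF (idl m) : IntermediateField (kk A B) ℂ) := fun z hz =>
      (RF (idl m) : IntermediateField (kk A B) ℂ).algebraMap_mem ⟨z, hz⟩
    refine mem_D hR (⟨y, hyF⟩ : (RF (idl (m * p)) : IntermediateField (kk A B) ℂ)) ?_
    intro σ hσ
    obtain ⟨τ, hτ⟩ := me2 σ
    refine (hchar ⟨y, hyF⟩).1 hy σ τ hτ (hb1 σ τ hτ fun z hz => ?_)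
    exact hσ (z : ℂ) hz z.2
  refine ⟨D₁, hfd, h₁, hsub1, χ₁, ?_, ?_, ?_⟩
  · -- (c)
    intro τ₁ r hr
    obtain ⟨i, xb⟩ := r
    have hcop' : ∀ i, (nI (R.b i)).Coprime m := fun i =>
      Nat.Coprime.coprime_dvd_right (Dvd.intro _ rfl) (hcop i)
    have hx : IsCoprime (Quotient.out xb : OO A B) ((m : ℕ) : OO A B) := hr.1
    obtain ⟨x', hx'1, hx'2⟩ := lift hp hpm hx
    obtain ⟨σ, hσ⟩ := q2 i x' hx'2
    obtain ⟨τ, hτ⟩ := me2 σ
    obtain ⟨τ₁', hτ₁'⟩ := mf2 σ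
    have h1 := q6 m (Dvd.intro _ rfl) hm3 D₁ h₁ hsub1 τ₁' σ i x' hτ₁' hσ
    have h2 : Ideal.Quotient.mk (idl (A := A) (B := B) m) x' = xb := by
      have h3 : Ideal.Quotient.mk (idl (A := A) (B := B) m) x' =
          Ideal.Quotient.mk (idl (A := A) (B := B) m) (Quotient.out xb) :=
        Ideal.Quotient.eq.2 hx'1
      rw [h3]
      exact Quotient.out_eq xb
    rw [h2] at h1
    have h4 := ((Pool.Agent.TWT.j_XXF A B hcq hT (p * f) ι R m (by omega) hcop' D₁ h₁ hsub1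
      hgal1).2 (i, xb) hx).2 τ₁' τ₁ h1 hr
    rw [← h4, ← hχ₁ σ τ τ₁' hτ hτ₁', ← hval σ τ i x' hτ hσ]
    congr 1
    exact (thT_per R hC ψ hx'1 i).symm
  · -- (d)
    obtain ⟨g, hg1, hg2⟩ := hg
    obtain ⟨σ, hσ⟩ := me1 g
    obtain ⟨g₁, hg₁⟩ := mf2 σ
    refine ⟨g₁, fun x hx => ?_, ?_⟩
    · apply Subtype.ext
      have e1 := hg₁ x (hs1 x x.2)
      have e2 := hσ ⟨(x : ℂ), hle x.2⟩ (hs1 x x.2)
      rw [← e1]
      have e3 := congrArg (Subtype.val : D → ℂ) (hg1 ⟨(x : ℂ), hle x.2⟩ hx)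
      exact e2.trans e3
    · rw [← hχ₁ σ g g₁ hσ hg₁]
      exact hg2
  · exact hdesc

end

end Pool.Agent.TWQ


end

section

/-!
# TWQ: the unit theorem, `K` ramified above `p` allowed (helper59)
-/

set_option autoImplicit false

open WeierstrassCurve Polynomial NumberField IsDedekindDomain

namespace Pool.Agent.TWQ

open _root_.MU3 Pool.Agent.MU3 Pool.Agent.MU3A Pool.Agent.MU3B Pool.Agent.MU3C Pool.Agent.RI
  Pool.Agent.RID
open Pool.Agent.MUX Pool.Agent.MUXU Pool.Agent.MUXW Pool.Agent.TWT Pool.Agent.TWI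
open Pool.Agent.TWT.CRB Pool.Agent.MUXW.Mem
open Pool.Agent.TWT.UNITA (nI_top stab bound)
open Pool.Agent.MU3V (cls Sub GD algDF)
open Pool.Agent.MUXV (GR InK tX)
open Pool.Agent.MUXI (IA RE AR)
open OnePoint

noncomputable section

namespace UNQ

variable {p q : ℕ} {A B : ℤ} {P P' : Ideal (OO A B)} {V : ValuationSubring ℂ} {f : ℕ}

/-- the Teichmüller character exists -/
theorem exW (hS : SetQ p q A B P P' V f) : ∃ w : OO A B → ℂ, TeQ p q P V w := by
  rcases hS with ⟨-, ⟨hS, -, hq⟩ | ⟨hS, -, hq⟩⟩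
  · obtain ⟨w, hw⟩ := t_TEI2 p A B P V hS.cq hS.pp (by have := hS.p5; omega) hS.eP hS.hP hS.hV
    exact ⟨w, Or.inl ⟨hq, hw⟩⟩
  · obtain ⟨w, hw⟩ := Pool.Agent.TWB.t_TEI p A B P V hS.cq hS.pp (by have := hS.p5; omega) hS.hP
      hS.hV
    exact ⟨w, Or.inr ⟨hq, hw⟩⟩

open Pool.Agent.TWR in
/-- the ramified part at one valuation ring -/
theorem ram (hSYMQ : S_SYMQ) (hCRTQ : S_CRTQ) (hFACQ : S_FACQ) (hFAQ : S_FAQ)
    {l g h : ℕ} (hgen : Gen l g h) [Fact p.Prime] (hl : l.Prime) (hh : 1 ≤ h)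
    (hpl1 : ¬ p ∣ l - 1) (hS : SetQ p q A B P P' V f) (hlf : l ^ h ∣ f) (hT : TorX A B)
    {ι : Type} [Fintype ι] (R : Reps A B (p * f) ι) (hG : GRd V R)
    {w : OO A B → ℂ} (hw : TeQ p q P V w)
    (K : IntermediateField ℚ ℂ) [FiniteDimensional ℚ K] [FiniteDimensional ℚ (kk A B)]
    (hk : kk A B ≤ K) (hK : Sub K (RF (idl (f * p)) : IntermediateField (kk A B) ℂ))
    (Bn : ℕ → IntermediateField ℚ ℂ) [∀ n, FiniteDimensional ℚ ↥(K ⊔ Bn n)]
    (hLay : ∀ n, IsLayer l n (Bn n)) (hMon : Monotone Bn)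
    (hRF : ∀ n, Sub (K ⊔ Bn n)
      (RF (idl (f * l ^ (n + h) * p)) : IntermediateField (kk A B) ℂ))
    (a : ℕ) (ha1 : 1 < a) (hac : a.Coprime (6 * f * p)) (H : Finset ℂ)
    (hH : IsHalf (R.L R.i0) a H) :
    ∃ (J : Type) (_ : Finite J) (kp : J → ι → ℂ) (eta : J → OO A B → ℂ) (e b : J → ℕ) (n0 : ℕ),
      (∀ j, ChQ p q f P P' R (kp j) (eta j) (e j) (b j)) ∧
      ∀ (n : ℕ) (h0 : kk A B ≤ K ⊔ Bn (n + 1)), letI := algC h0
      ∀ χ : (↥(K ⊔ Bn (n + 1)) ≃ₐ[kk A B] ↥(K ⊔ Bn (n + 1))) →* (IsLocalRing.ResidueField V)ˣ,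
      (∃ g : ↥(K ⊔ Bn (n + 1)) ≃ₐ[kk A B] ↥(K ⊔ Bn (n + 1)),
        (∀ x : ↥(K ⊔ Bn (n + 1)), (x : ℂ) ∈ K ⊔ Bn n → g x = x) ∧ χ g ≠ 1) →
      ∃ (j : J) (ψ : DirichletCharacter ℂ (l ^ (n + 1 + h))), ψ (-1) = 1 ∧
        ψ (1 + (l : ZMod (l ^ (n + 1 + h))) ^ (n + 1 + h - 1)) ≠ 1 ∧
        (∀ (τ : ↥(K ⊔ Bn (n + 1)) ≃ₐ[kk A B] ↥(K ⊔ Bn (n + 1))),
        ∀ r ∈ XX R (f * l ^ (n + 1 + h) * p) h0 τ,
          rsd V (thQ R (kp j) (eta j) ψ w (e j) (b j) r.1 (Quotient.out r.2)) =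
            (((χ τ)⁻¹ : (IsLocalRing.ResidueField V)ˣ) : IsLocalRing.ResidueField V)) ∧
        (n0 ≤ n → 2 ≤ e j →
          ∀ (θ : (RF (idl (f * l ^ (n + 1 + h) * p)) : IntermediateField (kk A B) ℂ)),
          (θ : ℂ) = ThetaH (R.L R.i0) H (pt R (f * l ^ (n + 1 + h) * p) R.i0 1) →
          ∀ (c₀ : ↥(K ⊔ Bn (n + 1))), (c₀ : ℂ) = cW h0 θ →
          ∃ t : (IsLocalRing.ResidueField V) →+ ZMod p, ∀ y : ↥(K ⊔ Bn (n + 1)),
            y ^ p ≠ Pool.Agent.TWK.sE p χ t c₀) := by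
  have hlf' : l ∣ f := (dvd_pow_self l (by omega)).trans hlf
  obtain ⟨J, hJ, kp, eta, e, b, hCh, hId, hF⟩ := hFACQ l g h hgen p q A B P P' V f hS hlf hT ι R
    hG w hw K hk hK Bn hLay hMon
  obtain ⟨n1, hn1⟩ := hSYMQ l g h hgen p q A B P P' V f hS hlf' hT ι R hG w hw J kp eta e b hCh hId
  choose M1 hM1 using fun j => hFAQ p q A B P P' V f hS (p * f) ι R w hw (kp j) (eta j) (e j)
    (b j) (hCh j) l hl hpl1 hlf' a ha1 hac
  obtain ⟨b1, hb1⟩ := bound M1
  refine ⟨J, hJ, kp, eta, e, b, max n1 b1, hCh, fun n h0 => ?_⟩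
  let _ := algC h0
  intro χ hχ
  obtain ⟨j, ψ, hψ1, hψ2, hval⟩ := hF n h0 χ hχ
  refine ⟨j, ψ, hψ1, hψ2, hval, fun hn he θ hθ c₀ hc₀ => ?_⟩
  have hnn1 : n1 ≤ n := (le_max_left _ _).trans hn
  have hnb1 : b1 ≤ n := (le_max_right _ _).trans hn
  exact hCRTQ p q A B P P' V f hS hT ι R hG w hw (kp j) (eta j) (e j) (b j) (hCh j) he l
    (n + 1 + h) hl hpl1 hlf' ψ hψ1 a ha1 hac
    (hM1 j (n + 1 + h) (by have := hb1 j; omega) ψ hψ2) H hH θ hθ (K ⊔ Bn (n + 1)) h0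
    (hRF (n + 1)) χ hval c₀ hc₀ (hn1 (n + 1 + h) (by omega) j ψ hψ1 hψ2)

/-- the character without its part above `p` -/
theorem chD {ι : Type} {R : Reps A B (p * f) ι} {kp : ι → ℂ} {eta : OO A B → ℂ} {b : ℕ}
    (hb : Even b) (hC : ChQ p q f P P' R kp eta 1 b) : ChD p f R kp eta :=
  { one := hC.one
    mul := hC.mul
    per := hC.per
    supp := hC.supp
    neg := by
      rw [hC.neg, Nat.sub_self, zero_add]
      exact hb.neg_one_pow
    kp0 := hC.kp0
    fin := hC.fin }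

open Pool.Agent.TWR in
/-- the unramified part -/
theorem unr (hSYMA : S_SYMA) (hSYMI : S_SYMI) (hCRIT : S_CRIT) (hCRITI : S_CRITI)
    {l g h : ℕ} (hgen : Gen l g h) [Fact p.Prime] (hl : l.Prime) (hpl : p ≠ l)
    (hpl1 : ¬ p ∣ l - 1) (hS : SetQ p q A B P P' V f) (hlf : l ∣ f) (hT : TorX A B)
    {ι : Type} [Fintype ι] (R : Reps A B (p * f) ι) (hG : GRd V R)
    (a : ℕ) (ha1 : 1 < a) (hac : a.Coprime (6 * f * p)) (H : Finset ℂ)
    (hH : IsHalf (R.L R.i0) a H) (J : Type) [Finite J] (kp : J → ι → ℂ) (eta : J → OO A B → ℂ)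
    (hCh : ∀ j, ChD p f R (kp j) (eta j)) :
    ∃ n0 : ℕ, ∀ N, n0 ≤ N → ∀ j, ∀ ψ : DirichletCharacter ℂ (l ^ N), ψ (-1) = 1 →
      ψ (1 + (l : ZMod (l ^ N)) ^ (N - 1)) ≠ 1 →
      ∀ (θ : (RF (idl (f * l ^ N * p)) : IntermediateField (kk A B) ℂ)),
      (θ : ℂ) = ThetaH (R.L R.i0) H (pt R (f * l ^ N * p) R.i0 1) →
      ∀ (D : IntermediateField ℚ ℂ) [FiniteDimensional ℚ D] [FiniteDimensional ℚ (kk A B)]
        (h : kk A B ≤ D),
      Sub D (RF (idl (f * l ^ N)) : IntermediateField (kk A B) ℂ) → letI := algC h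
      ∀ (χ : (D ≃ₐ[kk A B] D) →* (IsLocalRing.ResidueField V)ˣ),
      (∀ (τ : D ≃ₐ[kk A B] D), ∀ q ∈ XX R (f * l ^ N) h τ,
        rsd V (thT R (kp j) (eta j) ψ q.1 (Quotient.out q.2)) =
          (((χ τ)⁻¹ : (IsLocalRing.ResidueField V)ˣ) : IsLocalRing.ResidueField V)) →
      (∃ g : D ≃ₐ[kk A B] D, (∀ x : D,
        (x : ℂ) ∈ (RF (⊤ : Ideal (OO A B)) : IntermediateField (kk A B) ℂ) → g x = x) ∧
          χ g ≠ 1) →
      ∀ c₀ : D, (c₀ : ℂ) = cW h θ →
      ∃ t : (IsLocalRing.ResidueField V) →+ ZMod p, ∀ y : D,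
        y ^ p ≠ Pool.Agent.TWK.sE p χ t c₀ := by
  rcases hS with ⟨-, ⟨hS, -, hq⟩ | ⟨hS, -, hq⟩⟩
  · obtain ⟨w, hw⟩ := t_TEI2 p A B P V hS.cq hS.pp (by have := hS.p5; omega) hS.eP hS.hP hS.hV
    obtain ⟨n1, hn1⟩ := hSYMI l g h hgen p A B P V f hS hlf hT ι R hG w hw J kp eta hCh
    choose M1 hM1 using fun j => UNITI.fac_a hS R (hCh j) l hl hpl hpl1 hlf a ha1 hac
    choose M2 hM2 using fun j => UNITI.fac_p hS R (hCh j) l hl hpl hpl1
    obtain ⟨b1, hb1⟩ := bound M1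
    obtain ⟨b2, hb2⟩ := bound M2
    refine ⟨max n1 (max b1 b2), fun N hN j ψ hψ1 hψ2 θ hθ D _ _ h hs => ?_⟩
    let _ := algC h
    intro χ hval hram c₀ hc₀
    have hnn1 : n1 ≤ N := (le_max_left _ _).trans hN
    have hnb1 : b1 ≤ N := ((le_max_left _ _).trans (le_max_right _ _)).trans hN
    have hnb2 : b2 ≤ N := ((le_max_right _ _).trans (le_max_right _ _)).trans hN
    exact hCRITI p A B P V f hS hT ι R hG w hw (kp j) (eta j) (hCh j) l N hl hlf ψ hψ1 a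
      ha1 hac (hM1 j N ((hb1 j).trans hnb1) ψ hψ2) (hM2 j N ((hb2 j).trans hnb2) ψ hψ2) H hH θ hθ
      D h hs χ hval hram c₀ hc₀ (hn1 N hnn1 j ψ hψ1 hψ2)
  · obtain ⟨w, hw⟩ := Pool.Agent.TWB.t_TEI p A B P V hS.cq hS.pp (by have := hS.p5; omega) hS.hP
      hS.hV
    obtain ⟨n1, hn1⟩ := hSYMA l g h hgen p A B P V f hS hlf hT ι R hG w hw J kp eta hCh
    obtain ⟨r, y, hr, hy, hny⟩ := UNITA.powP hS R
    choose M1 hM1 using fun j => UNITA.fac_a hS R (hCh j) l hl hpl hpl1 hlf a ha1 hac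
    choose M2 hM2 using fun j => UNITA.fac_P hS R (hCh j) l hl hpl hpl1 r y hr hy hny
    obtain ⟨b1, hb1⟩ := bound M1
    obtain ⟨b2, hb2⟩ := bound M2
    refine ⟨max n1 (max b1 b2), fun N hN j ψ hψ1 hψ2 θ hθ D _ _ h hs => ?_⟩
    let _ := algC h
    intro χ hval hram c₀ hc₀
    have hnn1 : n1 ≤ N := (le_max_left _ _).trans hN
    have hnb1 : b1 ≤ N := ((le_max_left _ _).trans (le_max_right _ _)).trans hN
    have hnb2 : b2 ≤ N := ((le_max_right _ _).trans (le_max_right _ _)).trans hN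
    exact hCRIT p A B P V f hS hT ι R hG w hw (kp j) (eta j) (hCh j) l N hl hlf ψ hψ1 a
      ha1 hac (hM1 j N ((hb1 j).trans hnb1) ψ hψ2)
      ⟨r, y, hy, hM2 j N ((hb2 j).trans hnb2) ψ hψ2⟩ H hH θ hθ
      D h hs χ hval hram c₀ hc₀ (hn1 N hnn1 j ψ hψ1 hψ2)

end UNQ

open Pool.Agent.TWR _root_.Pool.Agent.TWQ.UNQ in
/-- the unit theorem -/
theorem t_UNQV (hIDQ : S_IDQ) (hSYMQ : S_SYMQ) (hCRTQ : S_CRTQ) (hFACQ : S_FACQ) (hFAQ : S_FAQ)
    (hTRV : S_TRVQ) (hERQ : S_ERQ) (hREDQ : S_REDQ) (hSYMA : S_SYMA) (hSYMI : S_SYMI)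
    (hCRIT : S_CRIT) (hCRITI : S_CRITI) : S_UNQV := by
  intro l g h hgen p q _ A B P P' V V' f hS hlf hT ι _ R hG hV' K _ _ hk hcop hK Bn _ hLay hMon
    hRF a ha1 hac H hH
  have hl : l.Prime := by
    rcases hgen with ⟨rfl, -, -⟩ | ⟨rfl, -, -⟩
    · exact Nat.prime_three
    · exact Nat.prime_two
  haveI : Fact l.Prime := ⟨hl⟩
  have hh : 1 ≤ h := by
    rcases hgen with ⟨-, -, rfl⟩ | ⟨-, -, rfl⟩ <;> norm_num
  have hl1 : l - 1 = 1 ∨ l - 1 = 2 := by
    rcases hgen with ⟨rfl, -, -⟩ | ⟨rfl, -, -⟩ <;> norm_num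
  have hl3 : l ≤ 3 := by
    rcases hgen with ⟨rfl, -, -⟩ | ⟨rfl, -, -⟩ <;> norm_num
  obtain ⟨⟨hcq, hp, hp5, hpq, hPp, hOv, hf0, hpf, hfD, -, -⟩, i2, -⟩ := hIDQ p q A B P P' V f hS
  have hpl : p ≠ l := by omega
  have hpl1 : ¬ p ∣ l - 1 := by
    intro hd
    have := Nat.le_of_dvd (by omega) hd
    omega
  have hlf' : l ∣ f := (dvd_pow_self l (by omega)).trans hlf
  obtain ⟨w, hw⟩ := exW hS
  obtain ⟨J, hJ, kp, eta, e, b, n1, hCh, hF⟩ := ram hSYMQ hCRTQ hFACQ hFAQ hgen hl hh hpl1 hS hlf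
    hT R hG hw K hk hK Bn hLay hMon hRF a ha1 hac H hH
  obtain ⟨n2, hn2⟩ := stab hT K hk Bn hMon
  -- `q - 1` is even
  have hq1 : Even (q - 1) := by
    have hodd : Odd p := hp.odd_of_ne_two (by omega)
    rcases hS.2 with ⟨-, -, hq⟩ | ⟨-, -, hq⟩
    · rw [hq]
      exact Nat.Odd.sub_odd (hodd.pow) odd_one
    · rw [hq]
      exact Nat.Odd.sub_odd hodd odd_one
  -- the unramified characters
  have hq5 : 5 ≤ q := hp5.trans hpq
  obtain ⟨n3, hn3⟩ := unr hSYMA hSYMI hCRIT hCRITI hgen hl hpl hpl1 hS hlf' hT R hG a ha1 hac H hH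
    {j : J // e j = 1 ∧ (b j = 0 ∨ b j = q - 1)} (fun j => kp j.1) (fun j => eta j.1)
    (fun j => by
      have h1 := hCh j.1
      rw [j.2.1] at h1
      refine chD ?_ h1
      rcases j.2.2 with h2 | h2
      · rw [h2]
        exact Even.zero
      · rw [h2]
        exact hq1)
  have hdeg := (TWK.t_DEG2 p l hpl (kk A B) K K Bn hLay hMon hk le_rfl hcop).2.1
  -- the other valuation ring
  have hother : P' = ⊤ ∨ ∃ (w' : OO A B → ℂ) (J' : Type) (kp' : J' → ι → ℂ)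
      (eta' : J' → OO A B → ℂ) (e' b' : J' → ℕ) (n0 : ℕ), SetQ p q A B P' P V' f ∧
      TeQ p q P' V' w' ∧
      (∀ j, ChQ p q f P' P R (kp' j) (eta' j) (e' j) (b' j)) ∧
      ∀ (n : ℕ) (h0 : kk A B ≤ K ⊔ Bn (n + 1)), letI := algC h0
      ∀ χ : (↥(K ⊔ Bn (n + 1)) ≃ₐ[kk A B] ↥(K ⊔ Bn (n + 1))) →* (IsLocalRing.ResidueField V')ˣ,
      (∃ g : ↥(K ⊔ Bn (n + 1)) ≃ₐ[kk A B] ↥(K ⊔ Bn (n + 1)),
        (∀ x : ↥(K ⊔ Bn (n + 1)), (x : ℂ) ∈ K ⊔ Bn n → g x = x) ∧ χ g ≠ 1) →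
      ∃ (j : J') (ψ : DirichletCharacter ℂ (l ^ (n + 1 + h))), ψ (-1) = 1 ∧
        ψ (1 + (l : ZMod (l ^ (n + 1 + h))) ^ (n + 1 + h - 1)) ≠ 1 ∧
        (∀ (τ : ↥(K ⊔ Bn (n + 1)) ≃ₐ[kk A B] ↥(K ⊔ Bn (n + 1))),
        ∀ r ∈ XX R (f * l ^ (n + 1 + h) * p) h0 τ,
          rsd V' (thQ R (kp' j) (eta' j) ψ w' (e' j) (b' j) r.1 (Quotient.out r.2)) =
            (((χ τ)⁻¹ : (IsLocalRing.ResidueField V')ˣ) : IsLocalRing.ResidueField V')) ∧
        (n0 ≤ n → 2 ≤ e' j →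
          ∀ (θ : (RF (idl (f * l ^ (n + 1 + h) * p)) : IntermediateField (kk A B) ℂ)),
          (θ : ℂ) = ThetaH (R.L R.i0) H (pt R (f * l ^ (n + 1 + h) * p) R.i0 1) →
          ∀ (c₀ : ↥(K ⊔ Bn (n + 1))), (c₀ : ℂ) = cW h0 θ →
          ∃ t : (IsLocalRing.ResidueField V') →+ ZMod p, ∀ y : ↥(K ⊔ Bn (n + 1)),
            y ^ p ≠ Pool.Agent.TWK.sE p χ t c₀) := by
    rcases hV' with hV' | ⟨hS', hG'⟩
    · exact Or.inl hV'
    · right
      obtain ⟨w', hw'⟩ := exW hS'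
      obtain ⟨J', -, kp', eta', e', b', n0, hCh', hF'⟩ := ram hSYMQ hCRTQ hFACQ hFAQ hgen hl hh
        hpl1 hS' hlf hT R hG' hw' K hk hK Bn hLay hMon hRF a ha1 hac H hH
      exact ⟨w', J', kp', eta', e', b', n0, hS', hw', hCh', hF'⟩
  have hn4 : ∃ n4 : ℕ, P' = ⊤ ∨ ∃ (w' : OO A B → ℂ) (J' : Type) (kp' : J' → ι → ℂ)
      (eta' : J' → OO A B → ℂ) (e' b' : J' → ℕ), SetQ p q A B P' P V' f ∧
      TeQ p q P' V' w' ∧
      (∀ j, ChQ p q f P' P R (kp' j) (eta' j) (e' j) (b' j)) ∧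
      ∀ (n : ℕ) (h0 : kk A B ≤ K ⊔ Bn (n + 1)), letI := algC h0
      ∀ χ : (↥(K ⊔ Bn (n + 1)) ≃ₐ[kk A B] ↥(K ⊔ Bn (n + 1))) →* (IsLocalRing.ResidueField V')ˣ,
      (∃ g : ↥(K ⊔ Bn (n + 1)) ≃ₐ[kk A B] ↥(K ⊔ Bn (n + 1)),
        (∀ x : ↥(K ⊔ Bn (n + 1)), (x : ℂ) ∈ K ⊔ Bn n → g x = x) ∧ χ g ≠ 1) →
      ∃ (j : J') (ψ : DirichletCharacter ℂ (l ^ (n + 1 + h))), ψ (-1) = 1 ∧
        ψ (1 + (l : ZMod (l ^ (n + 1 + h))) ^ (n + 1 + h - 1)) ≠ 1 ∧
        (∀ (τ : ↥(K ⊔ Bn (n + 1)) ≃ₐ[kk A B] ↥(K ⊔ Bn (n + 1))),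
        ∀ r ∈ XX R (f * l ^ (n + 1 + h) * p) h0 τ,
          rsd V' (thQ R (kp' j) (eta' j) ψ w' (e' j) (b' j) r.1 (Quotient.out r.2)) =
            (((χ τ)⁻¹ : (IsLocalRing.ResidueField V')ˣ) : IsLocalRing.ResidueField V')) ∧
        (n4 ≤ n → 2 ≤ e' j →
          ∀ (θ : (RF (idl (f * l ^ (n + 1 + h) * p)) : IntermediateField (kk A B) ℂ)),
          (θ : ℂ) = ThetaH (R.L R.i0) H (pt R (f * l ^ (n + 1 + h) * p) R.i0 1) →
          ∀ (c₀ : ↥(K ⊔ Bn (n + 1))), (c₀ : ℂ) = cW h0 θ →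
          ∃ t : (IsLocalRing.ResidueField V') →+ ZMod p, ∀ y : ↥(K ⊔ Bn (n + 1)),
            y ^ p ≠ Pool.Agent.TWK.sE p χ t c₀) := by
    rcases hother with h1 | ⟨w', J', kp', eta', e', b', n0, h1⟩
    · exact ⟨0, Or.inl h1⟩
    · exact ⟨n0, Or.inr ⟨w', J', kp', eta', e', b', h1⟩⟩
  obtain ⟨n4, hn4⟩ := hn4
  refine ⟨max (max n1 n2) (max n3 n4), fun n hn θ hθ h0 => ?_⟩
  let _ := algC h0
  intro c₀ hc₀ χ hχ
  have hnn1 : n1 ≤ n := ((le_max_left _ _).trans (le_max_left _ _)).trans hn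
  have hnn2 : n2 ≤ n := ((le_max_right _ _).trans (le_max_left _ _)).trans hn
  have hnn3 : n3 ≤ n := ((le_max_left _ _).trans (le_max_right _ _)).trans hn
  have hnn4 : n4 ≤ n := ((le_max_right _ _).trans (le_max_right _ _)).trans hn
  obtain ⟨j, ψ, hψ1, hψ2, hval, hbig⟩ := hF n h0 χ hχ
  by_cases he : 2 ≤ e j
  · exact hbig hnn1 he θ hθ c₀ hc₀
  have he1 : e j = 1 := by
    have := (hCh j).e1
    omega
  have hC1 := hCh j
  rw [he1] at hC1 hval
  haveI hchar : CharP (IsLocalRing.ResidueField V) p := charP_res V p (REDQ.v_p_lt hIDQ hS)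
  obtain ⟨γ, hγ1, hγχ⟩ := hχ
  by_cases hbj : b j = 0 ∨ b j = q - 1
  · -- unramified above `p`
    obtain ⟨hm0, hpm, hM0, hm3, hM3, hcopR⟩ := REDQ.lev hIDQ hS R (n + 1 + h) hl hlf'
    have hθ0 : θ ≠ 0 := by
      intro h1
      have h2 : (1 : OO A B) ∉ idl (A := A) (B := B) (f * l ^ (n + 1 + h) * p) := by
        intro h3
        have h4 : ((f * l ^ (n + 1 + h) * p : ℕ) : OO A B) ∈ P := by
          have := (i2 ((f * l ^ (n + 1 + h) * p : ℕ) : ℤ)).2 (by
            push_cast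
            exact Dvd.intro_left _ rfl)
          simpa using this
        have h5 : idl (A := A) (B := B) (f * l ^ (n + 1 + h) * p) ≤ P := by
          rw [Ideal.span_singleton_le_iff_mem]
          exact h4
        exact hPp.ne_top ((Ideal.eq_top_iff_one P).2 (h5 h3))
      have haM : a.Coprime (f * l ^ (n + 1 + h) * p) := by
        have h3 : a.Coprime f := Nat.Coprime.coprime_dvd_right ⟨6 * p, by ring⟩ hac
        have h4 : a.Coprime p := Nat.Coprime.coprime_dvd_right ⟨6 * f, by ring⟩ hac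
        have h5 : a.Coprime l := Nat.Coprime.coprime_dvd_right hlf' h3
        exact Nat.Coprime.mul_right (Nat.Coprime.mul_right h3 (h5.pow_right _)) h4
      apply NRR.theta_ne hcq R (f * l ^ (n + 1 + h) * p) hM0 hcopR R.i0 a haM H hH 1 h2
      rw [← hθ, h1]
      rfl
    obtain ⟨D₁, hfd, h₁, hD₁⟩ := hREDQ p q A B P P' V f hS hT ι R w hw (kp j) (eta j) (b j) hC1
      hbj l (n + 1 + h) hl hpl1 hlf' ψ (K ⊔ Bn (n + 1)) h0 (hRF (n + 1)) (hdeg (n + 1) h0) χ hval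
      ⟨γ, fun x hx => hγ1 x (hn2 n hnn2 x x.2 hx), hγχ⟩
    let _ := algC h₁
    obtain ⟨hsub1, χ₁, hval1, hram1, hdesc⟩ := hD₁
    have hs1 : Sub D₁ (RF (idl (f * l ^ (n + 1 + h) * p)) : IntermediateField (kk A B) ℂ) :=
      CRA.subF hT (f * l ^ (n + 1 + h)) p hsub1
    obtain ⟨m1, m2, -⟩ := ty_MEM A B _ (hT.fin _ (CRA.idl_ne hM0)) (hT.gal _ (CRA.idl_ne hM0))
      (hT.comm _ (CRA.idl_ne hM0)) D₁ h₁ hs1 θ hθ0
    have hmem : cW h₁ θ ∈ D₁ := by
      rw [m1]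
      exact (m2 1).1
    obtain ⟨t, ht⟩ := hn3 (n + 1 + h) (by omega) ⟨j, he1, hbj⟩ ψ hψ1 hψ2 θ hθ D₁ h₁ hsub1 χ₁
      hval1 hram1 ⟨cW h₁ θ, hmem⟩ rfl
    exact ⟨t, hdesc θ hθ0 c₀ ⟨cW h₁ θ, hmem⟩ hc₀ rfl t ht⟩
  · -- ramified at `P'`
    rw [not_or] at hbj
    have hbb : P' ≠ ⊤ ∧ 1 ≤ b j ∧ b j < q - 1 := by
      rcases hC1.bb with ⟨-, h1⟩ | ⟨h1, h2, h3⟩
      · exact absurd h1 hbj.1
      · refine ⟨fun h4 => ?_, h2, ?_⟩
        · rw [h4] at h1
          apply hPp.ne_top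
          rw [Ideal.eq_top_iff_one]
          have h5 : (1 : OO A B) ∈ cjI P := h1 ▸ Submodule.mem_top
          have h6 := (Pool.Agent.MUXF.NimX.mem_cjI P 1).1 h5
          rwa [star_one] at h6
        · have := hbj.2
          omega
    rcases hn4 with h4 | ⟨w', J', kp', eta', e', b', hS', hw', hCh', hF'⟩
    · exact absurd h4 hbb.1
    haveI hchar' : CharP (IsLocalRing.ResidueField V') p := charP_res V' p (REDQ.v_p_lt hIDQ hS')
    haveI := TWK.FIN1x.isAlgClosed_residueField V'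
    obtain ⟨χ', hker, htr⟩ := hTRV p (IsLocalRing.ResidueField V) (IsLocalRing.ResidueField V')
      (↥(K ⊔ Bn (n + 1)) ≃ₐ[kk A B] ↥(K ⊔ Bn (n + 1))) χ
    obtain ⟨j', ψ', -, -, hval', hbig'⟩ := hF' n h0 χ'
      ⟨γ, hγ1, fun h5 => hγχ ((hker γ).1 h5)⟩
    have he2 : 2 ≤ e' j' := hERQ p q A B P P' V V' f hS hS' hT ι R w w' hw hw' (kp j) (kp' j')
      (eta j) (eta' j') (b j) (e' j') (b' j') hC1 hbb.2.1 hbb.2.2 (hCh' j') l (n + 1 + h) hl hpl1
      hlf' ψ ψ' (K ⊔ Bn (n + 1)) h0 (hRF (n + 1)) χ χ' (fun τ => (hker τ).1) hval hval'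
    obtain ⟨t', ht'⟩ := hbig' hnn4 he2 θ hθ c₀ hc₀
    obtain ⟨t, ht⟩ := htr t'
    refine ⟨t, fun y hy => ht' y ?_⟩
    rw [hy]
    unfold Pool.Agent.TWK.sE
    exact Finset.prod_congr rfl fun δ _ => by rw [ht δ]

open Pool.Agent.TWR _root_.Pool.Agent.TWQ.UNQ in
/-- the unit theorem in the form of `DefU.lean` -/
theorem t_UNQ (hU : S_UNQV) : S_UNQ := by
  intro l g h hgen p q _ A B P P' V f hS hlf hT ι _ R hG hV' K _ _ hk hcop hK Bn _ hLay hMon
    hRF a ha1 hac H hH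
  by_cases hP' : P' = ⊤
  · exact hU l g h hgen p q A B P P' V V f hS hlf hT ι R hG (Or.inl hP') K hk hcop hK Bn hLay hMon
      hRF a ha1 hac H hH
  · obtain ⟨V', hO, hG'⟩ := hV' hP'
    refine hU l g h hgen p q A B P P' V V' f hS hlf hT ι R hG (Or.inr ⟨?_, hG'⟩) K hk hcop hK Bn
      hLay hMon hRF a ha1 hac H hH
    obtain ⟨h3, ⟨-, h4, -⟩ | ⟨hS, h4, hq⟩⟩ := hS
    · exact absurd h4 hP'
    · refine ⟨h3, Or.inr ⟨?_, ?_, hq⟩⟩
      · have hP0 : P ≠ ⊥ := UNITA.P_ne_bot hS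
        refine ⟨hS.cq, hS.pp, hS.p5, ?_, hO, hS.pD, hS.f0, hS.fp, hS.fD⟩
        rw [h4]
        refine ⟨?_, ?_, ?_⟩
        · have := hS.hP.prime
          exact Ideal.IsPrime.comap _
        · show star ((p : ℕ) : OO A B) ∈ P
          rw [star_natCast]
          exact hS.hP.mem
        · rw [nI_cjI hS.cq hP0, hS.hP.norm]
      · rw [h4]
        ext x
        show x ∈ P ↔ star (star x) ∈ P
        rw [star_star]

end

end Pool.Agent.TWQ


end
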