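import Pool.Agent.TWM.C05
import Pool.Agent.TWM.C07
import Pool.Agent.TWM.C10
import Pool.Agent.TWM.C13
import Pool.Agent.TWM.C15
import Pool.Agent.TWM.C23
import Pool.Agent.TWM.C27
import Pool.Agent.TWM.C28
import Pool.Agent.TWZ.C01
import Pool.Agent.TWZ.C02

/-! Parts: TWQ.K5Q, TWQ.IDQ, TWQ.SIGQ, TWQ.DSQ, TWQ.NEAQ, TWQ.SYIA, TWQ.SPI, TWQ.SYSA, TWQ.SPS, TWQ.SYMQ -/

section

/-!
# TWQ, module K5Q (helper60): block K in the vocabulary of the elliptic units, `SetE`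
-/

set_option autoImplicit false

open NumberField IsDedekindDomain Finset
open scoped nonZeroDivisors Pointwise

namespace Pool.Agent.TWQ

open _root_.MU3 Pool.Agent.MU3 Pool.Agent.MU3A Pool.Agent.MU3B Pool.Agent.RI Pool.Agent.RID
  Pool.Agent.MUX Pool.Agent.MUXK Pool.Agent.MUXW Pool.Agent.TWK
open Pool.Agent.MU3V (Sub GD)

open K5x in
theorem t_K5Q (hK4 : S_K4Q) (hMEM : Sy_MEM) (hTOW : Sy_TOW) (hSUC : Sy_SUC) (hKOL : Sy_KOL) :
    S_K5Q := by
  intro p l _ _ hpl F _ _ _ A B hc T N₀ ι _ R K K'' K' Bn _ _ _ _ _ _ _ hD hHK a H ha hhalf S₀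
  have hnl : IsNL (⊤ : Ideal (OO A B)) (R.L R.i0) (R.om R.i0) := by
    have h1 := R.nl R.i0
    rw [R.b0] at h1
    exact h1
  obtain ⟨S', h2', hp', hS', hmain⟩ := hK4 p l hpl F (kk A B) K K'' K' Bn hD
  obtain ⟨n0, hn0, hSUC'⟩ := hSUC A B hc T (R.L R.i0) (R.om R.i0) hnl
  obtain ⟨n1, hn1, hKOL'⟩ := hKOL A B hc T N₀ ι R
  have haZ : (a : ℤ) ≠ 0 := by exact_mod_cast ha
  set S : Finset ℕ := S' ∪ S₀.filter Nat.Prime ∪ n0.primeFactors ∪ n1.primeFactors ∪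
    a.primeFactors with hSdef
  have hSprime : ∀ q ∈ S, q.Prime := by
    intro q hq
    rw [hSdef] at hq
    simp only [Finset.mem_union, Finset.mem_filter] at hq
    rcases hq with (((h | h) | h) | h) | h
    · exact hS' q h
    · exact h.2
    all_goals exact Nat.prime_of_mem_primeFactors h
  have hSS : S' ⊆ S := by
    intro q hq
    rw [hSdef]
    simp only [Finset.mem_union]
    exact Or.inl (Or.inl (Or.inl (Or.inl hq)))
  have hS0 : ∀ q : ℕ, q.Prime → q ∣ n0 → q ∈ S := by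
    intro q hq hd
    rw [hSdef]
    simp only [Finset.mem_union]
    exact Or.inl (Or.inl (Or.inr (Nat.mem_primeFactors.2 ⟨hq, hd, hn0⟩)))
  have hS1 : ∀ q : ℕ, q.Prime → q ∣ n1 → q ∈ S := by
    intro q hq hd
    rw [hSdef]
    simp only [Finset.mem_union]
    exact Or.inl (Or.inr (Nat.mem_primeFactors.2 ⟨hq, hd, hn1⟩))
  have hSa : ∀ q : ℕ, q.Prime → (q : ℤ) ∣ (a : ℤ) → q ∈ S := by
    intro q hq hd
    have h1 : q ∣ a := by exact_mod_cast hd
    rw [hSdef]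
    simp only [Finset.mem_union]
    exact Or.inr (Nat.mem_primeFactors.2 ⟨hq, h1, ha⟩)
  obtain ⟨n₀, hn₀⟩ := hmain S hSS hSprime
  refine ⟨n₀, ?_⟩
  intro n hn m hm hm2 ham hmS hsub θ hθ0 hθ h
  let i1 : Algebra (kk A B) ↥(K ⊔ Bn (n + 1)) := algC h
  intro c₀ hc₀ hchi
  have hSm : ∀ q : ℕ, q.Prime → (q : ℤ) ∣ nm ((m : ℕ) : OO A B) → q ∈ S := by
    intro q hq hd
    rw [nm_nat] at hd
    have h1 : (q : ℤ) ∣ (m : ℤ) := (Nat.prime_iff_prime_int.1 hq).dvd_of_dvd_pow hd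
    have h2 : q ∣ m := by exact_mod_cast h1
    rw [hSdef]
    simp only [Finset.mem_union, Finset.mem_filter]
    exact Or.inl (Or.inl (Or.inl (Or.inr ⟨hmS q hq h2, hq⟩)))
  have hcopO : IsCoprime ((a : ℤ) : OO A B) ((m : ℕ) : OO A B) := by
    obtain ⟨u, v, huv⟩ : IsCoprime ((a : ℕ) : ℤ) ((m : ℕ) : ℤ) := Nat.isCoprime_iff_coprime.2 ham
    refine ⟨((u : ℤ) : OO A B), ((v : ℤ) : OO A B), ?_⟩
    have := congrArg (fun k : ℤ => ((k : ℤ) : OO A B)) huv
    simpa using this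
  have hmu : ¬ IsUnit ((m : ℕ) : OO A B) := fun hu => hm2 (hu.dvd)
  have hhalf' : IsHalf (R.L R.i0) ((a : ℤ) : ℂ) H := by
    rw [Int.cast_natCast]
    exact hhalf
  have h' : kk A B ≤ K'' ⊔ Bn (n + 1) := h.trans (sup_le_sup_right hD.le1 _)
  let i2 : Algebra (kk A B) ↥(K'' ⊔ Bn (n + 1)) := algC h'
  have hle : K ⊔ Bn (n + 1) ≤ K'' ⊔ Bn (n + 1) := sup_le_sup_right hD.le1 _
  have fin := T.fin _ (idl_ne (A := A) (B := B) hm)
  have gal := T.gal _ (idl_ne (A := A) (B := B) hm)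
  have com := T.comm _ (idl_ne (A := A) (B := B) hm)
  have hM := hMEM A B (RF (idl (A := A) (B := B) m)) fin gal com (K'' ⊔ Bn (n + 1)) h' hsub θ hθ0
  have hmem : cW h' θ ∈ K'' ⊔ Bn (n + 1) := by
    rw [hM.1]
    exact (hM.2.1 _).1
  have hne : cW h' θ ≠ 0 := by
    rw [hM.1]
    exact (hM.2.1 _).2
  have hHas : HasH A B (K'' ⊔ Bn (n + 1)) := fun x hx =>
    (le_sup_left : K'' ≤ K'' ⊔ Bn (n + 1)) (hHK x hx)
  refine hn₀ n hn h h' ⟨cW h' θ, hmem⟩ c₀ ?_ ?_ ?_ ?_ hchi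
  · intro h0
    exact hne (congrArg Subtype.val h0)
  · exact hSUC' _ (natO_ne hm) hmu (a : ℤ) H haZ hcopO hhalf' S hS0 hSa hSm θ hθ
      (K'' ⊔ Bn (n + 1)) h' hsub _ rfl
  · have h1 := hKOL' p Fact.out _ (natO_ne hm) hm2 (a : ℤ) H haZ hcopO hhalf' S hS1 hSa hSm θ hθ
      (K'' ⊔ Bn (n + 1)) h' hHas hsub ⟨cW h' θ, hmem⟩ rfl
    refine KolInP.mono ?_ h1
    intro g hg x hx
    exact hg x (hHK _ hx)
  · rw [hc₀]
    exact hTOW A B (RF (idl (A := A) (B := B) m)) fin gal com (K ⊔ Bn (n + 1)) (K'' ⊔ Bn (n + 1))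
      h h' hle hsub θ hθ0 hmem

end Pool.Agent.TWQ


end

section

/-!
# TWQ, block B': ideals for both types of `p` (module IDQ)
-/

set_option autoImplicit false

namespace Pool.Agent.TWQ

open _root_.MU3 Pool.Agent.MU3A Pool.Agent.MU3B Pool.Agent.MU3C Pool.Agent.RI Pool.Agent.RID
open Pool.Agent.MUX Pool.Agent.TWT Pool.Agent.TWI
open Pool.Agent.MUXI.PQFaux

noncomputable section

namespace IDQ

variable {A B : ℤ}

/-- everything which does not depend on the type of `p` -/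
theorem core {p q : ℕ} {P P' : Ideal (OO A B)} (hprime : p.Prime) (hPp : P.IsPrime)
    (hpP : ((p : ℕ) : OO A B) ∈ P) (hcard : Nat.card (OO A B ⧸ P) = q) (hq : q ≠ 0)
    (hPQ : P * P' = idl (A := A) (B := B) p) (hcop : IsCoprime P P')
    (hcP' : ∀ x : OO A B, (P' ≠ ⊤ → x ∉ P') → IsCoprime (sp x) P') (f : ℕ) :
    (∀ c : ℤ, (c : OO A B) ∈ P ↔ (p : ℤ) ∣ c) ∧
    (∃ T, RepI P T) ∧ (∀ T, RepI P T → T.card = q - 1) ∧
    (∀ m : ℕ, 3 ≤ m → ¬ p ∣ m → ∃ x0 y0 : OO A B, LvQ p P P' m x0 y0) ∧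
    (∀ (m : ℕ) (x0 y0 : OO A B), LvQ p P P' m x0 y0 →
      (∀ c : OO A B, c ∉ P → IsCoprime (x0 + c * m * y0) ((m * p : ℕ) : OO A B) ∧
        x0 + c * m * y0 - 1 ∈ (idl m : Ideal (OO A B)) * P') ∧
      (∀ T, RepI P T → ∀ x : OO A B, IsCoprime x ((m * p : ℕ) : OO A B) →
        x - 1 ∈ (idl m : Ideal (OO A B)) * P' →
        ∃ c ∈ T, x - (x0 + c * m * y0) ∈ idl (A := A) (B := B) (m * p)) ∧
      (∀ x : OO A B, x * x0 ∈ idl (A := A) (B := B) (m * p) →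
        x ∈ (idl m : Ideal (OO A B)) * P') ∧
      ∀ x ∈ (idl m : Ideal (OO A B)) * P', x * x0 ∈ idl (A := A) (B := B) (m * p)) ∧
    ∀ (l N : ℕ), l ∣ f → ∀ x : OO A B, IsCoprime (sp x) (idl f : Ideal (OO A B)) → x ∉ P →
      (P' ≠ ⊤ → x ∉ P') → IsCoprime x ((f * l ^ N * p : ℕ) : OO A B) := by
  have h1P : (1 : OO A B) ∉ P := fun h => hPp.ne_top ((Ideal.eq_top_iff_one P).2 h)
  have hci : ∀ c : ℤ, ¬ (p : ℤ) ∣ c → IsCoprime (p : ℤ) c := fun c hpc =>
    (Int.prime_iff_natAbs_prime.2 (by simpa using hprime)).coprime_iff_not_dvd.2 hpc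
  have hint : ∀ c : ℤ, (c : OO A B) ∈ P ↔ (p : ℤ) ∣ c := by
    intro c
    constructor
    · intro hc
      by_contra hpc
      obtain ⟨u, v, huv⟩ := hci c hpc
      apply h1P
      have h3 : ((u : ℤ) : OO A B) * (p : ℕ) + (v : ℤ) * (c : ℤ) = 1 := by
        have := congrArg (Int.cast : ℤ → OO A B) huv
        push_cast at this
        exact this
      rw [← h3]
      exact P.add_mem (P.mul_mem_left _ hpP) (P.mul_mem_left _ hc)
    · rintro ⟨y, rfl⟩
      push_cast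
      exact P.mul_mem_right _ hpP
  have hintn : ∀ c : ℕ, (c : OO A B) ∈ P ↔ p ∣ c := by
    intro c
    have h3 := hint (c : ℤ)
    rw [Int.cast_natCast] at h3
    rw [h3, Int.natCast_dvd_natCast]
  have hpQ : ((p : ℕ) : OO A B) ∈ P' := by
    have h3 : ((p : ℕ) : OO A B) ∈ P * P' := by
      rw [hPQ]
      exact Ideal.subset_span rfl
    exact (Ideal.mul_le_right : P * P' ≤ P') h3
  have hfin : Finite (OO A B ⧸ P) := Nat.finite_of_card_ne_zero (by rw [hcard]; exact hq)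
  have hdom : IsDomain (OO A B ⧸ P) := Ideal.Quotient.isDomain P
  have hmax : P.IsMaximal :=
    Ideal.Quotient.maximal_of_isField P (Finite.isDomain_to_isField (OO A B ⧸ P))
  have hcP : ∀ a : OO A B, a ∉ P → IsCoprime (sp a) P := by
    intro a ha
    rw [Ideal.isCoprime_iff_sup_eq]
    refine (Ideal.isMaximal_def.1 hmax).2 _ (lt_of_le_of_ne le_sup_right fun h3 => ha ?_)
    rw [h3]
    exact (le_sup_left : sp a ≤ sp a ⊔ P) (Ideal.subset_span rfl)
  have hmI : ∀ m : ℕ, ¬ p ∣ m → ∀ I : Ideal (OO A B), ((p : ℕ) : OO A B) ∈ I →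
      IsCoprime (idl (A := A) (B := B) m) I := by
    intro m hm I hI
    obtain ⟨u, v, huv⟩ := hci (m : ℤ) (by rwa [Int.natCast_dvd_natCast])
    have huv' : ((u : ℤ) : OO A B) * (p : ℕ) + (v : ℤ) * (m : ℕ) = 1 := by
      have := congrArg (Int.cast : ℤ → OO A B) huv
      push_cast at this
      exact this
    rw [Ideal.isCoprime_iff_exists]
    exact ⟨_, Ideal.mul_mem_left _ ((v : ℤ) : OO A B) (Ideal.subset_span rfl), _,
      I.mul_mem_left ((u : ℤ) : OO A B) hI, by rw [add_comm]; exact huv'⟩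
  have hmC : ∀ m : ℕ, ¬ p ∣ m → IsCoprime (idl (A := A) (B := B) m * P') P := fun m hm =>
    (hmI m hm P hpP).mul_left hcop.symm
  have hprod : ∀ m : ℕ, idl (A := A) (B := B) (m * p) = idl m * P' * P := by
    intro m
    rw [TWT.IDP.idl_mul, ← hPQ, mul_assoc, mul_comm P' P]
  have hcopmp : ∀ (m : ℕ) (a : OO A B), IsCoprime (sp a) (idl m * P') → a ∉ P →
      IsCoprime a ((m * p : ℕ) : OO A B) := by
    intro m a h3 h4
    have h5 := h3.mul_right (hcP a h4)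
    rw [← hprod] at h5
    exact (Ideal.isCoprime_span_singleton_iff _ _).1 h5
  have hnotP : ∀ (m : ℕ) (a : OO A B), IsCoprime a ((m * p : ℕ) : OO A B) → a ∉ P := by
    rintro m a ⟨r, s, hrs⟩ ha
    apply h1P
    rw [← hrs]
    refine P.add_mem (P.mul_mem_left _ ha) (P.mul_mem_left _ ?_)
    rw [Nat.cast_mul]
    exact P.mul_mem_left _ hpP
  refine ⟨hint, TWI.IDPI.exists_rep hfin, ?_, ?_, ?_, ?_⟩
  · intro T hT
    rw [TWI.IDPI.card_rep hfin hT, hcard]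
  · intro m hm3 hm
    obtain ⟨a, ha, b, hb, hab⟩ := Ideal.isCoprime_iff_exists.1 (hmC m hm)
    obtain ⟨a', ha', b', hb', hab'⟩ := Ideal.isCoprime_iff_exists.1 hcop
    refine ⟨b, b', hm3, hm, hb, ?_, hb', fun h3 => h1P ?_⟩
    · have h3 : b - 1 = -a := by linear_combination hab
      rw [h3]
      exact Ideal.neg_mem_iff _ |>.2 ha
    · rw [← hab']
      exact P.add_mem ha' h3
  · intro m x0 y0 hL
    have hm := hL.pm
    have hmP : ((m : ℕ) : OO A B) ∉ P := fun h3 => hm ((hintn m).1 h3)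
    have hcm : ∀ c : OO A B, c * m * y0 ∈ idl (A := A) (B := B) m * P' := by
      intro c
      rw [mul_assoc]
      exact Ideal.mul_mem_left _ _ (Ideal.mul_mem_mul (Ideal.subset_span rfl) hL.yP')
    refine ⟨?_, ?_, ?_, ?_⟩
    · intro c hc
      have h3 : x0 + c * m * y0 - 1 ∈ idl (A := A) (B := B) m * P' := by
        have h4 : x0 + c * m * y0 - 1 = (x0 - 1) + c * m * y0 := by ring
        rw [h4]
        exact Ideal.add_mem _ hL.xm (hcm _)
      refine ⟨hcopmp m _ (TWT.IDP.cop_one h3) ?_, h3⟩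
      intro h4
      have h5 := P.sub_mem h4 hL.xP
      rw [add_sub_cancel_left] at h5
      rcases hPp.mem_or_mem h5 with h6 | h6
      · rcases hPp.mem_or_mem h6 with h7 | h7
        · exact hc h7
        · exact hmP h7
      · exact hL.yP h6
    · intro T hT x hx hx1
      have hmy : (m : OO A B) * y0 ∉ P := fun h4 =>
        (hPp.mem_or_mem h4).elim hmP hL.yP
      obtain ⟨i, hi, b, hb, hib⟩ := Ideal.isCoprime_iff_exists.1 (hcP _ hmy)
      obtain ⟨r, rfl⟩ := Ideal.mem_span_singleton'.1 hi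
      have hxP : x ∉ P := hnotP m x hx
      have hxr : x * r ∉ P := by
        intro h4
        rcases hPp.mem_or_mem h4 with h5 | h5
        · exact hxP h5
        · apply h1P
          rw [← hib]
          exact P.add_mem (P.mul_mem_right _ h5) hb
      obtain ⟨c, hc, hxc⟩ := hT.surj (x * r) hxr
      refine ⟨c, hc, ?_⟩
      have h4 : x - c * m * y0 ∈ P := by
        have h5 : x - c * m * y0 = (x * r - c) * (m * y0) + x * b := by
          linear_combination (-x) * hib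
        rw [h5]
        exact P.add_mem (P.mul_mem_right _ hxc) (P.mul_mem_left _ hb)
      rw [hprod, Ideal.mul_eq_inf_of_coprime (Ideal.isCoprime_iff_sup_eq.1 (hmC m hm))]
      refine ⟨?_, ?_⟩
      · have h5 : x - (x0 + c * m * y0) = (x - 1) - (x0 - 1) - c * m * y0 := by ring
        rw [h5]
        exact Ideal.sub_mem _ (Ideal.sub_mem _ hx1 hL.xm) (hcm _)
      · have h5 : x - (x0 + c * m * y0) = (x - c * m * y0) - x0 := by ring
        rw [h5]
        exact P.sub_mem h4 hL.xP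
    · intro x hx
      rw [hprod] at hx
      have h3 : x * x0 ∈ idl (A := A) (B := B) m * P' :=
        (Ideal.mul_le_left : idl (A := A) (B := B) m * P' * P ≤ idl m * P') hx
      have h4 : x = x * x0 - x * (x0 - 1) := by ring
      rw [h4]
      exact Ideal.sub_mem _ h3 (Ideal.mul_mem_left _ _ hL.xm)
    · intro x hx
      rw [hprod]
      exact Ideal.mul_mem_mul hx hL.xP
  · intro l N hl x hx hxP hxP'
    have h3 : IsCoprime x ((f : ℕ) : OO A B) := (Ideal.isCoprime_span_singleton_iff _ _).1 hx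
    have h4 : IsCoprime x ((l : ℕ) : OO A B) := by
      obtain ⟨k, rfl⟩ := hl
      rw [Nat.cast_mul] at h3
      exact h3.of_mul_right_left
    have h5 : IsCoprime x ((p : ℕ) : OO A B) := by
      have h6 := (hcP x hxP).mul_right (hcP' x hxP')
      rw [hPQ] at h6
      exact (Ideal.isCoprime_span_singleton_iff _ _).1 h6
    push_cast
    exact (h3.mul_right h4.pow_right).mul_right h5

end IDQ

open _root_.Pool.Agent.TWQ.IDQ in
theorem t_IDQ : S_IDQ := by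
  intro p q A B P P' V f hQ
  obtain ⟨-, ⟨hS, rfl, rfl⟩ | ⟨hS, rfl, hqp⟩⟩ := hQ
  · obtain ⟨-, hcard, -⟩ := t_IDPI p A B P V f hS
    have hp0 : p ≠ 0 := hS.pp.ne_zero
    have hPQ : P * ⊤ = idl (A := A) (B := B) p := by
      rw [Ideal.mul_top, hS.eP]
    have hcop : IsCoprime P (⊤ : Ideal (OO A B)) := by
      rw [← Ideal.one_eq_top]
      exact isCoprime_one_right
    have hpP : ((p : ℕ) : OO A B) ∈ P := by
      rw [hS.eP]
      exact Ideal.subset_span rfl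
    have hcP' : ∀ x : OO A B, ((⊤ : Ideal (OO A B)) ≠ ⊤ → x ∉ (⊤ : Ideal (OO A B))) →
        IsCoprime (sp x) (⊤ : Ideal (OO A B)) := by
      intro x _
      rw [← Ideal.one_eq_top]
      exact isCoprime_one_right
    refine ⟨⟨hS.cq, hS.pp, hS.p5, ?_, hS.hP, hS.hV, hS.f0, hS.fp, hS.fD, hPQ, hcop⟩,
      core hS.pp hS.hP hpP hcard (pow_ne_zero 2 hp0) hPQ hcop hcP' f⟩
    exact Nat.le_self_pow two_ne_zero p
  · have hqp' := hqp.symm
    subst hqp'
    obtain ⟨-, -, hPQ, hcop, -⟩ := t_IDP p A B P V f hS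
    have hp0 : p ≠ 0 := hS.pp.ne_zero
    have hcard : Nat.card (OO A B ⧸ P) = p := hS.hP.norm
    have hPp : P.IsPrime := hS.hP.prime
    have hfin : Finite (OO A B ⧸ P) := Nat.finite_of_card_ne_zero (by rw [hcard]; exact hp0)
    have hdom : IsDomain (OO A B ⧸ P) := Ideal.Quotient.isDomain P
    have hmax : P.IsMaximal :=
      Ideal.Quotient.maximal_of_isField P (Finite.isDomain_to_isField (OO A B ⧸ P))
    have htop : cjI P ≠ ⊤ := by
      intro h3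
      have h4 : (1 : OO A B) ∈ cjI P := by
        rw [h3]
        trivial
      rw [mem_cjI, star_one] at h4
      exact hPp.ne_top ((Ideal.eq_top_iff_one P).2 h4)
    have hcP' : ∀ x : OO A B, (cjI P ≠ ⊤ → x ∉ cjI P) → IsCoprime (sp x) (cjI P) := by
      intro x hx
      have hx1 : star x ∉ P := fun h3 => hx htop (by rw [mem_cjI]; exact h3)
      have h3 : IsCoprime (sp (star x)) P := by
        rw [Ideal.isCoprime_iff_sup_eq]
        refine (Ideal.isMaximal_def.1 hmax).2 _ (lt_of_le_of_ne le_sup_right fun h3 => hx1 ?_)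
        rw [h3]
        exact (le_sup_left : sp (star x) ≤ sp (star x) ⊔ P) (Ideal.subset_span rfl)
      obtain ⟨a, ha, b, hb, hab⟩ := Ideal.isCoprime_iff_exists.1 h3
      obtain ⟨r, rfl⟩ := Ideal.mem_span_singleton'.1 ha
      rw [Ideal.isCoprime_iff_exists]
      refine ⟨star r * x, Ideal.mul_mem_left _ _ (Ideal.subset_span rfl), star b, ?_, ?_⟩
      · rw [mem_cjI, star_star]
        exact hb
      · have h5 := congrArg star hab
        rw [star_add, star_mul, star_star, star_one] at h5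
        rw [mul_comm]
        exact h5
    refine ⟨⟨hS.cq, hS.pp, hS.p5, le_refl _, hPp, hS.hV, hS.f0, hS.fp, hS.fD, hPQ, hcop⟩,
      core hS.pp hPp hS.hP.mem hcard hp0 hPQ hcop hcP' f⟩

end

end Pool.Agent.TWQ


end

section

/-!
# TWQ, block B', module SIGQ: the sum over the Galois group in terms of `SDTI`
-/

set_option autoImplicit false

open WeierstrassCurve Polynomial NumberField IsDedekindDomain

namespace Pool.Agent.TWQ

open _root_.MU3 Pool.Agent.MU3A Pool.Agent.MU3B Pool.Agent.MU3C Pool.Agent.RI Pool.Agent.RID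
open Pool.Agent.MUX Pool.Agent.MUXU Pool.Agent.MUXW Pool.Agent.TWT Pool.Agent.TWI
open Pool.Agent.MU3V (cls Sub GD algDF)
open Pool.Agent.MUXV (GR InK tX)
open Pool.Agent.MUXI (IA RE AR)
open OnePoint

noncomputable section

theorem t_SIGQ (h1 : S_IDQ) (h2 : S_TEQ) (h3 : S_THQ) : S_SIGQ := by
  intro p q A B P P' V f hS hT ι _ R w hw kp eta e b hC l N hl hlf ψ x0 y0 hL c hc a ha1 hacop _
    I X hhit
  obtain ⟨⟨hcq, hpp, hp5, -, hPp, -, hf0, hfp, -, hPP, -⟩, -, -, -, -, id6, -⟩ :=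
    h1 p q A B P P' V f hS
  obtain ⟨-, te2, te3, -, -, te6, -, -⟩ := h2 p q A B P P' V f hS w hw
  obtain ⟨th1, th2, th3, -, th5, -⟩ := h3 p q A B P P' V f hS ι R w hw kp eta e b hC l N hl hlf ψ
  obtain ⟨hac1, hac2⟩ := (id6 (f * l ^ N) x0 y0 hL).1 c hc
  have hp0 : p ≠ 0 := hpp.ne_zero
  have hl0 : l ^ N ≠ 0 := pow_ne_zero _ hl.ne_zero
  have hm0 : f * l ^ N ≠ 0 := mul_ne_zero hf0 hl0
  have hM0 : f * l ^ N * p ≠ 0 := mul_ne_zero hm0 hp0
  have hM3 : 3 ≤ f * l ^ N * p := by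
    have h6 : 1 * p ≤ f * l ^ N * p := Nat.mul_le_mul_right _ (Nat.one_le_iff_ne_zero.2 hm0)
    omega
  have hcopi : ∀ i, (nI (R.b i)).Coprime (f * l ^ N * p) := by
    intro i
    have h5 := R.cop i
    have h6 : (nI (R.b i)).Coprime p := Nat.Coprime.coprime_mul_right_right h5
    have h7 : (nI (R.b i)).Coprime f := Nat.Coprime.coprime_mul_left_right h5
    have h8 : (nI (R.b i)).Coprime l := Nat.Coprime.coprime_dvd_right hlf h7
    exact Nat.Coprime.mul_right (Nat.Coprime.mul_right h7 (Nat.Coprime.pow_right _ h8)) h6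
  have hpP : ((p : ℕ) : OO A B) ∈ P := by
    have h5 : ((p : ℕ) : OO A B) ∈ P * P' := by
      rw [hPP]
      exact Ideal.mem_span_singleton_self _
    have h6 : P * P' ≤ P := Ideal.mul_le_left
    exact h6 h5
  have hMP : idl (A := A) (B := B) (f * l ^ N * p) ≤ P := by
    rw [Ideal.span_singleton_le_iff_mem, Nat.cast_mul]
    exact Ideal.mul_mem_left _ _ hpP
  have hwneg : ∀ x, w (-x) = -w x := by
    intro x
    rw [← neg_one_mul, te2, te6, neg_one_mul]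
  -- the function
  let G : ι → OO A B → ℂ := fun i x => muX R i *
    (thQ R kp eta ψ w e b i x * w x * dlX (R.L i) a (pt R (f * l ^ N * p) i x))
  have hsdt : ∑ i, sumMod ((f * l ^ N * p : ℕ) : OO A B) (G i) =
      SDTI R (f * l ^ N * p) a (thQ R kp eta ψ w e b) w := by
    unfold SDTI
    refine Finset.sum_congr rfl fun i _ => ?_
    exact Pool.Agent.MUXI.TSH.sumMod_cmul _ _
  have hcnt : 2 * ∑ σ : GalF A B (f * l ^ N * p),
      G (I σ) (X σ * (x0 + c * (f * l ^ N : ℕ) * y0)) =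
      SDTI R (f * l ^ N * p) a (thQ R kp eta ψ w e b) w := by
    rw [← hsdt]
    refine t_CNTI A B hcq hT (p * f) ι R (f * l ^ N * p) hM3 hcopi G ?_ ?_ ?_
      (x0 + c * (f * l ^ N : ℕ) * y0) hac1 I X hhit
    · intro i x y hxy
      have e1 := th1 i x y hxy
      have e3 := te3 x y (hMP hxy)
      have e4 := ((j_PTP A B hcq (p * f) ι R (f * l ^ N * p) hM0 i).1 x y hxy).2.2 a
      simp only [G]
      rw [e1, e3, e4]
    · intro i x
      simp only [G]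
      rw [th2, hwneg, Pool.Agent.TWT.SIG.pt_neg, Pool.Agent.TWT.SIG.dlX_neg]
      ring
    · intro i x hx
      simp only [G]
      rw [th3 i x hx]
      ring
  -- the values of `G`
  have hG' : ∀ σ : GalF A B (f * l ^ N * p),
      G (I σ) (X σ * (x0 + c * (f * l ^ N : ℕ) * y0)) =
        w (x0 + c * (f * l ^ N : ℕ) * y0) ^ (e - 1) *
          (thQ R kp eta ψ w e b (I σ) (X σ) * (muX R (I σ) *
            w (X σ * (x0 + c * (f * l ^ N : ℕ) * y0)) * dlX (R.L (I σ)) a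
              (pt R (f * l ^ N * p) (I σ) (X σ * (x0 + c * (f * l ^ N : ℕ) * y0))))) := by
    intro σ
    simp only [G]
    rw [th5 (I σ) (X σ) _ hac2]
    ring
  rw [← hcnt, Finset.mul_sum, Finset.sum_congr rfl fun σ _ => hG' σ]

end

end Pool.Agent.TWQ


end

section

/-!
# TWQ, module DSQ (helper33): descent to the fixed field of the kernel of `χ`
-/

set_option autoImplicit false

open WeierstrassCurve Polynomial NumberField IsDedekindDomain

namespace Pool.Agent.TWQ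

open _root_.MU3 Pool.Agent.MU3 Pool.Agent.MU3A Pool.Agent.MU3B Pool.Agent.MU3C Pool.Agent.RI
  Pool.Agent.RID
open Pool.Agent.MUX Pool.Agent.MUXU Pool.Agent.MUXW Pool.Agent.TWT Pool.Agent.TWI
open Pool.Agent.TWT.CRB
open Pool.Agent.MU3V (cls Sub GD algDF)
open Pool.Agent.MU3V.XXG (abs_ext incl)

noncomputable section

namespace DSQ

/-- if `z ^ d` is a `p`-th power and `d` is prime to `p`, then `z` is a `p`-th power -/
theorem pow_desc {L : Type} [Field L] {z Y : L} (hz : z ≠ 0) {d p : ℕ} (hd : d.Coprime p)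
    (h : Y ^ p = z ^ d) : ∃ w : L, w ^ p = z := by
  have h1 : (d : ℤ) * d.gcdA p + (p : ℤ) * d.gcdB p = 1 := by
    rw [← Nat.gcd_eq_gcd_ab, hd.gcd_eq_one, Nat.cast_one]
  refine ⟨Y ^ (d.gcdA p) * z ^ (d.gcdB p), ?_⟩
  have e1 : (Y ^ (d.gcdA p)) ^ p = z ^ ((d : ℤ) * d.gcdA p) := by
    rw [← zpow_natCast, ← zpow_mul, mul_comm, zpow_mul, zpow_natCast, h, zpow_mul, zpow_natCast]
  have e2 : (z ^ (d.gcdB p)) ^ p = z ^ ((p : ℤ) * d.gcdB p) := by
    rw [← zpow_natCast, ← zpow_mul, mul_comm]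
  rw [mul_pow, e1, e2, ← zpow_add₀ hz, h1, zpow_one]

/-- the norm to the fixed field of the kernel -/
theorem norm_desc {k D M : Type} [Field k] [Field D] [Algebra k D] [FiniteDimensional k D]
    [IsGalois k D] [Group M] (χ : (D ≃ₐ[k] D) →* M) {p : ℕ} (hp : p.Prime)
    (hnd : ¬ p ∣ Module.finrank k D) {y z : D} (hyz : y ^ p = z)
    (hz : ∀ τ : D ≃ₐ[k] D, χ τ = 1 → τ z = z) :
    ∃ (d : ℕ) (Y : D), d.Coprime p ∧ (∀ τ : D ≃ₐ[k] D, χ τ = 1 → τ Y = Y) ∧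
      Y ^ p = z ^ d := by
  classical
  have : Fintype χ.ker := Fintype.ofFinite _
  refine ⟨Nat.card χ.ker, ∏ τ : χ.ker, (τ : D ≃ₐ[k] D) y, ?_, ?_, ?_⟩
  · have h1 : Nat.card χ.ker ∣ Nat.card (D ≃ₐ[k] D) := Subgroup.card_subgroup_dvd_card _
    rw [IsGalois.card_aut_eq_finrank] at h1
    exact ((Nat.Prime.coprime_iff_not_dvd hp).2 fun h2 => hnd (h2.trans h1)).symm
  · intro τ hτ
    rw [map_prod]
    exact Fintype.prod_equiv (Equiv.mulLeft (⟨τ, hτ⟩ : χ.ker)) _ _ fun σ => rfl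
  · rw [← Finset.prod_pow]
    have h1 : ∀ τ : χ.ker, ((τ : D ≃ₐ[k] D) y) ^ p = z := by
      intro τ
      rw [← map_pow, hyz]
      exact hz τ.1 τ.2
    rw [Finset.prod_congr rfl fun τ _ => h1 τ, Finset.prod_const, Finset.card_univ,
      ← Nat.card_eq_fintype_card]

/-- an automorphism which is trivial on the fixed field of the kernel is in the kernel -/
theorem mem_ker {k D M : Type} [Field k] [Field D] [Algebra k D] [FiniteDimensional k D]
    [Group M] (χ : (D ≃ₐ[k] D) →* M) (τ : D ≃ₐ[k] D)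
    (hτ : ∀ y : D, (∀ σ : D ≃ₐ[k] D, χ σ = 1 → σ y = y) → τ y = y) : χ τ = 1 := by
  have h1 : τ ∈ IntermediateField.fixingSubgroup (IntermediateField.fixedField χ.ker) := by
    rw [IntermediateField.mem_fixingSubgroup_iff]
    intro y hy
    rw [IntermediateField.mem_fixedField_iff] at hy
    exact hτ y fun σ hσ => hy σ hσ
  rw [IntermediateField.fixingSubgroup_fixedField] at h1
  exact h1

variable {A B : ℤ} {F : IntermediateField (kk A B) ℂ} {D : IntermediateField ℚ ℂ}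

/-- the fixed field of the kernel of `χ`, as a subfield of `ℂ` -/
def D1 (h : kk A B ≤ D) {M : Type} [Group M] (χ : letI := algC h; (D ≃ₐ[kk A B] D) →* M) :
    IntermediateField ℚ ℂ :=
  letI := algC h
  { carrier := {y | ∃ hy : y ∈ D, ∀ τ : D ≃ₐ[kk A B] D, χ τ = 1 → τ ⟨y, hy⟩ = ⟨y, hy⟩}
    mul_mem' := by
      rintro a b ⟨ha, ha2⟩ ⟨hb, hb2⟩
      refine ⟨D.mul_mem ha hb, fun τ hτ => ?_⟩
      have e : (⟨a * b, D.mul_mem ha hb⟩ : D) = ⟨a, ha⟩ * ⟨b, hb⟩ := rfl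
      rw [e, map_mul, ha2 τ hτ, hb2 τ hτ]
    one_mem' := ⟨D.one_mem, fun τ _ => map_one τ⟩
    add_mem' := by
      rintro a b ⟨ha, ha2⟩ ⟨hb, hb2⟩
      refine ⟨D.add_mem ha hb, fun τ hτ => ?_⟩
      have e : (⟨a + b, D.add_mem ha hb⟩ : D) = ⟨a, ha⟩ + ⟨b, hb⟩ := rfl
      rw [e, map_add, ha2 τ hτ, hb2 τ hτ]
    zero_mem' := ⟨D.zero_mem, fun τ _ => map_zero τ⟩
    algebraMap_mem' := by
      intro r
      refine ⟨D.algebraMap_mem r, fun τ _ => ?_⟩
      have e : (⟨algebraMap ℚ ℂ r, D.algebraMap_mem r⟩ : D) = algebraMap ℚ D r := rfl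
      rw [e]
      exact map_ratCast τ r
    inv_mem' := by
      rintro a ⟨ha, ha2⟩
      refine ⟨D.inv_mem ha, fun τ hτ => ?_⟩
      have e : (⟨a⁻¹, D.inv_mem ha⟩ : D) = (⟨a, ha⟩ : D)⁻¹ := rfl
      rw [e, map_inv₀, ha2 τ hτ] }

theorem mem_D1 (h : kk A B ≤ D) {M : Type} [Group M] :
    letI := algC h
    ∀ (χ : (D ≃ₐ[kk A B] D) →* M) (y : ℂ), y ∈ D1 h χ ↔
      ∃ hy : y ∈ D, ∀ τ : D ≃ₐ[kk A B] D, χ τ = 1 → τ ⟨y, hy⟩ = ⟨y, hy⟩ :=
  fun _ _ => Iff.rfl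

/-- the element `sE p χ t c` as a product over `Gal(F / k)` -/
theorem sE_eq (hfd : FiniteDimensional (kk A B) F) (hgal : IsGalois (kk A B) F)
    (hc : ∀ σ τ : F ≃ₐ[kk A B] F, σ * τ = τ * σ) [FiniteDimensional ℚ D]
    [FiniteDimensional ℚ (kk A B)] (h : kk A B ≤ D) (hs : Sub D F) (Fr : Type) [Field Fr]
    (p : ℕ) [Fintype (F ≃ₐ[kk A B] F)] : letI := algC h
    ∀ (χ : (D ≃ₐ[kk A B] D) →* Frˣ) (ρ : (F ≃ₐ[kk A B] F) → (D ≃ₐ[kk A B] D)),
      (∀ σ, Ext1 h (ρ σ) σ) → ∀ θ : F, θ ≠ 0 → ∀ c : D, (c : ℂ) = cW h θ →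
      ∀ t : Fr →+ ZMod p, ((Pool.Agent.TWK.sE p χ t c : D) : ℂ) =
        ∏ σ : F ≃ₐ[kk A B] F, ((σ θ : F) : ℂ) ^ (t ((χ (ρ σ))⁻¹ : Frˣ)).val := by
  let _ := algC h
  intro χ ρ hρ θ hθ c hcc t
  classical
  have MEM := ty_MEM A B F hfd hgal hc D h hs θ hθ
  have h3 : cW h θ ∈ D := hcc ▸ c.2
  have h4 : c = ⟨cW h θ, h3⟩ := Subtype.ext hcc
  have h1 : ((Pool.Agent.TWK.sE p χ t c : D) : ℂ) = ∏ τ : D ≃ₐ[kk A B] D,
      cWt h θ τ ^ (t ((χ τ)⁻¹ : Frˣ)).val := by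
    unfold Pool.Agent.TWK.sE
    push_cast
    refine Finset.prod_congr (by congr) fun τ _ => ?_
    congr 1
    rw [h4]
    exact MEM.2.2.1 τ h3
  rw [h1, ← Finset.prod_fiberwise Finset.univ ρ]
  refine Finset.prod_congr (by congr) fun τ _ => ?_
  rw [cWt_fib h hs ρ hρ θ τ, ← Finset.prod_pow]
  refine Finset.prod_congr rfl fun σ hσ => ?_
  rw [(Finset.mem_filter.1 hσ).2]

/-- `D / k` is abelian -/
theorem ab_D (hfd : FiniteDimensional (kk A B) F) (hgal : IsGalois (kk A B) F)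
    (hc : ∀ σ τ : F ≃ₐ[kk A B] F, σ * τ = τ * σ) (h : kk A B ≤ D) (hs : Sub D F) :
    letI := algC h
    FiniteDimensional (kk A B) D ∧ IsGalois (kk A B) D := by
  let _ := algC h
  have : IsAbelianGalois (kk A B) F := { toIsGalois := hgal, is_comm := ⟨hc⟩ }
  have : IsAbelianGalois (kk A B) D := IsAbelianGalois.of_algHom (incl h hs)
  refine ⟨?_, inferInstance⟩
  exact FiniteDimensional.of_injective (incl h hs).toLinearMap (incl h hs).toRingHom.injective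

theorem main : S_DSQ := by
  intro p _ A B F hfd hgal hc D _ _ h hs Fr _ _
  let _ := algC h
  intro hnd χ
  classical
  have hp : p.Prime := Fact.out
  obtain ⟨hfD, hgD⟩ := ab_D hfd hgal hc h hs
  have hmem := mem_D1 h χ
  obtain ⟨D₁, hD₁def⟩ : ∃ D₁ : IntermediateField ℚ ℂ, D₁ = D1 h χ := ⟨_, rfl⟩
  rw [← hD₁def] at hmem
  have hD₁ : D₁ ≤ D := fun y hy => ((hmem y).1 hy).1
  have hfd1 : FiniteDimensional ℚ D₁ :=
    FiniteDimensional.of_injective (IntermediateField.inclusion hD₁).toLinearMap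
      (IntermediateField.inclusion hD₁).toRingHom.injective
  have h₁ : kk A B ≤ D₁ := by
    intro y hy
    refine (hmem y).2 ⟨h hy, fun τ _ => ?_⟩
    exact τ.commutes (⟨y, hy⟩ : kk A B)
  refine ⟨D₁, hfd1, h₁, ?_⟩
  let _ := algC h₁
  have hs₁ : Sub D₁ F := fun x hx => hs x (hD₁ hx)
  obtain ⟨hfD1, hgD1⟩ := ab_D hfd hgal hc h₁ hs₁
  obtain ⟨e1, e2⟩ := abs_ext hc (incl h hs)
  obtain ⟨e3, e4⟩ := abs_ext hc (incl h₁ hs₁)
  have ex : ∀ (τ : D ≃ₐ[kk A B] D) (σ : F ≃ₐ[kk A B] F),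
      Ext1 h τ σ ↔ ∀ y : D, incl h hs (τ y) = σ (incl h hs y) := Mem.ext1_iff h hs
  have ex₁ : ∀ (τ : D₁ ≃ₐ[kk A B] D₁) (σ : F ≃ₐ[kk A B] F),
      Ext1 h₁ τ σ ↔ ∀ y : D₁, incl h₁ hs₁ (τ y) = σ (incl h₁ hs₁ y) := Mem.ext1_iff h₁ hs₁
  -- common extensions
  have com : ∀ (σ : F ≃ₐ[kk A B] F) (τ : D ≃ₐ[kk A B] D) (τ₁ : D₁ ≃ₐ[kk A B] D₁),
      Ext1 h τ σ → Ext1 h₁ τ₁ σ → ∀ y : D₁, ((τ₁ y : D₁) : ℂ) = (τ ⟨y, hD₁ y.2⟩ : D) := by
    intro σ τ τ₁ k1 k2 y
    rw [← k1 ⟨y, hD₁ y.2⟩ (hs₁ y y.2), ← k2 y (hs₁ y y.2)]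
  have res : ∀ τ : D ≃ₐ[kk A B] D, ∃ τ₁ : D₁ ≃ₐ[kk A B] D₁,
      ∀ y : D₁, ((τ₁ y : D₁) : ℂ) = (τ ⟨y, hD₁ y.2⟩ : D) := by
    intro τ
    obtain ⟨σ, hσ⟩ := e2 τ
    obtain ⟨τ₁, hτ₁⟩ := e3 σ
    exact ⟨τ₁, com σ τ τ₁ ((ex _ _).2 hσ) ((ex₁ _ _).2 hτ₁)⟩
  choose R hR using res
  have uniq : ∀ (τ : D ≃ₐ[kk A B] D) (τ₁ : D₁ ≃ₐ[kk A B] D₁),
      (∀ y : D₁, ((τ₁ y : D₁) : ℂ) = (τ ⟨y, hD₁ y.2⟩ : D)) → R τ = τ₁ := by
    intro τ τ₁ k
    apply AlgEquiv.ext
    intro y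
    exact Subtype.ext ((hR τ y).trans (k y).symm)
  let Rm : (D ≃ₐ[kk A B] D) →* (D₁ ≃ₐ[kk A B] D₁) := MonoidHom.mk' R (by
    intro τ τ'
    apply uniq
    intro y
    rw [AlgEquiv.mul_apply, hR τ, AlgEquiv.mul_apply]
    congr 2
    exact Subtype.ext (hR τ' y))
  have hsurj : Function.Surjective Rm := by
    intro τ₁
    obtain ⟨σ, hσ⟩ := e4 τ₁
    obtain ⟨τ, hτ⟩ := e1 σ
    exact ⟨τ, uniq τ τ₁ (com σ τ τ₁ ((ex _ _).2 hτ) ((ex₁ _ _).2 hσ))⟩
  have hker : Rm.ker ≤ χ.ker := by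
    intro τ hτ
    refine mem_ker χ τ fun y hy => ?_
    have hy1 : (y : ℂ) ∈ D₁ := (hmem y).2 ⟨y.2, fun σ hσ => hy σ hσ⟩
    have h2 := hR τ ⟨y, hy1⟩
    have h3 : R τ = 1 := hτ
    rw [h3] at h2
    exact Subtype.ext h2.symm
  obtain ⟨χ₁, hχ₁⟩ : ∃ χ₁ : (D₁ ≃ₐ[kk A B] D₁) →* Frˣ, ∀ τ, χ₁ (R τ) = χ τ :=
    ⟨Rm.liftOfSurjective hsurj ⟨χ, hker⟩, fun τ =>
      MonoidHom.liftOfRightInverse_comp_apply Rm _ (Function.rightInverse_surjInv hsurj)
        ⟨χ, hker⟩ τ⟩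
  have hcomp : ∀ (σ : F ≃ₐ[kk A B] F) (τ : D ≃ₐ[kk A B] D) (τ₁ : D₁ ≃ₐ[kk A B] D₁),
      Ext1 h τ σ → Ext1 h₁ τ₁ σ → χ τ = χ₁ τ₁ := by
    intro σ τ τ₁ k1 k2
    rw [← hχ₁ τ, uniq τ τ₁ (com σ τ τ₁ k1 k2)]
  refine ⟨hgD1, hD₁, ?_, χ₁, hcomp, ?_⟩
  · intro y
    constructor
    · intro hy σ τ k1 k2
      obtain ⟨hyD, k3⟩ := (hmem y).1 hy
      have k4 := k1 ⟨y, hyD⟩ y.2
      rw [k3 τ k2] at k4
      exact Subtype.ext k4
    · intro hy
      have hyD : (y : ℂ) ∈ D := by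
        have := hfd
        have := hgal
        exact Mem.mem_D h y fun σ hσ => hy σ 1 ((Mem.ext1_one h σ).1 hσ) (map_one χ)
      refine (hmem y).2 ⟨hyD, fun τ hτ => ?_⟩
      obtain ⟨σ, hσ⟩ := e2 τ
      have k1 : Ext1 h τ σ := (ex _ _).2 hσ
      have k2 := k1 ⟨y, hyD⟩ y.2
      have k3 := hy σ τ k1 hτ
      apply Subtype.ext
      rw [← k2]
      exact congrArg Subtype.val k3
  · intro θ hθ c₀ c₁ hc₀ hc₁ t hno y hy
    let _ : Fintype (F ≃ₐ[kk A B] F) := by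
      have := hfd
      exact Fintype.ofFinite _
    choose ρ hρ using fun σ => e1 σ
    choose ρ₁ hρ₁ using fun σ => e3 σ
    have z0 := sE_eq hfd hgal hc h hs Fr p χ ρ (fun σ => (ex _ _).2 (hρ σ)) θ hθ c₀ hc₀ t
    have z1 := sE_eq hfd hgal hc h₁ hs₁ Fr p χ₁ ρ₁ (fun σ => (ex₁ _ _).2 (hρ₁ σ)) θ hθ c₁ hc₁ t
    have zz : ((Pool.Agent.TWK.sE p χ t c₀ : D) : ℂ) =
        ((Pool.Agent.TWK.sE p χ₁ t c₁ : D₁) : ℂ) := by
      rw [z0, z1]
      refine Finset.prod_congr rfl fun σ _ => ?_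
      rw [hcomp σ (ρ σ) (ρ₁ σ) ((ex _ _).2 (hρ σ)) ((ex₁ _ _).2 (hρ₁ σ))]
    set z : D := Pool.Agent.TWK.sE p χ t c₀ with hz
    set z' : D₁ := Pool.Agent.TWK.sE p χ₁ t c₁ with hz'
    have hzfix : ∀ τ : D ≃ₐ[kk A B] D, χ τ = 1 → τ z = z := by
      have h5 : (z : ℂ) ∈ D₁ := zz ▸ z'.2
      intro τ hτ
      exact ((hmem z).1 h5).2 τ hτ
    obtain ⟨d, Y, hd, hY, hYz⟩ := norm_desc χ hp hnd hy hzfix
    have hY1 : (Y : ℂ) ∈ D₁ := (hmem Y).2 ⟨Y.2, fun τ hτ => hY τ hτ⟩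
    have hz0 : z' ≠ 0 := by
      intro h6
      have h7 : ((z' : D₁) : ℂ) = 0 := by rw [h6]; rfl
      rw [z1] at h7
      obtain ⟨σ, -, h8⟩ := Finset.prod_eq_zero_iff.1 h7
      have h9 := (pow_eq_zero_iff').1 h8
      have h10 : σ θ = 0 := Subtype.ext h9.1
      exact hθ ((map_eq_zero σ).1 h10)
    have h11 : (⟨Y, hY1⟩ : D₁) ^ p = z' ^ d := by
      apply Subtype.ext
      have h12 := congrArg (Subtype.val : D → ℂ) hYz
      push_cast at h12 ⊢
      rw [h12, zz]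
    obtain ⟨w, hw⟩ := pow_desc hz0 hd h11
    exact hno w hw

end DSQ

/-- (DSQ) descent to the fixed field of the kernel of `χ` -/
theorem t_DSQ : S_DSQ := DSQ.main

end

end Pool.Agent.TWQ


end

section

/-!
# TWQ, module NEAQ (helper99): the logarithmic derivative of `Θ_a` modulo the maximal ideal
depends only on the reduction of the point
-/

set_option autoImplicit false

open WeierstrassCurve

namespace Pool.Agent.TWQ

open _root_.MU3 Pool.Agent.MU3A Pool.Agent.MU3B Pool.Agent.MUX Pool.Agent.MUXU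
open Pool.Agent.MUXV (GR InK tX)

noncomputable section

namespace NEAQ

/-- polynomials over `V` have congruent values at congruent integral points -/
lemma aeval_near {V : ValuationSubring ℂ} {x x' y y' : ℂ} (hx : V.valuation x ≤ 1)
    (hy : V.valuation y ≤ 1) (hxx : V.valuation (x' - x) < 1) (hyy : V.valuation (y' - y) < 1)
    (θ : MvPolynomial (Fin 2) V) :
    V.valuation (MvPolynomial.aeval ![x, y] θ) ≤ 1 ∧
      V.valuation (MvPolynomial.aeval ![x', y'] θ - MvPolynomial.aeval ![x, y] θ) < 1 := by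
  have hC : ∀ c : V, V.valuation (c : ℂ) ≤ 1 := fun c =>
    (ValuationSubring.valuation_le_one_iff _ _).2 c.2
  have hX : ∀ i : Fin 2, V.valuation ((![x, y] : Fin 2 → ℂ) i) ≤ 1 ∧
      V.valuation ((![x', y'] : Fin 2 → ℂ) i - (![x, y] : Fin 2 → ℂ) i) < 1 := by
    intro i
    fin_cases i
    · exact ⟨hx, hxx⟩
    · exact ⟨hy, hyy⟩
  induction θ using MvPolynomial.induction_on with
  | C c =>
    rw [MvPolynomial.aeval_C, MvPolynomial.aeval_C, sub_self, map_zero]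
    exact ⟨hC c, zero_lt_one⟩
  | add f g hf hg =>
    have a1 : ∀ p : Fin 2 → ℂ, MvPolynomial.aeval p (f + g) =
        MvPolynomial.aeval p f + MvPolynomial.aeval p g := fun p => map_add _ _ _
    rw [a1, a1]
    refine ⟨V.valuation.map_add_le hf.1 hg.1, ?_⟩
    have h1 : ∀ a b c d : ℂ, a + b - (c + d) = (a - c) + (b - d) := by intros; ring
    rw [h1]
    exact V.valuation.map_add_lt hf.2 hg.2
  | mul_X f i hf =>
    have a1 : ∀ p : Fin 2 → ℂ, MvPolynomial.aeval p (f * MvPolynomial.X i) =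
        MvPolynomial.aeval p f * p i := fun p => by rw [map_mul, MvPolynomial.aeval_X]
    rw [a1, a1]
    obtain ⟨h1, h2⟩ := hX i
    refine ⟨by rw [map_mul]; exact mul_le_one' hf.1 h1, ?_⟩
    have h3 : ∀ a b c d : ℂ, a * b - c * d = (a - c) * (b - d) + (a - c) * d + c * (b - d) := by
      intros; ring
    rw [h3]
    refine V.valuation.map_add_lt (V.valuation.map_add_lt ?_ ?_) ?_
    · rw [map_mul]
      exact mul_lt_one_of_nonneg_of_lt_one_left zero_le hf.2 h2.le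
    · rw [map_mul]
      exact mul_lt_one_of_nonneg_of_lt_one_left zero_le hf.2 h1
    · rw [map_mul]
      exact mul_lt_one_of_nonneg_of_lt_one_right hf.1 zero_le h2

end NEAQ

open _root_.Pool.Agent.TWQ.NEAQ in
theorem t_NEAQ : S_NEAQ := by
  intro V L hG a ha hac hva z r hz haz hr
  obtain ⟨W, ξ, G0⟩ := hG
  have G : GR V W L (xn L) (yy L) ξ := G0
  have hz : ¬ InK V L (xn L) z := hz
  have haz : ¬ InK V L (xn L) (a * z) := haz
  have hr : InK V L (xn L) r := hr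
  obtain ⟨H, hH⟩ := Pool.Agent.TWT.XPC.exists_half L (a := a) (by omega) hac
  obtain ⟨θ, hθ⟩ := Pool.Agent.TWT.t_THT V W L ξ G a H ha hva hH 0 0
  have hzr : ¬ InK V L (xn L) (z + r) := fun h => hz (by
    have h1 := Pool.Agent.MUXV.inK_sub G h hr
    rwa [add_sub_cancel_right] at h1)
  have har := Pool.Agent.MUXV.inK_nat G hr a
  have hazr : ¬ InK V L (xn L) (a * (z + r)) := fun h => haz (by
    have h1 := Pool.Agent.MUXV.inK_sub G h har
    have h2 : (a : ℂ) * (z + r) - a * r = a * z := by ring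
    rwa [h2] at h1)
  obtain ⟨e1, v1, e2, w1⟩ := hθ z hz haz
  obtain ⟨e1', v1', e2', w1'⟩ := hθ (z + r) hzr hazr
  obtain ⟨n1, n2⟩ := Pool.Agent.MUXV.near_lt G hz hr
  have hX := (Pool.Agent.MUXV.int_X hz).2
  have hY := Pool.Agent.MUXV.int_Y G hz
  refine ⟨w1, ?_⟩
  have k1 := (aeval_near hX hY n1 n2 θ).2
  have k2 := (aeval_near hX hY n1 n2 (Pool.Agent.TWT.dW 0 0 θ)).2
  rw [e1, e1'] at k1
  rw [e2, e2'] at k2
  -- `Θ(z) (dlX(z + r) - dlX(z)) = (Θ' dl' - Θ dl) - (Θ' - Θ) dl'`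
  have h3 : ThetaH L H z * (dlX L a (z + r) - dlX L a z) =
      (ThetaH L H (z + r) * dlX L a (z + r) - ThetaH L H z * dlX L a z) -
        (ThetaH L H (z + r) - ThetaH L H z) * dlX L a (z + r) := by ring
  have h4 : V.valuation (ThetaH L H z * (dlX L a (z + r) - dlX L a z)) < 1 := by
    rw [h3]
    refine V.valuation.map_sub_lt k2 ?_
    rw [map_mul]
    exact mul_lt_one_of_nonneg_of_lt_one_left zero_le k1 w1'
  rwa [map_mul, v1, one_mul] at h4

end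

end Pool.Agent.TWQ


end

section

/-!
# TWQ, module SYIA (helper19): `p` inert, `1 ≤ e ≤ q - 2`
-/

set_option autoImplicit false

open WeierstrassCurve Polynomial NumberField IsDedekindDomain

namespace Pool.Agent.TWQ

open _root_.MU3 Pool.Agent.MU3A Pool.Agent.MU3B Pool.Agent.MU3F Pool.Agent.MUX Pool.Agent.MUXH
  Pool.Agent.MuSym OnePoint Pool.Agent.TWT Pool.Agent.TWG Pool.Agent.TWI
open Pool.Agent.MUXHY (toCQ toEI toLI nI_eq cjI_eq PhiI_eq PP)
open scoped ComplexConjugate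

noncomputable section

namespace Syq

variable {p : ℕ} {A B : ℤ} {P : Ideal (OO A B)} {V : ValuationSubring ℂ} {f : ℕ}

/-- `epI eta (w ^ e)` is an odd character modulo `(p f)` -/
theorem ei (hS : SetI p A B P V f) {w : OO A B → ℂ} (hw : TeiI p P V w) {n : ℕ} {ι : Type}
    {R : Reps A B n ι} {kp : ι → ℂ} {eta : OO A B → ℂ} {e b q : ℕ} {P' : Ideal (OO A B)}
    (hch : ChQ p q f P P' R kp eta e b) (hb : b = 0) :
    MUX.IsEI (idl (p * f)) (epI eta (fun z => w z ^ e)) := by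
  have he0 : e ≠ 0 := by
    have := hch.e1
    omega
  have hmax := Syi.maxP hS
  have hcop : ∀ x : OO A B, w x ≠ 0 ↔ IsCoprime (MUX.sp x) P := by
    intro x
    rw [Ne, hw.zero]
    constructor
    · intro h
      rw [Ideal.isCoprime_iff_sup_eq]
      refine hmax.1.2 _ ?_
      rw [lt_iff_le_not_ge]
      refine ⟨le_sup_right, fun h1 => h ?_⟩
      exact h1 (Ideal.mem_sup_left (Ideal.mem_span_singleton_self x))
    · intro h h1
      rw [Ideal.isCoprime_iff_sup_eq] at h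
      have h2 : MUX.sp x ≤ P := (Ideal.span_singleton_le_iff_mem _).2 h1
      rw [sup_eq_right.2 h2] at h
      exact hmax.ne_top h
  have hmul : (idl (A := A) (B := B) (p * f)) = idl f * P := by
    have h1 : ((p * f : ℕ) : OO A B) = ((f : ℕ) : OO A B) * ((p : ℕ) : OO A B) := by
      rw [Nat.cast_mul, mul_comm]
    rw [hS.eP]
    show Ideal.span {((p * f : ℕ) : OO A B)} = Ideal.span {((f : ℕ) : OO A B)} *
      Ideal.span {((p : ℕ) : OO A B)}
    rw [Ideal.span_singleton_mul_span_singleton, h1]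
  constructor
  · show eta 1 * w 1 ^ e = 1
    rw [hch.one, hw.one, one_pow, mul_one]
  · intro x y
    show eta (x * y) * w (x * y) ^ e = eta x * w x ^ e * (eta y * w y ^ e)
    rw [hch.mul, hw.mul, mul_pow]
    ring
  · intro x y h
    rw [hmul] at h
    show eta x * w x ^ e = eta y * w y ^ e
    have h1 : x - y ∈ (idl f : Ideal (OO A B)) := Ideal.mul_le_left h
    have h2 : x - y ∈ P := Ideal.mul_le_right h
    rw [hch.per x y h1, hw.per x y h2]
  · intro x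
    show eta x * w x ^ e ≠ 0 ↔ _
    rw [mul_ne_zero_iff, pow_ne_zero_iff he0, hch.supp, hcop, ← IsCoprime.mul_right_iff, hmul]
  · show eta (-1) * w (-1) ^ e = -1
    rw [hch.neg, Syi.w_neg hS hw, hb, add_zero, ← pow_add,
      show e - 1 + e = 2 * (e - 1) + 1 by omega, pow_succ, pow_mul]
    norm_num

/-- the value `0`-twist: the sum over one primitive character -/
theorem sum1 (hS : SetI p A B P V f) {ι : Type} [Fintype ι] (R : Reps A B (p * f) ι)
    {W : OO A B → ℂ} {kp : ι → ℂ} {eta : OO A B → ℂ}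
    (hei : MUX.IsEI (idl (p * f)) (epI eta W)) {l N : ℕ} (hl : l.Prime) (hlf : l ∣ f)
    (ψ : DirichletCharacter ℂ (l ^ N)) (hψ : ψ⁻¹.IsPrimitive) :
    ∑ b ∈ Finset.range (l ^ N), ψ⁻¹ (b : ZMod (l ^ N)) *
      PhI R kp eta W ∞ (((b : ℚ) / (l : ℚ) ^ N : ℚ) : OnePoint ℚ) =
    (haveI : NeZero (l ^ N) := ⟨pow_ne_zero _ hl.ne_zero⟩;
      gaussSum ψ⁻¹ ZMod.stdAddChar) / (2 * ((f * l ^ N * p : ℕ) : ℂ)) *
      SSTI R (f * l ^ N * p) (thT R kp eta ψ) W := by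
  have _nz : NeZero (l ^ N) := ⟨pow_ne_zero _ hl.ne_zero⟩
  have hm : f * l ^ N * p ≠ 0 :=
    mul_ne_zero (mul_ne_zero hS.f0 (pow_ne_zero _ hl.ne_zero)) hS.pp.ne_zero
  have hmg : ((f * l ^ N * p : ℕ) : OO A B) ∈ (idl (p * f) : Ideal (OO A B)) := by
    have : ((f * l ^ N * p : ℕ) : OO A B) = ((l ^ N : ℕ) : OO A B) * ((p * f : ℕ) : OO A B) := by
      push_cast
      ring
    rw [this]
    exact Ideal.mul_mem_left _ _ (Ideal.mem_span_singleton_self _)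
  have hcopm : ∀ i, (MUX.nI (R.b i)).Coprime (f * l ^ N * p) := by
    intro i
    have h1 := R.cop i
    have h2 : (MUX.nI (R.b i)).Coprime p := Nat.Coprime.coprime_mul_right_right h1
    have h3 : (MUX.nI (R.b i)).Coprime f := Nat.Coprime.coprime_mul_left_right h1
    have h4 : (MUX.nI (R.b i)).Coprime l := Nat.Coprime.coprime_dvd_right hlf h3
    exact Nat.Coprime.mul_right (Nat.Coprime.mul_right h3 (Nat.Coprime.pow_right N h4)) h2
  have hprim1 : (1 : DirichletCharacter ℂ 1).IsPrimitive :=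
    DirichletCharacter.isPrimitive_one_level_one
  have hsum := t_SUM A B hS.cq (p * f) ι R P (idl (p * f)) (epI eta W) hei
    kp (f * l ^ N * p) (l ^ N) 1 hm hmg (by rw [mul_one, mul_comm f, mul_assoc]; exact dvd_mul_right _ _)
    hcopm ψ⁻¹ hψ 1 hprim1
  have hg1 : gaussSum (1 : DirichletCharacter ℂ 1) ZMod.stdAddChar = 1 := by
    rw [gaussSum]
    have : (Finset.univ : Finset (ZMod 1)) = {0} := rfl
    rw [this, Finset.sum_singleton, AddChar.map_zero_eq_one, mul_one]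
    exact MulChar.one_apply (isUnit_of_subsingleton _)
  have h1 : ∀ x : ZMod 1, (1 : DirichletCharacter ℂ 1) x = 1 := fun x =>
    MulChar.one_apply (isUnit_of_subsingleton _)
  have hL : ∑ b ∈ Finset.range (l ^ N), ∑ c ∈ Finset.range 1,
      ψ⁻¹ (b : ZMod (l ^ N)) * (1 : DirichletCharacter ℂ 1) (c : ZMod 1) *
      PP R P (epI eta W) kp 0 ∞ (((b : ℚ) / ((l ^ N : ℕ) : ℚ) + (c : ℚ) / ((1 : ℕ) : ℚ) : ℚ) :
        OnePoint ℚ) =
      ∑ b ∈ Finset.range (l ^ N), ψ⁻¹ (b : ZMod (l ^ N)) *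
      PhI R kp eta W ∞ (((b : ℚ) / (l : ℚ) ^ N : ℚ) : OnePoint ℚ) := by
    refine Finset.sum_congr rfl fun b _ => ?_
    rw [Finset.sum_range_one, h1, mul_one, Syi.PhI_PP (P := P)]
    congr 3
    push_cast
    ring
  rw [← hL, hsum, hg1, mul_one]
  congr 1
  unfold SSTI
  refine Finset.sum_congr rfl fun i _ => ?_
  obtain ⟨-, -, -, hfin, -⟩ := MUXF.xf_ALG A B (toCQ hS.cq)
  have hF := hfin _ (idl_ne_bot (A := A) (B := B) hm)
  rw [mul_comm (kp i), mul_assoc, ← Pool.Agent.MUXF.F5x.sm_mul]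
  congr 2
  funext x
  have h2 : (1 : DirichletCharacter ℂ 1)⁻¹ ((nm x * MUX.nI (R.b i) : ℤ) : ZMod 1) = 1 := by
    rw [inv_one]
    exact h1 _
  rw [h2, inv_inv]
  unfold epI thT
  ring

/-- periodicity of the symbol -/
lemma per (hS : SetI p A B P V f) {ι : Type} [Fintype ι] (R : Reps A B (p * f) ι)
    {W : OO A B → ℂ} {kp : ι → ℂ} {eta : OO A B → ℂ}
    (hei : MUX.IsEI (idl (p * f)) (epI eta W)) (r : ℚ) (k : ℤ) :
    PhI R kp eta W ∞ ((r + k : ℚ) : OnePoint ℚ) = PhI R kp eta W ∞ (r : OnePoint ℚ) := by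
  have hD : absD A B ∣ ((p * f : ℕ) : ℤ) := Syi.hDn hS
  exact Pool.Agent.TWB.TWBAux.tr_P tx_HK _ _ _
    (q_SYM hS.cq (Syi.pf0 hS) R (epI eta W) hei (kkI R kp eta W))
    (q_CHR V hS.cq (Syi.pf0 hS) hD _ hei).1 r k

/-- the sum of the even part is twice the sum: any symbol with period `1` -/
theorem sumEv (Q : OnePoint ℚ → OnePoint ℚ → ℂ)
    (hQ : ∀ (r : ℚ) (k : ℤ), Q ∞ ((r + k : ℚ) : OnePoint ℚ) = Q ∞ (r : OnePoint ℚ))
    {l N : ℕ} (hl : l.Prime)
    (χ : DirichletCharacter ℂ (l ^ N)) (hχ : χ (-1) = 1) :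
    ∑ b ∈ Finset.range (l ^ N), χ (b : ZMod (l ^ N)) *
      sgnPart 1 Q ∞ (((b : ℚ) / (l : ℚ) ^ N : ℚ) : OnePoint ℚ) =
    2 * ∑ b ∈ Finset.range (l ^ N), χ (b : ZMod (l ^ N)) *
      Q ∞ (((b : ℚ) / (l : ℚ) ^ N : ℚ) : OnePoint ℚ) := by
  have hl' : ((l : ℚ)) ^ N ≠ 0 := pow_ne_zero _ (by exact_mod_cast hl.ne_zero)
  have h := Pool.Agent.TWB.TWBAux.sum_neg (l ^ N) (fun b : ℤ => χ ((b : ℤ) : ZMod (l ^ N)) *
      Q ∞ (((b : ℚ) / (l : ℚ) ^ N : ℚ) : OnePoint ℚ)) (by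
      intro b
      have e1 : (((b + (l ^ N : ℕ) : ℤ)) : ZMod (l ^ N)) = ((b : ℤ) : ZMod (l ^ N)) := by
        rw [Int.cast_add, Int.cast_natCast, ZMod.natCast_self, add_zero]
      have e2 : ((b + (l ^ N : ℕ) : ℤ) : ℚ) / (l : ℚ) ^ N =
          (b : ℚ) / (l : ℚ) ^ N + ((1 : ℤ) : ℚ) := by
        push_cast
        rw [add_div, div_self hl']
      rw [e1, e2, hQ])
  simp only [Int.cast_natCast] at h
  have h2 : ∀ b : ℕ, χ ((-(b : ℤ) : ℤ) : ZMod (l ^ N)) = χ (b : ZMod (l ^ N)) := by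
    intro b
    rw [show ((-(b : ℤ) : ℤ) : ZMod (l ^ N)) = (-1) * (b : ZMod (l ^ N)) by
      push_cast; ring, map_mul, hχ, one_mul]
  have h3 : ∑ b ∈ Finset.range (l ^ N), χ (b : ZMod (l ^ N)) *
      Q ∞ ((-((b : ℚ) / (l : ℚ) ^ N) : ℚ) : OnePoint ℚ) =
      ∑ b ∈ Finset.range (l ^ N), χ (b : ZMod (l ^ N)) *
      Q ∞ (((b : ℚ) / (l : ℚ) ^ N : ℚ) : OnePoint ℚ) := by
    rw [← h]
    refine Finset.sum_congr rfl fun b _ => ?_
    rw [h2]
    congr 3
    push_cast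
    ring
  simp only [Syi.sgn1, mul_add, Finset.sum_add_distrib]
  rw [h3]
  ring

/-- depletion of the even part -/
theorem depEv (Q : OnePoint ℚ → OnePoint ℚ → ℂ) {l : ℕ} (hl : l.Prime)
    (h1 : ∀ y : ℚ, ∑ k ∈ Finset.range l, Q ∞ ((y + (k : ℚ) / l : ℚ) : OnePoint ℚ) = 0) (x : ℚ) :
    ∑ k ∈ Finset.range l, sgnPart 1 Q ∞ ((x + (k : ℚ) / l : ℚ) : OnePoint ℚ) = 0 := by
  simp only [Syi.sgn1]
  rw [Finset.sum_add_distrib]
  have h2 : ∑ k ∈ Finset.range l, Q ∞ ((-(x + (k : ℚ) / l) : ℚ) : OnePoint ℚ) = 0 := by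
    have hlQ : (l : ℚ) ≠ 0 := by exact_mod_cast hl.ne_zero
    have := h1 (-x - ((l : ℚ) - 1) / l)
    rw [← this, ← Finset.sum_range_reflect]
    refine Finset.sum_congr rfl fun k hk' => ?_
    have hkl : k < l := Finset.mem_range.1 hk'
    have hc : ((l - 1 - k : ℕ) : ℚ) = (l : ℚ) - 1 - k := by
      rw [Nat.cast_sub (by omega), Nat.cast_sub (by omega)]
      simp
    rw [hc]
    congr 2
    field_simp
    ring
  rw [h1, h2, add_zero]

lemma l_prime {l g h : ℕ} (hG : Pool.Agent.TWR.Gen l g h) : l.Prime := by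
  rcases hG with ⟨h1, -, -⟩ | ⟨h1, -, -⟩ <;> rw [h1]
  · exact Nat.prime_three
  · exact Nat.prime_two

/-- `thQ` for `P' = ⊤` -/
lemma ssti {n : ℕ} {ι : Type} [Fintype ι] (R : Reps A B n ι) (M : ℕ) (kp : ι → ℂ)
    (eta w : OO A B → ℂ) {r : ℕ} (ψ : DirichletCharacter ℂ r) (e : ℕ) (he : 1 ≤ e) :
    SSTI R M (thQ R kp eta ψ w e 0) w = SSTI R M (thT R kp eta ψ) (fun z => w z ^ e) := by
  unfold SSTI
  refine Finset.sum_congr rfl fun i _ => ?_
  congr 2
  funext x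
  unfold thQ
  have h1 : w x ^ e = w x ^ (e - 1) * w x := by
    rw [← pow_succ]
    congr 1
    omega
  show thT R kp eta ψ i x * w x ^ (e - 1) * w (star x) ^ 0 * w x * _ =
    thT R kp eta ψ i x * w x ^ e * _
  rw [h1, pow_zero]
  ring

end Syq

open _root_.Pool.Agent.TWQ.Syq in
/-- (SYIA) -/
theorem t_SYIA (hTYP : S_TYPQ) : S_SYIA := by
  intro l g h hG p A B P V f hS hlf hTor ι _ R hGR w hw kp eta e hch he
  have hp := hS.pp
  have hl : l.Prime := l_prime hG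
  have he1 : 1 ≤ e := hch.e1
  have hq : 0 < p ^ 2 - 1 := by
    have := hS.p5
    have : 25 ≤ p ^ 2 := by nlinarith
    omega
  have hp0 : (p : ℂ) ≠ 0 := by exact_mod_cast hp.ne_zero
  have hvp0 : V.valuation (p : ℂ) ≠ 0 := (Valuation.ne_zero_iff _).2 hp0
  obtain ⟨tau, htau⟩ : ∃ tau : ℂ, tau ^ (p ^ 2 - 1) = (p : ℂ) ^ e :=
    IsAlgClosed.exists_pow_nat_eq _ hq
  have hvt : V.valuation tau ^ (p ^ 2 - 1) = V.valuation (p : ℂ) ^ e := by
    rw [← map_pow, htau, map_pow]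
  have htaua : IsAlgebraic ℚ tau := by
    refine IsAlgebraic.of_pow hq ?_
    rw [htau]
    exact (isAlgebraic_natCast (R := ℚ) (A := ℂ) p).pow e
  obtain ⟨W, hW⟩ : ∃ W : OO A B → ℂ, W = fun z => w z ^ e := ⟨_, rfl⟩
  have hei : MUX.IsEI (idl (p * f)) (epI eta W) := hW ▸ ei hS hw hch rfl
  have hsym := q_SYM hS.cq (Syi.pf0 hS) R (epI eta W) hei (kkI R kp eta W)
  have hchr := q_CHR V hS.cq (Syi.pf0 hS) (Syi.hDn hS) (epI eta W) hei
  have hsymE : IsSym (NI A B (p * f)) (nuX (epI eta W))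
      (sgnPart 1 (QI R (epI eta W) (kkI R kp eta W))) :=
    (tx_HK 1 le_rfl _ (nuX (epI eta W)) _ (QI R (epI eta W) (kkI R kp eta W))
      hsym hchr.1 1).2.1
  have hpV : (p : ℂ) ∈ V.nonunits := (ValuationSubring.mem_nonunits_iff _).2 (Syi.vp hS)
  have hLoc : Pool.Agent.NSG.LocN A B V := Pool.Agent.N2.loc_p hp hS.cq (Syi.hV' hS)
  have hroot : ∀ i, ∃ r : ℕ, r ≠ 0 ∧ kkI R kp eta W i ^ r = 1 := by
    intro i
    obtain ⟨r, hr, h1, -⟩ := hch.fin
    obtain ⟨r', hr', h2⟩ := q_ROU hS.cq (Syi.pf0 hS) (epI eta W) hei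
    refine ⟨r * r', mul_ne_zero (fun h0 => hr (h0 ▸ dvd_zero p)) hr', ?_⟩
    have h3 := h2 _ (MUXHY.Brg.e_nI R hei (Ideal.mem_span_singleton_self _) i)
    unfold kkI
    rw [mul_pow, pow_mul, h1, one_pow, inv_pow, mul_comm r, pow_mul, h3, one_pow, inv_one,
      mul_one]
  have halg : ∀ x y, IsAlgebraic ℚ (PhI R kp eta W x y) := fun x y =>
    q_ALG hS.cq (Syi.n2 hS) R _ hei _ (fun i => by
      obtain ⟨r, hr, h1⟩ := hroot i
      exact IsAlgebraic.of_pow (Nat.pos_of_ne_zero hr) (by rw [h1]; exact isAlgebraic_one)) x y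
  obtain ⟨n0, hn0⟩ := Pool.Agent.TWR.a_TW4 l g h hG V p hp hS.p5 (Syi.vp hS) Unit
    (NI A B (p * f)) (NI_ne hS.cq (Syi.pf0 hS)) (fun _ => nuX (epI eta W))
    (fun _ => hchr.2.1) (fun _ => hchr.1) (fun _ => hchr.2.2.2)
    (fun _ => hchr.2.2.1)
    (fun _ x y => tau * sgnPart 1 (PhI R kp eta W) x y)
    (fun _ => {
      add := fun x y z => by
        have := hsymE.add x y z
        rw [← mul_add]
        exact congrArg (fun z => tau * z) this
      equiv := fun a b c d h1 h2 x y => by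
        have := hsymE.equiv a b c d h1 h2 x y
        rw [mul_left_comm]
        exact congrArg (fun z => tau * z) this })
    (fun _ x => htaua.mul (by
      rw [Syi.sgn1]
      exact (halg _ _).add (halg _ _)))
    (fun _ x => by
      rw [Syi.sgn1, Syi.sgn1, neg_neg, add_comm])
    (fun _ x => by
      rw [← Finset.mul_sum, depEv (PhI R kp eta W) hl (fun y =>
        q_DEP hS.cq (Syi.pf0 hS) R _ hei _ l hl (hlf.trans (dvd_mul_left f p)) y) x, mul_zero])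
    (fun _ N' hN' hd => by
      obtain ⟨a, b, c, d, m1, m2, m3, m4⟩ := q_GS hS.cq (Syi.n2 hS) V p hp hpV hLoc R
        (hGR.kap _) (hGR.dis _) (Syi.hDn hS) (Syi.vD hS) (epI eta W) hei
        (kkI R kp eta W) (by
          obtain ⟨r, hr, h1⟩ := hroot R.i0
          exact MUXHY.Val.root_one V r _ hr h1) 1 N' hN' hd
      refine ⟨a, b, c, d, m1, m2, m3, ?_⟩
      have h5 := hTYP p A B P V f hS hTor ι R hGR w hw kp eta e hch he ∞ (mob a b c d ∞) (by
        rw [← hW]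
        exact m4)
      rw [← hW] at h5
      rw [map_mul]
      by_contra hlt
      rw [not_le] at hlt
      have h6 : V.valuation tau ^ (p ^ 2 - 1) *
          V.valuation (sgnPart 1 (PhI R kp eta W) ∞ (mob a b c d ∞)) ^ (p ^ 2 - 1) < 1 := by
        rw [← mul_pow]
        exact pow_lt_one₀ zero_le hlt hq.ne'
      rw [hvt] at h6
      exact absurd h5 (not_le.2 h6))
  refine ⟨max n0 2, fun n hn' ψ hψ1 hψ2 => ?_⟩
  have hn2 : 2 ≤ n := (le_max_right _ _).trans hn'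
  have hnn : n0 ≤ n := (le_max_left _ _).trans hn'
  have _nzl : NeZero (l ^ n) := ⟨pow_ne_zero _ hl.ne_zero⟩
  have hψi1 : ψ⁻¹ (-1) = 1 := by
    rw [MulChar.inv_apply_eq_inv', hψ1, inv_one]
  have hψi2 : ψ⁻¹ (1 + (l : ZMod (l ^ n)) ^ (n - 1)) ≠ 1 := by
    rw [MulChar.inv_apply_eq_inv']
    intro h1
    exact hψ2 (inv_eq_one.1 h1)
  have hv := hn0 n hnn () ψ⁻¹ hψi1 hψi2
  have hprim := Gau.prim hl hn2 ψ⁻¹ hψi2
  rw [ssti R _ kp eta w ψ e he1, ← hW]
  -- the value of the symbol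
  have hs1 := sum1 hS R hei (kp := kp) hl hlf ψ hprim
  have hs2 := sumEv (PhI R kp eta W) (per hS R hei) hl ψ⁻¹ hψi1
  rw [hs1] at hs2
  have hlp : ¬ (p : ℤ) ∣ (l : ℤ) := by
    intro hd
    have h1 : p ∣ l := by exact_mod_cast hd
    exact hS.fp (h1.trans hlf)
  have vl : V.valuation (l : ℂ) = 1 := by
    have := Syi.vn hS l hlp
    rwa [Int.cast_natCast] at this
  have hg : V.valuation (gaussSum ψ⁻¹ ZMod.stdAddChar) = 1 := by
    refine Gau.gone V ψ⁻¹ hprim ?_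
    push_cast
    rw [map_pow, vl, one_pow]
  have hv2m : V.valuation (2 * ((f * l ^ n * p : ℕ) : ℂ)) = V.valuation (p : ℂ) := by
    push_cast
    rw [map_mul, map_mul, map_mul, map_pow, Syi.v2 hS, Syi.vf hS, vl, one_pow, one_mul, one_mul,
      one_mul]
  set S : ℂ := ∑ b ∈ Finset.range (l ^ n), ψ⁻¹ (b : ZMod (l ^ n)) *
    sgnPart 1 (PhI R kp eta W) ∞ (((b : ℚ) / (l : ℚ) ^ n : ℚ) : OnePoint ℚ) with hSd
  have hga : V.valuation (p : ℂ) * V.valuation S =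
      V.valuation (SSTI R (f * l ^ n * p) (thT R kp eta ψ) W) := by
    rw [hs2, map_mul, map_mul, map_div₀, hv2m, hg, Syi.v2 hS]
    field_simp
  have e1 : ∑ b ∈ Finset.range (l ^ n), ψ⁻¹ (b : ZMod (l ^ n)) *
      (tau * sgnPart 1 (PhI R kp eta W) ∞
        (((b : ℚ) / (l : ℚ) ^ n : ℚ) : OnePoint ℚ)) = tau * S := by
    rw [hSd, Finset.mul_sum]
    exact Finset.sum_congr rfl fun b _ => by ring
  rw [e1, map_mul] at hv
  rw [← hga, mul_pow]
  have h7 : 1 ≤ V.valuation (p : ℂ) ^ e * V.valuation S ^ (p ^ 2 - 1) := by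
    rw [← hvt, ← mul_pow]
    exact one_le_pow₀ hv
  have h8 : V.valuation (p : ℂ) ^ (p ^ 2 - 1) =
      V.valuation (p : ℂ) ^ (p ^ 2 - 1 - e) * V.valuation (p : ℂ) ^ e := by
    rw [← pow_add]
    congr 1
    omega
  rw [h8, mul_assoc]
  exact le_mul_of_one_le_right' h7

end

end Pool.Agent.TWQ


end

section

/-!
# TWQ, module SPI (helper19): `p` inert, `e = q - 1`: the part `x ∈ P` of the sum is large
-/

set_option autoImplicit false

open WeierstrassCurve Polynomial NumberField IsDedekindDomain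

namespace Pool.Agent.TWQ

open _root_.MU3 Pool.Agent.MU3A Pool.Agent.MU3B Pool.Agent.MU3F Pool.Agent.MUX Pool.Agent.MUXH
  Pool.Agent.MuSym OnePoint Pool.Agent.TWT Pool.Agent.TWG Pool.Agent.TWI
open Pool.Agent.MUXHY (toCQ toEI toLI nI_eq cjI_eq PhiI_eq PP)
open scoped ComplexConjugate

noncomputable section

namespace Spi

variable {p : ℕ} {A B : ℤ} {P : Ideal (OO A B)} {V : ValuationSubring ℂ} {f : ℕ}

/-- the same representatives, for the level `f` -/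
def Rf {ι : Type} (R : Reps A B (p * f) ι) : Reps A B f ι where
  b := R.b
  L := R.L
  om := R.om
  i0 := R.i0
  nl := R.nl
  cop := fun i => Nat.Coprime.coprime_mul_left_right (R.cop i)
  b0 := R.b0
  surj := R.surj
  inj := R.inj

/-- the weights -/
def wf {ι : Type} {n : ℕ} (R : Reps A B n ι) (kp : ι → ℂ) (eta : OO A B → ℂ) (i : ι) : ℂ :=
  kp i * (eta ((MUX.nI (R.b i) : ℕ) : OO A B))⁻¹

/-- `eta` is an odd character modulo `f` -/
theorem eif {n : ℕ} {ι : Type}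
    {R : Reps A B n ι} {kp : ι → ℂ} {eta : OO A B → ℂ} {e b q : ℕ} {P' : Ideal (OO A B)}
    (hch : ChQ p q f P P' R kp eta e b) (hodd : Odd (e - 1 + b)) :
    MUX.IsEI (idl f) eta := by
  constructor
  · exact hch.one
  · exact hch.mul
  · exact hch.per
  · exact hch.supp
  · rw [hch.neg]
    exact Odd.neg_one_pow hodd

/-- the sum over one primitive character -/
theorem sumf (hS : SetI p A B P V f) {ι : Type} [Fintype ι] (R : Reps A B (p * f) ι)
    {kp : ι → ℂ} {eta : OO A B → ℂ}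
    (hei : MUX.IsEI (idl f) eta) {l N : ℕ} (hl : l.Prime) (hlf : l ∣ f)
    (ψ : DirichletCharacter ℂ (l ^ N)) (hψ : ψ⁻¹.IsPrimitive) :
    ∑ b ∈ Finset.range (l ^ N), ψ⁻¹ (b : ZMod (l ^ N)) *
      QI (Rf R) eta (wf R kp eta) ∞ (((b : ℚ) / (l : ℚ) ^ N : ℚ) : OnePoint ℚ) =
    (haveI : NeZero (l ^ N) := ⟨pow_ne_zero _ hl.ne_zero⟩;
      gaussSum ψ⁻¹ ZMod.stdAddChar) / (2 * ((f * l ^ N : ℕ) : ℂ)) *
      SAll R (f * l ^ N) (thT R kp eta ψ) := by
  have _nz : NeZero (l ^ N) := ⟨pow_ne_zero _ hl.ne_zero⟩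
  have hm : f * l ^ N ≠ 0 := mul_ne_zero hS.f0 (pow_ne_zero _ hl.ne_zero)
  have hmg : ((f * l ^ N : ℕ) : OO A B) ∈ (idl f : Ideal (OO A B)) := by
    have : ((f * l ^ N : ℕ) : OO A B) = ((l ^ N : ℕ) : OO A B) * ((f : ℕ) : OO A B) := by
      push_cast
      ring
    rw [this]
    exact Ideal.mul_mem_left _ _ (Ideal.mem_span_singleton_self _)
  have hcopm : ∀ i, (MUX.nI ((Rf R).b i)).Coprime (f * l ^ N) := by
    intro i
    have h1 := R.cop i
    have h3 : (MUX.nI (R.b i)).Coprime f := Nat.Coprime.coprime_mul_left_right h1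
    have h4 : (MUX.nI (R.b i)).Coprime l := Nat.Coprime.coprime_dvd_right hlf h3
    exact Nat.Coprime.mul_right h3 (Nat.Coprime.pow_right N h4)
  have hprim1 : (1 : DirichletCharacter ℂ 1).IsPrimitive :=
    DirichletCharacter.isPrimitive_one_level_one
  have hsum := t_SUM A B hS.cq f ι (Rf R) P (idl f) eta hei
    kp (f * l ^ N) (l ^ N) 1 hm hmg (by rw [mul_one]; exact dvd_mul_left _ _)
    hcopm ψ⁻¹ hψ 1 hprim1
  have hg1 : gaussSum (1 : DirichletCharacter ℂ 1) ZMod.stdAddChar = 1 := by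
    rw [gaussSum]
    have : (Finset.univ : Finset (ZMod 1)) = {0} := rfl
    rw [this, Finset.sum_singleton, AddChar.map_zero_eq_one, mul_one]
    exact MulChar.one_apply (isUnit_of_subsingleton _)
  have h1 : ∀ x : ZMod 1, (1 : DirichletCharacter ℂ 1) x = 1 := fun x =>
    MulChar.one_apply (isUnit_of_subsingleton _)
  have hQP : ∀ x y, QI (Rf R) eta (wf R kp eta) x y = PP (Rf R) P eta kp 0 x y := by
    intro x y
    rw [MUXHY.Brg.PP_zero]
    rfl
  have hL : ∑ b ∈ Finset.range (l ^ N), ∑ c ∈ Finset.range 1,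
      ψ⁻¹ (b : ZMod (l ^ N)) * (1 : DirichletCharacter ℂ 1) (c : ZMod 1) *
      PP (Rf R) P eta kp 0 ∞ (((b : ℚ) / ((l ^ N : ℕ) : ℚ) + (c : ℚ) / ((1 : ℕ) : ℚ) : ℚ) :
        OnePoint ℚ) =
      ∑ b ∈ Finset.range (l ^ N), ψ⁻¹ (b : ZMod (l ^ N)) *
      QI (Rf R) eta (wf R kp eta) ∞ (((b : ℚ) / (l : ℚ) ^ N : ℚ) : OnePoint ℚ) := by
    refine Finset.sum_congr rfl fun b _ => ?_
    rw [Finset.sum_range_one, h1, mul_one, hQP]
    congr 3
    push_cast
    ring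
  rw [← hL, hsum, hg1, mul_one]
  congr 1
  unfold SAll
  refine Finset.sum_congr rfl fun i _ => ?_
  obtain ⟨-, -, -, hfin, -⟩ := MUXF.xf_ALG A B (toCQ hS.cq)
  have hF := hfin _ (idl_ne_bot (A := A) (B := B) hm)
  have hmu : muX (Rf R) i = muX R i := rfl
  rw [mul_comm (kp i), mul_assoc, ← Pool.Agent.MUXF.F5x.sm_mul, hmu]
  congr 2
  funext x
  have h2 : (1 : DirichletCharacter ℂ 1)⁻¹ ((nm x * MUX.nI ((Rf R).b i) : ℤ) : ZMod 1) = 1 := by
    rw [inv_one]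
    exact h1 _
  have hpt : ee ((Rf R).L i) (pt (Rf R) (f * l ^ N) i x) = ee (R.L i) (pt R (f * l ^ N) i x) := rfl
  have hb : (Rf R).b i = R.b i := rfl
  rw [h2, inv_inv, hpt, hb]
  unfold thT
  ring

/-- the sum over the multiples of `p` -/
theorem sumP (hS : SetI p A B P V f) {w : OO A B → ℂ} (hw : TeiI p P V w) (m : ℕ) (hm : m ≠ 0)
    (F : OO A B → ℂ)
    (hF : ∀ x y, x - y ∈ Ideal.span {((m * p : ℕ) : OO A B)} → F x = F y) :
    sumMod ((m * p : ℕ) : OO A B) (fun x => F x * (1 - w x ^ (p ^ 2 - 1))) =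
      sumMod ((m : ℕ) : OO A B) (fun x => F (((p : ℕ) : OO A B) * x)) := by
  have hQ := toCQ hS.cq
  have hp0 := hS.pp.ne_zero
  have hq : p ^ 2 - 1 ≠ 0 := by
    have := hS.p5
    have : 25 ≤ p ^ 2 := by nlinarith
    omega
  obtain ⟨-, -, -, -, hdom⟩ := MUXF.xf_ALG A B hQ
  have hf1 := SDE.finR (A := A) (B := B) (m * p) (mul_ne_zero hm hp0)
  have hf2 := SDE.finR (A := A) (B := B) m hm
  have := Fintype.ofFinite (OO A B ⧸ Ideal.span {((m * p : ℕ) : OO A B)})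
  have := Fintype.ofFinite (OO A B ⧸ Ideal.span {((m : ℕ) : OO A B)})
  have hpO : ((p : ℕ) : OO A B) ≠ 0 := Pool.Agent.MUXN.Gdt.nat_ne p hp0
  have hPp : ∀ x : OO A B, x ∈ P ↔ ((p : ℕ) : OO A B) ∣ x := by
    intro x
    rw [hS.eP]
    exact Ideal.mem_span_singleton
  unfold sumMod
  rw [finsum_eq_sum_of_fintype, finsum_eq_sum_of_fintype]
  symm
  refine Fintype.sum_of_injective (fun q : OO A B ⧸ Ideal.span {((m : ℕ) : OO A B)} =>
    Ideal.Quotient.mk (Ideal.span {((m * p : ℕ) : OO A B)})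
      (((p : ℕ) : OO A B) * Quotient.out q)) ?_ _ _ ?_ ?_
  · intro q q' h
    have h1 : ((m * p : ℕ) : OO A B) ∣
        ((p : ℕ) : OO A B) * Quotient.out q - ((p : ℕ) : OO A B) * Quotient.out q' :=
      (SDE.mk_eq_iff _ _ _).1 h
    rw [← mul_sub, Nat.cast_mul, mul_comm ((m : ℕ) : OO A B)] at h1
    have h2 := (mul_dvd_mul_iff_left hpO).1 h1
    rw [← Ideal.Quotient.mk_out q, ← Ideal.Quotient.mk_out q', SDE.mk_eq_iff]
    exact h2
  · intro u hu
    by_cases h : Quotient.out u ∈ P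
    · exfalso
      apply hu
      obtain ⟨x, hx⟩ := (hPp _).1 h
      refine ⟨Ideal.Quotient.mk _ x, ?_⟩
      show Ideal.Quotient.mk _ (((p : ℕ) : OO A B) * Quotient.out (Ideal.Quotient.mk _ x)) = u
      rw [← Ideal.Quotient.mk_out u, SDE.mk_eq_iff, hx, ← mul_sub, Nat.cast_mul,
        mul_comm ((m : ℕ) : OO A B)]
      refine mul_dvd_mul_left _ ?_
      rw [← SDE.mk_eq_iff, Ideal.Quotient.mk_out]
    · show F (Quotient.out u) * (1 - w (Quotient.out u) ^ (p ^ 2 - 1)) = 0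
      rw [hw.root _ h, sub_self, mul_zero]
  · intro q
    set u := Ideal.Quotient.mk (Ideal.span {((m * p : ℕ) : OO A B)})
      (((p : ℕ) : OO A B) * Quotient.out q) with hu
    have h1 : ((m * p : ℕ) : OO A B) ∣ Quotient.out u - ((p : ℕ) : OO A B) * Quotient.out q := by
      rw [← SDE.mk_eq_iff, Ideal.Quotient.mk_out]
    have h2 : F (Quotient.out u) = F (((p : ℕ) : OO A B) * Quotient.out q) :=
      hF _ _ (Ideal.mem_span_singleton.2 h1)
    have h3 : Quotient.out u ∈ P := by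
      rw [hPp]
      have h4 : ((p : ℕ) : OO A B) ∣ Quotient.out u - ((p : ℕ) : OO A B) * Quotient.out q := by
        refine Dvd.dvd.trans ?_ h1
        rw [Nat.cast_mul]
        exact Dvd.intro_left _ rfl
      have h5 := dvd_add h4 (Dvd.intro (Quotient.out q) (rfl :
        ((p : ℕ) : OO A B) * Quotient.out q = ((p : ℕ) : OO A B) * Quotient.out q))
      rwa [sub_add_cancel] at h5
    show F (((p : ℕ) : OO A B) * Quotient.out q) =
      F (Quotient.out u) * (1 - w (Quotient.out u) ^ (p ^ 2 - 1))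
    rw [h2, (hw.zero _).2 h3, zero_pow hq, sub_zero, mul_one]

/-- `SPt` in terms of the sum of level `m` -/
theorem spt (hS : SetI p A B P V f) {w : OO A B → ℂ} (hw : TeiI p P V w) {ι : Type} [Fintype ι]
    (R : Reps A B (p * f) ι) {kp : ι → ℂ} {eta : OO A B → ℂ} {e b q : ℕ} {P' : Ideal (OO A B)}
    (hch : ChQ p q f P P' R kp eta e b) {l N : ℕ} (hl : l.Prime)
    (ψ : DirichletCharacter ℂ (l ^ N)) :
    SPt R (f * l ^ N * p) (p ^ 2 - 1) (thP R kp eta ψ w 0) w =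
      (eta ((p : ℕ) : OO A B) * ψ ((p : ZMod (l ^ N)) ^ 2)) *
        SAll R (f * l ^ N) (thT R kp eta ψ) := by
  have hcq := hS.cq
  have hm : f * l ^ N ≠ 0 := mul_ne_zero hS.f0 (pow_ne_zero _ hl.ne_zero)
  have hp0 := hS.pp.ne_zero
  unfold SPt SAll
  rw [Finset.mul_sum]
  refine Finset.sum_congr rfl fun i _ => ?_
  obtain ⟨ptp1, ptp2⟩ := Pool.Agent.MUXI.ti_PTP A B hcq (p * f) ι R (f * l ^ N * p)
    (mul_ne_zero hm hp0) i
  rw [mul_left_comm]
  congr 1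
  rw [← SDE.sumMod_cmul]
  have hMf : ∀ x : OO A B, x ∈ idl (A := A) (B := B) (f * l ^ N * p) →
      x ∈ idl (A := A) (B := B) f := by
    intro x hx
    obtain ⟨t, rfl⟩ := Ideal.mem_span_singleton.1 hx
    rw [Ideal.mem_span_singleton]
    refine Dvd.dvd.mul_right ?_ _
    exact Nat.cast_dvd_cast ⟨l ^ N * p, by ring⟩
  have hMl : ∀ x : OO A B, x ∈ idl (A := A) (B := B) (f * l ^ N * p) →
      x ∈ idl (A := A) (B := B) (l ^ N) := by
    intro x hx
    obtain ⟨t, rfl⟩ := Ideal.mem_span_singleton.1 hx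
    rw [Ideal.mem_span_singleton]
    refine Dvd.dvd.mul_right ?_ _
    exact Nat.cast_dvd_cast ⟨f * p, by ring⟩
  have h1 := sumP hS hw (f * l ^ N) hm
    (fun x => thT R kp eta ψ i x * ee (R.L i) (pt R (f * l ^ N * p) i x)) (by
      intro x y hxy
      show thT R kp eta ψ i x * _ = thT R kp eta ψ i y * _
      rw [(ptp1 x y hxy).2.1]
      congr 1
      unfold thT
      rw [hch.per x y (hMf _ hxy)]
      have h3 := SDE.nm_per (l ^ N) (hMl _ hxy)
      have h4 : ((nm x * (MUX.nI (R.b i) : ℤ) : ℤ) : ZMod (l ^ N)) =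
          ((nm y * (MUX.nI (R.b i) : ℤ) : ℤ) : ZMod (l ^ N)) := by
        rw [← sub_eq_zero, ← Int.cast_sub, ZMod.intCast_zmod_eq_zero_iff_dvd, ← sub_mul]
        exact h3.mul_right _
      rw [h4])
  have h2 : (fun x => thP R kp eta ψ w 0 i x * (1 - w x ^ (p ^ 2 - 1)) *
      ee (R.L i) (pt R (f * l ^ N * p) i x)) = fun x =>
      thT R kp eta ψ i x * ee (R.L i) (pt R (f * l ^ N * p) i x) * (1 - w x ^ (p ^ 2 - 1)) := by
    funext x
    unfold thP
    rw [pow_zero]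
    ring
  rw [h2, h1]
  congr 1
  funext x
  have h3 : thT R kp eta ψ i (((p : ℕ) : OO A B) * x) =
      eta ((p : ℕ) : OO A B) * ψ ((p : ZMod (l ^ N)) ^ 2) * thT R kp eta ψ i x := by
    unfold thT
    rw [hch.mul, SDE.nm_nat_mul]
    have e1 : (((p : ℤ) ^ 2 * nm x * (MUX.nI (R.b i) : ℤ) : ℤ) : ZMod (l ^ N)) =
        (p : ZMod (l ^ N)) ^ 2 * ((nm x * (MUX.nI (R.b i) : ℤ) : ℤ) : ZMod (l ^ N)) := by
      push_cast
      ring
    rw [e1, map_mul]
    ring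
  have h4 : pt R (f * l ^ N * p) i (((p : ℕ) : OO A B) * x) = pt R (f * l ^ N) i x := by
    have hpC : (p : ℂ) ≠ 0 := by exact_mod_cast hp0
    have hmC : ((f * l ^ N : ℕ) : ℂ) ≠ 0 := by exact_mod_cast hm
    unfold pt
    rw [emb_mul hcq, emb_natCast hcq, Nat.cast_mul (f * l ^ N) p]
    field_simp
  show thT R kp eta ψ i (((p : ℕ) : OO A B) * x) *
    ee (R.L i) (pt R (f * l ^ N * p) i (((p : ℕ) : OO A B) * x)) = _
  rw [h3, h4]
  ring

end Spi

open _root_.Pool.Agent.TWQ.Spi in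
/-- (SPI) -/
theorem t_SPI : S_SPI := by
  intro l g h hG p A B P V f hS hlf ι _ R hGR w hw kp eta hch
  have hp := hS.pp
  have hp5 := hS.p5
  have hl : l.Prime := Syq.l_prime hG
  have hpodd : p % 2 = 1 := by
    rcases hp.eq_two_or_odd with h1 | h1
    · omega
    · exact h1
  have hf2 : 2 ≤ f := by
    have h1 := Nat.le_of_dvd (Nat.pos_of_ne_zero hS.f0) hlf
    exact hl.two_le.trans h1
  have hei : MUX.IsEI (idl f) eta := eif hch (by
    have h1 : Odd (p ^ 2) := (Nat.odd_iff.2 hpodd).pow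
    have h2 : 25 ≤ p ^ 2 := by nlinarith
    obtain ⟨k, hk⟩ := h1
    rw [Nat.odd_iff]
    omega)
  have hDf : absD A B ∣ ((f : ℕ) : ℤ) := (Dvd.intro_left 2 rfl).trans hS.fD
  have hsym := q_SYM hS.cq hS.f0 (Rf R) eta hei (wf R kp eta)
  have hchr := q_CHR V hS.cq hS.f0 hDf eta hei
  have hsymE : IsSym (NI A B f) (nuX eta)
      (sgnPart 1 (QI (Rf R) eta (wf R kp eta))) :=
    (tx_HK 1 le_rfl _ (nuX eta) _ (QI (Rf R) eta (wf R kp eta)) hsym hchr.1 1).2.1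
  have hpV : (p : ℂ) ∈ V.nonunits := (ValuationSubring.mem_nonunits_iff _).2 (Syi.vp hS)
  have hLoc : Pool.Agent.NSG.LocN A B V := Pool.Agent.N2.loc_p hp hS.cq (Syi.hV' hS)
  have hroot : ∀ i, ∃ r : ℕ, r ≠ 0 ∧ wf R kp eta i ^ r = 1 := by
    intro i
    obtain ⟨r, hr, h1, -⟩ := hch.fin
    obtain ⟨r', hr', h2⟩ := q_ROU hS.cq hS.f0 eta hei
    refine ⟨r * r', mul_ne_zero (fun h0 => hr (h0 ▸ dvd_zero p)) hr', ?_⟩
    have h3 := h2 _ (MUXHY.Brg.e_nI (Rf R) hei (Ideal.mem_span_singleton_self _) i)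
    have h4 : eta ((MUX.nI (R.b i) : ℕ) : OO A B) ^ r' = 1 := h3
    unfold wf
    rw [mul_pow, pow_mul, h1, one_pow, inv_pow, mul_comm r, pow_mul, h4, one_pow, inv_one,
      mul_one]
  have halg : ∀ x y, IsAlgebraic ℚ (QI (Rf R) eta (wf R kp eta) x y) := fun x y =>
    q_ALG hS.cq hf2 (Rf R) _ hei _ (fun i => by
      obtain ⟨r, hr, h1⟩ := hroot i
      exact IsAlgebraic.of_pow (Nat.pos_of_ne_zero hr) (by rw [h1]; exact isAlgebraic_one)) x y
  obtain ⟨n0, hn0⟩ := Pool.Agent.TWR.a_TW4 l g h hG V p hp hS.p5 (Syi.vp hS) Unit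
    (NI A B f) (NI_ne hS.cq hS.f0) (fun _ => nuX eta)
    (fun _ => hchr.2.1) (fun _ => hchr.1) (fun _ => hchr.2.2.2)
    (fun _ => hchr.2.2.1)
    (fun _ => sgnPart 1 (QI (Rf R) eta (wf R kp eta)))
    (fun _ => hsymE)
    (fun _ x => by
      rw [Syi.sgn1]
      exact (halg _ _).add (halg _ _))
    (fun _ x => by
      rw [Syi.sgn1, Syi.sgn1, neg_neg, add_comm])
    (fun _ x => Syq.depEv _ hl (fun y => q_DEP hS.cq hS.f0 (Rf R) _ hei _ l hl hlf y) x)
    (fun _ N' hN' hd => q_GS hS.cq hf2 V p hp hpV hLoc (Rf R)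
        (hGR.kap _) (hGR.dis _) hDf (Syi.vD hS) eta hei
        (wf R kp eta) (by
          obtain ⟨r, hr, h1⟩ := hroot R.i0
          exact MUXHY.Val.root_one V r _ hr h1) 1 N' hN' hd)
  refine ⟨max n0 2, fun n hn' ψ hψ1 hψ2 => ?_⟩
  have hn2 : 2 ≤ n := (le_max_right _ _).trans hn'
  have hnn : n0 ≤ n := (le_max_left _ _).trans hn'
  have _nzl : NeZero (l ^ n) := ⟨pow_ne_zero _ hl.ne_zero⟩
  have hψi1 : ψ⁻¹ (-1) = 1 := by
    rw [MulChar.inv_apply_eq_inv', hψ1, inv_one]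
  have hψi2 : ψ⁻¹ (1 + (l : ZMod (l ^ n)) ^ (n - 1)) ≠ 1 := by
    rw [MulChar.inv_apply_eq_inv']
    intro h1
    exact hψ2 (inv_eq_one.1 h1)
  have hv := hn0 n hnn () ψ⁻¹ hψi1 hψi2
  have hprim := Gau.prim hl hn2 ψ⁻¹ hψi2
  rw [Syq.sumEv _ (Pool.Agent.TWB.TWBAux.tr_P tx_HK _ _ _ hsym hchr.1) hl ψ⁻¹ hψi1,
    sumf hS R hei hl hlf ψ hprim] at hv
  have hlp : ¬ (p : ℤ) ∣ (l : ℤ) := by
    intro hd
    have h1 : p ∣ l := by exact_mod_cast hd
    exact hS.fp (h1.trans hlf)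
  have vl : V.valuation (l : ℂ) = 1 := by
    have := Syi.vn hS l hlp
    rwa [Int.cast_natCast] at this
  have hg1 : V.valuation (gaussSum ψ⁻¹ ZMod.stdAddChar) ≤ 1 := Gau.gle V ψ⁻¹
  have hv2m : V.valuation (2 * ((f * l ^ n : ℕ) : ℂ)) = 1 := by
    push_cast
    rw [map_mul, map_mul, map_pow, Syi.v2 hS, Syi.vf hS, vl, one_pow, one_mul, one_mul]
  rw [map_mul, map_mul, map_div₀, hv2m, Syi.v2 hS, one_mul, div_one] at hv
  rw [spt hS hw R hch hl ψ, map_mul]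
  have hc1 : V.valuation (eta ((p : ℕ) : OO A B)) = 1 := by
    obtain ⟨r, hr, -, h2⟩ := hch.fin
    have hr0 : r ≠ 0 := fun h0 => hr (h0 ▸ dvd_zero p)
    refine SDE.val_root V hr0 (h2 _ ?_)
    rw [hch.supp, Ideal.isCoprime_span_singleton_iff]
    have h5 := (Nat.isCoprime_iff_coprime.2 ((hp.coprime_iff_not_dvd).2 hS.fp)).map
      (Int.castRingHom (OO A B))
    simpa using h5
  have hc2 : V.valuation (ψ ((p : ZMod (l ^ n)) ^ 2)) = 1 := by
    have hu : IsUnit ((p : ℕ) : ZMod (l ^ n)) := by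
      rw [ZMod.isUnit_iff_coprime]
      refine Nat.Coprime.pow_right n ?_
      rw [hp.coprime_iff_not_dvd]
      intro h1
      exact hlp (by exact_mod_cast h1)
    obtain ⟨u, hu⟩ := hu
    rw [← hu, map_pow]
    rw [map_pow, SDE.val_root V (r := Fintype.card (ZMod (l ^ n))ˣ) Fintype.card_ne_zero (by
      rw [← map_pow, ← Units.val_pow_eq_pow_val, pow_card_eq_one, Units.val_one, map_one]),
      one_pow]
  rw [map_mul, hc1, hc2, one_mul, one_mul]
  exact hv.trans ((mul_le_mul_left hg1 _).trans_eq (one_mul _))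

end

end Pool.Agent.TWQ


end

section

/-!
# TWQ, module SYSA (helper19): `p` split, `1 ≤ e ≤ p - 2`
-/

set_option autoImplicit false

open WeierstrassCurve Polynomial NumberField IsDedekindDomain

namespace Pool.Agent.TWQ

open _root_.MU3 Pool.Agent.MU3A Pool.Agent.MU3B Pool.Agent.MU3F Pool.Agent.MUX Pool.Agent.MUXH
  Pool.Agent.MuSym OnePoint Pool.Agent.TWT Pool.Agent.TWG Pool.Agent.TWI
open Pool.Agent.MUXHY (toCQ toEI toLI nI_eq cjI_eq PhiI_eq PP N0X)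
open scoped ComplexConjugate

noncomputable section

namespace Sys

variable {p : ℕ} {A B : ℤ} {P : Ideal (OO A B)} {V : ValuationSubring ℂ} {f : ℕ}

/-- the character of the theta series, split case -/
def epS (eta w : OO A B → ℂ) (c : ℕ) (x : OO A B) : ℂ := eta x * w (star x) ^ c

/-- the character `epS eta w c` is odd, modulo `f cjI P` -/
theorem eiS (hS : SetG p A B P V f) {w : OO A B → ℂ} (hw : TeiP p P V w) {n : ℕ} {ι : Type}
    {R : Reps A B n ι} {kp : ι → ℂ} {eta : OO A B → ℂ} {e b q : ℕ} {P' : Ideal (OO A B)}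
    (hch : ChQ p q f P P' R kp eta e b) {c : ℕ} (hc : 1 ≤ c) (hodd : Odd (e - 1 + b + c)) :
    IsEI (idl f * cjI P) (epS eta w c) := by
  obtain ⟨-, hmax, -, -, -, -, -, -, -, -⟩ := g_IDE p A B P V f (Syma.toH hS)
  have hc0 : c ≠ 0 := by omega
  have hst1 : star (1 : OO A B) = 1 := star_one _
  have hcmax : (cjI P).IsMaximal := by
    refine Ideal.comap_isMaximal_of_surjective (starRingEnd (OO A B)) ?_
    intro x
    exact ⟨star x, star_star x⟩
  have hcop : ∀ x : OO A B, w (star x) ≠ 0 ↔ IsCoprime (sp x) (cjI P) := by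
    intro x
    rw [Ne, hw.zero]
    constructor
    · intro h
      rw [Ideal.isCoprime_iff_sup_eq]
      refine hcmax.1.2 _ ?_
      rw [lt_iff_le_not_ge]
      refine ⟨le_sup_right, fun h1 => h ?_⟩
      exact h1 (Ideal.mem_sup_left (Ideal.mem_span_singleton_self x))
    · intro h h1
      rw [Ideal.isCoprime_iff_sup_eq] at h
      have h2 : sp x ≤ cjI P := (Ideal.span_singleton_le_iff_mem _).2 h1
      rw [sup_eq_right.2 h2] at h
      exact hcmax.ne_top h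
  constructor
  · show eta 1 * w (star 1) ^ c = 1
    rw [hst1, hch.one, hw.one, one_pow, mul_one]
  · intro x y
    show eta (x * y) * w (star (x * y)) ^ c = eta x * w (star x) ^ c * (eta y * w (star y) ^ c)
    rw [hch.mul, star_mul', hw.mul, mul_pow]
    ring
  · intro x y h
    show eta x * w (star x) ^ c = eta y * w (star y) ^ c
    have h1 : x - y ∈ (idl f : Ideal (OO A B)) := Ideal.mul_le_left h
    have h2 : x - y ∈ cjI P := Ideal.mul_le_right h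
    have h3 : star (x - y) ∈ P := (MUXHY.Ide.mem_cjI P (x - y)).1 h2
    rw [star_sub] at h3
    rw [hch.per x y h1, hw.per (star x) (star y) h3]
  · intro x
    show eta x * w (star x) ^ c ≠ 0 ↔ _
    rw [mul_ne_zero_iff, pow_ne_zero_iff hc0, hch.supp, hcop, ← IsCoprime.mul_right_iff]
  · show eta (-1) * w (star (-1)) ^ c = -1
    rw [hch.neg, star_neg, hst1, Syma.w_neg hS hw, ← pow_add]
    exact Odd.neg_one_pow hodd

/-- `w (N b_i) ≠ 0` -/
lemma wn_ne (hS : SetG p A B P V f) {w : OO A B → ℂ} (hw : TeiP p P V w) {ι : Type}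
    (R : Reps A B (p * f) ι) (i : ι) : ((MUX.nI (R.b i) : ℕ) : OO A B) ∉ P := by
  have hQ := toCQ hS.cq
  obtain ⟨-, -, hz, -, -⟩ := MUXF.xf_ALG A B hQ
  have h1 : ¬ (p : ℤ) ∣ ((MUX.nI (R.b i) : ℕ) : ℤ) := by
    intro hd
    have h2 := R.cop i
    have h3 : p ∣ MUX.nI (R.b i) := by exact_mod_cast hd
    have h4 : p ∣ 1 := by
      rw [← Nat.Coprime.gcd_eq_one h2]
      exact Nat.dvd_gcd h3 (dvd_mul_right p f)
    exact hS.pp.one_lt.ne' (Nat.dvd_one.1 h4)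
  have h5 := Syma.vint hS _ h1
  exact ((g_VAL p A B P V f (Syma.toH hS)).2.2.2.1 ((MUX.nI (R.b i) : ℕ) : OO A B)).1 (by
    have := (hz ((MUX.nI (R.b i) : ℕ) : ℤ)).1
    rw [Int.cast_natCast] at this
    rw [this]
    exact h5)

/-- `w y ^ (b + (p - 1)) = w y ^ b` for `b ≥ 1` -/
lemma w_pow (hS : SetG p A B P V f) {w : OO A B → ℂ} (hw : TeiP p P V w) {b : ℕ} (hb : 1 ≤ b)
    (y : OO A B) : w y ^ (b + (p - 1)) = w y ^ b := by
  by_cases hy : y ∈ P
  · rw [(hw.zero y).2 hy, zero_pow (by omega), zero_pow (by omega)]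
  · rw [pow_add, hw.root y hy, mul_one]

/-- the inner sum is `SSTI` -/
theorem sst (hS : SetG p A B P V f) {w : OO A B → ℂ} (hw : TeiP p P V w) {ι : Type} [Fintype ι]
    (R : Reps A B (p * f) ι) {kp : ι → ℂ} {eta : OO A B → ℂ} {e b c : ℕ} (he : 1 ≤ e)
    (hb : 1 ≤ b) (hc : c + e = b + (p - 1))
    (m q : ℕ) (ψ : DirichletCharacter ℂ q) (wD : DirichletCharacter ℂ p)
    (hwD : ∀ c : ℤ, wD (c : ZMod p) = (w (c : OO A B))⁻¹) (hm : m ≠ 0) :
    ∑ i, kp i * (w ((MUX.nI (R.b i) : ℕ) : OO A B) ^ e)⁻¹ * muX R i *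
      sumMod (m : OO A B) (fun x =>
        epS eta w c x * ψ⁻¹⁻¹ ((nm x * MUX.nI (R.b i) : ℤ) : ZMod q) *
          (wD ^ e)⁻¹ ((nm x * MUX.nI (R.b i) : ℤ) : ZMod p) * ee (R.L i) (pt R m i x)) =
      SSTI R m (thQ R kp eta ψ w e b) w := by
  have hQ := toCQ hS.cq
  obtain ⟨hal, hx, hz, hfin, hdom⟩ := MUXF.xf_ALG A B hQ
  have hF := hfin _ (idl_ne_bot (A := A) (B := B) hm)
  have _nz : NeZero p := ⟨hS.pp.ne_zero⟩
  have he0 : e ≠ 0 := by omega
  -- `(wD ^ e)⁻¹` on the integers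
  have hwi : ∀ c : ℤ, (wD ^ e)⁻¹ (c : ZMod p) = w (c : OO A B) ^ e := by
    intro c
    rw [MulChar.inv_apply_eq_inv', MulChar.pow_apply' wD he0, hwD, inv_pow, inv_inv]
  unfold SSTI
  refine Finset.sum_congr rfl fun i _ => ?_
  have hwn : w ((MUX.nI (R.b i) : ℕ) : OO A B) ≠ 0 := by
    intro h0
    rw [hw.zero] at h0
    exact wn_ne hS hw R i h0
  rw [mul_assoc, mul_comm (kp i * _), mul_assoc, mul_comm (sumMod _ _),
    ← Pool.Agent.MUXF.F5x.sm_mul]
  congr 2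
  funext x
  have hnm : ((nm x * MUX.nI (R.b i) : ℤ) : OO A B) =
      x * star x * ((MUX.nI (R.b i) : ℕ) : OO A B) := by
    rw [(hx x).2.2.2.2.1]
    push_cast
    ring
  rw [inv_inv, hwi, hnm, hw.mul, hw.mul]
  have h1 : w x ^ e = w x ^ (e - 1) * w x := by
    rw [← pow_succ]
    congr 1
    omega
  have h2 : w (star x) ^ c * w (star x) ^ e = w (star x) ^ b := by
    rw [← pow_add, hc, w_pow hS hw hb]
  have h3 : w ((MUX.nI (R.b i) : ℕ) : OO A B) ^ e ≠ 0 := pow_ne_zero _ hwn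
  unfold epS thQ thT
  rw [mul_pow, mul_pow]
  calc kp i * (w ((MUX.nI (R.b i) : ℕ) : OO A B) ^ e)⁻¹ * (eta x * w (star x) ^ c *
        ψ ((nm x * MUX.nI (R.b i) : ℤ) : ZMod q) *
        (w x ^ e * w (star x) ^ e * w ((MUX.nI (R.b i) : ℕ) : OO A B) ^ e) *
        ee (R.L i) (pt R m i x)) =
      kp i * eta x * ψ ((nm x * MUX.nI (R.b i) : ℤ) : ZMod q) * w x ^ e *
        (w (star x) ^ c * w (star x) ^ e) * ee (R.L i) (pt R m i x) *
        ((w ((MUX.nI (R.b i) : ℕ) : OO A B) ^ e)⁻¹ * w ((MUX.nI (R.b i) : ℕ) : OO A B) ^ e) := by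
          ring
    _ = _ := by
      rw [inv_mul_cancel₀ h3, h2, h1]
      ring

end Sys

open _root_.Pool.Agent.TWQ.Sys in
/-- (SYSA) -/
theorem t_SYSA (hTB : S_TBQ) (hST : S_STKQ) : S_SYSA := by
  intro l g h hG p A B P V f hS hlf hTor ι _ R hGR w hw kp eta e b hch he
  have hQ := toCQ hS.cq
  obtain ⟨hal, hx, hz, hfin, hdom⟩ := MUXF.xf_ALG A B hQ
  obtain ⟨hPb, hmax, -, -, hgb, hpf, -, -, -, -⟩ := g_IDE p A B P V f (Syma.toH hS)
  obtain ⟨-, vp, -, -, -, vn, vr, vf, -, -, -⟩ := g_VAL p A B P V f (Syma.toH hS)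
  have hp := hS.pp
  have hp5 := hS.p5
  have he1 : 1 ≤ e := hch.e1
  have hb : 1 ≤ b := by
    rcases hch.bb with ⟨h1, -⟩ | ⟨-, h1, -⟩
    · exfalso
      have hcmax : (cjI P).IsMaximal := by
        refine Ideal.comap_isMaximal_of_surjective (starRingEnd (OO A B)) ?_
        intro x
        exact ⟨star x, star_star x⟩
      exact hcmax.ne_top h1
    · exact h1
  have _nzp : NeZero p := ⟨hp.ne_zero⟩
  have hl : l.Prime := Syq.l_prime hG
  obtain ⟨hn, al, hh, hPal⟩ := MUXHY.y_CLN A B hS.cq (p * f) ι inferInstance R P hPb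
  obtain ⟨wD, hwD, hwD1⟩ := Pool.Agent.TWB.t_TED p A B P V hS.cq hp
    (lt_of_lt_of_le (by norm_num) hS.p5) hS.hP hS.hV w hw
  obtain ⟨hne1, hstk⟩ := hST p A B P V f hS w hw wD hwD e he1 he
  obtain ⟨c, hc⟩ : ∃ c, c = b + (p - 1) - e := ⟨_, rfl⟩
  have hc1 : 1 ≤ c := by omega
  have hce : c + e = b + (p - 1) := by omega
  have hpodd : p % 2 = 1 := by
    rcases hp.eq_two_or_odd with h1 | h1
    · omega
    · exact h1
  have hne : IsEI (idl f * cjI P) (epS eta w c) := eiS hS hw hch hc1 (by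
    rw [Nat.odd_iff]
    omega)
  -- the weights
  have hwn : ∀ i, w ((MUX.nI (R.b i) : ℕ) : OO A B) ^ (p - 1) = 1 := fun i =>
    hw.root _ (wn_ne hS hw R i)
  have hp1 : p - 1 ≠ 0 := by omega
  have hroot : ∀ i, ∃ r : ℕ, r ≠ 0 ∧
      (kp i * (w ((MUX.nI (R.b i) : ℕ) : OO A B) ^ e)⁻¹) ^ r = 1 := by
    intro i
    obtain ⟨r, hr, h1, -⟩ := hch.fin
    refine ⟨r * (p - 1), mul_ne_zero (fun h0 => hr (h0 ▸ dvd_zero p)) hp1, ?_⟩
    rw [mul_pow, pow_mul, h1, one_pow, inv_pow, ← pow_mul, show e * (r * (p - 1)) =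
      (p - 1) * (e * r) by ring, pow_mul, hwn, one_pow, inv_one, mul_one]
  have hs1 : ((-1) ^ e : ℤ) = 1 ∨ ((-1) ^ e : ℤ) = -1 := neg_one_pow_eq_or ℤ e
  have hpar : (wD ^ e) (-1) = (((-1) ^ e : ℤ) : ℂ) := by
    rw [MulChar.pow_apply' wD (by omega), hwD1]
    push_cast
    rfl
  obtain ⟨n0, hn0⟩ := hTB l g h hG V p hS.p5 (N0X A B f) 1 hn
    (epS eta w c al * conj (emb al)) (nuX (epS eta w c))
    (PP R P (epS eta w c) (fun i => kp i * (w ((MUX.nI (R.b i) : ℕ) : OO A B) ^ e)⁻¹))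
    ((-1) ^ e : ℤ)
    (t_HYP p A B P V f (Syma.toH hS) ι R (hGR.kap _) (hGR.dis _) _ hne _
      (fun i => by
        obtain ⟨r, hr, h1⟩ := hroot i
        exact IsAlgebraic.of_pow (Nat.pos_of_ne_zero hr) (by rw [h1]; exact isAlgebraic_one))
      (fun i => by
        obtain ⟨r, hr, h1⟩ := hroot i
        exact vr r _ hr h1) _ hs1 hn al hh hPal)
    (fun x => Pool.Agent.TWB.t_DPP A B hS.cq (p * f) ι R P hPb (idl f * cjI P) _ hgb hne l
      hl (Ideal.mul_le_left.trans (by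
        rw [Ideal.span_singleton_le_span_singleton]
        obtain ⟨k, hk⟩ := hlf
        refine ⟨(k : OO A B), ?_⟩
        rw [hk]
        push_cast
        rfl)) _ 0 x) (wD ^ e) hne1 hpar
  refine ⟨max n0 2, fun n hn' ψ hψ1 hψ2 => ?_⟩
  have hn2 : 2 ≤ n := (le_max_right _ _).trans hn'
  have hnn : n0 ≤ n := (le_max_left _ _).trans hn'
  have _nzl : NeZero (l ^ n) := ⟨pow_ne_zero _ hl.ne_zero⟩
  have hψi1 : ψ⁻¹ (-1) = 1 := by
    rw [MulChar.inv_apply_eq_inv', hψ1, inv_one]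
  have hψi2 : ψ⁻¹ (1 + (l : ZMod (l ^ n)) ^ (n - 1)) ≠ 1 := by
    rw [MulChar.inv_apply_eq_inv']
    intro h1
    exact hψ2 (inv_eq_one.1 h1)
  have hv := hn0 n hnn ψ⁻¹ hψi1 hψi2
  have hprim := Gau.prim hl hn2 ψ⁻¹ hψi2
  have hprim2 := Gau.prim1 hp (wD ^ e) hne1
  have hm : f * l ^ n * p ≠ 0 :=
    mul_ne_zero (mul_ne_zero hS.f0 (pow_ne_zero _ hl.ne_zero)) hp.ne_zero
  have hmg : ((f * l ^ n * p : ℕ) : OO A B) ∈ (idl f * cjI P : Ideal (OO A B)) := by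
    have : ((f * l ^ n * p : ℕ) : OO A B) = ((l ^ n : ℕ) : OO A B) * ((p * f : ℕ) : OO A B) := by
      push_cast
      ring
    rw [this]
    exact Ideal.mul_mem_left _ _ hpf
  have hcopm : ∀ i, (MUX.nI (R.b i)).Coprime (f * l ^ n * p) := by
    intro i
    have h1 := R.cop i
    have h2 : (MUX.nI (R.b i)).Coprime p := Nat.Coprime.coprime_mul_right_right h1
    have h3 : (MUX.nI (R.b i)).Coprime f := Nat.Coprime.coprime_mul_left_right h1
    have h4 : (MUX.nI (R.b i)).Coprime l := Nat.Coprime.coprime_dvd_right hlf h3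
    exact Nat.Coprime.mul_right (Nat.Coprime.mul_right h3 (Nat.Coprime.pow_right n h4)) h2
  have hsum := t_SUM A B hS.cq (p * f) ι R P (idl f * cjI P) (epS eta w c) hne
    (fun i => kp i * (w ((MUX.nI (R.b i) : ℕ) : OO A B) ^ e)⁻¹) (f * l ^ n * p) (l ^ n) p hm hmg
    (by rw [mul_assoc]; exact Dvd.intro_left f rfl) hcopm ψ⁻¹ hprim (wD ^ e) hprim2
  rw [sst hS hw R he1 hb hce (f * l ^ n * p) (l ^ n) ψ wD hwD hm] at hsum
  have hcast : ∀ b c : ℕ, (((b : ℚ) / ((l ^ n : ℕ) : ℚ) + (c : ℚ) / p : ℚ) : OnePoint ℚ) =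
      (((b : ℚ) / (l : ℚ) ^ n + (c : ℚ) / p : ℚ) : OnePoint ℚ) := by
    intro b c
    push_cast
    rfl
  simp only [hcast] at hsum
  rw [hsum] at hv
  -- valuations
  set S : ℂ := SSTI R (f * l ^ n * p) (thQ R kp eta ψ w e b) w with hSd
  have hlp : ¬ (p : ℤ) ∣ (l : ℤ) := by
    intro hd
    have h1 : p ∣ l := by exact_mod_cast hd
    exact hS.fp (h1.trans hlf)
  have vl : V.valuation (l : ℂ) = 1 := by
    have := vn l hlp
    rwa [Int.cast_natCast] at this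
  have v2 : V.valuation (2 : ℂ) = 1 := by
    have := vn 2 (fun hd => by
      have := Int.le_of_dvd (by norm_num) hd
      omega)
    rwa [show ((2 : ℤ) : ℂ) = 2 by norm_num] at this
  have hv2m : V.valuation (2 * ((f * l ^ n * p : ℕ) : ℂ)) = V.valuation (p : ℂ) := by
    push_cast
    rw [map_mul, map_mul, map_mul, map_pow, v2, vf, vl, one_pow, one_mul, one_mul, one_mul]
  have hg1 : V.valuation (gaussSum ψ⁻¹ ZMod.stdAddChar) ≤ 1 := Gau.gle V ψ⁻¹
  have hp0 : (p : ℂ) ≠ 0 := by exact_mod_cast hp.ne_zero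
  have hvp0 : V.valuation (p : ℂ) ≠ 0 := (Valuation.ne_zero_iff _).2 hp0
  rw [map_mul, map_div₀, map_mul, hv2m] at hv
  have h3 : V.valuation (p : ℂ) ≤ V.valuation (gaussSum (wD ^ e) ZMod.stdAddChar) *
      V.valuation S := by
    calc V.valuation (p : ℂ) = V.valuation (p : ℂ) * 1 := (mul_one _).symm
      _ ≤ V.valuation (p : ℂ) * (V.valuation (gaussSum ψ⁻¹ ZMod.stdAddChar) *
          V.valuation (gaussSum (wD ^ e) ZMod.stdAddChar) / V.valuation (p : ℂ) *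
          V.valuation S) := mul_le_mul_right hv _
      _ = V.valuation (gaussSum ψ⁻¹ ZMod.stdAddChar) *
          (V.valuation (gaussSum (wD ^ e) ZMod.stdAddChar) * V.valuation S) := by
        field_simp
      _ ≤ 1 * (V.valuation (gaussSum (wD ^ e) ZMod.stdAddChar) * V.valuation S) :=
        mul_le_mul_left hg1 _
      _ = _ := one_mul _
  have h4 : V.valuation (p : ℂ) ^ (p - 1) ≤ V.valuation (p : ℂ) ^ e * V.valuation S ^ (p - 1) := by
    calc V.valuation (p : ℂ) ^ (p - 1) ≤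
        (V.valuation (gaussSum (wD ^ e) ZMod.stdAddChar) * V.valuation S) ^ (p - 1) :=
          pow_le_pow_left₀ zero_le h3 _
      _ = V.valuation (gaussSum (wD ^ e) ZMod.stdAddChar) ^ (p - 1) *
          V.valuation S ^ (p - 1) := mul_pow _ _ _
      _ ≤ _ := mul_le_mul_left hstk _
  have h5 : V.valuation (p : ℂ) ^ (p - 1) =
      V.valuation (p : ℂ) ^ e * V.valuation (p : ℂ) ^ (p - 1 - e) := by
    rw [← pow_add]
    congr 1
    omega
  rw [h5] at h4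
  exact (mul_le_mul_iff_right₀ (zero_lt_iff.2 (pow_ne_zero _ hvp0))).1 h4

end

end Pool.Agent.TWQ


end

section

/-!
# TWQ, module SPS (helper19): `p` split, `e = p - 1`: the part `x ∈ P` of the sum is large
-/

set_option autoImplicit false

open WeierstrassCurve Polynomial NumberField IsDedekindDomain

namespace Pool.Agent.TWQ

open _root_.MU3 Pool.Agent.MU3A Pool.Agent.MU3B Pool.Agent.MU3F Pool.Agent.MUX Pool.Agent.MUXH
  Pool.Agent.MuSym OnePoint Pool.Agent.TWT Pool.Agent.TWG Pool.Agent.TWI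
open Pool.Agent.MUXHY (toCQ toEI toLI nI_eq cjI_eq PhiI_eq PP N0X)
open scoped ComplexConjugate

noncomputable section

namespace Sps

lemma ex_sum (r : ℕ) [NeZero r] (k : ℤ) :
    ∑ j ∈ Finset.range r, ex (((j * k : ℤ) : ℚ) / r) =
      if (r : ℤ) ∣ k then (r : ℂ) else 0 := by
  have h1 : ∀ j ∈ Finset.range r, ex (((j * k : ℤ) : ℚ) / r) =
      (fun t : ZMod r => ZMod.stdAddChar (t * ((k : ℤ) : ZMod r))) ((j : ℕ) : ZMod r) := by
    intro j _
    rw [Gau.ex_int]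
    push_cast
    rfl
  rw [Finset.sum_congr rfl h1,
    TWR.STAAux.sum_zmod r (fun t : ZMod r => (ZMod.stdAddChar (t * ((k : ℤ) : ZMod r)) : ℂ))]
  have h2 := AddChar.sum_mulShift ((k : ℤ) : ZMod r) (ZMod.isPrimitive_stdAddChar r)
  simp only [ZMod.card] at h2
  rw [h2]
  by_cases h3 : (r : ℤ) ∣ k
  · rw [if_pos h3, if_pos ((ZMod.intCast_zmod_eq_zero_iff_dvd k r).2 h3)]
  · rw [if_neg h3, if_neg (fun h4 => h3 ((ZMod.intCast_zmod_eq_zero_iff_dvd k r).1 h4))]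
    push_cast
    rfl

/-- the sum over the multiples of `r` -/
theorem sum_mul (A B : ℤ) (hc : MUX.CQ A B) (n : ℕ) (ι : Type) [Fintype ι] (R : Reps A B n ι)
    (P g : Ideal (OO A B)) (e : OO A B → ℂ) (he : MUX.IsEI g e) (wt : ι → ℂ) (m q r : ℕ)
    (hm : m ≠ 0) (hmg : (m : OO A B) ∈ g) (hqr : q * r ∣ m)
    (hcop : ∀ i, (MUX.nI (R.b i)).Coprime m) [NeZero q] [NeZero r]
    (ψ : DirichletCharacter ℂ q) (hψ : ψ.IsPrimitive) :
    ψ⁻¹ (r : ZMod q) * ∑ b ∈ Finset.range q, ψ (b : ZMod q) * ∑ c ∈ Finset.range r,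
      PP R P e wt 0 ∞ ((((b : ℚ) / q + (c : ℚ)) / r : ℚ) : OnePoint ℚ) =
    gaussSum ψ ZMod.stdAddChar * r / (2 * m) *
      ∑ i, wt i * muX R i * sumMod (m : OO A B) (fun x =>
        e x * (if (r : ℤ) ∣ (nm x * MUX.nI (R.b i) : ℤ) then
          ψ⁻¹ ((nm x * MUX.nI (R.b i) : ℤ) : ZMod q) else 0) * ee (R.L i) (pt R m i x)) := by
  have hQ := toCQ hc
  obtain ⟨hal, hx, hz, hfin, hdom⟩ := MUXF.xf_ALG A B hQ
  have hq0 : q ≠ 0 := NeZero.ne q
  have hr0 : r ≠ 0 := NeZero.ne r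
  have hM0 : q * r ≠ 0 := mul_ne_zero hq0 hr0
  have hmC : (m : ℂ) ≠ 0 := by exact_mod_cast hm
  have hqQ : (q : ℚ) ≠ 0 := by exact_mod_cast hq0
  have hrQ : (r : ℚ) ≠ 0 := by exact_mod_cast hr0
  have hF := hfin _ (idl_ne_bot (A := A) (B := B) hm)
  have homi : ∀ i, R.om i ≠ 0 := fun i => (R.nl i).om_ne
  -- the values of the symbols
  have hval : ∀ (i : ι) (β : ℕ), wt i / e ((MUX.nI (R.b i) : ℕ) : OO A B) *
      MUX.PhiI (R.b i * P ^ 0) e ∞ (((β / ((q * r : ℕ) : ℚ) : ℚ)) : OnePoint ℚ) / R.om R.i0 =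
      wt i * muX R i / (2 * m) * sumMod (m : OO A B) (fun x =>
        ex (β * (MUX.nI (R.b i) * nm x) / ((q * r : ℕ) : ℚ)) *
          (e x * ee (R.L i) (pt R m i x))) := by
    intro i β
    obtain ⟨h1, h2⟩ := t_PHV A B hQ (R.b i) (R.L i) (R.om i) (toLI (R.nl i).toIsLI) g e
      (toEI he) m (q * r) hm hmg hM0 hqr (hcop i)
    have h3 := h2 β
    have h1' : e ((MUX.nI (R.b i) : ℕ) : OO A B) ≠ 0 := h1
    rw [pow_zero, mul_one]
    have h4 : MUX.PhiI (R.b i) e ∞ (((β / ((q * r : ℕ) : ℚ) : ℚ)) : OnePoint ℚ) =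
        (R.om i * MUX.nI (R.b i) / (2 * m)) * (e ((MUX.nI (R.b i) : ℕ) : OO A B)) *
          sumMod (m : OO A B) (fun x =>
        ex (β * (MUX.nI (R.b i) * nm x) / ((q * r : ℕ) : ℚ)) *
          (e x * ee (R.L i) (pt R m i x))) := h3
    rw [h4]
    unfold muX
    have := homi R.i0
    field_simp
  have hPP : ∀ β : ℕ, PP R P e wt 0 ∞ (((β / ((q * r : ℕ) : ℚ) : ℚ)) : OnePoint ℚ) =
      ∑ i, wt i * muX R i / (2 * m) * sumMod (m : OO A B) (fun x =>
        ex (β * (MUX.nI (R.b i) * nm x) / ((q * r : ℕ) : ℚ)) *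
          (e x * ee (R.L i) (pt R m i x))) := by
    intro β
    unfold PP
    rw [Finset.sum_div]
    exact Finset.sum_congr rfl fun i _ => hval i β
  -- the inner sums
  have hin : ∀ k : ℤ, ψ⁻¹ (r : ZMod q) * ∑ b ∈ Finset.range q, ∑ c ∈ Finset.range r,
      ψ (b : ZMod q) * ex ((((b + c * q : ℕ) : ℚ)) * k / ((q * r : ℕ) : ℚ)) =
      (gaussSum ψ ZMod.stdAddChar * r) *
        (if (r : ℤ) ∣ k then ψ⁻¹ (k : ZMod q) else 0) := by
    intro k
    have h3 : ∀ b ∈ Finset.range q, ∑ c ∈ Finset.range r, ψ (b : ZMod q) *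
        ex ((((b + c * q : ℕ) : ℚ)) * k / ((q * r : ℕ) : ℚ)) =
        ψ (b : ZMod q) * ex (((b * k : ℤ) : ℚ) / ((q * r : ℕ) : ℚ)) *
          (if (r : ℤ) ∣ k then (r : ℂ) else 0) := by
      intro b _
      rw [← ex_sum r k, Finset.mul_sum]
      refine Finset.sum_congr rfl fun c _ => ?_
      have h4 : (((b + c * q : ℕ) : ℚ)) * k / ((q * r : ℕ) : ℚ) =
          (((b * k : ℤ) : ℚ) / ((q * r : ℕ) : ℚ)) + (((c * k : ℤ) : ℚ) / r) := by
        push_cast
        field_simp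
      rw [h4, Pool.Agent.MU3F.F5aux.ex_add]
      ring
    rw [Finset.sum_congr rfl h3, ← Finset.sum_mul]
    by_cases hd : (r : ℤ) ∣ k
    · rw [if_pos hd, if_pos hd]
      obtain ⟨k', hk'⟩ := hd
      have h5 : ∀ b ∈ Finset.range q, ψ (b : ZMod q) *
          ex (((b * k : ℤ) : ℚ) / ((q * r : ℕ) : ℚ)) =
          ψ (b : ZMod q) * ex (((b * k' : ℤ) : ℚ) / q) := by
        intro b _
        congr 2
        rw [hk']
        push_cast
        field_simp
      rw [Finset.sum_congr rfl h5, Gau.shift ψ hψ k']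
      have h6 : ψ⁻¹ (k : ZMod q) = ψ⁻¹ (r : ZMod q) * ψ⁻¹ (k' : ZMod q) := by
        rw [← map_mul, hk']
        push_cast
        rfl
      rw [h6]
      ring
    · rw [if_neg hd, if_neg hd]
      ring
  have hstep : ∀ b ∈ Finset.range q, ∀ c ∈ Finset.range r, ψ (b : ZMod q) *
      PP R P e wt 0 ∞ ((((b : ℚ) / q + (c : ℚ)) / r : ℚ) : OnePoint ℚ) =
      ∑ i, wt i * muX R i / (2 * m) * sumMod (m : OO A B) (fun x =>
        (ψ (b : ZMod q) *
        ex ((((b + c * q : ℕ) : ℚ)) * ((nm x * MUX.nI (R.b i) : ℤ)) / ((q * r : ℕ) : ℚ))) *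
          (e x * ee (R.L i) (pt R m i x))) := by
    intro b _ c _
    have h1 : (((b : ℚ) / q + (c : ℚ)) / r : ℚ) =
        ((b + c * q : ℕ) : ℚ) / ((q * r : ℕ) : ℚ) := by
      push_cast
      field_simp
    rw [h1, hPP, Finset.mul_sum]
    refine Finset.sum_congr rfl fun i _ => ?_
    rw [mul_left_comm, ← Pool.Agent.MUXF.F5x.sm_mul]
    congr 2
    funext x
    rw [← mul_assoc]
    congr 3
    push_cast
    ring
  simp only [Finset.mul_sum (s := Finset.range r)]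
  rw [Finset.sum_congr rfl fun b hb => Finset.sum_congr rfl fun c hc => hstep b hb c hc]
  have hcomm : ∀ G : ℕ → ℕ → ι → ℂ, ∑ b ∈ Finset.range q, ∑ c ∈ Finset.range r, ∑ i, G b c i =
      ∑ i, ∑ b ∈ Finset.range q, ∑ c ∈ Finset.range r, G b c i := by
    intro G
    have h1 : ∀ b ∈ Finset.range q, ∑ c ∈ Finset.range r, ∑ i, G b c i =
        ∑ i, ∑ c ∈ Finset.range r, G b c i := fun b _ => Finset.sum_comm
    rw [Finset.sum_congr rfl h1]
    exact Finset.sum_comm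
  rw [hcomm, Finset.mul_sum, Finset.mul_sum]
  refine Finset.sum_congr rfl fun i _ => ?_
  have hpull : ∀ (c : ℂ) (G : ℕ → ℕ → ℂ), ∑ b ∈ Finset.range q, ∑ d ∈ Finset.range r,
      c * G b d = c * ∑ b ∈ Finset.range q, ∑ d ∈ Finset.range r, G b d := by
    intro c G
    rw [Finset.mul_sum]
    exact Finset.sum_congr rfl fun b _ => (Finset.mul_sum _ _ _).symm
  rw [hpull, Finset.sum_congr rfl fun b _ => sm_const (m : OO A B) (Finset.range r) _, sm_const,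
    mul_left_comm, ← Pool.Agent.MUXF.F5x.sm_mul]
  have hfun : (fun x : OO A B => ψ⁻¹ (r : ZMod q) *
      ∑ b ∈ Finset.range q, ∑ c ∈ Finset.range r,
      (ψ (b : ZMod q) *
        ex ((((b + c * q : ℕ) : ℚ)) * ((nm x * MUX.nI (R.b i) : ℤ)) / ((q * r : ℕ) : ℚ))) *
          (e x * ee (R.L i) (pt R m i x))) =
      fun x => (gaussSum ψ ZMod.stdAddChar * r) *
        (e x * (if (r : ℤ) ∣ (nm x * MUX.nI (R.b i) : ℤ) then
          ψ⁻¹ ((nm x * MUX.nI (R.b i) : ℤ) : ZMod q) else 0) * ee (R.L i) (pt R m i x)) := by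
    funext x
    have h5 := hin (nm x * MUX.nI (R.b i) : ℤ)
    simp only [← Finset.sum_mul]
    rw [← mul_assoc, h5]
    ring
  rw [hfun, Pool.Agent.MUXF.F5x.sm_mul]
  ring

/-- the sum over the multiples of `p` is `SPt` -/
theorem spt {p : ℕ} {A B : ℤ} {P : Ideal (OO A B)} {V : ValuationSubring ℂ} {f : ℕ}
    (hS : SetG p A B P V f) {w : OO A B → ℂ} (hw : TeiP p P V w) {ι : Type} [Fintype ι]
    (R : Reps A B (p * f) ι) {kp : ι → ℂ} {eta : OO A B → ℂ} {b : ℕ}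
    (hb : 1 ≤ b) (m q : ℕ) (ψ : DirichletCharacter ℂ q) (hm : m ≠ 0) :
    ∑ i, kp i * muX R i * sumMod (m : OO A B) (fun x =>
        Sys.epS eta w b x * (if (p : ℤ) ∣ (nm x * MUX.nI (R.b i) : ℤ) then
          ψ⁻¹⁻¹ ((nm x * MUX.nI (R.b i) : ℤ) : ZMod q) else 0) * ee (R.L i) (pt R m i x)) =
      SPt R m (p - 1) (thP R kp eta ψ w b) w := by
  have hQ := toCQ hS.cq
  obtain ⟨hal, hx, hz, hfin, hdom⟩ := MUXF.xf_ALG A B hQ
  have hF := hfin _ (idl_ne_bot (A := A) (B := B) hm)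
  have hp5 := hS.p5
  have hval := g_VAL p A B P V f (Syma.toH hS)
  have hPp : ∀ k : ℤ, (p : ℤ) ∣ k ↔ w (k : OO A B) = 0 := by
    intro k
    rw [hw.zero]
    constructor
    · rintro ⟨t, rfl⟩
      by_contra h
      have h1 := (hval.2.2.2.1 _).2 h
      rw [(hz (p * t : ℤ)).1] at h1
      push_cast at h1
      rw [map_mul] at h1
      have h2 : V.valuation (p : ℂ) * V.valuation (t : ℂ) < 1 :=
        mul_lt_one_of_nonneg_of_lt_one_left zero_le hval.2.1 (hval.2.2.2.2.1 t)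
      exact absurd h1 h2.ne
    · intro h
      by_contra hd
      have h1 := hval.2.2.2.2.2.1 k hd
      rw [← (hz k).1] at h1
      exact (hval.2.2.2.1 _).1 h1 h
  unfold SPt
  refine Finset.sum_congr rfl fun i _ => ?_
  have hwn : w ((MUX.nI (R.b i) : ℕ) : OO A B) ≠ 0 := by
    intro h0
    rw [hw.zero] at h0
    exact Sys.wn_ne hS hw R i h0
  rw [mul_comm (kp i), mul_assoc, ← Pool.Agent.MUXF.F5x.sm_mul]
  congr 2
  funext x
  have hnm : ((nm x * MUX.nI (R.b i) : ℤ) : OO A B) =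
      x * star x * ((MUX.nI (R.b i) : ℕ) : OO A B) := by
    rw [(hx x).2.2.2.2.1]
    push_cast
    ring
  have hdiv : (p : ℤ) ∣ (nm x * MUX.nI (R.b i) : ℤ) ↔
      w x * w (star x) * w ((MUX.nI (R.b i) : ℕ) : OO A B) = 0 := by
    rw [hPp, hnm, hw.mul, hw.mul]
  rw [inv_inv]
  unfold Sys.epS thP thT
  by_cases hs : w (star x) = 0
  · rw [hs, zero_pow (by omega)]
    ring
  · by_cases hxw : w x = 0
    · have hd : (p : ℤ) ∣ (nm x * MUX.nI (R.b i) : ℤ) := hdiv.2 (by rw [hxw]; ring)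
      rw [if_pos hd, hxw, zero_pow (by omega)]
      ring
    · have hd : ¬ (p : ℤ) ∣ (nm x * MUX.nI (R.b i) : ℤ) := fun h =>
        (mul_ne_zero (mul_ne_zero hxw hs) hwn) (hdiv.1 h)
      have hxP : x ∉ P := fun h => hxw ((hw.zero x).2 h)
      rw [if_neg hd, hw.root x hxP]
      ring

end Sps

open Sys _root_.Pool.Agent.TWQ.Sps in
/-- (SPS) -/
theorem t_SPS : S_SPS := by
  intro l g h hG p A B P V f hS hlf ι _ R hGR w hw kp eta b hch
  have hQ := toCQ hS.cq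
  obtain ⟨hal, hx, hz, hfin, hdom⟩ := MUXF.xf_ALG A B hQ
  obtain ⟨hPb, hmax, -, -, hgb, hpf, -, -, -, -⟩ := g_IDE p A B P V f (Syma.toH hS)
  obtain ⟨-, vp, -, -, -, vn, vr, vf, -, -, -⟩ := g_VAL p A B P V f (Syma.toH hS)
  have hp := hS.pp
  have hp5 := hS.p5
  have hb : 1 ≤ b := by
    rcases hch.bb with ⟨h1, -⟩ | ⟨-, h1, -⟩
    · exfalso
      have hcmax : (cjI P).IsMaximal := by
        refine Ideal.comap_isMaximal_of_surjective (starRingEnd (OO A B)) ?_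
        intro x
        exact ⟨star x, star_star x⟩
      exact hcmax.ne_top h1
    · exact h1
  have _nzp : NeZero p := ⟨hp.ne_zero⟩
  have hl : l.Prime := Syq.l_prime hG
  obtain ⟨hn, al, hh, hPal⟩ := MUXHY.y_CLN A B hS.cq (p * f) ι inferInstance R P hPb
  have hpodd : p % 2 = 1 := by
    rcases hp.eq_two_or_odd with h1 | h1
    · omega
    · exact h1
  have hne : IsEI (idl f * cjI P) (epS eta w b) := eiS hS hw hch hb (by
    rw [Nat.odd_iff]
    omega)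
  have hroot : ∀ i, ∃ r : ℕ, r ≠ 0 ∧ kp i ^ r = 1 := by
    intro i
    obtain ⟨r, hr, h1, -⟩ := hch.fin
    exact ⟨r, fun h0 => hr (h0 ▸ dvd_zero p), h1 i⟩
  have hyp := t_HYP p A B P V f (Syma.toH hS) ι R (hGR.kap _) (hGR.dis _) _ hne kp
      (fun i => by
        obtain ⟨r, hr, h1⟩ := hroot i
        exact IsAlgebraic.of_pow (Nat.pos_of_ne_zero hr) (by rw [h1]; exact isAlgebraic_one))
      (fun i => by
        obtain ⟨r, hr, h1⟩ := hroot i
        exact vr r _ hr h1) 1 (Or.inl rfl) hn al hh hPal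
  obtain ⟨Φ, hΦ⟩ : ∃ Φ : ℕ → OnePoint ℚ → OnePoint ℚ → ℂ, Φ = PP R P (epS eta w b) kp := ⟨_, rfl⟩
  rw [← hΦ] at hyp
  -- the relation for `U_p`
  have hU : ∀ r : ℚ, Φ 1 ∞ (r : OnePoint ℚ) =
      ∑ j ∈ Finset.range p, Φ 0 ∞ (((r + j) / p : ℚ) : OnePoint ℚ) := by
    intro r
    have h1 := (tx_HK p hp.one_lt.le _ _ (Φ 0) (Φ 1) (hyp.sym 0) hyp.nu1 0).2.2 hyp.nup
      (hyp.hec 0) r
    simp only [sgnPart, zero_mul, add_zero] at h1
    exact h1.symm
  have hper1 : ∀ (d d' : ℤ), ((p ^ (1 + 1) * N0X A B f : ℕ) : ℤ) ∣ d - d' →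
      nuX (epS eta w b) d = nuX (epS eta w b) d' := fun d d' hd =>
    hyp.nuper d d' ((Int.natCast_dvd_natCast.2 (Nat.mul_dvd_mul_right
      (dvd_pow_self p (Nat.succ_ne_zero _)) (N0X A B f))).trans hd)
  have hdep : ∀ x : ℚ, ∑ k ∈ Finset.range l, Φ 1 ∞ ((x + (k : ℚ) / l : ℚ) : OnePoint ℚ) = 0 :=
    fun x => by
      rw [hΦ]
      exact Pool.Agent.TWB.t_DPP A B hS.cq (p * f) ι R P hPb (idl f * cjI P) _ hgb hne l
        hl (Ideal.mul_le_left.trans (by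
          rw [Ideal.span_singleton_le_span_singleton]
          obtain ⟨k, hk⟩ := hlf
          refine ⟨(k : OO A B), ?_⟩
          rw [hk]
          push_cast
          rfl)) _ 1 x
  have hone : ((1 : ℤ) : ℂ) = 1 := Int.cast_one
  obtain ⟨n0, hn0⟩ := Pool.Agent.TWR.a_TW4 l g h hG V p hp hS.p5 vp Unit
    (p ^ (1 + 1) * N0X A B f) (mul_ne_zero (pow_ne_zero _ hp.ne_zero) hyp.N0)
    (fun _ => nuX (epS eta w b)) (fun _ => hyp.nuv) (fun _ => hyp.nu1) (fun _ => hper1)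
    (fun _ d => Pool.Agent.TWB.t_NUA p V _ _ _ _ _ Φ 1 hyp d)
    (fun _ => sgnPart 1 (Φ 1))
    (fun _ => (tx_HK 1 le_rfl _ (nuX (epS eta w b)) (Φ 1) (Φ 1) (hyp.sym 1) hyp.nu1 1).2.1)
    (fun _ x => by
      rw [Syi.sgn1]
      refine IsAlgebraic.add ?_ ?_ <;> rw [hU] <;>
        exact Pool.Agent.TWB.TWBAux.alg_sum _ _ fun c => hyp.alg _ _)
    (fun _ x => by
      rw [Syi.sgn1, Syi.sgn1, neg_neg, add_comm])
    (fun _ x => Syq.depEv (Φ 1) hl hdep x)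
    (fun _ N' hN' hd => by
      obtain ⟨a, b', c, d, m1, m2, m3, m4⟩ := TBQ.nb1 hyp N' hN' hd
      rw [hone] at m4
      exact ⟨a, b', c, d, m1, m2, m3, m4⟩)
  refine ⟨max n0 2, fun n hn' ψ hψ1 hψ2 => ?_⟩
  have hn2 : 2 ≤ n := (le_max_right _ _).trans hn'
  have hnn : n0 ≤ n := (le_max_left _ _).trans hn'
  have _nzl : NeZero (l ^ n) := ⟨pow_ne_zero _ hl.ne_zero⟩
  have hψi1 : ψ⁻¹ (-1) = 1 := by
    rw [MulChar.inv_apply_eq_inv', hψ1, inv_one]
  have hψi2 : ψ⁻¹ (1 + (l : ZMod (l ^ n)) ^ (n - 1)) ≠ 1 := by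
    rw [MulChar.inv_apply_eq_inv']
    intro h1
    exact hψ2 (inv_eq_one.1 h1)
  have hv := hn0 n hnn () ψ⁻¹ hψi1 hψi2
  have hprim := Gau.prim hl hn2 ψ⁻¹ hψi2
  have hm : f * l ^ n * p ≠ 0 :=
    mul_ne_zero (mul_ne_zero hS.f0 (pow_ne_zero _ hl.ne_zero)) hp.ne_zero
  have hmg : ((f * l ^ n * p : ℕ) : OO A B) ∈ (idl f * cjI P : Ideal (OO A B)) := by
    have : ((f * l ^ n * p : ℕ) : OO A B) = ((l ^ n : ℕ) : OO A B) * ((p * f : ℕ) : OO A B) := by
      push_cast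
      ring
    rw [this]
    exact Ideal.mul_mem_left _ _ hpf
  have hcopm : ∀ i, (MUX.nI (R.b i)).Coprime (f * l ^ n * p) := by
    intro i
    have h1 := R.cop i
    have h2 : (MUX.nI (R.b i)).Coprime p := Nat.Coprime.coprime_mul_right_right h1
    have h3 : (MUX.nI (R.b i)).Coprime f := Nat.Coprime.coprime_mul_left_right h1
    have h4 : (MUX.nI (R.b i)).Coprime l := Nat.Coprime.coprime_dvd_right hlf h3
    exact Nat.Coprime.mul_right (Nat.Coprime.mul_right h3 (Nat.Coprime.pow_right n h4)) h2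
  have hper : ∀ (r : ℚ) (k : ℤ), Φ 1 ∞ ((r + k : ℚ) : OnePoint ℚ) = Φ 1 ∞ (r : OnePoint ℚ) :=
    Pool.Agent.TWB.TWBAux.tr_P tx_HK _ _ _ (hyp.sym 1) hyp.nu1
  rw [Syq.sumEv (Φ 1) hper hl ψ⁻¹ hψi1] at hv
  have hsum := sum_mul A B hS.cq (p * f) ι R P (idl f * cjI P) (epS eta w b) hne kp
    (f * l ^ n * p) (l ^ n) p hm hmg (by rw [mul_assoc]; exact Dvd.intro_left f rfl) hcopm ψ⁻¹ hprim
  rw [spt hS hw R hb (f * l ^ n * p) (l ^ n) ψ hm, ← hΦ] at hsum
  set T : ℂ := ∑ b ∈ Finset.range (l ^ n), ψ⁻¹ (b : ZMod (l ^ n)) *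
    Φ 1 ∞ (((b : ℚ) / (l : ℚ) ^ n : ℚ) : OnePoint ℚ) with hT
  have hT2 : ∑ b ∈ Finset.range (l ^ n), ψ⁻¹ (b : ZMod (l ^ n)) * ∑ c ∈ Finset.range p,
      Φ 0 ∞ ((((b : ℚ) / ((l ^ n : ℕ) : ℚ) + (c : ℚ)) / p : ℚ) : OnePoint ℚ) = T := by
    rw [hT]
    refine Finset.sum_congr rfl fun b _ => ?_
    rw [hU]
    push_cast
    rfl
  rw [hT2] at hsum
  -- valuations
  set S : ℂ := SPt R (f * l ^ n * p) (p - 1) (thP R kp eta ψ w b) w with hSd
  have hlp : ¬ (p : ℤ) ∣ (l : ℤ) := by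
    intro hd
    have h1 : p ∣ l := by exact_mod_cast hd
    exact hS.fp (h1.trans hlf)
  have vl : V.valuation (l : ℂ) = 1 := by
    have := vn l hlp
    rwa [Int.cast_natCast] at this
  have v2 : V.valuation (2 : ℂ) = 1 := by
    have := vn 2 (fun hd => by
      have := Int.le_of_dvd (by norm_num) hd
      omega)
    rwa [show ((2 : ℤ) : ℂ) = 2 by norm_num] at this
  have hv2m : V.valuation (2 * ((f * l ^ n * p : ℕ) : ℂ)) = V.valuation (p : ℂ) := by
    push_cast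
    rw [map_mul, map_mul, map_mul, map_pow, v2, vf, vl, one_pow, one_mul, one_mul, one_mul]
  have hg1 : V.valuation (gaussSum ψ⁻¹ ZMod.stdAddChar) ≤ 1 := Gau.gle V ψ⁻¹
  have hp0 : (p : ℂ) ≠ 0 := by exact_mod_cast hp.ne_zero
  have hvp0 : V.valuation (p : ℂ) ≠ 0 := (Valuation.ne_zero_iff _).2 hp0
  have hψp : V.valuation (ψ⁻¹⁻¹ (p : ZMod (l ^ n))) = 1 := by
    have hu : IsUnit ((p : ℕ) : ZMod (l ^ n)) := by
      rw [ZMod.isUnit_iff_coprime]
      refine Nat.Coprime.pow_right n ?_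
      rw [hp.coprime_iff_not_dvd]
      intro h1
      exact hlp (by exact_mod_cast h1)
    obtain ⟨u, hu⟩ := hu
    rw [← hu]
    refine vr (Fintype.card (ZMod (l ^ n))ˣ) _ Fintype.card_ne_zero ?_
    rw [← map_pow, ← Units.val_pow_eq_pow_val, pow_card_eq_one, Units.val_one, map_one]
  have h3 := congrArg V.valuation hsum
  rw [map_mul, hψp, one_mul, map_mul, map_div₀, hv2m, map_mul] at h3
  have h4 : V.valuation T = V.valuation (gaussSum ψ⁻¹ ZMod.stdAddChar) * V.valuation S := by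
    rw [h3]
    field_simp
  rw [map_mul, v2, one_mul, h4] at hv
  exact hv.trans ((mul_le_mul_left hg1 _).trans_eq (one_mul _))

end

end Pool.Agent.TWQ


end

section

/-!
# TWQ, module SYMQ (helper19): `S_SYMQ`, all characters, both types of primes
-/

set_option autoImplicit false

open WeierstrassCurve Polynomial NumberField IsDedekindDomain

namespace Pool.Agent.TWQ

open _root_.MU3 Pool.Agent.MU3A Pool.Agent.MU3B Pool.Agent.MU3C Pool.Agent.RI Pool.Agent.RID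
open Pool.Agent.MUX Pool.Agent.MUXU Pool.Agent.MUXW Pool.Agent.TWT Pool.Agent.TWI
open OnePoint

noncomputable section

namespace Symq

variable {A B : ℤ} {n : ℕ} {ι : Type}

/-- `e = N`: the sum is the difference of the sum over all `x` and the part `x ∈ P` -/
theorem diff [Fintype ι] (R : Reps A B n ι) (M : ℕ) (hM : M ≠ 0) (kp : ι → ℂ)
    (eta w : OO A B → ℂ) {r : ℕ} (ψ : DirichletCharacter ℂ r) (N b : ℕ) (hN : 1 ≤ N) :
    SSTI R M (thQ R kp eta ψ w N b) w =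
      SAll R M (thP R kp eta ψ w b) - SPt R M N (thP R kp eta ψ w b) w := by
  have hf := SDE.finR (A := A) (B := B) M hM
  unfold SSTI SAll SPt
  rw [← Finset.sum_sub_distrib]
  refine Finset.sum_congr rfl fun i _ => ?_
  rw [← mul_sub, ← SDE.sumMod_sub hf]
  congr 2
  funext x
  have h1 : w x ^ N = w x ^ (N - 1) * w x := by
    rw [← pow_succ]
    congr 1
    omega
  unfold thQ thP
  rw [h1]
  ring

theorem comb (V : ValuationSubring ℂ) {x y : ℂ} (hx : V.valuation x < 1)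
    (hy : 1 ≤ V.valuation y) : 1 ≤ V.valuation (x - y) := by
  have h1 : V.valuation (x - y) = V.valuation y := by
    rw [Valuation.map_sub_swap]
    have h2 : V.valuation x < V.valuation y := hx.trans_le hy
    rw [sub_eq_add_neg, Valuation.map_add_eq_of_lt_left]
    rwa [Valuation.map_neg]
  rw [h1]
  exact hy

end Symq

open _root_.Pool.Agent.TWQ.Symq in
/-- one character -/
theorem single (hTYP : S_TYPQ) (hSAL : S_SALQ) (l g h : ℕ) (hG : Pool.Agent.TWR.Gen l g h)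
    (p q : ℕ) (A B : ℤ) (P P' : Ideal (OO A B)) (V : ValuationSubring ℂ) (f : ℕ)
    (hS : SetQ p q A B P P' V f) (hlf : l ∣ f) (hT : TorX A B) (ι : Type) [Fintype ι]
    (R : Reps A B (p * f) ι) (hGR : GRd V R) (w : OO A B → ℂ) (hw : TeQ p q P V w)
    (kp : ι → ℂ) (eta : OO A B → ℂ) (e b : ℕ) (hch : ChQ p q f P P' R kp eta e b) :
    ∃ n0 : ℕ, ∀ n : ℕ, n0 ≤ n → ∀ ψ : DirichletCharacter ℂ (l ^ n), ψ (-1) = 1 →
      ψ (1 + (l : ZMod (l ^ n)) ^ (n - 1)) ≠ 1 →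
      V.valuation (p : ℂ) ^ (q - 1 - e) ≤
        V.valuation (SSTI R (f * l ^ n * p) (thQ R kp eta ψ w e b) w) ^ (q - 1) := by
  obtain ⟨n1, hn1⟩ := hSAL l g h hG p q A B P P' V f hS hlf ι R hGR w hw kp eta e b hch
  have heq := hch.eN
  rcases hS with ⟨h3, ⟨hI, hP', hq⟩ | ⟨hGs, hP', hq⟩⟩
  · have hp5 := hI.p5
    have hp2 : 25 ≤ p ^ 2 := by nlinarith
    have hw' : TeiI p P V w := by
      rcases hw with ⟨-, h1⟩ | ⟨h1, -⟩
      · exact h1
      · exfalso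
        rw [hq] at h1
        nlinarith
    have hb0 : b = 0 := by
      rcases hch.bb with ⟨-, h1⟩ | ⟨h1, -, -⟩
      · exact h1
      · exfalso
        have h2 : (1 : OO A B) ∈ cjI P := by rw [← h1, hP']; trivial
        have h4 : star (1 : OO A B) ∈ P := (MUXHY.Ide.mem_cjI P 1).1 h2
        rw [star_one] at h4
        exact hI.hP.ne_top ((Ideal.eq_top_iff_one P).2 h4)
    subst hP' hq hb0
    rcases Nat.lt_or_ge e (p ^ 2 - 1) with he | he
    · exact t_SYIA hTYP l g h hG p A B P V f hI hlf hT ι R hGR w hw' kp eta e hch he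
    · have he' : e = p ^ 2 - 1 := by omega
      subst he'
      obtain ⟨n2, hn2⟩ := t_SPI l g h hG p A B P V f hI hlf ι R hGR w hw' kp eta hch
      refine ⟨max n1 n2, fun n hn ψ hψ1 hψ2 => ?_⟩
      have ha := hn1 n ((le_max_left _ _).trans hn) ψ hψ2
      have hb := hn2 n ((le_max_right _ _).trans hn) ψ hψ1 hψ2
      have hM : f * l ^ n * p ≠ 0 :=
        mul_ne_zero (mul_ne_zero hI.f0 (pow_ne_zero _ (Syq.l_prime hG).ne_zero)) hI.pp.ne_zero
      rw [Nat.sub_self, pow_zero, diff R _ hM kp eta w ψ (p ^ 2 - 1) 0 (by omega)]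
      exact one_le_pow₀ (comb V ha hb)
  · have hp5 := hGs.p5
    have hw' : TeiP p P V w := by
      rcases hw with ⟨h1, -⟩ | ⟨-, h1⟩
      · exfalso
        rw [hq] at h1
        nlinarith
      · exact h1
    subst hP' hq
    rcases Nat.lt_or_ge e (q - 1) with he | he
    · exact t_SYSA t_TBQ t_STKQ l g h hG q A B P V f hGs hlf hT ι R hGR w hw' kp eta e b hch he
    · have he' : e = q - 1 := by omega
      subst he'
      obtain ⟨n2, hn2⟩ := t_SPS l g h hG q A B P V f hGs hlf ι R hGR w hw' kp eta b hch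
      refine ⟨max n1 n2, fun n hn ψ hψ1 hψ2 => ?_⟩
      have ha := hn1 n ((le_max_left _ _).trans hn) ψ hψ2
      have hb := hn2 n ((le_max_right _ _).trans hn) ψ hψ1 hψ2
      have hM : f * l ^ n * q ≠ 0 :=
        mul_ne_zero (mul_ne_zero hGs.f0 (pow_ne_zero _ (Syq.l_prime hG).ne_zero)) hGs.pp.ne_zero
      rw [Nat.sub_self, pow_zero, diff R _ hM kp eta w ψ (q - 1) b (by omega)]
      exact one_le_pow₀ (comb V ha hb)

/-- (SYMQ) from TYPQ and SALQ -/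
theorem t_SYMQ (hTYP : S_TYPQ) (hSAL : S_SALQ) : S_SYMQ := by
  intro l g h hG p q A B P P' V f hS hlf hT ι _ R hGR w hw J _ kp eta e b hch _
  have := Fintype.ofFinite J
  choose n0 hn0 using fun j => single hTYP hSAL l g h hG p q A B P P' V f hS hlf hT ι R hGR w hw
    (kp j) (eta j) (e j) (b j) (hch j)
  exact ⟨Finset.univ.sup n0, fun n hn j ψ h1 h2 =>
    hn0 j n ((Finset.le_sup (Finset.mem_univ j)).trans hn) ψ h1 h2⟩

end

end Pool.Agent.TWQ


end
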