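import Pool.Agent.MVF.C087
import Pool.Agent.TWM.C05
import Pool.Agent.TWM.C07
import Pool.Agent.TWM.C10
import Pool.Agent.TWM.C11
import Pool.Agent.TWM.C15
import Pool.Agent.TWM.C17
import Pool.Agent.TWM.C20
import Pool.Agent.TWM.C21
import Pool.Agent.TWM.C22
import Pool.Agent.TWM.C24
import Pool.Agent.TWM.C26
import Pool.Agent.TWM.C27
import Pool.Agent.TWZ.C01
import Pool.Agent.TWZ.C02

/-! Parts: TWQ.K4Q, TWQ.PART, TWQ.E0Q, TWQ.EXQ, TWQ.FINQ, TWQ.FIQ, TWQ.KEYQ, TWQ.RSQ, TWQ.SDQ, TWQ.UNRQ, TWQ.FACQ, TWQ.TRVQ, TWQ.TYPQ -/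

section

/-!
# TWQ, module K4Q (helper60): the assembly of block K for subfields of `ℂ`, `[K' : k]` prime to `p`
-/

set_option autoImplicit false

open NumberField IsDedekindDomain Finset
open scoped nonZeroDivisors Pointwise

namespace Pool.Agent.TWQ

open Pool.Agent.MU3 Pool.Agent.RI Pool.Agent.RID Pool.Agent.MUXK Pool.Agent.TWK

namespace K4Qx

/-- `p`-th powers descend along an extension of degree prime to `p` -/
theorem pw {p : ℕ} (hp : p.Prime) {L M : Type} [Field L] [Field M] [Algebra L M]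
    [FiniteDimensional L M] (hd : ¬ p ∣ Module.finrank L M) {s : L} {y : M}
    (hy : y ^ p = algebraMap L M s) : ∃ x : L, x ^ p = s := by
  set d := Module.finrank L M with hdd
  have h1 : (Algebra.norm L y) ^ p = s ^ d := by
    rw [← map_pow, hy, Algebra.norm_algebraMap]
  by_cases hs : s = 0
  · exact ⟨0, by rw [hs, zero_pow hp.ne_zero]⟩
  obtain ⟨u, v, huv⟩ : IsCoprime (d : ℤ) (p : ℤ) := by
    rw [Nat.isCoprime_iff_coprime, Nat.coprime_comm]
    exact (Nat.Prime.coprime_iff_not_dvd hp).2 hd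
  refine ⟨(Algebra.norm L y) ^ u * s ^ v, ?_⟩
  have hy0 : Algebra.norm L y ≠ 0 := by
    intro h0
    rw [h0, zero_pow hp.ne_zero] at h1
    exact (pow_ne_zero d hs) h1.symm
  have h2 : (Algebra.norm L y) ^ (p : ℤ) = s ^ (d : ℤ) := by
    rw [zpow_natCast, zpow_natCast]
    exact h1
  calc ((Algebra.norm L y) ^ u * s ^ v) ^ p
      = ((Algebra.norm L y) ^ u * s ^ v) ^ (p : ℤ) := (zpow_natCast _ _).symm
    _ = ((Algebra.norm L y) ^ (p : ℤ)) ^ u * (s ^ v) ^ (p : ℤ) := by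
        rw [mul_zpow, ← zpow_mul, mul_comm u, zpow_mul]
    _ = s ^ (u * d + v * p) := by
        rw [h2, ← zpow_mul, ← zpow_mul, zpow_add₀ hs, mul_comm u]
    _ = s := by rw [huv, zpow_one]

end K4Qx

theorem t_K4Q (hK3 : S_K3) (hSUB : S_SUBC) (hGAL : S_GALC) (hRAM : S_RAMC)
    (hLFT : S_LFT2) (hDEG : S_DEG2) (hNRM : S_NRM2) (hDSC : S_DSC2) : S_K4Q := by
  intro p l _ _ hpl F _ _ _ k K K'' K' B _ _ _ _ _ _ _ hD
  have hKK : K ≤ K' := hD.le1.trans hD.le2
  obtain ⟨S', h2', hp', hS', hram'⟩ := hRAM p l k K' B hD.bas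
  refine ⟨S', h2', hp', hS', ?_⟩
  intro S hSS hS
  obtain ⟨n₀, hn₀⟩ := hLFT l k K K' B hD.bas hD.hk hKK S hS (Module.finrank ℚ K')
  refine ⟨n₀, ?_⟩
  intro n hn h h''
  let i1 : Algebra k ↥(K ⊔ B (n + 1)) := algC h
  let j2 : Algebra k ↥(K'' ⊔ B (n + 1)) := algC h''
  intro c c₀ hc0 hSU hKol hcc hchi L hkL hLN
  have hLD : K ⊔ B (n + 1) ≤ K'' ⊔ B (n + 1) := sup_le_sup_right hD.le1 _
  have hDM : K'' ⊔ B (n + 1) ≤ K' ⊔ B (n + 1) := sup_le_sup_right hD.le2 _
  have hh : K ⊔ B (n + 1) ≤ K' ⊔ B (n + 1) := hLD.trans hDM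
  have h' : k ≤ K' ⊔ B (n + 1) := h.trans hh
  let i2 : Algebra k ↥(K' ⊔ B (n + 1)) := algC h'
  have hF : K ⊔ B n ≤ K ⊔ B (n + 1) := sup_le_sup_left (hD.bas.mono (Nat.le_succ n)) K
  have hkF : k ≤ K ⊔ B n := hD.hk.trans le_sup_left
  obtain ⟨g'', g, g₁, hg1, hg2, hg3, hg4, hg5, hg6⟩ := hn₀ n hn h h' hh hF
  let i3 : Algebra ↥(K ⊔ B (n + 1)) ↥(K' ⊔ B (n + 1)) := algC hh
  let i4 : Algebra ↥(K ⊔ B n) ↥(K ⊔ B (n + 1)) := algC hF
  let j3 : Algebra ↥(K ⊔ B (n + 1)) ↥(K'' ⊔ B (n + 1)) := algC hLD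
  let j4 : Algebra ↥(K'' ⊔ B (n + 1)) ↥(K' ⊔ B (n + 1)) := algC hDM
  have t1 : IsScalarTower k ↥(K ⊔ B (n + 1)) ↥(K' ⊔ B (n + 1)) := towerC h hh
  have t3 : IsScalarTower k ↥(K ⊔ B (n + 1)) ↥(K'' ⊔ B (n + 1)) := towerC h hLD
  have t4 : IsScalarTower k ↥(K'' ⊔ B (n + 1)) ↥(K' ⊔ B (n + 1)) := towerC h'' hDM
  have t5 : IsScalarTower ↥(K ⊔ B (n + 1)) ↥(K'' ⊔ B (n + 1)) ↥(K' ⊔ B (n + 1)) := towerC hLD hDM
  have hbK : BasC l k K B := hSUB l k K K' B hD.bas hD.hk hKK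
  have hbK'' : BasC l k K'' B := hSUB l k K'' K' B hD.bas (hD.hk.trans hD.le1) hD.le2
  obtain ⟨gal1, ab1⟩ := hGAL l k K B hbK (n + 1) h
  obtain ⟨gal2, ab2⟩ := hGAL l k K' B hD.bas (n + 1) h'
  obtain ⟨gal5, ab5⟩ := hGAL l k K'' B hbK'' (n + 1) h''
  have hpp : p.Prime := Fact.out
  have hmul : Module.finrank k (IntermediateField.extendScalars hD.hk) ∣
      Module.finrank k (IntermediateField.extendScalars hD.bas.hk) := by
    let a1 : Algebra k K := algC hD.hk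
    let a2 : Algebra k K' := algC hD.bas.hk
    let a3 : Algebra K K' := algC hKK
    have a4 : IsScalarTower k K K' := towerC hD.hk hKK
    have a5 : FiniteDimensional k K := Module.Finite.of_restrictScalars_finite ℚ k K
    have a6 : FiniteDimensional K K' := Module.Finite.of_restrictScalars_finite ℚ K K'
    rw [← finrank_algC hD.hk, ← finrank_algC hD.bas.hk]
    exact ⟨_, (Module.finrank_mul_finrank k K K').symm⟩
  have hcopK : ¬ p ∣ Module.finrank k (IntermediateField.extendScalars hD.hk) := fun h0 =>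
    hD.cop (h0.trans hmul)
  obtain ⟨d1, d2, d3⟩ := hDEG p l hpl k K K' B hD.bas.lay hD.bas.mono hD.hk hKK hcopK
  let i5 : Algebra k ↥(K ⊔ B n) := algC hkF
  have t2 : IsScalarTower k ↥(K ⊔ B n) ↥(K ⊔ B (n + 1)) := towerC hkF hF
  have gal3 : IsGalois ↥(K ⊔ B n) ↥(K ⊔ B (n + 1)) :=
    IsGalois.tower_top_of_isGalois k ↥(K ⊔ B n) ↥(K ⊔ B (n + 1))
  have gal4 : IsGalois ↥(K ⊔ B (n + 1)) ↥(K' ⊔ B (n + 1)) :=
    IsGalois.tower_top_of_isGalois k ↥(K ⊔ B (n + 1)) ↥(K' ⊔ B (n + 1))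
  have gal6 : IsGalois ↥(K ⊔ B (n + 1)) ↥(K'' ⊔ B (n + 1)) :=
    IsGalois.tower_top_of_isGalois k ↥(K ⊔ B (n + 1)) ↥(K'' ⊔ B (n + 1))
  have hdp1 : ¬ p ∣ Module.finrank k ↥(K ⊔ B (n + 1)) := d2 (n + 1) h
  -- the roots of unity
  obtain ⟨z, hzK, hz⟩ := hD.ze
  have hzM : z ∈ K' ⊔ B (n + 1) := (le_sup_left : K' ≤ K' ⊔ B (n + 1)) hzK
  have hzM' : IsPrimitiveRoot (⟨z, hzM⟩ : ↥(K' ⊔ B (n + 1))) (2 * p) := by
    refine IsPrimitiveRoot.of_map_of_injective
      (f := (algebraMap ↥(K' ⊔ B (n + 1)) ℂ)) (k := 2 * p) ?_ (algebraMap ↥(K' ⊔ B (n + 1)) ℂ).injective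
    exact hz
  have h2p : 0 < 2 * p := Nat.mul_pos two_pos hpp.pos
  have hne : NeZero (2 * p) := ⟨h2p.ne'⟩
  let ζ : 𝓞 ↥(K' ⊔ B (n + 1)) := hzM'.toInteger
  have hζ : IsPrimitiveRoot ζ (2 * p) := hzM'.toInteger_isPrimitiveRoot
  have hω : IsPrimitiveRoot ((⟨z, hzM⟩ : ↥(K' ⊔ B (n + 1))) ^ 2) p :=
    hzM'.pow h2p rfl
  have habML : ∀ σ τ : ↥(K' ⊔ B (n + 1)) ≃ₐ[↥(K ⊔ B (n + 1))] ↥(K' ⊔ B (n + 1)),
      σ * τ = τ * σ := by
    intro σ τ
    apply AlgEquiv.restrictScalars_injective k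
    exact ab2 (σ.restrictScalars k) (τ.restrictScalars k)
  have hnorm : Algebra.norm ↥(K ⊔ B (n + 1)) c = c₀ := by
    apply Subtype.ext
    rw [hcc]
    exact hNRM k (K ⊔ B (n + 1)) (K'' ⊔ B (n + 1)) h h'' hLD gal6 c
  -- the automorphism of `D`
  let g' : ↥(K'' ⊔ B (n + 1)) ≃ₐ[k] ↥(K'' ⊔ B (n + 1)) :=
    AlgEquiv.restrictNormalHom ↥(K'' ⊔ B (n + 1)) g''
  have hg' : ∀ x : ↥(K'' ⊔ B (n + 1)), algebraMap ↥(K'' ⊔ B (n + 1)) ↥(K' ⊔ B (n + 1)) (g' x) =
      g'' (algebraMap ↥(K'' ⊔ B (n + 1)) ↥(K' ⊔ B (n + 1)) x) := fun x =>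
    AlgEquiv.restrictNormal_commutes g'' ↥(K'' ⊔ B (n + 1)) x
  have hg'' : g' ∈ {g : ↥(K'' ⊔ B (n + 1)) ≃ₐ[k] ↥(K'' ⊔ B (n + 1)) |
      ∀ x : ↥(K'' ⊔ B (n + 1)), (x : ℂ) ∈ K'' → g x = x} := by
    intro x hx
    apply (algebraMap ↥(K'' ⊔ B (n + 1)) ↥(K' ⊔ B (n + 1))).injective
    rw [hg' x]
    exact hg1 _ (hD.le2 hx)
  have hgg' : ∀ x : ↥(K ⊔ B (n + 1)), algebraMap ↥(K ⊔ B (n + 1)) ↥(K'' ⊔ B (n + 1)) (g x) =
      g' (algebraMap ↥(K ⊔ B (n + 1)) ↥(K'' ⊔ B (n + 1)) x) := by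
    intro x
    apply (algebraMap ↥(K'' ⊔ B (n + 1)) ↥(K' ⊔ B (n + 1))).injective
    rw [hg', ← IsScalarTower.algebraMap_apply, ← IsScalarTower.algebraMap_apply]
    exact hg3 x
  refine hDSC p k (K ⊔ B n) (K ⊔ B (n + 1)) hkF hF ⟨gal1, ab1, hdp1⟩ ?_ L hkL hLN
  rw [K4x.classNo_eq, K4x.classNo_eq]
  refine hK3 p F k ↥(K ⊔ B n) ↥(K ⊔ B (n + 1)) ↥(K'' ⊔ B (n + 1)) ↥(K' ⊔ B (n + 1)) ab2 hdp1
    (d3 n hF) S ζ hζ (hSS h2') (hSS hp') hS (hram' S hSS (n + 1) h') c _ hc0 hSU hKol g'' g' g g₁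
    hg'' hg2 hg' hgg' hg4 hg5 ?_
  intro χ hχ
  obtain ⟨s, hs⟩ := hg6 F χ hχ
  refine ⟨⟨s, (d1 (n + 1) hh).trans hs⟩, ?_⟩
  obtain ⟨θ, hθ⟩ := hchi χ ⟨g, fun x hx => by
    have := g₁.commutes (⟨(x : ℂ), hx⟩ : ↥(K ⊔ B n))
    rw [hg4] at this
    exact this, hχ⟩
  refine ⟨θ, ?_⟩
  intro y hy
  rw [hnorm] at hy
  have e1 := (hDEG p l hpl k K' K' B hD.bas.lay hD.bas.mono hD.bas.hk le_rfl hD.cop).2.1 (n + 1) h'
  have fi : FiniteDimensional ↥(K ⊔ B (n + 1)) ↥(K' ⊔ B (n + 1)) :=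
    Module.Finite.of_restrictScalars_finite ℚ ↥(K ⊔ B (n + 1)) ↥(K' ⊔ B (n + 1))
  have fi2 : FiniteDimensional k ↥(K ⊔ B (n + 1)) :=
    Module.Finite.of_restrictScalars_finite ℚ k ↥(K ⊔ B (n + 1))
  have e2 : ¬ p ∣ Module.finrank ↥(K ⊔ B (n + 1)) ↥(K' ⊔ B (n + 1)) := fun h0 =>
    e1 (h0.trans ⟨_, by rw [mul_comm]; exact (Module.finrank_mul_finrank k _ _).symm⟩)
  obtain ⟨x, hx⟩ := K4Qx.pw hpp e2 hy
  exact hθ x hx

end Pool.Agent.TWQ


end

section

/-!
# TWQ: the parts of a multiplicative function for two coprime ideals (helper51)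
-/

set_option autoImplicit false

namespace Pool.Agent.TWQ

namespace PART

variable {O : Type} [CommRing O]

theorem cop_sub {m : Ideal O} {x y : O} (h : x - y ∈ m) (hx : IsCoprime (Ideal.span {x}) m) :
    IsCoprime (Ideal.span {y}) m := by
  obtain ⟨a, ha, b, hb, hab⟩ := Ideal.isCoprime_iff_exists.1 hx
  obtain ⟨c, rfl⟩ := Ideal.mem_span_singleton'.1 ha
  refine Ideal.isCoprime_iff_exists.2 ⟨c * y, Ideal.mem_span_singleton'.2 ⟨c, rfl⟩,
    c * (x - y) + b, m.add_mem (m.mul_mem_left _ h) hb, ?_⟩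
  rw [← hab]
  ring

theorem cop_one {m : Ideal O} : IsCoprime (Ideal.span {(1 : O)}) m := by
  rw [Ideal.span_singleton_one, ← Ideal.one_eq_top]
  exact isCoprime_one_left

/-- the part of `Φ` at `F` -/
theorem part (F G : Ideal O) (c : O) (hcG : c ∈ G) (hcF : 1 - c ∈ F) (Φ : O → ℂ)
    (h1 : Φ 1 = 1) (hm : ∀ x y, Φ (x * y) = Φ x * Φ y)
    (hp : ∀ x y, x - y ∈ F → x - y ∈ G → Φ x = Φ y)
    (hs : ∀ x, Φ x ≠ 0 ↔ IsCoprime (Ideal.span {x}) F ∧ IsCoprime (Ideal.span {x}) G) :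
    Φ (1 * c + (1 - c)) = 1 ∧
    (∀ x y, Φ (x * y * c + (1 - c)) = Φ (x * c + (1 - c)) * Φ (y * c + (1 - c))) ∧
    (∀ x y, x - y ∈ F → Φ (x * c + (1 - c)) = Φ (y * c + (1 - c))) ∧
    ∀ x, Φ (x * c + (1 - c)) ≠ 0 ↔ IsCoprime (Ideal.span {x}) F := by
  have hF : ∀ x : O, x * c + (1 - c) - x ∈ F := by
    intro x
    have h : x * c + (1 - c) - x = (1 - x) * (1 - c) := by ring
    rw [h]
    exact F.mul_mem_left _ hcF
  have hG : ∀ x : O, x * c + (1 - c) - 1 ∈ G := by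
    intro x
    have h : x * c + (1 - c) - 1 = (x - 1) * c := by ring
    rw [h]
    exact G.mul_mem_left _ hcG
  refine ⟨?_, ?_, ?_, ?_⟩
  · rw [one_mul, add_sub_cancel, h1]
  · intro x y
    rw [← hm]
    refine hp _ _ ?_ ?_
    · have h : x * y * c + (1 - c) - (x * c + (1 - c)) * (y * c + (1 - c)) =
          (x * y * c + (1 - c) - x * y) - (x * c + (1 - c) - x) * (y * c + (1 - c)) -
            x * (y * c + (1 - c) - y) := by ring
      rw [h]
      exact F.sub_mem (F.sub_mem (hF _) (F.mul_mem_right _ (hF x))) (F.mul_mem_left _ (hF y))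
    · have h : x * y * c + (1 - c) - (x * c + (1 - c)) * (y * c + (1 - c)) =
          (x * y * c + (1 - c) - 1) - (x * c + (1 - c) - 1) * (y * c + (1 - c)) -
            (y * c + (1 - c) - 1) := by ring
      rw [h]
      exact G.sub_mem (G.sub_mem (hG _) (G.mul_mem_right _ (hG x))) (hG y)
  · intro x y hxy
    refine hp _ _ ?_ ?_
    · have h : x * c + (1 - c) - (y * c + (1 - c)) = (x - y) * c := by ring
      rw [h]
      exact F.mul_mem_right _ hxy
    · have h : x * c + (1 - c) - (y * c + (1 - c)) = (x - y) * c := by ring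
      rw [h]
      exact G.mul_mem_left _ hcG
  · intro x
    rw [hs]
    constructor
    · rintro ⟨h, -⟩
      exact cop_sub (hF x) h
    · intro h
      refine ⟨cop_sub ?_ h, cop_sub ?_ (cop_one (m := G))⟩
      · rw [← neg_sub]
        exact neg_mem (hF x)
      · rw [← neg_sub]
        exact neg_mem (hG x)

/-- the product of the two parts -/
theorem prod (F G : Ideal O) (c : O) (hcG : c ∈ G) (hcF : 1 - c ∈ F) (Φ : O → ℂ)
    (hm : ∀ x y, Φ (x * y) = Φ x * Φ y)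
    (hp : ∀ x y, x - y ∈ F → x - y ∈ G → Φ x = Φ y) (x : O) :
    Φ x = Φ (x * c + (1 - c)) * Φ (x * (1 - c) + (1 - (1 - c))) := by
  rw [← hm]
  have h : x - (x * c + (1 - c)) * (x * (1 - c) + (1 - (1 - c))) =
      -((x - 1) ^ 2 * (c * (1 - c))) := by ring
  refine hp _ _ ?_ ?_
  · rw [h]
    exact neg_mem (F.mul_mem_left _ (F.mul_mem_left _ hcF))
  · rw [h]
    exact neg_mem (G.mul_mem_left _ (G.mul_mem_right _ hcG))

end PART

end Pool.Agent.TWQ


end

section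

/-!
# TWQ: the character of ideals attached to a character of `Gal(K / k)`, `K ≤ RF (f p)` (helper51)
-/

set_option autoImplicit false

namespace Pool.Agent.TWQ

open _root_.MU3 Pool.Agent.MU3 Pool.Agent.MU3A Pool.Agent.MU3B Pool.Agent.RI Pool.Agent.RID
  Pool.Agent.MUX Pool.Agent.MUXE Pool.Agent.MUXK Pool.Agent.MUXI Pool.Agent.TWF Pool.Agent.TWT
  Pool.Agent.TWI

/-- the properties of `w` -/
structure WProp {A B : ℤ} (P : Ideal (OO A B)) (N : ℕ) (w : OO A B → ℂ) : Prop where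
  one : w 1 = 1
  mul : ∀ x y, w (x * y) = w x * w y
  per : ∀ x y, x - y ∈ P → w x = w y
  inj : ∀ x, x ∉ P → w x = 1 → x - 1 ∈ P
  root : ∀ x, x ∉ P → w x ^ N = 1

theorem inj_of {A B : ℤ} (hc : CQ A B) {P : Ideal (OO A B)} {V : ValuationSubring ℂ}
    (hV : OverI V P) {w : OO A B → ℂ} (hr : ∀ x, V.valuation (w x - emb x) < 1) (x : OO A B)
    (hx : w x = 1) : x - 1 ∈ P := by
  rw [← hV, ValuationSubring.mem_nonunits_iff, emb_sub hc, emb_one hc]
  have h1 := hr x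
  rw [hx, ← Valuation.map_neg, neg_sub] at h1
  exact h1

theorem max_of {A B : ℤ} (P : Ideal (OO A B)) (hP : P.IsPrime) (n : ℕ) (hn : n ≠ 0)
    (h : Nat.card (OO A B ⧸ P) = n) : P.IsMaximal := by
  have hfin : Finite (OO A B ⧸ P) := Nat.finite_of_card_ne_zero (by rw [h]; exact hn)
  have hdom : IsDomain (OO A B ⧸ P) := Ideal.Quotient.isDomain P
  exact Ideal.Quotient.maximal_of_isField _ (Finite.isField_of_domain _)

/-- `-1` is not a square of the kernel: `w (-1) = -1` -/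
theorem w_neg {A B : ℤ} {P : Ideal (OO A B)} {N : ℕ} {w : OO A B → ℂ} (hw : WProp P N w)
    (h2 : (2 : OO A B) ∉ P) (hPp : P.IsPrime) : w (-1) = -1 := by
  have h1 : w (-1) * w (-1) = 1 := by
    rw [← hw.mul, neg_mul_neg, one_mul, hw.one]
  have h3 : (-1 : OO A B) ∉ P := by
    intro h
    apply hPp.ne_top
    rw [Ideal.eq_top_iff_one]
    have := neg_mem h
    rwa [neg_neg] at this
  rcases mul_self_eq_one_iff.1 h1 with h | h
  · exfalso
    have h4 := hw.inj _ h3 h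
    apply h2
    have h5 := neg_mem h4
    have h6 : -((-1 : OO A B) - 1) = 2 := by ring
    rwa [h6] at h5
  · exact h

/-- The data at `p` of a multiplicative function periodic modulo `p`. -/
theorem at_p (p q : ℕ) (hp : p.Prime) (A B : ℤ) (P P' : Ideal (OO A B)) (V : ValuationSubring ℂ)
    (f : ℕ) (hS : SetQ p q A B P P' V f) (w : OO A B → ℂ) (hw : TeQ p q P V w) :
    WProp P (q - 1) w ∧ CQ A B ∧ 5 ≤ p ∧ ¬ p ∣ f ∧ f ≠ 0 ∧ P.IsPrime ∧ ((p : ℕ) : OO A B) ∈ P ∧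
    (∀ c : ℤ, (c : OO A B) ∈ P ↔ (p : ℤ) ∣ c) ∧
    ∀ (ρ : OO A B → ℂ), ρ 1 = 1 → (∀ x y, ρ (x * y) = ρ x * ρ y) →
      (∀ x y, x - y ∈ (idl p : Ideal (OO A B)) → ρ x = ρ y) →
      (∀ x, ρ x ≠ 0 ↔ IsCoprime (Ideal.span {x}) (idl p : Ideal (OO A B))) →
      ∃ e b : ℕ, 1 ≤ e ∧ e < q ∧ ((P' = ⊤ ∧ b = 0) ∨ (P' = cjI P ∧ 1 ≤ b ∧ b < q)) ∧
        ∀ x, IsCoprime (Ideal.span {x}) (idl p : Ideal (OO A B)) →
          ρ x = w x ^ (e - 1) * w (star x) ^ b := by
  obtain ⟨-, ⟨hI, hP', hq⟩ | ⟨hG, hP', hq⟩⟩ := hS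
  · -- `p` inert
    have hp5 := hI.p5
    have hT : TeiI p P V w := by
      rcases hw with ⟨-, h⟩ | ⟨h, -⟩
      · exact h
      · exfalso
        rw [hq] at h
        nlinarith [hI.p5]
    obtain ⟨i1, i2, -, -, -, -, -⟩ := t_IDPI p A B P V f hI
    have hmax : P.IsMaximal := max_of P hI.hP (p ^ 2) (pow_ne_zero _ hp.ne_zero) i2
    have hpP : ((p : ℕ) : OO A B) ∈ P := by
      rw [hI.eP]
      exact Ideal.mem_span_singleton_self _
    have hW : WProp P (q - 1) w := by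
      refine ⟨hT.one, hT.mul, hT.per, fun x _ hx => inj_of hI.cq hI.hV hT.red x hx, fun x hx => ?_⟩
      rw [hq]
      exact hT.root x hx
    have hq1 : 25 ≤ q := by
      rw [hq]
      nlinarith
    refine ⟨hW, hI.cq, hp5, hI.fp, hI.f0, hI.hP, hpP, i1, ?_⟩
    intro ρ r1 rm rp rs
    obtain ⟨e, he, hee⟩ := pow_w P hmax (q - 1) (by rw [i2, ← hq]; omega) (by omega) w hW.one hW.mul
      hW.per hW.inj hW.root ρ r1 rm (fun x y h => rp x y (by rw [← hI.eP]; exact h))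
    refine ⟨e + 1, 0, by omega, by omega, Or.inl ⟨hP', rfl⟩, fun x hx => ?_⟩
    have hxP : x ∉ P := by
      intro h
      obtain ⟨a, ha, b, hb, hab⟩ := Ideal.isCoprime_iff_exists.1 hx
      apply hI.hP.ne_top
      rw [Ideal.eq_top_iff_one, ← hab]
      refine P.add_mem ?_ (by rw [hI.eP]; exact hb)
      obtain ⟨c, rfl⟩ := Ideal.mem_span_singleton'.1 ha
      exact P.mul_mem_left _ h
    rw [hee x hxP, Nat.add_sub_cancel, pow_zero, mul_one]
  · -- `p` split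
    have hp5 := hG.p5
    have hT : TeiP p P V w := by
      rcases hw with ⟨h, -⟩ | ⟨-, h⟩
      · exfalso
        rw [hq] at h
        nlinarith [hG.p5]
      · exact h
    obtain ⟨-, i1, i3, i4, -, -, -⟩ := t_IDP p A B P V f hG
    have hPp : P.IsPrime := hG.hP.prime
    have hmax : P.IsMaximal := max_of P hPp p hp.ne_zero hG.hP.norm
    have hPb : P ≠ ⊥ := by
      rintro rfl
      exact natCast_ne_zero' hG.cq hp.ne_zero (Ideal.mem_bot.1 hG.hP.mem)
    have hcp : (cjI P).IsPrime := Ideal.IsPrime.comap _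
    have hcn : Nat.card (OO A B ⧸ cjI P) = p := by
      have h1 : nI (cjI P) = p := by rw [nI_cjI hG.cq hPb, hG.hP.norm]
      exact h1
    have hcmax : (cjI P).IsMaximal := max_of (cjI P) hcp p hp.ne_zero hcn
    have hW : WProp P (q - 1) w := by
      refine ⟨hT.one, hT.mul, hT.per, fun x _ hx => inj_of hG.cq hG.hV hT.red x hx, fun x hx => ?_⟩
      rw [hq]
      exact hT.root x hx
    refine ⟨hW, hG.cq, hp5, hG.fp, hG.f0, hPp, hG.hP.mem, i1, ?_⟩
    intro ρ r1 rm rp rs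
    have hmemc : ∀ x : OO A B, x ∈ cjI P ↔ star x ∈ P := fun x => Iff.rfl
    obtain ⟨a, ha, c, hcc, hac⟩ := Ideal.isCoprime_iff_exists.1 i4
    have hc1 : 1 - c ∈ P := by
      rw [← hac, add_sub_cancel_right]
      exact ha
    have hidl : ∀ x y : OO A B, x - y ∈ P → x - y ∈ cjI P → ρ x = ρ y := by
      intro x y h1 h2
      apply rp
      rw [← i3, Ideal.mul_eq_inf_of_isCoprime i4]
      exact ⟨h1, h2⟩
    have hcop : ∀ x : OO A B, IsCoprime (Ideal.span {x}) (idl p : Ideal (OO A B)) ↔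
        IsCoprime (Ideal.span {x}) P ∧ IsCoprime (Ideal.span {x}) (cjI P) := by
      intro x
      rw [← i3]
      exact ⟨fun h => ⟨h.of_mul_right_left, h.of_mul_right_right⟩, fun h => h.1.mul_right h.2⟩
    have hs2 : ∀ x, ρ x ≠ 0 ↔ IsCoprime (Ideal.span {x}) P ∧
        IsCoprime (Ideal.span {x}) (cjI P) := fun x => (rs x).trans (hcop x)
    obtain ⟨u1, u2, u3, -⟩ := PART.part P (cjI P) c hcc hc1 ρ r1 rm hidl hs2
    have hc2 : 1 - (1 - c) ∈ cjI P := by
      rw [sub_sub_cancel]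
      exact hcc
    obtain ⟨v1, v2, v3, -⟩ := PART.part (cjI P) P (1 - c) hc1 hc2 ρ r1 rm
      (fun x y h1 h2 => hidl x y h2 h1) (fun x => (hs2 x).trans and_comm)
    obtain ⟨e, he, hee⟩ := pow_w P hmax (q - 1) (by rw [← nI, hG.hP.norm, hq]; omega) (by omega) w
      hW.one hW.mul hW.per hW.inj hW.root (fun x => ρ (x * c + (1 - c))) u1 u2 u3
    obtain ⟨e', he', hee'⟩ := pow_w (cjI P) hcmax (q - 1) (by rw [hcn, hq]; omega) (by omega)
      (fun x => w (star x)) (by rw [star_one]; exact hW.one)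
      (fun x y => by rw [star_mul, mul_comm, hW.mul])
      (fun x y h => hW.per _ _ (by rw [← star_sub]; exact h))
      (fun x hx h => by
        have h1 := hW.inj (star x) hx h
        rw [hmemc, star_sub, star_one]
        exact h1)
      (fun x hx => hW.root _ hx) (fun x => ρ (x * (1 - c) + (1 - (1 - c)))) v1 v2 v3
    have key : ∀ x, IsCoprime (Ideal.span {x}) (idl p : Ideal (OO A B)) →
        x ∉ P ∧ x ∉ cjI P := by
      intro x hx
      obtain ⟨h1, h2⟩ := (hcop x).1 hx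
      have aux : ∀ Q : Ideal (OO A B), Q ≠ ⊤ → IsCoprime (Ideal.span {x}) Q → x ∉ Q := by
        intro Q hQ h3 h4
        apply hQ
        rw [Ideal.eq_top_iff_one]
        obtain ⟨a, ha, b, hb, hab⟩ := Ideal.isCoprime_iff_exists.1 h3
        rw [← hab]
        refine Q.add_mem ?_ hb
        obtain ⟨c, rfl⟩ := Ideal.mem_span_singleton'.1 ha
        exact Q.mul_mem_left _ h4
      exact ⟨aux P hPp.ne_top h1, aux _ hcp.ne_top h2⟩
    by_cases h0 : e' = 0
    · refine ⟨e + 1, q - 1, by omega, by omega, Or.inr ⟨hP', by omega, by omega⟩, fun x hx => ?_⟩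
      obtain ⟨k1, k2⟩ := key x hx
      have h1 := hee' x k2
      rw [h0, pow_zero] at h1
      rw [PART.prod P (cjI P) c hcc hc1 ρ rm hidl x, h1, hee x k1, Nat.add_sub_cancel,
        hW.root (star x) k2]
    · refine ⟨e + 1, e', by omega, by omega, Or.inr ⟨hP', by omega, by omega⟩, fun x hx => ?_⟩
      obtain ⟨k1, k2⟩ := key x hx
      rw [PART.prod P (cjI P) c hcc hc1 ρ rm hidl x, hee' x k2, hee x k1, Nat.add_sub_cancel]

/-- The character of the ideals prime to `f p`. -/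
theorem e0q (h1 : Si_ARF) (h4 : Pool.Agent.MUXF.Sx_NIM) (p q : ℕ) (hp : p.Prime) (A B : ℤ)
    (P P' : Ideal (OO A B)) (V : ValuationSubring ℂ) (f : ℕ) (hS : SetQ p q A B P P' V f)
    (T : TorX A B) (ι : Type) (R : Reps A B (p * f) ι) (w : OO A B → ℂ) (hw : TeQ p q P V w)
    (K : IntermediateField ℚ ℂ) (hK : kk A B ≤ K)
    (hKm : ∀ y ∈ K, y ∈ RF (idl (A := A) (B := B) (f * p))) : letI := algC hK
    ∀ (_ : IsGalois (kk A B) K) (X : (K ≃ₐ[kk A B] K) →* ℂˣ) (r : ℕ) (_ : ¬ p ∣ r)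
      (_ : ∀ τ, X τ ^ r = 1),
    ∃ (kp : ι → ℂ) (eta : OO A B → ℂ) (e b : ℕ), ChQ p q f P P' R kp eta e b ∧
      IdC p f R kp eta w e b ∧
      ∀ (τ : K ≃ₐ[kk A B] K) (i : ι) (x : OO A B), IsCoprime x ((f * p : ℕ) : OO A B) →
        AR hK (idl (f * p)) τ (sp x * cjI (R.b i)) →
        kp i * eta x * w x ^ (e - 1) * w (star x) ^ b = (((X τ)⁻¹ : ℂˣ) : ℂ) := by
  let _ : Algebra (kk A B) K := algC hK
  intro hG X r hr hX
  obtain ⟨hW, hc, hp5, hpf, hf0, hPp, hpP, hint, hat⟩ := at_p p q hp A B P P' V f hS w hw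
  have hf1 : 1 ≤ f := Nat.pos_of_ne_zero hf0
  have hfp2 : 2 ≤ f * p := by
    calc 2 ≤ p := hp.two_le
      _ = 1 * p := (one_mul p).symm
      _ ≤ f * p := Nat.mul_le_mul_right p hf1
  have hcop : ∀ i, (nI (R.b i)).Coprime (f * p) := fun i =>
    Nat.Coprime.mul_right (R.cop i).coprime_mul_left_right (R.cop i).coprime_mul_right_right
  obtain ⟨Ψ, s1, s2, s3, s4, s5, s6, s7, s8⟩ := e0c h1 h4 A B hc T (p * f) ι R (f * p) hfp2 hcop K hK
    hKm hG X r hX
  -- the integers `c₁ + c₂ = 1`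
  have hco : IsCoprime (f : ℤ) (p : ℤ) :=
    (Nat.isCoprime_iff_coprime.2 ((Nat.Prime.coprime_iff_not_dvd hp).2 hpf)).symm
  obtain ⟨u, v, huv⟩ := hco
  obtain ⟨c, hcdef⟩ : ∃ c : OO A B, c = (v : OO A B) * ((p : ℕ) : OO A B) := ⟨_, rfl⟩
  have hc1 : 1 - c = (u : OO A B) * ((f : ℕ) : OO A B) := by
    have h := congrArg (Int.cast : ℤ → OO A B) huv
    push_cast at h
    rw [hcdef, ← h]
    ring
  have hcG : c ∈ (idl p : Ideal (OO A B)) := by
    rw [hcdef]
    exact Ideal.mul_mem_left _ _ (Ideal.mem_span_singleton_self _)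
  have hcF : 1 - c ∈ (idl f : Ideal (OO A B)) := by
    rw [hc1]
    exact Ideal.mul_mem_left _ _ (Ideal.mem_span_singleton_self _)
  have hidl : (idl (f * p) : Ideal (OO A B)) = idl f * idl p := by
    rw [Ideal.span_singleton_mul_span_singleton, ← Nat.cast_mul]
  have hcoI : IsCoprime (idl f : Ideal (OO A B)) (idl p) :=
    Ideal.isCoprime_iff_exists.2 ⟨1 - c, hcF, c, hcG, by ring⟩
  obtain ⟨Φ, hΦ⟩ : ∃ Φ : OO A B → ℂ, ∀ x, Φ x = Ψ (sp x) := ⟨fun x => Ψ (sp x), fun _ => rfl⟩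
  have p1 : Φ 1 = 1 := by
    rw [hΦ, sp, Ideal.span_singleton_one, s3]
  have p2 : ∀ x y, Φ (x * y) = Φ x * Φ y := by
    intro x y
    rw [hΦ, hΦ, hΦ, ← s2, sp, sp, sp, Ideal.span_singleton_mul_span_singleton]
  have p3 : ∀ x y, x - y ∈ (idl f : Ideal (OO A B)) → x - y ∈ (idl p : Ideal (OO A B)) →
      Φ x = Φ y := by
    intro x y h h'
    rw [hΦ, hΦ]
    apply s6
    rw [hidl, Ideal.mul_eq_inf_of_isCoprime hcoI]
    exact ⟨h, h'⟩
  have hcp2 : ∀ x : OO A B, IsCoprime (Ideal.span {x}) (idl (f * p) : Ideal (OO A B)) ↔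
      IsCoprime (Ideal.span {x}) (idl f : Ideal (OO A B)) ∧
        IsCoprime (Ideal.span {x}) (idl p : Ideal (OO A B)) := by
    intro x
    rw [hidl]
    exact ⟨fun h => ⟨h.of_mul_right_left, h.of_mul_right_right⟩, fun h => h.1.mul_right h.2⟩
  have p4 : ∀ x, Φ x ≠ 0 ↔ IsCoprime (Ideal.span {x}) (idl f : Ideal (OO A B)) ∧
      IsCoprime (Ideal.span {x}) (idl p : Ideal (OO A B)) := by
    intro x
    rw [hΦ, s4]
    exact hcp2 x
  have p5 : ∀ x, Φ x ≠ 0 → Φ x ^ r = 1 := by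
    intro x
    rw [hΦ]
    exact s5 _
  obtain ⟨u1, u2, u3, u4⟩ := PART.part (idl f) (idl p) c hcG hcF Φ p1 p2 p3 p4
  have hcF2 : 1 - (1 - c) ∈ (idl p : Ideal (OO A B)) := by
    rw [sub_sub_cancel]
    exact hcG
  obtain ⟨v1, v2, v3, v4⟩ := PART.part (idl p) (idl f) (1 - c) hcF hcF2 Φ p1 p2
    (fun x y h h' => p3 x y h' h) (fun x => (p4 x).trans and_comm)
  obtain ⟨e, b, e1, e2, e3, e4⟩ := hat (fun x => Φ (x * (1 - c) + (1 - (1 - c)))) v1 v2 v3 v4
  have hprod : ∀ x, IsCoprime (Ideal.span {x}) (idl (f * p) : Ideal (OO A B)) →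
      Φ x = Φ (x * c + (1 - c)) * w x ^ (e - 1) * w (star x) ^ b := by
    intro x hx
    rw [PART.prod (idl f) (idl p) c hcG hcF Φ p2 p3 x, e4 x ((hcp2 x).1 hx).2, mul_assoc]
  have hspc : ∀ x : OO A B, IsCoprime x ((f * p : ℕ) : OO A B) →
      IsCoprime (Ideal.span {x}) (idl (f * p) : Ideal (OO A B)) := by
    intro x hx
    exact (Ideal.isCoprime_span_singleton_iff x _).2 hx
  have h2P : (2 : OO A B) ∉ P := by
    intro h
    have h2 := (hint 2).1 (by exact_mod_cast h)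
    have h3 := Int.le_of_dvd (by norm_num) h2
    omega
  refine ⟨fun i => Ψ (cjI (R.b i)), fun x => Φ (x * c + (1 - c)), e, b, ?_, ?_, ?_⟩
  · refine ⟨u1, u2, u3, u4, ?_, ?_, ⟨r, hr, s8, ?_⟩, e1, e2, e3⟩
    · -- the sign
      have h5 : IsCoprime (Ideal.span {(-1 : OO A B)}) (idl (f * p) : Ideal (OO A B)) := by
        rw [Ideal.span_singleton_neg]
        exact PART.cop_one
      have h6 := hprod (-1) h5
      have h7 : Φ (-1) = 1 := by rw [hΦ, s7]
      have h8 : w (-1) = -1 := w_neg hW h2P hPp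
      rw [h7, star_neg, star_one, h8, mul_assoc, ← pow_add] at h6
      have h9 : ((-1 : ℂ) ^ (e - 1 + b)) * (-1) ^ (e - 1 + b) = 1 := by
        rw [← mul_pow]
        norm_num
      calc Φ (-1 * c + (1 - c)) = Φ (-1 * c + (1 - c)) * ((-1 : ℂ) ^ (e - 1 + b) *
            (-1) ^ (e - 1 + b)) := by rw [h9, mul_one]
        _ = (Φ (-1 * c + (1 - c)) * (-1) ^ (e - 1 + b)) * (-1) ^ (e - 1 + b) := by ring
        _ = (-1) ^ (e - 1 + b) := by rw [← h6, one_mul]
    · show Ψ (cjI (R.b R.i0)) = 1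
      rw [R.b0]
      have h5 : cjI (⊤ : Ideal (OO A B)) = ⊤ := Ideal.comap_top
      rw [h5, s3]
    · intro x hx
      exact p5 _ hx
  · intro i j k x y hx hy hxy
    have h5 := hprod x (hspc x hx)
    have h6 := hprod y (hspc y hy)
    have h7 := congrArg Ψ hxy
    rw [s2, s2, s2, ← hΦ, ← hΦ] at h7
    show Ψ (cjI (R.b i)) * Ψ (cjI (R.b j)) * (Φ (x * c + (1 - c)) * w x ^ (e - 1) *
      w (star x) ^ b) = Ψ (cjI (R.b k)) * (Φ (y * c + (1 - c)) * w y ^ (e - 1) * w (star y) ^ b)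
    rw [← h5, ← h6]
    linear_combination h7
  · intro τ i x hx hAR
    have h5 := hprod x (hspc x hx)
    have h6 := s1 τ _ hAR
    rw [s2, ← hΦ, h5] at h6
    rw [← h6]
    show Ψ (cjI (R.b i)) * Φ (x * c + (1 - c)) * w x ^ (e - 1) * w (star x) ^ b = _
    ring

end Pool.Agent.TWQ


end

section

/-!
# TWQ, module EXQ (helper3): functions at the points `z + S c` are `D`-pairs (one lattice)
-/

set_option autoImplicit false

open WeierstrassCurve

namespace Pool.Agent.TWQ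

open _root_.MU3 Pool.Agent.MU3A Pool.Agent.MU3B Pool.Agent.MUX Pool.Agent.MUXU Pool.Agent.TWT
open Pool.Agent.TWI
open Pool.Agent.MUXV (GR InK tX)

noncomputable section

variable {V : ValuationSubring ℂ}

/-- (EXQ) Taylor expansions at `z` give `D`-pairs; `D = dW a2 a4` is the derivation `d/dz`. -/
theorem exq {L : PeriodPair} {a2 a4 : V} {n : ℕ} {lam : ℕ → ℂ}
    (hlam : HasTyI V L (n + 1) a2 a4 lam) {J : Type} {T : Finset J} {ζ S : J → ℂ}
    (hζ : ∀ x ∈ T, V.valuation (ζ x) ≤ 1) {w0 : ℂ} (hw : V.valuation w0 < 1)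
    (hS : ∀ x ∈ T, InK V L (xn L) (S x) ∧ S x ∉ L.lattice ∧
      V.valuation (tX (xn L) (yy L) (S x)) = V.valuation w0 ∧
      V.valuation (vpi lam (n + 1) (tX (xn L) (yy L) (S x)) - ζ x * w0) ≤ V.valuation w0 ^ n)
    {z : ℂ} (hz : ¬ InK V L (xn L) z) (f : MvPolynomial (Fin 2) V) :
    DPr V w0 n J T ζ (fun x => MvPolynomial.aeval ![xn L (z + S x), yy L (z + S x)] f)
      (fun x => ζ x * w0 *
        MvPolynomial.aeval ![xn L (z + S x), yy L (z + S x)] (dW a2 a4 f)) := by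
  have hAint : ∀ (f : MvPolynomial (Fin 2) V) (k : ℕ), k < n + 1 →
      V.valuation (dd L a2 a4 f k z) ≤ 1 := fun f k hk => hlam.dint z hz f k hk
  have hcw : ∀ x ∈ T, V.valuation (ζ x * w0) ≤ V.valuation w0 := by
    intro x hx
    rw [map_mul]
    exact (mul_le_mul' (hζ x hx) le_rfl).trans_eq (one_mul _)
  have tay' : ∀ (f : MvPolynomial (Fin 2) V), ∀ x ∈ T,
      V.valuation (MvPolynomial.aeval ![xn L (z + S x), yy L (z + S x)] f -
        ∑ k ∈ Finset.range (n + 1), dd L a2 a4 f k z * (ζ x * w0) ^ k) ≤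
      V.valuation w0 ^ n := by
    intro f x hx
    obtain ⟨hK, hL, hτx, hadv⟩ := hS x hx
    have h3 := hlam.tay (S x) hK hL z hz f
    rw [hτx] at h3
    have h3' := h3.trans (pow_le_pow_right_of_le_one' hw.le (Nat.le_succ n))
    have h5 : V.valuation (vpi lam (n + 1) (tX (xn L) (yy L) (S x))) ≤ 1 := by
      unfold vpi
      apply KEY.sum_le'
      intro j _
      rw [map_mul, map_pow, hτx]
      exact (mul_le_mul' (hlam.int j) (pow_le_one' hw.le j)).trans_eq (one_mul _)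
    have e : MvPolynomial.aeval ![xn L (z + S x), yy L (z + S x)] f -
        ∑ k ∈ Finset.range (n + 1), dd L a2 a4 f k z * (ζ x * w0) ^ k =
        (MvPolynomial.aeval ![xn L (z + S x), yy L (z + S x)] f -
        ∑ k ∈ Finset.range (n + 1), MvPolynomial.aeval ![xn L z, yy L z] ((dW a2 a4)^[k] f) /
          (k.factorial : ℂ) * vpi lam (n + 1) (tX (xn L) (yy L) (S x)) ^ k) +
        ∑ k ∈ Finset.range (n + 1), dd L a2 a4 f k z *
          (vpi lam (n + 1) (tX (xn L) (yy L) (S x)) ^ k - (ζ x * w0) ^ k) := by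
      simp only [dd, mul_sub, Finset.sum_sub_distrib]
      ring
    rw [e]
    apply KEY.add_le' h3'
    apply KEY.sum_le'
    intro k hk
    rw [map_mul]
    refine (mul_le_mul' (hAint _ k (Finset.mem_range.1 hk)) (KEY.pow_close h5 ?_ hadv k)).trans_eq
      (one_mul _)
    exact (hcw x hx).trans hw.le
  have co : ∀ k, (∑ j ∈ Finset.range (n + 1),
      Polynomial.C (dd L a2 a4 f j z * w0 ^ j) * Polynomial.X ^ j).coeff k =
        if k < n + 1 then dd L a2 a4 f k z * w0 ^ k else 0 := by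
    intro k
    rw [Polynomial.finsetSum_coeff]
    simp only [Polynomial.coeff_C_mul, Polynomial.coeff_X_pow, mul_ite, mul_one, mul_zero]
    rw [Finset.sum_ite_eq (Finset.range (n + 1)) k]
    simp only [Finset.mem_range]
  refine ⟨∑ k ∈ Finset.range (n + 1), Polynomial.C (dd L a2 a4 f k z * w0 ^ k) *
    Polynomial.X ^ k, fun k => ?_, fun x hx => ⟨?_, ?_⟩⟩
  · rw [co]
    split_ifs with hk
    · rw [map_mul, map_pow]
      exact (mul_le_mul' (hAint f k hk) le_rfl).trans_eq (one_mul _)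
    · rw [map_zero]
      exact zero_le
  · have e : (∑ k ∈ Finset.range (n + 1), Polynomial.C (dd L a2 a4 f k z * w0 ^ k) *
        Polynomial.X ^ k).eval (ζ x) =
        ∑ k ∈ Finset.range (n + 1), dd L a2 a4 f k z * (ζ x * w0) ^ k := by
      rw [Polynomial.eval_finset_sum]
      refine Finset.sum_congr rfl fun k _ => ?_
      simp only [Polynomial.eval_mul, Polynomial.eval_C, Polynomial.eval_pow, Polynomial.eval_X]
      ring
    rw [e]
    exact tay' f x hx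
  · have e : (Polynomial.X * Polynomial.derivative (∑ k ∈ Finset.range (n + 1),
        Polynomial.C (dd L a2 a4 f k z * w0 ^ k) * Polynomial.X ^ k)).eval (ζ x) =
        ∑ k ∈ Finset.range (n + 1), (k : ℂ) * dd L a2 a4 f k z * (ζ x * w0) ^ k := by
      rw [Polynomial.derivative_sum, Finset.mul_sum, Polynomial.eval_finset_sum]
      refine Finset.sum_congr rfl fun k _ => ?_
      rw [Polynomial.derivative_C_mul_X_pow]
      simp only [Polynomial.eval_mul, Polynomial.eval_C, Polynomial.eval_pow, Polynomial.eval_X]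
      rcases k with _ | k
      · simp
      · simp only [Nat.add_sub_cancel]
        ring
    rw [e]
    have e4 : (ζ x * w0 : ℂ) * ∑ k ∈ Finset.range (n + 1),
          dd L a2 a4 (dW a2 a4 f) k z * (ζ x * w0) ^ k =
        ∑ k ∈ Finset.range (n + 1), (k : ℂ) * dd L a2 a4 f k z * (ζ x * w0) ^ k +
        dd L a2 a4 (dW a2 a4 f) n z * (ζ x * w0) ^ (n + 1) := by
      rw [Finset.mul_sum, Finset.sum_range_succ, Finset.sum_range_succ']
      congr 1
      · rw [Nat.cast_zero, zero_mul, zero_mul, add_zero]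
        refine Finset.sum_congr rfl fun k _ => ?_
        unfold dd
        rw [← Function.iterate_succ_apply, Nat.factorial_succ]
        have h5 : ((k.factorial : ℕ) : ℂ) ≠ 0 := Nat.cast_ne_zero.2 (Nat.factorial_ne_zero _)
        have h6 : ((k : ℂ) + 1) ≠ 0 := Nat.cast_add_one_ne_zero k
        push_cast
        field_simp
        rw [pow_succ]
        ring
      · ring
    have e5 : ζ x * w0 * MvPolynomial.aeval ![xn L (z + S x), yy L (z + S x)] (dW a2 a4 f) -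
        ∑ k ∈ Finset.range (n + 1), (k : ℂ) * dd L a2 a4 f k z * (ζ x * w0) ^ k =
        (ζ x * w0) * (MvPolynomial.aeval ![xn L (z + S x), yy L (z + S x)] (dW a2 a4 f) -
          ∑ k ∈ Finset.range (n + 1), dd L a2 a4 (dW a2 a4 f) k z * (ζ x * w0) ^ k) +
        dd L a2 a4 (dW a2 a4 f) n z * (ζ x * w0) ^ (n + 1) := by
      rw [mul_sub, e4]
      ring
    rw [e5]
    apply KEY.add_le'
    · rw [map_mul]
      exact (mul_le_mul' ((hcw x hx).trans hw.le) (tay' (dW a2 a4 f) x hx)).trans_eq (one_mul _)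
    · rw [map_mul, map_pow]
      refine (mul_le_mul' (hAint (dW a2 a4 f) n (by omega))
        (pow_le_pow_left' (hcw x hx) _)).trans ?_
      rw [one_mul]
      exact pow_le_pow_right_of_le_one' hw.le (Nat.le_succ n)

/-- (EXT) `Θ` at the points `z + S c`, in logarithmic form -/
theorem exq_theta {L : PeriodPair} {a2 a4 : V} (hG : GRa V L a2 a4) {n : ℕ} {lam : ℕ → ℂ}
    (hlam : HasTyI V L (n + 1) a2 a4 lam) {J : Type} {T : Finset J} {ζ S : J → ℂ}
    (hζ : ∀ x ∈ T, V.valuation (ζ x) ≤ 1) {w0 : ℂ} (hw : V.valuation w0 < 1)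
    (hS : ∀ x ∈ T, InK V L (xn L) (S x) ∧ S x ∉ L.lattice ∧
      V.valuation (tX (xn L) (yy L) (S x)) = V.valuation w0 ∧
      V.valuation (vpi lam (n + 1) (tX (xn L) (yy L) (S x)) - ζ x * w0) ≤ V.valuation w0 ^ n)
    {a : ℕ} {H : Finset ℂ} (ha : 1 < a) (hva : V.valuation (a : ℂ) = 1)
    (hH : IsHalf L (a : ℂ) H) {z : ℂ} (hz : ¬ InK V L (xn L) z)
    (haz : ¬ InK V L (xn L) (a * z)) :
    (∀ x ∈ T, V.valuation (ThetaH L H (z + S x)) = 1 ∧
      V.valuation (dlX L a (z + S x)) ≤ 1) ∧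
    DPr V w0 n J T ζ (fun x => ThetaH L H (z + S x))
      (fun x => ThetaH L H (z + S x) * (ζ x * w0 * dlX L a (z + S x))) := by
  obtain ⟨W, ξ, G, -, -⟩ := hG
  obtain ⟨θ, hθ⟩ := t_THT V W L ξ G a H ha hva hH a2 a4
  have hzu : ∀ u : ℂ, InK V L (xn L) u → ¬ InK V L (xn L) (z + u) := by
    intro u hu h
    exact hz ((Pool.Agent.MUXV.inK_congr G (z := z + u) (w := z)
      (by rw [add_sub_cancel_left]; exact hu)).1 h)
  have hazu : ∀ u : ℂ, InK V L (xn L) u → ¬ InK V L (xn L) (a * (z + u)) := by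
    intro u hu h
    refine haz ((Pool.Agent.MUXV.inK_congr G (z := a * (z + u)) (w := a * z) ?_).1 h)
    have e : (a : ℂ) * (z + u) - a * z = (a : ℂ) * u := by ring
    rw [e]
    exact Pool.Agent.MUXV.inK_nat G hu a
  have hT := fun (u : ℂ) (hu : InK V L (xn L) u) => hθ (z + u) (hzu u hu) (hazu u hu)
  refine ⟨fun x hx => ⟨(hT _ (hS x hx).1).2.1, (hT _ (hS x hx).1).2.2.2⟩, ?_⟩
  refine (exq hlam hζ hw hS hz θ).congr_eq (fun x hx => ?_) fun x hx => ?_
  · exact (hT _ (hS x hx).1).1.symm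
  · rw [(hT _ (hS x hx).1).2.2.1]
    ring

/-- (EXX) the coordinate `x` at the points `z + S c` -/
theorem exq_x {L : PeriodPair} {a2 a4 : V} {n : ℕ} {lam : ℕ → ℂ}
    (hlam : HasTyI V L (n + 1) a2 a4 lam) {J : Type} {T : Finset J} {ζ S : J → ℂ}
    (hζ : ∀ x ∈ T, V.valuation (ζ x) ≤ 1) {w0 : ℂ} (hw : V.valuation w0 < 1)
    (hS : ∀ x ∈ T, InK V L (xn L) (S x) ∧ S x ∉ L.lattice ∧
      V.valuation (tX (xn L) (yy L) (S x)) = V.valuation w0 ∧
      V.valuation (vpi lam (n + 1) (tX (xn L) (yy L) (S x)) - ζ x * w0) ≤ V.valuation w0 ^ n)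
    {z : ℂ} (hz : ¬ InK V L (xn L) z) :
    DPr V w0 n J T ζ (fun x => xn L (z + S x)) (fun x => ζ x * w0 * (2 * yy L (z + S x))) := by
  refine (exq hlam hζ hw hS hz (MvPolynomial.X 0)).congr_eq (fun x _ => ?_) fun x _ => ?_
  · rw [MvPolynomial.aeval_X]
    rfl
  · congr 1
    unfold dW
    simp

end

end Pool.Agent.TWQ


end

section

/-!
# TWQ, module FINQ (helper60): from the unit theorem to the class numbers
-/

set_option autoImplicit false

open NumberField IsDedekindDomain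

namespace Pool.Agent.TWQ

open _root_.MU3 Pool.Agent.MU3 Pool.Agent.MU3A Pool.Agent.MU3B Pool.Agent.RI Pool.Agent.RID
  Pool.Agent.MUX Pool.Agent.MUXK Pool.Agent.MUXW Pool.Agent.MUXJ Pool.Agent.TWT Pool.Agent.TWI
  Pool.Agent.TWK Pool.Agent.TWR
open Pool.Agent.MU3V (Sub GD)

theorem setQ_bas {p q : ℕ} {A B : ℤ} {P P' : Ideal (OO A B)} {V : ValuationSubring ℂ} {f : ℕ}
    (h : SetQ p q A B P P' V f) : CQ A B ∧ p.Prime ∧ 5 ≤ p ∧ ¬ p ∣ f ∧ f ≠ 0 ∧
      2 * absD A B ∣ (f : ℤ) ∧ V.valuation (p : ℂ) < 1 := by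
  have key : ∀ {V : ValuationSubring ℂ}, OverI V P → ((p : ℕ) : OO A B) ∈ P →
      V.valuation (p : ℂ) < 1 := by
    intro V hV h1
    have h2 := (hV _).2 h1
    rw [ValuationSubring.mem_nonunits_iff] at h2
    have h3 : emb ((p : ℕ) : OO A B) = (p : ℂ) := by
      unfold emb
      simp
    rwa [h3] at h2
  obtain ⟨-, ⟨hS, -, -⟩ | ⟨hS, -, -⟩⟩ := h
  · refine ⟨hS.cq, hS.pp, hS.p5, hS.fp, hS.f0, hS.fD, key hS.hV ?_⟩
    rw [hS.eP]
    exact Ideal.mem_span_singleton_self _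
  · exact ⟨hS.cq, hS.pp, hS.p5, hS.fp, hS.f0, hS.fD, key hS.hV hS.hP.mem⟩

theorem t_FINQ (hF : S_FN1Q) (hU : S_UNQ) : S_FINQ := by
  intro l g h hgen p q A B P P' V f hS hlf T hpH ι _ R hR hR' K _ _ hk hcop hKf Bn _ hlay hmono hsub
  obtain ⟨hcq, hpp, hp5, hfp, hf0, hfD, hV⟩ := setQ_bas hS
  have hp : Fact p.Prime := ⟨hpp⟩
  have hl : l.Prime := by
    rcases hgen with h1 | h1
    · rw [h1.1]; exact Nat.prime_three
    · rw [h1.1]; exact Nat.prime_two
  have hlF : Fact l.Prime := ⟨hl⟩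
  have hh : h ≠ 0 := by
    rcases hgen with h1 | h1 <;> omega
  have hlf' : l ∣ f := (dvd_pow_self l hh).trans hlf
  have h2f : 2 ∣ f := by
    have h1 : (2 : ℤ) ∣ (f : ℤ) := (Dvd.intro _ rfl).trans hfD
    exact_mod_cast h1
  obtain ⟨a, H, ha1, hacop, hH, n₁, hn₁⟩ := hF p l h f hp5 hfp hf0 h2f hlf' A B hcq T hpH V hV
    (p * f) ι R K hk hcop hKf Bn hlay hmono hsub
  obtain ⟨n₂, hn₂⟩ := hU l g h hgen p q A B P P' V f hS hlf T ι R hR hR' K hk hcop hKf Bn hlay hmono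
    hsub a ha1 hacop H hH
  refine ⟨n₁ + n₂, fun n hn b => ?_⟩
  exact hn₁ n (by omega) b fun s _ => hn₂ (n + s) (by omega)

end Pool.Agent.TWQ


end

section

/-!
# TWQ, module FIQ: every integral `y ∈ F` gives a `D`-pair
-/

set_option autoImplicit false

open WeierstrassCurve Polynomial NumberField IsDedekindDomain

namespace Pool.Agent.TWQ

open _root_.MU3 Pool.Agent.MU3A Pool.Agent.MU3B Pool.Agent.MU3C Pool.Agent.RI Pool.Agent.RID
open Pool.Agent.MUX Pool.Agent.MUXU Pool.Agent.MUXW Pool.Agent.TWT Pool.Agent.TWI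
open Pool.Agent.MU3V (cls Sub GD algDF)
open Pool.Agent.MUXV (GR InK tX)
open Pool.Agent.MUXI (IA RE AR)
open OnePoint

noncomputable section

namespace FIQ

theorem gal_bas {K : Type} [Field K] [Algebra K ℂ] (V : ValuationSubring ℂ)
    (F0 F : IntermediateField K ℂ) (hle : F0 ≤ F) [FiniteDimensional K F] [IsGalois K F] (N : ℕ)
    (hN : 0 < N) (S : Finset (F ≃ₐ[K] F)) (hS : S.card ≤ N)
    (hfix : ∀ σ : F ≃ₐ[K] F, (∀ y : F, (y : ℂ) ∈ F0 → σ y = y) → σ ∈ S)
    (pp : ℂ) (Pi : F) (hv : V.valuation (Pi : ℂ) ^ N = V.valuation pp)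
    (hp : V.valuation pp < 1) (hp0 : pp ≠ 0)
    (hE : ∀ y ∈ F0, y ≠ 0 → ∃ k : ℤ, V.valuation y = V.valuation pp ^ k)
    (y : F) (hy : V.valuation (y : ℂ) ≤ 1) :
    ∃ b : ℕ → F, (∀ j, (b j : ℂ) ∈ F0) ∧ y = ∑ j ∈ Finset.range N, b j * Pi ^ j ∧
      ∀ j < N, V.valuation (b j : ℂ) ≤ 1 := by
  let E : IntermediateField K F := IntermediateField.restrict hle
  have hmem : ∀ x : F, x ∈ E ↔ (x : ℂ) ∈ F0 := fun x => IntermediateField.mem_restrict hle x
  have hfr : Module.finrank E F ≤ N := by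
    rw [← IsGalois.card_fixingSubgroup_eq_finrank E]
    have hinj : Function.Injective (fun σ : E.fixingSubgroup =>
        (⟨σ.1, hfix σ.1 fun z hz => (IntermediateField.mem_fixingSubgroup_iff E σ.1).1 σ.2 z
          ((hmem z).2 hz)⟩ : S)) := by
      intro σ τ h
      exact Subtype.ext (congrArg (fun z : S => z.1) h)
    have h1 := Nat.card_le_card_of_injective _ hinj
    rw [Nat.card_eq_fintype_card (α := S), Fintype.card_coe] at h1
    exact h1.trans hS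
  let φ : F →ₗ[E] ℂ := (IsScalarTower.toAlgHom E F ℂ).toLinearMap
  have hφ : ∀ z : F, φ z = (z : ℂ) := fun z => rfl
  have hφi : Function.Injective φ := fun a b h => Subtype.ext h
  have hfin : Module.Finite E F := inferInstance
  have hW : Module.finrank E (LinearMap.range φ) ≤ N := by
    rw [LinearMap.finrank_range_of_inj hφi]
    exact hfr
  have hWf : Module.Finite E (LinearMap.range φ) := inferInstance
  obtain ⟨b, hb, hb1⟩ := bas (V := V) (N := N) (E := E) (pp := pp) (Pi := (Pi : ℂ)) hN hv hp hp0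
    (fun x hx => hE _ ((hmem x.1).1 x.2) (fun h => hx (Subtype.ext (Subtype.ext h))))
    (LinearMap.range φ) hW (fun j _ => ⟨Pi ^ j, by rw [hφ]; rfl⟩) (y := (y : ℂ)) ⟨y, rfl⟩ hy
  refine ⟨fun j => ((b j : E) : F), fun j => (hmem _).1 (b j).2, ?_, fun j hj => hb1 j hj⟩
  apply Subtype.ext
  rw [hb]
  push_cast
  rfl

theorem xn_per (L : PeriodPair) {z z' : ℂ} (h : z - z' ∈ L.lattice) : xn L z = xn L z' := by
  have h1 := L.weierstrassP_add_coe z' ⟨z - z', h⟩
  have h2 : z' + ((⟨z - z', h⟩ : L.lattice) : ℂ) = z := by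
    show z' + (z - z') = z
    ring
  rw [h2] at h1
  unfold xn
  rw [h1]

/-- the base point -/
theorem base {A B : ℤ} (hQ : CQ A B) {n : ℕ} {ι : Type} (R : Reps A B n ι) (M : ℕ) (hM2 : 2 ≤ M)
    (hcop : ∀ i, (nI (R.b i)).Coprime M) :
    xn (R.L R.i0) (Pool.Agent.MUX.pt R M R.i0 1) ∈
      (RF (idl M) : IntermediateField (kk A B) ℂ) := by
  have hM0 : M ≠ 0 := by omega
  have h1M : (1 : OO A B) ∉ idl (A := A) (B := B) M := by
    intro h
    obtain ⟨t, ht⟩ := Ideal.mem_span_singleton.1 h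
    exact Pool.Agent.MUXI.Hit.not_unit M hM2 t ht
  have hL : IsNL (⊤ : Ideal (OO A B)) (R.L R.i0) (R.om R.i0) := by
    have := R.nl R.i0
    rwa [R.b0] at this
  have hpt1 : Pool.Agent.MUX.pt R M R.i0 1 = R.om R.i0 / M := by
    have hN0 : nI (R.b R.i0) = 1 := by
      rw [R.b0]
      change Nat.card (OO A B ⧸ (⊤ : Ideal (OO A B))) = 1
      have : Subsingleton (OO A B ⧸ (⊤ : Ideal (OO A B))) :=
        Ideal.Quotient.subsingleton_iff.2 rfl
      exact Nat.card_unique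
    obtain ⟨-, -, hint, -, -⟩ := Pool.Agent.MUXF.xf_ALG A B (Pool.Agent.MUXY.cqF hQ)
    have he1 : emb (1 : OO A B) = 1 := by
      have := (hint 1).1
      simpa using this
    unfold Pool.Agent.MUX.pt
    rw [hN0, he1]
    simp
  have hz1 : Pool.Agent.MUX.pt R M R.i0 1 ∉ (R.L R.i0).lattice := fun h =>
    h1M (Pool.Agent.MUXI.Hit.pt_mem hQ Pool.Agent.MUXF.xf_ALG R M hM0 R.i0 (hcop _) 1 h)
  have hTor1 : Tor (idl (A := A) (B := B) M) (R.L R.i0) (Pool.Agent.MUX.pt R M R.i0 1) := by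
    obtain ⟨hmul, -, hint, -, -⟩ := Pool.Agent.MUXF.xf_ALG A B (Pool.Agent.MUXY.cqF hQ)
    have heN : ∀ k : ℕ, emb ((k : ℕ) : OO A B) = (k : ℂ) := fun k => by
      have := (hint (k : ℤ)).1
      rwa [Int.cast_natCast, Int.cast_natCast] at this
    have hmC : (M : ℂ) ≠ 0 := by exact_mod_cast hM0
    intro y hy
    obtain ⟨t, rfl⟩ := Ideal.mem_span_singleton.1 hy
    refine (hL.mem _).2 ⟨t, trivial, ?_⟩
    rw [(hmul _ _).1, heN, hpt1]
    field_simp
  exact IntermediateField.subset_adjoin _ _ ⟨_, _, _, hL, Or.inr ⟨_, hTor1, hz1, rfl⟩⟩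

theorem idl_ne {A B : ℤ} (m : ℕ) (hm : m ≠ 0) : (idl (A := A) (B := B) m) ≠ ⊥ := by
  intro h
  have h4 : ((m : ℕ) : OO A B) = 0 := by
    have : ((m : ℕ) : OO A B) ∈ (idl (A := A) (B := B) m) := Ideal.mem_span_singleton_self _
    rw [h] at this
    exact this
  have h5 := congrArg QuadraticAlgebra.re h4
  simp at h5
  omega

end FIQ

open _root_.Pool.Agent.TWQ.FIQ in
/-- FIQ -/
theorem t_FIQ (hIDQ : S_IDQ) (hVPQ : S_VPQ) (hTEQ : S_TEQ) (hUNRQ : S_UNRQ) (hGFQ : S_GFQ)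
    (hKEYQ : S_KEYQ) : S_FIQ := by
  classical
  intro p q A B P P' V f hS hT ι _ R hG m hm x0 y0 hxy w hw t0 hl T hTr γ hγ y hy
  obtain ⟨⟨hcq, hpp, hp5, hpq, -, -, -, -, -, -, -⟩, -, -, hTcard, -, hLv, -⟩ :=
    hIDQ p q A B P P' V f hS
  obtain ⟨hvp, hvp0, -, -, -, -, hvq, -⟩ := hVPQ p q A B P P' V f hS
  obtain ⟨-, -, -, -, hwr, -, hwv, hwT⟩ := hTEQ p q A B P P' V f hS w hw
  obtain ⟨hle, hfixc, hX0, hGal⟩ := hGFQ p q A B P P' V f hS hT ι R m hm x0 y0 hxy T hTr γ hγ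
  obtain ⟨⟨g, hg⟩, hvg, -⟩ := hKEYQ p q A B P P' V f hS ι R hG m hm x0 y0 hxy w hw t0 hl T hTr
    R.i0 1 isCoprime_one_left
  have hm3 : 3 ≤ m := hxy.m3
  have hM2 : 2 ≤ m * p := by nlinarith
  have hM0 : m * p ≠ 0 := by omega
  have hMb := idl_ne (A := A) (B := B) (m * p) hM0
  haveI := hT.fin _ hMb
  haveI := hT.gal _ hMb
  have hxF := base hcq R (m * p) hM2 hm.cop
  have ht1 : V.valuation t0 < 1 := by
    by_contra h
    push Not at h
    have h2 := one_le_pow_of_one_le' h (q - 1)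
    rw [hl.vt] at h2
    exact absurd hvp (not_lt.2 h2)
  have D : DDat V t0 (q - 1) T w := ⟨ht1, by omega, hTcard T hTr, hvq, fun c _ => (hwv c).1,
    fun c hc => (hwr c (hTr.nz c hc)).1, (hwT T hTr).1⟩
  set X1 : (RF (idl (m * p)) : IntermediateField (kk A B) ℂ) := ⟨_, hxF⟩ with hX1
  set X2 : (RF (idl (m * p)) : IntermediateField (kk A B) ℂ) := ⟨_, hle hX0⟩ with hX2
  have hγX1 : ∀ c ∈ T, ((γ c X1 : (RF (idl (m * p)) : IntermediateField (kk A B) ℂ)) : ℂ) =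
      xn (R.L R.i0) (pt R (m * p) R.i0 (x0 + c * m * y0)) := by
    intro c hc
    obtain ⟨-, s, -, hsv, hh⟩ := hγ c hc
    exact (hsv X1).symm.trans hh.2.1
  have hγPi : ∀ c ∈ T, ((γ c (X1 - X2) : (RF (idl (m * p)) : IntermediateField (kk A B) ℂ)) : ℂ) =
      xn (R.L R.i0) (pt R (m * p) R.i0 (1 * (x0 + c * m * y0))) -
        xn (R.L R.i0) (pt R (m * p) R.i0 (1 * x0)) := by
    intro c hc
    rw [map_sub, hfixc c hc X2 hX0, one_mul, one_mul]
    show ((γ c X1 : (RF (idl (m * p)) : IntermediateField (kk A B) ℂ)) : ℂ) - _ = _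
    rw [hγX1 c hc]
  have hvPi : V.valuation ((X1 - X2 : (RF (idl (m * p)) : IntermediateField (kk A B) ℂ)) : ℂ) =
      V.valuation t0 := by
    obtain ⟨c, hc, hcm⟩ := (hLv m x0 y0 hxy).2.1 T hTr 1 isCoprime_one_left
      (by rw [sub_self]; exact zero_mem _)
    have h1 := ((j_PTP A B hcq _ ι R (m * p) hM0 R.i0).1 _ _ hcm).1
    have h2 := xn_per _ h1
    rw [← hvg c hc, one_mul, one_mul, ← h2]
    rfl
  obtain ⟨b, hb0, hyb, hb1⟩ := gal_bas V (RF ((idl m : Ideal (OO A B)) * P'))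
    (RF (idl (m * p))) hle (q - 1) (by omega) (T.image γ)
    (Finset.card_image_le.trans (hTcard T hTr).le)
    (fun σ hσ => by
      obtain ⟨c, hc, rfl⟩ := hGal σ hσ
      exact Finset.mem_image_of_mem _ hc)
    (p : ℂ) (X1 - X2) (by rw [hvPi]; exact hl.vt) hvp
    (fun h => hvp0 (by rw [h, map_zero]))
    (fun z hz hz0 => hUNRQ p q A B P P' V f hS hT ι R hG m hm.m0 hm.pm z hz hz0) y hy
  refine ⟨_, (DPr.poly D hg (q - 1) (b := fun j => (b j : ℂ)) hb1).congr_eq (fun c hc => ?_)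
    fun c _ => rfl⟩
  have h3 : γ c y = ∑ j ∈ Finset.range (q - 1), b j * (γ c (X1 - X2)) ^ j := by
    conv_lhs => rw [hyb]
    rw [map_sum]
    refine Finset.sum_congr rfl fun j _ => ?_
    rw [map_mul, map_pow, hfixc c hc (b j) (hb0 j)]
  rw [h3]
  push_cast
  refine Finset.sum_congr rfl fun j _ => ?_
  rw [← hγPi c hc]

end

end Pool.Agent.TWQ


end

section

/-!
# TWQ, module KEYQ (helper70): `x` and `Θ` at the points `pt R M i (x a_c)` are `D`-pairs
-/

set_option autoImplicit false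

open WeierstrassCurve Polynomial NumberField IsDedekindDomain

namespace Pool.Agent.TWQ

open _root_.MU3 Pool.Agent.MU3A Pool.Agent.MU3B Pool.Agent.MU3C Pool.Agent.RI Pool.Agent.RID
open Pool.Agent.MUX Pool.Agent.MUXU Pool.Agent.MUXW Pool.Agent.TWT Pool.Agent.TWI
open Pool.Agent.MU3V (cls Sub GD algDF)
open Pool.Agent.MUXV (GR InK tX)
open Pool.Agent.MUXI (IA RE AR)
open OnePoint

noncomputable section

namespace KEYQ

/-- a `D`-pair only depends on the value of `t0` -/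
theorem dpr_val {V : ValuationSubring ℂ} {t0 t1 : ℂ} {N : ℕ} {J : Type} {T : Finset J}
    {w u g : J → ℂ} (h : V.valuation t1 = V.valuation t0) (h1 : DPr V t1 N J T w u g) :
    DPr V t0 N J T w u g := by
  unfold DPr at h1 ⊢
  rw [h] at h1
  exact h1

theorem inK_of {V : ValuationSubring ℂ} {L : PeriodPair} {z : ℂ} (h : ¬ InEn V L z) :
    ¬ InK V L (xn L) z := h

end KEYQ

open _root_.Pool.Agent.TWQ.KEYQ in
theorem t_KEYQ (hIDQ : S_IDQ) (hVPQ : S_VPQ) (hTEQ : S_TEQ) : S_KEYQ := by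
  intro p q A B P P' V f hS ι R hR m hm x0 y0 hl w hw t0 hloc T hT i x hx
  obtain ⟨⟨-, hp, hp5, hpq, hPP, -, -, -, -, hPp, -⟩, hint, -⟩ := hIDQ p q A B P P' V f hS
  obtain ⟨hvp, -, -, hvn, -, -, -, hV⟩ := hVPQ p q A B P P' V f hS
  obtain ⟨-, hvmu, -, hVi⟩ := hV ι R hR i
  obtain ⟨hpt, hz, h2z, haz⟩ := hVi m hm x0 y0 hl x hx
  obtain ⟨-, hwm, -, -, hwr, -, hwv, -⟩ := hTEQ p q A B P P' V f hS w hw
  obtain ⟨a2, a4, lam, hG, hlam, hL⟩ := hloc.loc i
  -- `x ∉ P`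
  have hpP : ((p : ℕ) : OO A B) ∈ P := by
    have h := (hint (p : ℤ)).2 (dvd_refl _)
    simpa using h
  have hxP : x ∉ P := by
    intro h
    obtain ⟨u, v, huv⟩ := hx
    apply hPP.ne_top
    rw [Ideal.eq_top_iff_one, ← huv]
    refine P.add_mem (P.mul_mem_left _ h) (P.mul_mem_left _ ?_)
    push_cast
    exact P.mul_mem_left _ hpP
  have hq1 : q - 1 + 1 = q := by omega
  -- values
  have hvt : V.valuation t0 < 1 := by
    by_contra h
    rw [not_lt] at h
    have h1 : 1 ≤ V.valuation t0 ^ (q - 1) := one_le_pow_of_one_le' h _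
    rw [hloc.vt] at h1
    exact absurd hvp (not_lt.2 h1)
  have hvw : V.valuation (muX R i * w x * t0) = V.valuation t0 := by
    rw [map_mul, map_mul, hvmu, (hwr x hxP).2, one_mul, one_mul]
  have hlam' : HasTyI V (R.L i) (q - 1 + 1) a2 a4 lam := by
    rw [hq1]
    exact hlam
  have hζ : ∀ c ∈ T, V.valuation (w c) ≤ 1 := fun c _ => (hwv c).1
  have hS' : ∀ c ∈ T, InK V (R.L i) (xn (R.L i)) (pt R p i (x * c * y0)) ∧
      pt R p i (x * c * y0) ∉ (R.L i).lattice ∧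
      V.valuation (tX (xn (R.L i)) (yy (R.L i)) (pt R p i (x * c * y0))) =
        V.valuation (muX R i * w x * t0) ∧
      V.valuation (vpi lam (q - 1 + 1) (tX (xn (R.L i)) (yy (R.L i)) (pt R p i (x * c * y0))) -
        w c * (muX R i * w x * t0)) ≤ V.valuation (muX R i * w x * t0) ^ (q - 1) := by
    intro c hc
    have hxc : x * c ∉ P := fun h => (hPP.mem_or_mem h).elim hxP (hT.nz c hc)
    obtain ⟨h1, h2, h3, h4⟩ := hL (x * c) hxc
    refine ⟨h1, h2, h3.trans hvw.symm, ?_⟩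
    rw [hq1, hvw]
    have e : w c * (muX R i * w x * t0) = muX R i * w (x * c) * t0 := by
      rw [hwm]
      ring
    rw [e]
    exact h4.trans (pow_le_pow_right_of_le_one' hvt.le (Nat.sub_le q 1))
  have hw0 : V.valuation (muX R i * w x * t0) < 1 := hvw.trans_lt hvt
  obtain ⟨W, ξ, G, -, -⟩ := id hG
  refine ⟨?_, fun c hc => ?_, fun a H ha hac hH => ?_⟩
  · have h1 := exq_x hlam' hζ hw0 hS' (inK_of hz)
    have h2 : V.valuation (-(xn (R.L i) (pt R (m * p) i (x * x0)))) ≤ 1 := by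
      rw [Valuation.map_neg]
      exact (Pool.Agent.MUXV.int_X (inK_of hz)).2
    have h3 := (dpr_val hvw h1).add (DPr.const h2)
    refine ⟨_, h3.congr_eq (fun c _ => ?_) fun c _ => rfl⟩
    rw [hpt c, sub_eq_add_neg]
  · obtain ⟨h1, h2, h3, -⟩ := hS' c hc
    rw [hpt c, ← hvw, ← h3]
    exact (Pool.Agent.MUXV.q_YUN V W (R.L i) _ _ ξ G _ (inK_of hz) (inK_of h2z)).2 _ h1 h2
  · have hpa : ¬ (p : ℤ) ∣ (a : ℤ) := by
      intro h
      have h1 : p ∣ a := Int.natCast_dvd_natCast.1 h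
      have h2 : p ∣ Nat.gcd a (2 * m * p) := Nat.dvd_gcd h1 (Dvd.intro_left _ rfl)
      rw [hac] at h2
      exact hp.one_lt.ne' (Nat.dvd_one.1 h2)
    have hva : V.valuation (a : ℂ) = 1 := by
      have h := hvn (a : ℤ) hpa
      simpa using h
    obtain ⟨h1, h2⟩ := exq_theta hG hlam' hζ hw0 hS' ha hva hH (inK_of hz)
      (inK_of (haz a ha hac))
    refine ⟨fun c hc => ?_, ?_⟩
    · rw [hpt c]
      exact h1 c hc
    · refine (dpr_val hvw h2).congr_eq (fun c _ => ?_) fun c _ => ?_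
      · rw [hpt c]
      · rw [hpt c]

end

end Pool.Agent.TWQ


end

section

/-!
# TWQ, RSQ: from the functionals on the residue field to the Teichmüller lifts (helper23)
-/

set_option autoImplicit false

open Pool.Agent.TWT

namespace Pool.Agent.TWQ

namespace RSQ

/-- a root of unity has valuation `1` -/
theorem val_one (V : ValuationSubring ℂ) {x : ℂ} {s : ℕ} (hs : s ≠ 0) (h : x ^ s = 1) :
    V.valuation x = 1 := by
  have h1 : V.valuation x ^ s = 1 := by rw [← map_pow, h, map_one]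
  exact (pow_eq_one_iff_of_nonneg zero_le hs).1 h1

/-- elements of the ring generated by the `c σ` are fixed by `x ↦ x ^ (p ^ h)` modulo `p` -/
theorem pow_mod (p : ℕ) (hp : p.Prime) (S : Type) (c : S → ℂ) (h : ℕ)
    (hc : ∀ σ, c σ ^ (p ^ h) = c σ) (x : ℂ) (hx : x ∈ Subring.closure (Set.range c)) :
    ∃ r ∈ Subring.closure (Set.range c), x ^ (p ^ h) = x + (p : ℂ) * r := by
  have hadd : ∀ x y : ℂ, x ∈ Subring.closure (Set.range c) → y ∈ Subring.closure (Set.range c) →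
      ∃ r ∈ Subring.closure (Set.range c),
        (x + y) ^ (p ^ h) = x ^ (p ^ h) + y ^ (p ^ h) + (p : ℂ) * r := by
    intro x y hx hy
    obtain ⟨r, hr⟩ := exists_add_pow_prime_pow_eq hp
      (⟨x, hx⟩ : Subring.closure (Set.range c)) ⟨y, hy⟩ h
    refine ⟨x * y * r, Subring.mul_mem _ (Subring.mul_mem _ hx hy) r.2, ?_⟩
    have h1 := congrArg (Subtype.val : Subring.closure (Set.range c) → ℂ) hr
    push_cast at h1
    rw [h1]
    ring
  have hq : p ^ h ≠ 0 := pow_ne_zero _ hp.ne_zero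
  induction hx using Subring.closure_induction with
  | mem x hx =>
    obtain ⟨σ, rfl⟩ := hx
    exact ⟨0, Subring.zero_mem _, by rw [hc σ, mul_zero, add_zero]⟩
  | zero => exact ⟨0, Subring.zero_mem _, by rw [zero_pow hq, mul_zero, add_zero]⟩
  | one => exact ⟨0, Subring.zero_mem _, by rw [one_pow, mul_zero, add_zero]⟩
  | add x y hx hy ihx ihy =>
    obtain ⟨r, hr, h1⟩ := ihx
    obtain ⟨r', hr', h2⟩ := ihy
    obtain ⟨u, hu, h3⟩ := hadd x y hx hy
    refine ⟨r + r' + u, Subring.add_mem _ (Subring.add_mem _ hr hr') hu, ?_⟩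
    rw [h3, h1, h2]
    ring
  | neg x hx ihx =>
    obtain ⟨r, hr, h1⟩ := ihx
    obtain ⟨u, hu, h3⟩ := hadd x (-x) hx (Subring.neg_mem _ hx)
    refine ⟨-(r + u), Subring.neg_mem _ (Subring.add_mem _ hr hu), ?_⟩
    rw [add_neg_cancel, zero_pow hq, h1] at h3
    linear_combination -h3
  | mul x y hx hy ihx ihy =>
    obtain ⟨r, hr, h1⟩ := ihx
    obtain ⟨r', hr', h2⟩ := ihy
    refine ⟨x * r' + y * r + (p : ℂ) * (r * r'), ?_, ?_⟩
    · exact Subring.add_mem _ (Subring.add_mem _ (Subring.mul_mem _ hx hr')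
        (Subring.mul_mem _ hy hr)) (Subring.mul_mem _ (natCast_mem _ p)
        (Subring.mul_mem _ hr hr'))
    · rw [mul_pow, h1, h2]
      ring

/-- (KEY) an element of the ring generated by the `c σ` with valuation `< 1` has valuation
`≤ v(p)` -/
theorem key (V : ValuationSubring ℂ) (p : ℕ) (hp : p.Prime) (S : Type) (c : S → ℂ) (h : ℕ)
    (hh : h ≠ 0) (hc : ∀ σ, c σ ^ (p ^ h) = c σ) (hV : ∀ σ, c σ ∈ V) (x : ℂ)
    (hx : x ∈ Subring.closure (Set.range c)) (hv : V.valuation x < 1) :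
    V.valuation x ≤ V.valuation (p : ℂ) := by
  have hle : Subring.closure (Set.range c) ≤ V.toSubring := by
    rw [Subring.closure_le]
    rintro _ ⟨σ, rfl⟩
    exact hV σ
  by_contra hcon
  rw [not_le] at hcon
  obtain ⟨r, hr, h1⟩ := pow_mod p hp S c h hc x hx
  have hr1 : V.valuation r ≤ 1 := (V.valuation_le_one_iff r).2 (hle hr)
  have h2 : V.valuation ((p : ℂ) * r) < V.valuation x := by
    rw [map_mul]
    exact lt_of_le_of_lt (mul_le_of_le_one_right' hr1) hcon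
  have h3 : V.valuation x ^ (p ^ h) = V.valuation x := by
    rw [← map_pow, h1]
    exact Valuation.map_add_eq_of_lt_left _ h2
  have h0 : V.valuation x ≠ 0 := (lt_of_le_of_lt zero_le hcon).ne'
  have hq : 2 ≤ p ^ h := le_trans hp.two_le (Nat.le_self_pow hh p)
  obtain ⟨k, hk⟩ : ∃ k, p ^ h = k + 1 + 1 := ⟨p ^ h - 2, by omega⟩
  rw [hk, pow_succ] at h3
  have h4 : V.valuation x ^ (k + 1) = 1 := by
    have h5 : V.valuation x ^ (k + 1) * V.valuation x = 1 * V.valuation x := by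
      rw [h3, one_mul]
    exact mul_right_cancel₀ h0 h5
  have h5 := (pow_eq_one_iff_of_nonneg zero_le (Nat.succ_ne_zero k)).1 h4
  exact hv.ne h5

/-- the residue field has characteristic `p` -/
theorem charP_res (V : ValuationSubring ℂ) (p : ℕ) (hp : p.Prime)
    (hv : V.valuation (p : ℂ) < 1) : CharP (IsLocalRing.ResidueField V) p := by
  have h0 : ((p : ℕ) : IsLocalRing.ResidueField V) = 0 := by
    have h1 : ((p : ℕ) : IsLocalRing.ResidueField V) = IsLocalRing.residue V ((p : ℕ) : V) := by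
      rw [map_natCast]
    rw [h1, IsLocalRing.residue_eq_zero_iff, V.valuation_lt_one_iff]
    exact_mod_cast hv
  obtain ⟨q, hq⟩ := CharP.exists (IsLocalRing.ResidueField V)
  have h2 := (CharP.cast_eq_zero_iff (IsLocalRing.ResidueField V) q p).1 h0
  rcases (Nat.dvd_prime hp).1 h2 with h3 | h3
  · exact absurd h3 (CharP.char_ne_one (IsLocalRing.ResidueField V) q)
  · rw [← h3]
    exact hq

/-- a finite family of a module over a field: coordinates with respect to members of the family,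
extended to the whole space -/
theorem coords (k M : Type) [Field k] [AddCommGroup M] [Module k M] (S : Type) [Fintype S]
    (a : S → M) : ∃ (J : Type) (_ : Fintype J) (τ : J → S) (t : J → M →ₗ[k] k),
      ∀ σ, a σ = ∑ j, t j (a σ) • a (τ j) := by
  classical
  obtain ⟨b, hb, hspan, hli⟩ := exists_linearIndependent k (Set.range a)
  have hfin : b.Finite := (Set.finite_range a).subset hb
  have hft : Fintype b := hfin.fintype
  choose τ hτ using fun j : b => hb j.2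
  obtain ⟨g, hg⟩ := LinearMap.exists_extend (hli.repr : _ →ₗ[k] (b →₀ k))
  refine ⟨b, hft, τ, fun j => (Finsupp.lapply j).comp g, fun σ => ?_⟩
  have hmem : a σ ∈ Submodule.span k (Set.range (Subtype.val : b → M)) := by
    rw [Subtype.range_coe, hspan]
    exact Submodule.subset_span ⟨σ, rfl⟩
  have h1 : g (a σ) = hli.repr ⟨a σ, hmem⟩ := by
    rw [← hg]
    rfl
  have h2 := hli.linearCombination_repr ⟨a σ, hmem⟩
  have h3 := Finsupp.sum_fintype (hli.repr ⟨a σ, hmem⟩) (fun (i : b) (c : k) => c • (i : M))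
    (fun i => zero_smul k (i : M))
  rw [Finsupp.linearCombination_apply] at h2
  rw [h3] at h2
  simp only [LinearMap.comp_apply, Finsupp.lapply_apply, h1, hτ]
  exact h2.symm

theorem rsd_mem (V : ValuationSubring ℂ) {x : ℂ} (hx : x ∈ V) :
    rsd V x = IsLocalRing.residue V ⟨x, hx⟩ := by
  unfold rsd
  rw [dif_pos hx]

end RSQ

open _root_.Pool.Agent.TWQ.RSQ in
theorem t_RSQ : S_RSQ := by
  intro V p hpf hv1 hv0 S _ c b s hps hcs hb r hr ht
  classical
  have hp : p.Prime := hpf.out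
  have hs : s ≠ 0 := by
    rintro rfl
    exact hps (dvd_zero p)
  have hv : ∀ σ, V.valuation (c σ) = 1 := fun σ => val_one V hs (hcs σ)
  have hV : ∀ σ, c σ ∈ V := fun σ => (V.valuation_le_one_iff _).1 (hv σ).le
  -- the exponent
  have hcop : p.Coprime s := (Nat.Prime.coprime_iff_not_dvd hp).2 hps
  have hh : s.totient ≠ 0 := (Nat.totient_pos.2 (Nat.pos_of_ne_zero hs)).ne'
  have hmod : p ^ s.totient ≡ 1 [MOD s] := Nat.ModEq.pow_totient hcop
  have hcq : ∀ σ, c σ ^ (p ^ s.totient) = c σ := by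
    intro σ
    have h1 : 1 ≤ p ^ s.totient := Nat.one_le_pow _ _ hp.pos
    obtain ⟨k, hk⟩ := (Nat.modEq_iff_dvd' h1).1 hmod.symm
    have h2 : p ^ s.totient = s * k + 1 := by omega
    rw [h2, pow_succ, pow_mul, hcs σ, one_pow, one_mul]
  have : CharP (IsLocalRing.ResidueField V) p := charP_res V p hp hv1
  let _ : Algebra (ZMod p) (IsLocalRing.ResidueField V) :=
    ZMod.algebra (IsLocalRing.ResidueField V) p
  have hsm : ∀ (a : ZMod p) (x : IsLocalRing.ResidueField V),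
      a • x = ((a.val : ℕ) : IsLocalRing.ResidueField V) * x := by
    intro a x
    conv_lhs => rw [← ZMod.natCast_zmod_val a]
    rw [Algebra.smul_def, map_natCast]
  obtain ⟨J, _, τ, t, hJ⟩ := coords (ZMod p) (IsLocalRing.ResidueField V) S
    (fun σ => rsd V (c σ))
  have hsum : ∑ σ, c σ * b σ =
      (∑ σ, (c σ - ∑ j, (((t j (rsd V (c σ))).val : ℕ) : ℂ) * c (τ j)) * b σ) +
        ∑ j, c (τ j) * ∑ σ, (((t j (rsd V (c σ))).val : ℕ) : ℂ) * b σ := by
    simp only [sub_mul, Finset.sum_sub_distrib, Finset.sum_mul, Finset.mul_sum]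
    rw [Finset.sum_comm (s := (Finset.univ : Finset J))]
    have h1 : ∀ σ, ∀ j, c (τ j) * ((((t j (rsd V (c σ))).val : ℕ) : ℂ) * b σ) =
        (((t j (rsd V (c σ))).val : ℕ) : ℂ) * c (τ j) * b σ := fun σ j => by ring
    simp only [h1]
    ring
  rw [hsum]
  refine (Valuation.map_add_le _ ?_ ?_)
  · refine Valuation.map_sum_le _ fun σ _ => ?_
    have hmem : c σ - ∑ j, (((t j (rsd V (c σ))).val : ℕ) : ℂ) * c (τ j) ∈
        Subring.closure (Set.range c) := by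
      refine Subring.sub_mem _ (Subring.subset_closure ⟨σ, rfl⟩)
        (Subring.sum_mem _ fun j _ => Subring.mul_mem _ (natCast_mem _ _)
          (Subring.subset_closure ⟨τ j, rfl⟩))
    have hlt : V.valuation (c σ - ∑ j, (((t j (rsd V (c σ))).val : ℕ) : ℂ) * c (τ j)) < 1 := by
      have h1 : IsLocalRing.residue V ((⟨c σ, hV σ⟩ : V) -
          ∑ j, (((t j (rsd V (c σ))).val : ℕ) : V) * (⟨c (τ j), hV (τ j)⟩ : V)) = 0 := by
        rw [map_sub, map_sum]
        simp only [map_mul, map_natCast]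
        have h2 := hJ σ
        simp only [hsm] at h2
        rw [← rsd_mem V (hV σ)]
        simp only [← rsd_mem V (hV _)]
        rw [sub_eq_zero]
        exact h2
      rw [IsLocalRing.residue_eq_zero_iff, V.valuation_lt_one_iff] at h1
      have h3 : (((⟨c σ, hV σ⟩ : V) -
          ∑ j, (((t j (rsd V (c σ))).val : ℕ) : V) * (⟨c (τ j), hV (τ j)⟩ : V) : V) : ℂ) =
          c σ - ∑ j, (((t j (rsd V (c σ))).val : ℕ) : ℂ) * c (τ j) := by
        push_cast
        rfl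
      rw [h3] at h1
      exact h1
    rw [map_mul]
    exact le_trans (mul_le_of_le_one_right' (hb σ))
      (le_trans (key V p hp S c s.totient hh hcq hV _ hmem hlt) hr)
  · refine Valuation.map_sum_le _ fun j _ => ?_
    rw [map_mul, hv (τ j), one_mul]
    exact ht (t j).toAddMonoidHom

end Pool.Agent.TWQ


end

section

/-!
# TWQ_SDQ: from the logarithmic derivatives to `ee`
-/

set_option autoImplicit false

open WeierstrassCurve Polynomial NumberField IsDedekindDomain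

namespace Pool.Agent.TWQ

open _root_.MU3 Pool.Agent.MU3A Pool.Agent.MU3B Pool.Agent.MU3C Pool.Agent.RI Pool.Agent.RID
open Pool.Agent.MUX Pool.Agent.MUXU Pool.Agent.MUXW Pool.Agent.TWT Pool.Agent.TWI
open Pool.Agent.MU3V (cls Sub GD algDF)
open Pool.Agent.MUXV (GR InK tX)
open Pool.Agent.MUXI (IA RE AR)
open OnePoint

noncomputable section

open Pool.Agent.TWT.SDE in
theorem t_SDQ (h1 : S_IDQ) (h3 : S_TEQ) (h4 : S_THQ) : S_SDQ := by
  intro p q A B P P' V f hS ι _ R w hw kp eta e b hC l N hl hpl hlf ψ a ha1 hac hunit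
  obtain ⟨⟨hcq, hpp, hp5, -, -, -, hf0, -, -, -, -⟩, id2, -⟩ := h1 p q A B P P' V f hS
  obtain ⟨-, wmul, wper, wzero, wroot, -, wred, -⟩ := h3 p q A B P P' V f hS w hw
  obtain ⟨thper, -, -, thfin, -, thmul⟩ :=
    h4 p q A B P P' V f hS ι R w hw kp eta e b hC l N hl hlf ψ
  set M : ℕ := f * l ^ N * p with hM
  have hM0 : M ≠ 0 := mul_ne_zero (mul_ne_zero hf0 (pow_ne_zero _ hl.ne_zero)) hpp.ne_zero
  -- coprimality
  have haf : a.Coprime f := Nat.Coprime.coprime_dvd_right ⟨6 * p, by ring⟩ hac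
  have hap : a.Coprime p := Nat.Coprime.coprime_dvd_right ⟨6 * f, by ring⟩ hac
  have hal : a.Coprime l := Nat.Coprime.coprime_dvd_right hlf haf
  have haM : a.Coprime M := by
    rw [hM]
    exact Nat.Coprime.mul_right (Nat.Coprime.mul_right haf (Nat.Coprime.pow_right _ hal)) hap
  have hcO : ∀ b : ℕ, a.Coprime b → IsCoprime ((a : ℕ) : OO A B) ((b : ℕ) : OO A B) := by
    intro b hb
    have h5 := (Nat.isCoprime_iff_coprime.2 hb).map (Int.castRingHom (OO A B))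
    simpa using h5
  have haP : ((a : ℕ) : OO A B) ∉ P := by
    intro h
    have h3 := (id2 (a : ℤ)).1 (by simpa using h)
    have h4 : p ∣ a := by exact_mod_cast h3
    have h5 : p ∣ 1 := by
      rw [← hap.gcd_eq_one]
      exact Nat.dvd_gcd h4 dvd_rfl
    exact hpp.one_lt.ne' (Nat.dvd_one.1 h5)
  have hwa : w (a : OO A B) ≠ 0 := fun h => haP ((wzero _).1 h)
  have hpP : ((p : ℕ) : OO A B) ∈ P := by
    have h := (id2 (p : ℤ)).2 dvd_rfl
    simpa using h
  have hpM : ((M : ℕ) : OO A B) ∈ P := by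
    rw [hM, Nat.cast_mul]
    exact P.mul_mem_left _ hpP
  have hMP : ∀ x : OO A B, x ∈ idl (A := A) (B := B) M → x ∈ P := by
    intro x hx
    obtain ⟨t, rfl⟩ := Ideal.mem_span_singleton.1 hx
    exact P.mul_mem_right _ hpM
  set c0 : ℂ := thQ R kp eta ψ w e b R.i0 (a : OO A B) with hc0
  -- `c0` has valuation one
  have hv0 : V.valuation c0 = 1 := by
    obtain ⟨s, hs, hsr⟩ := thfin hpl
    have hs0 : s ≠ 0 := fun h => hs (h ▸ dvd_zero p)
    exact val_root V hs0 (hsr R.i0 (a : OO A B) (hcO M haM))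
  have hc00 : c0 ≠ 0 := by
    intro h
    rw [h, map_zero] at hv0
    exact zero_ne_one hv0
  -- valuation of `w a`
  have hvw : V.valuation (w (a : OO A B)) = 1 := (wroot _ haP).2
  have hint : V.valuation ((a : ℂ) - w (a : OO A B)) < 1 := by
    have h3 := (wred (a : OO A B)).2
    rw [Valuation.map_sub_swap]
    simpa [emb] using h3
  have hq : V.valuation ((a : ℂ) / w (a : OO A B) - 1) < 1 := by
    rw [show (a : ℂ) / w (a : OO A B) - 1 = ((a : ℂ) - w (a : OO A B)) / w (a : OO A B) by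
      field_simp, map_div₀, hvw, div_one]
    exact hint
  -- the sums
  have hfin := finR (A := A) (B := B) M hM0
  have key : ∀ i : ι, sumMod ((M : ℕ) : OO A B) (fun x =>
      thQ R kp eta ψ w e b i x * w x * dlX (R.L i) a (pt R M i x)) =
      ((a : ℂ) * (c0 * w (a : OO A B))⁻¹ - (a : ℂ) ^ 2) * sumMod ((M : ℕ) : OO A B) (fun x =>
      thQ R kp eta ψ w e b i x * w x * ee (R.L i) (pt R M i x)) := by
    intro i
    obtain ⟨ptp1, ptp2⟩ := Pool.Agent.MUXI.ti_PTP A B hcq (p * f) ι R M hM0 i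
    set G : OO A B → ℂ := fun x =>
      thQ R kp eta ψ w e b i x * w x * ee (R.L i) (pt R M i x) with hG
    have hGp : ∀ x y, x - y ∈ Ideal.span {((M : ℕ) : OO A B)} → G x = G y := by
      intro x y hxy
      simp only [hG]
      rw [thper i x y hxy, wper x y (hMP _ hxy), (ptp1 x y hxy).2.1]
    have e1 := sumMod_mul (hcO M haM) hGp
    have e2 : sumMod ((M : ℕ) : OO A B) (fun x =>
        thQ R kp eta ψ w e b i x * w x * dlX (R.L i) a (pt R M i x)) =
        (a : ℂ) * (c0 * w (a : OO A B))⁻¹ *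
          sumMod ((M : ℕ) : OO A B) (fun x => G (((a : ℕ) : OO A B) * x)) -
        (a : ℂ) ^ 2 * sumMod ((M : ℕ) : OO A B) G := by
      rw [← sumMod_cmul, ← sumMod_cmul, ← sumMod_sub hfin]
      congr 1
      funext x
      simp only [hG]
      rw [thmul i x (a : OO A B), ← hc0, wmul, ← ptp2]
      unfold dlX
      field_simp
    rw [e2, e1]
    ring
  have hSDT : SDTI R M a (thQ R kp eta ψ w e b) w =
      ((a : ℂ) * (c0 * w (a : OO A B))⁻¹ - (a : ℂ) ^ 2) *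
        SSTI R M (thQ R kp eta ψ w e b) w := by
    unfold SDTI SSTI
    rw [Finset.mul_sum]
    refine Finset.sum_congr rfl fun i _ => ?_
    rw [key i]
    ring
  have hfac : (a : ℂ) * (c0 * w (a : OO A B))⁻¹ - (a : ℂ) ^ 2 =
      c0⁻¹ * (((a : ℂ) / w (a : OO A B) - 1) + (1 - (a : ℂ) ^ 2 * c0)) := by
    field_simp
    ring
  have hvf : V.valuation ((a : ℂ) * (c0 * w (a : OO A B))⁻¹ - (a : ℂ) ^ 2) = 1 := by
    rw [hfac, map_mul, map_inv₀, hv0, inv_one, one_mul, Valuation.map_add_eq_of_lt_right]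
    · exact hunit
    · rw [hunit]
      exact hq
  rw [hSDT, map_mul, hvf, one_mul]

end

end Pool.Agent.TWQ


end

section

/-!
# TWQ, block B', module UNRQ: `RF (idl m * P') / k` is unramified at `V` for `p ∤ m`

Split case: text of `Pool/Agent/TWT/UNRG.lean` (helper22) for the level `sp α`, `α ∉ P`.
-/

set_option autoImplicit false

open WeierstrassCurve Polynomial NumberField IsDedekindDomain

namespace Pool.Agent.TWQ

open _root_.MU3 Pool.Agent.MU3A Pool.Agent.MU3B Pool.Agent.MU3C Pool.Agent.RI Pool.Agent.RID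
open Pool.Agent.MUX Pool.Agent.MUXU Pool.Agent.MUXW Pool.Agent.TWT Pool.Agent.TWI
open Pool.Agent.MU3V (cls Sub GD algDF)
open Pool.Agent.MUXV (GR InK tX)

noncomputable section

namespace UNRQ

/-- the field of level `sp α`, `α ∉ P`, is unramified at `V` -/
theorem unr (hKI : S_KINS) (p : ℕ) (A B : ℤ) (P : Ideal (OO A B)) (V : ValuationSubring ℂ)
    (f : ℕ) (hS : SetG p A B P V f) (T : TorX A B) (ι : Type) [Finite ι]
    (R : Reps A B (p * f) ι) (hR : GRd V R) (α : OO A B) (hα : α ∉ P) :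
    ∀ y ∈ (RF (sp α) : IntermediateField (kk A B) ℂ), y ≠ 0 →
      ∃ k : ℤ, V.valuation y = V.valuation (p : ℂ) ^ k := by
  have he : Pool.Agent.MUXV.Sq_EMB := Pool.Agent.MUXV.tq_EMB
  have hC := hS.cq
  have hm0 : α ≠ 0 := fun h => hα (h ▸ P.zero_mem)
  have hmn : (sp α : Ideal (OO A B)) ≠ ⊥ := by
    change Ideal.span {α} ≠ ⊥
    rwa [Ne, Ideal.span_singleton_eq_bot]
  have := T.fin (sp α) hmn
  have := T.gal (sp α) hmn
  refine fun y hy hy0 => t_RAMG t_VPG p A B P V f hS (RF (sp α)) ?_ y hy hy0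
  intro σ hσ
  obtain ⟨-, -, -, -, -, -, hgr⟩ := t_VPG p A B P V f hS
  have hgr' := hgr ι R hR
  have hL : IsNL (⊤ : Ideal (OO A B)) (R.L R.i0) (R.om R.i0) := by
    have := R.nl R.i0
    rwa [R.b0] at this
  -- the extension to `ℂ`
  let D : IntermediateField ℚ ℂ :=
    (RF (sp α) : IntermediateField (kk A B) ℂ).restrictScalars ℚ
  have hle : kk A B ≤ D := fun x hx =>
    (RF (sp α) : IntermediateField (kk A B) ℂ).algebraMap_mem ⟨x, hx⟩
  have hDy : ∀ y ∈ D, y ∈ (RF (sp α) : IntermediateField (kk A B) ℂ) := fun y hy => hy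
  obtain ⟨s, hs, hs2⟩ : ∃ s : ℂ ≃+* ℂ, FixK A B s ∧
      ∀ y : (RF (sp α) : IntermediateField (kk A B) ℂ),
        ((σ y : (RF (sp α) : IntermediateField (kk A B) ℂ)) : ℂ) = s y := by
    letI := algC hle
    let τ : D ≃ₐ[kk A B] D := AlgEquiv.ofRingEquiv (f := (σ.toRingEquiv : D ≃+* D))
      (fun r => σ.commutes r)
    obtain ⟨s, hs, hs1⟩ := T.ext (sp α) hmn D hle hDy τ
    exact ⟨s, hs, fun y => (hs1 y).symm⟩
  obtain ⟨a, ha, ha'⟩ := T.act (sp α) hmn s hs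
  have hki : ∀ i, s (kap (R.L i)) = kap (R.L i) := by
    intro i
    obtain ⟨b', L', om', mu, hL', hA⟩ := ha' _ _ _ (R.nl i)
    obtain ⟨j, hj, -, -⟩ := HIT.repr he hC R hL'
    have h1 : kap (R.L i) ∈ (RF (sp α) : IntermediateField (kk A B) ℂ) :=
      IntermediateField.subset_adjoin _ _ ⟨_, _, _, R.nl i, Or.inl rfl⟩
    have h2 := hσ ⟨kap (R.L i), h1⟩ (hR.kap i).le
    have h3 : s (kap (R.L i)) = kap (R.L j) := by rw [← hj, hA.kap]
    rw [hs2] at h2
    change V.valuation (s (kap (R.L i)) - kap (R.L i)) < 1 at h2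
    rw [h3] at h2
    have h4 := hR.inj j i h2
    rw [h3, h4]
  have hkL : ∀ (b : Ideal (OO A B)) (L : PeriodPair) (om : ℂ), IsNL b L om →
      s (kap L) = kap L := by
    intro b L om hL
    obtain ⟨j, hj, -, -⟩ := HIT.repr he hC R hL
    rw [hj]
    exact hki j
  have htop := Pool.Agent.TWT.UNRG.fixTop he hC hs hkL
  have hTr : TrH σ := by
    intro x hx
    apply Subtype.ext
    rw [hs2]
    exact htop _ hx
  obtain ⟨c, hc⟩ := (ty_KER he A B hC T α hm0).1 σ hTr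
  have hK : ∀ z, emb α * z ∈ (R.L R.i0).lattice →
      InK V (R.L R.i0) (fun z => (R.L R.i0).weierstrassP z - 1 / 12) z →
      z ∈ (R.L R.i0).lattice := by
    intro z hz hz'
    exact hKI p A B P V f hS ι R hR R.i0 α hα z hz hz'
  have hinv := ty_INV he A B hC (R.L R.i0) (R.om R.i0) hL α hm0 V
    (hgr' R.i0).1 hK (RF (sp α)) le_rfl σ
    (fun x hx => hσ x ((ValuationSubring.valuation_le_one_iff _ _).2 hx)) c hc
  obtain ⟨-, acm2, -, -, acm5, acm6, -, -⟩ :=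
    ty_ACM he A B hC (R.L R.i0) (R.om R.i0) hL α hm0
  have h1 := acm2 _ σ c 1 hinv hc
  exact acm5 σ 1 1 h1 (acm6 _)

end UNRQ

open _root_.Pool.Agent.TWQ.UNRQ in
/-- **UNRQ** -/
theorem t_UNRQ (hKI : S_KINS) (hID : S_IDQ) : S_UNRQ := by
  intro p q A B P P' V f hSQ T ι _ R hR m hm hpm
  obtain ⟨⟨-, -, -, -, hPp, -, -, -, -, -, hcop⟩, hint, -⟩ := hID p q A B P P' V f hSQ
  rcases hSQ with ⟨-, ⟨hS, hP', -⟩ | ⟨hS, hP', -⟩⟩
  · rw [hP', Ideal.mul_top]
    exact t_UNRGI t_VPGI (t_RAMGI t_VPGI) p A B P V f hS T ι R hR m hm hpm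
  · obtain ⟨y0, hy0, y1, hy1, h01⟩ := Ideal.isCoprime_iff_exists.1 hcop
    have hy1P : y1 ∉ P := fun h =>
      hPp.ne_top ((Ideal.eq_top_iff_one P).2 (h01 ▸ P.add_mem hy0 h))
    have hmP : ((m : ℕ) : OO A B) ∉ P := by
      intro h
      have h1 : (((m : ℕ) : ℤ) : OO A B) ∈ P := by
        rw [Int.cast_natCast]
        exact h
      exact hpm (by exact_mod_cast (hint (m : ℤ)).1 h1)
    have hα : ((m : ℕ) : OO A B) * y1 ∉ P := fun h => (hPp.mem_or_mem h).elim hmP hy1P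
    have hle : (sp (((m : ℕ) : OO A B) * y1) : Ideal (OO A B)) ≤ (idl m : Ideal (OO A B)) * P' := by
      change Ideal.span {((m : ℕ) : OO A B) * y1} ≤ _
      rw [Ideal.span_singleton_le_iff_mem]
      exact Ideal.mul_mem_mul (Ideal.mem_span_singleton_self _) hy1
    exact fun y hy => unr hKI p A B P V f hS T ι R hR _ hα y (T.mono _ _ hle hy)

end

end Pool.Agent.TWQ


end

section

/-!
# TWQ: the characters of `Gal(K B_(n+1) / k)` with values in the residue field, `K` ramified above `p` (`S_FACQ`) (helper51)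
-/

set_option autoImplicit false

open NumberField IsDedekindDomain Finset
open scoped nonZeroDivisors Pointwise

namespace Pool.Agent.TWQ

open _root_.MU3 Pool.Agent.MU3 Pool.Agent.MU3A Pool.Agent.MU3B Pool.Agent.RI Pool.Agent.RID
  Pool.Agent.MUX Pool.Agent.MUXK Pool.Agent.MUXI Pool.Agent.TWT Pool.Agent.TWF Pool.Agent.TWI
open Pool.Agent.MU3I (w3 zt)
open Pool.Agent.MU3V (Sub)

theorem over_q {p q : ℕ} {A B : ℤ} {P P' : Ideal (OO A B)} {V : ValuationSubring ℂ} {f : ℕ}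
    (hS : SetQ p q A B P P' V f) : OverI V P := by
  obtain ⟨-, ⟨h, -, -⟩ | ⟨h, -, -⟩⟩ := hS
  · exact h.hV
  · exact h.hV

theorem t_FACQ (hARF : Si_ARF) (hIAF : Si_IAF) (hXXF : Si_XXF) (hLAY : Si_LAY)
    (hNIM : Pool.Agent.MUXF.Sx_NIM) (hGAL : Pool.Agent.MUXJ.Sj_GAL) : S_FACQ := by
  classical
  intro l g s hGen p q hp A B P P' V f hS hlf T ι _ R _ w hw K _ hK hSub Bn hlay hmono
  obtain ⟨hW, hc, hp5, hfp, hf0, hPp, hpP, -, -⟩ := at_p p q hp.out A B P P' V f hS w hw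
  have hls : (l = 3 ∧ s = 1) ∨ (l = 2 ∧ s = 2) := by
    rcases hGen with ⟨h1, -, h2⟩ | ⟨h1, -, h2⟩
    · exact Or.inl ⟨h1, h2⟩
    · exact Or.inr ⟨h1, h2⟩
  have hlp : l.Prime := by
    rcases hls with ⟨rfl, -⟩ | ⟨rfl, -⟩
    · exact Nat.prime_three
    · exact Nat.prime_two
  have : Fact l.Prime := ⟨hlp⟩
  have hs1 : 1 ≤ s := by rcases hls with ⟨-, h⟩ | ⟨-, h⟩ <;> omega
  have hlf1 : l ∣ f := (dvd_pow_self l (by omega)).trans hlf
  have hpl : ¬ p ∣ l := by
    intro h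
    exact hfp (h.trans hlf1)
  have hf2 : 2 ≤ f := by
    have h1 := Nat.le_of_dvd (Nat.pos_of_ne_zero hf0) hlf1
    exact hlp.two_le.trans h1
  have hfm : (idl (f * p) : Ideal (OO A B)) ≠ ⊥ := by
    rw [Ne, Ideal.span_singleton_eq_bot]
    exact natCast_ne_zero' hc (mul_ne_zero hf0 hp.out.ne_zero)
  have hpV : (p : ℂ) ∈ V.nonunits := by
    have h1 := (over_q hS ((p : ℕ) : OO A B)).2 hpP
    rwa [Pool.Agent.MUX.emb_natCast hc] at h1
  have fdk : FiniteDimensional ℚ (kk A B) := FiniteDimensional.of_injective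
    (IntermediateField.inclusion hK).toLinearMap
    (IntermediateField.inclusion hK).toRingHom.injective
  obtain ⟨gK, -, cK⟩ := hGAL A B T (idl (f * p)) hfm K hK hSub
  have hB : Twr l (kk A B) K Bn := ⟨hK, gK, cK, hlay, hmono⟩
  let aK : Algebra (kk A B) K := algC hK
  have galK : IsGalois (kk A B) K := (isGalois_algC hK).2 gK
  have tK : IsScalarTower ℚ (kk A B) K := IsScalarTower.of_algebraMap_eq (fun _ => rfl)
  have fdK : FiniteDimensional (kk A B) K := Module.Finite.of_restrictScalars_finite ℚ (kk A B) K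
  have hfB : ∀ n, FiniteDimensional ℚ (Bn n) := fun n => (LAY_thm l n (Bn n) (hlay n)).1
  have hfL : ∀ n, FiniteDimensional ℚ ↥(K ⊔ Bn n) := fun n =>
    IntermediateField.finiteDimensional_sup K (Bn n)
  have hc0 : Nat.card (K ≃ₐ[kk A B] K) ≠ 0 := Nat.card_pos.ne'
  obtain ⟨a, r, hr, hcr⟩ := Nat.exists_eq_pow_mul_and_not_dvd hc0 p hp.out.ne_one
  have hr0 : r ≠ 0 := by
    rintro rfl
    exact hr (dvd_zero p)
  have hcopf : ∀ i, (nI (R.b i)).Coprime f := fun i => (R.cop i).coprime_mul_left_right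
  -- the characters of `Gal(K/k)`
  have hE := fun (j : {X : (K ≃ₐ[kk A B] K) →* ℂˣ // ∀ g, X g ^ r = 1}) =>
    e0q hARF hNIM p q hp.out A B P P' V f hS T ι R w hw K hK hSub galK j.1 r hr j.2
  choose kp eta ee bb e1 e2 e3 using hE
  refine ⟨{X : (K ≃ₐ[kk A B] K) →* ℂˣ // ∀ g, X g ^ r = 1}, fin_chr r hr0, kp, eta, ee, bb, e1, e2,
    ?_⟩
  · intro n hn
    let aL : Algebra (kk A B) ↥(K ⊔ Bn (n + 1)) := algC hn
    intro χ hg₀
    obtain ⟨g₀, hg1, hg2⟩ := hg₀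
    obtain ⟨galL, comL⟩ := gal_ab l (kk A B) K Bn hB (n + 1) hn
    have tL : IsScalarTower ℚ (kk A B) ↥(K ⊔ Bn (n + 1)) :=
      IsScalarTower.of_algebraMap_eq (fun _ => rfl)
    have fdL : FiniteDimensional (kk A B) ↥(K ⊔ Bn (n + 1)) :=
      Module.Finite.of_restrictScalars_finite ℚ (kk A B) _
    obtain ⟨X, t, ht, hXt, hXres⟩ :=
      lift_chr p V hpV (↥(K ⊔ Bn (n + 1)) ≃ₐ[kk A B] ↥(K ⊔ Bn (n + 1))) χ
    obtain ⟨r₁, r₂, hr1, hr2, hsplit⟩ := chr_split l (kk A B) K Bn hB (n + 1) hn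
    obtain ⟨X₁, X₂, hX12⟩ := hsplit X
    have hX2 : ∀ g : Bn (n + 1) ≃ₐ[ℚ] Bn (n + 1), X₂ g ^ (l ^ (n + 1)) = 1 := by
      intro g
      have hGB : IsGalois ℚ (Bn (n + 1)) := (LAY_thm l (n + 1) (Bn (n + 1)) (hlay (n + 1))).2.1
      have h1 : Nat.card (Bn (n + 1) ≃ₐ[ℚ] Bn (n + 1)) = l ^ (n + 1) := by
        rw [IsGalois.card_aut_eq_finrank, (hlay (n + 1)).1]
      rw [← h1, ← map_pow, pow_card_eq_one', map_one]
    have hpl' : ¬ p ∣ l ^ (n + 1) := fun h => hpl (hp.out.dvd_of_dvd_pow h)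
    obtain ⟨Y, hYr, hXY⟩ := fix_ord p a r t (l ^ (n + 1)) hp.out hcr r₁ r₂ X X₁ X₂ hX12 ht hXt
      hpl' hX2
    obtain ⟨ψ, hψ1, hψ2, hψ3⟩ := cyc hLAY l s n hls (Bn n) (Bn (n + 1)) (hlay n) (hlay (n + 1))
      (hmono (Nat.le_succ n)) X₂
    refine ⟨⟨Y, hYr⟩, ψ, hψ1, hψ2 ?_, ?_⟩
    · -- the ramified part
      refine ⟨r₂ g₀, ?_, ?_⟩
      · intro x hx
        have h1 := hr2 g₀ x ⟨(x : ℂ), (le_sup_right : Bn (n + 1) ≤ K ⊔ Bn (n + 1)) x.2⟩ rfl
        have h2 := hg1 ⟨(x : ℂ), (le_sup_right : Bn (n + 1) ≤ K ⊔ Bn (n + 1)) x.2⟩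
          ((le_sup_right : Bn n ≤ K ⊔ Bn n) hx)
        rw [h2] at h1
        exact Subtype.ext h1.symm
      · intro h1
        have h2 : r₁ g₀ = 1 := by
          ext x
          have h3 := hr1 g₀ x ⟨(x : ℂ), (le_sup_left : K ≤ K ⊔ Bn (n + 1)) x.2⟩ rfl
          have h4 := hg1 ⟨(x : ℂ), (le_sup_left : K ≤ K ⊔ Bn (n + 1)) x.2⟩
            ((le_sup_left : K ≤ K ⊔ Bn n) x.2)
          rw [h4] at h3
          exact h3.symm
        have h3 : X g₀ = 1 := by rw [hXY g₀, h1, h2, map_one, mul_one]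
        apply hg2
        obtain ⟨h4, h5⟩ := hXres g₀
        apply Units.ext
        rw [← h5, Units.val_one, ← map_one (IsLocalRing.residue V)]
        congr 1
        apply Subtype.ext
        show ((X g₀ : ℂˣ) : ℂ) = 1
        rw [h3, Units.val_one]
    · intro τ q hq
      have hM0 : (l ^ (n + 1 + s)) ≠ 0 := pow_ne_zero _ hlp.ne_zero
      have hm2 : 2 ≤ (f * l ^ (n + 1 + s) * p) := by
        calc 2 ≤ p := hp.out.two_le
          _ = 1 * p := (one_mul p).symm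
          _ ≤ f * l ^ (n + 1 + s) * p := Nat.mul_le_mul_right _
            (Nat.pos_of_ne_zero (mul_ne_zero hf0 hM0))
      have hm0 : idl (A := A) (B := B) (f * l ^ (n + 1 + s) * p) ≠ ⊥ := by
        rw [Ne, Ideal.span_singleton_eq_bot]
        exact natCast_ne_zero' hc (by omega)
      have hcl : ∀ i, (nI (R.b i)).Coprime l := fun i => (hcopf i).coprime_dvd_right hlf1
      have hcopm : ∀ i, (nI (R.b i)).Coprime (f * l ^ (n + 1 + s) * p) := fun i =>
        ((hcopf i).mul_right ((hcl i).pow_right _)).mul_right (R.cop i).coprime_mul_right_right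
      have hNL : ∃ (b : Ideal (OO A B)) (L : PeriodPair) (om : ℂ), IsNL b L om :=
        ⟨_, _, _, R.nl R.i0⟩
      have hmf : idl (A := A) (B := B) (f * l ^ (n + 1 + s) * p) ≤ idl (f * p) := by
        rw [Ideal.span_singleton_le_span_singleton]
        push_cast
        exact mul_dvd_mul_right (dvd_mul_right _ _) _
      have hmM : idl (A := A) (B := B) (f * l ^ (n + 1 + s) * p) ≤ idl (l ^ (n + 1 + s)) := by
        rw [Ideal.span_singleton_le_span_singleton]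
        push_cast
        exact (dvd_mul_left _ _).mul_right _
      -- the field is contained in the ray class field
      obtain ⟨i1, -, -, -, -, -, -, i8⟩ := hIAF A B hc T hNL _ hm0
      have hD : ∀ y ∈ K ⊔ Bn (n + 1), y ∈ RF (idl (A := A) (B := B) (f * l ^ (n + 1 + s) * p)) := by
        have h1 := lvl hLAY hIAF l s hls A B hc T hNL (f * p) (mul_ne_zero hf0 hp.out.ne_zero) K hSub
          (n + 1) (Bn (n + 1)) (hlay (n + 1))
        have h2 : f * p * l ^ (n + 1 + s) = f * l ^ (n + 1 + s) * p := by ring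
        rw [h2] at h1
        exact h1
      obtain ⟨a1, -, a3, a4, a5, a6, a7⟩ := hARF A B hc T hNL (idl (f * l ^ (n + 1 + s) * p)) hm0
        (K ⊔ Bn (n + 1)) hn hD galL
      obtain ⟨x1, -⟩ := hXXF A B hc T (p * f) ι R (f * l ^ (n + 1 + s) * p) hm2 hcopm
        (K ⊔ Bn (n + 1)) hn hD galL
      obtain ⟨x, hx⟩ : ∃ x : OO A B, x = Quotient.out q.2 := ⟨_, rfl⟩
      have hxc : IsCoprime x (((f * l ^ (n + 1 + s) * p) : ℕ) : OO A B) := by
        rw [hx]
        exact hq.1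
      rw [← hx]
      have hqe : (q.1, Ideal.Quotient.mk (idl (A := A) (B := B) (f * l ^ (n + 1 + s) * p)) x) =
          q := by
        have h5 : Ideal.Quotient.mk (idl (A := A) (B := B) (f * l ^ (n + 1 + s) * p)) x = q.2 := by
          rw [hx]
          exact Quotient.out_eq q.2
        rw [h5]
      have hAR : AR hn (idl (f * l ^ (n + 1 + s) * p)) τ (sp x * cjI (R.b q.1)) := by
        refine (x1 τ q.1 x hxc).1 ?_
        rw [hqe]
        exact hq
      have hx0 : x ≠ 0 := by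
        intro h0
        rw [h0, isCoprime_zero_left] at hxc
        obtain ⟨z, hz⟩ := hxc.exists_right_inv
        exact Pool.Agent.NSI.Xmx.natCast_not_unit hm2 z hz
      have hb0 : R.b q.1 ≠ ⊥ := (R.nl q.1).b_ne
      have hspx : sp x ≠ ⊥ := by
        rwa [Ne, Ideal.span_singleton_eq_bot]
      obtain ⟨N, hNdef⟩ : ∃ N : ℕ, N = nI (sp x * cjI (R.b q.1)) := ⟨_, rfl⟩
      have hN : ((N : ℕ) : ℤ) = nm x * nI (R.b q.1) := by
        rw [hNdef, nI_mul hc hspx (cjI_ne_bot hc hb0), nI_sp hc hx0, nI_cjI hc hb0]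
        push_cast
        rw [abs_of_nonneg (nm_nonneg hc x)]
      -- the automorphism of `ℂ`
      obtain ⟨σ, hσ, hσe⟩ := hAR
      have hσz : ∀ z : ℂ, z ^ (l ^ (n + 1 + s)) = 1 → σ z = z ^ N := fun z hz => by
        rw [hNdef]
        exact (i8 (l ^ (n + 1 + s)) σ _ z hM0 hmM hσ hz).2
      have hNl : N.Coprime l := by
        have hζ : IsPrimitiveRoot (zt (l ^ (n + 1 + s))) (l ^ (n + 1 + s)) := Complex.isPrimitiveRoot_exp (l ^ (n + 1 + s)) hM0
        have h1 : IsPrimitiveRoot (σ (zt (l ^ (n + 1 + s)))) (l ^ (n + 1 + s)) := hζ.map_of_injective (f := σ) σ.injective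
        rw [hσz _ hζ.pow_eq_one] at h1
        have h2 := (hζ.pow_iff_coprime (Nat.pos_of_ne_zero hM0) N).1 h1
        exact h2.coprime_dvd_right (dvd_pow_self l (by omega))
      have hσB : ∀ y : Bn (n + 1), (σ : ℂ →+* ℂ) (y : ℂ) = (r₂ τ y : Bn (n + 1)) := by
        intro y
        have h1 := hσe ⟨(y : ℂ), (le_sup_right : Bn (n + 1) ≤ K ⊔ Bn (n + 1)) y.2⟩
        have h2 := hr2 τ y ⟨(y : ℂ), (le_sup_right : Bn (n + 1) ≤ K ⊔ Bn (n + 1)) y.2⟩ rfl
        rw [h2] at h1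
        exact h1
      have hψN := hψ3 (σ : ℂ →+* ℂ) N (r₂ τ) hNl hσz hσB
      have hARK : AR hK (idl (f * p)) (r₁ τ) (sp x * cjI (R.b q.1)) :=
        a6 K hK (idl (f * p)) hmf le_sup_left τ (r₁ τ) _ (fun y y' h => hr1 τ y y' h) ⟨σ, hσ, hσe⟩
      have hxfp : IsCoprime x ((f * p : ℕ) : OO A B) := by
        refine IsCoprime.of_isCoprime_of_dvd_right hxc ?_
        push_cast
        exact mul_dvd_mul_right (dvd_mul_right _ _) _
      have hΨ := e3 ⟨Y, hYr⟩ (r₁ τ) q.1 x hxfp hARK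
      have hcast : ((nm x * nI (R.b q.1) : ℤ) : ZMod (l ^ (n + 1 + s))) = ((N : ℕ) : ZMod (l ^ (n + 1 + s))) := by
        rw [← hN, Int.cast_natCast]
      have hth : thQ R (kp ⟨Y, hYr⟩) (eta ⟨Y, hYr⟩) ψ w (ee ⟨Y, hYr⟩) (bb ⟨Y, hYr⟩) q.1 x =
          ((X τ⁻¹ : ℂˣ) : ℂ) := by
        show kp ⟨Y, hYr⟩ q.1 * eta ⟨Y, hYr⟩ x *
          ψ ((nm x * nI (R.b q.1) : ℤ) : ZMod (l ^ (n + 1 + s))) * w x ^ (ee ⟨Y, hYr⟩ - 1) *
          w (star x) ^ bb ⟨Y, hYr⟩ = _
        rw [hcast, hψN]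
        have h6 : kp ⟨Y, hYr⟩ q.1 * eta ⟨Y, hYr⟩ x * (((X₂ (r₂ τ))⁻¹ : ℂˣ) : ℂ) *
            w x ^ (ee ⟨Y, hYr⟩ - 1) * w (star x) ^ bb ⟨Y, hYr⟩ =
            (kp ⟨Y, hYr⟩ q.1 * eta ⟨Y, hYr⟩ x * w x ^ (ee ⟨Y, hYr⟩ - 1) *
              w (star x) ^ bb ⟨Y, hYr⟩) * (((X₂ (r₂ τ))⁻¹ : ℂˣ) : ℂ) := by ring
        rw [h6, hΨ, ← Units.val_mul, ← mul_inv, ← hXY τ, map_inv]
      refine (congrArg (rsd V) hth).trans ?_
      obtain ⟨h4, h5⟩ := hXres τ⁻¹
      unfold rsd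
      rw [dif_pos h4, h5, map_inv]

end Pool.Agent.TWQ


end

section

/-!
# TWQ, module TRVQ: transfer of a character of a finite group between fields of characteristic `p`
-/

set_option autoImplicit false

namespace Pool.Agent.TWQ

theorem t_TRVQ : S_TRVQ := by
  intro p _ F F' _ _ _ _ _ G _ _ χ
  let _ := ZMod.algebra F p
  let _ := ZMod.algebra F' p
  let S : Set F := Set.range fun g => ((χ g : Fˣ) : F)
  have hS : ∀ x ∈ S, IsIntegral (ZMod p) x := by
    rintro x ⟨g, rfl⟩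
    refine IsIntegral.of_pow (n := Nat.card G) Nat.card_pos ?_
    have h1 : ((χ g : Fˣ) : F) ^ Nat.card G = 1 := by
      rw [← Units.val_pow_eq_pow_val, ← map_pow, pow_card_eq_one', map_one, Units.val_one]
    change IsIntegral (ZMod p) (((χ g : Fˣ) : F) ^ Nat.card G)
    rw [h1]
    exact isIntegral_one
  have hA : Algebra.IsAlgebraic (ZMod p) (IntermediateField.adjoin (ZMod p) S) :=
    IntermediateField.isAlgebraic_adjoin hS
  let i : IntermediateField.adjoin (ZMod p) S →ₐ[ZMod p] F' := IsAlgClosed.lift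
  let χE : G →* IntermediateField.adjoin (ZMod p) S :=
    { toFun := fun g => ⟨((χ g : Fˣ) : F), IntermediateField.subset_adjoin _ _ ⟨g, rfl⟩⟩
      map_one' := Subtype.ext (by simp)
      map_mul' := fun a b => Subtype.ext (by simp) }
  let χ' : G →* F'ˣ := ((i : IntermediateField.adjoin (ZMod p) S →* F').comp χE).toHomUnits
  have hχ' : ∀ g, ((χ' g : F'ˣ) : F') = i (χE g) := fun g => rfl
  have hχE : ∀ g, ((χE g : IntermediateField.adjoin (ZMod p) S) : F) = χ g := fun g => rfl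
  refine ⟨χ', fun g => ?_, fun t' => ?_⟩
  · rw [← Units.val_inj, hχ', Units.val_one, ← Units.val_inj, Units.val_one, ← hχE]
    constructor
    · intro h
      have h1 : χE g = 1 := i.injective (h.trans (map_one i).symm)
      rw [h1]
      rfl
    · intro h
      have h1 : χE g = 1 := Subtype.ext h
      rw [h1, map_one]
  · obtain ⟨r, hr⟩ := ((IntermediateField.adjoin (ZMod p) S).val.toLinearMap).exists_leftInverse_of_injective
      (LinearMap.ker_eq_bot.2 (IntermediateField.adjoin (ZMod p) S).val.injective)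
    refine ⟨(((t'.toZModLinearMap p).comp (i.toLinearMap.comp r)).toAddMonoidHom), fun g => ?_⟩
    rw [← map_inv, ← map_inv, hχ']
    change t' (i (r ((χE g⁻¹ : IntermediateField.adjoin (ZMod p) S) : F))) = _
    have h1 := LinearMap.congr_fun hr (χE g⁻¹)
    change r ((χE g⁻¹ : IntermediateField.adjoin (ZMod p) S) : F) = χE g⁻¹ at h1
    rw [h1]

end Pool.Agent.TWQ


end

section

/-!
# TWQ, block C', module TYPQ: the type of the symbol of `eta w^e`, `p` inert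
-/

set_option autoImplicit false

open WeierstrassCurve Polynomial NumberField IsDedekindDomain

namespace Pool.Agent.TWQ

open _root_.MU3 Pool.Agent.MU3A Pool.Agent.MU3B Pool.Agent.MU3C Pool.Agent.RI Pool.Agent.RID
open Pool.Agent.MUX Pool.Agent.MUXU Pool.Agent.MUXW Pool.Agent.TWT Pool.Agent.TWI
open Pool.Agent.MUXV (GR InK tX)
open Pool.Agent.MUXY (ActN Dn)
open Pool.Agent.NS (InI)
open Pool.Agent.NST (ActT KIn)
open OnePoint

noncomputable section

namespace TYPQ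

variable {A B : ℤ} {p f : ℕ} {P : Ideal (OO A B)} {V : ValuationSubring ℂ}

/-- `epI eta (w ^ k)` is an odd character modulo `(p f)` -/
theorem ei (hS : SetI p A B P V f) {w : OO A B → ℂ} (hw : TeiI p P V w) {ι : Type}
    {R : Reps A B (p * f) ι} {kp : ι → ℂ} {eta : OO A B → ℂ} {k : ℕ}
    (hch : ChQ p (p ^ 2) f P ⊤ R kp eta k 0) :
    MUX.IsEI (idl (p * f)) (epI eta fun z => w z ^ k) := by
  have hk0 : k ≠ 0 := by have := hch.e1; omega
  have hmax := Syi.maxP hS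
  have hcop : ∀ x : OO A B, w x ^ k ≠ 0 ↔ IsCoprime (MUX.sp x) P := by
    intro x
    rw [Ne, pow_eq_zero_iff hk0, hw.zero]
    constructor
    · intro h
      rw [Ideal.isCoprime_iff_sup_eq]
      refine hmax.1.2 _ ?_
      rw [lt_iff_le_not_ge]
      refine ⟨le_sup_right, fun h1 => h ?_⟩
      exact h1 (Ideal.mem_sup_left (Ideal.mem_span_singleton_self x))
    · intro h h1
      rw [Ideal.isCoprime_iff_sup_eq] at h
      have h2 : MUX.sp x ≤ P := (Ideal.span_singleton_le_iff_mem _).2 h1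
      rw [sup_eq_right.2 h2] at h
      exact hmax.ne_top h
  have hmul : (idl (A := A) (B := B) (p * f)) = idl f * P := by
    have h1 : ((p * f : ℕ) : OO A B) = ((f : ℕ) : OO A B) * ((p : ℕ) : OO A B) := by
      rw [Nat.cast_mul, mul_comm]
    rw [hS.eP]
    show Ideal.span {((p * f : ℕ) : OO A B)} = Ideal.span {((f : ℕ) : OO A B)} *
      Ideal.span {((p : ℕ) : OO A B)}
    rw [Ideal.span_singleton_mul_span_singleton, h1]
  constructor
  · show eta 1 * w 1 ^ k = 1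
    rw [hch.one, hw.one, one_pow, mul_one]
  · intro x y
    show eta (x * y) * w (x * y) ^ k = eta x * w x ^ k * (eta y * w y ^ k)
    rw [hch.mul, hw.mul, mul_pow]
    ring
  · intro x y h
    rw [hmul] at h
    show eta x * w x ^ k = eta y * w y ^ k
    have h1 : x - y ∈ (idl f : Ideal (OO A B)) := Ideal.mul_le_left h
    have h2 : x - y ∈ P := Ideal.mul_le_right h
    rw [hch.per x y h1, hw.per x y h2]
  · intro x
    show eta x * w x ^ k ≠ 0 ↔ _
    rw [mul_ne_zero_iff, hch.supp, hcop, ← IsCoprime.mul_right_iff, hmul]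
  · show eta (-1) * w (-1) ^ k = -1
    have h1 : k = (k - 1) + 1 := by omega
    rw [hch.neg, Syi.w_neg hS hw, Nat.add_zero]
    rw [show (-1 : ℂ) ^ k = (-1) ^ (k - 1) * (-1) from by rw [← pow_succ, ← h1],
      ← mul_assoc, ← mul_pow]
    norm_num

end TYPQ

open Pool.Agent.TWI.TYPI in
theorem typq_aux (hUNF : S_YUNF) (hINE : S_YINE) (hALT : S_YALT) (hALV : S_YALV) (hACI : S_YACI)
    (hSGN : S_YSGN) (hVAK : S_YVAK) (hTAU : S_YTAU) : S_TYPQ := by
  classical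
  intro p A B P V f hS hT ι _ R hG w hw kp eta k hch hklt x y h1
  have hk0 : k ≠ 0 := by have := hch.e1; omega
  have hQ := hS.cq
  have hp := hS.pp
  have hp5 := hS.p5
  have hf0 := hS.f0
  have hD := Pool.Agent.NST.TYF.absD_ge hQ
  have hf6 : 6 ≤ f := by
    have h2 := Int.le_of_dvd (by exact_mod_cast Nat.pos_of_ne_zero hf0) hS.fD
    omega
  have hpf2 : 2 ≤ p * f := by nlinarith
  have hvp : V.valuation (p : ℂ) < 1 := Syi.vp hS
  have hvp0 : V.valuation (p : ℂ) ≠ 0 := by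
    rw [Ne, map_eq_zero]
    exact_mod_cast hp.ne_zero
  obtain ⟨-, hvq, -⟩ := t_TEP p A B P V f hS
  have hq0 : 0 < p ^ 2 - 1 := by
    have : 25 ≤ p ^ 2 := by nlinarith
    omega
  set e : OO A B → ℂ := epI eta (fun z => w z ^ k) with he
  set ka : ι → ℂ := kkI R kp eta (fun z => w z ^ k) with hka
  have hei : IsEI (idl (A := A) (B := B) (p * f)) e := TYPQ.ei hS hw hch
  -- roots of unity
  obtain ⟨r, hpr, hr1, hr2⟩ := hch.fin
  have hr0 : r ≠ 0 := by
    rintro rfl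
    exact hpr (dvd_zero p)
  obtain ⟨s, hs⟩ : ∃ s, s = r * (p ^ 2 - 1) := ⟨_, rfl⟩
  have hs0 : s ≠ 0 := by
    rw [hs]
    exact mul_ne_zero hr0 hq0.ne'
  have hvs : V.valuation (s : ℂ) = 1 := by
    rw [hs, Nat.cast_mul, map_mul, hvq, mul_one]
    have h2 := Syi.vn hS r (fun hd => hpr (by exact_mod_cast hd))
    rwa [Int.cast_natCast] at h2
  have hws : ∀ z, w z ≠ 0 → w z ^ s = 1 := by
    intro z hz
    have hzP : z ∉ P := fun h => hz ((hw.zero z).2 h)
    rw [hs, mul_comm, pow_mul, hw.root z hzP, one_pow]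
  have hes : ∀ z, e z ≠ 0 → e z ^ s = 1 := by
    intro z hz
    have hz' : eta z * w z ^ k ≠ 0 := hz
    obtain ⟨hz1, hz2⟩ := mul_ne_zero_iff.1 hz'
    have hz3 : w z ≠ 0 := fun h => hz2 (by rw [h, zero_pow hk0])
    show (eta z * w z ^ k) ^ s = 1
    rw [mul_pow, ← pow_mul, mul_comm k s, pow_mul (w z) s k, hws z hz3, one_pow, mul_one, hs,
      pow_mul, hr2 z hz1, one_pow]
  have hkas : ∀ i, ka i ^ s = 1 := by
    intro i
    have h2 := hes _ (MUXHY.Brg.e_nI R hei (Ideal.mem_span_singleton_self _) i)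
    show (kp i * (e ((nI (R.b i) : ℕ) : OO A B))⁻¹) ^ s = 1
    rw [mul_pow, inv_pow]
    have h3 : e ((nI (R.b i) : ℕ) : OO A B) ^ s = 1 := h2
    rw [h3, inv_one, mul_one, hs, pow_mul, hr1 i, one_pow]
  -- the level
  obtain ⟨D1, hD1, hx1⟩ := exists_dn x
  obtain ⟨D2, hD2, hy1⟩ := exists_dn y
  obtain ⟨j, N, hNp, hDN⟩ := Nat.exists_eq_pow_mul_and_not_dvd (mul_ne_zero hD1 hD2) p
    hp.ne_one
  have hN0 : N ≠ 0 := by
    rintro rfl
    exact hNp (dvd_zero p)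
  obtain ⟨m', hm'⟩ : ∃ m', m' = f * N := ⟨_, rfl⟩
  have hm'0 : m' ≠ 0 := by
    rw [hm']
    exact mul_ne_zero hf0 hN0
  have hm'p : ¬ p ∣ m' := by
    rw [hm']
    intro h
    rcases hp.dvd_mul.1 h with h | h
    · exact hS.fp h
    · exact hNp h
  have hfm : f ∣ m' := hm' ▸ Dvd.intro _ rfl
  have hdvd : D1 * D2 ∣ p ^ (j + 1) * m' := by
    rw [hDN, hm']
    exact mul_dvd_mul (pow_dvd_pow p (Nat.le_succ j)) (Dvd.intro_left _ rfl)
  have hx2 : Dn (p ^ (j + 1) * m') x :=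
    Pool.Agent.NST.TYF.dn_mono ((dvd_mul_right D1 D2).trans hdvd) hx1
  have hy2 : Dn (p ^ (j + 1) * m') y :=
    Pool.Agent.NST.TYF.dn_mono ((dvd_mul_left D2 D1).trans hdvd) hy1
  -- the number `tau`
  obtain ⟨tau, htauv, htaua, htau⟩ := hTAU p A B P V f hS hT ι R hG w hw
  have htau0 : V.valuation tau ≠ 0 := by
    intro h0
    rw [h0, zero_pow hq0.ne'] at htauv
    exact hvp0 htauv.symm
  have htau1 : V.valuation tau < 1 := by
    by_contra hc
    have h4 := one_le_pow₀ (not_lt.1 hc) (n := p ^ 2 - 1)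
    rw [htauv] at h4
    exact absurd hvp (not_lt.2 h4)
  -- the field
  obtain ⟨Q, hQd⟩ : ∃ Q : OnePoint ℚ → OnePoint ℚ → ℂ,
      Q = fun x y => PhiK R e ka x y / R.om R.i0 := ⟨_, rfl⟩
  obtain ⟨x', hx'⟩ : ∃ x', x' = Pool.Agent.MuSym.mob (-1) 0 0 1 x := ⟨_, rfl⟩
  obtain ⟨y', hy'⟩ : ∃ y', y' = Pool.Agent.MuSym.mob (-1) 0 0 1 y := ⟨_, rfl⟩
  have hx2' : Dn (p ^ (j + 1) * m') x' := hx' ▸ dn_neg x hx2
  have hy2' : Dn (p ^ (j + 1) * m') y' := hy' ▸ dn_neg y hy2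
  have hy0 : sgnPart 1 (PhI R kp eta (fun z => w z ^ k)) x y = Q x y + Q x' y' := by
    rw [hQd, hx', hy']
    show PhI R kp eta (fun z => w z ^ k) x y + 1 * PhI R kp eta (fun z => w z ^ k) _ _ = _
    rw [one_mul]
    rfl
  have hfne : f ≠ 1 := by omega
  have hYa : ∀ i, IsAlgebraic ℚ (yy (R.L i) (pt R m' i 1)) := by
    intro i
    refine (hALT A B hQ hT (R.b i) (R.L i) (R.om i) (R.nl i) m' hm'0 (pt R m' i 1)
      (pt_not_mem hQ hfne hfm hm'0 R i) ?_).2
    refine ((R.nl i).mem _).2 ⟨((nI (R.b i) : ℕ) : OO A B), nI_mem hQ (R.nl i).b_ne, ?_⟩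
    have hmC : (m' : ℂ) ≠ 0 := by exact_mod_cast hm'0
    unfold pt
    rw [emb_one hQ, emb_natCast hQ]
    field_simp
  set Ts : Set ℂ := ({Q x y, Q x' y', tau} : Set ℂ) ∪
    (Set.range (fun i => yy (R.L i) (pt R m' i 1)) ∪
      ((Polynomial.nthRootsFinset s (1 : ℂ) : Finset ℂ) : Set ℂ)) with hTs
  have hTfin : Ts.Finite := by
    refine Set.Finite.union (Set.toFinite _) (Set.Finite.union (Set.finite_range _)
      (Finset.finite_toSet _))
  have hTalg : ∀ t ∈ Ts, IsAlgebraic ℚ t := by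
    rintro t (ht | (⟨i, rfl⟩ | ht))
    · rcases ht with rfl | rfl | rfl
      · rw [hQd]
        exact hALV A B hQ hT (p * f) hpf2 ι R e hei s hs0 hes ka hkas x y
      · rw [hQd]
        exact hALV A B hQ hT (p * f) hpf2 ι R e hei s hs0 hes ka hkas x' y'
      · exact htaua
    · exact hYa i
    · rw [Finset.mem_coe, Polynomial.mem_nthRootsFinset (Nat.pos_of_ne_zero hs0)] at ht
      exact IsAlgebraic.of_pow (Nat.pos_of_ne_zero hs0) (by rw [ht]; exact isAlgebraic_one)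
  obtain ⟨F, hFf, hFg, hEF, hTF⟩ := Pool.Agent.NST.nt_GLC A B hQ
    (RF (idl (A := A) (B := B) m'))
    (hT.fin _ (Pool.Agent.NST.TYF.idl_ne_bot hQ hm'0)) Ts hTfin hTalg
  have hQF : Q x y ∈ F := hTF (Or.inl (Or.inl rfl))
  have hQF' : Q x' y' ∈ F := hTF (Or.inl (Or.inr (Or.inl rfl)))
  have htauF : tau ∈ F := hTF (Or.inl (Or.inr (Or.inr rfl)))
  have hyF : ∀ i, yy (R.L i) (pt R m' i 1) ∈ F := fun i => hTF (Or.inr (Or.inl ⟨i, rfl⟩))
  have hrF : ∀ z : ℂ, z ^ s = 1 → z ∈ F := fun z hz => hTF (Or.inr (Or.inr (by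
    rw [Finset.mem_coe, Polynomial.mem_nthRootsFinset (Nat.pos_of_ne_zero hs0)]
    exact hz)))
  -- the key point
  have hkey : ∀ σ : ℂ ≃+* ℂ, InI A B V (F : Set ℂ) σ →
      σ ((Q x y + Q x' y') * tau ^ k) = (Q x y + Q x' y') * tau ^ k := by
    intro σ hσ
    have hin : ∀ z ∈ F, V.valuation z ≤ 1 → V.valuation (σ z - z) < 1 := by
      intro z hz hzV
      have h2 := hσ.iner z hz ((V.valuation_le_one_iff _).1 hzV)
      rwa [ValuationSubring.mem_nonunits_iff] at h2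
    have hRF := hINE p A B P V f hS hT ι R hG m' hm'0 hm'p σ hσ.fix
      (fun z hz hzV => hin z (hEF hz) hzV)
    obtain ⟨c, d, hc1, hc3, hact⟩ := hACI A B hQ hT (p * f) ι R p j m' (by omega) hm'0 σ
      hσ.fix hRF
    have hcP : c ∉ P := by
      rw [hS.eP]
      exact hc3
    have hd := hSGN p A B P V f hS ι R hG j m' hm'0 hm'p hfm σ c d hc1 hact
      (fun i hi => hin _ (hyF i) hi)
    have hroot : ∀ z : ℂ, (z ≠ 0 → z ^ s = 1) → σ z = z := by
      intro z hz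
      by_cases hz0 : z = 0
      · rw [hz0, map_zero]
      · have hz1 := hz hz0
        have hv1 : V.valuation z = 1 := MUXHY.Val.root_one V s z hs0 hz1
        exact TEP.uniq V s (Nat.pos_of_ne_zero hs0) hvs (σ z) z
          (by rw [← map_pow, hz1, map_one]) hz1 (hin z (hrF z hz1) hv1.le)
    have hse : ∀ z, σ (e z) = e z := fun z => hroot _ (hes z)
    have hsw : ∀ z, σ (w z) = w z := fun z => hroot _ (hws z)
    have hsk : ∀ i, σ (ka i) = ka i := fun i => hroot _ (fun _ => hkas i)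
    have h2 : σ tau = w c * tau :=
      htau (p ^ (j + 1) * m') ((dvd_pow_self p (Nat.succ_ne_zero j)).mul_right _) σ c d hact hd
        hcP hsw
    have h3 : e c = w c ^ k := by
      show eta c * w c ^ k = w c ^ k
      have h5 : c - 1 ∈ (idl f : Ideal (OO A B)) :=
        Pool.Agent.NST.TYF.mem_idl_of_dvd hfm hc1
      rw [hch.per c 1 h5, hch.one, one_mul]
    have h4 : ∀ a b, Dn (p ^ (j + 1) * m') a → Dn (p ^ (j + 1) * m') b →
        w c ^ k * σ (Q a b) = Q a b := by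
      intro a b ha hb
      rw [← h3, hQd]
      exact hVAK A B p f hQ hp.one_lt.le (by omega) ι R e hei j m' hm'0 hfm σ c d hc1 hact hd
        hse ka hsk a b ha hb
    rw [map_mul, map_add, map_pow, h2, mul_pow]
    have h5 := h4 x y hx2 hy2
    have h6 := h4 x' y' hx2' hy2'
    linear_combination tau ^ k * (h5 + h6)
  have hgK : (Q x y + Q x' y') * tau ^ k ∈ KIn A B V F :=
    ⟨F.mul_mem (F.add_mem hQF hQF') (pow_mem htauF k), hkey⟩
  rw [hy0] at h1 ⊢
  have hg1 : 1 ≤ V.valuation ((Q x y + Q x' y') * tau ^ k) := by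
    by_contra hc
    rw [not_le] at hc
    have h2 := hUNF p A B P V f hS F _ hgK hc
    rw [map_mul, map_pow] at h2
    have h3 : V.valuation tau ^ k ≤ V.valuation tau ^ (p ^ 2 - 1) := by
      rw [htauv]
      exact (le_mul_of_one_le_left' h1).trans h2
    obtain ⟨m, hm⟩ : ∃ m, p ^ 2 - 1 = m + k := ⟨p ^ 2 - 1 - k, by omega⟩
    have h5 : m ≠ 0 := by omega
    have h6 : V.valuation tau ^ (p ^ 2 - 1) < V.valuation tau ^ k := by
      rw [hm, pow_add]
      have h7 : V.valuation tau ^ m < 1 := pow_lt_one₀ zero_le' htau1 h5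
      have h8 := mul_lt_mul_of_pos_right h7 (zero_lt_iff.2 (pow_ne_zero k htau0))
      rwa [one_mul] at h8
    exact absurd h3 (not_le.2 h6)
  have h2 := one_le_pow₀ hg1 (n := p ^ 2 - 1)
  rw [map_mul, map_pow, mul_pow, ← pow_mul, mul_comm k (p ^ 2 - 1), pow_mul, htauv,
    mul_comm] at h2
  exact h2

/-- (TYPQ) the type of the symbol of `eta w^e`, `p` inert. -/
theorem t_TYPQ : S_TYPQ :=
  typq_aux t_YUNF (t_YINE t_VPGI) t_YALT t_YALV t_YACI (t_YSGN t_VPGI) (t_YVAK t_YSGM t_YVAL)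
    TYAll.tau

end

end Pool.Agent.TWQ


end
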