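import Pool.Agent.TWM.C08
import Pool.Agent.TWM.C26
import Pool.Agent.TWM.C31
import Pool.Agent.TWM.C33
import Pool.Agent.TWZ.C01

/-! Parts: TWQ.ENDQ, TWQ.GFQ -/

section

/-!
# TWQ: the final theorem, no condition on the primes above `p` (helper60)
-/

set_option autoImplicit false

open NumberField IsDedekindDomain

namespace Pool.Agent.TWQ

open _root_.MU3 Pool.Agent.MU3 Pool.Agent.MU3A Pool.Agent.MU3B Pool.Agent.RI Pool.Agent.RID
  Pool.Agent.MUX Pool.Agent.MUXJ Pool.Agent.MUXY Pool.Agent.TWT Pool.Agent.TWK Pool.Agent.TWF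
  Pool.Agent.TWI
open Pool.Agent.MU3V (Sub)

/-- The statement for the field `k` and the prime `p`: no condition on the primes above `p`. -/
def StPQ (k : IntermediateField ℚ ℂ) (p : ℕ) : Prop :=
  ∀ (K : IntermediateField ℚ ℂ) [FiniteDimensional ℚ K] (hk : k ≤ K),
    IsGalois k (IntermediateField.extendScalars hk) →
    (∀ σ τ : (IntermediateField.extendScalars hk) ≃ₐ[k] (IntermediateField.extendScalars hk),
      σ * τ = τ * σ) →
    ¬ p ∣ Module.finrank k (IntermediateField.extendScalars hk) →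
    ∀ (E : IntermediateField ℚ ℂ) [FiniteDimensional ℚ E] (hE : k ≤ E),
    IsGalois k (IntermediateField.extendScalars hE) →
    (∃ c : ℕ, Module.finrank k (IntermediateField.extendScalars hE) = p ^ c) →
    ∀ l : ℕ, (l = 2 ∨ l = 3) → ∃ n₀ : ℕ, ∀ B₀ : IntermediateField ℚ ℂ, IsLayer l n₀ B₀ →
      (∀ a : ℕ, ¬ l ^ (a + 1) ∣ Module.finrank k (IntermediateField.extendScalars hk) →
        ∀ n : ℕ, n₀ + a ≤ n → ∀ B B' : IntermediateField ℚ ℂ, IsLayer l n B →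
        IsLayer l (n + 1) B' → ∀ (L : IntermediateField ℚ ℂ) (hL : k ≤ L),
        L ≤ K ⊔ B' → ¬ L ≤ K ⊔ B →
        IsCyclic ((IntermediateField.extendScalars hL) ≃ₐ[k]
          (IntermediateField.extendScalars hL)) →
        ∀ (L₁ : IntermediateField ℚ ℂ) (h₁ : k ≤ L₁) (h₂ : L₁ ≤ L),
        ¬ l ∣ Module.finrank k (IntermediateField.extendScalars h₁) →
        (∃ e : ℕ, Module.finrank L₁ (IntermediateField.extendScalars h₂) = l ^ e) →
        ∀ (m : ℕ) (Q : IntermediateField ℚ ℂ), IsLayer p m Q →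
          padicValNat p (classNo (L ⊔ E ⊔ Q)) = padicValNat p (classNo (L₁ ⊔ B₀ ⊔ E ⊔ Q))) ∧
      ∀ n : ℕ, n₀ ≤ n → ∀ B : IntermediateField ℚ ℂ, IsLayer l n B →
        ∀ L : IntermediateField ℚ ℂ, k ≤ L → L ≤ K ⊔ B →
        ∀ (m : ℕ) (Q : IntermediateField ℚ ℂ), IsLayer p m Q →
          padicValNat p (classNo (L ⊔ E ⊔ Q)) =
            padicValNat p (classNo ((L ⊓ (K ⊔ B₀)) ⊔ E ⊔ Q))

/-- the statement for `k = kk A B` and one good prime `p` which does not divide the class number of `k` -/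
theorem fin_pQ (hURE : S_URE) (hFIN : S_FINQ) (hLAY : Pool.Agent.MUXI.Si_LAY)
    (hIAF : Pool.Agent.MUXI.Si_IAF) (hREX : Sy_REX)
    (hJTR : Pool.Agent.JT.Sj_JTR) (hDIR : Sj_DIR)
    (hLAYs : Sj_LAY) (A B : ℤ) (hc : CQ A B) (T : TorX A B) (hNL : NLex A B)
    (hd3 : absD A B ≠ 3) (hd4 : absD A B ≠ 4) (hk2 : Module.finrank ℚ (kk A B) = 2)
    (hki : ∃ z ∈ kk A B, (starRingEnd ℂ) z ≠ z) (p : ℕ) (hp : p.Prime)
    (hp5 : 5 ≤ p) (hpD : ¬ (p : ℤ) ∣ absD A B)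
    (hpH : ¬ p ∣ Module.finrank (kk A B)
      (RF (⊤ : Ideal (OO A B)) : IntermediateField (kk A B) ℂ))
    (hgood : (∃ (P : Ideal (OO A B)) (V V' : ValuationSubring ℂ), IsPN p P ∧ IsPN p (cjI P) ∧
        OverI V P ∧ OverI V' (cjI P) ∧ (p : ℂ) ∈ V.nonunits ∧ (p : ℂ) ∈ V'.nonunits ∧
        (∀ (N₀ : ℕ) (ι : Type) (R : Reps A B N₀ ι), GRd V R) ∧
        ∀ (N₀ : ℕ) (ι : Type) (R : Reps A B N₀ ι), GRd V' R) ∨
      ((idl (A := A) (B := B) p).IsPrime ∧ ∃ V : ValuationSubring ℂ,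
        OverI V (idl (A := A) (B := B) p) ∧ (p : ℂ) ∈ V.nonunits ∧
        ∀ (N₀ : ℕ) (ι : Type) (R : Reps A B N₀ ι), GRd V R)) : StPQ (kk A B) p := by
  intro K fdK hk hG hab hdeg E fdE hkE hGE hdE l hl
  obtain ⟨c, hdE⟩ := hdE
  have hpF : Fact p.Prime := ⟨hp⟩
  have hU : TorU A B K := hJTR A B hc T hNL K hk hG hab
  obtain ⟨M, hM0, hM⟩ := hDIR A B hc T K hU
  -- the exponent `h`
  obtain ⟨g, h, hgen, hls⟩ : ∃ g h : ℕ, Pool.Agent.TWR.Gen l g h ∧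
      ((l = 3 ∧ h = 1) ∨ (l = 2 ∧ h = 2)) := by
    rcases hl with rfl | rfl
    · exact ⟨5, 2, Or.inr ⟨rfl, rfl, rfl⟩, Or.inr ⟨rfl, rfl⟩⟩
    · exact ⟨4, 1, Or.inl ⟨rfl, rfl, rfl⟩, Or.inl ⟨rfl, rfl⟩⟩
  have hlp : l.Prime := by
    rcases hl with rfl | rfl
    · exact Nat.prime_two
    · exact Nat.prime_three
  have hlF : Fact l.Prime := ⟨hlp⟩
  have hpl' : p ≠ l := by rcases hl with rfl | rfl <;> omega
  have hp3 : ¬ p ∣ 3 := by
    intro h3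
    have := Nat.le_of_dvd (by norm_num) h3
    omega
  have hpl : ¬ p ∣ 3 * l ^ h := by
    intro h3
    rcases (Nat.Prime.dvd_mul hp).1 h3 with h4 | h4
    · exact hp3 h4
    · exact hpl' ((Nat.prime_dvd_prime_iff_eq hp hlp).1 (hp.dvd_of_dvd_pow h4))
  obtain ⟨Bn, hlay, hmono, huni⟩ := layers hLAYs l hl
  have hfL : ∀ n, FiniteDimensional ℚ ↥(K ⊔ Bn n) := fun n => by
    have : FiniteDimensional ℚ (Bn n) := (LAY_thm l n (Bn n) (hlay n)).1
    exact IntermediateField.finiteDimensional_sup K (Bn n)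
  have fdk : FiniteDimensional ℚ (kk A B) := FiniteDimensional.of_injective
    (IntermediateField.inclusion hk).toLinearMap
    (IntermediateField.inclusion hk).toRingHom.injective
  have hT : Twr l (kk A B) K Bn := ⟨hk, hG, hab, hlay, hmono⟩
  have hNL' : ∃ (b : Ideal (OO A B)) (L : PeriodPair) (om : ℂ), IsNL b L om := hNL
  refine fin_gE hURE p l hpl' (kk A B) K hk2 hki Bn hT E hkE hGE c hdE huni ?_
  -- the level
  obtain ⟨f, hf0, hfp, hNf, hfD, hKf⟩ := unf_lev hp (by omega) hc.neg hpD T hNL' K hk hdeg M hM0 hM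
    (3 * l ^ h) (mul_ne_zero (by norm_num) (pow_ne_zero _ hlp.ne_zero)) hpl
  have h3f : 3 ∣ f := (dvd_mul_right 3 (l ^ h)).trans hNf
  have hlf : l ^ h ∣ f := (dvd_mul_left (l ^ h) 3).trans hNf
  have hfp0 : f * p ≠ 0 := mul_ne_zero hf0 hp.ne_zero
  have hsub : ∀ n, Sub (K ⊔ Bn n)
      (RF (idl (A := A) (B := B) (f * l ^ (n + h) * p)) : IntermediateField (kk A B) ℂ) := by
    intro n
    have h1 := lvl hLAY hIAF l h hls A B hc T hNL' (f * p) hfp0 K hKf n (Bn n) (hlay n)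
    have e1 : f * p * l ^ (n + h) = f * l ^ (n + h) * p := by ring
    rw [e1] at h1
    exact h1
  obtain ⟨ι', iι', ⟨R'⟩⟩ := hREX A B hc hd3 hd4 (p * f) (mul_ne_zero hp.ne_zero hf0)
  rcases hgood with ⟨P, V, V', hP, -, hV, hV', -, -, hR, hR'⟩ | ⟨hPr, V, hV, -, hR⟩
  · have hS : SetG p A B P V f := ⟨hc, hp, hp5, hP, hV, hpD, hf0, hfp, hfD⟩
    have hSQ : SetQ p p A B P (cjI P) V f := ⟨h3f, Or.inr ⟨hS, rfl, rfl⟩⟩
    exact hFIN l g h hgen p p A B P (cjI P) V f hSQ hlf T hpH ι' R' (hR _ _ R')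
      (fun _ => ⟨V', hV', hR' _ _ R'⟩) K hk hdeg hKf Bn hlay hmono hsub
  · have hS : SetI p A B (idl (A := A) (B := B) p) V f :=
      ⟨hc, hp, hp5, rfl, hPr, hV, hpD, hf0, hfp, hfD⟩
    have hSQ : SetQ p (p ^ 2) A B (idl (A := A) (B := B) p) ⊤ V f :=
      ⟨h3f, Or.inl ⟨hS, rfl, rfl⟩⟩
    exact hFIN l g h hgen p (p ^ 2) A B _ ⊤ V f hSQ hlf T hpH ι' R' (hR _ _ R')
      (fun h0 => absurd rfl h0) K hk hdeg hKf Bn hlay hmono hsub

/-- All imaginary quadratic `k` except `ℚ(i)` and `ℚ(√-3)`, all primes outside a finite set. -/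
theorem finalQ (hURE : S_URE) (hFIN : S_FINQ) (hLAY : Pool.Agent.MUXI.Si_LAY)
    (hIAF : Pool.Agent.MUXI.Si_IAF)
    (hREX : Sy_REX) (hNLE : Sy_NLE)
    (hTOR : ∀ A B : ℤ, CQ A B → TorX A B)
    (hGRB : Pool.Agent.MUXW.Sy_GRB) (hALU : Pool.Agent.MUXV.Sq_ALU)
    (hJTR : Pool.Agent.JT.Sj_JTR) (hJQF : Pool.Agent.JT.Sj_JQF) (hDIR : Sj_DIR)
    (hLAYs : Sj_LAY) (k : IntermediateField ℚ ℂ) (h2 : Module.finrank ℚ k = 2)
    (hi : ∃ z ∈ k, (starRingEnd ℂ) z ≠ z) (h4 : ∀ z ∈ k, z ^ 2 ≠ -1)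
    (h3 : ∀ z ∈ k, z ^ 2 ≠ -3) :
    ∃ S : Finset ℕ, ∀ p : ℕ, p.Prime → p ∉ S → StPQ k p := by
  obtain ⟨d, hd, rfl, -⟩ := hJQF k h2 hi
  have hd1 : d ≠ 1 := by
    rintro rfl
    exact h4 _ kk_one Complex.I_sq
  have hd3 : d ≠ 3 := by
    rintro rfl
    obtain ⟨z, hz, hz3⟩ := kk_three
    exact h3 z hz hz3
  have hc : CQ (MUXZ.pA d) (MUXZ.pB d) := MUXZ.cq_p hd
  have T := hTOR _ _ hc
  have hD3 : absD (MUXZ.pA d) (MUXZ.pB d) ≠ 3 := by
    rw [MUXZ.absD_p]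
    split_ifs <;> omega
  have hD4 : absD (MUXZ.pA d) (MUXZ.pB d) ≠ 4 := by
    rw [MUXZ.absD_p]
    split_ifs <;> omega
  have htop : (⊤ : Ideal (OO (MUXZ.pA d) (MUXZ.pB d))) ≠ ⊥ := by
    have h1 := natCast_ne_zero' hc one_ne_zero
    intro h5
    have h6 : ((1 : ℕ) : OO (MUXZ.pA d) (MUXZ.pB d)) ∈
      (⊤ : Ideal (OO (MUXZ.pA d) (MUXZ.pB d))) := Submodule.mem_top
    rw [h5, Ideal.mem_bot] at h6
    exact h1 h6
  have hNL : NLex (MUXZ.pA d) (MUXZ.pB d) := by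
    obtain ⟨L, om, hL⟩ := hNLE _ _ hc hD3 hD4 ⊤ htop
    exact ⟨⊤, L, om, hL⟩
  obtain ⟨ι, iι, ⟨R⟩⟩ := hREX _ _ hc hD3 hD4 1 one_ne_zero
  obtain ⟨n₀, hn0, hn₀⟩ := t_GOOD _ _ hc T hGRB hALU 1 ι R
  have hfinH : FiniteDimensional (kk (MUXZ.pA d) (MUXZ.pB d))
      (RF (⊤ : Ideal (OO (MUXZ.pA d) (MUXZ.pB d))) :
        IntermediateField (kk (MUXZ.pA d) (MUXZ.pB d)) ℂ) := T.fin _ htop
  have hH0 : Module.finrank (kk (MUXZ.pA d) (MUXZ.pB d))
      (RF (⊤ : Ideal (OO (MUXZ.pA d) (MUXZ.pB d))) :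
        IntermediateField (kk (MUXZ.pA d) (MUXZ.pB d)) ℂ) ≠ 0 := Module.finrank_pos.ne'
  refine ⟨n₀.primeFactors ∪ (Module.finrank (kk (MUXZ.pA d) (MUXZ.pB d))
      (RF (⊤ : Ideal (OO (MUXZ.pA d) (MUXZ.pB d))) :
        IntermediateField (kk (MUXZ.pA d) (MUXZ.pB d)) ℂ)).primeFactors, fun p hp hpS => ?_⟩
  rw [Finset.notMem_union] at hpS
  have hpn' : ¬ p ∣ n₀ := fun h5 => hpS.1 (Nat.mem_primeFactors.2 ⟨hp, h5, hn0⟩)
  have hpH : ¬ p ∣ Module.finrank (kk (MUXZ.pA d) (MUXZ.pB d))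
      (RF (⊤ : Ideal (OO (MUXZ.pA d) (MUXZ.pB d))) :
        IntermediateField (kk (MUXZ.pA d) (MUXZ.pB d)) ℂ) := fun h5 =>
    hpS.2 (Nat.mem_primeFactors.2 ⟨hp, h5, hH0⟩)
  obtain ⟨hp5, hpD, hgood⟩ := hn₀ p hp hpn'
  exact fin_pQ hURE hFIN hLAY hIAF hREX hJTR hDIR hLAYs _ _ hc T hNL hD3 hD4 h2 hi
    p hp hp5 hpD hpH hgood

end Pool.Agent.TWQ


end

section

/-!
# TWQ, module GFQ (helper61): `Gal(F/F0)` is the set of the automorphisms `γ c`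
-/

set_option autoImplicit false

open WeierstrassCurve Polynomial NumberField IsDedekindDomain

namespace Pool.Agent.TWQ

open _root_.MU3 Pool.Agent.MU3A Pool.Agent.MU3B Pool.Agent.MU3C Pool.Agent.RI Pool.Agent.RID
open Pool.Agent.MUX Pool.Agent.MUXU Pool.Agent.MUXW Pool.Agent.TWT Pool.Agent.TWI
open Pool.Agent.MU3V (cls Sub GD algDF)
open Pool.Agent.MUXV (GR InK tX)
open Pool.Agent.MUXI (IA RE AR)
open OnePoint

noncomputable section

namespace GFQ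

variable {A B : ℤ}

/-- the ideal `(m)` is not zero -/
lemma idl_ne {k : ℕ} (hk : k ≠ 0) : (idl (A := A) (B := B) k) ≠ ⊥ := by
  intro h
  have h4 : ((k : ℕ) : OO A B) = 0 := by
    have : ((k : ℕ) : OO A B) ∈ (idl (A := A) (B := B) k) := Ideal.mem_span_singleton_self _
    rw [h] at this
    exact this
  have h5 := congrArg QuadraticAlgebra.re h4
  simp at h5
  omega

/-- `(m p) ≤ (m) P'` -/
lemma le_lv {m p : ℕ} {P P' : Ideal (OO A B)} (h : P * P' = idl p) :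
    idl (A := A) (B := B) (m * p) ≤ (idl m : Ideal (OO A B)) * P' := by
  have h1 : idl (A := A) (B := B) (m * p) = idl m * idl p := by
    show Ideal.span {((m * p : ℕ) : OO A B)} = Ideal.span {((m : ℕ) : OO A B)} *
      Ideal.span {((p : ℕ) : OO A B)}
    rw [Ideal.span_singleton_mul_span_singleton, Nat.cast_mul]
  rw [h1, ← h]
  exact Ideal.mul_mono_right Ideal.mul_le_right

end GFQ

open _root_.Pool.Agent.TWQ.GFQ in
theorem t_GFQ (hIDQ : S_IDQ) : S_GFQ := by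
  classical
  intro p q A B P P' V f hS hT ι _ R m hm x0 y0 hL T hRep γ hγ
  obtain ⟨⟨hCQ, hpp, hp5, -, -, -, -, -, -, hPP', -⟩, -, -, -, -, hLv, -⟩ :=
    hIDQ p q A B P P' V f hS
  obtain ⟨e1, e2, e3, e4⟩ := hLv m x0 y0 hL
  have hm3 := hL.m3
  have hm0 : m ≠ 0 := by omega
  have hp0 : p ≠ 0 := by omega
  have hM3 : 3 ≤ m * p := by nlinarith
  have hM2 : 2 ≤ m * p := by omega
  have hM0 : m * p ≠ 0 := by omega
  set I : Ideal (OO A B) := (idl m : Ideal (OO A B)) * P' with hI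
  have hIM : idl (A := A) (B := B) (m * p) ≤ I := le_lv hPP'
  have hMb : idl (A := A) (B := B) (m * p) ≠ ⊥ := idl_ne hM0
  have hIb : I ≠ ⊥ := fun h => hMb (le_bot_iff.1 (h ▸ hIM))
  have hIm : I ≤ idl (A := A) (B := B) m := Ideal.mul_le_left
  have hex : ∃ (b : Ideal (OO A B)) (L : PeriodPair) (om : ℂ), IsNL b L om :=
    ⟨_, _, _, R.nl R.i0⟩
  have h1I : (1 : OO A B) ∉ I := by
    intro h
    obtain ⟨t, ht⟩ := Ideal.mem_span_singleton.1 (hIm h)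
    exact Pool.Agent.MUXI.Hit.not_unit m (by omega) t ht
  have hx0M : x0 ∉ idl (A := A) (B := B) (m * p) := by
    intro h
    apply h1I
    apply e3
    rwa [one_mul]
  obtain ⟨hmul, hez, hint, -, -⟩ := Pool.Agent.MUXF.xf_ALG A B (Pool.Agent.MUXY.cqF hCQ)
  have hem : ∀ x y : OO A B, emb (x * y) = emb x * emb y := fun x y => (hmul x y).1
  have hea : ∀ x y : OO A B, emb (x + y) = emb x + emb y := fun x y => (hmul x y).2.1
  have heN : ∀ k : ℕ, emb ((k : ℕ) : OO A B) = (k : ℂ) := fun k => by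
    have := (hint (k : ℤ)).1
    rwa [Int.cast_natCast, Int.cast_natCast] at this
  have hes : ∀ x y : OO A B, emb (x - y) = emb x - emb y := by
    intro x y
    have h1 := hea (x - y) y
    rw [sub_add_cancel] at h1
    linear_combination -h1
  have hMC : ((m * p : ℕ) : ℂ) ≠ 0 := by exact_mod_cast hM0
  have hadd : ∀ x y : OO A B, Pool.Agent.MUX.pt R (m * p) R.i0 (x + y) =
      Pool.Agent.MUX.pt R (m * p) R.i0 x + Pool.Agent.MUX.pt R (m * p) R.i0 y := by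
    intro x y
    unfold Pool.Agent.MUX.pt
    rw [hea]
    ring
  have hsub : ∀ x y : OO A B, Pool.Agent.MUX.pt R (m * p) R.i0 (x - y) =
      Pool.Agent.MUX.pt R (m * p) R.i0 x - Pool.Agent.MUX.pt R (m * p) R.i0 y := by
    intro x y
    unfold Pool.Agent.MUX.pt
    rw [hes]
    ring
  have hptM : ∀ x : OO A B, Pool.Agent.MUX.pt R (m * p) R.i0 x ∈ (R.L R.i0).lattice →
      x ∈ idl (A := A) (B := B) (m * p) := fun x h =>
    Pool.Agent.MUXI.Hit.pt_mem hCQ Pool.Agent.MUXF.xf_ALG R (m * p) hM0 R.i0 (hm.cop _) x h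
  -- (1)
  have c1 : (RF I : IntermediateField (kk A B) ℂ) ≤ RF (idl (m * p)) := hT.mono _ _ hIM
  -- (2)
  have c2 : ∀ c ∈ T, ∀ y : (RF (idl (m * p)) : IntermediateField (kk A B) ℂ),
      (y : ℂ) ∈ (RF I : IntermediateField (kk A B) ℂ) → γ c y = y := by
    intro c hc y hy
    obtain ⟨hxc, s, hs, hsv, hh⟩ := hγ c hc
    have hIA := (j_HIT A B hCQ hT _ ι R (m * p) hM2 hm.cop s hs R.i0 _ hxc).1 hh
    obtain ⟨-, -, -, -, -, -, j7, -⟩ := j_IAF A B hCQ hT hex _ hMb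
    obtain ⟨-, -, -, -, -, j6, -, -⟩ := j_IAF A B hCQ hT hex _ hIb
    have h3 := j7 s _ I hIM hIA
    have h4 := (j6 s _ h3).2 ⟨x0 + c * m * y0, (e1 c (hRep.nz c hc)).2, by
      rw [R.b0]
      have : cjI (⊤ : Ideal (OO A B)) = ⊤ := Ideal.comap_top
      rw [this, Ideal.mul_top]⟩ y hy
    apply Subtype.ext
    rw [← hsv, h4]
  -- (3)
  have hTor : Tor I (R.L R.i0) (Pool.Agent.MUX.pt R (m * p) R.i0 x0) := by
    intro y hy
    obtain ⟨t, ht⟩ := Ideal.mem_span_singleton.1 (e4 y hy)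
    refine ((R.nl R.i0).mem _).2 ⟨((nI (R.b R.i0) : ℕ) : OO A B) * t, by rw [R.b0]; trivial, ?_⟩
    unfold Pool.Agent.MUX.pt
    have h2 : emb y * emb x0 = emb ((m * p : ℕ) : OO A B) * emb t := by
      rw [← hem, ← hem, ht]
    rw [heN] at h2
    rw [hem ((nI (R.b R.i0) : ℕ) : OO A B), heN]
    rw [show emb y * (R.om R.i0 * (nI (R.b R.i0) : ℂ) * emb x0 / ((m * p : ℕ) : ℂ)) =
      R.om R.i0 * (nI (R.b R.i0) : ℂ) * (emb y * emb x0) / ((m * p : ℕ) : ℂ) by ring, h2]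
    field_simp
  have hptx0 : Pool.Agent.MUX.pt R (m * p) R.i0 x0 ∉ (R.L R.i0).lattice := fun h =>
    hx0M (hptM x0 h)
  have c3 : xn (R.L R.i0) (Pool.Agent.MUX.pt R (m * p) R.i0 x0) ∈
      (RF I : IntermediateField (kk A B) ℂ) :=
    IntermediateField.subset_adjoin _ _ ⟨_, _, _, R.nl R.i0, Or.inr ⟨_, hTor, hptx0, rfl⟩⟩
  refine ⟨c1, c2, c3, ?_⟩
  -- (4)
  intro σ hσ
  obtain ⟨f1, -, f3, f4, -, -⟩ := t_HTF A B hCQ hT (p * f) ι R (m * p) hM3 hm.cop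
  obtain ⟨i, x, hb⟩ := f1 σ
  have hi : i = R.i0 := by
    obtain ⟨-, s, -, hsv, hh⟩ := hb
    have hkT : kap (R.L R.i0) ∈ (RF (⊤ : Ideal (OO A B)) : IntermediateField (kk A B) ℂ) :=
      IntermediateField.subset_adjoin _ _ ⟨_, _, _, R.nl R.i0, Or.inl rfl⟩
    have hkF : kap (R.L R.i0) ∈ (RF (idl (m * p)) : IntermediateField (kk A B) ℂ) :=
      hT.mono _ _ le_top hkT
    have hkI : kap (R.L R.i0) ∈ (RF I : IntermediateField (kk A B) ℂ) :=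
      hT.mono _ _ le_top hkT
    have h1 : s (kap (R.L R.i0)) = kap (R.L R.i0) := by
      have h2 := hsv ⟨_, hkF⟩
      rw [hσ ⟨_, hkF⟩ hkI] at h2
      exact h2
    have h2 : kap (R.L i) = kap (R.L R.i0) := by rw [hh.1, h1]
    obtain ⟨h3, h4⟩ := Pool.Agent.TWT.NRR.cj (RingEquiv.refl ℂ) (R.nl R.i0).nrm (R.nl i).nrm h2.symm
    exact Pool.Agent.MUXY.y_UNJ A B hCQ _ ι R i R.i0 h3 h4
  subst hi
  have hxc := hb.1
  have hb' := hb
  obtain ⟨-, s, hs, hsv, hh⟩ := hb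
  have hIA := (j_HIT A B hCQ hT _ ι R (m * p) hM2 hm.cop s hs R.i0 x hxc).1 hh
  obtain ⟨-, k2, k3, -, -⟩ :=
    Pool.Agent.TWT.HTF.act_pt hCQ R (m * p) hM2 hm.cop s R.i0 x hxc hIA x0 hx0M
  have h5 : s (xn (R.L R.i0) (Pool.Agent.MUX.pt R (m * p) R.i0 x0)) =
      xn (R.L R.i0) (Pool.Agent.MUX.pt R (m * p) R.i0 x0) := by
    have h2 := hsv ⟨_, c1 c3⟩
    rw [hσ ⟨_, c1 c3⟩ c3] at h2
    exact h2
  have h6 : (R.L R.i0).weierstrassP (Pool.Agent.MUX.pt R (m * p) R.i0 (x * x0)) =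
      (R.L R.i0).weierstrassP (Pool.Agent.MUX.pt R (m * p) R.i0 x0) := by
    rw [h5] at k2
    unfold xn at k2
    linear_combination -k2
  -- from a congruence to the automorphism
  have fin : ∀ (c : OO A B), c ∈ T → (x - (x0 + c * m * y0) ∈ idl (A := A) (B := B) (m * p) ∨
      x + (x0 + c * m * y0) ∈ idl (A := A) (B := B) (m * p)) → ∃ c ∈ T, σ = γ c := by
    intro c hc h
    have h7 := (f3 σ R.i0 R.i0 x _ hb' (e1 c (hRep.nz c hc)).1).2 ⟨rfl, h⟩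
    exact ⟨c, hc, f4 σ (γ c) R.i0 _ h7 (hγ c hc)⟩
  rcases b_NEQ (R.L R.i0) _ _ hptx0 k3 h6 with h | h
  · rw [← hsub] at h
    have h7 := e3 (x - 1) (by
      have := hptM _ h
      rwa [show x * x0 - x0 = (x - 1) * x0 by ring] at this)
    obtain ⟨c, hc, h8⟩ := e2 T hRep x hxc h7
    exact fin c hc (Or.inl h8)
  · rw [← hadd] at h
    have h7 := e3 (x + 1) (by
      have := hptM _ h
      rwa [show x * x0 + x0 = (x + 1) * x0 by ring] at this)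
    obtain ⟨c, hc, h8⟩ := e2 T hRep (-x) hxc.neg_left (by
      rw [show -x - 1 = -(x + 1) by ring]
      exact neg_mem h7)
    refine fin c hc (Or.inr ?_)
    have := neg_mem h8
    rwa [show -(-x - (x0 + c * m * y0)) = x + (x0 + c * m * y0) by ring] at this

end

end Pool.Agent.TWQ


end
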