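import Pool.Agent.MVF.C170
import Pool.Agent.TWM.C06
import Pool.Agent.TWM.C14
import Pool.Agent.TWM.C15
import Pool.Agent.TWM.C26
import Pool.Agent.TWZ.C01
import Pool.Agent.TWZ.C02
import Pool.Agent.TWZ.C03
import Pool.Agent.TWZ.C04
import Pool.Agent.TWZ.C05
import Pool.Agent.TWZ.C06

/-! Parts: TWQ.BAllQ, TWQ.RGMQ, TWQ.SALQ, TWQ.ERQ, TWQ.CAll -/

section

/-!
# TWQ, block B': all modules without hypotheses (helper34)
-/

set_option autoImplicit false

namespace Pool.Agent.TWQ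

theorem a_IDQ : S_IDQ := t_IDQ
theorem a_VPQ : S_VPQ := t_VPQ
theorem a_TEQ : S_TEQ := t_TEQ
theorem a_THQ : S_THQ := t_THQ a_IDQ a_TEQ
theorem a_KINS : S_KINS := t_KINS
theorem a_UNRQ : S_UNRQ := t_UNRQ a_KINS a_IDQ
theorem a_GFQ : S_GFQ := t_GFQ a_IDQ
theorem a_LOQI : S_LOQI := t_LOQI
theorem a_LOQS : S_LOQS := t_LOQS
theorem a_KEYQ : S_KEYQ := t_KEYQ a_IDQ a_VPQ a_TEQ
theorem a_FIQ : S_FIQ := t_FIQ a_IDQ a_VPQ a_TEQ a_UNRQ a_GFQ a_KEYQ
theorem a_DLQ : S_DLQ := t_DLQ a_IDQ a_KEYQ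
theorem a_RSQ : S_RSQ := t_RSQ
theorem a_SDQ : S_SDQ := t_SDQ a_IDQ a_TEQ a_THQ
theorem a_SIGQ : S_SIGQ := t_SIGQ a_IDQ a_TEQ a_THQ

/-- (CRTQ) without hypotheses -/
theorem a_CRTQ : S_CRTQ :=
  t_CRTQ a_IDQ a_VPQ a_TEQ a_THQ a_LOQI a_LOQS a_FIQ a_DLQ a_RSQ a_SDQ a_SIGQ

end Pool.Agent.TWQ


end

section

/-!
# TWQ, module RGMQ (helper62): automorphisms of `RF (idl M)` trivial on `RF (idl m)`
-/

set_option autoImplicit false

open WeierstrassCurve Polynomial NumberField IsDedekindDomain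

namespace Pool.Agent.TWQ

open _root_.MU3 Pool.Agent.MU3 Pool.Agent.MU3A Pool.Agent.MU3B Pool.Agent.MU3C Pool.Agent.RI
  Pool.Agent.RID
open Pool.Agent.MUX Pool.Agent.MUXU Pool.Agent.MUXW Pool.Agent.TWT Pool.Agent.TWI
open Pool.Agent.MU3V (cls Sub GD algDF)
open Pool.Agent.MUXV (GR InK tX)
open Pool.Agent.MUXI (IA RE AR)
open OnePoint

noncomputable section

namespace RGMQ

variable {A B : ℤ}

/-- the generators of `RF (idl m)` at the base point -/
lemma base (hQ : CQ A B) {n : ℕ} {ι : Type} (R : Reps A B n ι) (m : ℕ) (hm : 3 ≤ m)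
    (hcop : ∀ i, (nI (R.b i)).Coprime m) :
    kap (R.L R.i0) ∈ (RF (idl m) : IntermediateField (kk A B) ℂ) ∧
    xn (R.L R.i0) (Pool.Agent.MUX.pt R m R.i0 1) ∈
      (RF (idl m) : IntermediateField (kk A B) ℂ) ∧
    Pool.Agent.MUX.pt R m R.i0 1 ∉ (R.L R.i0).lattice := by
  have hm0 : m ≠ 0 := by omega
  have h1M : (1 : OO A B) ∉ idl (A := A) (B := B) m := by
    intro h
    obtain ⟨t, ht⟩ := Ideal.mem_span_singleton.1 h
    exact Pool.Agent.MUXI.Hit.not_unit m (by omega) t ht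
  have hL : IsNL (⊤ : Ideal (OO A B)) (R.L R.i0) (R.om R.i0) := by
    have := R.nl R.i0
    rwa [R.b0] at this
  have hpt1 : Pool.Agent.MUX.pt R m R.i0 1 = R.om R.i0 / m := by
    have hN0 : nI (R.b R.i0) = 1 := by
      rw [R.b0]
      change Nat.card (OO A B ⧸ (⊤ : Ideal (OO A B))) = 1
      have : Subsingleton (OO A B ⧸ (⊤ : Ideal (OO A B))) :=
        Ideal.Quotient.subsingleton_iff.2 rfl
      exact Nat.card_unique
    obtain ⟨-, -, hint, -, -⟩ := Pool.Agent.MUXF.xf_ALG A B (Pool.Agent.MUXY.cqF hQ)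
    have he1 : emb (1 : OO A B) = 1 := by
      have := (hint 1).1
      simpa using this
    unfold Pool.Agent.MUX.pt
    rw [hN0, he1]
    simp
  have hz1 : Pool.Agent.MUX.pt R m R.i0 1 ∉ (R.L R.i0).lattice := fun h =>
    h1M (Pool.Agent.MUXI.Hit.pt_mem hQ Pool.Agent.MUXF.xf_ALG R m hm0 R.i0 (hcop _) 1 h)
  have hTor1 : Tor (idl (A := A) (B := B) m) (R.L R.i0) (Pool.Agent.MUX.pt R m R.i0 1) := by
    obtain ⟨hmul, -, hint, -, -⟩ := Pool.Agent.MUXF.xf_ALG A B (Pool.Agent.MUXY.cqF hQ)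
    have heN : ∀ k : ℕ, emb ((k : ℕ) : OO A B) = (k : ℂ) := fun k => by
      have := (hint (k : ℤ)).1
      rwa [Int.cast_natCast, Int.cast_natCast] at this
    have hmC : (m : ℂ) ≠ 0 := by exact_mod_cast hm0
    intro y hy
    obtain ⟨t, rfl⟩ := Ideal.mem_span_singleton.1 hy
    refine (hL.mem _).2 ⟨t, trivial, ?_⟩
    rw [(hmul _ _).1, heN, hpt1]
    field_simp
  exact ⟨IntermediateField.subset_adjoin _ _ ⟨_, _, _, hL, Or.inl rfl⟩,
    IntermediateField.subset_adjoin _ _ ⟨_, _, _, hL, Or.inr ⟨_, hTor1, hz1, rfl⟩⟩, hz1⟩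

end RGMQ

theorem t_RGMQ : S_RGMQ := by
  intro A B hQ hT n ι R m M hmM hM0 hm3 hcop σ hσ i x hx
  have hm0 : m ≠ 0 := by omega
  have hM3 : 3 ≤ M := le_trans hm3 (Nat.le_of_dvd (Nat.pos_of_ne_zero hM0) hmM)
  have hcopm : ∀ i, (nI (R.b i)).Coprime m := fun i => (hcop i).coprime_dvd_right hmM
  obtain ⟨D, hDeq⟩ : ∃ D : IntermediateField ℚ ℂ, ∀ z : ℂ, z ∈ D ↔
      z ∈ (RF (idl m) : IntermediateField (kk A B) ℂ) :=
    ⟨IntermediateField.restrictScalars ℚ (RF (idl m) : IntermediateField (kk A B) ℂ),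
      fun z => Iff.rfl⟩
  have h : kk A B ≤ D := fun z hz => (hDeq z).2
    ((RF (idl m) : IntermediateField (kk A B) ℂ).algebraMap_mem ⟨z, hz⟩)
  have hD : Sub D (RF (idl m) : IntermediateField (kk A B) ℂ) := fun z hz => (hDeq z).1 hz
  obtain ⟨-, -, -, -, -, h6⟩ := t_HTF A B hQ hT n ι R M hM3 hcop
  have h7 := h6 m hmM hm3 D h hD
  let _ := algC h
  have h8 := h7 AlgEquiv.refl σ i x (fun y hy => by
    have h9 := hσ ⟨(y : ℂ), hy⟩ ((hDeq _).1 y.2)
    rw [h9]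
    rfl) hx
  obtain ⟨-, s, hs, hext, hhit⟩ := h8
  have hfix : ∀ z : ℂ, z ∈ (RF (idl m) : IntermediateField (kk A B) ℂ) → s z = z :=
    fun z hz => hext ⟨z, (hDeq z).2 hz⟩
  obtain ⟨b1, b2, b3⟩ := RGMQ.base hQ R m hm3 hcopm
  have hh1 : Hits R m s R.i0 1 := ⟨(hfix _ b1).symm, hfix _ b2, b3⟩
  obtain ⟨j, y, -, -, -, hiff⟩ := y_HIT A B hQ hT n ι R m hm0 hcopm
    (HTF.not_dvd_two m hm3) s hs
  obtain ⟨e0, e1⟩ := (hiff R.i0 1).1 hh1
  obtain ⟨f0, f1⟩ := (hiff i _).1 hhit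
  refine ⟨f0.trans e0.symm, ?_⟩
  obtain ⟨x', hx'⟩ : ∃ x' : OO A B, x' = Quotient.out
      (Ideal.Quotient.mk (idl (A := A) (B := B) m) x) := ⟨_, rfl⟩
  have hxx : ((m : ℕ) : OO A B) ∣ x' - x := by
    rw [← Ideal.mem_span_singleton]
    apply (Ideal.Quotient.mk_eq_mk_iff_sub_mem _ _).1
    rw [hx']
    exact Quotient.out_eq _
  have f1' : ((m : ℕ) : OO A B) ∣ x' - y ∨ ((m : ℕ) : OO A B) ∣ x' + y := by
    rw [hx']
    exact f1
  rw [Ideal.mem_span_singleton, Ideal.mem_span_singleton]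
  rcases e1 with e1 | e1 <;> rcases f1' with f1 | f1
  · left
    have := dvd_sub (dvd_sub f1 hxx) e1
    rwa [show x' - y - (x' - x) - (1 - y) = x - 1 by ring] at this
  · right
    have := dvd_add (dvd_sub f1 hxx) e1
    rwa [show x' + y - (x' - x) + (1 - y) = x + 1 by ring] at this
  · right
    have := dvd_add (dvd_sub f1 hxx) e1
    rwa [show x' - y - (x' - x) + (1 + y) = x + 1 by ring] at this
  · left
    have := dvd_sub (dvd_sub f1 hxx) e1
    rwa [show x' + y - (x' - x) - (1 + y) = x - 1 by ring] at this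

end

end Pool.Agent.TWQ


end

section

/-!
# TWQ_SALQ: the sum over all `x` is small (helper30)
-/

set_option autoImplicit false

open WeierstrassCurve Polynomial NumberField IsDedekindDomain

namespace Pool.Agent.TWQ

open _root_.MU3 Pool.Agent.MU3A Pool.Agent.MU3B Pool.Agent.MU3C Pool.Agent.RI Pool.Agent.RID
open Pool.Agent.MUX Pool.Agent.MUXU Pool.Agent.MUXW Pool.Agent.TWT Pool.Agent.TWI
open Pool.Agent.MU3V (cls Sub GD algDF)
open Pool.Agent.MUXV (GR InK tX)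
open Pool.Agent.MUXI (IA RE AR)
open OnePoint

noncomputable section

namespace SALQ

theorem mem_left {R : Type} [CommRing R] {I J : Ideal R} {x : R} (h : x ∈ I * J) : x ∈ I :=
  (Ideal.mul_le_inf h).1

theorem mem_right {R : Type} [CommRing R] {I J : Ideal R} {x : R} (h : x ∈ I * J) : x ∈ J :=
  (Ideal.mul_le_inf h).2

theorem span_of_dvd {R : Type} [CommRing R] {a b : ℕ} (h : a ∣ b) {x : R}
    (hx : x ∈ Ideal.span {((b : ℕ) : R)}) : x ∈ Ideal.span {((a : ℕ) : R)} := by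
  rw [Ideal.mem_span_singleton] at hx ⊢
  exact (Nat.cast_dvd_cast h).trans hx

theorem span_prod {R : Type} [CommRing R] {m p : ℕ} {P P' : Ideal R}
    (hPP : P * P' = Ideal.span {((p : ℕ) : R)}) {x : R}
    (hx : x ∈ Ideal.span {((m * p : ℕ) : R)}) : x ∈ Ideal.span {((m : ℕ) : R)} * P' := by
  obtain ⟨t, rfl⟩ := Ideal.mem_span_singleton.1 hx
  have h7 : ((p : ℕ) : R) ∈ P * P' := by
    rw [hPP]
    exact Ideal.mem_span_singleton_self _
  have h8 : ((m * p : ℕ) : R) * t = ((m : ℕ) : R) * (((p : ℕ) : R) * t) := by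
    push_cast
    ring
  rw [h8]
  exact Ideal.mul_mem_mul (Ideal.mem_span_singleton_self _) (P'.mul_mem_right _ (mem_right h7))

theorem cop_prod {R : Type} [CommRing R] {f l n : ℕ} (hlf : l ∣ f) {x : R}
    (h : IsCoprime x ((f : ℕ) : R)) : IsCoprime x ((f * l ^ n : ℕ) : R) := by
  have h8 : IsCoprime x ((l : ℕ) : R) := h.of_isCoprime_of_dvd_right (Nat.cast_dvd_cast hlf)
  rw [Nat.cast_mul, Nat.cast_pow]
  exact h.mul_right h8.pow_right

variable {A B : ℤ} {n' : ℕ} {ι : Type}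

open Pool.Agent.TWT.SDE in
theorem per (R : Reps A B n' ι) (kp : ι → ℂ) (eta w : OO A B → ℂ) (f l n b : ℕ)
    (P P' : Ideal (OO A B)) (hper : ∀ x y, x - y ∈ (idl f : Ideal (OO A B)) → eta x = eta y)
    (wper : ∀ x y, x - y ∈ P → w x = w y) (hbb : b = 0 ∨ P' = cjI P)
    (ψ : DirichletCharacter ℂ (l ^ n)) (i : ι) (x y : OO A B)
    (hxy : x - y ∈ (idl (f * l ^ n) : Ideal (OO A B)) * P') :
    thP R kp eta ψ w b i x = thP R kp eta ψ w b i y := by
  have hm1 : x - y ∈ idl (A := A) (B := B) (f * l ^ n) := mem_left hxy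
  have hm2 : x - y ∈ P' := mem_right hxy
  have hmf : x - y ∈ idl (A := A) (B := B) f := span_of_dvd ⟨l ^ n, rfl⟩ hm1
  have hml : x - y ∈ idl (A := A) (B := B) (l ^ n) := span_of_dvd ⟨f, mul_comm _ _⟩ hm1
  have e1 : w (star x) ^ b = w (star y) ^ b := by
    rcases hbb with hb | hP'
    · rw [hb, pow_zero, pow_zero]
    · rw [hP'] at hm2
      have h6 : star (x - y) ∈ P := hm2
      rw [star_sub] at h6
      rw [wper _ _ h6]
  have e2 : ((nm x * (nI (R.b i) : ℤ) : ℤ) : ZMod (l ^ n)) =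
      ((nm y * (nI (R.b i) : ℤ) : ℤ) : ZMod (l ^ n)) := by
    rw [← sub_eq_zero, ← Int.cast_sub, ZMod.intCast_zmod_eq_zero_iff_dvd, ← sub_mul]
    exact (nm_per (l ^ n) hml).mul_right _
  unfold thP thT
  rw [e1, e2, hper x y hmf]

theorem cop (R : Reps A B n' ι) (kp : ι → ℂ) (eta w : OO A B → ℂ) (f l n b : ℕ) (hlf : l ∣ f)
    (hs : ∀ x, eta x ≠ 0 ↔ IsCoprime (sp x) (idl f : Ideal (OO A B)))
    (ψ : DirichletCharacter ℂ (l ^ n)) (i : ι) (x : OO A B)
    (hx : thP R kp eta ψ w b i x ≠ 0) : IsCoprime x ((f * l ^ n : ℕ) : OO A B) := by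
  have h6 : eta x ≠ 0 := by
    intro h7
    apply hx
    unfold thP thT
    rw [h7, mul_zero, zero_mul, zero_mul]
  have h7 : IsCoprime x ((f : ℕ) : OO A B) := by
    have h8 := (hs x).1 h6
    rwa [Ideal.isCoprime_span_singleton_iff] at h8
  exact cop_prod hlf h7

open Pool.Agent.TWT.SDE in
theorem val (V : ValuationSubring ℂ) (R : Reps A B n' ι) (kp : ι → ℂ) (eta w : OO A B → ℂ)
    (q b r : ℕ) [NeZero q] (hr0 : r ≠ 0) (hr1 : ∀ i, kp i ^ r = 1)
    (hr2 : ∀ x, eta x ≠ 0 → eta x ^ r = 1) (hw : ∀ x, V.valuation (w x) ≤ 1)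
    (ψ : DirichletCharacter ℂ q) (i : ι) (x : OO A B) :
    V.valuation (thP R kp eta ψ w b i x) ≤ 1 := by
  unfold thP thT
  rw [map_mul, map_mul, map_mul, map_pow]
  have e1 : V.valuation (kp i) ≤ 1 := (val_root V hr0 (hr1 i)).le
  have e2 : V.valuation (eta x) ≤ 1 := by
    by_cases hx : eta x = 0
    · rw [hx, map_zero]
      exact zero_le_one
    · exact (val_root V hr0 (hr2 x hx)).le
  exact mul_le_one' (mul_le_one' (mul_le_one' e1 e2)
    (Pool.Agent.TWB.TWBAux.chi_val V _ ψ _)) (pow_le_one' (hw _) b)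

open Pool.Agent.TWT.SDE in
theorem thP_mul (R : Reps A B n' ι) (kp : ι → ℂ) (eta w : OO A B → ℂ) (q b a : ℕ)
    (hmul : ∀ x y, eta (x * y) = eta x * eta y) (wmul : ∀ x y, w (x * y) = w x * w y)
    (e1 : eta ((a : OO A B)) = 1) (e2 : w ((a : OO A B)) = 1)
    (ψ : DirichletCharacter ℂ q) (i : ι) (x : OO A B) :
    thP R kp eta ψ w b i ((a : OO A B) * x) =
      ψ (((a : ℤ) ^ 2 : ℤ) : ZMod q) * thP R kp eta ψ w b i x := by
  have e3 : (((a : ℤ) ^ 2 * nm x * (nI (R.b i) : ℤ) : ℤ) : ZMod q) =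
      (((a : ℤ) ^ 2 : ℤ) : ZMod q) *
        ((nm x * (nI (R.b i) : ℤ) : ℤ) : ZMod q) := by
    push_cast
    ring
  unfold thP thT
  rw [hmul, e1, nm_nat_mul, e3, map_mul, star_mul', star_natCast, wmul, e2]
  ring

open Pool.Agent.TWT.SDE in
theorem sums [Fintype ι] (hcq : CQ A B) (R : Reps A B n' ι) (M a : ℕ) (hM0 : M ≠ 0)
    (haM : a.Coprime M) (E : ι → OO A B → ℂ) (c : ℂ) (hc0 : c ≠ 0)
    (hE : ∀ (i : ι) (x : OO A B), E i ((a : OO A B) * x) = c * E i x)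
    (hper : ∀ i x y, x - y ∈ Ideal.span {((M : ℕ) : OO A B)} → E i x = E i y) :
    DAll R M a E = ((a : ℂ) * c⁻¹ - (a : ℂ) ^ 2) * SAll R M E := by
  have hcO : IsCoprime ((a : ℕ) : OO A B) ((M : ℕ) : OO A B) := by
    have h5 := (Nat.isCoprime_iff_coprime.2 haM).map (Int.castRingHom (OO A B))
    simpa using h5
  have hfin := finR (A := A) (B := B) M hM0
  have key : ∀ i : ι, sumMod ((M : ℕ) : OO A B) (fun x =>
      E i x * dlX (R.L i) a (pt R M i x)) =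
      ((a : ℂ) * c⁻¹ - (a : ℂ) ^ 2) * sumMod ((M : ℕ) : OO A B) (fun x =>
      E i x * ee (R.L i) (pt R M i x)) := by
    intro i
    obtain ⟨ptp1, ptp2⟩ := Pool.Agent.MUXI.ti_PTP A B hcq n' ι R M hM0 i
    set G : OO A B → ℂ := fun x => E i x * ee (R.L i) (pt R M i x) with hG
    have hGp : ∀ x y, x - y ∈ Ideal.span {((M : ℕ) : OO A B)} → G x = G y := by
      intro x y hxy
      simp only [hG]
      rw [hper i x y hxy, (ptp1 x y hxy).2.1]
    have e1 := sumMod_mul hcO hGp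
    have e2 : sumMod ((M : ℕ) : OO A B) (fun x => E i x * dlX (R.L i) a (pt R M i x)) =
        (a : ℂ) * c⁻¹ *
          sumMod ((M : ℕ) : OO A B) (fun x => G (((a : ℕ) : OO A B) * x)) -
        (a : ℂ) ^ 2 * sumMod ((M : ℕ) : OO A B) G := by
      rw [← sumMod_cmul, ← sumMod_cmul, ← sumMod_sub hfin]
      congr 1
      funext x
      simp only [hG]
      rw [hE, ← ptp2]
      unfold dlX
      field_simp
    rw [e2, e1]
    ring
  unfold DAll SAll
  rw [Finset.mul_sum]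
  refine Finset.sum_congr rfl fun i _ => ?_
  rw [key i]
  ring

open Pool.Agent.TWT.SDE in
theorem factor (V : ValuationSubring ℂ) (p : ℕ) (hpp : p.Prime) (vp : V.valuation (p : ℂ) < 1)
    (a N : ℕ) (hN : ¬ p ∣ N) (c : ℂ) (hc : c ^ N = 1) (hc1 : c ≠ 1)
    (hva : V.valuation (a : ℂ) = 1) (hva1 : V.valuation (1 - (a : ℂ)) < 1) :
    c ≠ 0 ∧ V.valuation ((a : ℂ) * c⁻¹ - (a : ℂ) ^ 2) = 1 := by
  have hN0 : N ≠ 0 := fun hh => hN (hh ▸ dvd_zero p)
  have hvc : V.valuation c = 1 := val_root V hN0 hc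
  have hc0 : c ≠ 0 := by
    intro hh
    rw [hh, map_zero] at hvc
    exact zero_ne_one hvc
  have hvc1 : V.valuation (1 - c) = 1 := by
    refine le_antisymm ?_ ?_
    · refine (Valuation.map_sub _ _ _).trans ?_
      rw [map_one, hvc, max_self]
    · by_contra hh
      rw [not_le, Valuation.map_sub_swap] at hh
      exact hc1 (Pool.Agent.TWX.eq_one_of_congr V p hpp vp _ hN c hc hh)
  have hvac : V.valuation (1 - (a : ℂ) * c) = 1 := by
    have h6 : 1 - (a : ℂ) * c = (1 - (a : ℂ)) * c + (1 - c) := by ring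
    rw [h6, Valuation.map_add_eq_of_lt_right, hvc1]
    rw [map_mul, hvc, mul_one, hvc1]
    exact hva1
  refine ⟨hc0, ?_⟩
  have h6 : (a : ℂ) * c⁻¹ - (a : ℂ) ^ 2 = (a : ℂ) * c⁻¹ * (1 - (a : ℂ) * c) := by
    field_simp
  rw [h6, map_mul, map_mul, map_inv₀, hva, hvc, hvac, inv_one, one_mul, one_mul]

theorem root (l n p : ℕ) (hl : l.Prime) (hpp : p.Prime) (hpl : ¬ p ∣ l) (hpl1 : ¬ p ∣ l - 1)
    (a : ℕ) (hal : a.Coprime l) (ψ : DirichletCharacter ℂ (l ^ n)) :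
    ψ (((a : ℤ) ^ 2 : ℤ) : ZMod (l ^ n)) ^ (l ^ n).totient = 1 ∧ ¬ p ∣ (l ^ n).totient := by
  constructor
  · have hu : IsUnit (((a : ℤ) ^ 2 : ℤ) : ZMod (l ^ n)) := by
      have h5 : (((a : ℤ) ^ 2 : ℤ) : ZMod (l ^ n)) = ((a : ℕ) : ZMod (l ^ n)) ^ 2 := by
        push_cast
        ring
      rw [h5]
      exact ((ZMod.isUnit_iff_coprime a (l ^ n)).2 (Nat.Coprime.pow_right _ hal)).pow 2
    obtain ⟨u, hu⟩ := hu
    rw [← hu, ← map_pow, ← Units.val_pow_eq_pow_val, ZMod.pow_totient, Units.val_one, map_one]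
  · rcases Nat.eq_zero_or_pos n with hn0 | hn0
    · rw [hn0, pow_zero, Nat.totient_one]
      exact fun hd => hpp.one_lt.ne' (Nat.dvd_one.1 hd)
    · rw [Nat.totient_prime_pow hl hn0, hpp.dvd_mul]
      rintro (hd | hd)
      · exact hpl (hpp.dvd_of_dvd_pow hd)
      · exact hpl1 hd

end SALQ

open Pool.Agent.TWR Pool.Agent.TWT.SDE in
theorem t_SALQ (h0 : S_DLCQ) (h1 : S_IDQ) (h2 : S_VPQ) (h3 : S_TEQ) (h4 : S_LOQI)
    (h5 : S_LOQS) : S_SALQ := by
  intro l g h hG p q A B P P' V f hS hlf ι _ R hR w hw kp eta e b hC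
  obtain ⟨⟨hcq, hpp, hp5, -, -, -, hf0, hpf, -, hPP, -⟩, id2, -, -, id5, -⟩ :=
    h1 p q A B P P' V f hS
  obtain ⟨vp, -, -, vn, -⟩ := h2 p q A B P P' V f hS
  obtain ⟨w1, wmul, wper, wzero, wroot, -, wred, -⟩ := h3 p q A B P P' V f hS w hw
  have hl : l.Prime := by
    rcases hG with ⟨rfl, -⟩ | ⟨rfl, -⟩
    · exact Nat.prime_three
    · exact Nat.prime_two
  have hl3 : l ≤ 3 := by
    rcases hG with ⟨rfl, -⟩ | ⟨rfl, -⟩ <;> omega
  have hl6 : l ∣ 6 := by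
    rcases hG with ⟨rfl, -⟩ | ⟨rfl, -⟩
    · exact ⟨2, rfl⟩
    · exact ⟨3, rfl⟩
  have hpl : ¬ p ∣ l := fun hd => by
    have := Nat.le_of_dvd hl.pos hd
    omega
  have hpl1 : ¬ p ∣ l - 1 := fun hd => by
    have := Nat.le_of_dvd (Nat.sub_pos_of_lt hl.one_lt) hd
    omega
  -- the point `y0`
  obtain ⟨x0, y0, hL⟩ := id5 3 le_rfl (fun hd => by
    have := Nat.le_of_dvd (by norm_num) hd
    omega)
  have hIn : ∀ (i : ι) (x : OO A B), x ∉ P → InEn V (R.L i) (pt R p i (x * y0)) := by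
    have hq : p ≠ p ^ 2 := fun hh => by
      have h6 : p ^ 2 = p * p := sq p
      have h7 : p * 1 < p * p := Nat.mul_lt_mul_of_pos_left (by omega) (by omega)
      omega
    obtain ⟨h3f, ⟨hI, -, hqq⟩ | ⟨hI, hP', hqq⟩⟩ := hS
    · have hT : TeiI p P V w := by
        rcases hw with ⟨-, hw⟩ | ⟨hw, -⟩
        · exact hw
        · exact absurd (hw.symm.trans hqq) hq
      obtain ⟨t0, ht⟩ := h4 p A B P V f hI h3f ι R hR y0 hL.yP
      intro i x hx
      obtain ⟨a2, a4, lam, -, -, hloc⟩ := (ht w hT).loc i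
      exact (hloc x hx).1
    · have hT : TeiP p P V w := by
        rcases hw with ⟨hw, -⟩ | ⟨-, hw⟩
        · exact absurd (hqq.symm.trans hw) hq
        · exact hw
      obtain ⟨t0, ht⟩ := h5 p A B P V f hI h3f ι R hR y0 (hP' ▸ hL.yP') hL.yP
      intro i x hx
      obtain ⟨a2, a4, lam, -, -, hloc⟩ := (ht w hT).loc i
      exact (hloc x hx).1
  -- the number `a`
  obtain ⟨a, ha⟩ : ∃ a : ℕ, a = 6 * f * p + 1 := ⟨_, rfl⟩
  have hfp0 : 0 < f * p := Nat.mul_pos (Nat.pos_of_ne_zero hf0) hpp.pos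
  have ha1 : 1 < a := by
    have : 6 * f * p = 6 * (f * p) := by ring
    omega
  have hac : ∀ d : ℕ, d ∣ 6 * f * p → a.Coprime d := by
    intro d hd
    refine Nat.Coprime.coprime_dvd_right hd ?_
    rw [ha]
    simp
  have haf : a.Coprime f := hac f ⟨6 * p, by ring⟩
  have hap : a.Coprime p := hac p ⟨6 * f, by ring⟩
  have hal : a.Coprime l := Nat.Coprime.coprime_dvd_right hlf haf
  have ha2 : a.Coprime 2 := hac 2 ⟨3 * f * p, by ring⟩
  have ha0 : ((a : ℤ) ^ 2) ≠ 1 := by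
    have h6 : (1 : ℤ) < (a : ℤ) := by exact_mod_cast ha1
    nlinarith
  have haz : (a : ℤ) = 6 * f * p + 1 := by
    rw [ha]
    push_cast
    ring
  have hla : (l : ℤ) ^ 2 ∣ (a : ℤ) ^ 2 - 1 := by
    obtain ⟨u, hu⟩ := hl6
    obtain ⟨v, hv⟩ := hlf
    have hu' : (6 : ℤ) = l * u := by exact_mod_cast hu
    have hv' : (f : ℤ) = l * v := by exact_mod_cast hv
    refine ⟨u * v * p * (a + 1), ?_⟩
    have h6 : (a : ℤ) ^ 2 - 1 = (a - 1) * (a + 1) := by ring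
    have h7 : (a : ℤ) - 1 = (l : ℤ) ^ 2 * (u * v * p) := by
      rw [haz, hu', hv']
      ring
    rw [h6, h7]
    ring
  have hva : V.valuation (a : ℂ) = 1 := by
    have h6 := vn (a : ℤ) (fun hd => by
      have h7 : p ∣ a := by exact_mod_cast hd
      have h8 : p ∣ 1 := by
        rw [← hap.gcd_eq_one]
        exact Nat.dvd_gcd h7 dvd_rfl
      exact hpp.one_lt.ne' (Nat.dvd_one.1 h8))
    simpa using h6
  have hva1 : V.valuation (1 - (a : ℂ)) < 1 := by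
    have h6 : (1 : ℂ) - (a : ℂ) = -((p : ℂ) * ((6 * f : ℕ) : ℂ)) := by
      rw [ha]
      push_cast
      ring
    rw [h6, Valuation.map_neg, map_mul]
    have h7 : V.valuation (((6 * f : ℕ) : ℂ)) ≤ 1 := by
      rw [ValuationSubring.valuation_le_one_iff]
      exact natCast_mem V _
    calc V.valuation (p : ℂ) * V.valuation (((6 * f : ℕ) : ℂ))
        ≤ V.valuation (p : ℂ) * 1 := mul_le_mul_right h7 _
      _ < 1 := by rw [mul_one]; exact vp
  have hea : eta ((a : OO A B)) = 1 := by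
    rw [← hC.one]
    refine hC.per _ _ ?_
    rw [Ideal.mem_span_singleton]
    refine ⟨((6 * p : ℕ) : OO A B), ?_⟩
    rw [ha]
    push_cast
    ring
  have hwa : w ((a : OO A B)) = 1 := by
    rw [← w1]
    refine wper _ _ ?_
    have h6 := (id2 ((a : ℤ) - 1)).2 ⟨6 * f, by rw [haz]; ring⟩
    simpa using h6
  obtain ⟨n0, hn0⟩ := Pool.Agent.TWX.psi_ne_one l hl ((a : ℤ) ^ 2) ha0 hla
  refine ⟨n0, fun n hn ψ hψ => ?_⟩
  have hm0 : f * l ^ n ≠ 0 := mul_ne_zero hf0 (pow_ne_zero _ hl.ne_zero)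
  have hM0 : f * l ^ n * p ≠ 0 := mul_ne_zero hm0 hpp.ne_zero
  have : NeZero (l ^ n) := ⟨pow_ne_zero _ hl.ne_zero⟩
  have ham : a.Coprime (f * l ^ n) := Nat.Coprime.mul_right haf (Nat.Coprime.pow_right _ hal)
  have hpm : ¬ p ∣ f * l ^ n := by
    rw [hpp.dvd_mul]
    rintro (hd | hd)
    · exact hpf hd
    · exact hpl (hpp.dvd_of_dvd_pow hd)
  have hLv : LvM p f (f * l ^ n) R := by
    refine ⟨hm0, ⟨l ^ n, rfl⟩, hpm, fun i => ?_⟩
    have h6 := R.cop i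
    have h7 : (nI (R.b i)).Coprime p := Nat.Coprime.coprime_dvd_right ⟨f, rfl⟩ h6
    have h8 : (nI (R.b i)).Coprime f := Nat.Coprime.coprime_dvd_right ⟨p, mul_comm _ _⟩ h6
    have h9 : (nI (R.b i)).Coprime l := Nat.Coprime.coprime_dvd_right hlf h8
    exact Nat.Coprime.mul_right (Nat.Coprime.mul_right h8 (Nat.Coprime.pow_right _ h9)) h7
  obtain ⟨r, hr, hr1, hr2⟩ := hC.fin
  have hr0 : r ≠ 0 := fun hh => hr (hh ▸ dvd_zero p)
  have hbb : b = 0 ∨ P' = cjI P := by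
    rcases hC.bb with ⟨-, hb⟩ | ⟨hb, -⟩
    · exact Or.inl hb
    · exact Or.inr hb
  have hper := SALQ.per R kp eta w f l n b P P' hC.per wper hbb ψ
  have hlt := h0 p q A B P P' V f hS ι R hR (f * l ^ n) hLv y0 hL.yP' hL.yP hIn
    (thP R kp eta ψ w b) hper (SALQ.cop R kp eta w f l n b hlf hC.supp ψ)
    (SALQ.val V R kp eta w _ b r hr0 hr1 hr2 (fun x => (wred x).1) ψ) a ha1
    (Nat.Coprime.mul_right (Nat.Coprime.mul_right ha2 ham) hap)
  obtain ⟨hcr, htot⟩ := SALQ.root l n p hl hpp hpl hpl1 a hal ψ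
  obtain ⟨hc0, hvf⟩ := SALQ.factor V p hpp vp a _ htot _ hcr (hn0 n hn ψ hψ) hva hva1
  have hD := SALQ.sums hcq R (f * l ^ n * p) a hM0 (Nat.Coprime.mul_right ham hap)
    (thP R kp eta ψ w b) _ hc0 (SALQ.thP_mul R kp eta w _ b a hC.mul wmul hea hwa ψ)
    (fun i x y hxy => hper i x y (SALQ.span_prod hPP hxy))
  rw [hD, map_mul, hvf, one_mul] at hlt
  exact hlt

end

end Pool.Agent.TWQ


end

section

/-!
# TWQ, module ERQ (helper59): a character unramified at `P` and ramified at `P'` has `e' ≥ 2` at `V'`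
-/

set_option autoImplicit false

open WeierstrassCurve Polynomial NumberField IsDedekindDomain

namespace Pool.Agent.TWQ

open _root_.MU3 Pool.Agent.MU3 Pool.Agent.MU3A Pool.Agent.MU3B Pool.Agent.MU3C Pool.Agent.RI
  Pool.Agent.RID
open Pool.Agent.MUX Pool.Agent.MUXU Pool.Agent.MUXW Pool.Agent.TWT Pool.Agent.TWI
open Pool.Agent.TWT.CRB Pool.Agent.MUXW.Mem
open Pool.Agent.MU3V (cls Sub GD algDF)
open Pool.Agent.MUXV (GR InK tX)
open Pool.Agent.MUXI (IA RE AR)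
open OnePoint

noncomputable section

namespace ERQ

/-- a number with the residue `1` -/
theorem val_lt (V : ValuationSubring ℂ) {z : ℂ} (h : rsd V z = 1) : V.valuation (z - 1) < 1 := by
  obtain ⟨hx, he⟩ := rsd_ne V (x := z) (by rw [h]; exact one_ne_zero)
  rw [h] at he
  have h1 : IsLocalRing.residue V (⟨z, hx⟩ - 1) = 0 := by
    rw [map_sub, ← he, map_one, sub_self]
  have h2 := (IsLocalRing.residue_eq_zero_iff _).1 h1
  have h3 := (ValuationSubring.valuation_lt_one_iff V (⟨z, hx⟩ - 1)).1 h2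
  exact h3

theorem not_dvd {p q : ℕ} (hp5 : 5 ≤ p) (hpq : p ≤ q) (h : p ∣ q) : ¬ p ∣ q - 1 := by
  intro h11
  have h14 := Nat.dvd_sub h h11
  have h15 : q - (q - 1) = 1 := by omega
  rw [h15] at h14
  have := Nat.le_of_dvd one_pos h14
  omega

theorem rsd_one (V : ValuationSubring ℂ) : rsd V (1 : ℂ) = 1 := by
  unfold rsd
  rw [dif_pos (one_mem V)]
  exact map_one (IsLocalRing.residue V)

end ERQ

open REDQ _root_.Pool.Agent.TWQ.ERQ in
/-- (ERQ) -/
theorem t_ERQ (hIDQ : S_IDQ) (hTEQ : S_TEQ) (hTHQ : S_THQ) : S_ERQ := by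
  intro p q A B P P' V V' f hS hS' hT ι _ R w w' hw hw' kp kp' eta eta' b e' b' hC hb1 hb2 hC'
    l N hl hpl1 hlf ψ ψ' D h hs
  let _ := algC h
  intro χ χ' hχχ hχ hχ'
  by_contra he
  have he1 : e' = 1 := by
    have h1 := hC'.e1
    clear hχ hχ' hχχ
    omega
  subst he1
  obtain ⟨hm0, hpm, hM0, hm3, hM3, hcop⟩ := lev hIDQ hS R N hl hlf
  obtain ⟨⟨hcq, hp, hp5, hpq, hPp, hOv, hf0, hpf, hfD, hPP, hPc⟩, hZ, ⟨T, hTr⟩, hTc, -, -, -⟩ :=
    hIDQ p q A B P P' V f hS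
  obtain ⟨⟨-, -, -, -, hPp', -⟩, -, -, -, hlv, hlv2, -⟩ := hIDQ p q A B P' P V' f hS'
  obtain ⟨w1, w2, w3, w4, w5, w6, w7, w8⟩ := hTEQ p q A B P P' V f hS w hw
  obtain ⟨w1', -⟩ := hTEQ p q A B P' P V' f hS' w' hw'
  have hvp := v_p_lt hIDQ hS
  -- `P' = cjI P`
  have hP' : P' = cjI P := by
    rcases hC.bb with ⟨-, h2⟩ | ⟨h1, -⟩
    · omega
    · exact h1
  have hmem : ∀ x : OO A B, x ∈ P' ↔ star x ∈ P := fun x => by
    rw [hP']
    exact Iff.rfl
  set m : ℕ := f * l ^ N with hm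
  have hfin := hT.fin _ (CRA.idl_ne (A := A) (B := B) hM0)
  have hgal := hT.gal _ (CRA.idl_ne (A := A) (B := B) hM0)
  have hcomm := hT.comm _ (CRA.idl_ne (A := A) (B := B) hM0)
  obtain ⟨-, q2, -, -, -, q6⟩ := t_HTF A B hcq hT (p * f) ι R (m * p) hM3 hcop
  obtain ⟨-, -, -, -, me2⟩ := ty_MEM A B _ hfin hgal hcomm D h hs 1 one_ne_zero
  obtain ⟨x0, y0, hxy⟩ := hlv m hm3 hpm
  obtain ⟨hac, -⟩ := hlv2 m x0 y0 hxy
  have THQ1 := hTHQ p q A B P P' V f hS ι R w hw kp eta 1 b hC l N hl hlf ψ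
  have THQ2 := hTHQ p q A B P' P V' f hS' ι R w' hw' kp' eta' 1 b' hC' l N hl hlf ψ'
  -- the powers of `w`
  have key : ∀ c : OO A B, c ∉ P' → w (star c * (m * star y0)) ^ b = 1 := by
    intro c hc
    obtain ⟨hc1, hc2⟩ := hac c hc
    set a : OO A B := x0 + c * m * y0 with ha
    obtain ⟨σ, hσ⟩ := q2 R.i0 a hc1
    obtain ⟨τ, hτ⟩ := me2 σ
    have hr := q6 (m * p) dvd_rfl hM3 D h hs τ σ R.i0 a hτ hσ
    have ha1 : a - 1 ∈ (idl m : Ideal (OO A B)) := Ideal.mul_le_left hc2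
    -- `χ' τ = 1`
    have h1 := hχ' τ _ hr
    have h2 : thQ R kp' eta' ψ' w' 1 b' R.i0 a = 1 := by
      have h3 := THQ2.2.2.2.2.1 R.i0 1 a hc2
      rw [one_mul, Nat.sub_self, pow_zero, mul_one] at h3
      rw [h3]
      unfold thQ
      rw [val_one R hC' ψ' (by rw [sub_self]; exact Ideal.zero_mem _), star_one, w1']
      simp
    rw [THQ2.1 R.i0 _ a (by
      rw [← Ideal.Quotient.eq]
      exact Quotient.out_eq _), h2, rsd_one] at h1
    have h4 : χ' τ = 1 := inv_eq_one.1 (Units.ext h1.symm)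
    have h5 := hχχ τ h4
    have h6 := hχ τ _ hr
    rw [THQ1.1 R.i0 _ a (by
      rw [← Ideal.Quotient.eq]
      exact Quotient.out_eq _), h5] at h6
    have h7 : thQ R kp eta ψ w 1 b R.i0 a = w (star a) ^ b := by
      unfold thQ
      rw [val_one R hC ψ ha1, Nat.sub_self, pow_zero, one_mul, one_mul]
    rw [h7] at h6
    have h8 : rsd V (w (star a) ^ b) = 1 := by
      rw [h6]
      simp
    have h9 : star a ∉ P := (not_mem hIDQ hS hc1).2
    have h10 : w (star a) ^ b = 1 := by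
      refine Pool.Agent.TWX.eq_one_of_congr V p hp hvp (q - 1) ?_ _ ?_ (val_lt V h8)
      · refine not_dvd hp5 hpq ?_
        rcases hS.2 with h | h
        · rw [h.2.2]
          exact dvd_pow_self p two_ne_zero
        · rw [h.2.2]
      · rw [← pow_mul, mul_comm, pow_mul, (w5 _ h9).1, one_pow]
    have h13 : star a - star c * (m * star y0) ∈ P := by
      have h14 : star a - star c * (m * star y0) = star x0 := by
        rw [ha, star_add, star_mul', star_mul', star_natCast]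
        ring
      rw [h14]
      exact (hmem x0).1 hxy.xP
    rw [← w3 _ _ h13]
    exact h10
  have hone : (1 : OO A B) ∉ P' := fun h1 => hPp'.ne_top ((Ideal.eq_top_iff_one _).2 h1)
  have key1 : w (m * star y0) ^ b = 1 := by
    have := key 1 hone
    rwa [star_one, one_mul] at this
  have key2 : ∀ d : OO A B, d ∉ P → w d ^ b = 1 := by
    intro d hd
    have h1 : star d ∉ P' := fun h2 => hd (by have := (hmem _).1 h2; rwa [star_star] at this)
    have h2 := key (star d) h1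
    rw [star_star, w2, mul_pow, key1, mul_one] at h2
    exact h2
  obtain ⟨hsum, -⟩ := w8 T hTr
  have h3 := hsum b hb1 hb2
  rw [Finset.sum_congr rfl fun c hc => key2 c (hTr.nz c hc), Finset.sum_const, hTc T hTr,
    nsmul_eq_mul, mul_one] at h3
  have h4 : q - 1 = 0 := by exact_mod_cast h3
  omega

end

end Pool.Agent.TWQ


end

section

/-!
# TWQ, block C': the final theorem of the block (helper19)
-/

set_option autoImplicit false

namespace Pool.Agent.TWQ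

theorem a_SALQ : S_SALQ :=
  t_SALQ (t_DLCQ t_NEAQ t_IDQ t_VPQ) t_IDQ t_VPQ t_TEQ t_LOQI t_LOQS

/-- `S_SYMQ`, no hypothesis. -/
theorem a_SYMQ : S_SYMQ := t_SYMQ t_TYPQ a_SALQ

end Pool.Agent.TWQ


end
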