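import Pool.Agent.TWM.C13
import Pool.Agent.TWM.C24
import Pool.Agent.TWM.C28
import Pool.Agent.TWM.C33
import Pool.Agent.TWZ.C03
import Pool.Agent.TWZ.C04
import Pool.Agent.TWZ.C05
import Pool.Agent.TWZ.C07
import Pool.Agent.TWZ.C08

/-! Parts: TWQ.UAllZ -/

section

/-!
# TWQ: the unit theorem, no hypotheses
-/

set_option autoImplicit false

open NumberField IsDedekindDomain

namespace Pool.Agent.TWQ

theorem a_REDQ : S_REDQ := t_REDQ a_IDQ a_TEQ a_THQ t_RGMQ t_DSQ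

theorem a_ERQ : S_ERQ := t_ERQ a_IDQ a_TEQ a_THQ

theorem a_UNQV : S_UNQV :=
  t_UNQV a_IDQ a_SYMQ a_CRTQ a_FACQ (t_FAQ a_IDQ a_TEQ) t_TRVQ a_ERQ a_REDQ
    Pool.Agent.TWG.t_SYMA Pool.Agent.TWI.z_SYMI (Pool.Agent.TWT.t_CRIT Pool.Agent.TWT.a_KEYA)
    Pool.Agent.TWI.a_CRITI

theorem a_UNQ : S_UNQ := t_UNQ a_UNQV

end Pool.Agent.TWQ


end
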